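import Pool.Agent.CAN.LDB

/-!
# CAN/COH: adding a Cohen subset of `ω₁`

`K = Co`, `Good = ⊤`, `v = ⊤`, `ht = Co.l`.  `lim`: `c'` with `l = δ.s` and `s = (⋃ n, (cs n).s)` (`∪ {δ}` for the ladder `co_ladder_in`).  Note `a ∈ (cs n).s ↔ a ∈ (cs m).s` for `m ≥ n`,
`a < (cs n).l`, by iterating `anti`.  `high`: enlarge `l` (keep `s`).
`CoS_compl`: if `a < c.l`, `a ∉ c.s`, and `Pos A ⊤ b c`, then `ι b c ⊓ CoS ι a = ⊥`: otherwise `ι b c ⊓ ι ⊤ c1 ≠ ⊥` for some `c1` with `a ∈ c1.s`, a condition `ι b' c2` is below both (`dense`), by `sep`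
(twice) there is a condition `(b'', c'')` with `c'' ≤ c` and `c'' ≤ c1` (apply `sep` to `ι b' c2 ≤ ι b c`, giving `(b₃, c₃) ≤ (b', c2)`, `c₃ ≤ c`; then `ι b₃ c₃ ≤ ι b' c2 ≤ ι ⊤ c1` and `sep` again).
`CoS_le`: `ι b c ≤ ι ⊤ c ≤ CoS ι a` if `a ∈ c.s` (then `a < c.l`).
`CoS_unb`: for `⊥ ≠ x ∈ C` there is a condition `ι b c ≤ x`; extend `c` to `c'` of length above `a.s, c.l` not containing the new elements: `ι b c' ≤ (CoS ι y)ᶜ` for some `y > a`.  The same for `CoS ι y`.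
`cohen_np`: `lad_pp` and `lad_nnv` with `v = ⊤`.
-/

set_option autoImplicit false

namespace Pool.Agent.CAN

variable {B : Type 1} [CompleteBooleanAlgebra B] {A C : Set B} {ι : B → Co → B}

private theorem COH_mem {c : ℕ → Co} (h : ∀ n, c (n + 1) ≤ c n) {m n : ℕ} {x : Om} (hx : x ∈ (c m).s)
    (hxn : x < (c n).l) : x ∈ (c n).s := by
  have ha : Antitone c := antitone_nat_of_succ_le h
  rcases le_total m n with hmn | hmn
  · exact ((ha hmn).2 x ((c m).sub x hx)).2 hx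
  · exact ((ha hmn).2 x hxn).1 hx

private theorem COH_high {a : B} {c : Co} (hp : Pos A (fun _ : Co => (⊤ : B)) a c) (b : Om) :
    ∃ a' c', Pos A (fun _ : Co => (⊤ : B)) a' c' ∧ a' ≤ a ∧ c' ≤ c ∧ b < Co.l c' := by
  refine ⟨a, ⟨max b.s c.l, c.s, fun x hx => (c.sub x hx).trans_le (le_max_right _ _)⟩, hp, le_rfl,
    ⟨le_max_right _ _, fun _ _ => Iff.rfl⟩, ?_⟩
  exact (Om.lt_s b).trans_le (le_max_left _ _)

theorem co_ladder_out (hA : CSub A) :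
    Ladder A (fun _ : Co => (⊤ : B)) (fun _ => ⊤) Co.l (fun c δ => δ < c.l ∧ δ ∉ c.s) := by
  refine ⟨fun _ => hA.top, ?_, fun a c hp b => COH_high hp b, ?_, fun _ _ h => h.1⟩
  · intro c δ hδ hc hlt hcof
    refine ⟨⟨δ.s, {a | ∃ n, a ∈ (c n).s}, ?_⟩, fun n => ⟨?_, ?_⟩, rfl, ⟨Om.lt_s δ, ?_⟩, le_top⟩
    · rintro a ⟨n, hn⟩
      exact ((c n).sub a hn).trans ((hlt n).trans (Om.lt_s δ))
    · exact ((hlt n).trans (Om.lt_s δ)).le
    · intro a ha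
      constructor
      · rintro ⟨m, hm⟩
        exact COH_mem hc hm ha
      · intro h
        exact ⟨n, h⟩
    · rintro ⟨n, hn⟩
      exact absurd (((c n).sub δ hn).trans (hlt n)) (lt_irrefl _)
  · intro c c' δ h hδ
    exact ⟨hδ.1.trans_le h.1, fun hcon => hδ.2 ((h.2 δ hδ.1).1 hcon)⟩

theorem co_ladder_in (hA : CSub A) :
    Ladder A (fun _ : Co => (⊤ : B)) (fun _ => ⊤) Co.l (fun c δ => δ < c.l ∧ δ ∈ c.s) := by
  refine ⟨fun _ => hA.top, ?_, fun a c hp b => COH_high hp b, ?_, fun _ _ h => h.1⟩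
  · intro c δ hδ hc hlt hcof
    refine ⟨⟨δ.s, {a | a = δ ∨ ∃ n, a ∈ (c n).s}, ?_⟩, fun n => ⟨?_, ?_⟩, rfl, ⟨Om.lt_s δ, Or.inl rfl⟩, le_top⟩
    · rintro a (rfl | ⟨n, hn⟩)
      · exact Om.lt_s _
      · exact ((c n).sub a hn).trans ((hlt n).trans (Om.lt_s δ))
    · exact ((hlt n).trans (Om.lt_s δ)).le
    · intro a ha
      constructor
      · rintro (h | ⟨m, hm⟩)
        · subst h
          exact absurd (ha.trans (hlt n)) (lt_irrefl _)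
        · exact COH_mem hc hm ha
      · intro h
        exact Or.inr ⟨n, h⟩
  · intro c c' δ h hδ
    exact ⟨hδ.1.trans_le h.1, (h.2 δ hδ.1).2 hδ.2⟩

private theorem COH_pos (h : Two A C (fun _ : Co => (⊤ : B)) ι) (hB : (⊤ : B) ≠ ⊥) (c : Co) :
    Pos A (fun _ : Co => (⊤ : B)) ⊤ c := ⟨h.subA.top, hB, le_rfl⟩

theorem CoS_mem (h : Two A C (fun _ : Co => (⊤ : B)) ι) (a : Om) : CoS ι a ∈ C := by
  by_cases hB : (⊤ : B) = ⊥
  · have h1 : CoS ι a = ⊤ := by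
      apply le_antisymm le_top
      rw [hB]
      exact bot_le
    rw [h1]
    exact h.subC.top
  · unfold CoS
    exact h.subC.iSup fun c => h.subC.iSup fun _ => h.mem ⊤ c (COH_pos h hB c)

private theorem COH_res (h : Two A C (fun _ : Co => (⊤ : B)) ι) {b b' : B} {c : Co} (hb : b ∈ A) (hb0 : b ≠ ⊥)
    (hp : Pos A (fun _ : Co => (⊤ : B)) b' c) (hbb : b ≤ b') : ι b c ≤ ι b' c := by
  have e : b ⊓ b' = b := inf_eq_left.2 hbb
  have h1 := h.res b' b c hp (by rw [e]; exact ⟨hb, hb0, le_top⟩) hb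
  rw [e] at h1
  rw [h1]
  exact inf_le_right

theorem CoS_le (h : Two A C (fun _ : Co => (⊤ : B)) ι) {a : Om} {b : B} {c : Co}
    (hp : Pos A (fun _ : Co => (⊤ : B)) b c) (ha : a ∈ c.s) : ι b c ≤ CoS ι a := by
  have hB : (⊤ : B) ≠ ⊥ := by
    intro h1
    exact hp.2.1 (le_bot_iff.1 (h1 ▸ le_top))
  refine (COH_res h hp.1 hp.2.1 (COH_pos h hB c) le_top).trans ?_
  unfold CoS
  exact le_iSup₂_of_le c ⟨c.sub a ha, ha⟩ le_rfl

theorem CoS_compl (h : Two A C (fun _ : Co => (⊤ : B)) ι) {a : Om} {b : B} {c : Co}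
    (hp : Pos A (fun _ : Co => (⊤ : B)) b c) (ha : a < c.l) (ha' : a ∉ c.s) : ι b c ≤ (CoS ι a)ᶜ := by
  have hB : (⊤ : B) ≠ ⊥ := by
    intro h1
    exact hp.2.1 (le_bot_iff.1 (h1 ▸ le_top))
  rw [le_compl_iff_disjoint_right, disjoint_iff]
  unfold CoS
  rw [inf_iSup_eq, iSup_eq_bot]
  intro c1
  rw [inf_iSup_eq, iSup_eq_bot]
  rintro ⟨h1, h2⟩
  by_contra hne
  obtain ⟨b2, c2, hp2, hle2⟩ := h.dense _ (h.subC.and (h.mem b c hp) (h.mem ⊤ c1 (COH_pos h hB c1))) hne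
  obtain ⟨b3, c3, hp3, hb3, hb3', hc3, hc3'⟩ := h.sep b c b2 c2 hp hp2 (hle2.trans inf_le_left)
  have h3 : ι b3 c3 ≤ ι ⊤ c1 := by
    refine (h.mono b3 c2 c3 hc3' hp3).trans ?_
    refine (COH_res h hp3.1 hp3.2.1 hp2 hb3').trans ?_
    exact hle2.trans inf_le_right
  obtain ⟨b4, c4, hp4, _, _, hc4, hc4'⟩ := h.sep ⊤ c1 b3 c3 (COH_pos h hB c1) hp3 h3
  have h4 : a ∈ c4.s := (hc4.2 a h1).2 h2
  exact ha' (((hc4'.trans hc3).2 a ha).1 h4)

theorem CoS_tg_out (h : Two A C (fun _ : Co => (⊤ : B)) ι) (δ : Om) :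
    tg A (fun _ : Co => (⊤ : B)) ι (fun c δ => δ < c.l ∧ δ ∉ c.s) δ ≤ (CoS ι δ)ᶜ := by
  unfold tg
  refine iSup_le fun a => iSup_le fun c => iSup_le ?_
  rintro ⟨hp, h1, h2⟩
  exact CoS_compl h hp h1 h2

theorem CoS_tg_in (h : Two A C (fun _ : Co => (⊤ : B)) ι) (δ : Om) :
    tg A (fun _ : Co => (⊤ : B)) ι (fun c δ => δ < c.l ∧ δ ∈ c.s) δ ≤ CoS ι δ := by
  unfold tg
  refine iSup_le fun a => iSup_le fun c => iSup_le ?_
  rintro ⟨hp, h1, h2⟩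
  exact CoS_le h hp h2

private theorem COH_ne (h : Two A C (fun _ : Co => (⊤ : B)) ι) {b : B} {c : Co}
    (hp : Pos A (fun _ : Co => (⊤ : B)) b c) : ι b c ≠ ⊥ := by
  intro h1
  have h2 := h.proj b c hp
  rw [h1, proj_bot h.subA] at h2
  exact hp.2.1 h2.symm

private theorem COH_top (h : Two A C (fun _ : Co => (⊤ : B)) ι) {x : B} (hx : x ∈ C)
    (hd : ∀ b c, Pos A (fun _ : Co => (⊤ : B)) b c → ∃ c', c' ≤ c ∧ ι b c' ≤ x) : x = ⊤ := by
  by_contra hne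
  have h1 : xᶜ ≠ ⊥ := fun h2 => hne (compl_eq_bot.1 h2)
  obtain ⟨b, c, hp, hle⟩ := h.dense _ (h.subC.compl x hx) h1
  obtain ⟨c', hc', hle'⟩ := hd b c hp
  have hp' : Pos A (fun _ : Co => (⊤ : B)) b c' := ⟨hp.1, hp.2.1, le_top⟩
  refine COH_ne h hp' (le_bot_iff.1 ?_)
  calc ι b c' ≤ x ⊓ xᶜ := le_inf hle' ((h.mono b c c' hc' hp').trans hle)
    _ = ⊥ := inf_compl_eq_bot

theorem CoS_unb (h : Two A C (fun _ : Co => (⊤ : B)) ι) (a : Om) :
    (⨆ (x : Om) (_ : a < x), (CoS ι x)ᶜ) = ⊤ ∧ (⨆ (x : Om) (_ : a < x), CoS ι x) = ⊤ := by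
  constructor
  · refine COH_top h (h.subC.iSup fun x => h.subC.iSup fun _ => h.subC.compl _ (CoS_mem h x)) ?_
    intro b c hp
    obtain ⟨x, hx⟩ : ∃ x, x = max a.s c.l := ⟨_, rfl⟩
    have hax : a < x := (Om.lt_s a).trans_le (hx ▸ le_max_left _ _)
    have hcx : c.l ≤ x := hx ▸ le_max_right _ _
    refine ⟨⟨x.s, c.s, fun y hy => (c.sub y hy).trans_le (hcx.trans (Om.lt_s x).le)⟩,
      ⟨hcx.trans (Om.lt_s x).le, fun _ _ => Iff.rfl⟩, ?_⟩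
    refine le_iSup₂_of_le x hax ?_
    exact CoS_compl h ⟨hp.1, hp.2.1, le_top⟩ (Om.lt_s x) fun hcon => absurd (c.sub x hcon) (not_lt.2 hcx)
  · refine COH_top h (h.subC.iSup fun x => h.subC.iSup fun _ => CoS_mem h x) ?_
    intro b c hp
    obtain ⟨x, hx⟩ : ∃ x, x = max a.s c.l := ⟨_, rfl⟩
    have hax : a < x := (Om.lt_s a).trans_le (hx ▸ le_max_left _ _)
    have hcx : c.l ≤ x := hx ▸ le_max_right _ _
    refine ⟨⟨x.s, insert x c.s, ?_⟩, ⟨hcx.trans (Om.lt_s x).le, ?_⟩, ?_⟩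
    · rintro y (rfl | hy)
      · exact Om.lt_s _
      · exact (c.sub y hy).trans_le (hcx.trans (Om.lt_s x).le)
    · intro y hy
      constructor
      · rintro (h1 | h1)
        · rw [h1] at hy
          exact absurd hy (not_lt.2 hcx)
        · exact h1
      · intro h1
        exact Or.inr h1
    · refine le_iSup₂_of_le x hax ?_
      exact CoS_le h ⟨hp.1, hp.2.1, le_top⟩ (Or.inl rfl)

theorem cohen_np (h : Two A C (fun _ : Co => (⊤ : B)) ι) (hd : Distr A) : NP A C := by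
  constructor
  · obtain ⟨F, hF⟩ := lad_pp h hd (co_ladder_out h.subA)
    refine ⟨F, fun W i hW => ?_⟩
    intro j hj q hq hqM
    have h1 := hF W i hW j hj q hq hqM
    simp only [iInf_top, inf_top_eq] at h1
    exact h1.trans (proj_mono inf_le_left)
  · obtain ⟨F, hF⟩ := lad_nnv h (co_ladder_out h.subA)
    refine ⟨F, fun M W i hM hW hMW => ?_⟩
    intro G hG hG' q hq hqM hqG
    obtain ⟨j, hj, G', h1, h2, h3, h4⟩ := hF M W i hM hW hMW G hG hG' q hq hqM hqG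
    rw [inf_top_eq] at h4
    exact ⟨j, hj, G', h1, h2, h3, h4⟩

end Pool.Agent.CAN
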