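import Pool.Agent.CAN.TDefs

/-!
# CAN/CSR: the range of a complete embedding is a complete subalgebra (shared by the parts E and H)
-/

set_option autoImplicit false

namespace Pool.Agent.CAN

theorem CEmb.csub_range {A C : Type 1} [CompleteBooleanAlgebra A] [CompleteBooleanAlgebra C] {f : A → C} (hf : CEmb f) :
    CSub (Set.range f) := by
  constructor
  · intro s hs
    obtain ⟨t, rfl⟩ := Set.subset_range_iff_exists_image_eq.1 hs
    exact ⟨sSup t, hf.sup t⟩
  · rintro _ ⟨x, rfl⟩
    exact ⟨xᶜ, hf.compl x⟩

end Pool.Agent.CAN
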