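import Pool.Agent.CAN.Defs

/-!
# CAN/OMB: countable ordinals

Everything follows from the corresponding facts on ordinals below `ω₁ = Ordinal.omega 1` (`Om` is the subtype):
`(Cardinal.isSuccLimit_omega 1)`, `Ordinal.omega_pos`, an ordinal `a < ω₁` has countably many predecessors
(`a.card ≤ ℵ₀`; the type `Set.Iio a` is equivalent to `a.ToType`), the supremum of countably many ordinals `< ω₁` is `< ω₁`
(e.g. `Ordinal.iSup_lt_ord...` with `cof ω₁ = ℵ₁`), and `ω₁` is uncountable.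
For `exists_cof`: the set `Set.Iio k` is countable and infinite; enumerate it as `e n`; define `f 0 = i` and
`f (n+1) =` something `< k` above `f n` and `e n` (`k` is a limit).
-/

set_option autoImplicit false

namespace Pool.Agent.CAN

/-- The least countable ordinal. -/
noncomputable def Om.z : Om := ⟨0, Ordinal.omega_pos 1⟩

theorem Om.z_le (a : Om) : Om.z ≤ a := by
  show (0 : Ordinal.{0}) ≤ a.1
  exact zero_le

theorem Om.lt_s (a : Om) : a < a.s := by
  show a.1 < Order.succ a.1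
  exact Order.lt_succ _

theorem Om.s_le {a b : Om} : a.s ≤ b ↔ a < b := by
  show Order.succ a.1 ≤ b.1 ↔ a.1 < b.1
  exact Order.succ_le_iff

theorem Om.lt_s_iff {a b : Om} : a < b.s ↔ a ≤ b := by
  show a.1 < Order.succ b.1 ↔ a.1 ≤ b.1
  exact Order.lt_succ_iff

theorem Om.cases (k : Om) : k = Om.z ∨ (∃ j : Om, k = j.s) ∨ Lim k := by
  by_cases h0 : k = Om.z
  · exact Or.inl h0
  by_cases h1 : ∃ j : Om, k = j.s
  · exact Or.inr (Or.inl h1)
  refine Or.inr (Or.inr ⟨⟨Om.z, lt_of_le_of_ne (Om.z_le k) (Ne.symm h0)⟩, fun j hj => ?_⟩)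
  exact ⟨j.s, Om.lt_s j, lt_of_le_of_ne (Om.s_le.2 hj) fun h => h1 ⟨j, h.symm⟩⟩

theorem Om.lim_s {k : Om} (hk : Lim k) {j : Om} (hj : j < k) : j.s < k := by
  obtain ⟨i, h1, h2⟩ := hk.2 j hj
  exact lt_of_le_of_lt (Om.s_le.2 h1) h2

private theorem OMB_Iio (a : Ordinal.{0}) (ha : a < Ordinal.omega 1) : (Set.Iio a).Countable := by
  rw [← Cardinal.le_aleph0_iff_set_countable, Cardinal.mk_Iio_ordinal, Cardinal.lift_le_aleph0]
  have h : a.card < Cardinal.aleph 1 := by
    rwa [← Cardinal.ord_aleph, Cardinal.lt_ord] at ha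
  rwa [← Cardinal.succ_aleph0, Order.lt_succ_iff] at h

theorem Om.Iio_countable (k : Om) : (Set.Iio k).Countable := by
  have h := OMB_Iio k.1 k.2
  have h2 := h.preimage_of_injOn (f := fun a : Om => a.1) (fun a _ b _ hab => Subtype.ext hab)
  exact h2

theorem Om.Iic_countable (k : Om) : (Set.Iic k).Countable := by
  refine (Om.Iio_countable k.s).mono fun a ha => ?_
  exact Om.lt_s_iff.2 ha

/-- Countable sets of countable ordinals are bounded. -/
theorem Om.bdd {s : Set Om} (hs : s.Countable) : ∃ k : Om, ∀ a ∈ s, a < k := by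
  have : Countable s := hs.to_subtype
  have h1 : ∀ a : s, Order.succ a.1.1 < Ordinal.omega 1 := fun a => a.1.s.2
  refine ⟨⟨⨆ a : s, Order.succ a.1.1, Ordinal.iSup_lt_omega_one h1⟩, fun a ha => ?_⟩
  show a.1 < ⨆ a : s, Order.succ a.1.1
  exact lt_of_lt_of_le (Order.lt_succ a.1) (Ordinal.le_iSup (fun a : s => Order.succ a.1.1) ⟨a, ha⟩)

theorem Om.not_countable : ¬ (Set.univ : Set Om).Countable := by
  intro h
  obtain ⟨k, hk⟩ := Om.bdd h
  exact lt_irrefl k (hk k (Set.mem_univ k))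

/-- Countable sets of countable ordinals have a least upper bound. -/
theorem Om.exists_lub {s : Set Om} (hs : s.Countable) : ∃ k : Om, (∀ a ∈ s, a ≤ k) ∧ ∀ b, (∀ a ∈ s, a ≤ b) → k ≤ b := by
  obtain ⟨k₀, hk₀⟩ := Om.bdd hs
  obtain ⟨k, hk, hmin⟩ := (wellFounded_lt (α := Om)).has_min {k : Om | ∀ a ∈ s, a ≤ k}
    ⟨k₀, fun a ha => (hk₀ a ha).le⟩
  exact ⟨k, hk, fun b hb => not_lt.1 (hmin b hb)⟩

/-- A strictly increasing sequence has a supremum, which is a limit. -/
theorem Om.exists_sup (f : ℕ → Om) (hf : StrictMono f) :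
    ∃ k : Om, Lim k ∧ (∀ n, f n < k) ∧ ∀ a, a < k → ∃ n, a < f n := by
  obtain ⟨k, hk, hmin⟩ := Om.exists_lub (Set.countable_range f)
  have h1 : ∀ n, f n < k := fun n =>
    lt_of_lt_of_le (hf (Nat.lt_succ_self n)) (hk _ (Set.mem_range_self (n + 1)))
  have h2 : ∀ a, a < k → ∃ n, a < f n := by
    intro a ha
    by_contra hcon
    push Not at hcon
    refine absurd ha (not_lt.2 (hmin a ?_))
    rintro _ ⟨n, rfl⟩
    exact hcon n
  refine ⟨k, ⟨⟨f 0, h1 0⟩, fun j hj => ?_⟩, h1, h2⟩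
  obtain ⟨n, hn⟩ := h2 j hj
  exact ⟨f n, hn, h1 n⟩

theorem Om.exists_cof {k : Om} (hk : Lim k) {i : Om} (hi : i < k) :
    ∃ f : ℕ → Om, StrictMono f ∧ f 0 = i ∧ (∀ n, f n < k) ∧ ∀ a, a < k → ∃ n, a < f n := by
  obtain ⟨e, he⟩ := (Om.Iio_countable k).exists_eq_range ⟨i, hi⟩
  have hek : ∀ n, e n < k := fun n => by
    have : e n ∈ Set.Iio k := he ▸ Set.mem_range_self n
    exact this
  have hstep : ∀ (n : ℕ) (a : Set.Iio k), ∃ b : Set.Iio k, a.1 < b.1 ∧ e n < b.1 := by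
    intro n a
    obtain ⟨b, hb1, hb2⟩ := hk.2 (max a.1 (e n)) (max_lt a.2 (hek n))
    exact ⟨⟨b, hb2⟩, lt_of_le_of_lt (le_max_left _ _) hb1, lt_of_le_of_lt (le_max_right _ _) hb1⟩
  choose g hg1 hg2 using hstep
  let F : ℕ → Set.Iio k := fun n => Nat.rec (⟨i, hi⟩ : Set.Iio k) (fun n a => g n a) n
  have hF : ∀ n, F (n + 1) = g n (F n) := fun n => rfl
  refine ⟨fun n => (F n).1, strictMono_nat_of_lt_succ fun n => ?_, rfl, fun n => (F n).2, ?_⟩
  · show (F n).1 < (F (n + 1)).1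
    rw [hF]
    exact hg1 n _
  · intro a ha
    have : a ∈ Set.range e := he ▸ ha
    obtain ⟨n, rfl⟩ := this
    refine ⟨n + 1, ?_⟩
    show e n < (F (n + 1)).1
    rw [hF]
    exact hg2 n _

/-- Induction over an interval of countable ordinals starting with `i`. -/
theorem Om.induction {i : Om} {p : Om → Prop} (h0 : p i) (hs : ∀ k, i ≤ k → p k → p k.s)
    (hl : ∀ k, i < k → Lim k → (∀ j, i ≤ j → j < k → p j) → p k) : ∀ k, i ≤ k → p k := by
  intro k
  induction k using (wellFounded_lt (α := Om)).induction with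
  | _ k ih =>
    intro hik
    rcases eq_or_lt_of_le hik with h | h
    · rw [← h]
      exact h0
    · rcases Om.cases k with hz | ⟨j, hj⟩ | hlim
      · rw [hz] at h
        exact absurd h (not_lt.2 (Om.z_le i))
      · rw [hj] at h ih ⊢
        have h1 := Om.lt_s_iff.1 h
        exact hs j h1 (ih j (Om.lt_s j) h1)
      · exact hl k h hlim fun j hj1 hj2 => ih j hj2 hj1

end Pool.Agent.CAN
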