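import Pool.Agent.CAN.Defs

/-!
# CAN/PRA: complete subalgebras, projections

`A` is closed under `sSup` and complements, hence under `sInf`, `⊓`, `⊔`, and contains `⊥`, `⊤`.
* `proj_inf`: for `a ∈ A`: `≤` since `a ⊓ proj A x ∈ A` is above `a ⊓ x`.  `≥`: if `c ∈ A`, `a ⊓ x ≤ c` then
  `x ≤ aᶜ ⊔ c ∈ A` so `proj A x ≤ aᶜ ⊔ c` and `a ⊓ proj A x ≤ c`.
* `proj_sSup`: `≥` monotone; `≤`: `sSup (proj A '' s) ∈ A` is above `sSup s`.
* `proj_proj`: for `A ⊆ C`.
-/

set_option autoImplicit false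

namespace Pool.Agent.CAN

variable {B : Type 1} [CompleteBooleanAlgebra B] {A C : Set B}

theorem CSub.bot (h : CSub A) : ⊥ ∈ A := by
  have := h.sup ∅ (Set.empty_subset _)
  simpa using this

theorem CSub.top (h : CSub A) : ⊤ ∈ A := by
  have := h.compl _ h.bot
  simpa using this

theorem CSub.inf' (h : CSub A) {s : Set B} (hs : s ⊆ A) : sInf s ∈ A := by
  have h1 : (sSup ((fun x : B => xᶜ) '' s))ᶜ ∈ A := by
    refine h.compl _ (h.sup _ ?_)
    rintro _ ⟨x, hx, rfl⟩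
    exact h.compl _ (hs hx)
  have h2 : (sSup ((fun x : B => xᶜ) '' s))ᶜ = sInf s := by
    rw [sSup_image, compl_iSup, sInf_eq_iInf]
    refine iInf_congr fun x => ?_
    rw [compl_iSup]
    refine iInf_congr fun _ => ?_
    rw [compl_compl]
  rwa [h2] at h1

theorem CSub.and (h : CSub A) {x y : B} (hx : x ∈ A) (hy : y ∈ A) : x ⊓ y ∈ A := by
  rw [← sInf_pair]
  refine h.inf' ?_
  rintro z (rfl | rfl)
  · exact hx
  · exact hy

theorem CSub.or (h : CSub A) {x y : B} (hx : x ∈ A) (hy : y ∈ A) : x ⊔ y ∈ A := by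
  rw [← sSup_pair]
  refine h.sup _ ?_
  rintro z (rfl | rfl)
  · exact hx
  · exact hy

theorem CSub.iSup (h : CSub A) {ι : Sort*} {f : ι → B} (hf : ∀ i, f i ∈ A) : ⨆ i, f i ∈ A := by
  refine h.sup _ ?_
  rintro _ ⟨i, rfl⟩
  exact hf i

theorem CSub.iInf (h : CSub A) {ι : Sort*} {f : ι → B} (hf : ∀ i, f i ∈ A) : ⨅ i, f i ∈ A := by
  refine h.inf' ?_
  rintro _ ⟨i, rfl⟩
  exact hf i

theorem csub_univ : CSub (Set.univ : Set B) := by
  exact ⟨fun _ _ => Set.mem_univ _, fun _ _ => Set.mem_univ _⟩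

theorem csub_two : CSub ({⊥, ⊤} : Set B) := by
  constructor
  · intro s hs
    by_cases h : ⊤ ∈ s
    · right
      exact top_le_iff.1 (le_sSup h)
    · left
      refine le_bot_iff.1 (sSup_le ?_)
      intro x hx
      rcases hs hx with h1 | h1
      · exact h1.le
      · exact absurd (h1 ▸ hx) h
  · rintro x (rfl | rfl)
    · right
      exact compl_bot
    · left
      exact compl_top

theorem proj_mem (h : CSub A) (x : B) : proj A x ∈ A := by
  exact h.inf' fun _ ha => ha.1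

theorem le_proj (x : B) : x ≤ proj A x := by
  exact le_sInf fun _ ha => ha.2

theorem proj_le {x a : B} (ha : a ∈ A) (hx : x ≤ a) : proj A x ≤ a := by
  exact sInf_le ⟨ha, hx⟩

theorem proj_mono {x y : B} (hxy : x ≤ y) : proj A x ≤ proj A y := by
  exact sInf_le_sInf fun _ ha => ⟨ha.1, hxy.trans ha.2⟩

theorem proj_self {a : B} (ha : a ∈ A) : proj A a = a := by
  exact le_antisymm (proj_le ha le_rfl) (le_proj _)

theorem proj_bot (h : CSub A) : proj A (⊥ : B) = ⊥ := by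
  exact proj_self h.bot

theorem proj_eq_bot {x : B} (hx : proj A x = ⊥) : x = ⊥ := by
  exact le_bot_iff.1 ((le_proj x).trans hx.le)

theorem proj_inf (h : CSub A) {a : B} (ha : a ∈ A) (x : B) : proj A (a ⊓ x) = a ⊓ proj A x := by
  refine le_antisymm (proj_le (h.and ha (proj_mem h x)) (inf_le_inf_left _ (le_proj x))) ?_
  refine le_sInf ?_
  rintro c ⟨hc, hc'⟩
  have h1 : proj A x ≤ aᶜ ⊔ c := by
    refine proj_le (h.or (h.compl _ ha) hc) ?_
    calc x = (aᶜ ⊓ x) ⊔ (a ⊓ x) := by rw [← inf_sup_right, sup_comm, sup_compl_eq_top, top_inf_eq]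
      _ ≤ aᶜ ⊔ c := sup_le_sup inf_le_left hc'
  calc a ⊓ proj A x ≤ a ⊓ (aᶜ ⊔ c) := inf_le_inf_left _ h1
    _ = a ⊓ c := by rw [inf_sup_left, inf_compl_self, bot_sup_eq]
    _ ≤ c := inf_le_right

theorem proj_inf' (h : CSub A) {a : B} (ha : a ∈ A) (x : B) : proj A (x ⊓ a) = proj A x ⊓ a := by
  rw [inf_comm, proj_inf h ha, inf_comm]

theorem proj_sSup (h : CSub A) (s : Set B) : proj A (sSup s) = sSup (proj A '' s) := by
  apply le_antisymm
  · refine proj_le (h.sup _ ?_) ?_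
    · rintro _ ⟨x, _, rfl⟩
      exact proj_mem h x
    · refine sSup_le fun x hx => ?_
      exact (le_proj x).trans (le_sSup ⟨x, hx, rfl⟩)
  · refine sSup_le ?_
    rintro _ ⟨x, hx, rfl⟩
    exact proj_mono (le_sSup hx)

theorem proj_iSup (h : CSub A) {ι : Sort*} (f : ι → B) : proj A (⨆ i, f i) = ⨆ i, proj A (f i) := by
  rw [_root_.iSup, proj_sSup h, ← Set.range_comp]
  rfl

theorem proj_proj (h : CSub A) (hC : CSub C) (hAC : A ⊆ C) (x : B) : proj A (proj C x) = proj A x := by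
  refine le_antisymm ?_ (proj_mono (le_proj x))
  refine proj_le (proj_mem h x) ?_
  exact proj_le (hAC (proj_mem h x)) (le_proj x)

theorem proj_anti (hAC : A ⊆ C) (x : B) : proj C x ≤ proj A x := by
  exact sInf_le_sInf fun _ ha => ⟨hAC ha.1, ha.2⟩

theorem proj_two {x : B} (hx : x ≠ ⊥) : proj ({⊥, ⊤} : Set B) x = ⊤ := by
  refine top_le_iff.1 (le_sInf ?_)
  rintro a ⟨ha | ha, h2⟩
  · exact absurd (le_bot_iff.1 (h2.trans ha.le)) hx
  · exact (Set.mem_singleton_iff.1 ha).ge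

theorem inf_ne_bot_of_proj (h : CSub A) {a x : B} (ha : a ∈ A) (hx : a ⊓ proj A x ≠ ⊥) : a ⊓ x ≠ ⊥ := by
  intro h1
  apply hx
  rw [← proj_inf h ha, h1, proj_bot h]

/-- To show `a ≤ proj A x` it is enough that every nonzero `b ≤ a` in `A` meets `x`. -/
theorem le_proj_of_dense (h : CSub A) {a x : B} (ha : a ∈ A) (hx : ∀ b ∈ A, b ≠ ⊥ → b ≤ a → b ⊓ x ≠ ⊥) :
    a ≤ proj A x := by
  have h1 : a ⊓ (proj A x)ᶜ ∈ A := h.and ha (h.compl _ (proj_mem h x))
  by_contra hcon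
  have h2 : a ⊓ (proj A x)ᶜ ≠ ⊥ := by
    intro h3
    apply hcon
    exact disjoint_compl_right_iff.1 (disjoint_iff.2 h3)
  refine hx _ h1 h2 inf_le_left ?_
  refine le_bot_iff.1 ?_
  calc a ⊓ (proj A x)ᶜ ⊓ x ≤ (proj A x)ᶜ ⊓ proj A x := inf_le_inf inf_le_right (le_proj x)
    _ = ⊥ := by rw [inf_comm, inf_compl_self]

end Pool.Agent.CAN
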