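import Pool.Agent.CAN.TDefs
import Pool.Agent.CAN.PRA
import Pool.Agent.CAN.OMB

/-!
# CAN/CUL: closed bounded sets

`lim`: `c'` = union of the `(cs n).c` together with `δ`, height `δ.s`.  `a ∈ (cs n).c ↔ a ∈ (cs m).c` for `m ≥ n`, `a < (cs n).h`, so `c' ∩ (cs n).h = (cs n).c`.  Closed: a limit `a < δ` is `< (cs n).h` for some `n` and the
elements below `a` of `c'` are in `(cs n).c`; `a = δ ∈ c'`.  `ClGood`: for `x ∈ c'`, `x < δ`: `x ∈ (cs n).c` for some `n`; for `x = δ` use `v δ = (Sv δ)ᶜ`.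
`high`: let `(a, c)` be a condition and `b : Om`.  `a ≤ ⊤ = ⨆ x > max b c.h, (Sv x)ᶜ`, so `a' = a ⊓ (Sv x)ᶜ ≠ ⊥` for some `x > b, c.h`.  `c' = (x.s, c.c ∪ {x})`.
Closed: let `y < x.s` be a limit, elements of `c'` unbounded below `y`.  They are all in `c.c` (as `x` is not `< y`).  If `y < c.h` use `c.closed`.  If `c.h ≤ y`:
`c.max`: if `c.h = 0` there are no elements; if `c.h = t.s`, all elements are `≤ t < y` (as `t < c.h ≤ y`), so they are bounded below `y` by `t` (the element `> t` does not exist), contradiction.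
`a' ≤ ClGood c'` since `a ≤ ClGood c` and `a' ≤ (Sv x)ᶜ`.
`cl_top`: the empty set of height `0`.
-/

set_option autoImplicit false

namespace Pool.Agent.CAN

variable {B : Type 1} [CompleteBooleanAlgebra B] {A : Set B}

private theorem CUL_mem {c : ℕ → Cl} (h : ∀ n, c (n + 1) ≤ c n) {m n : ℕ} {x : Om} (hx : x ∈ (c m).c)
    (hxn : x < (c n).h) : x ∈ (c n).c := by
  have ha : Antitone c := antitone_nat_of_succ_le h
  rcases le_total m n with hmn | hmn
  · exact ((ha hmn).2 x ((c m).sub x hx)).2 hx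
  · exact ((ha hmn).2 x hxn).1 hx

theorem cl_anti (Sv : Om → B) {c c' : Cl} (h : c' ≤ c) : ClGood Sv c' ≤ ClGood Sv c := by
  unfold ClGood
  refine le_iInf₂ fun a ha => ?_
  exact iInf₂_le a ((h.2 a (c.sub a ha)).2 ha)

theorem cl_ladder (hA : CSub A) (Sv : Om → B) (hS : ∀ a, Sv a ∈ A)
    (hu : ∀ a, (⨆ (x : Om) (_ : a < x), (Sv x)ᶜ) = ⊤) :
    Ladder A (ClGood Sv) (fun δ => (Sv δ)ᶜ) Cl.h (fun _ _ => True) := by
  refine ⟨fun δ => hA.compl _ (hS δ), ?_, ?_, fun _ _ _ _ h => h, fun _ _ h => h.1⟩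
  · intro c δ hδ hc hlt hcof
    have hmem : ∀ {m n : ℕ} {x : Om}, x ∈ (c m).c → x < (c n).h → x ∈ (c n).c := fun h1 h2 => CUL_mem hc h1 h2
    let c' : Cl := ⟨δ.s, {a | a = δ ∨ ∃ n, a ∈ (c n).c}, by
        rintro a (rfl | ⟨n, hn⟩)
        · exact Om.lt_s _
        · exact ((c n).sub a hn).trans ((hlt n).trans (Om.lt_s δ)), by
        intro a ha hla hb
        rcases (Om.lt_s_iff.1 ha).eq_or_lt with h | h
        · exact Or.inl h
        · obtain ⟨n, hn⟩ := hcof a h
          refine Or.inr ⟨n, (c n).closed a hn hla fun b hba => ?_⟩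
          obtain ⟨x, hx, hbx, hxa⟩ := hb b hba
          refine ⟨x, ?_, hbx, hxa⟩
          rcases hx with hx | ⟨m, hm⟩
          · subst hx
            exact absurd (hxa.trans h) (lt_irrefl _)
          · exact hmem hm (hxa.trans hn), Or.inr ⟨δ, Or.inl rfl, rfl⟩⟩
    refine ⟨c', fun n => ⟨?_, ?_⟩, rfl, trivial, ?_⟩
    · exact ((hlt n).trans (Om.lt_s δ)).le
    · intro a ha
      constructor
      · rintro (h | ⟨m, hm⟩)
        · subst h
          exact absurd (ha.trans (hlt n)) (lt_irrefl _)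
        · exact hmem hm ha
      · intro h
        exact Or.inr ⟨n, h⟩
    · refine le_iInf₂ fun a ha => ?_
      rcases ha with h | ⟨n, hn⟩
      · subst h
        exact inf_le_right
      · exact inf_le_left.trans ((iInf_le _ n).trans (iInf₂_le a hn))
  · intro a c hp b
    obtain ⟨ha, ha0, hag⟩ := hp
    obtain ⟨x, hx, hx0⟩ : ∃ x, max b c.h < x ∧ a ⊓ (Sv x)ᶜ ≠ ⊥ := by
      by_contra hcon
      push Not at hcon
      apply ha0
      have h1 : a ⊓ ⨆ (x : Om) (_ : max b c.h < x), (Sv x)ᶜ = a := by rw [hu, inf_top_eq]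
      rw [← h1, inf_iSup_eq]
      rw [iSup_eq_bot]
      intro x
      rw [inf_iSup_eq, iSup_eq_bot]
      intro hx
      exact hcon x hx
    have hxh : c.h < x := (le_max_right _ _).trans_lt hx
    have hxb : b < x := (le_max_left _ _).trans_lt hx
    let c' : Cl := ⟨x.s, insert x c.c, by
        rintro y (rfl | hy)
        · exact Om.lt_s _
        · exact (c.sub y hy).trans (hxh.trans (Om.lt_s x)), by
        intro y hy hly hb'
        have hyx : y ≤ x := Om.lt_s_iff.1 hy
        have hb2 : ∀ b, b < y → ∃ z ∈ c.c, b < z ∧ z < y := by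
          intro b0 hb0
          obtain ⟨z, hz, h1, h2⟩ := hb' b0 hb0
          rcases hz with hz | hz
          · subst hz
            exact absurd (h2.trans_le hyx) (lt_irrefl _)
          · exact ⟨z, hz, h1, h2⟩
        rcases lt_or_ge y c.h with h | h
        · exact Or.inr (c.closed y h hly hb2)
        · exfalso
          rcases c.max with h0 | ⟨t, ht, hte⟩
          · obtain ⟨j, hj⟩ := hly.1
            obtain ⟨z, hz, _, _⟩ := hb2 j hj
            have h3 : z.1 < c.h.1 := c.sub z hz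
            rw [h0] at h3
            exact absurd h3 (not_lt.2 zero_le)
          · have h3 : t < y := (c.sub t ht).trans_le h
            obtain ⟨z, hz, h1, _⟩ := hb2 t h3
            have h4 := c.sub z hz
            rw [hte, Om.lt_s_iff] at h4
            exact absurd h1 (not_lt.2 h4), Or.inr ⟨x, Or.inl rfl, rfl⟩⟩
    refine ⟨a ⊓ (Sv x)ᶜ, c', ⟨hA.and ha (hA.compl _ (hS x)), hx0, ?_⟩, inf_le_left, ⟨?_, ?_⟩, ?_⟩
    · refine le_iInf₂ fun z hz => ?_
      rcases hz with hz | hz
      · subst hz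
        exact inf_le_right
      · exact inf_le_left.trans (hag.trans (iInf₂_le z hz))
    · exact (hxh.trans (Om.lt_s x)).le
    · intro z hz
      constructor
      · rintro (h | h)
        · subst h
          exact absurd (hz.trans hxh) (lt_irrefl _)
        · exact h
      · intro h
        exact Or.inr h
    · exact hxb.trans (Om.lt_s x)

theorem cl_top (Sv : Om → B) : ∃ c0 : Cl, ClGood Sv c0 = ⊤ ∧ ∀ c, c ≤ c0 := by
  refine ⟨⟨Om.z, ∅, fun a ha => absurd ha (Set.notMem_empty a),
    fun a ha => absurd ha (not_lt.2 (Om.z_le a)), Or.inl rfl⟩, ?_, fun c => ⟨Om.z_le _, ?_⟩⟩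
  · unfold ClGood
    simp
  · intro a ha
    exact absurd ha (not_lt.2 (Om.z_le a))

end Pool.Agent.CAN
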