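import Pool.Agent.CAN.COH
import Pool.Agent.CAN.CUL

/-!
# CAN/CUN: Cohen set, nice extension, club shooting: the composition is nice

Write `S δ = CoS ι1 δ`, `δ_k = del (W k)`.  `hu` of `cl_ladder` by `CoS_unb`.  `lad_pp`, `lad_nn` for `(A, C)` with the ladder `co_ladder_out`, and for `(E, D)` with `cl_ladder`.

PP: `q ∈ D`, `InM q (W i)`.  `x = proj E q`, `y = proj C x` are in `W i` (`Ev.fn1`).
(1) `ggen E ⊓ (⨅ k, (S δ_k)ᶜ) ⊓ x ≤ proj E (q ⊓ ggen D)` (club shooting).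
(2) `ggen C ⊓ y ≤ proj C (x ⊓ ggen E)` (`NP C E`).
(3) `ggen A ⊓ proj A y ≤ proj A (y ⊓ ggen C ⊓ ⨅ k, (S δ_k)ᶜ)` (Cohen, `CoS_tg_out`, `v = ⊤`).
So `ggen A ⊓ proj A q = ggen A ⊓ proj A y ≤ proj A (proj C (x ⊓ ggen E) ⊓ ⨅ (S δ_k)ᶜ) = proj A (proj C (x ⊓ ggen E ⊓ ⨅ (S δ_k)ᶜ))` (`S δ_k ∈ C`, `proj_inf'`) `≤ proj A (proj C (proj E (q ⊓ ggen D))) = proj A (q ⊓ ggen D)`.

NN: `G` with `InM G (W i)`, `GenF A M G`, `q ∈ D`, `proj A q ∈ G`; `x, y` as before.  If `sInf G = ⊥` then the inequality is trivial, but `G'` must exist: use `nn` of the three pairs one after the other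
(`lad_nnv` for `(A, C)`, `h2.nn`, `lad_nnv` for `(E, D)`; composition `nns_comp`-like with no inequality needed; the filters must be in the later models: `nns_choice` also works for `NNv`, or choose them by `Ev.wit`); take `j` arbitrary.
If `sInf G ≠ ⊥`: `lad_nn` for `(A, C)` and `y`: `G_C ∋ y`, `q0 ≤ sInf G_C`, `q0 ≤ (S (del M))ᶜ` (`CoS_tg_out`), `InM q0 (W i)`, `proj A q0 = sInf G`.  `h2.nn` for `G_C`, `x` from start `i`: `j ≥ i`, `G_E ∋ x`,
`sInf G_C ⊓ ggen C W i j ≤ proj C (sInf G_E)`.  `G_E` can be chosen `InM` of `W j.s` (`nns_choice`).  `lad_nnv` for `(E, D)` from start `j.s`: it gives some `j'`, which is not wanted; instead use `lad_one`/`gseq_genF` directly (no tower):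
there is `G_D` with `GenF D M G_D`, `q ∈ G_D`, `G_E ⊆ G_D` and `sInf G_E ⊓ (S (del M))ᶜ ≤ proj E (sInf G_D)` (`c'` from `lad_one`, `b = sInf G_E ⊓ (S (del M))ᶜ ≤ ClGood c'`; if `b = ⊥` trivial).  Then by PP of `(A, C)` for `q0` on `[i, j]`:
`ggen A W i j ⊓ proj A q0 ≤ proj A (q0 ⊓ ggen C W i j)`, so
`sInf G ⊓ ggen A W i j ≤ proj A (sInf G_C ⊓ ggen C W i j ⊓ (S (del M))ᶜ) ≤ proj A (proj C (sInf G_E) ⊓ (S (del M))ᶜ) = proj A (proj C (sInf G_E ⊓ (S (del M))ᶜ)) ≤ proj A (sInf G_D)`.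
-/

set_option autoImplicit false

namespace Pool.Agent.CAN

variable {B : Type 1} [CompleteBooleanAlgebra B]

theorem np_cu {A C E D : Set B} {ι1 : B → Co → B} {ι2 : B → Cl → B} (h1 : Two A C (fun _ : Co => (⊤ : B)) ι1)
    (hdA : Distr A) (hCE : C ⊆ E) (h2 : NP C E) (hdE : Distr E) (h3 : Two E D (ClGood (CoS ι1)) ι2) : NP A D := by
  have hA := h1.subA
  have hC := h1.subC
  have hE := h3.subA
  have hD := h3.subC
  have hAC := h1.incl
  have hED := h3.incl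
  have hSC : ∀ a, CoS ι1 a ∈ C := CoS_mem h1
  have hSE : ∀ a, CoS ι1 a ∈ E := fun a => hCE (hSC a)
  have L1 := co_ladder_out (A := A) hA
  have L2 := cl_ladder hE (CoS ι1) hSE (fun a => (CoS_unb h1 a).1)
  have P1 := lad_pp h1 hdA L1
  have P3 := lad_pp h3 hdE L2
  refine ⟨?_, ?_⟩
  · refine (((P1.and h2.pp).and P3).and ((EvT.of_ev (Ev.fn1 (fun q : B => proj E q))).and
      (EvT.of_ev (Ev.fn1 (fun q : B => proj C q))))).mono ?_
    rintro W i hW ⟨⟨⟨p1, p2⟩, p3⟩, f1, f2⟩ j hij q hq hqW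
    have hxW : InM (proj E q) (W i) := f1 i le_rfl q hqW
    have hyW : InM (proj C (proj E q)) (W i) := f2 i le_rfl _ hxW
    have e1 := p1 j hij (proj C (proj E q)) (proj_mem hC _) hyW
    have e2 := p2 j hij (proj E q) (proj_mem hE _) hxW
    have e3 := p3 j hij q hq hqW
    have hV : (⨅ (k : Om) (_ : i ≤ k) (_ : k ≤ j), (CoS ι1 (del (W k)))ᶜ) ∈ C :=
      hC.iInf fun k => hC.iInf fun _ => hC.iInf fun _ => hC.compl _ (hSC _)
    have hV' : (⨅ (k : Om) (_ : i ≤ k) (_ : k ≤ j),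
        tg A (fun _ : Co => (⊤ : B)) ι1 (fun c δ => δ < c.l ∧ δ ∉ c.s) (del (W k))) ≤
        (⨅ (k : Om) (_ : i ≤ k) (_ : k ≤ j), (CoS ι1 (del (W k)))ᶜ) :=
      iInf_mono fun k => iInf_mono fun _ => iInf_mono fun _ => CoS_tg_out h1 _
    rw [proj_proj hA hC hAC, proj_proj hA hE (hAC.trans hCE)] at e1
    simp only [iInf_top, inf_top_eq] at e1
    calc ggen A W i j ⊓ proj A q
        ≤ proj A (proj C (proj E q) ⊓ ggen C W i j ⊓ ⨅ (k : Om) (_ : i ≤ k) (_ : k ≤ j),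
          tg A (fun _ : Co => (⊤ : B)) ι1 (fun c δ => δ < c.l ∧ δ ∉ c.s) (del (W k))) := e1
      _ ≤ proj A (proj C (proj E q ⊓ ggen E W i j) ⊓
          (⨅ (k : Om) (_ : i ≤ k) (_ : k ≤ j), (CoS ι1 (del (W k)))ᶜ)) := by
          refine proj_mono (inf_le_inf ?_ hV')
          rw [inf_comm]
          exact e2
      _ = proj A (proj C (proj E q ⊓ ggen E W i j ⊓
          (⨅ (k : Om) (_ : i ≤ k) (_ : k ≤ j), (CoS ι1 (del (W k)))ᶜ))) := by
          rw [proj_inf' hC hV]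
      _ ≤ proj A (proj C (proj E (q ⊓ ggen D W i j))) := by
          refine proj_mono (proj_mono ?_)
          refine le_trans ?_ (e3.trans (proj_mono inf_le_left))
          refine le_inf (le_inf (inf_le_left.trans inf_le_right) inf_le_right) (inf_le_left.trans inf_le_left)
      _ = proj A (q ⊓ ggen D W i j) := by
          rw [proj_proj hC hE hCE, proj_proj hA hC hAC]
  · have hch := nns_choice (T := {X : Set B // CSub X}) (fun X => X.1) (fun X => X.2)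
    have hcoh := cohen_np h1 hdA
    refine ((((EvN.sub.and hch.shift).and ((EvN.of_ev (Ev.const (⟨A, hA⟩ : {X : Set B // CSub X}))).and
      ((EvN.of_ev (Ev.const (⟨C, hC⟩ : {X : Set B // CSub X}))).and
      (EvN.of_ev (Ev.const (⟨E, hE⟩ : {X : Set B // CSub X})))))).and
      ((hcoh.nn.and h2.nn.shift).and ((lad_nnv h3 L2).shift.and ((lad_nn h1 L1).and (lad_nn h3 L2).shift)))).and
      ((EvN.of_evT hcoh.pp).and ((EvN.of_ev (Ev.fn1 (fun q : B => proj E q))).and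
        (EvN.of_ev (Ev.fn1 (fun q : B => proj C q)))))).mono ?_
    rintro M W i _ ⟨⟨⟨⟨⟨hTw, hMi, hsub⟩, hch⟩, hAM, hCM, hEM⟩, ⟨n1, n2⟩, nv3, l1, l3⟩, p1, f1, f2⟩ G hG hGF q hq hqM hpq
    have hxM : InM (proj E q) M := f1 q hqM
    have hyM : InM (proj C (proj E q)) M := f2 _ hxM
    have hpy : proj A (proj C (proj E q)) ∈ G := by
      rw [proj_proj hA hC hAC, proj_proj hA hE (hAC.trans hCE)]
      exact hpq
    -- the last step
    have last : ∀ k, i ≤ k → ∀ GE : Set B, InM GE (W k) → GenF E M GE → proj E q ∈ GE →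
        ∃ GD : Set B, GenF D M GD ∧ q ∈ GD ∧ GE ⊆ GD ∧
          sInf GE ⊓ (CoS ι1 (del M))ᶜ ≤ proj E (sInf GD) := by
      intro k hk GE hGE hGEF hx
      by_cases h0 : sInf GE ⊓ (CoS ι1 (del M))ᶜ = ⊥
      · obtain ⟨j, _, GD, a1, a2, a3, _⟩ := nv3 k hk GE hGE hGEF q hq hqM hx
        exact ⟨GD, a1, a2, a3, h0.le.trans bot_le⟩
      · obtain ⟨GD, _, a1, a2, a3, q0, _, _, b1, _, b2⟩ := l3 k hk GE hGE hGEF h0 q hq hqM hx
        exact ⟨GD, a1, a2, a3, b2.ge.trans (proj_mono b1)⟩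
    by_cases h0 : sInf G = ⊥
    · obtain ⟨j1, hj1, G1, c1, c2, c3, c4, _⟩ := hch i le_rfl ⟨A, hA⟩ ⟨C, hC⟩ hAM hCM n1 G hG hGF
        (proj C (proj E q)) (proj_mem hC _) hyM hpy
      have hij1 : i ≤ j1.s := hj1.trans (Om.lt_s j1).le
      obtain ⟨j2, hj2, G2, d1, d2, d3, d4, _⟩ := hch j1.s hij1 ⟨C, hC⟩ ⟨E, hE⟩ hCM hEM (n2 j1.s hij1) G1 c1 c2
        (proj E q) (proj_mem hE _) hxM c3
      have hij2 : i ≤ j2.s := hij1.trans (hj2.trans (Om.lt_s j2).le)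
      obtain ⟨G3, e1, e2, e3, _⟩ := last j2.s hij2 G2 d1 d2 d3
      refine ⟨i, le_rfl, G3, e1, e2, (c4.trans d4).trans e3, ?_⟩
      rw [h0, bot_inf_eq]
      exact bot_le
    · have h0' : sInf G ⊓ (⊤ : B) ≠ ⊥ := by
        rw [inf_top_eq]
        exact h0
      obtain ⟨GC, c1, c2, c3, c4, q0, hq0, hq0W, hq1, hq2, hq3⟩ := l1 G hG hGF h0' (proj C (proj E q))
        (proj_mem hC _) hyM hpy
      obtain ⟨j, hij, GE, d1, d2, d3, d4, d5⟩ := hch i le_rfl ⟨C, hC⟩ ⟨E, hE⟩ hCM hEM (n2 i le_rfl) GC c1 c2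
        (proj E q) (proj_mem hE _) hxM c3
      obtain ⟨GD, e1, e2, e3, e4⟩ := last j.s (hij.trans (Om.lt_s j).le) GE d1 d2 d3
      refine ⟨j, hij, GD, e1, e2, (c4.trans d4).trans e3, ?_⟩
      have k1 := p1 j hij q0 hq0 hq0W
      rw [hq3, inf_top_eq] at k1
      have hq4 : q0 ≤ (CoS ι1 (del M))ᶜ := hq2.trans (CoS_tg_out h1 _)
      calc sInf G ⊓ ggen A W i j ≤ proj A (q0 ⊓ ggen C W i j) := by
            rw [inf_comm]
            exact k1
        _ ≤ proj A (proj C (sInf GE) ⊓ (CoS ι1 (del M))ᶜ) := by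
            refine proj_mono (le_inf ?_ (inf_le_left.trans hq4))
            exact (inf_le_inf_right _ hq1).trans d5
        _ = proj A (proj C (sInf GE ⊓ (CoS ι1 (del M))ᶜ)) := by
            rw [proj_inf' hC (hC.compl _ (hSC _))]
        _ ≤ proj A (proj C (proj E (sInf GD))) := proj_mono (proj_mono e4)
        _ = proj A (sInf GD) := by
            rw [proj_proj hC hE hCE, proj_proj hA hC hAC]

end Pool.Agent.CAN
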