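import Pool.Agent.CAN.TWC

/-!
# CAN/DEL: the ordinal `del M`

* `ev_del`: for `a ∈ₘ M` the countable set `Set.Iio a : Set Om` is `∈ₘ M` (`Ev.fn1`), so its elements are `∈ₘ M` (`Ev.ctbl`; `Om : Type 1`).
  So `{a | a ∈ₘ M}` is an initial segment; it is countable (`tr_countable`) so it is not everything (`Om.not_countable`),
  and `del M` is its least non-element (`WellFounded.min_mem`, `WellFounded.not_lt_min`).
* `ev_del_lim`: `M` contains `Om.z` and is closed under `Om.s`.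
* `evT_del`: `del (W k) ∈ₘ W k.s` since `W k ∈ W k.s` (`EvT.idx`, `Ev.fn1 del`), so `del (W k) < del (W k.s)`; for a limit `k`, an
  `a < del (W k)` is `∈ₘ W k`, so `∈ₘ W j` for some `j < k` (`Tw.cont`).
-/

set_option autoImplicit false

namespace Pool.Agent.CAN

private theorem DEL_ne {M : ZFSet.{1}} (hM : {x | x ∈ M}.Countable) :
    {a : Om | ¬ InM a M}.Nonempty := by
  by_contra h
  rw [Set.not_nonempty_iff_eq_empty] at h
  apply Om.not_countable
  have h1 : (Set.univ : Set Om) = {a : Om | InM a M} := by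
    ext a
    simp only [Set.mem_univ, Set.mem_ofPred_eq, true_iff]
    by_contra h2
    have h3 : a ∈ {a : Om | ¬ InM a M} := h2
    rw [h] at h3
    exact h3
  rw [h1]
  exact tr_countable hM

private theorem DEL_mem {M : ZFSet.{1}} (hM : {x | x ∈ M}.Countable) : ¬ InM (del M) M := by
  have h := DEL_ne hM
  have h1 : del M = WellFounded.min (wellFounded_lt (α := Om)) {a : Om | ¬ InM a M} h := by
    unfold del del.sInf'
    rw [dif_pos h]
  rw [h1]
  exact WellFounded.min_mem (wellFounded_lt (α := Om)) {a : Om | ¬ InM a M} h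

private theorem DEL_lt {M : ZFSet.{1}} (hM : {x | x ∈ M}.Countable) {a : Om} (ha : a < del M) :
    InM a M := by
  have h := DEL_ne hM
  have h1 : del M = WellFounded.min (wellFounded_lt (α := Om)) {a : Om | ¬ InM a M} h := by
    unfold del del.sInf'
    rw [dif_pos h]
  rw [h1] at ha
  by_contra h2
  exact WellFounded.not_lt_min (wellFounded_lt (α := Om)) {a : Om | ¬ InM a M} h2 ha

theorem ev_del : Ev (fun M => ∀ a : Om, InM a M ↔ a < del M) := by
  refine (((Ev.ctbl Om).and (Ev.fn1 (fun a : Om => Set.Iio a))).and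
    (Ev.mdl (fun _ _ => ∅))).mono ?_
  rintro M ⟨⟨h1, h2⟩, h3⟩ a
  constructor
  · intro ha
    by_contra hlt
    rcases eq_or_lt_of_le (not_lt.1 hlt) with h | h
    · exact DEL_mem h3.ctbl (h ▸ ha)
    · exact DEL_mem h3.ctbl (h1 (Set.Iio a) (h2 a ha) (Om.Iio_countable a) _ h)
  · exact fun ha => DEL_lt h3.ctbl ha

theorem ev_del_lim : Ev (fun M => Lim (del M)) := by
  refine ((ev_del.and (Ev.const Om.z)).and (Ev.fn1 Om.s)).mono ?_
  rintro M ⟨⟨h1, h2⟩, h3⟩
  refine ⟨⟨Om.z, (h1 _).1 h2⟩, fun j hj => ⟨j.s, Om.lt_s j, (h1 _).1 (h3 j ((h1 j).2 hj))⟩⟩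

theorem evT_del : EvT (fun W i =>
    (∀ k, i ≤ k → del (W k) < del (W k.s) ∧ InM (del (W k)) (W k.s)) ∧
    (∀ j k, i ≤ j → j ≤ k → del (W j) ≤ del (W k)) ∧
    (∀ j k, i ≤ j → j < k → del (W j) < del (W k) ∧ InM (del (W j)) (W k)) ∧
    (∀ k, i < k → Lim k → ∀ a, a < del (W k) → ∃ j, i ≤ j ∧ j < k ∧ a < del (W j))) := by
  refine (((EvT.of_ev ev_del).and EvT.idx).and
    (EvT.of_ev (Ev.fn1 (fun M : ZFSet.{1} => del M)))).mono ?_
  rintro W i hW ⟨⟨h1, h2⟩, h3⟩
  have hA : ∀ k, i ≤ k → InM (del (W k)) (W k.s) := by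
    intro k hk
    have h4 : InM (W k) (W k.s) := (h2 k hk k le_rfl).2
    exact h3 k.s (hk.trans (Om.lt_s k).le) (W k) h4
  have hA' : ∀ k, i ≤ k → del (W k) < del (W k.s) :=
    fun k hk => (h1 k.s (hk.trans (Om.lt_s k).le) _).1 (hA k hk)
  have hB : ∀ j k, i ≤ j → j ≤ k → del (W j) ≤ del (W k) := by
    intro j k hj hjk
    by_contra hlt
    have h4 : InM (del (W k)) (W j) := (h1 j hj _).2 (not_le.1 hlt)
    have h5 : InM (del (W k)) (W k) := hW.mono j k hjk h4
    exact lt_irrefl _ ((h1 k (hj.trans hjk) _).1 h5)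
  have hC : ∀ j k, i ≤ j → j < k → InM (del (W j)) (W k) :=
    fun j k hj hjk => hW.mono j.s k (Om.s_le.2 hjk) (hA j hj)
  refine ⟨fun k hk => ⟨hA' k hk, hA k hk⟩, hB,
    fun j k hj hjk => ⟨(h1 k (hj.trans hjk.le) _).1 (hC j k hj hjk), hC j k hj hjk⟩, ?_⟩
  intro k hik hk a ha
  have h4 : InM a (W k) := (h1 k hik.le _).2 ha
  obtain ⟨j, hjk, hj⟩ := hW.cont k hk _ h4
  refine ⟨max i j, le_max_left _ _, max_lt hik hjk, ?_⟩
  exact (h1 (max i j) (le_max_left _ _) a).1 (hW.mono j (max i j) (le_max_right _ _) hj)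

end Pool.Agent.CAN
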