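import Pool.Agent.CAN.EVA

/-!
# CAN/EVC: closure of models under typed functions, witnesses

All facts follow from `Ev.list`: for a typed function `f : S → T → U` use the list operation
`g l = cd (f x y)` if `l = [cd x, cd y]` for some (unique, `Cod.inj`) `x`, `y`, and `g l = ∅` otherwise.
Witnesses: apply this to a choice function (`Classical.choose`) of the relation; for `ρ x y` without witness use any value, e.g. let
`g l = cd y` if `l = [cd x]` and `y` is a chosen witness, `∅` if there is none.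
* `Ev.nat`: `n ∈ₘ M` for all `n`: `Ev.all_nat` and `Ev.const`.
* `Ev.seq`: `fn2` for `fun f n => f n`.
* `Ev.ctbl`: `wit1`: a countable nonempty set `D` has an enumeration `e : ℕ → T` with range `D`.
* `Ev.ctbl_raw`: the same with a list operation: for a countable nonempty set `z` choose an enumeration `e : ℕ → ZFSet` and use the
  operation `[z, cd n] ↦ e n`.
* `tr_countable`: `x ↦ cd x` is injective.
-/

set_option autoImplicit false

namespace Pool.Agent.CAN

section
variable {S T U X Y Z : Type*} [Cod S] [Cod T] [Cod U] [Cod X] [Cod Y] [Cod Z]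

theorem Ev.fn1 (f : S → Z) : Ev (fun M => ∀ x, InM x M → InM (f x) M) :=
  Ev.diag fun x => Ev.const (f x)

theorem Ev.fn2 (f : S → T → Z) : Ev (fun M => ∀ x y, InM x M → InM y M → InM (f x y) M) :=
  (Ev.diag fun x => Ev.fn1 (f x)).mono fun _ h x y hx hy => h x hx y hy

theorem Ev.fn3 (f : S → T → U → Z) :
    Ev (fun M => ∀ x y z, InM x M → InM y M → InM z M → InM (f x y z) M) :=
  (Ev.diag fun x => Ev.fn2 (f x)).mono fun _ h x y z hx hy hz => h x hx y z hy hz

theorem Ev.fn4 (f : S → T → U → X → Z) :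
    Ev (fun M => ∀ x y z w, InM x M → InM y M → InM z M → InM w M → InM (f x y z w) M) :=
  (Ev.diag fun x => Ev.fn3 (f x)).mono fun _ h x y z w hx hy hz hw => h x hx y z w hy hz hw

theorem Ev.fn5 (f : S → T → U → X → Y → Z) :
    Ev (fun M => ∀ x y z w t, InM x M → InM y M → InM z M → InM w M → InM t M → InM (f x y z w t) M) :=
  (Ev.diag fun x => Ev.fn4 (f x)).mono fun _ h x y z w t hx hy hz hw ht => h x hx y z w t hy hz hw ht

private theorem EVC_wit0 (ρ : Z → Prop) : Ev (fun M => (∃ y, ρ y) → ∃ y, InM y M ∧ ρ y) := by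
  by_cases h : ∃ y, ρ y
  · obtain ⟨y, hy⟩ := h
    exact (Ev.const y).mono fun _ hM _ => ⟨y, hM, hy⟩
  · exact (Ev.const (∅ : ZFSet.{1})).mono fun _ _ h' => absurd h' h

theorem Ev.wit1 (ρ : S → Z → Prop) :
    Ev (fun M => ∀ x, InM x M → (∃ y, ρ x y) → ∃ y, InM y M ∧ ρ x y) :=
  Ev.diag fun x => EVC_wit0 (ρ x)

theorem Ev.wit2 (ρ : S → T → Z → Prop) :
    Ev (fun M => ∀ x y, InM x M → InM y M → (∃ v, ρ x y v) → ∃ v, InM v M ∧ ρ x y v) :=
  (Ev.diag fun x => Ev.wit1 (ρ x)).mono fun _ h x y hx hy => h x hx y hy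

theorem Ev.wit3 (ρ : S → T → U → Z → Prop) :
    Ev (fun M => ∀ x y z, InM x M → InM y M → InM z M → (∃ v, ρ x y z v) → ∃ v, InM v M ∧ ρ x y z v) :=
  (Ev.diag fun x => Ev.wit2 (ρ x)).mono fun _ h x y z hx hy hz => h x hx y z hy hz

theorem Ev.wit4 (ρ : S → T → U → X → Z → Prop) :
    Ev (fun M => ∀ x y z w, InM x M → InM y M → InM z M → InM w M → (∃ v, ρ x y z w v) →
      ∃ v, InM v M ∧ ρ x y z w v) :=
  (Ev.diag fun x => Ev.wit3 (ρ x)).mono fun _ h x y z w hx hy hz hw => h x hx y z w hy hz hw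

theorem Ev.wit5 (ρ : S → T → U → X → Y → Z → Prop) :
    Ev (fun M => ∀ x y z w t, InM x M → InM y M → InM z M → InM w M → InM t M → (∃ v, ρ x y z w t v) →
      ∃ v, InM v M ∧ ρ x y z w t v) :=
  (Ev.diag fun x => Ev.wit4 (ρ x)).mono fun _ h x y z w t hx hy hz hw ht =>
    h x hx y z w t hy hz hw ht

private theorem EVC_ctbl (D : Set Z) : Ev (fun M => D.Countable → ∀ x ∈ D, InM x M) := by
  by_cases h : D.Countable ∧ D.Nonempty
  · obtain ⟨e, he⟩ := h.1.exists_eq_range h.2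
    refine (Ev.all_nat fun n => Ev.const (e n)).mono fun M hM _ x hx => ?_
    rw [he] at hx
    obtain ⟨n, rfl⟩ := hx
    exact hM n
  · exact (Ev.const (∅ : ZFSet.{1})).mono fun _ _ h' x hx => absurd ⟨h', ⟨x, hx⟩⟩ h

end

theorem Ev.nat : Ev (fun M => ∀ n : ℕ, InM n M) :=
  Ev.all_nat fun n => Ev.const n

theorem Ev.seq (T : Type 1) : Ev (fun M => ∀ f : ℕ → T, InM f M → ∀ n, InM (f n) M) :=
  Ev.diag fun f => Ev.all_nat fun n => Ev.const (f n)

theorem Ev.ctbl (T : Type 1) : Ev (fun M => ∀ D : Set T, InM D M → D.Countable → ∀ x ∈ D, InM x M) :=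
  Ev.diag fun D => EVC_ctbl D

theorem Ev.ctbl_raw : Ev (fun M => ∀ z ∈ M, {x | x ∈ z}.Countable → ∀ x ∈ z, x ∈ M) :=
  (Ev.diag (T := ZFSet.{1}) fun z => EVC_ctbl {x : ZFSet.{1} | x ∈ z}).mono fun _ h z hz hc x hx =>
    h z hz hc x hx

theorem tr_countable {T : Type*} [Cod T] {M : ZFSet.{1}} (hM : {x | x ∈ M}.Countable) :
    {x : T | InM x M}.Countable :=
  hM.preimage_of_injOn (Cod.inj (T := T)).injOn

end Pool.Agent.CAN
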