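import Pool.Agent.CAN.GEN
import Pool.Agent.CAN.EVC

/-!
# CAN/GNF: generic filters

* `GenF.le_gen`: for `D` as in the definition of `gen` some `d ∈ D` is in `G`, so `sInf G ≤ d`.
* `ev_genF`: the sets `{⊤}`, `{x, xᶜ}`, `insert aᶜ D` (sup of it is `⊤` if `a ≤ sSup D`) are `∈ₘ M` (`Ev.const`, `Ev.fn1`, `Ev.fn2`);
  `aᶜ ∉ G` if `a ∈ G` since `a ⊓ aᶜ = ⊥`.
  For the third property let `a ∈ G`, `a ≤ sSup D`: apply `meet` to `insert aᶜ D`.
  The fourth one: `D ∈ₘ M`, `D ⊆ A` and `sSup D ∈ G`.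
* `genF_of_dec`: if `r` decides all elements of `A ∩ M` and `r ≤ gen A M`, `r ≠ ⊥`, then `{x ∈ A ∩ M | r ≤ x}` is generic: for `D` with `sSup D = ⊤`,
  `r ≤ sSup (D ∩ M)`; if no `d ∈ D ∩ M` is above `r` then `r ≤ dᶜ` for all of them, and `r ⊓ sSup (D ∩ M) = ⊥`, contradiction.
  Closure under `⊓`: `x ⊓ y ∈ₘ M` (`Ev.fn2`).
-/

set_option autoImplicit false

namespace Pool.Agent.CAN

variable {B : Type 1} [CompleteBooleanAlgebra B]

theorem GenF.le_gen {A : Set B} {M : ZFSet.{1}} {G : Set B} (h : GenF A M G) : sInf G ≤ gen A M := by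
  apply Pool.Agent.CAN.le_gen
  intro D hD hA hs
  obtain ⟨d, hd, hG⟩ := h.meet D hD hA hs
  exact (sInf_le hG).trans (le_sSup ⟨hd, (h.sub d hG).2⟩)

theorem ev_genF : Ev (fun M => ∀ A : Set B, CSub A → ∀ G, GenF A M G →
    ⊤ ∈ G ∧ (∀ x ∈ A, InM x M → (x ∈ G ∨ xᶜ ∈ G)) ∧ (∀ x, x ∈ G → xᶜ ∉ G) ∧
    (∀ D : Set B, InM D M → D ⊆ A → ∀ a ∈ G, a ≤ sSup D → ∃ d ∈ D, d ∈ G) ∧
    (∀ x ∈ A, InM x M → sInf G ≠ ⊥ → (x ∈ G ↔ sInf G ≤ x))) := by
  refine Ev.mono (((Ev.fn1 (fun x : B => ({x, xᶜ} : Set B))).and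
    (Ev.fn2 (fun (D : Set B) (a : B) => insert aᶜ D))).and (Ev.const ({⊤} : Set B))) ?_
  rintro M ⟨⟨h1, h2⟩, h3⟩ A hA G hG
  have hc : ∀ x, x ∈ G → xᶜ ∉ G := by
    intro x hx hx'
    have := hG.inf x hx _ hx'
    rw [inf_compl_self] at this
    exact hG.bot this
  have hd : ∀ x ∈ A, InM x M → (x ∈ G ∨ xᶜ ∈ G) := by
    intro x hx hxM
    obtain ⟨d, hd, hdG⟩ := hG.meet _ (h1 x hxM) (by
      intro y hy
      rcases hy with rfl | hy
      · exact hx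
      · rw [Set.mem_singleton_iff.mp hy]
        exact hA.compl x hx) (by rw [sSup_pair, sup_compl_eq_top])
    rcases hd with rfl | hd
    · exact Or.inl hdG
    · rw [Set.mem_singleton_iff.mp hd] at hdG
      exact Or.inr hdG
  refine ⟨?_, hd, hc, ?_, ?_⟩
  · obtain ⟨d, hd, hdG⟩ := hG.meet _ h3 (by
      intro y hy
      rw [Set.mem_singleton_iff.mp hy]
      exact hA.top) (by rw [sSup_singleton])
    rw [Set.mem_singleton_iff.mp hd] at hdG
    exact hdG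
  · intro D hD hDA a ha haD
    obtain ⟨haA, haM⟩ := hG.sub a ha
    obtain ⟨d, hd, hdG⟩ := hG.meet _ (h2 D a hD haM) (by
      intro y hy
      rcases hy with rfl | hy
      · exact hA.compl a haA
      · exact hDA hy) (by
        rw [sSup_insert, eq_top_iff, ← compl_sup_eq_top (x := a)]
        exact sup_le_sup_left haD _)
    rcases hd with rfl | hd
    · exact absurd hdG (hc a ha)
    · exact ⟨d, hd, hdG⟩
  · intro x hx hxM hne
    constructor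
    · intro h
      exact sInf_le h
    · intro h
      rcases hd x hx hxM with h' | h'
      · exact h'
      · exfalso
        apply hne
        rw [eq_bot_iff, ← inf_compl_self (a := x)]
        exact le_inf h (sInf_le h')

theorem ev_genF_of_dec : Ev (fun M => ∀ A : Set B, CSub A → ∀ r : B, r ≠ ⊥ → r ≤ gen A M →
    (∀ x ∈ A, InM x M → (r ≤ x ∨ r ≤ xᶜ)) → GenF A M {x | x ∈ A ∧ InM x M ∧ r ≤ x}) := by
  refine Ev.mono (Ev.fn2 (fun (x y : B) => x ⊓ y)) ?_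
  intro M h2 A hA r hr hrg hdec
  refine ⟨?_, ?_, ?_, ?_, ?_⟩
  · rintro x ⟨hx, hxM, _⟩
    exact ⟨hx, hxM⟩
  · rintro x ⟨_, _, hrx⟩ y hy hyM hxy
    exact ⟨hy, hyM, hrx.trans hxy⟩
  · rintro x ⟨hx, hxM, hrx⟩ y ⟨hy, hyM, hry⟩
    exact ⟨hA.and hx hy, h2 x y hxM hyM, le_inf hrx hry⟩
  · rintro ⟨_, _, h⟩
    exact hr (le_bot_iff.mp h)
  · intro D hD hDA hs
    by_contra hno
    push Not at hno
    apply hr
    have h3 : r ≤ sSup {d | d ∈ D ∧ InM d M} := hrg.trans (gen_le hD hDA hs)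
    have h4 : sSup {d | d ∈ D ∧ InM d M} ≤ rᶜ := by
      apply sSup_le
      rintro d ⟨hd, hdM⟩
      rcases hdec d (hDA hd) hdM with h | h
      · exact absurd ⟨hDA hd, hdM, h⟩ (hno d hd)
      · exact le_compl_comm.mp h
    rw [eq_bot_iff, ← inf_compl_self (a := r)]
    exact le_inf le_rfl (h3.trans h4)

end Pool.Agent.CAN
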