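import Pool.Agent.CAN.TWR
import Pool.Agent.CAN.OMB

/-!
# CAN/TWC: choosing witnesses in the next model of a tower

A relation `ρ W k x y` which only depends on the restriction of `W` to `{j | j ≤ k}` is a relation between
the code `tcode W k ∈ W k.s`, `x` and `y`.  Precisely: let `ρ' c k x y` say: there is `W` with `tcode W k = c` and `ρ W k x y`
(`k : Om` is determined by the code but it is harmless to keep it as an argument: `k ∈ₘ W k.s`, see below).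
`tcode W k = tcode W' k` implies `W j = W' j` for `j ≤ k`: `pair (cd j) (W j) ∈ tcode W' k` gives `j' ≤ k` with
`cd j = cd j'`, `W j = W' j'`.  Then apply `Ev.wit`s (list operations `Ev.list`) to `ρ'`.

* `EvT.idx`: `tcode W k ∈ W k.s` is countable, so its elements `pair (cd j) (W j)` are in `W k.s` (`Ev.ctbl_raw`), hence `j ∈ₘ W k.s` and
  `W j ∈ W k.s` (closure under the two projections of a pair), and `W j ⊆ W k.s`.
-/

set_option autoImplicit false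

namespace Pool.Agent.CAN

/-- `R` only depends on the restriction of the tower to `{j | j ≤ k}`. -/
def Loc (R : (Om → ZFSet.{1}) → Om → Prop) : Prop :=
  ∀ W W' k, (∀ j, j ≤ k → W j = W' j) → R W k → R W' k

private theorem TWC_mem {W : Om → ZFSet.{1}} {k : Om} {z : ZFSet.{1}} :
    z ∈ tcode W k ↔ ∃ j, j ≤ k ∧ z = ZFSet.pair (cd j) (W j) := by
  unfold tcode
  rw [ZFSet.mem_range]
  constructor
  · rintro ⟨j, rfl⟩
    exact ⟨j.1, j.2, rfl⟩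
  · rintro ⟨j, hj, rfl⟩
    exact ⟨⟨j, hj⟩, rfl⟩

private theorem TWC_le {W W' : Om → ZFSet.{1}} {k k' : Om} (h : tcode W k = tcode W' k') {j : Om} (hj : j ≤ k) :
    j ≤ k' ∧ W j = W' j := by
  have h1 : ZFSet.pair (cd j) (W j) ∈ tcode W k := TWC_mem.2 ⟨j, hj, rfl⟩
  rw [h] at h1
  obtain ⟨j', hj', he⟩ := TWC_mem.1 h1
  obtain ⟨e1, e2⟩ := ZFSet.pair_inj.1 he
  have e3 : j = j' := Cod.inj e1
  subst e3
  exact ⟨hj', e2⟩

private theorem TWC_inj {W W' : Om → ZFSet.{1}} {k k' : Om} (h : tcode W k = tcode W' k') :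
    k = k' ∧ ∀ j, j ≤ k → W j = W' j :=
  ⟨le_antisymm (TWC_le h le_rfl).1 (TWC_le h.symm le_rfl).1, fun _ hj => (TWC_le h hj).2⟩

/-- Transfer of a local relation along equal codes. -/
private theorem TWC_loc {R : (Om → ZFSet.{1}) → Om → Prop} (hR : Loc R) {W W' : Om → ZFSet.{1}} {k k' : Om}
    (h : tcode W k = tcode W' k') (h1 : R W k) : R W' k' := by
  obtain ⟨e, h2⟩ := TWC_inj h
  subst e
  exact hR W W' k h2 h1

/-- Indices and models are elements of the next model. -/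
theorem EvT.idx : EvT (fun W i => ∀ k, i ≤ k → ∀ j, j ≤ k → InM j (W k.s) ∧ W j ∈ W k.s) := by
  have h1 := Ev.wit1 (S := ZFSet.{1}) (Z := Om) (fun p j => ∃ x, p = ZFSet.pair (cd j) x)
  have h2 := Ev.wit1 (S := ZFSet.{1}) (Z := ZFSet.{1}) (fun p x => ∃ j : Om, p = ZFSet.pair (cd j) x)
  refine (EvT.of_ev ((h1.and h2).and Ev.ctbl_raw)).mono ?_
  intro W i hW h k hk j hj
  obtain ⟨⟨h1, h2⟩, h3⟩ := h k.s (hk.trans (Om.lt_s k).le)
  have hc : {x : ZFSet.{1} | x ∈ tcode W k}.Countable := by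
    refine ((Om.Iic_countable k).image (fun j => ZFSet.pair (cd j) (W j))).mono ?_
    intro x hx
    obtain ⟨j, hj, rfl⟩ := TWC_mem.1 hx
    exact ⟨j, hj, rfl⟩
  have h4 : ZFSet.pair (cd j) (W j) ∈ W k.s := h3 _ (hW.mem k) hc _ (TWC_mem.2 ⟨j, hj, rfl⟩)
  constructor
  · obtain ⟨j', hj', x, hx⟩ := h1 _ h4 ⟨j, W j, rfl⟩
    have e : j = j' := Cod.inj (ZFSet.pair_inj.1 hx).1
    rw [e]
    exact hj'
  · obtain ⟨x, hx', j', hx⟩ := h2 _ h4 ⟨W j, j, rfl⟩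
    have e : W j = x := (ZFSet.pair_inj.1 hx).2
    rw [e]
    exact hx'

section
variable {S T U X Z : Type*} [Cod S] [Cod T] [Cod U] [Cod X] [Cod Z]

theorem EvT.wit0 (ρ : (Om → ZFSet.{1}) → Om → Z → Prop) (hρ : ∀ v, Loc (fun W k => ρ W k v)) :
    EvT (fun W i => ∀ k, i ≤ k → (∃ v, ρ W k v) → ∃ v, InM v (W k.s) ∧ ρ W k v) := by
  refine (EvT.of_ev (Ev.wit1 (S := ZFSet.{1}) (Z := Z)
    (fun c v => ∃ W k, tcode W k = c ∧ ρ W k v))).mono ?_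
  rintro W i hW h k hk ⟨v, hv⟩
  obtain ⟨v', hv', W', k', hc, hr⟩ := h k.s (hk.trans (Om.lt_s k).le) (tcode W k) (hW.mem k) ⟨v, W, k, rfl, hv⟩
  exact ⟨v', hv', TWC_loc (hρ v') hc hr⟩

theorem EvT.wit1 (ρ : (Om → ZFSet.{1}) → Om → S → Z → Prop) (hρ : ∀ x v, Loc (fun W k => ρ W k x v)) :
    EvT (fun W i => ∀ k, i ≤ k → ∀ x, InM x (W k.s) → (∃ v, ρ W k x v) → ∃ v, InM v (W k.s) ∧ ρ W k x v) := by
  refine (EvT.of_ev (Ev.wit2 (S := ZFSet.{1}) (T := S) (Z := Z)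
    (fun c x v => ∃ W k, tcode W k = c ∧ ρ W k x v))).mono ?_
  rintro W i hW h k hk x hx ⟨v, hv⟩
  obtain ⟨v', hv', W', k', hc, hr⟩ := h k.s (hk.trans (Om.lt_s k).le) (tcode W k) x (hW.mem k) hx
    ⟨v, W, k, rfl, hv⟩
  exact ⟨v', hv', TWC_loc (hρ x v') hc hr⟩

theorem EvT.wit2 (ρ : (Om → ZFSet.{1}) → Om → S → T → Z → Prop) (hρ : ∀ x y v, Loc (fun W k => ρ W k x y v)) :
    EvT (fun W i => ∀ k, i ≤ k → ∀ x y, InM x (W k.s) → InM y (W k.s) → (∃ v, ρ W k x y v) →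
      ∃ v, InM v (W k.s) ∧ ρ W k x y v) := by
  refine (EvT.of_ev (Ev.wit3 (S := ZFSet.{1}) (T := S) (U := T) (Z := Z)
    (fun c x y v => ∃ W k, tcode W k = c ∧ ρ W k x y v))).mono ?_
  rintro W i hW h k hk x y hx hy ⟨v, hv⟩
  obtain ⟨v', hv', W', k', hc, hr⟩ := h k.s (hk.trans (Om.lt_s k).le) (tcode W k) x y (hW.mem k) hx hy
    ⟨v, W, k, rfl, hv⟩
  exact ⟨v', hv', TWC_loc (hρ x y v') hc hr⟩

theorem EvT.wit3 (ρ : (Om → ZFSet.{1}) → Om → S → T → U → Z → Prop)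
    (hρ : ∀ x y z v, Loc (fun W k => ρ W k x y z v)) :
    EvT (fun W i => ∀ k, i ≤ k → ∀ x y z, InM x (W k.s) → InM y (W k.s) → InM z (W k.s) → (∃ v, ρ W k x y z v) →
      ∃ v, InM v (W k.s) ∧ ρ W k x y z v) := by
  refine (EvT.of_ev (Ev.wit4 (S := ZFSet.{1}) (T := S) (U := T) (X := U) (Z := Z)
    (fun c x y z v => ∃ W k, tcode W k = c ∧ ρ W k x y z v))).mono ?_
  rintro W i hW h k hk x y z hx hy hz ⟨v, hv⟩
  obtain ⟨v', hv', W', k', hc, hr⟩ := h k.s (hk.trans (Om.lt_s k).le) (tcode W k) x y z (hW.mem k) hx hy hz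
    ⟨v, W, k, rfl, hv⟩
  exact ⟨v', hv', TWC_loc (hρ x y z v') hc hr⟩

theorem EvT.wit4 (ρ : (Om → ZFSet.{1}) → Om → S → T → U → X → Z → Prop)
    (hρ : ∀ x y z w v, Loc (fun W k => ρ W k x y z w v)) :
    EvT (fun W i => ∀ k, i ≤ k → ∀ x y z w, InM x (W k.s) → InM y (W k.s) → InM z (W k.s) → InM w (W k.s) →
      (∃ v, ρ W k x y z w v) → ∃ v, InM v (W k.s) ∧ ρ W k x y z w v) := by
  refine (EvT.of_ev (Ev.wit5 (S := ZFSet.{1}) (T := S) (U := T) (X := U) (Y := X) (Z := Z)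
    (fun c x y z w v => ∃ W k, tcode W k = c ∧ ρ W k x y z w v))).mono ?_
  rintro W i hW h k hk x y z w hx hy hz hw ⟨v, hv⟩
  obtain ⟨v', hv', W', k', hc, hr⟩ := h k.s (hk.trans (Om.lt_s k).le) (tcode W k) x y z w (hW.mem k) hx hy hz hw
    ⟨v, W, k, rfl, hv⟩
  exact ⟨v', hv', TWC_loc (hρ x y z w v') hc hr⟩

end

end Pool.Agent.CAN
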