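import Pool.Agent.CAN.PTC
import Pool.Agent.CAN.TWC
import Pool.Agent.CAN.GNF

/-!
# CAN/NCH: canonical choice of the filter, composition of `NNs`

`nns_choice`: the property `GenF (S b) M G'`, `q ∈ G'`, `G ⊆ G'`, `sInf G ⊓ ggen (S a) W k j ≤ proj (S a) (sInf G')` of `G'` depends only on the restriction of `W` to
`≤ j` (`ggen_loc`), and on `M ∈ W j.s`, `G, q, a, b, k ∈ₘ W j.s` (`EvN.sub`, `Tw.mono`, `EvT.idx`).  Use `EvT.wit4` (put `(a, b, q, k)` into one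
argument of the product type `T × T × B × Om`, closed under pairing by `Ev.fn2`) or `EvT.wit3`.

`nns_comp`: let `G, q` be given.  `x = proj (S b) q ∈ₘ M`, `proj (S a) x = proj (S a) q ∈ G`.  `nns_choice` for `(a, b)`: `j1 ≥ i`, `G1 ∈ₘ W j1.s`, `x ∈ G1`,
`sInf G ⊓ ggen (S a) W i j1 ≤ proj (S a) (sInf G1)`.  `NNs (S b) (S c) M W j1.s` for `G1`, `q`: `j2 ≥ j1.s`, `G2`, `G1 ⊆ G2`,
`sInf G1 ⊓ ggen (S b) W j1.s j2 ≤ proj (S b) (sInf G2)`.  `PPs (S a) (S b) W j1.s` for the element `sInf G1 ∈ S b`, `∈ₘ W j1.s` (`Ev.fn1 sInf`):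
`ggen (S a) W j1.s j2 ⊓ proj (S a) (sInf G1) ≤ proj (S a) (sInf G1 ⊓ ggen (S b) W j1.s j2) ≤ proj (S a) (sInf G2)` (`proj_proj`).
`ggen (S a) W i j2 ≤ ggen (S a) W i j1 ⊓ ggen (S a) W j1.s j2`.
-/

set_option autoImplicit false

namespace Pool.Agent.CAN

variable {B : Type 1} [CompleteBooleanAlgebra B]

theorem nns_choice {T : Type 1} (S : T → Set B) (hS : ∀ a, CSub (S a)) :
    EvN (fun M W i => ∀ a b : T, InM a M → InM b M → NNs (S a) (S b) M W i →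
      ∀ G : Set B, InM G (W i) → GenF (S a) M G → ∀ q ∈ S b, InM q M → proj (S a) q ∈ G →
      ∃ j, i ≤ j ∧ ∃ G' : Set B, InM G' (W j.s) ∧ GenF (S b) M G' ∧ q ∈ G' ∧ G ⊆ G' ∧
        sInf G ⊓ ggen (S a) W i j ≤ proj (S a) (sInf G')) := by
  have hw := EvT.wit4 (S := ZFSet.{1}) (T := Set B) (U := T × T) (X := B × Om) (Z := Set B)
    (fun W k M G ab qi G' => qi.2 ≤ k ∧ GenF (S ab.2) M G' ∧ qi.1 ∈ G' ∧ G ⊆ G' ∧
      sInf G ⊓ ggen (S ab.1) W qi.2 k ≤ proj (S ab.1) (sInf G'))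
    (by
      intro M G ab qi G' W W' k hWW' h
      obtain ⟨h1, h2, h3, h4, h5⟩ := h
      exact ⟨h1, h2, h3, h4, by rw [← ggen_loc hWW']; exact h5⟩)
  have h2 := EvT.of_ev (Ev.fn2 (fun (a b : T) => (a, b)))
  have h3 := EvT.of_ev (Ev.fn2 (fun (q : B) (i : Om) => (q, i)))
  refine (EvN.sub.and ((EvN.of_evT hw).and ((EvN.of_evT EvT.idx).and
    ((EvN.of_evT h2).and (EvN.of_evT h3))))).mono ?_
  intro M W i _ H a b ha hb hN G hG hGF q hq hqM hpq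
  obtain ⟨⟨hTw, hMi, hsub⟩, Hw, Hidx, H2, H3⟩ := H
  obtain ⟨j, hij, G', h1, h2, h3, h4⟩ := hN G hG hGF q hq hqM hpq
  have hijs : i ≤ j.s := hij.trans (Om.lt_s j).le
  have hM : InM M (W j.s) := (hsub j.s hijs).1
  have hG' : InM G (W j.s) := hTw.mono i j.s hijs hG
  have ha' : InM a (W j.s) := (hsub j.s hijs).2 _ ha
  have hb' : InM b (W j.s) := (hsub j.s hijs).2 _ hb
  have hq' : InM q (W j.s) := (hsub j.s hijs).2 _ hqM
  have hi' : InM i (W j.s) := (Hidx j hij i hij).1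
  obtain ⟨G'', k1, k2, k3, k4, k5, k6⟩ := Hw j hij M G (a, b) (q, i) hM hG' (H2 j.s hijs a b ha' hb')
    (H3 j.s hijs q i hq' hi') ⟨G', hij, h1, h2, h3, h4⟩
  exact ⟨j, hij, G'', k1, k3, k4, k5, k6⟩

theorem nns_comp {T : Type 1} (S : T → Set B) (hS : ∀ a, CSub (S a)) :
    EvN (fun M W i => ∀ a b c : T, InM a M → InM b M → InM c M → S a ⊆ S b → S b ⊆ S c →
      (∀ k, i ≤ k → PPs (S a) (S b) W k) → NNs (S a) (S b) M W i → (∀ k, i ≤ k → NNs (S b) (S c) M W k) →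
      NNs (S a) (S c) M W i) := by
  refine (EvN.sub.and ((nns_choice S hS).and ((EvN.of_ev (Ev.fn2 (fun (b : T) (q : B) => proj (S b) q))).and
    (EvN.of_evT (EvT.of_ev (Ev.fn1 (fun G : Set B => sInf G))))))).mono ?_
  intro M W i _ H a b c ha hb hc hab hbc hPP hN1 hN2 G hG hGF q hq hqM hpq
  obtain ⟨⟨hTw, hMi, hsub⟩, hch, hfn, hinf⟩ := H
  obtain ⟨j1, hj1, G1, hG1W, hG1F, hxG1, hGG1, hle1⟩ := hch a b ha hb hN1 G hG hGF (proj (S b) q)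
    (proj_mem (hS b) q) (hfn b q hb hqM) (by rw [proj_proj (hS a) (hS b) hab]; exact hpq)
  have hi : i ≤ j1.s := hj1.trans (Om.lt_s j1).le
  obtain ⟨j2, hj2, G2, hG2F, hqG2, hG1G2, hle2⟩ := hN2 j1.s hi G1 hG1W hG1F q hq hqM hxG1
  have hj12 : j1 ≤ j2 := (Om.lt_s j1).le.trans hj2
  refine ⟨j2, hi.trans hj2, G2, hG2F, hqG2, hGG1.trans hG1G2, ?_⟩
  have hsInf : sInf G1 ∈ S b := (hS b).inf' (fun x hx => (hG1F.sub x hx).1)
  have e1 := hPP j1.s hi j2 hj2 (sInf G1) hsInf (hinf j1.s hi G1 hG1W)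
  have e2 : proj (S a) (sInf G1 ⊓ ggen (S b) W j1.s j2) ≤ proj (S a) (sInf G2) := by
    rw [← proj_proj (hS a) (hS b) hab (sInf G2)]
    exact proj_mono hle2
  calc sInf G ⊓ ggen (S a) W i j2
      ≤ ggen (S a) W j1.s j2 ⊓ (sInf G ⊓ ggen (S a) W i j1) :=
        le_inf (inf_le_right.trans (ggen_anti W hi le_rfl))
          (le_inf inf_le_left (inf_le_right.trans (ggen_anti W le_rfl hj12)))
    _ ≤ ggen (S a) W j1.s j2 ⊓ proj (S a) (sInf G1) := inf_le_inf_left _ hle1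
    _ ≤ proj (S a) (sInf G1 ⊓ ggen (S b) W j1.s j2) := e1
    _ ≤ proj (S a) (sInf G2) := e2

theorem nns_self {A : Set B} (hA : CSub A) : EvN (NNs A A) := by
  refine EvN.sub.mono ?_
  intro M W i _ _ G _ hGF q hq _ hpq
  rw [proj_self hq] at hpq
  exact ⟨i, le_rfl, G, hGF, hpq, subset_rfl, inf_le_left.trans (le_proj _)⟩

end Pool.Agent.CAN
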