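import Pool.Agent.CAN.EVX
import Pool.Agent.CAN.OMB

/-!
# CAN/TWX: existence of towers

By well-founded recursion on `k : Om` (e.g. `WellFounded.fix` for `<`, the values being `ZFSet`s): for `k = Om.z` take a model
closed under `F` containing `z`; for `k = j.s` a model closed under `F` containing all elements of `W j`, the set `tcode W j` (it
only depends on the restriction of `W` to `Set.Iic j`) and `z`; for a limit `k` the union of the `W j`, `j < k` (countably many
countable sets, `Om.Iio_countable`; use `exists_zf`).  A uniform definition: let `U k` be the (countable) union of the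
`W j` (`j < k`) together with `z` and all codes `tcode W j` with `j.s = k`; `W k` = the union itself if `k` is a limit and
otherwise `exists_mdl` applied to it.  Monotone: by induction.  `Mdl F (W k)` for limit `k`: for `x, y ∈ W k` both are in some
`W j`, `j < k`, and `W j ⊆ W j.s ⊆ W k`, `Mdl F (W j.s)`.  To avoid problems with `tcode` inside the recursion, the recursion may be done
on functions defined on `Set.Iio k`, or define the code from the values below directly.
-/

set_option autoImplicit false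

namespace Pool.Agent.CAN

open Classical in
/-- closure of a countable set -/
private noncomputable def TWX_cl (F : ZFSet.{1} → ZFSet.{1} → ZFSet.{1}) (P : Set ZFSet.{1}) : ZFSet.{1} :=
  if h : P.Countable then (exists_mdl F h).choose else ∅

private theorem TWX_cl_spec (F : ZFSet.{1} → ZFSet.{1} → ZFSet.{1}) {P : Set ZFSet.{1}} (h : P.Countable) :
    Mdl F (TWX_cl F P) ∧ ∀ x ∈ P, x ∈ TWX_cl F P := by
  rw [TWX_cl, dif_pos h]
  exact (exists_mdl F h).choose_spec

open Classical in
/-- a countable set as a set -/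
private noncomputable def TWX_un (P : Set ZFSet.{1}) : ZFSet.{1} :=
  if h : P.Countable then (exists_zf h).choose else ∅

private theorem TWX_un_spec {P : Set ZFSet.{1}} (h : P.Countable) : ∀ x, x ∈ TWX_un P ↔ x ∈ P := by
  rw [TWX_un, dif_pos h]
  exact (exists_zf h).choose_spec

open Classical in
/-- one step of the recursion -/
private noncomputable def TWX_step (F : ZFSet.{1} → ZFSet.{1} → ZFSet.{1}) (z : ZFSet.{1}) (k : Om)
    (V : (j : Om) → j < k → ZFSet.{1}) : ZFSet.{1} :=
  if Lim k then TWX_un {x | ∃ j, ∃ h : j < k, x ∈ V j h}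
  else TWX_cl F ({x | ∃ j, ∃ h : j < k, x ∈ V j h} ∪
    {x | x = z ∨ ∃ j, ∃ h : j < k, x = ZFSet.range (fun i : Set.Iic j =>
      ZFSet.pair (cd i.1) (V i.1 (lt_of_le_of_lt i.2 h)))})

private noncomputable def TWX_W (F : ZFSet.{1} → ZFSet.{1} → ZFSet.{1}) (z : ZFSet.{1}) : Om → ZFSet.{1} :=
  WellFounded.fix (wellFounded_lt (α := Om)) (TWX_step F z)

private theorem TWX_eq (F : ZFSet.{1} → ZFSet.{1} → ZFSet.{1}) (z : ZFSet.{1}) (k : Om) :
    TWX_W F z k = TWX_step F z k (fun j _ => TWX_W F z j) := WellFounded.fix_eq _ _ _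

private theorem TWX_main (F : ZFSet.{1} → ZFSet.{1} → ZFSet.{1}) (z : ZFSet.{1}) (k : Om) :
    Mdl F (TWX_W F z k) ∧ z ∈ TWX_W F z k ∧ (∀ j, j < k → ∀ x ∈ TWX_W F z j, x ∈ TWX_W F z k) ∧
      (Lim k → ∀ x ∈ TWX_W F z k, ∃ j, j < k ∧ x ∈ TWX_W F z j) ∧
      (¬ Lim k → ∀ j, j < k → tcode (TWX_W F z) j ∈ TWX_W F z k) := by
  induction k using (wellFounded_lt (α := Om)).induction with
  | _ k ih =>
    have hc : {x | ∃ j, ∃ _ : j < k, x ∈ TWX_W F z j}.Countable := by
      have h1 : {x | ∃ j, ∃ _ : j < k, x ∈ TWX_W F z j} = ⋃ j ∈ Set.Iio k, {x | x ∈ TWX_W F z j} := by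
        ext x
        simp
      rw [h1]
      exact (Om.Iio_countable k).biUnion fun j hj => (ih j hj).1.ctbl
    have hk := TWX_eq F z k
    by_cases hl : Lim k
    · rw [TWX_step, if_pos hl] at hk
      have hm := TWX_un_spec hc
      rw [← hk] at hm
      refine ⟨⟨?_, ?_, ?_⟩, ?_, ?_, ?_, fun h => absurd hl h⟩
      · have h1 : {x | x ∈ TWX_W F z k} = {x | ∃ j, ∃ _ : j < k, x ∈ TWX_W F z j} := by
          ext x
          exact hm x
        rw [h1]
        exact hc
      · obtain ⟨j, hj⟩ := hl.1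
        rw [hm]
        exact ⟨j, hj, (ih j hj).1.zero⟩
      · intro x hx y hy
        rw [hm] at hx hy ⊢
        obtain ⟨j, hj, hxj⟩ := hx
        obtain ⟨j', hj', hyj⟩ := hy
        have key : ∀ a b : Om, a ≤ b → b < k → ∀ u ∈ TWX_W F z a, u ∈ TWX_W F z b := by
          intro a b hab hb u hu
          rcases hab.eq_or_lt with h | h
          · rw [← h]
            exact hu
          · exact (ih b hb).2.2.1 a h u hu
        have hmax : max j j' < k := max_lt hj hj'
        exact ⟨max j j', hmax, (ih _ hmax).1.op x (key j _ (le_max_left _ _) hmax x hxj) y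
          (key j' _ (le_max_right _ _) hmax y hyj)⟩
      · obtain ⟨j, hj⟩ := hl.1
        rw [hm]
        exact ⟨j, hj, (ih j hj).2.1⟩
      · intro j hj x hx
        rw [hm]
        exact ⟨j, hj, hx⟩
      · intro _ x hx
        obtain ⟨j, hj, h⟩ := (hm x).1 hx
        exact ⟨j, hj, h⟩
    · rw [TWX_step, if_neg hl] at hk
      have hc2 : {x : ZFSet.{1} | x = z ∨ ∃ j, ∃ h : j < k, x = ZFSet.range (fun i : Set.Iic j =>
          ZFSet.pair (cd i.1) (TWX_W F z i.1))}.Countable := by
        have h1 : {x : ZFSet.{1} | x = z ∨ ∃ j, ∃ h : j < k, x = ZFSet.range (fun i : Set.Iic j =>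
            ZFSet.pair (cd i.1) (TWX_W F z i.1))} ⊆ {z} ∪ (fun j => tcode (TWX_W F z) j) '' Set.Iio k := by
          rintro x (rfl | ⟨j, hj, rfl⟩)
          · exact Or.inl rfl
          · exact Or.inr ⟨j, hj, rfl⟩
        exact Set.Countable.mono h1 ((Set.countable_singleton z).union ((Om.Iio_countable k).image _))
      have hm := TWX_cl_spec F (hc.union hc2)
      rw [← hk] at hm
      refine ⟨hm.1, hm.2 z (Or.inr (Or.inl rfl)), ?_, fun h => absurd h hl, ?_⟩
      · intro j hj x hx
        exact hm.2 x (Or.inl ⟨j, hj, hx⟩)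
      · intro _ j hj
        exact hm.2 _ (Or.inr (Or.inr ⟨j, hj, rfl⟩))

theorem exists_tw (F : ZFSet.{1} → ZFSet.{1} → ZFSet.{1}) (z : ZFSet.{1}) :
    ∃ W : Om → ZFSet.{1}, TwF F W Om.z ∧ z ∈ W Om.z := by
  refine ⟨TWX_W F z, ⟨⟨?_, ?_, ?_⟩, ?_⟩, (TWX_main F z _).2.1⟩
  · intro j k hjk x hx
    rcases hjk.eq_or_lt with h | h
    · rw [← h]
      exact hx
    · exact (TWX_main F z k).2.2.1 j h x hx
  · intro k hk x hx
    exact (TWX_main F z k).2.2.2.1 hk x hx
  · intro k
    refine (TWX_main F z k.s).2.2.2.2 ?_ k (Om.lt_s k)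
    intro hl
    obtain ⟨i, h1, h2⟩ := hl.2 k (Om.lt_s k)
    exact absurd (Om.lt_s_iff.1 h2) (not_le.2 h1)
  · intro k _
    exact (TWX_main F z k).1

end Pool.Agent.CAN
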