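import Pool.Agent.CAN.GNF
import Pool.Agent.CAN.TWX
import Pool.Agent.CAN.NCH

/-!
# CAN/DIS: distributivity

`distr_of_np`: let `D n`, `q` be given.  Take the operation `F` of `NP.nn` refined so that all `D n ∈ₘ M`, `q ∈ₘ M` (`Ev.const`, `Ev.all_nat`), and such that the sets of
`{⊥, ⊤}` are in models.  `exists_mdl` gives `M`, `exists_tw` gives a tower `W` with `M ∈ W Om.z` (closed under `F`); also put
`G = {⊤}` in `W Om.z` (`Ev.const`).  `GenF {⊥, ⊤} M {⊤}`: a set `D ⊆ {⊥, ⊤}` with `sSup D = ⊤` contains `⊤`.  `proj {⊥, ⊤} q = ⊤` (`proj_two`).  We get `j`, `G'` with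
`⊤ ⊓ ggen {⊥, ⊤} W z j ≤ proj {⊥, ⊤} (sInf G')`; `gen {⊥, ⊤} M = ⊤` (a set `D ∈ₘ M`, `D ⊆ {⊥, ⊤}`, `sSup D = ⊤` contains `⊤`, and `⊤ ∈ₘ M`), so
`sInf G' ≠ ⊥` (`proj_bot`).  `r = sInf G'`: `r ≤ q`, `r ∈ A`, and `r ≤ d` for some `d ∈ D n ∩ G'`.
`Distr.decide`: `D n = {x n, (x n)ᶜ}` for an enumeration `x n` of the countable set `X` (if empty: trivial).
`Distr.ctbl_union`: for a countable family `P` of predicates (each decided densely).
`ev_trace`: let `D = {d ∈ A | d decides every element of A ∩ W k}` (as a set in `W k.s`: it is a function of `W k ∈ W k.s`; `Ev.fn1` for raw `z ↦ {d | d ∈ A ∧ ∀ x ∈ A, x ∈ₘ z → d ≤ x ∨ d ≤ xᶜ}`);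
`sSup D = ⊤` by `Distr.decide` (density).  So some `d ∈ D ∩ G`, `d ∈ₘ W k.s`.  For `x ∈ A ∩ W k`: `x ∈ G ↔ d ≤ x` (if `d ≤ x` then `x ∈ G` by `up`; if not, `d ≤ xᶜ`, so `xᶜ ∈ G` and `x ∉ G`);
`{x | x ∈ G ∧ x ∈ₘ W k} = {x | x ∈ A ∧ x ∈ₘ W k ∧ d ≤ x}` is a function of `W k` and `d`.
`genF_restrict`: if `G` is `W j`-generic and `r ≠ ⊥` is below all its elements and below `gen A (W k)`, `k ≤ j`, then `G ∩ W k` is `W k`-generic:
for `D ∈ₘ W k` with sup `⊤`, `r ≤ sSup (D ∩ W k)`; if no `d ∈ D ∩ W k` is in `G`, then `dᶜ ∈ G` for all of them, so `r ≤ dᶜ`, contradiction.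
-/

set_option autoImplicit false

namespace Pool.Agent.CAN

variable {B : Type 1} [CompleteBooleanAlgebra B] {A : Set B}

theorem mem_top_of_two {D : Set B} (hD : D ⊆ ({⊥, ⊤} : Set B)) (hs : sSup D = ⊤) (hne : (⊥ : B) ≠ ⊤) : (⊤ : B) ∈ D := by
  by_contra hc
  have h1 : sSup D ≤ ⊥ := by
    refine sSup_le fun x hx => ?_
    rcases hD hx with h | h
    · exact h.le
    · exact absurd (by rw [Set.mem_singleton_iff] at h; rwa [h] at hx) hc
  rw [hs] at h1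
  exact hne (le_bot_iff.1 h1).symm

theorem gen_two {M : ZFSet.{1}} (hM : InM (⊤ : B) M) (hne : (⊥ : B) ≠ ⊤) : (⊤ : B) ≤ gen ({⊥, ⊤} : Set B) M := by
  refine le_gen fun D hD hA hs => ?_
  exact le_sSup ⟨mem_top_of_two hA hs hne, hM⟩

theorem distr_of_np (hA : CSub A) (h : NP ({⊥, ⊤} : Set B) A) : Distr A := by
  intro D hD q hq hq0
  have hne : (⊥ : B) ≠ ⊤ := by
    intro he
    exact hq0 (le_bot_iff.1 (by rw [he]; exact le_top))
  have e1 : Ev (fun M => (∀ n, InM (D n) M) ∧ InM q M ∧ InM (⊤ : B) M ∧ InM ({⊤} : Set B) M) :=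
    ((Ev.all_nat fun n => Ev.const (D n)).and ((Ev.const q).and ((Ev.const (⊤ : B)).and (Ev.const ({⊤} : Set B)))))
  obtain ⟨F, hF⟩ := (h.nn.and ((EvN.of_ev e1).and (EvN.of_evT (EvT.of_ev e1))))
  obtain ⟨M, hM, -⟩ := exists_mdl F (P := ∅) Set.countable_empty
  obtain ⟨W, hW, hMW⟩ := exists_tw F M
  obtain ⟨hNN, ⟨hMD, hMq, hMt, -⟩, hWk⟩ := hF M W Om.z hM hW hMW
  have hgen : GenF ({⊥, ⊤} : Set B) M {⊤} := by
    refine ⟨?_, ?_, ?_, ?_, ?_⟩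
    · intro x hx
      rw [Set.mem_singleton_iff] at hx
      subst hx
      exact ⟨Or.inr rfl, hMt⟩
    · intro x hx y _ _ hxy
      rw [Set.mem_singleton_iff] at hx ⊢
      subst hx
      exact top_le_iff.1 hxy
    · intro x hx y hy
      rw [Set.mem_singleton_iff] at hx hy ⊢
      subst hx; subst hy
      exact inf_idem _
    · intro hb
      rw [Set.mem_singleton_iff] at hb
      exact hne hb
    · intro E _ hE hs
      exact ⟨⊤, mem_top_of_two hE hs hne, rfl⟩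
  obtain ⟨j, _, G', hG', hqG, _, hle⟩ := hNN {⊤} (hWk Om.z le_rfl).2.2.2 hgen q hq hMq
    (by rw [proj_two hq0]; exact rfl)
  have htop : (⊤ : B) ≤ proj ({⊥, ⊤} : Set B) (sInf G') := by
    refine le_trans ?_ hle
    refine le_inf (by simp) ?_
    exact le_ggen fun k _ _ => gen_two (hWk k (Om.z_le k)).2.2.1 hne
  refine ⟨sInf G', hA.inf' (fun x hx => (hG'.sub x hx).1), ?_, sInf_le hqG, ?_⟩
  · intro he
    rw [he, proj_bot csub_two] at htop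
    exact hne (le_bot_iff.1 htop).symm
  · intro n
    obtain ⟨d, hd, hdG⟩ := hG'.meet (D n) (hMD n) (hD n).1 (hD n).2
    exact ⟨d, hd, sInf_le hdG⟩

theorem Distr.decide (hA : CSub A) (h : Distr A) {X : Set B} (hX : X.Countable) (hXA : X ⊆ A) {q : B} (hq : q ∈ A)
    (h0 : q ≠ ⊥) : ∃ r ∈ A, r ≠ ⊥ ∧ r ≤ q ∧ ∀ x ∈ X, r ≤ x ∨ r ≤ xᶜ := by
  rcases X.eq_empty_or_nonempty with he | hne
  · exact ⟨q, hq, h0, le_rfl, fun x hx => by rw [he] at hx; exact hx.elim⟩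
  · obtain ⟨x, rfl⟩ := hX.exists_eq_range hne
    obtain ⟨r, hr, hr0, hrq, hrd⟩ := h (fun n => {x n, (x n)ᶜ}) (fun n => by
      refine ⟨?_, ?_⟩
      · intro y hy
        rcases hy with hy | hy
        · rw [hy]; exact hXA ⟨n, rfl⟩
        · rw [Set.mem_singleton_iff] at hy
          rw [hy]; exact hA.compl _ (hXA ⟨n, rfl⟩)
      · rw [sSup_pair]; exact sup_compl_eq_top) q hq h0
    refine ⟨r, hr, hr0, hrq, ?_⟩
    rintro _ ⟨n, rfl⟩
    obtain ⟨d, hd, hrd⟩ := hrd n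
    rcases hd with hd | hd
    · left; rw [← hd]; exact hrd
    · right; rw [Set.mem_singleton_iff] at hd; rw [← hd]; exact hrd

/-- Countably many existential statements can be decided with witnesses. -/
theorem Distr.witness (hA : CSub A) (h : Distr A) {ι κ : Type*} [Countable ι] (f : ι → κ → B) (hf : ∀ i j, f i j ∈ A)
    {q : B} (hq : q ∈ A) (h0 : q ≠ ⊥) (hle : ∀ i, q ≤ ⨆ j, f i j) :
    ∃ r ∈ A, r ≠ ⊥ ∧ r ≤ q ∧ ∀ i, ∃ j, r ≤ f i j := by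
  rcases isEmpty_or_nonempty ι with hi | hi
  · exact ⟨q, hq, h0, le_rfl, fun i => (hi.false i).elim⟩
  · obtain ⟨e, he⟩ := exists_surjective_nat ι
    obtain ⟨r, hr, hr0, hrq, hrd⟩ := h (fun n => Set.range (f (e n)) ∪ {(⨆ j, f (e n) j)ᶜ}) (fun n => by
      refine ⟨?_, ?_⟩
      · rintro y (⟨j, rfl⟩ | hy)
        · exact hf _ _
        · rw [Set.mem_singleton_iff] at hy
          rw [hy]; exact hA.compl _ (hA.iSup fun j => hf _ _)
      · rw [sSup_union, sSup_range, sSup_singleton]; exact sup_compl_eq_top) q hq h0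
    refine ⟨r, hr, hr0, hrq, ?_⟩
    intro i
    obtain ⟨n, rfl⟩ := he i
    obtain ⟨d, hd, hrd⟩ := hrd n
    rcases hd with ⟨j, rfl⟩ | hd
    · exact ⟨j, hrd⟩
    · exfalso
      rw [Set.mem_singleton_iff] at hd
      rw [hd] at hrd
      apply hr0
      have h1 : r ≤ (⨆ j, f (e n) j) ⊓ (⨆ j, f (e n) j)ᶜ := le_inf (hrq.trans (hle _)) hrd
      rw [inf_compl_eq_bot] at h1
      exact le_bot_iff.1 h1

theorem ev_trace (hA : CSub A) (h : Distr A) : EvT (fun W i => ∀ k, i ≤ k → ∀ G : Set B, GenF A (W k.s) G →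
    InM ({x | x ∈ G ∧ InM x (W k)} : Set B) (W k.s)) := by
  have e1 : Ev (fun M => {x | x ∈ M}.Countable ∧
      (∀ z : ZFSet.{1}, InM z M → InM ({d | d ∈ A ∧ ∀ x ∈ A, InM x z → d ≤ x ∨ d ≤ xᶜ} : Set B) M) ∧
      (∀ (z : ZFSet.{1}) (d : B), InM z M → InM d M → InM ({x | x ∈ A ∧ InM x z ∧ d ≤ x} : Set B) M)) := by
    refine Ev.and ⟨fun _ _ => ∅, fun M hM => hM.ctbl⟩ (Ev.and ?_ ?_)
    · exact Ev.fn1 (fun z : ZFSet.{1} => ({d | d ∈ A ∧ ∀ x ∈ A, InM x z → d ≤ x ∨ d ≤ xᶜ} : Set B))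
    · exact Ev.fn2 (fun (z : ZFSet.{1}) (d : B) => ({x | x ∈ A ∧ InM x z ∧ d ≤ x} : Set B))
  refine ((EvT.of_ev e1).and EvT.idx).mono ?_
  intro W i hW hp k hik G hG
  obtain ⟨h1, h2⟩ := hp
  have hks : k ≤ k.s := (Om.lt_s k).le
  obtain ⟨-, hf1, hf2⟩ := h1 k.s (hik.trans hks)
  have hc := (h1 k hik).1
  have hWk : InM (W k) (W k.s) := (h2 k hik k le_rfl).2
  have hsub : ∀ x : B, InM x (W k) → InM x (W k.s) := fun x hx => hW.mono k k.s hks hx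
  set D : Set B := {d | d ∈ A ∧ ∀ x ∈ A, InM x (W k) → d ≤ x ∨ d ≤ xᶜ} with hD
  have hDA : D ⊆ A := fun d hd => hd.1
  have hDs : sSup D = ⊤ := by
    by_contra hne
    have hcA : (sSup D)ᶜ ∈ A := hA.compl _ (hA.sup _ hDA)
    have hc0 : (sSup D)ᶜ ≠ ⊥ := by
      intro he
      exact hne (compl_eq_bot.1 he)
    have hX : {x : B | x ∈ A ∧ InM x (W k)}.Countable :=
      (tr_countable (T := B) hc).mono fun x hx => hx.2
    obtain ⟨r, hr, hr0, hrc, hrd⟩ := Distr.decide hA h hX (fun x hx => hx.1) hcA hc0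
    apply hr0
    have hrD : r ∈ D := ⟨hr, fun x hx hxM => hrd x ⟨hx, hxM⟩⟩
    have h3 : r ≤ sSup D ⊓ (sSup D)ᶜ := le_inf (le_sSup hrD) hrc
    rw [inf_compl_eq_bot] at h3
    exact le_bot_iff.1 h3
  obtain ⟨d, hd, hdG⟩ := hG.meet D (hf1 (W k) hWk) hDA hDs
  have heq : ({x | x ∈ G ∧ InM x (W k)} : Set B) = {x | x ∈ A ∧ InM x (W k) ∧ d ≤ x} := by
    ext x
    constructor
    · rintro ⟨hxG, hxM⟩
      have hxA := (hG.sub x hxG).1
      refine ⟨hxA, hxM, ?_⟩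
      rcases hd.2 x hxA hxM with h4 | h4
      · exact h4
      · exfalso
        apply hG.bot
        have h5 := hG.inf x hxG d hdG
        have h6 : x ⊓ d = ⊥ := by
          apply le_bot_iff.1
          calc x ⊓ d ≤ x ⊓ xᶜ := inf_le_inf_left _ h4
            _ = ⊥ := inf_compl_eq_bot
            _ ≤ ⊥ := le_rfl
        rwa [h6] at h5
    · rintro ⟨hxA, hxM, hdx⟩
      exact ⟨hG.up d hdG x hxA (hsub x hxM) hdx, hxM⟩
  rw [heq]
  exact hf2 (W k) d hWk (hG.sub d hdG).2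

theorem genF_restrict (hA : CSub A) : EvT (fun W i => ∀ k j, i ≤ k → k ≤ j → ∀ G : Set B, GenF A (W j) G → ∀ r : B, r ≠ ⊥ →
    r ≤ sInf G → r ≤ gen A (W k) → GenF A (W k) {x | x ∈ G ∧ InM x (W k)}) := by
  have e1 : Ev (fun M => (∀ x y : B, InM x M → InM y M → InM (x ⊓ y) M) ∧
      (∀ A : Set B, CSub A → ∀ G, GenF A M G →
    ⊤ ∈ G ∧ (∀ x ∈ A, InM x M → (x ∈ G ∨ xᶜ ∈ G)) ∧ (∀ x, x ∈ G → xᶜ ∉ G) ∧
    (∀ D : Set B, InM D M → D ⊆ A → ∀ a ∈ G, a ≤ sSup D → ∃ d ∈ D, d ∈ G) ∧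
    (∀ x ∈ A, InM x M → sInf G ≠ ⊥ → (x ∈ G ↔ sInf G ≤ x)))) :=
    (Ev.fn2 (fun x y : B => x ⊓ y)).and ev_genF
  refine (EvT.of_ev e1).mono ?_
  intro W i hW hp k j hik hkj G hG r hr0 hrG hrg
  have hmono : ∀ x : B, InM x (W k) → InM x (W j) := fun x hx => hW.mono k j hkj hx
  refine ⟨?_, ?_, ?_, ?_, ?_⟩
  · rintro x ⟨hx, hxM⟩
    exact ⟨(hG.sub x hx).1, hxM⟩
  · rintro x ⟨hx, _⟩ y hy hyM hxy
    exact ⟨hG.up x hx y hy (hmono y hyM) hxy, hyM⟩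
  · rintro x ⟨hx, hxM⟩ y ⟨hy, hyM⟩
    exact ⟨hG.inf x hx y hy, (hp k hik).1 x y hxM hyM⟩
  · rintro ⟨hb, _⟩
    exact hG.bot hb
  · intro D hD hDA hDs
    by_contra hcon
    push Not at hcon
    apply hr0
    have h1 : r ≤ sSup {d | d ∈ D ∧ InM d (W k)} := hrg.trans (gen_le hD hDA hDs)
    have h2 : r ⊓ sSup {d | d ∈ D ∧ InM d (W k)} = ⊥ := by
      rw [inf_sSup_eq]
      apply le_bot_iff.1
      refine iSup_le fun d => iSup_le fun hd => ?_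
      obtain ⟨hdD, hdM⟩ := hd
      have h3 : d ∉ G := fun hdG => hcon d hdD ⟨hdG, hdM⟩
      have h4 : dᶜ ∈ G := by
        rcases ((hp j (hik.trans hkj)).2 A hA G hG).2.1 d (hDA hdD) (hmono d hdM) with h5 | h5
        · exact absurd h5 h3
        · exact h5
      have h6 : r ≤ dᶜ := hrG.trans (sInf_le h4)
      calc r ⊓ d ≤ dᶜ ⊓ d := inf_le_inf_right _ h6
        _ = ⊥ := compl_inf_eq_bot
        _ ≤ ⊥ := le_rfl
    rw [inf_eq_left.2 h1] at h2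
    exact h2

end Pool.Agent.CAN
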