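import Mathlib

/-!
# CAN: countable models, towers of models, complete subalgebras, nice pairs (definitions)

`V = ZFSet.{1}`, all types live in `Type 1`, small means `Small.{0}`.

* `Om`: the countable ordinals.
* `Cod T`: a coding `cd : T → ZFSet` of the elements of a type (every type in `Type 1` has a fixed injective
  coding, `ZFSet` is coded by the identity).  `InM x M` means `cd x ∈ M` (in comments
  also written `x ∈ₘ M`).
* `Mdl F M`: `M` is countable and closed under the operation `F : ZFSet → ZFSet → ZFSet`.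
* `Tw W`: `W : Om → ZFSet` is a tower of countable sets.
* `Ev p`, `EvT p`, `EvN p`: `p` holds for all models (towers, ...) which are sufficiently closed.
* `CSub A`: `A` is a complete subalgebra; `proj A x`: the least element of `A` above `x`.
* `gen A M`: the largest `(M, A)`-generic condition, `GenF A M G`: `G` is an `M`-generic filter of `A`.
* `PP`, `NN`, `NP`: nice pairs.
-/

set_option autoImplicit false

namespace Pool.Agent.CAN

/-! ### countable ordinals -/

/-- The countable ordinals. -/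
abbrev Om : Type 1 := {a : Ordinal.{0} // a < Ordinal.omega 1}

/-- The successor of a countable ordinal. -/
noncomputable def Om.s (a : Om) : Om :=
  ⟨Order.succ a.1, (Cardinal.isSuccLimit_omega 1).succ_lt a.2⟩

/-- `k` is a limit: it has predecessors but no largest one. -/
def Lim {I : Type*} [LT I] (k : I) : Prop := (∃ j, j < k) ∧ ∀ j, j < k → ∃ i, j < i ∧ i < k

/-! ### codes -/

theorem exists_enc (T : Type 1) : ∃ f : T → ZFSet.{1}, Function.Injective f :=
  ⟨fun x => (Ordinal.typein (WellOrderingRel (α := T)) x).toZFSet,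
    Ordinal.toZFSet_injective.comp (Ordinal.typein_injective _)⟩

/-- A fixed injection of the type `T` into `ZFSet`. -/
noncomputable def enc (T : Type 1) : T → ZFSet.{1} := (exists_enc T).choose

/-- Types whose elements are coded by sets. -/
class Cod (T : Type*) where
  cd : T → ZFSet.{1}
  inj : Function.Injective cd

export Cod (cd)

noncomputable instance (T : Type 1) : Cod T := ⟨enc T, (exists_enc T).choose_spec⟩

noncomputable instance (T : Type) : Cod T :=
  ⟨fun x => enc (ULift.{1} T) ⟨x⟩, fun _ _ h => congrArg ULift.down ((exists_enc (ULift.{1} T)).choose_spec h)⟩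

instance : Cod ZFSet.{1} := ⟨id, fun _ _ h => h⟩

/-- The object `x` belongs to `M`. -/
def InM {T : Type*} [Cod T] (x : T) (M : ZFSet.{1}) : Prop := cd x ∈ M

/-! ### models -/

/-- `M` is a countable set closed under the operation `F`. -/
structure Mdl (F : ZFSet.{1} → ZFSet.{1} → ZFSet.{1}) (M : ZFSet.{1}) : Prop where
  ctbl : {x | x ∈ M}.Countable
  zero : (∅ : ZFSet.{1}) ∈ M
  op : ∀ x ∈ M, ∀ y ∈ M, F x y ∈ M

/-- `p M` holds for all sufficiently closed countable `M`. -/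
def Ev (p : ZFSet.{1} → Prop) : Prop :=
  ∃ F : ZFSet.{1} → ZFSet.{1} → ZFSet.{1}, ∀ M, Mdl F M → p M

/-- The code of the initial segment `(W j : j ≤ k)` of the tower `W`. -/
noncomputable def tcode (W : Om → ZFSet.{1}) (k : Om) : ZFSet.{1} :=
  ZFSet.range (fun j : Set.Iic k => ZFSet.pair (cd j.1) (W j.1))

/-- `W` is a tower: increasing, continuous, and `(W j : j ≤ k)` belongs to `W (k + 1)`. -/
structure Tw (W : Om → ZFSet.{1}) : Prop where
  mono : ∀ j k, j ≤ k → W j ⊆ W k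
  cont : ∀ k, Lim k → ∀ x ∈ W k, ∃ j, j < k ∧ x ∈ W j
  mem : ∀ k, tcode W k ∈ W k.s

/-- The tower `W` is closed under `F` from `i` on. -/
structure TwF (F : ZFSet.{1} → ZFSet.{1} → ZFSet.{1}) (W : Om → ZFSet.{1}) (i : Om) : Prop where
  tw : Tw W
  mdl : ∀ k, i ≤ k → Mdl F (W k)

/-- `p W i` holds for all towers sufficiently closed from `i` on. -/
def EvT (p : (Om → ZFSet.{1}) → Om → Prop) : Prop :=
  ∃ F : ZFSet.{1} → ZFSet.{1} → ZFSet.{1}, ∀ W i, TwF F W i → p W i

/-- `p M W i` holds for all sufficiently closed `M` and towers `W` sufficiently closed from `i` on, with `M ∈ W i`. -/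
def EvN (p : ZFSet.{1} → (Om → ZFSet.{1}) → Om → Prop) : Prop :=
  ∃ F : ZFSet.{1} → ZFSet.{1} → ZFSet.{1}, ∀ M W i, Mdl F M → TwF F W i → M ∈ W i → p M W i

/-- `δ(M) = M ∩ ω₁` (the least countable ordinal not in `M`). -/
noncomputable def del (M : ZFSet.{1}) : Om := sInf' {a : Om | ¬ InM a M}
where
  /-- least element of a set (junk value if empty) -/
  sInf' (s : Set Om) : Om := open Classical in
    if h : s.Nonempty then WellFounded.min (wellFounded_lt (α := Om)) s h else ⟨0, Ordinal.omega_pos 1⟩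

/-! ### complete subalgebras -/

section Alg
variable {B : Type 1} [CompleteBooleanAlgebra B]

/-- `A` is a complete subalgebra. -/
structure CSub (A : Set B) : Prop where
  sup : ∀ s : Set B, s ⊆ A → sSup s ∈ A
  compl : ∀ x ∈ A, xᶜ ∈ A

/-- The least element of `A` above `x`. -/
def proj (A : Set B) (x : B) : B := sInf {a | a ∈ A ∧ x ≤ a}

/-- The largest `(M, A)`-generic condition. -/
noncomputable def gen (A : Set B) (M : ZFSet.{1}) : B :=
  ⨅ (D : Set B) (_ : InM D M) (_ : D ⊆ A) (_ : sSup D = ⊤), sSup {d | d ∈ D ∧ InM d M}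

/-- The conditions generic for all models `W k`, `i ≤ k ≤ j`. -/
noncomputable def ggen (A : Set B) (W : Om → ZFSet.{1}) (i j : Om) : B :=
  ⨅ (k : Om) (_ : i ≤ k) (_ : k ≤ j), gen A (W k)

/-- `G` is an `M`-generic filter on `A ∩ M`. -/
structure GenF (A : Set B) (M : ZFSet.{1}) (G : Set B) : Prop where
  sub : ∀ x ∈ G, x ∈ A ∧ InM x M
  up : ∀ x ∈ G, ∀ y ∈ A, InM y M → x ≤ y → y ∈ G
  inf : ∀ x ∈ G, ∀ y ∈ G, x ⊓ y ∈ G
  bot : ⊥ ∉ G
  meet : ∀ D : Set B, InM D M → D ⊆ A → sSup D = ⊤ → ∃ d ∈ D, d ∈ G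

/-- Properness of the pair `A ⊆ C` for the tower `W` from `i` on. -/
def PPs (A C : Set B) (W : Om → ZFSet.{1}) (i : Om) : Prop :=
  ∀ j, i ≤ j → ∀ q ∈ C, InM q (W i) → ggen A W i j ⊓ proj A q ≤ proj A (q ⊓ ggen C W i j)

/-- The same with the side condition `v`. -/
def PPv (A C : Set B) (v : Om → B) (W : Om → ZFSet.{1}) (i : Om) : Prop :=
  ∀ j, i ≤ j → ∀ q ∈ C, InM q (W i) →
    ggen A W i j ⊓ (⨅ (k : Om) (_ : i ≤ k) (_ : k ≤ j), v (del (W k))) ⊓ proj A q ≤ proj A (q ⊓ ggen C W i j)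

/-- The pair `A ⊆ C` adds no new countable sequences (strong form), for the model `M` and the tower `W` from
`i` on. -/
def NNs (A C : Set B) (M : ZFSet.{1}) (W : Om → ZFSet.{1}) (i : Om) : Prop :=
  ∀ G : Set B, InM G (W i) → GenF A M G → ∀ q ∈ C, InM q M → proj A q ∈ G →
    ∃ j, i ≤ j ∧ ∃ G' : Set B, GenF C M G' ∧ q ∈ G' ∧ G ⊆ G' ∧ sInf G ⊓ ggen A W i j ≤ proj A (sInf G')

/-- The same with the side condition `v`. -/
def NNv (A C : Set B) (v : Om → B) (M : ZFSet.{1}) (W : Om → ZFSet.{1}) (i : Om) : Prop :=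
  ∀ G : Set B, InM G (W i) → GenF A M G → ∀ q ∈ C, InM q M → proj A q ∈ G →
    ∃ j, i ≤ j ∧ ∃ G' : Set B, GenF C M G' ∧ q ∈ G' ∧ G ⊆ G' ∧
      sInf G ⊓ ggen A W i j ⊓ v (del M) ≤ proj A (sInf G')

/-- `A ⊆ C` is a nice pair. -/
structure NP (A C : Set B) : Prop where
  pp : EvT (PPs A C)
  nn : EvN (NNs A C)

/-- `A` is `(ω, ∞)`-distributive. -/
def Distr (A : Set B) : Prop :=
  ∀ D : ℕ → Set B, (∀ n, D n ⊆ A ∧ sSup (D n) = ⊤) → ∀ q ∈ A, q ≠ ⊥ →
    ∃ r ∈ A, r ≠ ⊥ ∧ r ≤ q ∧ ∀ n, ∃ d ∈ D n, r ≤ d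

/-! ### chains of complete subalgebras -/

/-- `g` is the supremum of a countable set of smaller ordinals. -/
def CofW (g : Ordinal.{0}) : Prop := ∃ f : ℕ → Ordinal.{0}, (∀ n, f n < g) ∧ ∀ a < g, ∃ n, a ≤ f n

/-- `S` is an iteration: an increasing sequence of complete subalgebras, successive ones form nice pairs, and at
limits of countable cofinality all threads occur (and are dense), at the other limits the union is dense. -/
structure Chain (S : Ordinal.{0} → Set B) : Prop where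
  sub : ∀ a, CSub (S a)
  mono : ∀ a b, a ≤ b → S a ⊆ S b
  step : ∀ a, NP (S a) (S (Order.succ a))
  dense : ∀ g, Order.IsSuccLimit g → CofW g → ∀ x ∈ S g, x ≠ ⊥ →
    ∃ y ∈ S g, y ≠ ⊥ ∧ y ≤ x ∧ y = ⨅ (a) (_ : a < g), proj (S a) y
  thread : ∀ g, Order.IsSuccLimit g → CofW g → ∀ r : Ordinal.{0} → B, (∀ a < g, r a ∈ S a) →
    (∀ a b, a ≤ b → b < g → proj (S a) (r b) = r a) →
    (⨅ (a) (_ : a < g), r a) ∈ S g ∧ ∀ a < g, proj (S a) (⨅ (b) (_ : b < g), r b) = r a
  direct : ∀ g, Order.IsSuccLimit g → ¬ CofW g → ∀ x ∈ S g, x ≠ ⊥ → ∃ a < g, ∃ y ∈ S a, y ≠ ⊥ ∧ y ≤ x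

/-- The dense set of conditions of `S g`: threads, or conditions of bounded support. -/
def Pd (S : Ordinal.{0} → Set B) (g : Ordinal.{0}) : Set B :=
  {y | y ∈ S g ∧ (Order.IsSuccLimit g → CofW g → y = ⨅ (a) (_ : a < g), proj (S a) y) ∧
    (Order.IsSuccLimit g → ¬ CofW g → ∃ a < g, y ∈ S a)}

/-- The main induction hypothesis of the iteration theorem. -/
def PT (S : Ordinal.{0} → Set B) (g : Ordinal.{0}) (W : Om → ZFSet.{1}) (i : Om) : Prop :=
  ∀ j, i ≤ j → ∀ a, a < g → InM a (W i) → ∀ q ∈ Pd S g, InM q (W i) →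
    ∃ q' ∈ Pd S g, q' ≤ q ⊓ ggen (S g) W i j ∧ ggen (S a) W i j ⊓ proj (S a) q ≤ proj (S a) q'

end Alg

end Pool.Agent.CAN
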