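import Pool.Agent.CAN.EIface

/-!
# CAN/E0D: the recursion (definitions)

* `lad f y`: the least `x` with `y ≤ f x` (for a complete embedding `f`).
* `DSys D A`: a directed system of complete Boolean algebras `A a`, `a : D`, and complete embeddings.
* `Pt`: points (ordinals, without their order).  `St`: a set of points with the structure of a complete Boolean algebra.
  `s.Sub t`: the algebra `t` extends the algebra `s` and the inclusion is a complete embedding.
  `St.im s t`: the set of the elements of `s` in the algebra `t`.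
* `LimAt S g`: the conditions of `Chain` at the limit `g`; `LimTop S g`: the same for `S g = univ` (only `S b`, `b < g`, is used).
* `ChainTo S a`: `S` is an iteration up to and including `a`.
* `StepOK P enc b s t`: `t` is a nice extension of `s` handling the task with the number `b` (numbering `enc`).
* `Stage P enc a st s`: the induction hypothesis of the recursion: `s` is a suitable algebra at the stage `a` after the
  algebras `st b`, `b < a`.
-/

set_option autoImplicit false

namespace Pool.Agent.CAN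

/-- The lower adjoint of a complete embedding. -/
def lad {A C : Type 1} [CompleteBooleanAlgebra A] [CompleteBooleanAlgebra C] (f : A → C) (y : C) : A :=
  sInf {x | y ≤ f x}

/-- Directed systems of complete Boolean algebras. -/
structure DSys (D : Type 1) [LinearOrder D] (A : D → Type 1) [∀ a, CompleteBooleanAlgebra (A a)] where
  f : ∀ a b, a ≤ b → A a → A b
  emb : ∀ a b (h : a ≤ b), CEmb (f a b h)
  id : ∀ a x, f a a le_rfl x = x
  comp : ∀ a b c (h : a ≤ b) (h' : b ≤ c) x, f b c h' (f a b h x) = f a c (h.trans h') x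

/-- Points: ordinals without their order. -/
structure Pt : Type 1 where
  o : Ordinal.{0}

/-- Sets of points with the structure of a complete Boolean algebra. -/
structure St : Type 1 where
  X : Set Pt
  alg : CompleteBooleanAlgebra X

instance (s : St) : CompleteBooleanAlgebra s.X := s.alg

/-- `t` is an extension of `s`. -/
def St.Sub (s t : St) : Prop := ∃ h : s.X ⊆ t.X, CEmb (Set.inclusion h)

/-- The elements of `s` in the algebra `t`. -/
def St.im (s t : St) : Set t.X := {x | x.1 ∈ s.X}

section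
variable {B : Type 1} [CompleteBooleanAlgebra B]

/-- The conditions at a limit stage. -/
structure LimAt (S : Ordinal.{0} → Set B) (g : Ordinal.{0}) : Prop where
  dense : Order.IsSuccLimit g → CofW g → ∀ x ∈ S g, x ≠ ⊥ →
    ∃ y ∈ S g, y ≠ ⊥ ∧ y ≤ x ∧ y = ⨅ (a) (_ : a < g), proj (S a) y
  thread : Order.IsSuccLimit g → CofW g → ∀ r : Ordinal.{0} → B, (∀ a < g, r a ∈ S a) →
    (∀ a b, a ≤ b → b < g → proj (S a) (r b) = r a) →
    (⨅ (a) (_ : a < g), r a) ∈ S g ∧ ∀ a < g, proj (S a) (⨅ (b) (_ : b < g), r b) = r a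
  direct : Order.IsSuccLimit g → ¬ CofW g → ∀ x ∈ S g, x ≠ ⊥ → ∃ a < g, ∃ y ∈ S a, y ≠ ⊥ ∧ y ≤ x

/-- The conditions at a limit stage, if the algebra of this stage is the whole algebra. -/
structure LimTop (S : Ordinal.{0} → Set B) (g : Ordinal.{0}) : Prop where
  dense : Order.IsSuccLimit g → CofW g → ∀ x : B, x ≠ ⊥ →
    ∃ y, y ≠ ⊥ ∧ y ≤ x ∧ y = ⨅ (a) (_ : a < g), proj (S a) y
  thread : Order.IsSuccLimit g → CofW g → ∀ r : Ordinal.{0} → B, (∀ a < g, r a ∈ S a) →
    (∀ a b, a ≤ b → b < g → proj (S a) (r b) = r a) → ∀ a < g, proj (S a) (⨅ (b) (_ : b < g), r b) = r a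
  direct : Order.IsSuccLimit g → ¬ CofW g → ∀ x : B, x ≠ ⊥ → ∃ a < g, ∃ y ∈ S a, y ≠ ⊥ ∧ y ≤ x

/-- `S` is an iteration up to `a`. -/
structure ChainTo (S : Ordinal.{0} → Set B) (a : Ordinal.{0}) : Prop where
  sub : ∀ b, b ≤ a → CSub (S b)
  mono : ∀ b c, b ≤ c → c ≤ a → S b ⊆ S c
  step : ∀ b, b < a → NP (S b) (S (Order.succ b))
  lim : ∀ g, g ≤ a → LimAt S g

/-- The ranges of the maps `e b`, `b < g`. -/
def rg {g : Ordinal.{0}} {A : Set.Iio g → Type 1} (e : ∀ b, A b → B) (b : Ordinal.{0}) : Set B :=
  {x | ∃ (h : b < g) (y : A ⟨b, h⟩), e ⟨b, h⟩ y = x}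

end

section
variable {I J : Type 1}

/-- `t` is a nice extension of `s` in which the task with the number `b` is handled. -/
def StepOK (P : TaskRel I J) (enc : (I → Pt) → J → Ordinal.{0} → Ordinal.{0}) (b : Ordinal.{0}) (s t : St) : Prop :=
  NP (St.im s t) Set.univ ∧ ∀ (v : I → s.X) (j : J) (c : Ordinal.{0}), enc (fun i => (v i).1) j c = b →
    ∀ h : s.X ⊆ t.X, P s.X t.X s.alg t.alg v j (Set.inclusion h)

/-- `s` is a suitable algebra at the stage `a`, after the algebras `st b`, `b < a`. -/
structure Stage (P : TaskRel I J) (enc : (I → Pt) → J → Ordinal.{0} → Ordinal.{0}) (a : Ordinal.{0})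
    (st : Ordinal.{0} → St) (s : St) : Prop where
  small : Small.{0} s.X
  nontriv : (⊥ : s.X) ≠ ⊤
  sub : ∀ b, b < a → (st b).Sub s
  zero : a = 0 → ∀ x : s.X, x = ⊥ ∨ x = ⊤
  step : ∀ b, a = Order.succ b → StepOK P enc b (st b) s
  lim : LimTop (fun b => St.im (st b) s) a

end

end Pool.Agent.CAN
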