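import Pool.Agent.CAN.PRA
import Pool.Agent.CAN.OMB

/-!
# CAN/GEN: generic conditions

All immediate.  `ggen_lim`: if `D ∈ₘ W k` and `k` is a limit then `D ∈ₘ W j'` for some `j' < k` (`Tw.cont`), and with `j = max j' i` (`i < k`)
`gen A (W j) ≤ sSup {d ∈ D | d ∈ₘ W j} ≤ sSup {d ∈ D | d ∈ₘ W k}`.
-/

set_option autoImplicit false

namespace Pool.Agent.CAN

variable {B : Type 1} [CompleteBooleanAlgebra B] {A C : Set B}

theorem gen_mem (h : CSub A) (M : ZFSet.{1}) : gen A M ∈ A := by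
  unfold gen
  refine h.iInf fun D => h.iInf fun _ => h.iInf fun hD => h.iInf fun _ => h.sup _ ?_
  exact fun x hx => hD hx.1

theorem ggen_mem (h : CSub A) (W : Om → ZFSet.{1}) (i j : Om) : ggen A W i j ∈ A := by
  exact h.iInf fun k => h.iInf fun _ => h.iInf fun _ => gen_mem h _

theorem gen_le {M : ZFSet.{1}} {D : Set B} (hD : InM D M) (hA : D ⊆ A) (hs : sSup D = ⊤) :
    gen A M ≤ sSup {d | d ∈ D ∧ InM d M} := by
  exact iInf_le_of_le D (iInf_le_of_le hD (iInf_le_of_le hA (iInf_le _ hs)))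

theorem le_gen {M : ZFSet.{1}} {x : B}
    (h : ∀ D : Set B, InM D M → D ⊆ A → sSup D = ⊤ → x ≤ sSup {d | d ∈ D ∧ InM d M}) : x ≤ gen A M := by
  exact le_iInf fun D => le_iInf fun h1 => le_iInf fun h2 => le_iInf fun h3 => h D h1 h2 h3

theorem ggen_le {W : Om → ZFSet.{1}} {i j k : Om} (h1 : i ≤ k) (h2 : k ≤ j) : ggen A W i j ≤ gen A (W k) := by
  exact iInf_le_of_le k (iInf_le_of_le h1 (iInf_le _ h2))

theorem le_ggen {W : Om → ZFSet.{1}} {i j : Om} {x : B} (h : ∀ k, i ≤ k → k ≤ j → x ≤ gen A (W k)) :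
    x ≤ ggen A W i j := by
  exact le_iInf fun k => le_iInf fun h1 => le_iInf fun h2 => h k h1 h2

theorem ggen_self (W : Om → ZFSet.{1}) (i : Om) : ggen A W i i = gen A (W i) := by
  refine le_antisymm (ggen_le le_rfl le_rfl) (le_ggen fun k h1 h2 => ?_)
  rw [le_antisymm h1 h2]

theorem ggen_anti (W : Om → ZFSet.{1}) {i i' j j' : Om} (h1 : i ≤ i') (h2 : j' ≤ j) :
    ggen A W i j ≤ ggen A W i' j' := by
  exact le_ggen fun k h3 h4 => ggen_le (h1.trans h3) (h4.trans h2)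

theorem ggen_succ (W : Om → ZFSet.{1}) {i j : Om} (h : i ≤ j) : ggen A W i j.s = ggen A W i j ⊓ gen A (W j.s) := by
  have hj : j ≤ j.s := (Om.lt_s j).le
  apply le_antisymm
  · exact le_inf (ggen_anti W le_rfl hj) (ggen_le (h.trans hj) le_rfl)
  · refine le_ggen fun k h1 h2 => ?_
    rcases h2.lt_or_eq with h3 | h3
    · exact inf_le_left.trans (ggen_le h1 (Om.lt_s_iff.1 h3))
    · rw [h3]
      exact inf_le_right

theorem ggen_split (W : Om → ZFSet.{1}) {i k j : Om} (h1 : i ≤ k) (h2 : k < j) :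
    ggen A W i j = ggen A W i k ⊓ ggen A W k.s j := by
  apply le_antisymm
  · exact le_inf (ggen_anti W le_rfl h2.le) (ggen_anti W (h1.trans (Om.lt_s k).le) le_rfl)
  · refine le_ggen fun l h3 h4 => ?_
    rcases le_or_gt l k with h5 | h5
    · exact inf_le_left.trans (ggen_le h3 h5)
    · exact inf_le_right.trans (ggen_le (Om.s_le.2 h5) h4)

theorem ggen_loc {W W' : Om → ZFSet.{1}} {i j : Om} (h : ∀ k, k ≤ j → W k = W' k) : ggen A W i j = ggen A W' i j := by
  apply le_antisymm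
  · refine le_ggen fun k h1 h2 => ?_
    rw [← h k h2]
    exact ggen_le h1 h2
  · refine le_ggen fun k h1 h2 => ?_
    rw [h k h2]
    exact ggen_le h1 h2

/-- A condition generic for all `W j`, `i ≤ j < k`, is generic for `W k` (`k` a limit). -/
theorem ggen_lim {W : Om → ZFSet.{1}} (hW : Tw W) {i k : Om} (hk : Lim k) (hik : i < k) {x : B}
    (hx : ∀ j, i ≤ j → j < k → x ≤ gen A (W j)) : x ≤ ggen A W i k := by
  refine le_ggen fun l h1 h2 => ?_
  rcases h2.lt_or_eq with h3 | rfl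
  · exact hx l h1 h3
  · refine le_gen fun D hD hA hs => ?_
    obtain ⟨j', hj', hj''⟩ := hW.cont l hk _ hD
    have h4 : max i j' < l := max_lt hik hj'
    have h5 : InM D (W (max i j')) := hW.mono _ _ (le_max_right _ _) hj''
    refine (hx _ (le_max_left _ _) h4).trans ((gen_le h5 hA hs).trans (sSup_le_sSup ?_))
    rintro d ⟨h6, h7⟩
    exact ⟨h6, hW.mono _ _ h4.le h7⟩

end Pool.Agent.CAN
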