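import Pool.Agent.CAN.EVC

/-!
# CAN/TWR: the quantifiers `EvT`, `EvN`

* `TwF.shift`: trivial.  `TwF.of_common`: if `F` refines `F'` on models then `TwF F W i → TwF F' W i`.
* `EvT.and`, `EvT.diag`, `EvN.and`, `EvN.diag`: apply `Ev.and`, `Ev.diag` to `Ev (Mdl F)`: for `p x` given by `F x`, `Ev.diag` gives an
  operation `F'` such that `Mdl F' M` implies `Mdl (F x) M` for all `x ∈ₘ M`; if `TwF F' W i` and `x ∈ₘ W i` then `x ∈ₘ W k` for `k ≥ i`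
  (`Tw.mono`), so `TwF (F x) W i`.
* `EvT.of_ev`: obvious.  `EvT.shift`, `EvN.shift`: `TwF.shift`; for `EvN` also `M ∈ W k` by monotonicity.
* `EvN.of_evT`, `EvN.of_ev`, `EvN.sub`: `M ∈ W i` is countable, so `M ⊆ W k` for `k ≥ i` by `Ev.ctbl_raw`.
-/

set_option autoImplicit false

namespace Pool.Agent.CAN

variable {p q : (Om → ZFSet.{1}) → Om → Prop}

theorem TwF.shift {F : ZFSet.{1} → ZFSet.{1} → ZFSet.{1}} {W : Om → ZFSet.{1}} {i k : Om} (h : TwF F W i) (hk : i ≤ k) :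
    TwF F W k :=
  ⟨h.tw, fun j hj => h.mdl j (hk.trans hj)⟩

private theorem TWR_conv {F F' : ZFSet.{1} → ZFSet.{1} → ZFSet.{1}} (hF : ∀ M, Mdl F M → Mdl F' M)
    {W : Om → ZFSet.{1}} {i : Om} (h : TwF F W i) : TwF F' W i :=
  ⟨h.tw, fun j hj => hF _ (h.mdl j hj)⟩

private theorem TWR_mem {T : Type*} [Cod T] {x : T} {W : Om → ZFSet.{1}} (h : Tw W) {i j : Om} (hij : i ≤ j)
    (hx : InM x (W i)) : InM x (W j) :=
  h.mono i j hij hx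

theorem EvT.mono (hp : EvT p) (h : ∀ W i, Tw W → p W i → q W i) : EvT q := by
  obtain ⟨F, hF⟩ := hp
  exact ⟨F, fun W i hW => h W i hW.tw (hF W i hW)⟩

theorem EvT.and (hp : EvT p) (hq : EvT q) : EvT (fun W i => p W i ∧ q W i) := by
  obtain ⟨F, hF⟩ := hp
  obtain ⟨G, hG⟩ := hq
  obtain ⟨H, hH⟩ := exists_common (Ev.mdl F) (Ev.mdl G)
  exact ⟨H, fun W i hW => ⟨hF W i (TWR_conv (fun M hM => (hH M hM).1) hW),
    hG W i (TWR_conv (fun M hM => (hH M hM).2) hW)⟩⟩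

theorem EvT.diag {T : Type*} [Cod T] {p : T → (Om → ZFSet.{1}) → Om → Prop} (h : ∀ x, EvT (p x)) :
    EvT (fun W i => ∀ x : T, InM x (W i) → p x W i) := by
  choose F hF using h
  obtain ⟨H, hH⟩ := Ev.diag (fun x => Ev.mdl (F x))
  exact ⟨H, fun W i hW x hx => hF x W i ⟨hW.tw, fun j hj => hH _ (hW.mdl j hj) x (TWR_mem hW.tw hj hx)⟩⟩

theorem EvT.all_nat {p : ℕ → (Om → ZFSet.{1}) → Om → Prop} (h : ∀ n, EvT (p n)) :
    EvT (fun W i => ∀ n, p n W i) := by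
  choose F hF using h
  obtain ⟨H, hH⟩ := Ev.all_nat (fun n => Ev.mdl (F n))
  exact ⟨H, fun W i hW n => hF n W i ⟨hW.tw, fun j hj => hH _ (hW.mdl j hj) n⟩⟩

theorem EvT.shift (hp : EvT p) : EvT (fun W i => ∀ k, i ≤ k → p W k) := by
  obtain ⟨F, hF⟩ := hp
  exact ⟨F, fun W i hW k hk => hF W k (hW.shift hk)⟩

theorem EvT.of_ev {r : ZFSet.{1} → Prop} (hr : Ev r) : EvT (fun W i => ∀ k, i ≤ k → r (W k)) := by
  obtain ⟨F, hF⟩ := hr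
  exact ⟨F, fun W i hW k hk => hF _ (hW.mdl k hk)⟩

theorem EvT.tw : EvT (fun W _ => Tw W) :=
  ⟨fun x _ => x, fun _ _ hW => hW.tw⟩

variable {p' q' : ZFSet.{1} → (Om → ZFSet.{1}) → Om → Prop}

theorem EvN.mono (hp : EvN p') (h : ∀ M W i, Tw W → p' M W i → q' M W i) : EvN q' := by
  obtain ⟨F, hF⟩ := hp
  exact ⟨F, fun M W i hM hW hi => h M W i hW.tw (hF M W i hM hW hi)⟩

theorem EvN.and (hp : EvN p') (hq : EvN q') : EvN (fun M W i => p' M W i ∧ q' M W i) := by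
  obtain ⟨F, hF⟩ := hp
  obtain ⟨G, hG⟩ := hq
  obtain ⟨H, hH⟩ := exists_common (Ev.mdl F) (Ev.mdl G)
  exact ⟨H, fun M W i hM hW hi =>
    ⟨hF M W i (hH M hM).1 (TWR_conv (fun M hM => (hH M hM).1) hW) hi,
    hG M W i (hH M hM).2 (TWR_conv (fun M hM => (hH M hM).2) hW) hi⟩⟩

theorem EvN.of_evT (hp : EvT p) : EvN (fun _ W i => p W i) := by
  obtain ⟨F, hF⟩ := hp
  exact ⟨F, fun _ W i _ hW _ => hF W i hW⟩

theorem EvN.of_ev {r : ZFSet.{1} → Prop} (hr : Ev r) : EvN (fun M _ _ => r M) := by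
  obtain ⟨F, hF⟩ := hr
  exact ⟨F, fun M _ _ hM _ _ => hF M hM⟩

/-- `M ⊆ W k` for `i ≤ k`. -/
theorem EvN.sub : EvN (fun M W i => Tw W ∧ M ∈ W i ∧ ∀ k, i ≤ k → M ∈ W k ∧ ∀ x ∈ M, x ∈ W k) := by
  obtain ⟨F, hF⟩ := Ev.ctbl_raw
  refine ⟨F, fun M W i hM hW hi => ⟨hW.tw, hi, fun k hk => ?_⟩⟩
  have h1 : M ∈ W k := hW.tw.mono i k hk hi
  exact ⟨h1, fun x hx => hF _ (hW.mdl k hk) M h1 hM.ctbl x hx⟩

theorem EvN.diag {T : Type*} [Cod T] {p : T → ZFSet.{1} → (Om → ZFSet.{1}) → Om → Prop} (h : ∀ x, EvN (p x)) :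
    EvN (fun M W i => ∀ x : T, InM x M → p x M W i) := by
  choose F hF using h
  obtain ⟨H, hH⟩ := Ev.diag (fun x => Ev.mdl (F x))
  obtain ⟨K, hK⟩ := EvN.sub
  obtain ⟨G, hG⟩ := exists_common (Ev.mdl H) (Ev.mdl K)
  refine ⟨G, fun M W i hM hW hi x hx => ?_⟩
  have h1 := hK M W i (hG M hM).2 (TWR_conv (fun M hM => (hG M hM).2) hW) hi
  exact hF x M W i (hH _ (hG M hM).1 x hx)
    ⟨hW.tw, fun j hj => hH _ (hG _ (hW.mdl j hj)).1 x ((h1.2.2 j hj).2 _ hx)⟩ hi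

theorem EvN.all_nat {p : ℕ → ZFSet.{1} → (Om → ZFSet.{1}) → Om → Prop} (h : ∀ n, EvN (p n)) :
    EvN (fun M W i => ∀ n, p n M W i) := by
  choose F hF using h
  obtain ⟨H, hH⟩ := Ev.all_nat (fun n => Ev.mdl (F n))
  exact ⟨H, fun M W i hM hW hi n => hF n M W i (hH _ hM n) ⟨hW.tw, fun j hj => hH _ (hW.mdl j hj) n⟩ hi⟩

theorem EvN.shift (hp : EvN p') : EvN (fun M W i => ∀ k, i ≤ k → p' M W k) := by
  obtain ⟨F, hF⟩ := hp
  exact ⟨F, fun M W i hM hW hi k hk => hF M W k hM (hW.shift hk) (hW.tw.mono i k hk hi)⟩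

end Pool.Agent.CAN
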