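import Pool.Agent.CAN.TDefs
import Pool.Agent.CAN.TWR
import Pool.Agent.CAN.GEN

/-!
# CAN/NPT: transfer along a complete embedding `f : C0 → B`

`f` preserves `⊥, ⊤, sInf, ⊓` and reflects the order (`f x ≤ f y ↔ x ≤ y`).  For a complete subalgebra `A'` of `C0`, `f '' A'` is a complete subalgebra of `B` and
`proj (f '' A') (f x) = f (proj A' x)`.
For models `M` closed under `f`, its inverse (`y ↦` the preimage if there is one), images `D ↦ f '' D` and preimages of sets: `InM (f x) M ↔ InM x M`, and for `D' ⊆ range f`: `InM D' M ↔ InM (f ⁻¹' D') M`.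
So `gen (f '' A') M = f (gen A' M)`, `ggen` likewise, and `GenF (f '' A') M G ↔ GenF A' M (f ⁻¹' G)` for `G ⊆ f '' A'`, `sInf (f '' G') = f (sInf G')`.
-/

set_option autoImplicit false

namespace Pool.Agent.CAN

variable {B C0 : Type 1} [CompleteBooleanAlgebra B] [CompleteBooleanAlgebra C0] {A' C' : Set C0}

private theorem NPT_bot {f : C0 → B} (hf : CEmb f) : f ⊥ = ⊥ := by
  have h := hf.sup ∅
  simpa using h

private theorem NPT_top {f : C0 → B} (hf : CEmb f) : f ⊤ = ⊤ := by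
  have h := hf.compl ⊥
  rw [NPT_bot hf] at h
  simpa using h

private theorem NPT_or {f : C0 → B} (hf : CEmb f) (x y : C0) : f (x ⊔ y) = f x ⊔ f y := by
  have h := hf.sup {x, y}
  simpa [Set.image_pair] using h

private theorem NPT_le {f : C0 → B} (hf : CEmb f) {x y : C0} : f x ≤ f y ↔ x ≤ y := by
  rw [← sup_eq_right, ← NPT_or hf, ← sup_eq_right]
  exact hf.inj.eq_iff

private theorem NPT_and {f : C0 → B} (hf : CEmb f) (x y : C0) : f (x ⊓ y) = f x ⊓ f y := by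
  have h1 : x ⊓ y = (xᶜ ⊔ yᶜ)ᶜ := by simp
  rw [h1, hf.compl, NPT_or hf, hf.compl, hf.compl]
  simp

private theorem NPT_sInf {f : C0 → B} (hf : CEmb f) (s : Set C0) : f (sInf s) = sInf (f '' s) := by
  apply le_antisymm
  · refine le_sInf ?_
    rintro _ ⟨x, hx, rfl⟩
    exact (NPT_le hf).2 (sInf_le hx)
  · have h1 : sInf s = (sSup (compl '' s))ᶜ := by
      rw [← compl_sInf', compl_compl]
    rw [h1, hf.compl, hf.sup, ← Set.image_comp]
    have h2 : (f ∘ compl) '' s = compl '' (f '' s) := by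
      rw [← Set.image_comp]
      exact Set.image_congr fun x _ => hf.compl x
    rw [h2, ← compl_sInf', compl_compl]

private theorem NPT_iInf {f : C0 → B} (hf : CEmb f) {ι : Sort*} (g : ι → C0) :
    f (⨅ i, g i) = ⨅ i, f (g i) := by
  rw [iInf, NPT_sInf hf, ← Set.range_comp]
  rfl

theorem CEmb.csub {f : C0 → B} (hf : CEmb f) (hA : CSub A') : CSub (f '' A') := by
  constructor
  · intro s hs
    obtain ⟨t, ht, rfl⟩ := Set.subset_image_iff.1 hs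
    exact ⟨sSup t, hA.sup t ht, hf.sup t⟩
  · rintro _ ⟨x, hx, rfl⟩
    exact ⟨xᶜ, hA.compl x hx, hf.compl x⟩

theorem CEmb.proj {f : C0 → B} (hf : CEmb f) (hA : CSub A') (x : C0) : proj (f '' A') (f x) = f (proj A' x) := by
  unfold Pool.Agent.CAN.proj
  rw [NPT_sInf hf]
  congr 1
  ext y
  constructor
  · rintro ⟨⟨a, ha, rfl⟩, h⟩
    exact ⟨a, ⟨ha, (NPT_le hf).1 h⟩, rfl⟩
  · rintro ⟨a, ⟨ha, h⟩, rfl⟩
    exact ⟨⟨a, ha, rfl⟩, (NPT_le hf).2 h⟩

theorem CEmb.le_iff {f : C0 → B} (hf : CEmb f) {x y : C0} : f x ≤ f y ↔ x ≤ y := by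
  exact NPT_le hf

theorem CEmb.sInf {f : C0 → B} (hf : CEmb f) (s : Set C0) : f (sInf s) = sInf (f '' s) := by
  exact NPT_sInf hf s

theorem CEmb.bot {f : C0 → B} (hf : CEmb f) : f ⊥ = ⊥ := by
  exact NPT_bot hf

theorem CEmb.top {f : C0 → B} (hf : CEmb f) : f ⊤ = ⊤ := by
  exact NPT_top hf

theorem CEmb.and {f : C0 → B} (hf : CEmb f) (x y : C0) : f (x ⊓ y) = f x ⊓ f y := by
  exact NPT_and hf x y

/-- closure properties of the models -/
private structure NPTCl (f : C0 → B) (M : ZFSet.{1}) : Prop where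
  app : ∀ x, InM x M → InM (f x) M
  inv : ∀ x, InM (f x) M → InM x M
  img : ∀ D : Set C0, InM D M → InM (f '' D) M
  pre : ∀ D : Set B, InM D M → InM (f ⁻¹' D) M

private theorem NPT_ev {f : C0 → B} (hf : CEmb f) : Ev (NPTCl f) := by
  have h1 : Ev (fun M => ∀ x, InM x M → InM (f x) M) := Ev.fn1 f
  have h2 : Ev (fun M => ∀ x, InM x M → InM (Function.invFun f x) M) := Ev.fn1 (Function.invFun f)
  have h3 : Ev (fun M => ∀ D : Set C0, InM D M → InM (f '' D) M) := Ev.fn1 (fun D : Set C0 => f '' D)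
  have h4 : Ev (fun M => ∀ D : Set B, InM D M → InM (f ⁻¹' D) M) := Ev.fn1 (fun D : Set B => f ⁻¹' D)
  refine ((h1.and h2).and (h3.and h4)).mono ?_
  rintro M ⟨⟨k1, k2⟩, k3, k4⟩
  refine ⟨k1, fun x hx => ?_, k3, k4⟩
  have h := k2 _ hx
  rwa [Function.leftInverse_invFun hf.inj x] at h

private theorem NPT_top_pre {f : C0 → B} (hf : CEmb f) {A : Set C0} {D : Set B} (hD : D ⊆ f '' A)
    (hs : sSup D = ⊤) : f ⁻¹' D ⊆ A ∧ f '' (f ⁻¹' D) = D ∧ sSup (f ⁻¹' D) = ⊤ := by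
  have h1 : f ⁻¹' D ⊆ A := by
    intro x hx
    obtain ⟨y, hy, hxy⟩ := hD hx
    rwa [← hf.inj hxy]
  have h2 : f '' (f ⁻¹' D) = D := by
    rw [Set.image_preimage_eq_iff]
    exact hD.trans (Set.image_subset_range f A)
  refine ⟨h1, h2, hf.inj ?_⟩
  rw [hf.sup, h2, hs, NPT_top hf]

private theorem NPT_img_in {f : C0 → B} {M : ZFSet.{1}} (hM : NPTCl f M) (D : Set C0) :
    f '' {d | d ∈ D ∧ InM d M} = {d | d ∈ f '' D ∧ InM d M} := by
  ext y
  constructor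
  · rintro ⟨d, ⟨h1, h2⟩, rfl⟩
    exact ⟨⟨d, h1, rfl⟩, hM.app d h2⟩
  · rintro ⟨⟨d, h1, rfl⟩, h2⟩
    exact ⟨d, ⟨h1, hM.inv d h2⟩, rfl⟩

private theorem NPT_gen {f : C0 → B} (hf : CEmb f) {M : ZFSet.{1}} (hM : NPTCl f M) (A : Set C0) :
    gen (f '' A) M = f (gen A M) := by
  apply le_antisymm
  · unfold gen
    rw [NPT_iInf hf]
    refine le_iInf fun D => ?_
    rw [NPT_iInf hf]
    refine le_iInf fun h1 => ?_
    rw [NPT_iInf hf]
    refine le_iInf fun h2 => ?_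
    rw [NPT_iInf hf]
    refine le_iInf fun h3 => ?_
    rw [hf.sup, NPT_img_in hM]
    refine gen_le (hM.img D h1) (Set.image_mono h2) ?_
    rw [← hf.sup, h3, NPT_top hf]
  · refine le_gen fun D h1 h2 h3 => ?_
    obtain ⟨k1, k2, k3⟩ := NPT_top_pre hf h2 h3
    have h4 := gen_le (hM.pre D h1) k1 k3
    have h5 := (NPT_le hf).2 h4
    rw [hf.sup, NPT_img_in hM, k2] at h5
    exact h5

private theorem NPT_ggen {f : C0 → B} (hf : CEmb f) {W : Om → ZFSet.{1}} {i : Om}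
    (hW : ∀ k, i ≤ k → NPTCl f (W k)) (A : Set C0) (j : Om) :
    ggen (f '' A) W i j = f (ggen A W i j) := by
  unfold ggen
  rw [NPT_iInf hf]
  refine iInf_congr fun k => ?_
  rw [NPT_iInf hf]
  refine iInf_congr fun hk => ?_
  rw [NPT_iInf hf]
  refine iInf_congr fun _ => ?_
  exact NPT_gen hf (hW k hk) A

private theorem NPT_pre {f : C0 → B} (hf : CEmb f) {M : ZFSet.{1}} (hM : NPTCl f M) {A : Set C0}
    {G : Set B} (hG : GenF (f '' A) M G) : GenF A M (f ⁻¹' G) where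
  sub x hx := by
    obtain ⟨⟨y, hy, hxy⟩, h2⟩ := hG.sub _ hx
    rw [hf.inj hxy] at hy
    exact ⟨hy, hM.inv x h2⟩
  up x hx y hy hyM hxy := hG.up _ hx _ ⟨y, hy, rfl⟩ (hM.app y hyM) ((NPT_le hf).2 hxy)
  inf x hx y hy := by
    rw [Set.mem_preimage, NPT_and hf]
    exact hG.inf _ hx _ hy
  bot h := by
    rw [Set.mem_preimage, NPT_bot hf] at h
    exact hG.bot h
  meet D hD hA hs := by
    obtain ⟨_, ⟨d, hd, rfl⟩, h⟩ := hG.meet (f '' D) (hM.img D hD) (Set.image_mono hA) (by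
      rw [← hf.sup, hs, NPT_top hf])
    exact ⟨d, hd, h⟩

private theorem NPT_img {f : C0 → B} (hf : CEmb f) {M : ZFSet.{1}} (hM : NPTCl f M) {A : Set C0}
    {G : Set C0} (hG : GenF A M G) : GenF (f '' A) M (f '' G) where
  sub := by
    rintro _ ⟨x, hx, rfl⟩
    exact ⟨⟨x, (hG.sub x hx).1, rfl⟩, hM.app x (hG.sub x hx).2⟩
  up := by
    rintro _ ⟨x, hx, rfl⟩ _ ⟨y, hy, rfl⟩ hyM hxy
    exact ⟨y, hG.up x hx y hy (hM.inv y hyM) ((NPT_le hf).1 hxy), rfl⟩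
  inf := by
    rintro _ ⟨x, hx, rfl⟩ _ ⟨y, hy, rfl⟩
    exact ⟨x ⊓ y, hG.inf x hx y hy, NPT_and hf x y⟩
  bot := by
    rintro ⟨x, hx, h⟩
    rw [← NPT_bot hf] at h
    rw [hf.inj h] at hx
    exact hG.bot hx
  meet D hD hA hs := by
    obtain ⟨k1, -, k3⟩ := NPT_top_pre hf hA hs
    obtain ⟨d, hd, h⟩ := hG.meet _ (hM.pre D hD) k1 k3
    exact ⟨f d, hd, d, h, rfl⟩

theorem NP.map {f : C0 → B} (hf : CEmb f) (hA : CSub A') (hC : CSub C') (h : NP A' C') :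
    NP (f '' A') (f '' C') := by
  constructor
  · refine (h.pp.and (EvT.of_ev (NPT_ev hf))).mono ?_
    rintro W i - ⟨h1, h2⟩
    rintro j hj _ ⟨x, hx, rfl⟩ hxW
    rw [NPT_ggen hf h2, NPT_ggen hf h2, hf.proj hA, ← NPT_and hf, ← NPT_and hf, hf.proj hA]
    exact (NPT_le hf).2 (h1 j hj x hx ((h2 i le_rfl).inv x hxW))
  · refine ((h.nn.and (EvN.of_ev (NPT_ev hf))).and
      (EvN.of_evT (EvT.of_ev (NPT_ev hf)))).mono ?_
    rintro M W i - ⟨⟨h1, h2⟩, h3⟩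
    rintro G hGW hG _ ⟨x, hx, rfl⟩ hxM hxG
    rw [hf.proj hA] at hxG
    obtain ⟨j, hj, G', k1, k2, k3, k4⟩ := h1 (f ⁻¹' G) ((h3 i le_rfl).pre G hGW) (NPT_pre hf h2 hG)
      x hx (h2.inv x hxM) hxG
    have h4 : f '' (f ⁻¹' G) = G := by
      rw [Set.image_preimage_eq_iff]
      intro y hy
      obtain ⟨a, -, ha⟩ := (hG.sub y hy).1
      exact ⟨a, ha⟩
    refine ⟨j, hj, f '' G', NPT_img hf h2 k1, ⟨x, k2, rfl⟩, ?_, ?_⟩
    · rw [← h4]
      exact Set.image_mono k3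
    · have h5 : sInf G = f (sInf (f ⁻¹' G)) := by
        rw [NPT_sInf hf, h4]
      rw [h5, NPT_ggen hf h3, ← NPT_and hf, ← NPT_sInf hf, hf.proj hA]
      exact (NPT_le hf).2 k4

theorem Distr.map {f : C0 → B} (hf : CEmb f) (h : Distr A') : Distr (f '' A') := by
  intro D hD q hq hq0
  obtain ⟨x, hx, rfl⟩ := hq
  have hx0 : x ≠ ⊥ := by
    rintro rfl
    exact hq0 (NPT_bot hf)
  obtain ⟨r, hr, hr0, hrx, hrD⟩ := h (fun n => f ⁻¹' (D n)) (fun n =>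
    ⟨(NPT_top_pre hf (hD n).1 (hD n).2).1, (NPT_top_pre hf (hD n).1 (hD n).2).2.2⟩) x hx hx0
  refine ⟨f r, ⟨r, hr, rfl⟩, ?_, (NPT_le hf).2 hrx, fun n => ?_⟩
  · intro h0
    rw [← NPT_bot hf] at h0
    exact hr0 (hf.inj h0)
  · obtain ⟨d, hd, hrd⟩ := hrD n
    exact ⟨f d, hd, (NPT_le hf).2 hrd⟩

end Pool.Agent.CAN
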