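import Pool.Agent.CAN.E0D
import Pool.Agent.CAN.NPT
import Pool.Agent.CAN.PRA
import Pool.Agent.CAN.CSR

/-!
# CAN/E1A: complete embeddings and their lower adjoints

(`NPT` has `CEmb.le_iff`, `CEmb.sInf`, `CEmb.bot`, `CEmb.top`, `CEmb.and`, `CEmb.proj`, `CEmb.csub`.)
* `lad_le_iff`: `y ≤ f (lad f y) = ⨅ {f x | y ≤ f x}` (`CEmb.sInf`), the rest is `f` monotone.
* `lad_inf`: `f x ⊓ y ≤ f z ↔ y ≤ (f x)ᶜ ⊔ f z = f (xᶜ ⊔ z)`, so `lad f (f x ⊓ y) ≤ z ↔ lad f y ≤ xᶜ ⊔ z ↔ x ⊓ lad f y ≤ z`.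
* `lad_comp`: `lad f (lad g y) ≤ x ↔ y ≤ g (f x)`.
* `proj_range`: `proj (range f) y = sInf {f x | y ≤ f x} = f (sInf {x | y ≤ f x})`.
* `CEmb.of_orderIso`: order isomorphisms preserve `sSup` (`OrderIso.map_sSup`) and complements (`OrderIso.map_compl`).
* `CEmb.surj_iso`: a surjective complete embedding is an order isomorphism (`CEmb.le_iff`); `range_iso`: a complete embedding
  is an order isomorphism onto its range (with the order of a subtype).
-/

set_option autoImplicit false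

namespace Pool.Agent.CAN

variable {A C E : Type 1} [CompleteBooleanAlgebra A] [CompleteBooleanAlgebra C] [CompleteBooleanAlgebra E]

theorem CEmb.mono {f : A → C} (hf : CEmb f) {x y : A} (h : x ≤ y) : f x ≤ f y := by
  exact hf.le_iff.2 h

theorem CEmb.eq_bot_iff {f : A → C} (hf : CEmb f) {x : A} : f x = ⊥ ↔ x = ⊥ := by
  rw [← hf.bot]
  exact hf.inj.eq_iff

theorem CEmb.or {f : A → C} (hf : CEmb f) (x y : A) : f (x ⊔ y) = f x ⊔ f y := by
  have h := hf.sup {x, y}
  simpa [Set.image_pair] using h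

theorem CEmb.iInf {f : A → C} (hf : CEmb f) {ι : Sort*} (u : ι → A) : f (⨅ i, u i) = ⨅ i, f (u i) := by
  unfold _root_.iInf
  rw [hf.sInf, ← Set.range_comp]
  rfl

theorem CEmb.comp {f : A → C} {g : C → E} (hf : CEmb f) (hg : CEmb g) : CEmb (fun x => g (f x)) where
  inj := hg.inj.comp hf.inj
  sup s := by
    rw [hf.sup, hg.sup, ← Set.image_comp]
    rfl
  compl x := by
    rw [hf.compl, hg.compl]

theorem CEmb.of_orderIso (θ : A ≃o C) : CEmb θ where
  inj := θ.injective
  sup s := by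
    rw [OrderIso.map_sSup, sSup_image]
  compl x := map_compl' θ x

theorem CEmb.id : CEmb (fun x : A => x) where
  inj := fun _ _ h => h
  sup s := by simp
  compl x := rfl

/-- A map between complete Boolean algebras is a complete embedding if its composition with a complete embedding is one. -/
theorem CEmb.of_comp {f : A → C} {g : C → E} (hg : CEmb g) (h : CEmb (fun x => g (f x))) : CEmb f where
  inj x y hxy := h.inj (by simp only [hxy])
  sup s := by
    apply hg.inj
    rw [hg.sup, ← Set.image_comp]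
    exact h.sup s
  compl x := by
    apply hg.inj
    rw [hg.compl]
    exact h.compl x

theorem lad_le_iff {f : A → C} (hf : CEmb f) {x : A} {y : C} : lad f y ≤ x ↔ y ≤ f x := by
  constructor
  · intro h
    refine le_trans ?_ (hf.mono h)
    unfold lad
    rw [hf.sInf]
    refine le_sInf ?_
    rintro _ ⟨z, hz, rfl⟩
    exact hz
  · intro h
    exact sInf_le h

theorem lad_mono {f : A → C} (hf : CEmb f) {y z : C} (h : y ≤ z) : lad f y ≤ lad f z := by
  rw [lad_le_iff hf]
  exact h.trans ((lad_le_iff hf).1 le_rfl)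

theorem le_lad {f : A → C} (hf : CEmb f) (y : C) : y ≤ f (lad f y) := by
  exact (lad_le_iff hf).1 le_rfl

theorem lad_emb {f : A → C} (hf : CEmb f) (x : A) : lad f (f x) = x := by
  apply le_antisymm
  · exact (lad_le_iff hf).2 le_rfl
  · exact hf.le_iff.1 (le_lad hf (f x))

theorem lad_inf {f : A → C} (hf : CEmb f) (x : A) (y : C) : lad f (f x ⊓ y) = x ⊓ lad f y := by
  refine eq_of_forall_ge_iff fun z => ?_
  rw [lad_le_iff hf, inf_comm, ← le_himp_iff, inf_comm, ← le_himp_iff, lad_le_iff hf, himp_eq, himp_eq,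
    hf.or, hf.compl]

theorem lad_eq_bot {f : A → C} (hf : CEmb f) {y : C} : lad f y = ⊥ ↔ y = ⊥ := by
  rw [← le_bot_iff, lad_le_iff hf, hf.bot, le_bot_iff]

theorem lad_top {f : A → C} (hf : CEmb f) : lad f (⊤ : C) = ⊤ := by
  rw [← hf.top, lad_emb hf]

theorem lad_comp {f : A → C} {g : C → E} (hf : CEmb f) (hg : CEmb g) (y : E) :
    lad f (lad g y) = lad (fun x => g (f x)) y := by
  refine eq_of_forall_ge_iff fun z => ?_
  rw [lad_le_iff hf, lad_le_iff hg, lad_le_iff (hf.comp hg)]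

theorem proj_range {f : A → C} (hf : CEmb f) (y : C) : proj (Set.range f) y = f (lad f y) := by
  unfold lad proj
  rw [hf.sInf]
  congr 1
  ext z
  constructor
  · rintro ⟨⟨x, rfl⟩, h⟩
    exact ⟨x, h, rfl⟩
  · rintro ⟨x, h, rfl⟩
    exact ⟨⟨x, rfl⟩, h⟩

theorem CEmb.surj_iso {f : A → C} (hf : CEmb f) (h : Function.Surjective f) : ∃ θ : A ≃o C, ∀ x, θ x = f x := by
  refine ⟨⟨Equiv.ofBijective f ⟨hf.inj, h⟩, ?_⟩, fun x => rfl⟩
  intro a b
  exact hf.le_iff

theorem range_iso {f : A → C} (hf : CEmb f) {S : Set C} (hS : Set.range f = S) :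
    ∃ θ : A ≃o S, ∀ x, (θ x).1 = f x := by
  subst hS
  refine ⟨⟨Equiv.ofInjective f hf.inj, ?_⟩, fun x => rfl⟩
  intro a b
  exact hf.le_iff

end Pool.Agent.CAN
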