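import Pool.Agent.CAN.E1A

/-!
# CAN/E1B: projections of a forcing notion to a complete Boolean algebra give complete embeddings

`C, j` is as in `exists_ro` (module `ROA`).  PROOF of `exists_emb_of_proj`: `e a = sSup {j p | π p ≤ a}`.
(1) `j p ≤ e a → π p ≤ a`: otherwise `b = π p ⊓ aᶜ ≠ ⊥`; `q ≤ p` with `π q ≤ b` (`lift`), `j q ≤ j p ≤ e a`, so `j q ⊓ j p' ≠ ⊥` for some `p'` with
`π p' ≤ a` (`inf_sSup_eq`), `j r ≤ j q ⊓ j p'` (`jd`), `r' ≤ r, q` (`js`), then `j r' ≤ j r ≤ j p'` and `r'' ≤ r', p'` (`js`); `π r'' ≤ π p' ≤ a` and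
`π r'' ≤ π q ≤ aᶜ`, so `π r'' = ⊥`, contradiction to `nb`.  The other direction is `le_sSup`.
(2) injective: if `e a = e a'` and `a ⊓ a'ᶜ ≠ ⊥` then `π p ≤ a ⊓ a'ᶜ` for some `p` (`surj`), `j p ≤ e a = e a'`, `π p ≤ a'`, so `π p = ⊥`.
(3) `e (sSup s) ≤ sSup (e '' s)`: otherwise `j p ≤ e (sSup s) ⊓ (sSup (e '' s))ᶜ` for some `p`; `π p ≤ sSup s`, so `π p ⊓ a ≠ ⊥` for some `a ∈ s`, `q ≤ p` with
`π q ≤ π p ⊓ a`, `j q ≤ e a` and `j q ≤ j p ≤ (e a)ᶜ`: `j q = ⊥`, contradiction to `j0`.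
(4) complements: `e a ⊔ e aᶜ = e ⊤ = ⊤` by (3) for `{a, aᶜ}` and (1), density; `e a ⊓ e aᶜ = ⊥` by (1), density.
`lad e (j p) = π p` by (1): `π p` is the least `a` with `j p ≤ e a`.
-/

set_option autoImplicit false

namespace Pool.Agent.CAN

variable {P A C : Type 1} [Preorder P] [CompleteBooleanAlgebra A] [CompleteBooleanAlgebra C]

/-- Two elements of `C` are in the relation `≤` if every element of the dense set below the first is below the second. -/
theorem le_of_dns {j : P → C} (jd : ∀ x, x ≠ ⊥ → ∃ p, j p ≤ x) (j0 : ∀ p, j p ≠ ⊥) {x y : C}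
    (h : ∀ p, j p ≤ x → j p ≤ y) : x ≤ y := by
  by_contra hn
  have hne : x ⊓ yᶜ ≠ ⊥ := fun h0 => hn (disjoint_compl_right_iff.1 (disjoint_iff.2 h0))
  obtain ⟨p, hp⟩ := jd _ hne
  have h1 := h p (hp.trans inf_le_left)
  have h2 : j p ≤ yᶜ := hp.trans inf_le_right
  apply j0 p
  rw [eq_bot_iff, ← inf_compl_eq_bot (a := y)]
  exact le_inf h1 h2

theorem exists_emb_of_proj (j : P → C) (j0 : ∀ p, j p ≠ ⊥) (jm : ∀ p q, q ≤ p → j q ≤ j p)
    (jd : ∀ x, x ≠ ⊥ → ∃ p, j p ≤ x) (js : ∀ p q, j q ≤ j p → ∃ r, r ≤ q ∧ r ≤ p) (π : P → A)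
    (mono : ∀ p q, q ≤ p → π q ≤ π p) (nb : ∀ p, π p ≠ ⊥)
    (lift : ∀ p a, a ≠ ⊥ → a ≤ π p → ∃ q, q ≤ p ∧ π q ≤ a) (surj : ∀ a, a ≠ ⊥ → ∃ p, π p ≤ a) :
    ∃ e : A → C, CEmb e ∧ (∀ p a, j p ≤ e a ↔ π p ≤ a) ∧ ∀ p, lad e (j p) = π p := by
  let e : A → C := fun a => sSup {x | ∃ p, π p ≤ a ∧ j p = x}
  have key : ∀ p a, j p ≤ e a ↔ π p ≤ a := by
    intro p a
    constructor
    · intro h
      by_contra hn
      have hne : π p ⊓ aᶜ ≠ ⊥ := fun h0 => hn (disjoint_compl_right_iff.1 (disjoint_iff.2 h0))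
      obtain ⟨q, hqp, hq⟩ := lift p _ hne inf_le_left
      have hqe : j q ≤ e a := (jm p q hqp).trans h
      have h1 : j q ⊓ e a = j q := inf_eq_left.2 hqe
      have h2 : ∃ p', π p' ≤ a ∧ j q ⊓ j p' ≠ ⊥ := by
        by_contra hno
        push Not at hno
        apply j0 q
        rw [← h1]
        show j q ⊓ sSup _ = ⊥
        rw [inf_sSup_eq]
        simp only [iSup_eq_bot]
        rintro _ ⟨p', hp', rfl⟩
        exact hno p' hp'
      obtain ⟨p', hp', hne'⟩ := h2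
      obtain ⟨r, hr⟩ := jd _ hne'
      obtain ⟨r', hr'r, hr'q⟩ := js q r (hr.trans inf_le_left)
      obtain ⟨r'', h3, h4⟩ := js p' r' ((jm r r' hr'r).trans (hr.trans inf_le_right))
      apply nb r''
      rw [eq_bot_iff, ← inf_compl_eq_bot (a := a)]
      refine le_inf ((mono _ _ h4).trans hp') ?_
      exact ((mono _ _ (h3.trans hr'q)).trans hq).trans inf_le_right
    · intro h
      exact le_sSup ⟨p, h, rfl⟩
  have hinj' : ∀ a a', e a ≤ e a' → a ≤ a' := by
    intro a a' h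
    by_contra hn
    have hne : a ⊓ a'ᶜ ≠ ⊥ := fun h0 => hn (disjoint_compl_right_iff.1 (disjoint_iff.2 h0))
    obtain ⟨p, hp⟩ := surj _ hne
    have h1 : j p ≤ e a := (key p a).2 (hp.trans inf_le_left)
    have h2 : π p ≤ a' := (key p a').1 (h1.trans h)
    apply nb p
    rw [eq_bot_iff, ← inf_compl_eq_bot (a := a')]
    exact le_inf h2 (hp.trans inf_le_right)
  have hmono : ∀ a a', a ≤ a' → e a ≤ e a' := by
    intro a a' h
    exact le_of_dns jd j0 fun p hp => (key p a').2 (((key p a).1 hp).trans h)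
  have hsup : ∀ s : Set A, e (sSup s) = sSup (e '' s) := by
    intro s
    apply le_antisymm
    · by_contra hn
      have hne : e (sSup s) ⊓ (sSup (e '' s))ᶜ ≠ ⊥ := fun h0 =>
        hn (disjoint_compl_right_iff.1 (disjoint_iff.2 h0))
      obtain ⟨p, hp⟩ := jd _ hne
      have hps : π p ≤ sSup s := (key p _).1 (hp.trans inf_le_left)
      have h2 : ∃ a ∈ s, π p ⊓ a ≠ ⊥ := by
        by_contra hno
        push Not at hno
        apply nb p
        rw [← inf_eq_left.2 hps, inf_sSup_eq]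
        simp only [iSup_eq_bot]
        exact hno
      obtain ⟨a, ha, hne'⟩ := h2
      obtain ⟨q, hqp, hq⟩ := lift p _ hne' inf_le_left
      have h3 : j q ≤ e a := (key q a).2 (hq.trans inf_le_right)
      have h4 : j q ≤ (e a)ᶜ := (jm p q hqp).trans (hp.trans (inf_le_right.trans
        (compl_le_compl (le_sSup (Set.mem_image_of_mem e ha)))))
      apply j0 q
      rw [eq_bot_iff, ← inf_compl_eq_bot (a := e a)]
      exact le_inf h3 h4
    · refine sSup_le ?_
      rintro _ ⟨a, ha, rfl⟩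
      exact hmono _ _ (le_sSup ha)
  have htop : e ⊤ = ⊤ := by
    rw [eq_top_iff]
    exact le_of_dns jd j0 fun p _ => (key p ⊤).2 le_top
  have hcompl : ∀ x, e xᶜ = (e x)ᶜ := by
    intro x
    symm
    have hc : IsCompl (e x) (e xᶜ) := by
      constructor
      · rw [disjoint_iff]
        by_contra hne
        obtain ⟨p, hp⟩ := jd _ hne
        have h1 := (key p x).1 (hp.trans inf_le_left)
        have h2 := (key p xᶜ).1 (hp.trans inf_le_right)
        apply nb p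
        rw [eq_bot_iff, ← inf_compl_eq_bot (a := x)]
        exact le_inf h1 h2
      · rw [codisjoint_iff]
        have h := hsup {x, xᶜ}
        rw [Set.image_pair, sSup_pair, sSup_pair, sup_compl_eq_top, htop] at h
        exact h.symm
    exact hc.compl_eq
  refine ⟨e, ⟨?_, hsup, hcompl⟩, key, ?_⟩
  · intro a a' h
    exact le_antisymm (hinj' a a' h.le) (hinj' a' a h.ge)
  · intro p
    apply le_antisymm
    · exact sInf_le ((key p (π p)).2 le_rfl)
    · refine le_sInf ?_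
      intro x hx
      exact (key p x).1 hx

end Pool.Agent.CAN
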