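import Mathlib

/-!
# CAN/ROA: the regular open algebra of a preorder

Elements: sets `s : Set P` with `p ∈ s ↔ ∀ q ≤ p, ∃ r ≤ q, r ∈ s` (these are lower sets).  Order `⊆`.  For any set `s`,
`reg s = {p | ∀ q ≤ p, ∃ r ≤ q, ∃ t ∈ s, r ≤ t}` is regular open, the least one containing `s`.  `sInf` is the intersection, `sSup` is `reg` of the union,
the complement of `s` is `{p | ∀ q ≤ p, q ∉ s}`.  `j p = reg {p} = {q | ∀ r ≤ q, ∃ t ≤ r, t ≤ p}`.  Possible ways to get the instance: a `structure` with
`PartialOrder`, `CompleteLattice` by `completeLatticeOfSup` (or `ofInf`), distributivity by hand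
(`le_sup_inf`), complements; or `Heyting.Regular (LowerSet P)` of Mathlib (a Boolean algebra; a complete lattice as the image of a closure
operator).  In a Boolean algebra which is a complete lattice the infinite distributive laws are automatic (Mathlib: `CompleteBooleanAlgebra`
can be built from minimal axioms).
`Small`: subsets of a small type form a small type; `C` injects into `Set P`.
-/

set_option autoImplicit false

namespace Pool.Agent.CAN

open Heyting in
/-- the complete Boolean algebra of the regular open (lower) sets -/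
noncomputable abbrev roCBA (P : Type 1) [Preorder P] :
    CompleteBooleanAlgebra (Regular (LowerSet P)) :=
  { (inferInstance : BooleanAlgebra (Regular (LowerSet P))) with
    sSup := fun s => Regular.toRegular (sSup ((fun x : Regular (LowerSet P) => (x : LowerSet P)) '' s))
    sInf := fun s => Regular.toRegular (sInf ((fun x : Regular (LowerSet P) => (x : LowerSet P)) '' s))
    isLUB_sSup := fun s => by
      refine ⟨fun x hx => ?_, fun y hy => ?_⟩
      · refine Regular.coe_le_coe.1 ?_
        rw [Regular.coe_toRegular]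
        exact le_trans (le_sSup (Set.mem_image_of_mem _ hx)) le_compl_compl
      · refine (Regular.gi (α := LowerSet P)).gc.l_le ?_
        refine sSup_le ?_
        rintro _ ⟨x, hx, rfl⟩
        exact Regular.coe_le_coe.2 (hy hx)
    isGLB_sInf := fun s => by
      refine ⟨fun x hx => ?_, fun y hy => ?_⟩
      · refine (Regular.gi (α := LowerSet P)).gc.l_le ?_
        exact sInf_le (Set.mem_image_of_mem _ hx)
      · refine Regular.coe_le_coe.1 ?_
        rw [Regular.coe_toRegular]
        refine le_trans ?_ le_compl_compl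
        refine le_sInf ?_
        rintro _ ⟨x, hx, rfl⟩
        exact Regular.coe_le_coe.2 (hy hx) }

theorem mem_compl_lower {P : Type 1} [Preorder P] (a : LowerSet P) (p : P) :
    p ∈ aᶜ ↔ ∀ q, q ≤ p → q ∉ a := by
  rw [← LowerSet.Iic_le, le_compl_iff_disjoint_right, disjoint_iff_inf_le]
  constructor
  · intro h q hq hqa
    exact h (show q ∈ LowerSet.Iic p ⊓ a from ⟨hq, hqa⟩)
  · rintro h q ⟨hq, hqa⟩
    exact (h q hq hqa).elim

theorem mem_reg_lower {P : Type 1} [Preorder P] (a : LowerSet P) (p : P) :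
    p ∈ aᶜᶜ ↔ ∀ q, q ≤ p → ∃ r, r ≤ q ∧ r ∈ a := by
  simp only [mem_compl_lower, not_forall, not_not, exists_prop]

theorem exists_ro (P : Type 1) [Preorder P] : ∃ (C : Type 1) (_ : CompleteBooleanAlgebra C) (j : P → C),
    (∀ p, j p ≠ ⊥) ∧ (∀ p q, q ≤ p → j q ≤ j p) ∧ (∀ x, x ≠ ⊥ → ∃ p, j p ≤ x) ∧
    (∀ p q, j q ≤ j p → ∃ r, r ≤ q ∧ r ≤ p) ∧ (Small.{0} P → Small.{0} C) := by
  let C := Heyting.Regular (LowerSet P)
  let j : P → C := fun p => Heyting.Regular.toRegular (LowerSet.Iic p)
  have hj : ∀ p q : P, q ∈ (j p).val ↔ ∀ r, r ≤ q → ∃ t, t ≤ r ∧ t ≤ p := by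
    intro p q
    exact mem_reg_lower (LowerSet.Iic p) q
  have hjp : ∀ p : P, p ∈ (j p).val := fun p => (hj p p).2 fun r hr => ⟨r, le_rfl, hr⟩
  have hle : ∀ x y : C, x ≤ y ↔ x.val ≤ y.val := fun x y => Iff.rfl
  have hjx : ∀ (p : P) (x : C), p ∈ x.val → j p ≤ x := by
    intro p x hp
    refine (Heyting.Regular.gi (α := LowerSet P)).gc.l_le ?_
    exact LowerSet.Iic_le.2 hp
  refine ⟨C, roCBA P, j, ?_, ?_, ?_, ?_, ?_⟩
  · intro p h
    have h1 : p ∈ (j p).val := hjp p
    have h2 : (j p).val = (⊥ : LowerSet P) := congrArg Heyting.Regular.val h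
    rw [h2] at h1
    exact h1
  · intro p q h
    refine hjx q (j p) ?_
    exact (hj p q).2 fun r hr => ⟨r, le_rfl, hr.trans h⟩
  · intro x hx
    by_contra hc
    push Not at hc
    refine hx ?_
    refine Heyting.Regular.coe_injective (?_ : x.val = (⊥ : LowerSet P))
    refine le_bot_iff.1 fun p hp => ?_
    exact (hc p (hjx p x hp)).elim
  · intro p q h
    have h1 : q ∈ (j p).val := h (hjp q)
    obtain ⟨t, ht, htp⟩ := (hj p q).1 h1 q le_rfl
    exact ⟨t, ht, htp⟩
  · intro hs
    exact small_of_injective (β := Set P) (f := fun x : C => (x.val : Set P)) fun x y h =>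
      Heyting.Regular.coe_injective (SetLike.coe_injective h)

end Pool.Agent.CAN
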