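import Pool.Agent.CAN.E1B
import Pool.Agent.CAN.ROA

/-!
# CAN/E1C: direct limits of directed systems of complete Boolean algebras

PROOF of `exists_direct`.  `P = {p : Σ a, A a // p.2 ≠ ⊥}` with `p ≤ q` iff for some (equivalently all) `c ≥ p.1, q.1`:
`F.f _ c _ p.2 ≤ F.f _ c _ q.2` (a preorder; a private `def` for the type, a private instance).  `C, j` from `exists_ro`.
`π a p = lad (F.f a c _) (F.f p.1 c _ p.2)`, `c = max a p.1`; `dsys_pi` shows that any other `c` gives the same value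
(`lad_comp`, `F.comp`, `lad_emb`).  Conditions of `exists_emb_of_proj`: `mono` (compute both with one large `c`), `nb` (`lad_eq_bot`, `CEmb.eq_bot_iff`),
`lift`: `p = ⟨b, x⟩`, `a0 ≤ π a p`: `q = ⟨c, F.f b c x ⊓ F.f a c a0⟩`, `c = max a b`; `lad (F.f a c) (..) = a0 ⊓ π a p = a0 ≠ ⊥` (`lad_inf`).  `surj`: `⟨a, x⟩`.
Compatibility `e b (F.f a b h x) = e a x`: by `le_of_dns` in both directions, `j p ≤ e b (F.f a b h x) ↔ π b p ≤ F.f a b h x ↔ lad (F.f a b h) (π b p) = π a p ≤ x`.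
Density: given `x ≠ ⊥` take `j p ≤ x`, `p = ⟨a, y⟩`; `e a y ≤ j p`: otherwise (density) `j q ≤ e a y ⊓ (j p)ᶜ`, so `π a q ≤ y` which means `q ≤ p` and
`j q ≤ j p`, contradiction.
Small: subtypes of `Σ a, A a` are small.
-/

set_option autoImplicit false

namespace Pool.Agent.CAN

variable {D : Type 1} [LinearOrder D] {A : D → Type 1} [∀ a, CompleteBooleanAlgebra (A a)]

private theorem E1C_comp (F : DSys D A) {a c c' : D} (hac : a ≤ c) (h : c ≤ c') :
    (fun y => F.f c c' h (F.f a c hac y)) = F.f a c' (hac.trans h) :=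
  funext fun y => F.comp a c c' hac h y

private theorem E1C_aux (F : DSys D A) {a b c c' : D} (hac : a ≤ c) (hbc : b ≤ c) (h : c ≤ c') (x : A b) :
    lad (F.f a c hac) (F.f b c hbc x) = lad (F.f a c' (hac.trans h)) (F.f b c' (hbc.trans h) x) := by
  rw [← F.comp b c c' hbc h x, ← E1C_comp F hac h, ← lad_comp (F.emb a c hac) (F.emb c c' h),
    lad_emb (F.emb c c' h)]

private theorem E1C_refl {X Y : Type 1} [CompleteBooleanAlgebra X] [CompleteBooleanAlgebra Y] {f : X → Y}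
    (hf : CEmb f) {x y : X} (h : f x ≤ f y) : x ≤ y := by
  rw [← lad_emb hf x, ← lad_emb hf y]
  exact lad_mono hf h

/-- The projection of an element of `A b` to `A a` can be computed in any `A c`, `a, b ≤ c`. -/
theorem dsys_pi (F : DSys D A) {a b c c' : D} (hac : a ≤ c) (hbc : b ≤ c) (hac' : a ≤ c') (hbc' : b ≤ c') (x : A b) :
    lad (F.f a c hac) (F.f b c hbc x) = lad (F.f a c' hac') (F.f b c' hbc' x) := by
  rcases le_total c c' with h | h
  · exact E1C_aux F hac hbc h x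
  · exact (E1C_aux F hac' hbc' h x).symm

private def E1C_P (_ : DSys D A) : Type 1 := {p : Σ a, A a // p.2 ≠ ⊥}

private def E1C_le (F : DSys D A) (p q : E1C_P F) : Prop :=
  ∃ (c : D) (h1 : p.1.1 ≤ c) (h2 : q.1.1 ≤ c), F.f _ c h1 p.1.2 ≤ F.f _ c h2 q.1.2

private theorem E1C_le_all (F : DSys D A) {p q : E1C_P F} (h : E1C_le F p q) (c : D) (h1 : p.1.1 ≤ c)
    (h2 : q.1.1 ≤ c) : F.f _ c h1 p.1.2 ≤ F.f _ c h2 q.1.2 := by
  obtain ⟨d, k1, k2, hd⟩ := h
  rcases le_total d c with hdc | hcd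
  · have := (F.emb d c hdc).mono hd
    rwa [F.comp, F.comp] at this
  · apply E1C_refl (F.emb c d hcd)
    rw [F.comp, F.comp]
    exact hd

private instance E1C_pre (F : DSys D A) : Preorder (E1C_P F) where
  le := E1C_le F
  le_refl p := ⟨p.1.1, le_rfl, le_rfl, le_rfl⟩
  le_trans p q r hpq hqr := by
    refine ⟨max p.1.1 (max q.1.1 r.1.1), le_max_left _ _, (le_max_right _ _).trans (le_max_right _ _), ?_⟩
    exact (E1C_le_all F hpq _ (le_max_left _ _) ((le_max_left _ _).trans (le_max_right _ _))).trans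
      (E1C_le_all F hqr _ ((le_max_left _ _).trans (le_max_right _ _)) ((le_max_right _ _).trans (le_max_right _ _)))

private def E1C_pi (F : DSys D A) (a : D) (p : E1C_P F) : A a :=
  lad (F.f a (max a p.1.1) (le_max_left _ _)) (F.f p.1.1 (max a p.1.1) (le_max_right _ _) p.1.2)

private theorem E1C_pi_eq (F : DSys D A) (a : D) (p : E1C_P F) {c : D} (h1 : a ≤ c) (h2 : p.1.1 ≤ c) :
    E1C_pi F a p = lad (F.f a c h1) (F.f p.1.1 c h2 p.1.2) :=
  dsys_pi F _ _ _ _ _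

private theorem E1C_pi_mono (F : DSys D A) (a : D) (p q : E1C_P F) (h : q ≤ p) :
    E1C_pi F a q ≤ E1C_pi F a p := by
  have h1 : a ≤ max a (max p.1.1 q.1.1) := le_max_left _ _
  have h2 : p.1.1 ≤ max a (max p.1.1 q.1.1) := (le_max_left _ _).trans (le_max_right _ _)
  have h3 : q.1.1 ≤ max a (max p.1.1 q.1.1) := (le_max_right _ _).trans (le_max_right _ _)
  rw [E1C_pi_eq F a p h1 h2, E1C_pi_eq F a q h1 h3]
  exact lad_mono (F.emb _ _ _) (E1C_le_all F h _ h3 h2)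

private theorem E1C_pi_ne (F : DSys D A) (a : D) (p : E1C_P F) : E1C_pi F a p ≠ ⊥ := by
  intro h
  unfold E1C_pi at h
  rw [lad_eq_bot (F.emb _ _ _), (F.emb _ _ _).eq_bot_iff] at h
  exact p.2 h

private theorem E1C_pi_lift (F : DSys D A) (a : D) (p : E1C_P F) (a0 : A a) (h0 : a0 ≠ ⊥)
    (hle : a0 ≤ E1C_pi F a p) : ∃ q, q ≤ p ∧ E1C_pi F a q ≤ a0 := by
  have h1 : lad (F.f a (max a p.1.1) (le_max_left _ _)) (F.f a (max a p.1.1) (le_max_left _ _) a0 ⊓
      F.f p.1.1 (max a p.1.1) (le_max_right _ _) p.1.2) = a0 := by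
    rw [lad_inf (F.emb _ _ _)]
    exact inf_eq_left.2 hle
  have h2 : F.f a (max a p.1.1) (le_max_left _ _) a0 ⊓
      F.f p.1.1 (max a p.1.1) (le_max_right _ _) p.1.2 ≠ ⊥ := by
    intro h
    rw [h, (lad_eq_bot (F.emb _ _ _)).2 rfl] at h1
    exact h0 h1.symm
  refine ⟨⟨⟨max a p.1.1, _⟩, h2⟩, ⟨max a p.1.1, le_rfl, le_max_right _ _, ?_⟩, ?_⟩
  · change F.f (max a p.1.1) (max a p.1.1) le_rfl _ ≤ _
    rw [F.id]
    exact inf_le_right
  · rw [E1C_pi_eq F a _ (le_max_left a p.1.1) le_rfl]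
    change lad _ (F.f (max a p.1.1) (max a p.1.1) le_rfl _) ≤ _
    rw [F.id, h1]

private theorem E1C_pi_surj (F : DSys D A) (a : D) (a0 : A a) (h0 : a0 ≠ ⊥) : ∃ p, E1C_pi F a p ≤ a0 := by
  refine ⟨⟨⟨a, a0⟩, h0⟩, ?_⟩
  rw [E1C_pi_eq F a _ (le_refl a) (le_refl a)]
  exact (lad_emb (F.emb _ _ _) a0).le

private theorem E1C_pi_comp (F : DSys D A) (a b : D) (h : a ≤ b) (p : E1C_P F) :
    lad (F.f a b h) (E1C_pi F b p) = E1C_pi F a p := by
  rw [E1C_pi_eq F a p (h.trans (le_max_left b p.1.1)) (le_max_right b p.1.1)]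
  unfold E1C_pi
  rw [lad_comp (F.emb _ _ _) (F.emb _ _ _), E1C_comp]

theorem exists_direct (F : DSys D A) :
    ∃ (C : Type 1) (_ : CompleteBooleanAlgebra C) (e : ∀ a, A a → C), (∀ a, CEmb (e a)) ∧
      (∀ a b (h : a ≤ b) x, e b (F.f a b h x) = e a x) ∧
      (∀ x, x ≠ ⊥ → ∃ (a : D) (y : A a), y ≠ ⊥ ∧ e a y ≤ x) ∧
      (Small.{0} D → (∀ a, Small.{0} (A a)) → Small.{0} C) := by
  obtain ⟨C, iC, j, j0, jm, jd, js, hsm⟩ := exists_ro (E1C_P F)
  have hex := fun a => exists_emb_of_proj j j0 jm jd js (E1C_pi F a) (E1C_pi_mono F a) (E1C_pi_ne F a)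
    (E1C_pi_lift F a) (E1C_pi_surj F a)
  choose e he1 he2 he3 using hex
  refine ⟨C, iC, e, he1, fun a b h x => ?_, fun x hx => ?_, fun h1 h2 => hsm ?_⟩
  · have key : ∀ p, j p ≤ e b (F.f a b h x) ↔ j p ≤ e a x := by
      intro p
      rw [he2, he2, ← lad_le_iff (F.emb a b h), E1C_pi_comp]
    exact le_antisymm (le_of_dns jd j0 fun p hp => (key p).1 hp) (le_of_dns jd j0 fun p hp => (key p).2 hp)
  · obtain ⟨p, hp⟩ := jd x hx
    refine ⟨p.1.1, p.1.2, p.2, le_trans ?_ hp⟩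
    by_contra hne
    have h1 : e p.1.1 p.1.2 ⊓ (j p)ᶜ ≠ ⊥ := by
      intro h
      apply hne
      rw [← sdiff_eq, sdiff_eq_bot_iff] at h
      exact h
    obtain ⟨q, hq⟩ := jd _ h1
    have h2 := (he2 _ q _).1 (hq.trans inf_le_left)
    have hqp : q ≤ p := by
      rw [E1C_pi_eq F _ q (le_max_left p.1.1 q.1.1) (le_max_right p.1.1 q.1.1),
        lad_le_iff (F.emb _ _ _)] at h2
      exact ⟨_, _, _, h2⟩
    have h3 : j q ≤ j p ⊓ (j p)ᶜ := le_inf (jm _ _ hqp) (hq.trans inf_le_right)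
    rw [inf_compl_self] at h3
    exact j0 q (le_bot_iff.1 h3)
  · exact inferInstanceAs (Small.{0} {p : Σ a, A a // p.2 ≠ ⊥})

end Pool.Agent.CAN
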