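import Pool.Agent.CAN.E1B
import Pool.Agent.CAN.ROA

/-!
# CAN/E1D: limits with all threads of directed systems of complete Boolean algebras

PROOF of `exists_threads`.  A thread is `r : ∀ a, A a` with `lad (F.f a b h) (r b) = r a`.
`T = {r : ∀ a, A a // r is a thread ∧ ∀ a, r a ≠ ⊥}` with the pointwise preorder.  `C, j` from `exists_ro`; `π a r = r a`.
(0) If a thread has one value `⊥` then all values are `⊥` (`lad_eq_bot` for `a ≤ b`, both directions).
(1) `thread_restrict` (for `lift`): `R c = r c ⊓ F.f a c _ x` for `c ≥ a` satisfies `lad (F.f c c') (R c') = R c` (`c ≤ c'`; `lad_inf`, `F.comp`).  Put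
`r' b = lad (F.f b c) (R c)` with `c = max a b`; any larger `c` gives the same value.  So `r'` is a thread, `r' b ≤ lad (F.f b c) (r c) = r b`,
`r' a = R a = r a ⊓ x = x`.
(2) `surj`: `⊤` is a thread (`lad_top`); it is in `T` if some `x ≠ ⊥` exists in some `A a` (all `A b` are then nontrivial:
`F.f ⊤ = ⊤`, `F.f ⊥ = ⊥`); apply (1).
Compatibility `e b (F.f a b h x) = e a x`: `le_of_dns` in both directions, `j r ≤ e b (F.f a b h x) ↔ r b ≤ F.f a b h x ↔ r a ≤ x`.
(3) For `r ∈ T`: `⨅ b, e b (r b) = j r`: `≥` since `π b r ≤ r b`.  `≤`: otherwise `j t ≤ (⨅ b, e b (r b)) ⊓ (j r)ᶜ` for some `t ∈ T`, so `t b ≤ r b` for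
all `b`, `j t ≤ j r`, contradiction.  With `lad (e a) (j r) = r a` this gives the density statement (`y = j r ≤ x`) and the
statement about threads (if the thread is `⊥` everywhere: the infimum is `⊥` since `D` is nonempty).
Small: subtypes of `∀ a, A a` are small.
-/

set_option autoImplicit false

namespace Pool.Agent.CAN

variable {D : Type 1} [LinearOrder D] {A : D → Type 1} [∀ a, CompleteBooleanAlgebra (A a)]

/-- A thread can be restricted to any element below one of its values. -/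
theorem thread_restrict (F : DSys D A) (r : ∀ a, A a) (hr : ∀ a b (h : a ≤ b), lad (F.f a b h) (r b) = r a) (a : D)
    (x : A a) (hx : x ≤ r a) :
    ∃ r' : ∀ b, A b, (∀ b c (h : b ≤ c), lad (F.f b c h) (r' c) = r' b) ∧ (∀ b, r' b ≤ r b) ∧ r' a = x := by
  have hR : ∀ c c' (h : a ≤ c) (h' : c ≤ c'), lad (F.f c c' h') (F.f a c' (h.trans h') x ⊓ r c') =
      F.f a c h x ⊓ r c := by
    intro c c' h h'
    rw [← F.comp a c c' h h' x, lad_inf (F.emb c c' h'), hr]
  have hcmp : ∀ b c c' (h : b ≤ c) (h' : c ≤ c') (y : A c'),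
      lad (F.f b c h) (lad (F.f c c' h') y) = lad (F.f b c' (h.trans h')) y := by
    intro b c c' h h' y
    rw [lad_comp (F.emb _ _ _) (F.emb _ _ _)]
    congr 1
    exact funext fun z => F.comp b c c' h h' z
  have hind : ∀ b c (h1 : a ≤ c) (h2 : b ≤ c), lad (F.f b (max a b) (le_max_right _ _))
      (F.f a (max a b) (le_max_left _ _) x ⊓ r (max a b)) = lad (F.f b c h2) (F.f a c h1 x ⊓ r c) := by
    intro b c h1 h2
    rw [← hR (max a b) c (le_max_left _ _) (max_le h1 h2), hcmp]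
  refine ⟨fun b => lad (F.f b (max a b) (le_max_right _ _))
    (F.f a (max a b) (le_max_left _ _) x ⊓ r (max a b)), fun b c h => ?_, fun b => ?_, ?_⟩
  · change lad (F.f b c h) (lad (F.f c (max a c) _) _) = lad (F.f b (max a b) _) _
    rw [hcmp, hind b (max a c) (le_max_left _ _) (h.trans (le_max_right _ _))]
  · refine (lad_mono (F.emb _ _ _) inf_le_right).trans ?_
    rw [hr]
  · change lad (F.f a (max a a) _) _ = x
    rw [hind a a le_rfl le_rfl, F.id, inf_eq_left.2 hx]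
    conv_lhs => rw [← F.id a x]
    exact lad_emb (F.emb a a le_rfl) x

private theorem E1D_bot (F : DSys D A) (r : ∀ a, A a) (hr : ∀ a b (h : a ≤ b), lad (F.f a b h) (r b) = r a)
    {a : D} (h : r a = ⊥) (b : D) : r b = ⊥ := by
  rcases le_total a b with hab | hba
  · rw [← hr a b hab, lad_eq_bot (F.emb _ _ _)] at h
    exact h
  · rw [← hr b a hba, lad_eq_bot (F.emb _ _ _)]
    exact h

theorem exists_threads [Nonempty D] (F : DSys D A) :
    ∃ (C : Type 1) (_ : CompleteBooleanAlgebra C) (e : ∀ a, A a → C), (∀ a, CEmb (e a)) ∧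
      (∀ a b (h : a ≤ b) x, e b (F.f a b h x) = e a x) ∧
      (∀ x, x ≠ ⊥ → ∃ y, y ≠ ⊥ ∧ y ≤ x ∧ y = ⨅ a, e a (lad (e a) y)) ∧
      (∀ r : ∀ a, A a, (∀ a b (h : a ≤ b), lad (F.f a b h) (r b) = r a) → ∀ a, lad (e a) (⨅ b, e b (r b)) = r a) ∧
      (Small.{0} D → (∀ a, Small.{0} (A a)) → Small.{0} C) := by
  obtain ⟨C, iC, j, j0, jm, jd, js, hsm⟩ := exists_ro
    {r : ∀ a, A a // (∀ a b (h : a ≤ b), lad (F.f a b h) (r b) = r a) ∧ ∀ a, r a ≠ ⊥}
  have hlift : ∀ (a : D) (r : ∀ a, A a), (∀ a b (h : a ≤ b), lad (F.f a b h) (r b) = r a) → ∀ a0 : A a,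
      a0 ≠ ⊥ → a0 ≤ r a → ∃ q : {r : ∀ a, A a // (∀ a b (h : a ≤ b), lad (F.f a b h) (r b) = r a) ∧
        ∀ a, r a ≠ ⊥}, q.1 ≤ r ∧ q.1 a ≤ a0 := by
    intro a r hr a0 h0 hle
    obtain ⟨r', h1, h2, h3⟩ := thread_restrict F r hr a a0 hle
    refine ⟨⟨r', h1, fun b hb => h0 ?_⟩, fun b => h2 b, h3.le⟩
    rw [← h3]
    exact E1D_bot F r' h1 hb a
  have hex := fun a => exists_emb_of_proj j j0 jm jd js (fun p => p.1 a) (fun p q hqp => hqp a)
    (fun p => p.2.2 a) (fun p a0 h0 hle => hlift a p.1 p.2.1 a0 h0 hle)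
    (fun a0 h0 => by
      obtain ⟨q, -, hq⟩ := hlift a (fun _ => ⊤) (fun b c h => lad_top (F.emb b c h)) a0 h0 le_top
      exact ⟨q, hq⟩)
  choose e he1 he2 he3 using hex
  have hj : ∀ p, (⨅ b, e b (p.1 b)) = j p := by
    intro p
    apply le_antisymm
    · refine le_of_dns jd j0 fun q hq => jm _ _ fun b => ?_
      exact (he2 b q _).1 (hq.trans (iInf_le _ b))
    · exact le_iInf fun b => (he2 b p _).2 le_rfl
  refine ⟨C, iC, e, he1, fun a b h x => ?_, fun x hx => ?_, fun r hr a => ?_, fun h1 h2 => hsm ?_⟩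
  · have key : ∀ p, j p ≤ e b (F.f a b h x) ↔ j p ≤ e a x := by
      intro p
      rw [he2, he2, ← lad_le_iff (F.emb a b h), p.2.1 a b h]
    exact le_antisymm (le_of_dns jd j0 fun p hp => (key p).1 hp) (le_of_dns jd j0 fun p hp => (key p).2 hp)
  · obtain ⟨p, hp⟩ := jd x hx
    refine ⟨j p, j0 p, hp, ?_⟩
    rw [← hj p]
    congr 1
    funext b
    rw [hj p, he3]
  · by_cases hb : ∀ b, r b ≠ ⊥
    · have h1 := hj ⟨r, hr, hb⟩
      change (⨅ b, e b (r b)) = _ at h1
      rw [h1, he3]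
    · push Not at hb
      obtain ⟨b, hb⟩ := hb
      have h0 := E1D_bot F r hr hb
      rw [h0 a, lad_eq_bot (he1 a)]
      have h1 : ∀ c, e c (r c) = ⊥ := fun c => ((he1 c).eq_bot_iff).2 (h0 c)
      simp only [h1, iInf_const]
  · infer_instance

end Pool.Agent.CAN
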