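import Pool.Agent.CAN.E1A

/-!
# CAN/E1E: states on prescribed sets of points

* `exists_state`: `s.X = range k`, the structure is transported along the bijection `C ≃ range k`, `x ↦ k x` (`Equiv.ofInjective`).
  For the transport: define `alg` field by field (`le x y := θ.symm x ≤ θ.symm y`, `sSup s := θ (sSup (θ.symm '' s))` ...), see
  `CSub.alg` in `EIface` for the list of the fields, or use `Function.Injective.completeBooleanAlgebra` if convenient.
* `exists_pt_emb`: `Pt` is not small (`Pt ≃ Ordinal.{0}`), `U` is small, so `Uᶜ` is not small and every small type injects into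
  `Uᶜ` (`Cardinal.small_iff_lift_mk_lt_univ`, comparison of cardinals; or: the values of `o` on `U` are bounded by
  some ordinal `b` and `c ↦ ⟨b + 1 + φ c⟩` with an injection `φ : C → Ordinal.{0}`, which exists since `C` is small).
* `exists_glue`: let `U = ⋃ i, (st i).X` (small: a union of a small family of small sets), `u : C → Pt` an injection into `Uᶜ`, and
  `k c = x.1` if `c = e i x` for some `i, x` (choose; well defined by `he`), `k c = u c` otherwise.  `k` is injective and `k (e i x) = x.1`.  Apply `exists_state`.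
* `exists_zero_state`: `C = Set PUnit.{2}` and any injection into `Pt`.
-/

set_option autoImplicit false

namespace Pool.Agent.CAN

theorem exists_state {C : Type 1} [CompleteBooleanAlgebra C] (k : C → Pt) (hk : Function.Injective k) :
    ∃ s : St, s.X = Set.range k ∧ ∃ θ : C ≃o s.X, ∀ x, (θ x).1 = k x := by
  let X : Set Pt := Set.range k
  let θ : C ≃ X := Equiv.ofInjective k hk
  let iLE : LE X := ⟨fun a b => θ.symm a ≤ θ.symm b⟩
  let iLT : LT X := ⟨fun a b => θ.symm a < θ.symm b⟩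
  let iMax : Max X := ⟨fun a b => θ (θ.symm a ⊔ θ.symm b)⟩
  let iMin : Min X := ⟨fun a b => θ (θ.symm a ⊓ θ.symm b)⟩
  let iSup' : SupSet X := ⟨fun s => θ (⨆ a ∈ s, θ.symm a)⟩
  let iInf' : InfSet X := ⟨fun s => θ (⨅ a ∈ s, θ.symm a)⟩
  let iTop : Top X := ⟨θ ⊤⟩
  let iBot : Bot X := ⟨θ ⊥⟩
  let iCompl : Compl X := ⟨fun a => θ (θ.symm a)ᶜ⟩
  let iHImp : HImp X := ⟨fun a b => θ (θ.symm a ⇨ θ.symm b)⟩
  let iSDiff : SDiff X := ⟨fun a b => θ (θ.symm a \ θ.symm b)⟩
  let al : CompleteBooleanAlgebra X := Function.Injective.completeBooleanAlgebra (θ.symm : X → C)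
    θ.symm.injective Iff.rfl Iff.rfl (fun _ _ => θ.symm_apply_apply _) (fun _ _ => θ.symm_apply_apply _)
    (fun _ => θ.symm_apply_apply _) (fun _ => θ.symm_apply_apply _) (θ.symm_apply_apply _)
    (θ.symm_apply_apply _) (fun _ => θ.symm_apply_apply _) (fun _ _ => θ.symm_apply_apply _)
    (fun _ _ => θ.symm_apply_apply _)
  refine ⟨⟨X, al⟩, rfl, ⟨θ, ?_⟩, fun x => rfl⟩
  intro a b
  show θ.symm (θ a) ≤ θ.symm (θ b) ↔ a ≤ b
  rw [θ.symm_apply_apply, θ.symm_apply_apply]

theorem exists_pt_emb (U : Set Pt) (hU : Small.{0} U) (C : Type 1) (hC : Small.{0} C) :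
    ∃ u : C → Pt, Function.Injective u ∧ ∀ c, u c ∉ U := by
  have := hU
  have := hC
  obtain ⟨b, hb⟩ : BddAbove (Set.range fun p : U => p.1.o) := Ordinal.bddAbove_of_small
  refine ⟨fun c => ⟨b + 1 + Ordinal.typein (WellOrderingRel (α := Shrink.{0} C)) (equivShrink C c)⟩, ?_, ?_⟩
  · intro c c' h
    have h1 := congrArg Pt.o h
    simp only at h1
    exact (equivShrink C).injective (Ordinal.typein_injective _ (add_left_cancel h1))
  · intro c hc
    have h1 : b + 1 + Ordinal.typein (WellOrderingRel (α := Shrink.{0} C)) (equivShrink C c) ≤ b :=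
      hb ⟨⟨_, hc⟩, rfl⟩
    have h2 : b + 1 ≤ b := (le_add_of_nonneg_right zero_le).trans h1
    exact absurd h2 (not_le_of_gt (by exact lt_add_one b))

theorem exists_glue {ι : Type 1} [Small.{0} ι] (st : ι → St) (hs : ∀ i, Small.{0} (st i).X) {C : Type 1}
    [CompleteBooleanAlgebra C] (hC : Small.{0} C) (e : ∀ i, (st i).X → C)
    (he : ∀ i k x y, e i x = e k y ↔ x.1 = y.1) :
    ∃ s : St, Small.{0} s.X ∧ ∃ θ : C ≃o s.X, ∀ i x, (θ (e i x)).1 = x.1 := by
  classical
  have := hs
  have := hC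
  have hU : Small.{0} (⋃ i, (st i).X) := inferInstance
  obtain ⟨u, hu, huU⟩ := exists_pt_emb _ hU C hC
  let k : C → Pt := fun c => if h : ∃ p : Pt, ∃ (i : ι) (x : (st i).X), e i x = c ∧ x.1 = p then h.choose else u c
  have hk1 : ∀ (i : ι) (x : (st i).X), k (e i x) = x.1 := by
    intro i x
    have h : ∃ p : Pt, ∃ (i' : ι) (x' : (st i').X), e i' x' = e i x ∧ x'.1 = p := ⟨x.1, i, x, rfl, rfl⟩
    have hk : k (e i x) = h.choose := dif_pos h
    obtain ⟨i', x', h1, h2⟩ := h.choose_spec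
    rw [hk, ← h2]
    exact (he i' i x' x).1 h1
  have hk2 : ∀ c, (¬ ∃ p : Pt, ∃ (i : ι) (x : (st i).X), e i x = c ∧ x.1 = p) → k c = u c :=
    fun c h => dif_neg h
  have hk : Function.Injective k := by
    intro c c' h
    by_cases h1 : ∃ p : Pt, ∃ (i : ι) (x : (st i).X), e i x = c ∧ x.1 = p
    · obtain ⟨-, i, x, rfl, -⟩ := h1
      by_cases h2 : ∃ p : Pt, ∃ (i : ι) (x : (st i).X), e i x = c' ∧ x.1 = p
      · obtain ⟨-, i', x', rfl, -⟩ := h2
        rw [hk1, hk1] at h
        exact (he i i' x x').2 h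
      · rw [hk1, hk2 c' h2] at h
        exact absurd (Set.mem_iUnion.2 ⟨i, by rw [← h]; exact x.2⟩) (huU c')
    · by_cases h2 : ∃ p : Pt, ∃ (i : ι) (x : (st i).X), e i x = c' ∧ x.1 = p
      · obtain ⟨-, i', x', rfl, -⟩ := h2
        rw [hk1, hk2 c h1] at h
        exact absurd (Set.mem_iUnion.2 ⟨i', by rw [h]; exact x'.2⟩) (huU c)
      · rw [hk2 c h1, hk2 c' h2] at h
        exact hu h
  obtain ⟨s, -, θ, hθ⟩ := exists_state k hk
  exact ⟨s, small_map θ.toEquiv.symm, θ, fun i x => (hθ _).trans (hk1 i x)⟩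

/-- There is a two-element algebra. -/
theorem exists_zero_state : ∃ s : St, Small.{0} s.X ∧ (⊥ : s.X) ≠ ⊤ ∧ ∀ x : s.X, x = ⊥ ∨ x = ⊤ := by
  have hC : Small.{0} (Set PUnit.{2}) := inferInstance
  obtain ⟨u, hu, -⟩ := exists_pt_emb ∅ inferInstance (Set PUnit.{2}) hC
  obtain ⟨s, -, θ, -⟩ := exists_state u hu
  refine ⟨s, small_map θ.toEquiv.symm, ?_, ?_⟩
  · intro h
    have h1 : θ.symm ⊥ = θ.symm ⊤ := by rw [h]
    rw [map_bot, map_top] at h1
    have h2 : PUnit.unit ∈ (⊤ : Set PUnit.{2}) := trivial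
    rw [← h1] at h2
    exact h2
  · intro x
    obtain ⟨y, rfl⟩ := θ.surjective x
    rcases y.eq_empty_or_nonempty with h | h
    · left
      rw [h]
      exact map_bot θ
    · right
      have h1 : y = Set.univ := by
        ext z
        obtain ⟨w, hw⟩ := h
        simp only [Set.mem_univ, iff_true]
        exact hw
      rw [h1]
      exact map_top θ

end Pool.Agent.CAN
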