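import Pool.Agent.CAN.E1A

/-!
# CAN/E2A: extensions of states

All statements are about `Set.inclusion`, `St.im s t = {x : t.X | x.1 ∈ s.X}` and `CEmb`.
* `St.sub_of_emb`: `Set.inclusion h = θ ∘ e` (by `Subtype.ext`), `CEmb.comp`, `CEmb.of_orderIso`.
* `St.Sub.dsys`: the maps are `fun x => ⟨x.1, _⟩`.
-/

set_option autoImplicit false

namespace Pool.Agent.CAN

theorem St.Sub.refl (s : St) : s.Sub s := by
  exact ⟨fun _ h => h, CEmb.id⟩

theorem St.Sub.trans {s t u : St} (h : s.Sub t) (h' : t.Sub u) : s.Sub u := by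
  obtain ⟨h1, e1⟩ := h
  obtain ⟨h2, e2⟩ := h'
  have h3 : CEmb (fun x => Set.inclusion h2 (Set.inclusion h1 x)) := CEmb.comp e1 e2
  exact ⟨h1.trans h2, h3⟩

theorem St.Sub.emb {s t : St} (h : s.Sub t) (h' : s.X ⊆ t.X) : CEmb (Set.inclusion h') := by
  obtain ⟨_, e⟩ := h
  exact e

theorem St.im_self (s : St) : St.im s s = Set.univ := by
  exact Set.eq_univ_of_forall fun x => x.2

theorem St.im_eq_range {s t : St} (h : s.X ⊆ t.X) : St.im s t = Set.range (Set.inclusion h) := by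
  ext y
  constructor
  · intro hy
    exact ⟨⟨y.1, hy⟩, rfl⟩
  · rintro ⟨x, rfl⟩
    exact x.2

theorem St.csub_im {s t : St} (h : s.Sub t) : CSub (St.im s t) := by
  obtain ⟨h', e⟩ := h
  rw [St.im_eq_range h']
  exact e.csub_range

theorem St.im_mono {s t : St} (u : St) (h : s.X ⊆ t.X) : St.im s u ⊆ St.im t u := by
  exact fun _ hx => h hx

theorem St.image_im {s t u : St} (hst : s.X ⊆ t.X) (h : t.X ⊆ u.X) : Set.inclusion h '' St.im s t = St.im s u := by
  ext y
  constructor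
  · rintro ⟨x, hx, rfl⟩
    exact hx
  · intro hy
    exact ⟨⟨y.1, hst hy⟩, hy, rfl⟩

theorem St.im_small {s : St} (t : St) (h : Small.{0} s.X) : Small.{0} (St.im s t) := by
  refine small_of_injective (β := s.X) (f := fun x : St.im s t => (⟨x.1.1, x.2⟩ : s.X)) ?_
  intro x y hxy
  have h1 : x.1.1 = y.1.1 := congrArg (fun z : s.X => z.1) hxy
  exact Subtype.ext (Subtype.ext h1)

theorem St.sub_of_emb {s t : St} {C : Type 1} [CompleteBooleanAlgebra C] {e : s.X → C} (he : CEmb e) (θ : C ≃o t.X)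
    (h : ∀ x, (θ (e x)).1 = x.1) : s.Sub t := by
  have h' : s.X ⊆ t.X := by
    intro x hx
    have h1 := h ⟨x, hx⟩
    have h2 := (θ (e ⟨x, hx⟩)).2
    rw [h1] at h2
    exact h2
  refine ⟨h', ?_⟩
  have h3 : Set.inclusion h' = fun x => θ (e x) := by
    funext x
    exact Subtype.ext (h x).symm
  rw [h3]
  exact CEmb.comp he (CEmb.of_orderIso θ)

theorem St.im_of_emb {s t : St} {C : Type 1} [CompleteBooleanAlgebra C] (e : s.X → C) (θ : C ≃o t.X)
    (h : ∀ x, (θ (e x)).1 = x.1) : St.im s t = θ '' Set.range e := by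
  ext y
  constructor
  · intro hy
    exact ⟨e ⟨y.1, hy⟩, ⟨_, rfl⟩, Subtype.ext (h ⟨y.1, hy⟩)⟩
  · rintro ⟨_, ⟨x, rfl⟩, rfl⟩
    change (θ (e x)).1 ∈ s.X
    rw [h]
    exact x.2

/-- States form a directed system. -/
theorem St.exists_dsys {D : Type 1} [LinearOrder D] (st : D → St) (h : ∀ a b, a ≤ b → (st a).Sub (st b)) :
    ∃ F : DSys D (fun a => (st a).X), ∀ a b hab x, (F.f a b hab x).1 = x.1 := by
  exact ⟨⟨fun a b hab => Set.inclusion (h a b hab).choose, fun a b hab => (h a b hab).choose_spec,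
    fun _ _ => rfl, fun _ _ _ _ _ _ => rfl⟩, fun _ _ _ _ => rfl⟩

end Pool.Agent.CAN
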