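import Pool.Agent.CAN.E1A

/-!
# CAN/E2B: the conditions at a limit stage

* `LimTop.limAt`: immediate (`S g = univ`).
* `LimAt.map`: `f` commutes with `⨅` (`CEmb.iInf`) and `proj (f '' S b) (f x) = f (proj (S b) x)` (`CEmb.proj`); an element of `f '' S b` is `f` of an element of
  `S b`; for `thread`: choose `r' a ∈ S a` with `f (r' a) = r a` (`a < g`; `⊥` otherwise), `r'` is coherent since `f` is injective.
* `LimTop.iso`: the same for an isomorphism (`LimTop.limAt`, or directly).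
* `LimAt.congr`, `LimTop.congr`: replace `S b` by `S' b` for `b ≤ g` (`b < g`).
* `LimAt.of_const`: `S b = S g` for some `c < g` and all `c ≤ b ≤ g`: `dense`: `y = x` (`proj (S b) y = y` for `b ≥ c`);
  `thread`: `r b = r c` for `c ≤ b < g` (`r b ∈ S b = S c`, `proj (S c) (r b) = r b`), so the infimum is `r c` (`r c ≤ r a` for
  `a ≤ c` as `r a = proj (S a) (r c)`); `direct`: `a = c`, `y = x`.
-/

set_option autoImplicit false

namespace Pool.Agent.CAN

variable {B C : Type 1} [CompleteBooleanAlgebra B] [CompleteBooleanAlgebra C] {S S' : Ordinal.{0} → Set B}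
  {g : Ordinal.{0}}

theorem LimTop.limAt (h : LimTop S g) (hg : S g = Set.univ) : LimAt S g where
  dense h1 h2 x _ hx0 := by
    obtain ⟨y, hy0, hyx, hy⟩ := h.dense h1 h2 x hx0
    exact ⟨y, by rw [hg]; exact Set.mem_univ _, hy0, hyx, hy⟩
  thread h1 h2 r hr hc := by
    exact ⟨by rw [hg]; exact Set.mem_univ _, h.thread h1 h2 r hr hc⟩
  direct h1 h2 x _ hx0 := h.direct h1 h2 x hx0

private theorem E2B_inf {f : B → C} (hf : CEmb f) (hS : ∀ b, b < g → CSub (S b)) {y : B}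
    (hy : y = ⨅ (a) (_ : a < g), proj (S a) y) : f y = ⨅ (a) (_ : a < g), proj (f '' S a) (f y) := by
  have h1 : f y = f (⨅ (a) (_ : a < g), proj (S a) y) := congrArg f hy
  refine h1.trans ?_
  rw [hf.iInf]
  refine iInf_congr fun a => ?_
  rw [hf.iInf]
  refine iInf_congr fun ha => ?_
  exact (hf.proj (hS a ha) y).symm

private theorem E2B_lift {f : B → C} (hf : CEmb f) (hS : ∀ b, b < g → CSub (S b)) {r : Ordinal.{0} → C}
    (hr : ∀ a < g, r a ∈ f '' S a) (hc : ∀ a b, a ≤ b → b < g → proj (f '' S a) (r b) = r a) :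
    ∃ r' : Ordinal.{0} → B, (∀ a < g, r' a ∈ S a) ∧ (∀ a < g, f (r' a) = r a) ∧
      (∀ a b, a ≤ b → b < g → proj (S a) (r' b) = r' a) ∧
      f (⨅ (a) (_ : a < g), r' a) = ⨅ (a) (_ : a < g), r a := by
  have h1 : ∀ a, ∃ x, a < g → x ∈ S a ∧ f x = r a := by
    intro a
    by_cases ha : a < g
    · obtain ⟨x, hx, hxr⟩ := hr a ha
      exact ⟨x, fun _ => ⟨hx, hxr⟩⟩
    · exact ⟨⊥, fun h => absurd h ha⟩
  choose r' hr' using h1
  refine ⟨r', fun a ha => (hr' a ha).1, fun a ha => (hr' a ha).2, ?_, ?_⟩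
  · intro a b hab hb
    apply hf.inj
    rw [← hf.proj (hS a (hab.trans_lt hb)), (hr' b hb).2, hc a b hab hb, (hr' a (hab.trans_lt hb)).2]
  · rw [hf.iInf]
    refine iInf_congr fun a => ?_
    rw [hf.iInf]
    exact iInf_congr fun ha => (hr' a ha).2

theorem LimAt.map {f : B → C} (hf : CEmb f) (hS : ∀ b, b ≤ g → CSub (S b)) (h : LimAt S g) :
    LimAt (fun b => f '' S b) g where
  dense h1 h2 x hx hx0 := by
    obtain ⟨x', hx', rfl⟩ := hx
    have hx0' : x' ≠ ⊥ := fun h0 => hx0 (hf.eq_bot_iff.2 h0)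
    obtain ⟨y, hy, hy0, hyx, hyeq⟩ := h.dense h1 h2 x' hx' hx0'
    refine ⟨f y, ⟨y, hy, rfl⟩, fun h0 => hy0 (hf.eq_bot_iff.1 h0), hf.mono hyx, ?_⟩
    exact E2B_inf hf (fun b hb => hS b hb.le) hyeq
  thread h1 h2 r hr hc := by
    obtain ⟨r', hr', hr2, hc', hinf⟩ := E2B_lift hf (fun b hb => hS b hb.le) hr hc
    obtain ⟨h3, h4⟩ := h.thread h1 h2 r' hr' hc'
    rw [← hinf]
    refine ⟨⟨_, h3, rfl⟩, fun a ha => ?_⟩
    rw [hf.proj (hS a ha.le), h4 a ha, hr2 a ha]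
  direct h1 h2 x hx hx0 := by
    obtain ⟨x', hx', rfl⟩ := hx
    have hx0' : x' ≠ ⊥ := fun h0 => hx0 (hf.eq_bot_iff.2 h0)
    obtain ⟨a, ha, y, hy, hy0, hyx⟩ := h.direct h1 h2 x' hx' hx0'
    exact ⟨a, ha, f y, ⟨y, hy, rfl⟩, fun h0 => hy0 (hf.eq_bot_iff.1 h0), hf.mono hyx⟩

theorem LimTop.iso (θ : B ≃o C) (hS : ∀ b, b < g → CSub (S b)) (h : LimTop S g) : LimTop (fun b => θ '' S b) g where
  dense h1 h2 x hx0 := by
    have hf : CEmb θ := CEmb.of_orderIso θ
    obtain ⟨x', rfl⟩ := θ.surjective x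
    have hx0' : x' ≠ ⊥ := fun h0 => hx0 (hf.eq_bot_iff.2 h0)
    obtain ⟨y, hy0, hyx, hyeq⟩ := h.dense h1 h2 x' hx0'
    refine ⟨θ y, fun h0 => hy0 (hf.eq_bot_iff.1 h0), hf.mono hyx, ?_⟩
    exact E2B_inf hf hS hyeq
  thread h1 h2 r hr hc a ha := by
    have hf : CEmb θ := CEmb.of_orderIso θ
    obtain ⟨r', hr', hr2, hc', hinf⟩ := E2B_lift hf hS hr hc
    have h4 := h.thread h1 h2 r' hr' hc' a ha
    rw [← hinf, hf.proj (hS a ha), h4, hr2 a ha]
  direct h1 h2 x hx0 := by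
    have hf : CEmb θ := CEmb.of_orderIso θ
    obtain ⟨x', rfl⟩ := θ.surjective x
    have hx0' : x' ≠ ⊥ := fun h0 => hx0 (hf.eq_bot_iff.2 h0)
    obtain ⟨a, ha, y, hy, hy0, hyx⟩ := h.direct h1 h2 x' hx0'
    exact ⟨a, ha, θ y, ⟨y, hy, rfl⟩, fun h0 => hy0 (hf.eq_bot_iff.1 h0), hf.mono hyx⟩

theorem LimAt.congr (hS : ∀ b, b ≤ g → S b = S' b) (h : LimAt S g) : LimAt S' g where
  dense h1 h2 x hx hx0 := by
    rw [← hS g le_rfl] at hx
    obtain ⟨y, hy, hy0, hyx, hyeq⟩ := h.dense h1 h2 x hx hx0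
    rw [hS g le_rfl] at hy
    refine ⟨y, hy, hy0, hyx, hyeq.trans ?_⟩
    exact iInf_congr fun a => iInf_congr fun ha => by rw [hS a ha.le]
  thread h1 h2 r hr hc := by
    have h3 := h.thread h1 h2 r (fun a ha => by rw [hS a ha.le]; exact hr a ha)
      (fun a b hab hb => by rw [hS a (hab.trans hb.le)]; exact hc a b hab hb)
    refine ⟨?_, fun a ha => ?_⟩
    · rw [← hS g le_rfl]
      exact h3.1
    · rw [← hS a ha.le]
      exact h3.2 a ha
  direct h1 h2 x hx hx0 := by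
    rw [← hS g le_rfl] at hx
    obtain ⟨a, ha, y, hy, hy0, hyx⟩ := h.direct h1 h2 x hx hx0
    rw [hS a ha.le] at hy
    exact ⟨a, ha, y, hy, hy0, hyx⟩

theorem LimTop.congr (hS : ∀ b, b < g → S b = S' b) (h : LimTop S g) : LimTop S' g where
  dense h1 h2 x hx0 := by
    obtain ⟨y, hy0, hyx, hyeq⟩ := h.dense h1 h2 x hx0
    refine ⟨y, hy0, hyx, hyeq.trans ?_⟩
    exact iInf_congr fun a => iInf_congr fun ha => by rw [hS a ha]
  thread h1 h2 r hr hc a ha := by
    rw [← hS a ha]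
    exact h.thread h1 h2 r (fun a ha => by rw [hS a ha]; exact hr a ha)
      (fun a b hab hb => by rw [hS a (hab.trans_lt hb)]; exact hc a b hab hb) a ha
  direct h1 h2 x hx0 := by
    obtain ⟨a, ha, y, hy, hy0, hyx⟩ := h.direct h1 h2 x hx0
    rw [hS a ha] at hy
    exact ⟨a, ha, y, hy, hy0, hyx⟩

theorem LimAt.of_const (hS : ∀ b, b ≤ g → CSub (S b)) (hm : ∀ b c, b ≤ c → c ≤ g → S b ⊆ S c) {c : Ordinal.{0}}
    (hc : c < g) (h : ∀ b, c ≤ b → b ≤ g → S b = S g) : LimAt S g where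
  dense _ _ x hx hx0 := by
    refine ⟨x, hx, hx0, le_rfl, le_antisymm (le_iInf₂ fun a _ => le_proj x) ?_⟩
    refine (iInf₂_le c hc).trans (proj_self ?_).le
    rw [h c le_rfl hc.le]
    exact hx
  thread _ _ r hr hcoh := by
    have h1 : ∀ a, c ≤ a → a < g → r a = r c := by
      intro a hca ha
      rw [← hcoh c a hca ha, proj_self]
      have h2 := hr a ha
      rw [h a hca ha.le] at h2
      rw [h c le_rfl hc.le]
      exact h2
    have h2 : ⨅ (a) (_ : a < g), r a = r c := by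
      apply le_antisymm (iInf₂_le c hc)
      refine le_iInf₂ fun a ha => ?_
      rcases le_total a c with hac | hca
      · rw [← hcoh a c hac hc]
        exact le_proj _
      · exact (h1 a hca ha).ge
    rw [h2]
    refine ⟨?_, fun a ha => ?_⟩
    · rw [← h c le_rfl hc.le]
      exact hr c hc
    · rcases le_total a c with hac | hca
      · exact hcoh a c hac hc
      · rw [proj_self (hm c a hca ha.le (hr c hc)), h1 a hca ha]
  direct _ _ x hx hx0 := by
    refine ⟨c, hc, x, ?_, hx0, le_rfl⟩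
    rw [h c le_rfl hc.le]
    exact hx

end Pool.Agent.CAN
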