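import Pool.Agent.CAN.NTB

/-!
# CAN/NTE: the iteration theorem

`chain_nn`: let `F` be an operation for the conjunction of `nt_limit`, `nns_comp` (for the family `S`, all needed facts in shifted form `EvN.shift`), `nns_self`, `chain_pp` (`EvN.of_evT`,
`M ⊆ W k`), and the steps `hS.step b` (`EvN.diag`, `EvN.shift`).  Show by strong induction on `b`, for all `M, W, i` (with `Mdl F M`, `TwF F W i`, `M ∈ W i`) and all `a ≤ b` in `M`:
`NNs (S a) (S b) M W i`.  `a = b`: `nns_self` — it should be used for all `S a`, `a ∈ₘ M` (`EvN.diag`).  `b` successor `b = succ b'`: `b' ∈ₘ M`, `a ≤ b'`, composition of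
`(a, b')` and the step.  `b` limit: `nt_limit`.
`chain_np`: for fixed `a ≤ b` add to `F` the condition that `a, b ∈ₘ M` (`Ev.const`).
-/

set_option autoImplicit false

namespace Pool.Agent.CAN

variable {B : Type 1} [CompleteBooleanAlgebra B] {S : Ordinal.{0} → Set B}

theorem chain_nn (hS : Chain S) : EvN (fun M W i => ∀ a b : Ordinal.{0}, a ≤ b → InM a M → InM b M →
    NNs (S a) (S b) M W i) := by
  obtain ⟨F, hF⟩ := (nt_limit hS).and ((nns_comp S hS.sub).and
    ((EvN.diag (fun a : Ordinal.{0} => nns_self (hS.sub a))).and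
    ((EvN.of_evT (chain_pp hS)).and ((EvN.diag (fun b : Ordinal.{0} => (hS.step b).nn)).and
    ((EvN.of_ev (Ev.wit1 (fun (g b : Ordinal.{0}) => g = Order.succ b))).and EvN.sub)))))
  refine ⟨F, fun M W i hM hW hMW a b hab ha hb => ?_⟩
  have hsub := (hF M W i hM hW hMW).2.2.2.2.2.2.2.2
  have key : ∀ b : Ordinal.{0}, InM b M → ∀ k, i ≤ k → ∀ a, a ≤ b → InM a M → NNs (S a) (S b) M W k := by
    intro b
    induction b using WellFoundedLT.induction with
    | ind b ih =>
      intro hb k hk a hab ha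
      have hk' := hF M W k hM (hW.shift hk) (hsub k hk).1
      have hpp : ∀ l, k ≤ l → ∀ a' b' : Ordinal.{0}, a' ≤ b' → InM a' M → InM b' M → PPs (S a') (S b') W l := by
        intro l hl a' b' hab' ha' hb'
        have hil : i ≤ l := hk.trans hl
        have hl' := hF M W l hM (hW.shift hil) (hsub l hil).1
        exact hl'.2.2.2.1 a' b' hab' ((hsub l hil).2 _ ha') ((hsub l hil).2 _ hb')
      rcases hab.eq_or_lt with rfl | hlt
      · exact hk'.2.2.1 a ha
      rcases Ordinal.zero_or_succ_or_isSuccLimit b with rfl | ⟨c, rfl⟩ | hL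
      · exact absurd hlt (not_lt.2 zero_le)
      · have hc : InM c M := by
          obtain ⟨c', hc', he⟩ := hk'.2.2.2.2.2.1 _ hb ⟨c, rfl⟩
          rw [Order.succ_injective he]
          exact hc'
        have hac : a ≤ c := Order.lt_succ_iff.1 hlt
        exact hk'.2.1 a c (Order.succ c) ha hc hb (hS.mono a c hac) (hS.mono c _ (Order.le_succ c))
          (fun l hl => hpp l hl a c hac ha hc) (ih c (Order.lt_succ c) hc k hk a hac ha)
          (fun l hl => (hF M W l hM (hW.shift (hk.trans hl)) (hsub l (hk.trans hl)).1).2.2.2.2.1 c hc)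
      · exact hk'.1 b hb hL (fun l hl a' b' hab' hb' haM hbM =>
          ⟨hpp l hl a' b' hab' haM hbM, ih b' hb' hbM l (hk.trans hl) a' hab' haM⟩) a hlt ha
  exact key b hb i le_rfl a hab ha

theorem chain_np (hS : Chain S) {a b : Ordinal.{0}} (hab : a ≤ b) : NP (S a) (S b) := by
  refine ⟨?_, ?_⟩
  · exact ((chain_pp hS).and ((EvT.of_ev (Ev.const a)).and (EvT.of_ev (Ev.const b)))).mono
      fun W i _ H => H.1 a b hab (H.2.1 i le_rfl) (H.2.2 i le_rfl)
  · exact ((chain_nn hS).and ((EvN.of_ev (Ev.const a)).and (EvN.of_ev (Ev.const b)))).mono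
      fun M W i _ H => H.1 a b hab H.2.1 H.2.2

/-- Composition of nice pairs. -/
theorem NP.comp {A C E : Set B} (hA : CSub A) (hC : CSub C) (hE : CSub E) (hAC : A ⊆ C) (hCE : C ⊆ E)
    (h1 : NP A C) (h2 : NP C E) : NP A E := by
  let T : ULift.{1} (Fin 3) → Set B := fun t => ![A, C, E] t.down
  have hT : ∀ t, CSub (T t) := by
    rintro ⟨t⟩
    fin_cases t
    · exact hA
    · exact hC
    · exact hE
  let a : ULift.{1} (Fin 3) := ⟨0⟩
  let b : ULift.{1} (Fin 3) := ⟨1⟩
  let c : ULift.{1} (Fin 3) := ⟨2⟩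
  refine ⟨?_, ?_⟩
  · exact ((pps_comp T hT).and (h1.pp.and (h2.pp.and (EvT.of_ev (Ev.const b))))).mono
      fun W i _ H => H.1 a b c hAC hCE (H.2.2.2 i le_rfl) H.2.1 H.2.2.1
  · exact ((nns_comp T hT).and ((EvN.of_evT h1.pp.shift).and (h1.nn.and (h2.nn.shift.and
      ((EvN.of_ev (Ev.const a)).and ((EvN.of_ev (Ev.const b)).and (EvN.of_ev (Ev.const c)))))))).mono
      fun M W i _ H => H.1 a b c H.2.2.2.2.1 H.2.2.2.2.2.1 H.2.2.2.2.2.2 hAC hCE H.2.1 H.2.2.1 H.2.2.2.1

end Pool.Agent.CAN
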