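import Pool.Agent.CAN.E2B
import Pool.Agent.CAN.NTE

/-!
# CAN/E2C: iterations up to `a`

* `NP.refl`: `PPs A A W i`: `q ⊓ ggen A W i j ∈ A` so its projection is itself (`proj_self`; `ggen_mem` or similar from `GEN`).  `NNs A A M W i`: `nns_self` (in `NCH`).
* `ChainTo.map`: `NP.map` (`NPT`), `LimAt.map`, `CEmb.csub`.
* `ChainTo.chain`: `S' b = S (min b a)`.  Step: `b < a`: `min (succ b) a = succ b`; otherwise both are `S a` (`NP.refl`).  At limits `g ≤ a`: `LimAt.congr` from
  `hS.lim g`, at limits `g > a`: `LimAt.of_const` with `c = a`.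
* `chain_of_to`: immediate.  `ChainTo.np`: `chain_np` for `ChainTo.chain`.
-/

set_option autoImplicit false

namespace Pool.Agent.CAN

variable {B C : Type 1} [CompleteBooleanAlgebra B] [CompleteBooleanAlgebra C] {S S' : Ordinal.{0} → Set B}
  {a : Ordinal.{0}}

theorem NP.refl {A : Set B} (hA : CSub A) : NP A A := by
  refine ⟨EvT.tw.mono ?_, nns_self hA⟩
  intro W i _ _ j _ q hq _
  rw [proj_self hq, proj_self (hA.and hq (ggen_mem hA W i j)), inf_comm]

theorem ChainTo.le (hS : ChainTo S a) {b : Ordinal.{0}} (h : b ≤ a) : ChainTo S b := by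
  exact ⟨fun c hc => hS.sub c (hc.trans h), fun c d hcd hd => hS.mono c d hcd (hd.trans h),
    fun c hc => hS.step c (lt_of_lt_of_le hc h), fun g hg => hS.lim g (hg.trans h)⟩

theorem ChainTo.map {f : B → C} (hf : CEmb f) (h : ChainTo S a) : ChainTo (fun b => f '' S b) a := by
  exact ⟨fun b hb => hf.csub (h.sub b hb), fun b c hbc hc => Set.image_mono (h.mono b c hbc hc),
    fun b hb => NP.map hf (h.sub b hb.le) (h.sub _ (Order.succ_le_of_lt hb)) (h.step b hb),
    fun g hg => LimAt.map hf (fun b hb => h.sub b (hb.trans hg)) (h.lim g hg)⟩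

theorem ChainTo.congr (hS : ∀ b, b ≤ a → S b = S' b) (h : ChainTo S a) : ChainTo S' a := by
  refine ⟨fun b hb => ?_, fun b c hbc hc => ?_, fun b hb => ?_, fun g hg => ?_⟩
  · rw [← hS b hb]
    exact h.sub b hb
  · rw [← hS b (hbc.trans hc), ← hS c hc]
    exact h.mono b c hbc hc
  · rw [← hS b hb.le, ← hS _ (Order.succ_le_of_lt hb)]
    exact h.step b hb
  · exact LimAt.congr (fun b hb => hS b (hb.trans hg)) (h.lim g hg)

theorem ChainTo.chain (h : ChainTo S a) : Chain (fun b => S (min b a)) := by
  have hsub : ∀ b, CSub (S (min b a)) := fun b => h.sub _ (min_le_right _ _)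
  have hmono : ∀ b c, b ≤ c → S (min b a) ⊆ S (min c a) := fun b c hbc =>
    h.mono _ _ (min_le_min_right _ hbc) (min_le_right _ _)
  have hlim : ∀ g, LimAt (fun b => S (min b a)) g := by
    intro g
    rcases le_or_gt g a with hg | hg
    · refine LimAt.congr (S := S) (fun b hb => ?_) (h.lim g hg)
      show S b = S (min b a)
      rw [min_eq_left (hb.trans hg)]
    · refine LimAt.of_const (fun b _ => hsub b) (fun b c hbc _ => hmono b c hbc) hg ?_
      intro b hb hbg
      show S (min b a) = S (min g a)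
      rw [min_eq_right hb, min_eq_right hg.le]
  refine ⟨hsub, hmono, fun b => ?_, fun g => (hlim g).dense, fun g => (hlim g).thread,
    fun g => (hlim g).direct⟩
  show NP (S (min b a)) (S (min (Order.succ b) a))
  rcases lt_or_ge b a with hb | hb
  · rw [min_eq_left hb.le, min_eq_left (Order.succ_le_of_lt hb)]
    exact h.step b hb
  · rw [min_eq_right hb, min_eq_right (hb.trans (Order.le_succ b))]
    exact NP.refl (h.sub a le_rfl)

theorem ChainTo.np (h : ChainTo S a) {b c : Ordinal.{0}} (hbc : b ≤ c) (hc : c ≤ a) : NP (S b) (S c) := by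
  have h1 : NP (S (min b a)) (S (min c a)) := chain_np h.chain hbc
  rw [min_eq_left (hbc.trans hc), min_eq_left hc] at h1
  exact h1

theorem chain_of_to (h : ∀ a, ChainTo S a) : Chain S := by
  exact ⟨fun a => (h a).sub a le_rfl, fun a b hab => (h b).mono a b hab le_rfl,
    fun a => (h (Order.succ a)).step a (Order.lt_succ a), fun g => ((h g).lim g le_rfl).dense,
    fun g => ((h g).lim g le_rfl).thread, fun g => ((h g).lim g le_rfl).direct⟩

end Pool.Agent.CAN
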