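import Pool.Agent.CAN.E1C
import Pool.Agent.CAN.E1D
import Pool.Agent.CAN.E1E
import Pool.Agent.CAN.E2A
import Pool.Agent.CAN.E2B

/-!
# CAN/E2D: the limit stage

* `rg_eq`: `rg e b = range (e ⟨b, h⟩)` for `b < g`.
* `limtop_threads`: `proj (rg e b) y = e b (lad (e b) y)` for `b < g` (`proj_range`), infima over `b < g` are infima over `Set.Iio g` (`iInf_subtype'`).
  For `thread`: choose `r' b` with `e b (r' b) = r b`; coherence `lad (F.f a b h) (r' b) = r' a` since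
  `e a (lad (F.f a b h) (r' b)) = e a (lad (fun x => e b (F.f a b h x)) (e b (r' b))) = e a (lad (e a) (r b)) = proj (rg e a) (r b) = r a` (`lad_comp`, `lad_emb`).
* `exists_limit`: `D = Set.Iio g` (nonempty, small: `small_Iio`), `F` from `St.exists_dsys`.  If `CofW g`: `exists_threads`, otherwise `exists_direct`.
  `exists_glue` with `ι = Set.Iio g` (`e i x = e k y ↔ x.1 = y.1`: for `i ≤ k`, `e i x = e k (F.f i k _ x)` and `e k` is injective; symmetric), `LimTop.iso` for `S = rg e`,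
  `LimTop.congr` with `St.im_of_emb`.  `St.sub_of_emb` for the extensions.  Nontrivial: `CEmb.bot`, `CEmb.top` for the inclusion of `st 0`.
-/

set_option autoImplicit false

namespace Pool.Agent.CAN

section
variable {C : Type 1} [CompleteBooleanAlgebra C] {g : Ordinal.{0}} {A : Set.Iio g → Type 1}
  [∀ a, CompleteBooleanAlgebra (A a)]

theorem rg_eq (e : ∀ b, A b → C) {b : Ordinal.{0}} (h : b < g) : rg e b = Set.range (e ⟨b, h⟩) := by
  ext x
  constructor
  · rintro ⟨_, y, rfl⟩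
    exact ⟨y, rfl⟩
  · rintro ⟨y, rfl⟩
    exact ⟨h, y, rfl⟩

private theorem E2D_iInf (u : Set.Iio g → C) (v : Ordinal.{0} → C) (h : ∀ b, v b.1 = u b) :
    (⨅ (b) (_ : b < g), v b) = ⨅ b, u b := by
  apply le_antisymm
  · refine le_iInf fun b => ?_
    rw [← h b]
    exact iInf₂_le b.1 b.2
  · refine le_iInf₂ fun b hb => ?_
    have := h ⟨b, hb⟩
    change v b = _ at this
    rw [this]
    exact iInf_le u ⟨b, hb⟩

private theorem E2D_proj (e : ∀ b, A b → C) (he : ∀ a, CEmb (e a)) (a : Set.Iio g) (y : C) :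
    proj (rg e a.1) y = e a (lad (e a) y) := by
  rw [rg_eq e a.2]
  exact proj_range (he a) y

theorem limtop_threads (hc : CofW g) (F : DSys (Set.Iio g) A) (e : ∀ b, A b → C) (he : ∀ a, CEmb (e a))
    (hF : ∀ a b (h : a ≤ b) x, e b (F.f a b h x) = e a x)
    (h1 : ∀ x, x ≠ ⊥ → ∃ y, y ≠ ⊥ ∧ y ≤ x ∧ y = ⨅ a, e a (lad (e a) y))
    (h2 : ∀ r : ∀ a, A a, (∀ a b (h : a ≤ b), lad (F.f a b h) (r b) = r a) → ∀ a, lad (e a) (⨅ b, e b (r b)) = r a) :
    LimTop (rg e) g := by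
  refine ⟨?_, ?_, fun _ h => absurd hc h⟩
  · intro _ _ x hx
    obtain ⟨y, hy, hyx, hy2⟩ := h1 x hx
    refine ⟨y, hy, hyx, ?_⟩
    rw [E2D_iInf (fun a : Set.Iio g => e a (lad (e a) y)) (fun a => proj (rg e a) y)
      (fun a => E2D_proj e he a y)]
    exact hy2
  · intro _ _ r hr hco a ha
    have hch : ∀ b : Set.Iio g, ∃ y : A b, e b y = r b.1 := by
      intro b
      obtain ⟨_, y, hy⟩ := hr b.1 b.2
      exact ⟨y, hy⟩
    choose r' hr' using hch
    have hthr : ∀ a b (h : a ≤ b), lad (F.f a b h) (r' b) = r' a := by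
      intro a b h
      apply (he a).inj
      rw [hr' a, ← hco a.1 b.1 h b.2, E2D_proj e he a, ← hr' b]
      congr 1
      have h3 : lad (F.f a b h) (lad (e b) (e b (r' b))) = lad (fun x => e b (F.f a b h x)) (e b (r' b)) :=
        lad_comp (F.emb a b h) (he b) _
      rw [lad_emb (he b)] at h3
      rw [h3]
      congr 1
      funext x
      exact hF a b h x
    have h4 := h2 r' hthr ⟨a, ha⟩
    rw [E2D_iInf (fun b : Set.Iio g => e b (r' b)) r (fun b => (hr' b).symm)]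
    rw [E2D_proj e he ⟨a, ha⟩, h4]
    exact hr' ⟨a, ha⟩

theorem limtop_direct (hc : ¬ CofW g) (e : ∀ b, A b → C) (he : ∀ a, CEmb (e a))
    (h1 : ∀ x, x ≠ ⊥ → ∃ (a : Set.Iio g) (y : A a), y ≠ ⊥ ∧ e a y ≤ x) : LimTop (rg e) g := by
  refine ⟨fun _ h => absurd h hc, fun _ h => absurd h hc, ?_⟩
  intro _ _ x hx
  obtain ⟨a, y, hy, hyx⟩ := h1 x hx
  refine ⟨a.1, a.2, e a y, ⟨a.2, y, rfl⟩, ?_, hyx⟩
  rw [Ne, (he a).eq_bot_iff]
  exact hy

end

private theorem E2D_fin (st : Ordinal.{0} → St) {g : Ordinal.{0}} (hg : Order.IsSuccLimit g)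
    (hsmall : ∀ b, b < g → Small.{0} (st b).X) (hne : (⊥ : (st 0).X) ≠ ⊤)
    (F : DSys (Set.Iio g) (fun a => (st a.1).X)) (hFv : ∀ a b hab x, (F.f a b hab x).1 = x.1)
    (C : Type 1) [CompleteBooleanAlgebra C] (e : ∀ a : Set.Iio g, (st a.1).X → C)
    (he : ∀ a, CEmb (e a)) (hF : ∀ a b (h : a ≤ b) x, e b (F.f a b h x) = e a x)
    (hC : Small.{0} C) (hL : LimTop (rg e) g) :
    ∃ s : St, Small.{0} s.X ∧ (⊥ : s.X) ≠ ⊤ ∧ (∀ b, b < g → (st b).Sub s) ∧
      LimTop (fun b => St.im (st b) s) g := by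
  have hinc : ∀ (i k : Set.Iio g), i ≤ k → ∀ (x : (st i.1).X) (y : (st k.1).X),
      e i x = e k y ↔ x.1 = y.1 := by
    intro i k hik x y
    rw [← hF i k hik x, (he k).inj.eq_iff, ← hFv i k hik x]
    exact Subtype.ext_iff
  have hval : ∀ (i k : Set.Iio g) (x : (st i.1).X) (y : (st k.1).X),
      e i x = e k y ↔ x.1 = y.1 := by
    intro i k x y
    rcases le_total i k with h | h
    · exact hinc i k h x y
    · rw [eq_comm, hinc k i h y x, eq_comm]
  have hsm : Small.{0} (Set.Iio g) := inferInstance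
  obtain ⟨s, hs, θ, hθ⟩ := exists_glue (ι := Set.Iio g) (fun a => st a.1)
    (fun a => hsmall a.1 a.2) hC e hval
  have hsub : ∀ b, b < g → (st b).Sub s := fun b hb =>
    St.sub_of_emb (he ⟨b, hb⟩) θ (hθ ⟨b, hb⟩)
  refine ⟨s, hs, ?_, hsub, ?_⟩
  · intro h
    obtain ⟨h1, h2⟩ := hsub 0 (bot_lt_of_lt (Order.IsSuccLimit.bot_lt hg))
    apply hne
    apply h2.inj
    rw [h2.bot, h2.top, h]
  · have h3 : LimTop (fun b => θ '' rg e b) g := by
      refine hL.iso θ fun b hb => ?_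
      rw [rg_eq e hb]
      exact (he ⟨b, hb⟩).csub_range
    refine h3.congr fun b hb => ?_
    rw [rg_eq e hb]
    exact (St.im_of_emb (e ⟨b, hb⟩) θ (hθ ⟨b, hb⟩)).symm

theorem exists_limit (st : Ordinal.{0} → St) {g : Ordinal.{0}} (hg : Order.IsSuccLimit g)
    (hsmall : ∀ b, b < g → Small.{0} (st b).X) (hne : (⊥ : (st 0).X) ≠ ⊤)
    (hsub : ∀ b c, b ≤ c → c < g → (st b).Sub (st c)) :
    ∃ s : St, Small.{0} s.X ∧ (⊥ : s.X) ≠ ⊤ ∧ (∀ b, b < g → (st b).Sub s) ∧ LimTop (fun b => St.im (st b) s) g := by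
  have hsm : Small.{0} (Set.Iio g) := inferInstance
  have h0 : 0 < g := Order.IsSuccLimit.bot_lt hg
  have hne' : Nonempty (Set.Iio g) := ⟨⟨0, h0⟩⟩
  obtain ⟨F, hFv⟩ := St.exists_dsys (D := Set.Iio g) (fun a => st a.1)
    (fun a b h => hsub a.1 b.1 h b.2)
  by_cases hc : CofW g
  · obtain ⟨C, hCi, e, he, hF, h1, h2, h3⟩ := exists_threads F
    exact E2D_fin st hg hsmall hne F hFv C e he hF (h3 hsm fun a => hsmall a.1 a.2)
      (limtop_threads hc F e he hF h1 h2)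
  · obtain ⟨C, hCi, e, he, hF, h1, h3⟩ := exists_direct F
    exact E2D_fin st hg hsmall hne F hFv C e he hF (h3 hsm fun a => hsmall a.1 a.2)
      (limtop_direct hc e he h1)

end Pool.Agent.CAN
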