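import Pool.Agent.CAN.E1E
import Pool.Agent.CAN.E2A
import Pool.Agent.CAN.E2C

/-!
# CAN/E2E: the successor stage

PROOF of `exists_succ_state`.  If there are `v : I → s.X`, `j`, `c` with `enc (fun i => (v i).1) j c = b`: `hsteps` for `s.X`, `v`, `j` gives `C, e`; `exists_glue` with
`ι = PUnit` gives `t`, `θ : C ≃o t.X`.  `s.Sub t` by `St.sub_of_emb`; `NP (St.im s t) univ` by `St.im_of_emb` and `NP.map` along `θ` (`θ '' univ = univ`);
for the task: any other `(v', j', c')` with the number `b` has `v' = v`, `j' = j` (`henc`, `Subtype.ext`), and `hinv` with `OrderIso.refl`, `θ` gives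
`P s.X t.X _ _ v j (fun x => θ (e x))` and this function is `Set.inclusion h`.  Nontrivial: `CEmb.bot`, `CEmb.top`.
Otherwise `t = s`: `St.Sub.refl`, `St.im_self`, `NP.refl csub_univ`.
-/

set_option autoImplicit false

namespace Pool.Agent.CAN

variable {I J : Type 1}

theorem exists_succ_state {P : TaskRel I J} (hinv : Inv P) (hsteps : Steps P)
    {enc : (I → Pt) → J → Ordinal.{0} → Ordinal.{0}}
    (henc : ∀ t j c t' j' c', enc t j c = enc t' j' c' → t = t' ∧ j = j' ∧ c = c') (b : Ordinal.{0}) (s : St)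
    (hs : Small.{0} s.X) (hne : (⊥ : s.X) ≠ ⊤) (hnp : NP ({⊥, ⊤} : Set s.X) Set.univ) :
    ∃ t : St, Small.{0} t.X ∧ (⊥ : t.X) ≠ ⊤ ∧ s.Sub t ∧ StepOK P enc b s t := by
  by_cases hex : ∃ (v : I → s.X) (j : J) (c : Ordinal.{0}), enc (fun i => (v i).1) j c = b
  · obtain ⟨v, j, c, hb⟩ := hex
    obtain ⟨C, ic, e, hC, he, hnpe, hP⟩ := hsteps s.X s.alg hs hne hnp v j
    obtain ⟨t, ht, θ, hθ⟩ := exists_glue (ι := PUnit.{2}) (fun _ => s) (fun _ => hs) hC (fun _ => e)
      (fun _ _ x y => ⟨fun h => congrArg Subtype.val (he.inj h), fun h => congrArg e (Subtype.ext h)⟩)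
    have hθ' : ∀ x, (θ (e x)).1 = x.1 := hθ PUnit.unit
    refine ⟨t, ht, ?_, St.sub_of_emb he θ hθ', ?_, ?_⟩
    · intro h
      apply hne
      apply he.inj
      rw [he.bot, he.top]
      apply θ.injective
      rw [map_bot, map_top]
      exact h
    · rw [St.im_of_emb e θ hθ', ← Set.image_univ_of_surjective θ.surjective]
      exact NP.map (CEmb.of_orderIso θ) he.csub_range csub_univ hnpe
    · intro v' j' c' hb' h
      obtain ⟨h1, rfl, -⟩ := henc _ _ _ _ _ _ (hb.trans hb'.symm)
      have h2 : v' = v := by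
        funext i
        exact Subtype.ext (congrFun h1 i).symm
      subst h2
      have h3 := hinv s.X C s.alg ic s.X t.X s.alg t.alg (OrderIso.refl _) θ v' j e hP
      have h4 : (fun x => θ (e ((OrderIso.refl s.X).symm x))) = Set.inclusion h := by
        funext x
        exact Subtype.ext (hθ' x)
      rw [h4] at h3
      exact h3
  · refine ⟨s, hs, hne, St.Sub.refl s, ?_, ?_⟩
    · rw [St.im_self]
      exact NP.refl csub_univ
    · intro v j c hb
      exact absurd ⟨v, j, c, hb⟩ hex

end Pool.Agent.CAN
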