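import Pool.Agent.CAN.E2A
import Pool.Agent.CAN.E2C

/-!
# CAN/E2F: the stages form an iteration

* `stage_sub`: `Stage.sub` (and `St.Sub.refl`).
* `stage_chainTo`: by strong induction on `a`.  For `b < a` the induction hypothesis is `ChainTo (fun c => St.im (st c) (st b)) b`; mapped by the inclusion of `(st b).X` into
  `(st a).X` (`ChainTo.map`, `St.image_im`, `ChainTo.congr`): `ChainTo (fun c => St.im (st c) (st a)) b`.  So all fields hold below `a`.
  For `a` itself: `sub`, `mono`: `St.csub_im`, `St.im_mono`; `step b` with `succ b = a`: `(hst a).step`, `St.im_self`; `lim a`: `(hst a).lim`, `LimTop.limAt`, `St.im_self`.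
* `stage_np`: `St.im (st 0) (st a) = {⊥, ⊤}` (`Stage.zero` for `st 0`, `CEmb.bot`, `CEmb.top` of the inclusion), `ChainTo.np`, `St.im_self`.
-/

set_option autoImplicit false

namespace Pool.Agent.CAN

variable {I J : Type 1} {P : TaskRel I J} {enc : (I → Pt) → J → Ordinal.{0} → Ordinal.{0}} {st : Ordinal.{0} → St}
  {a : Ordinal.{0}}

theorem stage_sub (hst : ∀ b, b ≤ a → Stage P enc b st (st b)) {b c : Ordinal.{0}} (hbc : b ≤ c) (hc : c ≤ a) :
    (st b).Sub (st c) := by
  rcases hbc.eq_or_lt with rfl | h
  · exact St.Sub.refl _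
  · exact (hst c hc).sub b h

theorem stage_chainTo (hst : ∀ b, b ≤ a → Stage P enc b st (st b)) : ChainTo (fun b => St.im (st b) (st a)) a := by
  induction a using WellFoundedLT.induction with
  | ind a ih =>
    have key : ∀ c, c < a → ChainTo (fun b => St.im (st b) (st a)) c := by
      intro c hc
      have h1 := ih c hc (fun b hb => hst b (hb.trans hc.le))
      have h2 : (st c).Sub (st a) := stage_sub hst hc.le le_rfl
      obtain ⟨h3, h4⟩ := h2
      refine (h1.map h4).congr ?_
      intro b hb
      exact St.image_im (stage_sub hst hb hc.le).choose h3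
    refine ⟨?_, ?_, ?_, ?_⟩
    · intro b hb
      exact St.csub_im (stage_sub hst hb le_rfl)
    · intro b c hbc hc
      exact St.im_mono (st a) (stage_sub hst hbc hc).choose
    · intro b hb
      rcases (Order.succ_le_of_lt hb).eq_or_lt with h | h
      · have h1 := ((hst a le_rfl).step b h.symm).1
        have h2 : St.im (st (Order.succ b)) (st a) = Set.univ := by
          rw [h]
          exact St.im_self _
        change NP (St.im (st b) (st a)) (St.im (st (Order.succ b)) (st a))
        rw [h2]
        exact h1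
      · exact (key _ h).step b (Order.lt_succ b)
    · intro g hg
      rcases hg.eq_or_lt with rfl | h
      · exact (hst g le_rfl).lim.limAt (St.im_self _)
      · exact (key g h).lim g le_rfl

theorem stage_zero (hst : ∀ b, b ≤ a → Stage P enc b st (st b)) : St.im (st 0) (st a) = {⊥, ⊤} := by
  have h0 : (0 : Ordinal.{0}) ≤ a := zero_le
  obtain ⟨h1, h2⟩ := stage_sub hst h0 le_rfl
  rw [St.im_eq_range h1]
  ext x
  constructor
  · rintro ⟨y, rfl⟩
    rcases (hst 0 h0).zero rfl y with rfl | rfl
    · exact Or.inl h2.bot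
    · exact Or.inr h2.top
  · rintro (rfl | rfl)
    · exact ⟨⊥, h2.bot⟩
    · exact ⟨⊤, h2.top⟩

theorem stage_np (hst : ∀ b, b ≤ a → Stage P enc b st (st b)) : NP ({⊥, ⊤} : Set (st a).X) Set.univ := by
  have h0 : (0 : Ordinal.{0}) ≤ a := zero_le
  have h1 : NP (St.im (st 0) (st a)) (St.im (st a) (st a)) := (stage_chainTo hst).np h0 le_rfl
  rw [stage_zero hst, St.im_self] at h1
  exact h1

end Pool.Agent.CAN
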