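import Pool.Agent.CAN.Defs

/-!
# CAN/E3A: ordinals closed under a function, of uncountable cofinality; unboundedness

* `exists_closed_ord`: replace `h` by the monotone `h' b = ⨆ c : Set.Iic b, h c` (small supremum; `h b ≤ h' b`).  Define by well-founded recursion
  `g ξ = ⨆ η : Set.Iio ξ, succ (max (g η) (h' (g η)))` (`Ordinal.lt_iSup_iff`, `Ordinal.le_iSup` for small index types).  So `g η < g ξ` and `h' (g η) < g ξ` for `η < ξ`.
  `α = g ω₁` (`Ordinal.omega 1`).  If `b < α` then `b ≤ max (g η) (h' (g η)) < g (succ η)` for some `η < ω₁` and `h b ≤ h' (g (succ η)) < g (succ (succ η)) ≤ α`... (`succ η < ω₁`).  `α` is a limit: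
  `b < g (succ η) < α` gives `succ b ≤ g (succ η) < α`.  Not `CofW`: given `f : ℕ → _` with `f n < α` choose `η n < ω₁` with `f n < g (η n)`, `ξ = ⨆ n, η n < ω₁` (regularity of `ω₁`;
  for instance `Ordinal.iSup_sequence_lt_omega_one` or the countability of initial segments), then `f n < g (succ ξ) < α` for all `n`.
* `unbounded_of_injective`: otherwise all values are in `Set.Iio b`, which is small, but `Ordinal.{0}` is not small (`not_small_ordinal` or similar).
-/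

set_option autoImplicit false

namespace Pool.Agent.CAN

theorem bounded_of_small {X : Type 1} [Small.{0} X] (f : X → Ordinal.{0}) : ∃ b, ∀ x, f x ≤ b :=
  ⟨⨆ x, f x, fun x => Ordinal.le_iSup f x⟩

private theorem E3A_seq (k : Ordinal.{0} → Ordinal.{0}) :
    ∃ g : Ordinal.{0} → Ordinal.{0}, (∀ η ξ, η < ξ → k (g η) < g ξ) ∧
      ∀ b ξ, b < g ξ → ∃ η, η < ξ ∧ b ≤ k (g η) := by
  let G : (ξ : Ordinal.{0}) → ((η : Ordinal.{0}) → η < ξ → Ordinal.{0}) → Ordinal.{0} :=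
    fun ξ r => ⨆ η : Set.Iio ξ, Order.succ (k (r η.1 η.2))
  let g : Ordinal.{0} → Ordinal.{0} := (wellFounded_lt (α := Ordinal.{0})).fix G
  have hg : ∀ ξ, g ξ = ⨆ η : Set.Iio ξ, Order.succ (k (g η.1)) := fun ξ =>
    (wellFounded_lt (α := Ordinal.{0})).fix_eq G ξ
  refine ⟨g, fun η ξ h => ?_, fun b ξ h => ?_⟩
  · rw [hg ξ]
    refine (Order.lt_succ _).trans_le ?_
    exact Ordinal.le_iSup (fun η : Set.Iio ξ => Order.succ (k (g η.1))) ⟨η, h⟩
  · rw [hg ξ, Ordinal.lt_iSup_iff] at h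
    obtain ⟨η, hη⟩ := h
    exact ⟨η.1, η.2, Order.lt_succ_iff.1 hη⟩

theorem exists_closed_ord (h : Ordinal.{0} → Ordinal.{0}) :
    ∃ α, Order.IsSuccLimit α ∧ ¬ CofW α ∧ ∀ b, b < α → h b < α := by
  let h' : Ordinal.{0} → Ordinal.{0} := fun b => ⨆ c : Set.Iic b, h c.1
  have hh' : ∀ b, h b ≤ h' b := fun b => Ordinal.le_iSup (fun c : Set.Iic b => h c.1) ⟨b, Set.mem_Iic.2 le_rfl⟩
  have hm : ∀ b c, b ≤ c → h' b ≤ h' c := by
    intro b c hbc
    refine Ordinal.iSup_le fun x => ?_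
    exact Ordinal.le_iSup (fun c : Set.Iic c => h c.1) ⟨x.1, x.2.trans hbc⟩
  let k : Ordinal.{0} → Ordinal.{0} := fun b => max b (h' b)
  obtain ⟨g, hg1, hg2⟩ := E3A_seq k
  have hgl : ∀ η ξ, η < ξ → g η < g ξ := fun η ξ hlt => (le_max_left _ _).trans_lt (hg1 η ξ hlt)
  have hgh : ∀ η ξ, η < ξ → h' (g η) < g ξ := fun η ξ hlt => (le_max_right _ _).trans_lt (hg1 η ξ hlt)
  have hlim := Cardinal.isSuccLimit_omega.{0} 1
  -- every smaller ordinal is below some `g η`
  have key : ∀ b, b < g (Ordinal.omega 1) → ∃ η, η < Ordinal.omega 1 ∧ b < g η := by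
    intro b hb
    obtain ⟨η, hη, hle⟩ := hg2 b _ hb
    exact ⟨Order.succ η, hlim.succ_lt hη, hle.trans_lt (hg1 η _ (Order.lt_succ η))⟩
  refine ⟨g (Ordinal.omega 1), ?_, ?_, ?_⟩
  · refine ⟨?_, Order.isSuccPrelimit_of_succ_lt fun b hb => ?_⟩
    · intro hmin
      have h0 : (0 : Ordinal.{0}) < Ordinal.omega 1 := Ordinal.omega_pos 1
      exact absurd (hgl 0 _ h0) (not_lt.2 (hmin (hgl 0 _ h0).le))
    · obtain ⟨η, hη, hlt⟩ := key b hb
      exact (Order.succ_le_of_lt hlt).trans_lt (hgl η _ hη)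
  · rintro ⟨f, hf1, hf2⟩
    choose η hη hlt using fun n => key (f n) (hf1 n)
    have h1 : (⨆ n, η n) < Ordinal.omega 1 := Ordinal.iSup_lt_omega_one hη
    obtain ⟨n, hn⟩ := hf2 (g (⨆ n, η n)) (hgl _ _ h1)
    have h2 : g (η n) ≤ g (⨆ n, η n) := by
      rcases (Ordinal.le_iSup η n).lt_or_eq with h3 | h3
      · exact (hgl _ _ h3).le
      · rw [← h3]
    exact absurd (hn.trans_lt (hlt n)) (not_lt.2 h2)
  · intro b hb
    obtain ⟨η, hη, hlt⟩ := key b hb
    exact ((hh' b).trans (hm b _ hlt.le)).trans_lt (hgh η _ hη)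

theorem unbounded_of_injective {f : Ordinal.{0} → Ordinal.{0}} (hf : Function.Injective f) (b : Ordinal.{0}) :
    ∃ c, b ≤ f c := by
  by_contra hcon
  push Not at hcon
  have h1 : Small.{0} Ordinal.{0} :=
    small_of_injective (f := fun c => (⟨f c, hcon c⟩ : Set.Iio b)) fun x y hxy => hf (congrArg Subtype.val hxy)
  exact not_small_ordinal.{0, 0} h1

end Pool.Agent.CAN
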