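import Pool.Agent.CAN.E3A
import Pool.Agent.CAN.PRA

/-!
# CAN/E3B: antichains of the union of an iteration are small; the union is everything

PROOF of `antichain_bounded`.  For `b : Ordinal.{0}`: for each `y ∈ S b` with `∃ w ∈ W, y ⊓ w ≠ ⊥` choose such a `w` and an ordinal `c y` with
`w ∈ S (c y)`; `h b` an upper bound of the `c y` (`bounded_of_small`, `S b` is small).  So (*) if `y ∈ S b` and `y ⊓ w ≠ ⊥` for some `w ∈ W` then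
there is such a `w ∈ W ∩ S (h b)` (`hS.mono`).  `α` from `exists_closed_ord`.  Claim `W ⊆ S α`.  Let `w ∈ W`, `z = proj (S α) w ∈ S α`, `z ≠ ⊥`.
(**) every `u ∈ S α` with `⊥ ≠ u ≤ z` has `u ⊓ w ≠ ⊥` (otherwise `w ≤ uᶜ ∈ S α`, `z ≤ uᶜ`, `u ≤ uᶜ`).
By `hS.direct α` there are `b < α`, `y ∈ S b`, `⊥ ≠ y ≤ z`.  By (**) and (*) there is `w' ∈ W ∩ S (h b)` with `y ⊓ w' ≠ ⊥`; `h b < α` so `w' ∈ S α` and
`y ⊓ w' ∈ S α` is `≤ z`; by (**) `y ⊓ w' ⊓ w ≠ ⊥`, so `w' = w` by `hdis`.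
PROOF of `exists_mem_chain`.  By Zorn (`zorn_subset`) let `W` be a maximal set of pairwise disjoint nonzero elements of `⋃ a, S a` below `x`.  `sSup W = x`: otherwise
there is a nonzero `y ≤ x ⊓ (sSup W)ᶜ` in some `S a` (`hd`) and `insert y W` is larger.  `W ⊆ S a` for some `a`, so `x ∈ S a`.
-/

set_option autoImplicit false

namespace Pool.Agent.CAN

variable {B : Type 1} [CompleteBooleanAlgebra B] {S : Ordinal.{0} → Set B}

theorem antichain_bounded (hS : Chain S) (hsmall : ∀ a, Small.{0} (S a)) (W : Set B)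
    (hW : ∀ w ∈ W, w ≠ ⊥ ∧ ∃ a, w ∈ S a) (hdis : ∀ w ∈ W, ∀ w' ∈ W, w ≠ w' → w ⊓ w' = ⊥) : ∃ a, W ⊆ S a := by
  have h1 : ∀ b : Ordinal.{0}, ∃ hb : Ordinal.{0}, ∀ y ∈ S b, (∃ w ∈ W, y ⊓ w ≠ ⊥) →
      ∃ w ∈ W, w ∈ S hb ∧ y ⊓ w ≠ ⊥ := by
    intro b
    have h2 : ∀ y : S b, ∃ c : Ordinal.{0}, (∃ w ∈ W, y.1 ⊓ w ≠ ⊥) →
        ∃ w ∈ W, w ∈ S c ∧ y.1 ⊓ w ≠ ⊥ := by
      intro y
      by_cases h : ∃ w ∈ W, y.1 ⊓ w ≠ ⊥
      · obtain ⟨w, hw, hyw⟩ := h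
        obtain ⟨c, hc⟩ := (hW w hw).2
        exact ⟨c, fun _ => ⟨w, hw, hc, hyw⟩⟩
      · exact ⟨0, fun h' => absurd h' h⟩
    choose c hc using h2
    have := hsmall b
    obtain ⟨hb, hhb⟩ := bounded_of_small c
    refine ⟨hb, fun y hy h => ?_⟩
    obtain ⟨w, hw, hwc, hyw⟩ := hc ⟨y, hy⟩ h
    exact ⟨w, hw, hS.mono _ _ (hhb ⟨y, hy⟩) hwc, hyw⟩
  choose h hh using h1
  obtain ⟨α, hlim, hcof, hcl⟩ := exists_closed_ord h
  refine ⟨α, fun w hw => ?_⟩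
  have hA := hS.sub α
  have key : ∀ u ∈ S α, u ≠ ⊥ → u ≤ proj (S α) w → u ⊓ w ≠ ⊥ := by
    intro u hu hu0 huz h0
    apply hu0
    have h3 : w ≤ uᶜ := by
      rw [le_compl_iff_disjoint_left, disjoint_iff, h0]
    have h4 : proj (S α) w ≤ uᶜ := proj_le (hA.compl u hu) h3
    have h5 : u ≤ uᶜ := huz.trans h4
    exact le_bot_iff.1 (by
      calc u ≤ u ⊓ uᶜ := le_inf le_rfl h5
        _ = ⊥ := inf_compl_eq_bot)
  have hz : proj (S α) w ≠ ⊥ := fun h0 => (hW w hw).1 (proj_eq_bot h0)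
  obtain ⟨b, hb, y, hy, hy0, hyz⟩ := hS.direct α hlim hcof _ (proj_mem hA w) hz
  have hyα : y ∈ S α := hS.mono _ _ hb.le hy
  obtain ⟨w', hw', hw'S, hyw'⟩ := hh b y hy ⟨w, hw, key y hyα hy0 hyz⟩
  have hw'α : w' ∈ S α := hS.mono _ _ (hcl b hb).le hw'S
  have h6 := key (y ⊓ w') (hA.and hyα hw'α) hyw' (inf_le_left.trans hyz)
  have h7 : w' = w := by
    by_contra hne
    apply h6
    rw [inf_assoc, hdis w' hw' w hw hne, inf_bot_eq]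
  rw [← h7]
  exact hw'α

theorem exists_mem_chain (hS : Chain S) (hsmall : ∀ a, Small.{0} (S a))
    (hd : ∀ x : B, x ≠ ⊥ → ∃ a, ∃ y ∈ S a, y ≠ ⊥ ∧ y ≤ x) (x : B) : ∃ a, x ∈ S a := by
  obtain ⟨W, hW⟩ := zorn_subset {W : Set B | (∀ w ∈ W, w ≠ ⊥ ∧ (∃ a, w ∈ S a) ∧ w ≤ x) ∧
    ∀ w ∈ W, ∀ w' ∈ W, w ≠ w' → w ⊓ w' = ⊥} (by
    intro c hc hchain
    refine ⟨⋃₀ c, ⟨?_, ?_⟩, fun s hs => Set.subset_sUnion_of_mem hs⟩
    · rintro w ⟨s, hs, hws⟩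
      exact (hc hs).1 w hws
    · rintro w ⟨s, hs, hws⟩ w' ⟨s', hs', hws'⟩ hne
      rcases hchain.total hs hs' with h | h
      · exact (hc hs').2 w (h hws) w' hws' hne
      · exact (hc hs).2 w hws w' (h hws') hne)
  have hWp := hW.prop
  obtain ⟨a, ha⟩ := antichain_bounded hS hsmall W (fun w hw => ⟨(hWp.1 w hw).1, (hWp.1 w hw).2.1⟩)
    hWp.2
  refine ⟨a, ?_⟩
  have hsup : sSup W = x := by
    apply le_antisymm (sSup_le fun w hw => (hWp.1 w hw).2.2)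
    by_contra hcon
    have h1 : x ⊓ (sSup W)ᶜ ≠ ⊥ := by
      intro h0
      apply hcon
      rw [← disjoint_iff, disjoint_compl_right_iff] at h0
      exact h0
    obtain ⟨b, y, hy, hy0, hyx⟩ := hd _ h1
    have h2 : insert y W ∈ {W : Set B | (∀ w ∈ W, w ≠ ⊥ ∧ (∃ a, w ∈ S a) ∧ w ≤ x) ∧
        ∀ w ∈ W, ∀ w' ∈ W, w ≠ w' → w ⊓ w' = ⊥} := by
      have h3 : ∀ w ∈ W, y ⊓ w = ⊥ := by
        intro w hw
        refine le_bot_iff.1 ?_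
        calc y ⊓ w ≤ (sSup W)ᶜ ⊓ sSup W := inf_le_inf (hyx.trans inf_le_right) (le_sSup hw)
          _ = ⊥ := compl_inf_eq_bot
      refine ⟨?_, ?_⟩
      · rintro w (rfl | hw)
        · exact ⟨hy0, ⟨b, hy⟩, hyx.trans inf_le_left⟩
        · exact hWp.1 w hw
      · rintro w (rfl | hw) w' (rfl | hw') hne
        · exact absurd rfl hne
        · exact h3 w' hw'
        · rw [inf_comm]
          exact h3 w hw
        · exact hWp.2 w hw w' hw' hne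
    have h4 : y ∈ W := hW.le_of_ge h2 (Set.subset_insert y W) (Set.mem_insert y W)
    apply hy0
    refine le_bot_iff.1 ?_
    calc y ≤ sSup W ⊓ (sSup W)ᶜ := le_inf (le_sSup h4) (hyx.trans inf_le_right)
      _ = ⊥ := inf_compl_eq_bot
  rw [← hsup]
  exact (hS.sub a).sup W ha

theorem chain_cover (hS : Chain S) (hsmall : ∀ a, Small.{0} (S a))
    (hd : ∀ x : B, x ≠ ⊥ → ∃ a, ∃ y ∈ S a, y ≠ ⊥ ∧ y ≤ x) (X : Set B) (hX : Small.{0} X) : ∃ a, X ⊆ S a := by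
  choose a ha using exists_mem_chain hS hsmall hd
  obtain ⟨b, hb⟩ := bounded_of_small (fun x : X => a x.1)
  exact ⟨b, fun x hx => hS.mono _ _ (hb ⟨x, hx⟩) (ha x)⟩

end Pool.Agent.CAN
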