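import Pool.Agent.CAN.E0D

/-!
# CAN/E3C: numbering of the tasks

`K = Ordinal.{0}` has cardinality `univ.{0, 1}`, which is infinite, so `#(K × K) = #K`.  Every `t : I → K` (`I` small) is bounded: `t ∈ I → Set.Iio b` for some `b`, and
`I → Set.Iio b` is a small type, so it has an injection `φ b` into `K` (the cardinality of a small type is `< univ`: `Cardinal.small_iff_lift_mk_lt_univ`, or directly: a small
type is equivalent to some `X : Type`, which injects into `Ordinal.{0}` by a well-order).  `t ↦ (b, φ b t)` is injective into `K × K`.  So there is an injection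
`(I → K) → K`, and for small `J` an injection `(I → K) × J × K → K × K × K → K`.  `Pt ≃ K`.
-/

set_option autoImplicit false

namespace Pool.Agent.CAN

private theorem e3c_inj (X : Type 1) [Small.{0} X] : ∃ f : X → Ordinal.{0}, Function.Injective f := by
  refine ⟨fun x => Ordinal.typein (WellOrderingRel (α := Shrink.{0} X)) (equivShrink X x), ?_⟩
  intro x y h
  exact (equivShrink X).injective (Ordinal.typein_injective _ h)

private theorem e3c_pair : ∃ p : Ordinal.{0} × Ordinal.{0} → Ordinal.{0}, Function.Injective p := by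
  have : Infinite Ordinal.{0} := by
    refine Infinite.of_injective (fun n : ℕ => (n : Ordinal.{0})) ?_
    intro m n h
    exact Nat.cast_injective h
  have h : Cardinal.mk (Ordinal.{0} × Ordinal.{0}) = Cardinal.mk Ordinal.{0} := by
    rw [Cardinal.mk_prod, Cardinal.lift_id]
    exact Cardinal.mul_eq_self (Cardinal.aleph0_le_mk _)
  obtain ⟨e⟩ := Cardinal.eq.1 h
  exact ⟨e, e.injective⟩

private theorem e3c_fun (I : Type 1) [Small.{0} I] : ∃ f : (I → Ordinal.{0}) → Ordinal.{0}, Function.Injective f := by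
  obtain ⟨p, hp⟩ := e3c_pair
  have hφ : ∀ b : Ordinal.{0}, ∃ f : (I → Set.Iio b) → Ordinal.{0}, Function.Injective f := fun b =>
    e3c_inj (I → Set.Iio b)
  choose φ hφ using hφ
  let bd : (I → Ordinal.{0}) → Ordinal.{0} := fun t => ⨆ i, Order.succ (t i)
  have hbd : ∀ t i, t i < bd t := fun t i =>
    lt_of_lt_of_le (Order.lt_succ (t i)) (Ordinal.le_iSup (fun i => Order.succ (t i)) i)
  refine ⟨fun t => p (bd t, φ (bd t) (fun i => ⟨t i, hbd t i⟩)), ?_⟩
  intro t t' h
  have h1 := hp h
  rw [Prod.mk.injEq] at h1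
  obtain ⟨h2, h3⟩ := h1
  have key : ∀ (b b' : Ordinal.{0}) (u : I → Set.Iio b) (u' : I → Set.Iio b'), b = b' → φ b u = φ b' u' →
      ∀ i, (u i).1 = (u' i).1 := by
    intro b b' u u' hb hu i
    subst hb
    rw [hφ b hu]
  funext i
  exact key _ _ _ _ h2 h3 i

theorem exists_task_enc (I J : Type 1) [Small.{0} I] [Small.{0} J] :
    ∃ enc : (I → Pt) → J → Ordinal.{0} → Ordinal.{0},
      ∀ t j c t' j' c', enc t j c = enc t' j' c' → t = t' ∧ j = j' ∧ c = c' := by
  obtain ⟨p, hp⟩ := e3c_pair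
  obtain ⟨F, hF⟩ := e3c_fun I
  obtain ⟨G, hG⟩ := e3c_inj J
  refine ⟨fun t j c => p (F (fun i => (t i).o), p (G j, c)), ?_⟩
  intro t j c t' j' c' h
  have h1 := hp h
  rw [Prod.mk.injEq] at h1
  obtain ⟨h2, h3⟩ := h1
  have h4 := hp h3
  rw [Prod.mk.injEq] at h4
  obtain ⟨h5, h6⟩ := h4
  refine ⟨?_, hG h5, h6⟩
  have h7 := hF h2
  funext i
  have h8 := congrFun h7 i
  have h9 : ∀ a b : Pt, a.o = b.o → a = b := by
    rintro ⟨a⟩ ⟨b⟩ h
    exact congrArg Pt.mk h
  exact h9 _ _ h8

end Pool.Agent.CAN
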