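import Pool.Agent.CAN.E2D
import Pool.Agent.CAN.E2E
import Pool.Agent.CAN.E2F

/-!
# CAN/E3D: the recursion

* `exists_rec`: let `step a f` be a chosen `s` with `Q a f s` if there is one (any element of `σ` otherwise: `σ` is nonempty by `h 0` applied to ... use
  `Classical.epsilon` or `[Nonempty σ]`), and `f` the function with `f a = step a (fun b => if b < a then f b else default)` (well-founded recursion, `WellFounded.fix` for `<` on
  `Ordinal.{0}`, `WellFounded.fix_eq`).  By strong induction `Q a f (f a)`, with `congr`.
* `stage_congr`: all fields depend only on `st b`, `b < a` (rewrite with `h b hb`; `LimTop.congr`).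
* `exists_stage`: `a = 0`: `exists_zero_state` (no `b < 0`, no `b` with `0 = succ b`, `0` is not a limit: the fields of `LimTop` are vacuous).  `a = succ b`: `exists_succ_state` for
  `st b` with `stage_np`; `s.Sub` for smaller indices by `stage_sub` and `St.Sub.trans`.  `a` a limit: `exists_limit`.
-/

set_option autoImplicit false

namespace Pool.Agent.CAN

theorem exists_rec {σ : Type 1} [Nonempty σ] (Q : Ordinal.{0} → (Ordinal.{0} → σ) → σ → Prop)
    (congr : ∀ a f g s, (∀ b, b < a → f b = g b) → Q a f s → Q a g s)
    (h : ∀ a f, (∀ b, b < a → Q b f (f b)) → ∃ s, Q a f s) : ∃ f : Ordinal.{0} → σ, ∀ a, Q a f (f a) := by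
  classical
  let d : σ := Classical.arbitrary σ
  let F : Ordinal.{0} → σ := WellFounded.fix (C := fun _ => σ) (wellFounded_lt (α := Ordinal.{0}))
    (fun a ih => Classical.epsilon (fun s => Q a (fun b => if hb : b < a then ih b hb else d) s))
  have hF : ∀ a, F a = Classical.epsilon (fun s => Q a (fun b => if b < a then F b else d) s) := by
    intro a
    have h1 : F a = Classical.epsilon (fun s => Q a (fun b => if _ : b < a then F b else d) s) :=
      WellFounded.fix_eq _ _ _
    exact h1
  refine ⟨F, fun a => ?_⟩
  induction a using WellFoundedLT.induction with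
  | ind a ih =>
    have hcong : ∀ b, b < a → (fun c => if c < a then F c else d) b = F b := fun b hb => if_pos hb
    have hex : ∃ s, Q a (fun b => if b < a then F b else d) s := by
      refine h a _ ?_
      intro b hb
      have h2 := ih b hb
      rw [← hcong b hb] at h2
      refine congr b F _ _ ?_ h2
      intro c hc
      exact (hcong c (hc.trans hb)).symm
    have h3 := Classical.epsilon_spec hex
    rw [← hF a] at h3
    exact congr a _ F _ hcong h3

section
variable {I J : Type 1}

theorem stage_congr {P : TaskRel I J} {enc : (I → Pt) → J → Ordinal.{0} → Ordinal.{0}} {a : Ordinal.{0}}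
    {st st' : Ordinal.{0} → St} {s : St} (h : ∀ b, b < a → st b = st' b) (hs : Stage P enc a st s) :
    Stage P enc a st' s := by
  refine ⟨hs.small, hs.nontriv, ?_, hs.zero, ?_, ?_⟩
  · intro b hb
    rw [← h b hb]
    exact hs.sub b hb
  · intro b hb
    have hlt : b < a := by
      rw [hb]
      exact Order.lt_succ b
    rw [← h b hlt]
    exact hs.step b hb
  · refine LimTop.congr ?_ hs.lim
    intro b hb
    simp only [h b hb]

theorem exists_stage {P : TaskRel I J} (hinv : Inv P) (hsteps : Steps P)
    {enc : (I → Pt) → J → Ordinal.{0} → Ordinal.{0}}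
    (henc : ∀ t j c t' j' c', enc t j c = enc t' j' c' → t = t' ∧ j = j' ∧ c = c') (a : Ordinal.{0})
    (st : Ordinal.{0} → St) (hst : ∀ b, b < a → Stage P enc b st (st b)) : ∃ s, Stage P enc a st s := by
  have hle : ∀ c, c < a → ∀ b, b ≤ c → Stage P enc b st (st b) := fun c hc b hb => hst b (lt_of_le_of_lt hb hc)
  rcases Ordinal.zero_or_succ_or_isSuccLimit a with ha | ha | ha
  · obtain ⟨s, h1, h2, h3⟩ := exists_zero_state
    refine ⟨s, h1, h2, ?_, fun _ => h3, ?_, ?_⟩
    · intro b hb
      rw [ha] at hb
      exact absurd hb (not_lt.2 (zero_le))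
    · intro b hb
      rw [ha] at hb
      exact absurd (hb ▸ Order.lt_succ b) (not_lt.2 (zero_le))
    · have hn : ¬ Order.IsSuccLimit a := by
        rw [ha]
        exact fun h => h.1 isMin_bot
      exact ⟨fun h => absurd h hn, fun h => absurd h hn, fun h => absurd h hn⟩
  · obtain ⟨b, rfl⟩ := ha
    have hb : b < Order.succ b := Order.lt_succ b
    have hsb := hst b hb
    obtain ⟨t, h1, h2, h3, h4⟩ := exists_succ_state hinv hsteps henc b (st b) hsb.small hsb.nontriv
      (stage_np (hle b hb))
    refine ⟨t, h1, h2, ?_, ?_, ?_, ?_⟩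
    · intro c hc
      exact (stage_sub (hle b hb) (Order.lt_succ_iff.1 hc) le_rfl).trans h3
    · intro h
      exact absurd (h ▸ hb) (not_lt.2 (zero_le))
    · intro c hc
      have := Order.succ_injective hc
      subst this
      exact h4
    · have hn : ¬ Order.IsSuccLimit (Order.succ b) := fun h => h.2.succ_ne b rfl
      exact ⟨fun h => absurd h hn, fun h => absurd h hn, fun h => absurd h hn⟩
  · have h0 : (0 : Ordinal.{0}) < a := by
      refine lt_of_le_of_ne (zero_le) ?_
      intro h
      rw [← h] at ha
      exact ha.1 isMin_bot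
    obtain ⟨s, h1, h2, h3, h4⟩ := exists_limit st ha (fun b hb => (hst b hb).small) (hst 0 h0).nontriv
      (fun b c hbc hc => stage_sub (hle c hc) hbc le_rfl)
    refine ⟨s, h1, h2, h3, ?_, ?_, h4⟩
    · intro h
      exact absurd (h ▸ h0) (lt_irrefl _)
    · intro b hb
      exact absurd hb.symm (ha.2.succ_ne b)

theorem exists_stages {P : TaskRel I J} (hinv : Inv P) (hsteps : Steps P)
    {enc : (I → Pt) → J → Ordinal.{0} → Ordinal.{0}}
    (henc : ∀ t j c t' j' c', enc t j c = enc t' j' c' → t = t' ∧ j = j' ∧ c = c') :
    ∃ st : Ordinal.{0} → St, ∀ a, Stage P enc a st (st a) := by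
  have : Nonempty St := ⟨exists_zero_state.choose⟩
  exact exists_rec (fun a st s => Stage P enc a st s) (fun a f g s h hs => stage_congr h hs)
    (fun a f hf => exists_stage hinv hsteps henc a f hf)

end

end Pool.Agent.CAN
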