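import Pool.Agent.CAN.E3B
import Pool.Agent.CAN.E3D

/-!
# CAN/E4A: the union algebra

PROOF.  `F` from `St.exists_dsys` for `st` itself (`stage_sub`), `C, e` from `exists_direct`, `S a = range (e a)`.
* `ChainTo S a`: `stage_chainTo` mapped by `e a` (`ChainTo.map`): for `b ≤ a`, `e a '' St.im (st b) (st a) = range (e b)` (`St.im_eq_range`, `e a (F.f b a _ x) = e b x`); `ChainTo.congr`.
  `chain_of_to`.
* `S 0 = {⊥, ⊤}`: `Stage.zero`, `CEmb.bot`, `CEmb.top`.  Small: `S a` is the image of a small type.  Nontrivial: `CEmb.bot`, `CEmb.top` and `Stage.nontriv`.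
* `chain_cover` gives the covering of small sets.
-/

set_option autoImplicit false

namespace Pool.Agent.CAN

variable {I J : Type 1}

theorem exists_union {P : TaskRel I J} {enc : (I → Pt) → J → Ordinal.{0} → Ordinal.{0}} {st : Ordinal.{0} → St}
    (hst : ∀ a, Stage P enc a st (st a)) :
    ∃ (B : Type 1) (_ : CompleteBooleanAlgebra B) (e : ∀ a, (st a).X → B), (∀ a, CEmb (e a)) ∧
      (∀ a b (x : (st a).X) (y : (st b).X), x.1 = y.1 → e a x = e b y) ∧
      (⊥ : B) ≠ ⊤ ∧ Chain (fun a => Set.range (e a)) ∧ Set.range (e 0) = {⊥, ⊤} ∧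
      (∀ a, Small.{0} (Set.range (e a))) ∧ ∀ X : Set B, Small.{0} X → ∃ a, X ⊆ Set.range (e a) := by
  have hsub : ∀ a b, a ≤ b → (st a).Sub (st b) := fun a b hab =>
    stage_sub (a := b) (fun c _ => hst c) hab le_rfl
  obtain ⟨F, hF⟩ := St.exists_dsys st hsub
  obtain ⟨C, hC, e, he, hcomp, hdense, -⟩ := exists_direct F
  have heq : ∀ a b (x : (st a).X) (y : (st b).X), x.1 = y.1 → e a x = e b y := by
    have key : ∀ a b (_ : a ≤ b) (x : (st a).X) (y : (st b).X), x.1 = y.1 → e a x = e b y := by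
      intro a b hab x y hxy
      rw [← hcomp a b hab x]
      congr 1
      apply Subtype.ext
      rw [hF a b hab x]
      exact hxy
    intro a b x y hxy
    rcases le_total a b with h | h
    · exact key a b h x y hxy
    · exact (key b a h y x hxy.symm).symm
  have hchain : Chain (fun a => Set.range (e a)) := by
    refine chain_of_to fun a => ?_
    refine ChainTo.congr ?_ (ChainTo.map (he a) (stage_chainTo (a := a) (fun b _ => hst b)))
    intro b hb
    obtain ⟨hX, -⟩ := hsub b a hb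
    ext z
    constructor
    · rintro ⟨x, hx, rfl⟩
      exact ⟨⟨x.1, hx⟩, heq b a ⟨x.1, hx⟩ x rfl⟩
    · rintro ⟨x, rfl⟩
      exact ⟨⟨x.1, hX x.2⟩, x.2, heq a b ⟨x.1, hX x.2⟩ x rfl⟩
  have hsmall : ∀ a, Small.{0} (Set.range (e a)) := by
    intro a
    have := (hst a).small
    exact small_range (e a)
  have hd : ∀ x : C, x ≠ ⊥ → ∃ a, ∃ y ∈ Set.range (e a), y ≠ ⊥ ∧ y ≤ x := by
    intro x hx
    obtain ⟨a, y, hy, hyx⟩ := hdense x hx
    exact ⟨a, e a y, ⟨y, rfl⟩, fun h => hy ((he a).eq_bot_iff.1 h), hyx⟩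
  refine ⟨C, hC, e, he, heq, ?_, hchain, ?_, hsmall, fun X hX => chain_cover hchain hsmall hd X hX⟩
  · intro h
    rw [← (he 0).bot, ← (he 0).top] at h
    exact (hst 0).nontriv ((he 0).inj h)
  · ext z
    constructor
    · rintro ⟨x, rfl⟩
      rcases (hst 0).zero rfl x with h | h
      · left
        rw [h]
        exact (he 0).bot
      · right
        rw [h]
        exact (he 0).top
    · rintro (h | h)
      · exact ⟨⊥, by rw [h]; exact (he 0).bot⟩
      · exact ⟨⊤, by rw [h]; exact (he 0).top⟩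

end Pool.Agent.CAN
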