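import Pool.Agent.CAN.E3C
import Pool.Agent.CAN.E4A

/-!
# CAN/E4B: the recursion theorem

PROOF of `recursion`.  `enc` from `exists_task_enc`, `st` from `exists_stages`, `B, e` from `exists_union`, `S a = range (e a)`.  The task `(t, j)`, `b`: `range t` is small, so
`t i ∈ range (e a0)` for all `i`, some `a0`; `t i = e a0 (u i)`.  `c ↦ enc (fun i => (u i).1) j c` is injective, so (`unbounded_of_injective`) some `c` has
`a = enc (fun i => (u i).1) j c ≥ max a0 b`.  `v i : (st a).X` is the point `(u i).1` (`stage_sub`, `a0 ≤ a`), `e a (v i) = t i`.  `(hst (succ a)).step a rfl` gives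
`P (st a).X (st (succ a)).X _ _ v j (Set.inclusion h)`.  `full_task_transfer`: `range_iso` gives `θ : (st a).X ≃o S a`, `θ' : (st (succ a)).X ≃o S (succ a)` (the order of
`CSub.alg` is the order of the subtype, so these are isomorphisms for it); apply `hinv` and compare the functions (`Subtype.ext`).
-/

set_option autoImplicit false

namespace Pool.Agent.CAN

variable {I J : Type 1}

theorem full_task_transfer {P : TaskRel I J} (hinv : Inv P) {A C B : Type 1} [ia : CompleteBooleanAlgebra A]
    [ic : CompleteBooleanAlgebra C] [CompleteBooleanAlgebra B] {e : A → B} {e' : C → B} (he : CEmb e) (he' : CEmb e')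
    {i : A → C} (hi : ∀ x, e' (i x) = e x) {S S' : Set B} (hS : Set.range e = S) (hS' : Set.range e' = S')
    (hA : CSub S) (hC : CSub S') (hsub : S ⊆ S') {v : I → A} {j : J} {t : I → B} (hv : ∀ k, e (v k) = t k)
    (h : P A C ia ic v j i) :
    ∃ t' : I → S, (∀ k, (t' k).1 = t k) ∧ P S S' hA.alg hC.alg t' j (Set.inclusion hsub) := by
  obtain ⟨θ, hθ⟩ := range_iso he hS
  obtain ⟨θ', hθ'⟩ := range_iso he' hS'
  refine ⟨fun k => θ (v k), fun k => (hθ _).trans (hv k), ?_⟩
  have h3 := hinv A C ia ic S S' hA.alg hC.alg θ θ' v j i h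
  have h4 : (fun x => θ' (i (θ.symm x))) = Set.inclusion hsub := by
    funext x
    apply Subtype.ext
    rw [hθ', hi, ← hθ, θ.apply_symm_apply]
  rw [← h4]
  exact h3

theorem recursion (I J : Type 1) [Small.{0} I] [Small.{0} J] : Recursion I J := by
  intro P hinv hsteps
  obtain ⟨enc, henc⟩ := exists_task_enc I J
  obtain ⟨st, hst⟩ := exists_stages hinv hsteps henc
  obtain ⟨B, iB, e, he, hee, hne, hchain, hzero, hsmall, hcover⟩ := exists_union hst
  refine ⟨B, iB, fun a => Set.range (e a), hne, hchain, hzero, hsmall, hcover, ?_⟩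
  intro t j b
  obtain ⟨a0, ha0⟩ := hcover (Set.range t) inferInstance
  have hu : ∀ k, ∃ u, e a0 u = t k := fun k => ha0 ⟨k, rfl⟩
  choose u hu using hu
  have hinj : Function.Injective (fun c => enc (fun k => (u k).1) j c) := fun c c' h =>
    (henc _ _ _ _ _ _ h).2.2
  obtain ⟨c, hc⟩ := unbounded_of_injective hinj (max a0 b)
  obtain ⟨a, ha⟩ : ∃ a, a = enc (fun k => (u k).1) j c := ⟨_, rfl⟩
  have hc' : max a0 b ≤ a := ha ▸ hc
  refine ⟨a, (le_max_right _ _).trans hc', ?_⟩
  obtain ⟨h1, -⟩ := stage_sub (a := a) (fun b _ => hst b) ((le_max_left _ _).trans hc') le_rfl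
  obtain ⟨h2, -⟩ := stage_sub (a := Order.succ a) (fun b _ => hst b) (Order.le_succ a) le_rfl
  have hP := ((hst (Order.succ a)).step a rfl).2 (fun k => Set.inclusion h1 (u k)) j c ha.symm h2
  exact full_task_transfer hinv (he a) (he (Order.succ a)) (fun x => hee (Order.succ a) a (Set.inclusion h2 x) x rfl)
    rfl rfl (hchain.sub a) (hchain.sub (Order.succ a)) (hchain.mono a (Order.succ a) (Order.le_succ a))
    (fun k => (hee a a0 (Set.inclusion h1 (u k)) (u k) rfl).trans (hu k)) hP

end Pool.Agent.CAN
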