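import Pool.Agent.CAN.TDefs

/-!
# CAN: the interface with the recursion theorem (part E) (definitions)

* `CSub.alg`: the complete Boolean algebra structure of a complete subalgebra.
* `Rel`: relations `P A C t j e` between a complete Boolean algebra `A`, a task `(t, j)` over `A` (`t : I → A`, `j : J`), and
  a map `e : A → C` into a complete Boolean algebra `C` (meaning: `C` handles the task `(t, j)` over `A`).
* `Inv P`: invariance under isomorphisms.
* `Steps P`: every task over every small algebra can be handled by a small nice extension.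
* `Full P B S`: `S` is an iteration with union `B`, all tasks over `B` are handled.
* `Recursion`: the recursion theorem: `Inv P → Steps P → ∃ B S, Full P B S`.
-/

set_option autoImplicit false

namespace Pool.Agent.CAN

section
variable {B : Type 1} [CompleteBooleanAlgebra B] {A : Set B}

private theorem EI_inf (h : CSub A) {s : Set B} (hs : s ⊆ A) : sInf s ∈ A := by
  have h1 : (sSup ((fun x : B => xᶜ) '' s))ᶜ ∈ A := by
    refine h.compl _ (h.sup _ ?_)
    rintro _ ⟨x, hx, rfl⟩
    exact h.compl _ (hs hx)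
  have h2 : (sSup ((fun x : B => xᶜ) '' s))ᶜ = sInf s := by
    rw [sSup_image, compl_iSup, sInf_eq_iInf]
    refine iInf_congr fun x => ?_
    rw [compl_iSup]
    refine iInf_congr fun _ => ?_
    rw [compl_compl]
  rw [← h2]
  exact h1

/-- The complete Boolean algebra structure of a complete subalgebra (all operations as in the big algebra). -/
@[instance_reducible]
noncomputable def CSub.alg (h : CSub A) : CompleteBooleanAlgebra A :=
  { (inferInstance : PartialOrder A) with
    sup := fun x y => ⟨x.1 ⊔ y.1, by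
      rw [← sSup_pair]
      exact h.sup _ (by rintro z (rfl | rfl); exacts [x.2, y.2])⟩
    le_sup_left := fun x y => (le_sup_left : x.1 ≤ x.1 ⊔ y.1)
    le_sup_right := fun x y => (le_sup_right : y.1 ≤ x.1 ⊔ y.1)
    sup_le := fun x y z hx hy => (sup_le hx hy : x.1 ⊔ y.1 ≤ z.1)
    inf := fun x y => ⟨x.1 ⊓ y.1, by
      rw [← sInf_pair]
      exact EI_inf h (by rintro z (rfl | rfl); exacts [x.2, y.2])⟩
    inf_le_left := fun x y => (inf_le_left : x.1 ⊓ y.1 ≤ x.1)
    inf_le_right := fun x y => (inf_le_right : x.1 ⊓ y.1 ≤ y.1)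
    le_inf := fun x y z hx hy => (le_inf hx hy : x.1 ≤ y.1 ⊓ z.1)
    le_sup_inf := fun x y z => (le_sup_inf : (x.1 ⊔ y.1) ⊓ (x.1 ⊔ z.1) ≤ x.1 ⊔ y.1 ⊓ z.1)
    sSup := fun s => ⟨sSup (Subtype.val '' s), h.sup _ (by rintro _ ⟨x, _, rfl⟩; exact x.2)⟩
    sInf := fun s => ⟨sInf (Subtype.val '' s), EI_inf h (by rintro _ ⟨x, _, rfl⟩; exact x.2)⟩
    isLUB_sSup := fun s => ⟨fun x hx => (le_sSup ⟨x, hx, rfl⟩ : x.1 ≤ sSup (Subtype.val '' s)),
      fun y hy => (sSup_le (by rintro _ ⟨x, hx, rfl⟩; exact hy hx) : sSup (Subtype.val '' s) ≤ y.1)⟩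
    isGLB_sInf := fun s => ⟨fun x hx => (sInf_le ⟨x, hx, rfl⟩ : sInf (Subtype.val '' s) ≤ x.1),
      fun y hy => (le_sInf (by rintro _ ⟨x, hx, rfl⟩; exact hy hx) : y.1 ≤ sInf (Subtype.val '' s))⟩
    top := ⟨⊤, by
      have := h.compl _ (h.sup ∅ (Set.empty_subset _))
      simpa using this⟩
    bot := ⟨⊥, by
      have := h.sup ∅ (Set.empty_subset _)
      simpa using this⟩
    le_top := fun x => (le_top : x.1 ≤ ⊤)
    bot_le := fun x => (bot_le : ⊥ ≤ x.1)
    compl := fun x => ⟨x.1ᶜ, h.compl _ x.2⟩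
    himp := fun x y => ⟨y.1 ⊔ x.1ᶜ, by
      rw [← sSup_pair]
      exact h.sup _ (by rintro z (rfl | rfl); exacts [y.2, h.compl _ x.2])⟩
    sdiff := fun x y => ⟨x.1 ⊓ y.1ᶜ, by
      rw [← sInf_pair]
      exact EI_inf h (by rintro z (rfl | rfl); exacts [x.2, h.compl _ y.2])⟩
    sdiff_eq := fun _ _ => rfl
    himp_eq := fun _ _ => rfl
    inf_compl_le_bot := fun x => (inf_compl_self x.1).le
    top_le_sup_compl := fun x => (sup_compl_eq_top (x := x.1)).ge }

theorem CSub.alg_emb (h : CSub A) : letI := h.alg; CEmb (Subtype.val : A → B) :=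
  letI := h.alg
  { inj := Subtype.val_injective
    sup := fun _ => rfl
    compl := fun _ => rfl }

end

variable (I J : Type 1)

/-- Relations between an algebra, a task over it, and a map into an algebra. -/
def TaskRel : Type 2 :=
  ∀ (A C : Type 1) (_ : CompleteBooleanAlgebra A) (_ : CompleteBooleanAlgebra C), (I → A) → J → (A → C) → Prop

variable {I J}

/-- Invariance under isomorphisms of both algebras. -/
def Inv (P : TaskRel I J) : Prop :=
  ∀ (A C : Type 1) (a : CompleteBooleanAlgebra A) (c : CompleteBooleanAlgebra C)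
    (A' C' : Type 1) (a' : CompleteBooleanAlgebra A') (c' : CompleteBooleanAlgebra C')
    (f : A ≃o A') (g : C ≃o C') (t : I → A) (j : J) (e : A → C),
    P A C a c t j e → P A' C' a' c' (fun i => f (t i)) j (fun x => g (e (f.symm x)))

/-- Every task over a small algebra (which is nice over the two-element algebra) is handled by a small nice
extension. -/
def Steps (P : TaskRel I J) : Prop :=
  ∀ (A : Type 1) (a : CompleteBooleanAlgebra A), Small.{0} A → (⊥ : A) ≠ ⊤ →
    NP ({⊥, ⊤} : Set A) Set.univ → ∀ (t : I → A) (j : J),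
    ∃ (C : Type 1) (c : CompleteBooleanAlgebra C) (e : A → C), Small.{0} C ∧ CEmb e ∧
      NP (Set.range e) Set.univ ∧ P A C a c t j e

/-- `S` is an iteration with union `B`, in which all tasks are handled. -/
structure Full (P : TaskRel I J) (B : Type 1) [CompleteBooleanAlgebra B] (S : Ordinal.{0} → Set B) : Prop where
  nontriv : (⊥ : B) ≠ ⊤
  chain : Chain S
  zero : S 0 = {⊥, ⊤}
  small : ∀ a, Small.{0} (S a)
  cover : ∀ X : Set B, Small.{0} X → ∃ a, X ⊆ S a
  task : ∀ (t : I → B) (j : J) (b : Ordinal.{0}), ∃ a, b ≤ a ∧ ∃ t' : I → S a, (∀ i, (t' i).1 = t i) ∧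
    P (S a) (S (Order.succ a)) (chain.sub a).alg (chain.sub (Order.succ a)).alg t' j
      (Set.inclusion (chain.mono a (Order.succ a) (Order.le_succ a)))

/-- The recursion theorem (proved in part E for small `I` and `J`). -/
def Recursion (I J : Type 1) : Prop :=
  ∀ P : TaskRel I J, Inv P → Steps P → ∃ (B : Type 1) (_ : CompleteBooleanAlgebra B) (S : Ordinal.{0} → Set B),
    Full P B S

end Pool.Agent.CAN
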