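import Pool.Agent.CAN.Defs

/-!
# CAN/EVA: the quantifier `Ev`

`Ev p` means that there is an operation `F` such that `p M` for all countable sets `M ∋ ∅` closed under `F`.

THE COMBINED OPERATION.  Given `H : ℕ → ZFSet → ZFSet → ZFSet` we want ONE operation `K` with
`Mdl K M → ∀ n, Mdl (H n) M`.  Let `nz 0 = ∅`, `nz (n+1) = insert (nz n) (nz n)` and
* `K ∅ y = {y}`;
* `K {a} y = pair a y`;
* if `x = pair (nz n) (pair ∅ x')`: `K x y = insert x' x'` for `n = 0` and `K x y = H (n-1) x' y` for `n > 0`;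
* `K x y = ∅` otherwise.
The cases exclude each other: a pair `pair a b = {{a}, {a, b}}` is not empty, it is a singleton only if `a = b`, and
`pair ∅ x'` does not contain `∅`, so it is not `nz n` (`nz 0 = ∅`, `∅ ∈ nz (n+1)`).  `n` and `x'` are determined by `x`
(`ZFSet.pair_inj`, `nz` is injective).  If `Mdl K M` then `M` is closed under singletons, pairs, `insert x x`, contains
all `nz n`, and hence is closed under each `H n`.  (Any other coding is welcome.)

* `Ev.and`, `Ev.all_nat`: combine.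
* `Ev.diag`: choose `F x` for `x : T` and use the operation `H u y = F x x' y` if `u = pair (cd x) x'`, and `∅` otherwise, together
  with pairing.  If `x ∈ₘ M` then `M` is closed under `F x`.
* `Ev.list`: finite lists are coded by nested pairs `[] ↦ ∅`, `z :: l ↦ pair z (code l)`; the code of a list with entries in
  `M` is in `M`; use the operation `u ↦ f (decode u)`.
* `Ev.const x`: use the constant operation `cd x` (an operation with `F x y = cd x`, and `∅ ∈ M`).
-/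

set_option autoImplicit false

namespace Pool.Agent.CAN

/-- numerals -/
private noncomputable def EVA_nz (n : ℕ) : ZFSet.{1} := enc (ULift.{1} ℕ) ⟨n⟩

private theorem EVA_nz_inj : Function.Injective EVA_nz := fun _ _ h =>
  congrArg ULift.down ((exists_enc (ULift.{1} ℕ)).choose_spec h)

/-- tagged sets -/
private noncomputable def EVA_t (p : ℕ × ZFSet.{1}) : ZFSet.{1} := ZFSet.pair (EVA_nz p.1) p.2

private theorem EVA_t_inj : Function.Injective EVA_t := by
  rintro ⟨n, x⟩ ⟨n', x'⟩ h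
  have h' := ZFSet.pair_inj.mp h
  exact Prod.ext (EVA_nz_inj h'.1) h'.2

private theorem EVA_t_ne (p : ℕ × ZFSet.{1}) : EVA_t p ≠ ∅ := by
  intro h
  have h1 : ({EVA_nz p.1} : ZFSet.{1}) ∈ EVA_t p := by
    show ({EVA_nz p.1} : ZFSet.{1}) ∈ ({{EVA_nz p.1}, {EVA_nz p.1, p.2}} : ZFSet.{1})
    rw [ZFSet.mem_pair]
    exact Or.inl rfl
  rw [h] at h1
  exact ZFSet.notMem_empty _ h1

open Classical in
/-- the combined operation -/
private noncomputable def EVA_K (H : ℕ → ZFSet.{1} → ZFSet.{1} → ZFSet.{1}) (x y : ZFSet.{1}) :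
    ZFSet.{1} :=
  (Function.partialInv EVA_t x).elim (EVA_t (0, y)) fun p =>
    if p.1 % 2 = 0 then (if y = ∅ then EVA_t (p.1 + 1, p.2) else EVA_t (p.1 + 2, p.2))
    else H (p.1 / 2) p.2 y

private theorem EVA_K_empty (H : ℕ → ZFSet.{1} → ZFSet.{1} → ZFSet.{1}) (y : ZFSet.{1}) :
    EVA_K H ∅ y = EVA_t (0, y) := by
  have h : Function.partialInv EVA_t (∅ : ZFSet.{1}) = none := by
    unfold Function.partialInv
    rw [dif_neg]
    rintro ⟨p, hp⟩
    exact EVA_t_ne p hp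
  unfold EVA_K
  rw [h]
  rfl

open Classical in
private theorem EVA_K_t (H : ℕ → ZFSet.{1} → ZFSet.{1} → ZFSet.{1}) (n : ℕ) (x y : ZFSet.{1}) :
    EVA_K H (EVA_t (2 * n + 1, x)) y = H n x y := by
  unfold EVA_K
  rw [Function.partialInv_left EVA_t_inj]
  show (if (2 * n + 1) % 2 = 0 then (if y = ∅ then EVA_t (2 * n + 1 + 1, x) else EVA_t (2 * n + 1 + 2, x))
      else H ((2 * n + 1) / 2) x y) = H n x y
  rw [if_neg (by omega), show (2 * n + 1) / 2 = n by omega]

open Classical in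
private theorem EVA_K_t0 (H : ℕ → ZFSet.{1} → ZFSet.{1} → ZFSet.{1}) (n : ℕ) (x : ZFSet.{1}) :
    EVA_K H (EVA_t (2 * n, x)) ∅ = EVA_t (2 * n + 1, x) := by
  unfold EVA_K
  rw [Function.partialInv_left EVA_t_inj]
  show (if (2 * n) % 2 = 0 then (if (∅ : ZFSet.{1}) = ∅ then EVA_t (2 * n + 1, x) else EVA_t (2 * n + 2, x))
      else H ((2 * n) / 2) x ∅) = _
  rw [if_pos (by omega), if_pos rfl]

open Classical in
private theorem EVA_K_t1 (H : ℕ → ZFSet.{1} → ZFSet.{1} → ZFSet.{1}) (n : ℕ) (x : ZFSet.{1})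
    {y : ZFSet.{1}} (hy : y ≠ ∅) : EVA_K H (EVA_t (2 * n, x)) y = EVA_t (2 * (n + 1), x) := by
  unfold EVA_K
  rw [Function.partialInv_left EVA_t_inj]
  show (if (2 * n) % 2 = 0 then (if y = ∅ then EVA_t (2 * n + 1, x) else EVA_t (2 * n + 2, x))
      else H ((2 * n) / 2) x y) = _
  rw [if_pos (by omega), if_neg hy]
  rfl

private theorem EVA_combine (H : ℕ → ZFSet.{1} → ZFSet.{1} → ZFSet.{1}) :
    ∃ K : ZFSet.{1} → ZFSet.{1} → ZFSet.{1}, ∀ M, Mdl K M → ∀ n, Mdl (H n) M := by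
  refine ⟨EVA_K H, fun M hM n => ⟨hM.ctbl, hM.zero, fun x hx y hy => ?_⟩⟩
  have h0 : ∀ z ∈ M, EVA_t (0, z) ∈ M := fun z hz => by
    rw [← EVA_K_empty H z]
    exact hM.op _ hM.zero _ hz
  have h1 : ∀ k, EVA_t (2 * k, x) ∈ M := by
    intro k
    induction k with
    | zero => exact h0 x hx
    | succ k ih =>
      rw [← EVA_K_t1 H k x (EVA_t_ne (0, ∅))]
      exact hM.op _ ih _ (h0 ∅ hM.zero)
  have h2 : EVA_t (2 * n + 1, x) ∈ M := by
    rw [← EVA_K_t0 H n x]
    exact hM.op _ (h1 n) _ hM.zero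
  rw [← EVA_K_t H n x y]
  exact hM.op _ h2 _ hy

private theorem EVA_two (F G : ZFSet.{1} → ZFSet.{1} → ZFSet.{1}) :
    ∃ K : ZFSet.{1} → ZFSet.{1} → ZFSet.{1}, ∀ M, Mdl K M → Mdl F M ∧ Mdl G M := by
  obtain ⟨K, hK⟩ := EVA_combine (fun n => if n = 0 then F else G)
  refine ⟨K, fun M hM => ⟨?_, ?_⟩⟩
  · have := hK M hM 0
    rwa [if_pos rfl] at this
  · have := hK M hM 1
    rwa [if_neg one_ne_zero] at this

/-- codes of lists -/
private def EVA_l : List ZFSet.{1} → ZFSet.{1}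
  | [] => ∅
  | z :: l => ZFSet.pair z (EVA_l l)

private theorem EVA_pair_ne (x y : ZFSet.{1}) : ZFSet.pair x y ≠ ∅ := by
  intro h
  have h1 : ({x} : ZFSet.{1}) ∈ ZFSet.pair x y := by
    show ({x} : ZFSet.{1}) ∈ ({{x}, {x, y}} : ZFSet.{1})
    rw [ZFSet.mem_pair]
    exact Or.inl rfl
  rw [h] at h1
  exact ZFSet.notMem_empty _ h1

private theorem EVA_l_inj : Function.Injective EVA_l := by
  intro l
  induction l with
  | nil =>
    intro l' h
    cases l' with
    | nil => rfl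
    | cons z l' => exact absurd h.symm (EVA_pair_ne _ _)
  | cons z l ih =>
    intro l' h
    cases l' with
    | nil => exact absurd h (EVA_pair_ne _ _)
    | cons z' l' =>
      have h' := ZFSet.pair_inj.mp h
      rw [h'.1, ih h'.2]

theorem Ev.mono {p q : ZFSet.{1} → Prop} (hp : Ev p) (h : ∀ M, p M → q M) : Ev q :=
  ⟨hp.choose, fun M hM => h M (hp.choose_spec M hM)⟩

theorem Ev.and {p q : ZFSet.{1} → Prop} (hp : Ev p) (hq : Ev q) : Ev (fun M => p M ∧ q M) := by
  obtain ⟨F, hF⟩ := hp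
  obtain ⟨G, hG⟩ := hq
  obtain ⟨K, hK⟩ := EVA_two F G
  exact ⟨K, fun M hM => ⟨hF M (hK M hM).1, hG M (hK M hM).2⟩⟩

theorem Ev.all_nat {p : ℕ → ZFSet.{1} → Prop} (h : ∀ n, Ev (p n)) : Ev (fun M => ∀ n, p n M) := by
  choose H hH using h
  obtain ⟨K, hK⟩ := EVA_combine H
  exact ⟨K, fun M hM n => hH n M (hK M hM n)⟩

theorem Ev.diag {T : Type*} [Cod T] {p : T → ZFSet.{1} → Prop} (h : ∀ x, Ev (p x)) :
    Ev (fun M => ∀ x : T, InM x M → p x M) := by
  choose F hF using h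
  have hinj : Function.Injective (fun u : T × ZFSet.{1} => ZFSet.pair (cd u.1) u.2) := by
    rintro ⟨x, y⟩ ⟨x', y'⟩ h
    have h' := ZFSet.pair_inj.mp h
    exact Prod.ext (Cod.inj h'.1) h'.2
  obtain ⟨K, hK⟩ := EVA_two (fun a b => ZFSet.pair a b) (fun u y =>
    (Function.partialInv (fun u : T × ZFSet.{1} => ZFSet.pair (cd u.1) u.2) u).elim ∅
      fun p => F p.1 p.2 y)
  refine ⟨K, fun M hM x hx => hF x M ⟨hM.ctbl, hM.zero, fun u hu y hy => ?_⟩⟩
  have h1 : ZFSet.pair (cd x) u ∈ M := (hK M hM).1.op _ hx _ hu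
  have h2 := (hK M hM).2.op _ h1 _ hy
  have h3 := Function.partialInv_left hinj (x, u)
  simp only at h3
  rw [h3] at h2
  exact h2

theorem Ev.list (f : List ZFSet.{1} → ZFSet.{1}) :
    Ev (fun M => ∀ l : List ZFSet.{1}, (∀ z ∈ l, z ∈ M) → f l ∈ M) := by
  obtain ⟨K, hK⟩ := EVA_two (fun a b => ZFSet.pair a b) (fun u _ =>
    (Function.partialInv EVA_l u).elim ∅ f)
  refine ⟨K, fun M hM l hl => ?_⟩
  have h1 : ∀ l : List ZFSet.{1}, (∀ z ∈ l, z ∈ M) → EVA_l l ∈ M := by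
    intro l
    induction l with
    | nil => exact fun _ => hM.zero
    | cons z l ih =>
      intro h
      exact (hK M hM).1.op _ (h z List.mem_cons_self) _ (ih fun w hw => h w (List.mem_cons_of_mem z hw))
  have h2 := (hK M hM).2.op _ (h1 l hl) _ hM.zero
  simp only [Function.partialInv_left EVA_l_inj] at h2
  exact h2

theorem Ev.const {T : Type*} [Cod T] (x : T) : Ev (fun M => InM x M) :=
  ⟨fun _ _ => cd x, fun _ hM => hM.op _ hM.zero _ hM.zero⟩

theorem Ev.mdl (F : ZFSet.{1} → ZFSet.{1} → ZFSet.{1}) : Ev (Mdl F) :=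
  ⟨F, fun _ h => h⟩

/-- A countable set of conditions on the operation has a common refinement. -/
theorem exists_common {p q : ZFSet.{1} → Prop} (hp : Ev p) (hq : Ev q) :
    ∃ F : ZFSet.{1} → ZFSet.{1} → ZFSet.{1}, ∀ M, Mdl F M → p M ∧ q M :=
  hp.and hq

end Pool.Agent.CAN
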