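import Pool.Agent.CAN.EVA

/-!
# CAN/EVK: the quantifier `Ev` for countable index types (shared by the parts G and S)
-/

set_option autoImplicit false

namespace Pool.Agent.CAN

/-- The quantifier `Ev` commutes with countable conjunctions. -/
theorem Ev.all_ctbl {ι : Type*} [Countable ι] {p : ι → ZFSet.{1} → Prop} (h : ∀ i, Ev (p i)) :
    Ev (fun M => ∀ i, p i M) := by
  rcases isEmpty_or_nonempty ι with hι | hι
  · exact ⟨fun x _ => x, fun M _ i => isEmptyElim i⟩
  · obtain ⟨f, hf⟩ := exists_surjective_nat ι
    refine (Ev.all_nat fun n => h (f n)).mono ?_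
    intro M hM i
    obtain ⟨n, rfl⟩ := hf i
    exact hM n

end Pool.Agent.CAN
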