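import Pool.Agent.CAN.Defs

/-!
# CAN/EVX: existence of models

Let `C 0 = P ∪ {∅}` and `C (n+1) = C n ∪ {F x y | x, y ∈ C n}`: countable sets of `ZFSet`s.  Their union `C` is
countable and closed under `F`.  A countable set of `ZFSet.{1}`s is small, so there is `M : ZFSet.{1}` with `x ∈ M ↔ x ∈ C`: if
`C` is the range of `e : ℕ → ZFSet.{1}`, take `M = ZFSet.range e` (`ZFSet.mem_range`; `Small.{1} ℕ` holds).
-/

set_option autoImplicit false

namespace Pool.Agent.CAN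

/-- A countable set of sets is a set. -/
theorem exists_zf {C : Set ZFSet.{1}} (hC : C.Countable) : ∃ M : ZFSet.{1}, ∀ x, x ∈ M ↔ x ∈ C := by
  haveI : Countable C := hC.to_subtype
  refine ⟨ZFSet.range (fun x : C => x.1), fun x => ?_⟩
  rw [ZFSet.mem_range]
  simp

/-- The closure stages. -/
private def EVX_C (F : ZFSet.{1} → ZFSet.{1} → ZFSet.{1}) (P : Set ZFSet.{1}) : ℕ → Set ZFSet.{1}
  | 0 => P ∪ {∅}
  | n + 1 => EVX_C F P n ∪ Set.image2 F (EVX_C F P n) (EVX_C F P n)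

private theorem EVX_ctbl (F : ZFSet.{1} → ZFSet.{1} → ZFSet.{1}) {P : Set ZFSet.{1}} (hP : P.Countable) (n : ℕ) :
    (EVX_C F P n).Countable := by
  induction n with
  | zero => exact hP.union (Set.countable_singleton _)
  | succ n ih => exact ih.union (ih.image2 ih F)

private theorem EVX_mono (F : ZFSet.{1} → ZFSet.{1} → ZFSet.{1}) (P : Set ZFSet.{1}) : Monotone (EVX_C F P) :=
  monotone_nat_of_le_succ fun _ => Set.subset_union_left

theorem exists_mdl (F : ZFSet.{1} → ZFSet.{1} → ZFSet.{1}) {P : Set ZFSet.{1}} (hP : P.Countable) :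
    ∃ M, Mdl F M ∧ ∀ x ∈ P, x ∈ M := by
  have hc : (⋃ n, EVX_C F P n).Countable := Set.countable_iUnion fun n => EVX_ctbl F hP n
  obtain ⟨M, hM⟩ := exists_zf hc
  refine ⟨M, ⟨?_, ?_, ?_⟩, ?_⟩
  · have : {x | x ∈ M} = ⋃ n, EVX_C F P n := by
      ext x
      exact hM x
    rw [this]
    exact hc
  · rw [hM]
    exact Set.mem_iUnion.2 ⟨0, Or.inr rfl⟩
  · intro x hx y hy
    rw [hM] at hx hy ⊢
    obtain ⟨m, hm⟩ := Set.mem_iUnion.1 hx
    obtain ⟨n, hn⟩ := Set.mem_iUnion.1 hy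
    refine Set.mem_iUnion.2 ⟨max m n + 1, Or.inr ?_⟩
    exact Set.mem_image2_of_mem (EVX_mono F P (le_max_left m n) hm) (EVX_mono F P (le_max_right m n) hn)
  · intro x hx
    rw [hM]
    exact Set.mem_iUnion.2 ⟨0, Or.inl hx⟩

end Pool.Agent.CAN
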