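import Pool.Agent.CAN.Defs

/-!
# CAN: the facts about the final Boolean algebra (interface between the iteration and the model)

`B` is a complete Boolean algebra in `Type 1`; a function
`x : Om → B` is a name for a subset of `Om`, `x α` is the truth value of `α ∈ x`.
-/

namespace Pool.Agent.CAN
universe u v

section
variable {B : Type u} [CompleteBooleanAlgebra B]

/-- `R a b n m` (`a ≤ b`) is the truth value of: the predecessor of the node `n` of level `b` at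
level `a` is the node `m` of level `a`.  `b₀` forces that this is a tree of height `ω₁` whose levels
are indexed by `ℕ`. -/
structure Sys (R : Om → Om → ℕ → ℕ → B) (b₀ : B) : Prop where
  tot : ∀ a b, a ≤ b → ∀ n, b₀ ≤ ⨆ m, R a b n m
  uniq : ∀ a b n m m', a ≤ b → m ≠ m' → b₀ ⊓ R a b n m ⊓ R a b n m' = ⊥
  refl : ∀ a n, b₀ ≤ R a a n n
  comp : ∀ a b c n m k, a ≤ b → b ≤ c → b₀ ⊓ R b c n m ⊓ R a b m k ≤ R a c n k

/-- `b₀` forces that the system `R` has no branch of length `ω₁`. -/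
def NoBr (R : Om → Om → ℕ → ℕ → B) (b₀ : B) : Prop :=
  ∀ x : Om → ℕ → B, ∀ b ≤ b₀, (∀ a, b ≤ ⨆ n, x a n) →
    (∀ a c n m, a ≤ c → b ⊓ x c n ⊓ x a m ≤ R a c n m) → b = ⊥

/-- Truth value of: `x` is unbounded in `Om`. -/
def unbV (x : Om → B) : B := ⨅ a, ⨆ b : {b : Om // a < b}, x b.1

/-- Truth value of: `x` is closed in `Om` (every nonzero `a`, below which `x` is unbounded, is in
`x`). -/
def closV (x : Om → B) : B :=
  ⨅ a : {a : Om // ∃ b : Om, b < a},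
    (⨅ b : {b : Om // b < a.1}, ⨆ c : {c : Om // b.1 < c ∧ c < a.1}, x c.1) ⇨ x a.1

/-- Truth value of: `x` is closed unbounded in `Om`. -/
def clubV (x : Om → B) : B := unbV x ⊓ closV x

/-- Truth value of: `x` is an unbounded chain of the relation `T`. -/
def chainV (T : Om → Om → B) (x : Om → B) : B :=
  unbV x ⊓ ⨅ a, ⨅ b : {b : Om // a ≠ b}, (x a ⊓ x b.1) ⇨ (T a b.1 ⊔ T b.1 a)

/-- Closed bounded subsets of `Om`. -/
structure CB where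
  s : Set Om
  bdd : ∃ a, ∀ b ∈ s, b ≤ a
  closed : ∀ a : Om, (∃ b, b < a) → (∀ b < a, ∃ c ∈ s, b < c ∧ c < a) → a ∈ s

/-- End extension. -/
instance : LE CB := ⟨fun c' c => c.s ⊆ c'.s ∧ ∀ a ∈ c'.s, a ∉ c.s → ∀ b ∈ c.s, b < a⟩

/-- Truth value of: `c` is disjoint from `S`. -/
def goodV (S : Om → B) (c : CB) : B := ⨅ a : ↥c.s, (S a.1)ᶜ

/-- Conditions of the two step iteration `B * (shoot a club through the complement of S)`. -/
def QQ (S : Om → B) : Type _ := {p : B × CB // p.1 ≠ ⊥ ∧ p.1 ≤ goodV S p.2}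

instance (S : Om → B) : LE (QQ S) := ⟨fun p q => p.1.1 ≤ q.1.1 ∧ p.1.2 ≤ q.1.2⟩

/-- `p` forces (in the two step iteration) that the name `x` is an unbounded chain of `T`
(`x a` is the set of the conditions putting `a` into the chain). -/
structure ForcesChain (S : Om → B) (T : Om → Om → B) (x : Om → Set (QQ S)) (p : QQ S) : Prop where
  unb : ∀ a : Om, ∀ q ≤ p, ∃ r ≤ q, ∃ b > a, ∃ t ∈ x b, r ≤ t
  chain : ∀ a b : Om, a ≠ b → ∀ q ≤ p, (∃ t ∈ x a, q ≤ t) → (∃ t ∈ x b, q ≤ t) →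
    q.1.1 ⊓ (T a b ⊔ T b a) ≠ ⊥

end

/-- The facts about the final algebra. -/
structure Facts (B : Type 1) [CompleteBooleanAlgebra B] : Prop where
  nontriv : (⊥ : B) ≠ ⊤
  dist : Distr (Set.univ : Set B)
  /-- CH: a name for a function from `Om` onto the reals -/
  ch : ∃ g : Om → ℕ → B, ∀ A : Set ℕ, ⨆ a, ((⨅ n ∈ A, g a n) ⊓ ⨅ n ∈ Aᶜ, (g a n)ᶜ) = ⊤
  /-- every Aronszajn tree restricted to a club is special -/
  special : ∀ (R : Om → Om → ℕ → ℕ → B) (b₀ : B), Sys R b₀ → NoBr R b₀ →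
    ∃ (C : Om → B) (f : Om → ℕ → ℚ → B), b₀ ≤ clubV C ∧
      (∀ a n, b₀ ⊓ C a ≤ ⨆ q, f a n q) ∧
      ∀ a b n m q r, a < b → b₀ ⊓ C a ⊓ C b ⊓ R a b n m ⊓ f a m q ⊓ f b n r ≠ ⊥ → q < r
  /-- no canary trees -/
  canary : ∀ (T : Om → Om → B) (b₀ : B), b₀ ≠ ⊥ → (∀ x : Om → B, b₀ ⊓ chainV T x = ⊥) →
    ∃ S : Om → B, (∀ C : Om → B, clubV C ≤ ⨆ a, C a ⊓ S a) ∧
      (∀ (p : QQ S) (D : ℕ → Set (QQ S)), (∀ n, ∀ q, ∃ r ≤ q, r ∈ D n) →
        (∀ n, ∀ q ∈ D n, ∀ r ≤ q, r ∈ D n) → ∃ q ≤ p, ∀ n, q ∈ D n) ∧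
      (∀ (p : QQ S) (a : Om), ∃ q ≤ p, ∃ b ∈ q.1.2.s, a < b) ∧
      ∃ p : QQ S, p.1.1 ≤ b₀ ∧ ∀ x : Om → Set (QQ S), ∀ q ≤ p, ¬ ForcesChain S T x q

end Pool.Agent.CAN
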