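import Pool.Agent.CAN.GRI
import Pool.Agent.CAN.DEL
import Pool.Agent.CAN.DIS
import Pool.Agent.FBZ.DK

/-!
# CAN/GOM: `ω₁` of the model is `del M`

* `ev_choose`: let `b = ⨅ n, ⨆ t, F n t`.  By `ev_inf1`/`ev_sup1`/`ev_infN` (or directly `ev_sup`, `ev_inf` with `Ev.diag`) `b ∈ U`.  Let
  `D = insert bᶜ {r | ∃ g : ℕ → T, ∀ n, r ≤ F n (g n)}`; `sSup D = ⊤` by `Distr.witness` (below every nonzero `q ≤ b` there is a
  nonzero `r` of the second kind), `D ∈ₘ M` (a function of `F`), so some `r ∈ U` is of the second kind (`bᶜ ∉ U`), and `Ev.wit2` gives `g ∈ₘ M`.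
* `ev_bdd_fun`: let `f` be a function of the model from `ω` to `o0 (del M)`; a name `x` of `f` as a subset of `ω × Om`: use `rep_of` with
  `I = ℕ × Om`, `J (n, a) = pair (nz n) (oz a)`; `F n a = x (n, a)`; by `ev_choose` there is `g : ℕ → Om`, `g ∈ₘ M`, with `pair (nz n) (o0 (g n)) ∈ f` for all `n`.  The range of `g` is countable,
  so it has a bound (`Om.bdd`), which can be chosen in `M` (`Ev.wit1`).
* `ev_omega1`: `Card N ω` is `card_omega` (FBZ/DK).  `Card N (o0 (del M))`: if `f` is a function of the model from `o0 b`, `b < del M`, onto `o0 (del M)` then compose with a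
  surjection `ω → o0 b` of the ground model (or repeat the argument with `F n a = x (e n, a)`, `e : ℕ → Om` an enumeration of `Set.Iio b` in `M`): its range is bounded, contradiction.
  (`b = 0` is trivial.)  `o0 (del M)` is an element of the model: it is the value of the name of the set of all `oz a`, `a : Om` (`mk1` for the constant function `⊤`; `InM a M ↔ a < del M` by `ev_del`).
  If `b < del M` is infinite then there is a surjection `ω → o0 b` in the model (ground model enumeration, `ev_ground`), so `o0 b` is a cardinal of the model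
  only if it is `ω` or finite (for `ω ∈ o0 b` use that surjection).
* `ev_ctble_lt`: `b < del M` is countable in the model, by the same enumeration.
* `omega1_unique`: ordinals `κ`, `κ'` are comparable; if `κ ∈ κ'` then `κ = ω` or `κ ∈ ω`, but `ω ∈ κ`.
-/

set_option autoImplicit false

namespace Pool.Agent.CAN
open ZFSet Pool.Agent.FBZ

theorem omega1_unique {N : Set ZFSet.{0}} {κ κ' : ZFSet.{0}} (h : Omega1 N κ) (h' : Omega1 N κ') : κ = κ' := by
  rcases h.2.1.2.1.mem_trichotomous h'.2.1.2.1 with h1 | h1 | h1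
  · exfalso
    rcases h'.2.2.2 κ h1 h.2.1 with h2 | h2
    · rw [h2] at h
      exact ZFSet.mem_irrefl _ h.2.2.1
    · exact ZFSet.mem_asymm h2 h.2.2.1
  · exact h1
  · exfalso
    rcases h.2.2.2 κ' h1 h'.2.1 with h2 | h2
    · rw [h2] at h'
      exact ZFSet.mem_irrefl _ h'.2.2.1
    · exact ZFSet.mem_asymm h2 h'.2.2.1

/-- the ground model set of the pairs `(n, e n)` -/
private noncomputable def GOM_x (e : ℕ → Om) : ZFSet.{1} :=
  ZFSet.range (fun n : ULift.{1} ℕ => pair (nz n.down) (oz (e n.down)))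

private theorem GOM_mem {e : ℕ → Om} {y : ZFSet.{1}} :
    y ∈ GOM_x e ↔ ∃ n : ℕ, y = pair (nz n) (oz (e n)) := by
  unfold GOM_x
  rw [ZFSet.mem_range]
  constructor
  · rintro ⟨n, rfl⟩
    exact ⟨n.down, rfl⟩
  · rintro ⟨n, rfl⟩
    exact ⟨⟨n⟩, rfl⟩

private theorem GOM_enum (B : Type 1) [CompleteBooleanAlgebra B] :
    Ev (fun M => ∀ U : Set B, GenF Set.univ M U → ∀ b : Om, b < del M → o0 b ≠ ∅ →
      Onto (Nm M U) ZFSet.omega (o0 b)) := by
  refine Ev.mono ((((((((ev_ground B).and ev_ctbl0).and ev_col_pair).and ev_col_nz).and ev_col_oz).and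
    (Ev.fn1 (fun e : ℕ → Om => GOM_x e))).and (Ev.seq Om)).and
    ((Ev.wit1 (fun (b : Om) (e : ℕ → Om) => Set.Iio b = Set.range e)).and ev_del)) ?_
  rintro M ⟨⟨⟨⟨⟨⟨⟨hg, hct, h0⟩, hcp⟩, hcn⟩, hco⟩, hx⟩, hseq⟩, hwit, hdel⟩ U hU b hb hbne
  obtain ⟨e, heM, he⟩ := hwit b ((hdel b).2 hb) (by
    have h1 : (Set.Iio b).Nonempty := by
      by_contra h
      apply hbne
      refine (ZFSet.eq_empty _).2 fun y hy => ?_
      obtain ⟨a, ha, -⟩ := mem_o0.1 hy
      exact h ⟨a, ha⟩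
    exact (Om.Iio_countable b).exists_eq_range h1)
  have hxM : GOM_x e ∈ M := hx e heM
  have hcol : ∀ z : ZFSet.{0}, z ∈ col M (GOM_x e) ↔ ∃ n : ℕ, z = pair (nz n) (o0 (e n)) := by
    intro z
    have hc : ∀ n : ℕ, pair (nz n) (oz (e n)) ∈ M ∧
        col M (pair (nz n) (oz (e n))) = pair (nz n) (o0 (e n)) := by
      intro n
      have ha : InM (e n) M := hseq e heM n
      obtain ⟨h1, h2⟩ := hcp _ (hcn n).1 _ (hco _ ha).1
      rw [(hcn n).2, (hco _ ha).2] at h2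
      exact ⟨h1, h2⟩
    rw [mem_col hct h0]
    constructor
    · rintro ⟨y, -, hy, rfl⟩
      obtain ⟨n, rfl⟩ := GOM_mem.1 hy
      exact ⟨n, (hc n).2⟩
    · rintro ⟨n, rfl⟩
      exact ⟨_, (hc n).1, GOM_mem.2 ⟨n, rfl⟩, (hc n).2.symm⟩
  have hem : ∀ n, o0 (e n) ∈ o0 b := by
    intro n
    have : e n ∈ Set.Iio b := by
      rw [he]
      exact ⟨n, rfl⟩
    exact o0_mem_o0.2 this
  refine ⟨col M (GOM_x e), hg U hU _ hxM, ⟨?_, ?_⟩, ?_⟩
  · intro z hz
    obtain ⟨n, rfl⟩ := (hcol z).1 hz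
    exact ZFSet.pair_mem_prod.2 ⟨mem_omega.2 ⟨n, rfl⟩, hem n⟩
  · intro z hz
    obtain ⟨n, rfl⟩ := mem_omega.1 hz
    refine ⟨o0 (e n), (hcol _).2 ⟨n, rfl⟩, ?_⟩
    intro y hy
    obtain ⟨m, hm⟩ := (hcol _).1 hy
    obtain ⟨h1, h2⟩ := ZFSet.pair_inj.1 hm
    rw [h2, nz_inj.1 h1]
  · intro y hy
    obtain ⟨a, ha, rfl⟩ := mem_o0.1 hy
    have : a ∈ Set.Iio b := ha
    rw [he] at this
    obtain ⟨n, rfl⟩ := this
    exact ⟨nz n, mem_omega.2 ⟨n, rfl⟩, (hcol _).2 ⟨n, rfl⟩⟩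

section
variable (B : Type 1) [CompleteBooleanAlgebra B] (hd : Distr (Set.univ : Set B))
include hd

theorem ev_choose (T : Type 1) : Ev (fun M => ∀ U : Set B, GenF Set.univ M U → ∀ F : ℕ → T → B, InM F M →
    (∀ n, ∃ t, InM t M ∧ F n t ∈ U) → ∃ g : ℕ → T, InM g M ∧ ∀ n, F n (g n) ∈ U) := by
  have key : ∀ F : ℕ → T → B, Ev (fun M => ∀ U : Set B, GenF Set.univ M U →
      (∀ n, ∃ t, InM t M ∧ F n t ∈ U) → ∃ g : ℕ → T, InM g M ∧ ∀ n, F n (g n) ∈ U) := by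
    intro F
    refine Ev.mono (((((((ev_genF (B := B)).and
      (Ev.const (insert (⨅ n, ⨆ t, F n t)ᶜ {r : B | ∃ g : ℕ → T, ∀ n, r ≤ F n (g n)}))).and
      (ev_inf (fun _ : ℕ => (∅ : ZFSet.{1})) (fun n => ⨆ t, F n t))).and
      (Ev.all_nat (fun n => Ev.const (⨆ t, F n t)))).and
      (Ev.wit1 (fun (r : B) (g : ℕ → T) => ∀ n, r ≤ F n (g n)))).and
      (Ev.all_nat (fun n => Ev.fn1 (F n)))).and (Ev.seq T)) ?_
    rintro M ⟨⟨⟨⟨⟨⟨hgen, hD⟩, hinf⟩, hsup⟩, hwit⟩, hFn⟩, hseq⟩ U hU hall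
    have hc := (hgen Set.univ csub_univ U hU).2.2.1
    have hb : (⨅ n, ⨆ t, F n t) ∈ U := by
      refine hinf U hU fun n _ => ?_
      obtain ⟨t, -, ht⟩ := hall n
      exact hU.up _ ht _ (Set.mem_univ _) (hsup n) (le_iSup (F n) t)
    obtain ⟨d, hd, hdU⟩ := hU.meet _ hD (Set.subset_univ _) (by
      by_contra hne
      obtain ⟨r, -, hr0, hrq, hr⟩ := Distr.witness csub_univ hd F (fun _ _ => Set.mem_univ _)
        (q := (sSup (insert (⨅ n, ⨆ t, F n t)ᶜ {r : B | ∃ g : ℕ → T, ∀ n, r ≤ F n (g n)}))ᶜ)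
        (Set.mem_univ _) (by
          intro h
          exact hne (compl_eq_bot.1 h)) (by
          intro n
          refine le_trans ?_ (iInf_le (fun n => ⨆ t, F n t) n)
          rw [compl_le_iff_compl_le]
          exact le_sSup (Set.mem_insert _ _))
      choose g hg using hr
      have h1 : r ≤ sSup (insert (⨅ n, ⨆ t, F n t)ᶜ {r : B | ∃ g : ℕ → T, ∀ n, r ≤ F n (g n)}) :=
        le_sSup (Set.mem_insert_of_mem _ ⟨g, hg⟩)
      exact hr0 (le_bot_iff.1 ((le_inf h1 hrq).trans (inf_compl_self _).le)))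
    rcases hd with rfl | hd
    · exact absurd hdU (hc _ hb)
    · obtain ⟨g, hgM, hg⟩ := hwit d (hU.sub d hdU).2 hd
      exact ⟨g, hgM, fun n => hU.up _ hdU _ (Set.mem_univ _) (hFn n _ (hseq g hgM n)) (hg n)⟩
  refine Ev.mono (Ev.diag key) ?_
  intro M h U hU F hF hall
  exact h F hF U hU hall

/-- Countable subsets of `ω₁` of the model are bounded. -/
theorem ev_bdd_fun : Ev (fun M => ∀ U : Set B, GenF Set.univ M U → ∀ f ∈ Nm M U, ∀ X : ZFSet.{0}, X ⊆ o0 (del M) →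
    Surj f ZFSet.omega X → ∃ a : Om, a < del M ∧ X ⊆ o0 a) := by
  refine Ev.mono ((((((((((rep_of B (fun i : ℕ × Om => pair (nz i.1) (oz i.2))).and
    (ev_choose B hd Om)).and ev_col_pair).and ev_col_nz).and ev_col_oz).and
    (Ev.fn1 (fun (x : ℕ × Om → B) (n : ℕ) (a : Om) => x (n, a)))).and
    (Ev.fn2 (fun (n : ℕ) (a : Om) => ((n, a) : ℕ × Om)))).and Ev.nat).and (Ev.seq Om)).and
    ((Ev.wit1 (fun (g : ℕ → Om) (k : Om) => ∀ n, g n < k)).and ev_del)) ?_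
  rintro M ⟨⟨⟨⟨⟨⟨⟨⟨⟨hrep, hch⟩, hcp⟩, hcn⟩, hco⟩, hF⟩, hpr⟩, hnat⟩, hseq⟩, hwit, hdel⟩ U hU f hf X hX hs
  obtain ⟨x, hxM, hx⟩ := hrep U hU f hf
  have hcol : ∀ (n : ℕ) (a : Om), InM a M → col M (pair (nz n) (oz a)) = pair (nz n) (o0 a) := by
    intro n a ha
    rw [(hcp _ (hcn n).1 _ (hco a ha).1).2, (hcn n).2, (hco a ha).2]
  have hx' : ∀ (n : ℕ) (a : Om), InM a M → (x (n, a) ∈ U ↔ pair (nz n) (o0 a) ∈ f) := by
    intro n a ha
    rw [hx (n, a) (hpr n a (hnat n) ha)]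
    simp only [hcol n a ha]
  obtain ⟨g, hgM, hg⟩ := hch U hU (fun n a => x (n, a)) (hF x hxM) (by
    intro n
    obtain ⟨y, hy, -⟩ := hs.1.2 (nz n) (mem_omega.2 ⟨n, rfl⟩)
    have hyX : y ∈ X := (ZFSet.pair_mem_prod.1 (hs.1.1 hy)).2
    obtain ⟨a, ha, rfl⟩ := mem_o0.1 (hX hyX)
    have haM : InM a M := (hdel a).2 ha
    exact ⟨a, haM, (hx' n a haM).2 hy⟩)
  have hgn : ∀ n, pair (nz n) (o0 (g n)) ∈ f := fun n => (hx' n (g n) (hseq g hgM n)).1 (hg n)
  obtain ⟨k, hkM, hk⟩ := hwit g hgM (by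
    obtain ⟨k, hk⟩ := Om.bdd (Set.countable_range g)
    exact ⟨k, fun n => hk _ ⟨n, rfl⟩⟩)
  refine ⟨k, (hdel k).1 hkM, fun y hy => ?_⟩
  obtain ⟨z, hz, hzy⟩ := hs.2 y hy
  obtain ⟨n, rfl⟩ := mem_omega.1 hz
  have : y = o0 (g n) := (hs.1.2 (nz n) hz).unique hzy (hgn n)
  rw [this]
  exact o0_mem_o0.2 (hk n)

theorem ev_omega1 : Ev (fun M => ∀ U : Set B, GenF Set.univ M U → Omega1 (Nm M U) (o0 (del M))) := by
  refine Ev.mono ((((((GOM_enum B).and (ev_bdd_fun B hd)).and (ev_zf B)).and ev_del).and ev_del_lim).and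
    (((mk1 B).and (Ev.const (fun _ : Om => (⊤ : B)))).and (ev_genF (B := B)))) ?_
  rintro M ⟨⟨⟨⟨⟨henum, hbdd⟩, hzf⟩, hdel⟩, hlim⟩, ⟨hmk, htop⟩, hgen⟩ U hU
  have hN := hzf U hU
  have htU : (⊤ : B) ∈ U := (hgen Set.univ csub_univ U hU).1
  have hκN : o0 (del M) ∈ Nm M U := by
    obtain ⟨S, hS, hS'⟩ := hmk U hU _ htop
    have : S = o0 (del M) := by
      ext z
      rw [hS' z, mem_o0]
      constructor
      · rintro ⟨a, ha, -, rfl⟩
        exact ⟨a, (hdel a).1 ha, rfl⟩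
      · rintro ⟨a, ha, rfl⟩
        exact ⟨a, (hdel a).2 ha, htU, rfl⟩
    rw [← this]
    exact hS
  have hno : ¬ Onto (Nm M U) ZFSet.omega (o0 (del M)) := by
    rintro ⟨f, hf, hs⟩
    obtain ⟨a, ha, haX⟩ := hbdd U hU f hf _ (fun _ h => h) hs
    exact lt_irrefl a (o0_mem_o0.1 (haX (o0_mem_o0.2 ha)))
  have hκne : o0 (del M) ≠ ∅ := by
    intro h
    obtain ⟨a, ha⟩ := hlim.1
    have := o0_mem_o0.2 ha
    rw [h] at this
    exact ZFSet.notMem_empty _ this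
  have hωκ : ZFSet.omega ∈ o0 (del M) := by
    rcases (isOrdinal_omega.{0}).mem_or_subset (isOrdinal_o0 (del M)) with h | h
    · exact h
    · exact absurd (onto_subset hN hN.omega hκN h hκne) hno
  refine ⟨card_omega hN, ⟨hκN, isOrdinal_o0 _, ?_⟩, hωκ, ?_⟩
  · rintro a ha f hf hs
    obtain ⟨b, hb, rfl⟩ := mem_o0.1 ha
    by_cases hb0 : o0 b = ∅
    · rw [hb0] at hs
      obtain ⟨y, hy⟩ : ∃ y, y ∈ o0 (del M) := by
        by_contra h
        push Not at h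
        exact hκne ((ZFSet.eq_empty _).2 h)
      obtain ⟨x, hx, -⟩ := hs.2 y hy
      exact ZFSet.notMem_empty _ hx
    · exact hno (onto_trans hN (henum U hU b hb hb0) ⟨f, hf, hs⟩)
  · intro a ha hca
    rcases hca.2.1.mem_trichotomous (isOrdinal_omega.{0}) with h | h | h
    · exact Or.inr h
    · exact Or.inl h
    · exfalso
      obtain ⟨b, hb, rfl⟩ := mem_o0.1 ha
      obtain ⟨f, hf, hs⟩ := henum U hU b hb (by
        intro h0
        rw [h0] at h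
        exact ZFSet.notMem_empty _ h)
      exact hca.2.2 _ h f hf hs

end

theorem ev_ctble_lt (B : Type 1) [CompleteBooleanAlgebra B] :
    Ev (fun M => ∀ U : Set B, GenF Set.univ M U → ∀ a : Om, a < del M → Ctble (Nm M U) (o0 a)) := by
  refine Ev.mono (GOM_enum B) ?_
  intro M henum U hU a ha
  by_cases h : o0 a = ∅
  · exact Or.inl h
  · exact Or.inr (henum U hU a ha h)

end Pool.Agent.CAN
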