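import Pool.Agent.CAN.Goal
import Pool.Agent.CAN.Facts

/-!
# CAN, part G: definitions

`V = ZFSet.{1}`; `M : ZFSet.{1}` is a sufficiently closed countable set (see `Ev`, `Mdl` in Defs), `B : Type 1`
a complete Boolean algebra, `U : Set B` an `M`-generic filter (`GenF Set.univ M U`).

* names: a name is any `x : ZFSet.{1}`; the name `y` is put into `x` with Boolean value `b` if
  `pair y (cd b) ∈ x`.
* `beq B x y`, `bmem B y x`, `bv B φ v`: Boolean values of `x = y`, `y ∈ x`, `φ(v)`.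
* `vl M U x : ZFSet.{0}`: the value of the name `x`; `Nm M U` the set of all values `vl M U x`, `x ∈ M`
  (this is our model).
* `chk B x`: the name of the ground model set `x`; `col M x : ZFSet.{0}`: the collapse of `x`.
* `oz α : ZFSet.{1}` and `o0 α : ZFSet.{0}`: the von Neumann ordinal of `α : Om`;
  `sz s`, `s0 s`: the set of the `oz α` (`o0 α`), `α ∈ s`.
-/

namespace Pool.Agent.CAN
open ZFSet Pool.Agent.FBZ

/-- An enumeration of the countable set `M`. -/
noncomputable def enm (M : ZFSet.{1}) : ℕ → ZFSet.{1} := open Classical in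
  if h : ∃ f : ℕ → ZFSet.{1}, ∀ x, x ∈ M ↔ ∃ n, f n = x then h.choose else fun _ => ∅

theorem rank_lt_pair {x y z : ZFSet.{1}} (h : pair y z ∈ x) : y.rank < x.rank := by
  refine lt_trans ?_ (rank_lt_of_mem h)
  refine lt_trans (rank_lt_of_mem (mem_singleton.2 rfl : y ∈ ({y} : ZFSet.{1}))) (rank_lt_of_mem ?_)
  simp [pair]

section
variable {B : Type 1} [CompleteBooleanAlgebra B]

/-- The Boolean value of the equality of two names. -/
noncomputable def beq (B : Type 1) [CompleteBooleanAlgebra B] (x y : ZFSet.{1}) : B :=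
  (⨅ z : {z : ZFSet.{1} × B // pair z.1 (cd z.2) ∈ x},
      z.1.2 ⇨ ⨆ w : {w : ZFSet.{1} × B // pair w.1 (cd w.2) ∈ y}, w.1.2 ⊓ beq B z.1.1 w.1.1) ⊓
  (⨅ w : {w : ZFSet.{1} × B // pair w.1 (cd w.2) ∈ y},
      w.1.2 ⇨ ⨆ z : {z : ZFSet.{1} × B // pair z.1 (cd z.2) ∈ x}, z.1.2 ⊓ beq B z.1.1 w.1.1)
termination_by x.rank
decreasing_by
  · exact rank_lt_pair z.2
  · exact rank_lt_pair z.2

/-- The Boolean value of `y ∈ x`. -/
noncomputable def bmem (B : Type 1) [CompleteBooleanAlgebra B] (y x : ZFSet.{1}) : B :=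
  ⨆ z : {z : ZFSet.{1} × B // pair z.1 (cd z.2) ∈ x}, z.1.2 ⊓ beq B z.1.1 y

/-- The Boolean value of a formula. -/
noncomputable def bv (B : Type 1) [CompleteBooleanAlgebra B] : Fml → (ℕ → ZFSet.{1}) → B
  | .mem i j, v => bmem B (v i) (v j)
  | .eq i j, v => beq B (v i) (v j)
  | .neg φ, v => (bv B φ v)ᶜ
  | .and φ ψ, v => bv B φ v ⊓ bv B ψ v
  | .all φ, v => ⨅ x : ZFSet.{1}, bv B φ (cons x v)

/-- The value of the name `x`. -/
noncomputable def vl (M : ZFSet.{1}) (U : Set B) (x : ZFSet.{1}) : ZFSet.{0} :=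
  ZFSet.range (fun n : {n : ℕ // enm M n ∈ M ∧ ∃ b ∈ U, pair (enm M n) (cd b) ∈ x} =>
    vl M U (enm M n.1))
termination_by x.rank
decreasing_by
  obtain ⟨b, _, h⟩ := n.2.2
  exact rank_lt_pair h

/-- The model: all values of names in `M`. -/
def Nm (M : ZFSet.{1}) (U : Set B) : Set ZFSet.{0} := {z | ∃ x ∈ M, z = vl M U x}

/-- The name with the elements `y ∈ a`, put in with Boolean value `f y`. -/
noncomputable def mkn (f : ZFSet.{1} → B) (a : ZFSet.{1}) : ZFSet.{1} :=
  img (fun y => pair y (cd (f y))) a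

/-- The name of the ground model set `x`. -/
noncomputable def chk (B : Type 1) [CompleteBooleanAlgebra B] (x : ZFSet.{1}) : ZFSet.{1} :=
  ZFSet.range (fun z : ↥x => pair (chk B z.1) (cd (⊤ : B)))
termination_by x.rank
decreasing_by exact rank_lt_of_mem z.2

end

/-- The collapse of the part of `x` in `M`. -/
noncomputable def col (M : ZFSet.{1}) (x : ZFSet.{1}) : ZFSet.{0} :=
  ZFSet.range (fun n : {n : ℕ // enm M n ∈ M ∧ enm M n ∈ x} => col M (enm M n.1))
termination_by x.rank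
decreasing_by exact rank_lt_of_mem n.2.2

/-- The von Neumann ordinal of `α`, in `ZFSet.{1}`. -/
noncomputable def oz (a : Om) : ZFSet.{1} := (Ordinal.lift.{1} a.1).toZFSet

/-- The von Neumann ordinal of `α`, in `ZFSet.{0}`. -/
noncomputable def o0 (a : Om) : ZFSet.{0} := a.1.toZFSet

/-- The set of the von Neumann ordinals of the elements of `s`, in `ZFSet.{1}`. -/
noncomputable def sz (s : Set Om) : ZFSet.{1} := ZFSet.range (fun a : ↥s => oz a.1)

/-- The set of the von Neumann ordinals of the elements of the countable set `s`, in `ZFSet.{0}`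
(junk if `s` is uncountable). -/
noncomputable def s0 (s : Set Om) : ZFSet.{0} := open Classical in
  if _h : Small.{0} ↥s then ZFSet.range (fun a : ↥s => o0 a.1) else ∅

section
variable {B : Type 1} [CompleteBooleanAlgebra B]

/-- `S0` is the value of the name `x` for a subset of `Om`. -/
def IsV (M : ZFSet.{1}) (U : Set B) (x : Om → B) (S0 : ZFSet.{0}) : Prop :=
  ∀ z, z ∈ S0 ↔ ∃ a : Om, InM a M ∧ x a ∈ U ∧ z = o0 a

/-- `(P, le)` is the poset of the model `Nm M U` shooting a club through the complement of the set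
named by `S`. -/
structure IsPN (M : ZFSet.{1}) (U : Set B) (S : Om → B) (P le : ZFSet.{0}) : Prop where
  P : ∀ z, z ∈ P ↔ ∃ c : CB, InM c M ∧ goodV S c ∈ U ∧ z = s0 c.s
  le : ∀ z, z ∈ le ↔ ∃ c c' : CB, InM c M ∧ InM c' M ∧ goodV S c ∈ U ∧ goodV S c' ∈ U ∧ c ≤ c' ∧
    z = pair (s0 c.s) (s0 c'.s)

/-- The filter on the two step iteration `QQ S` given by `U` and the filter `H` of the poset
`IsPN`. -/
def UH (M : ZFSet.{1}) (U : Set B) (S : Om → B) (H : ZFSet.{0}) : Set (QQ S) :=
  {q | InM q M ∧ q.1.1 ∈ U ∧ s0 q.1.2.s ∈ H}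

end

end Pool.Agent.CAN
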