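import Pool.Agent.CAN.GNF
import Pool.Agent.CAN.GDefs

/-!
# CAN/GSI: suprema and infima in a generic filter

Write `GenF Set.univ M U`: `U` is an `M`-generic filter of `B`.
-/

set_option autoImplicit false

namespace Pool.Agent.CAN
open ZFSet Pool.Agent.FBZ

variable {B : Type 1} [CompleteBooleanAlgebra B]

theorem ev_sup {ι : Type*} (c : ι → ZFSet.{1}) (f : ι → B) :
    Ev (fun M => ∀ U : Set B, GenF Set.univ M U → (⨆ i, f i) ∈ U → ∃ i, c i ∈ M ∧ f i ∈ U) := by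
  classical
  by_cases hι : Nonempty ι
  · refine Ev.mono (((ev_genF (B := B)).and
      (Ev.const (insert (⨆ i, f i)ᶜ (Set.range f)))).and
      (Ev.fn1 (fun d : B => c (Function.invFun f d)))) ?_
    rintro M ⟨⟨hgen, hD⟩, hw⟩ U hU hb
    have hc := (hgen Set.univ csub_univ U hU).2.2.1
    obtain ⟨d, hd, hdU⟩ := hU.meet _ hD (Set.subset_univ _) (by
      rw [sSup_insert, sSup_range, compl_sup_eq_top])
    rcases hd with rfl | hd
    · exact absurd hdU (hc _ hb)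
    · have h1 : f (Function.invFun f d) = d := Function.invFun_eq hd
      refine ⟨Function.invFun f d, hw d (hU.sub d hdU).2, ?_⟩
      rw [h1]
      exact hdU
  · refine Ev.mono (Ev.const (⊤ : B)) ?_
    intro M _ U hU hb
    haveI : IsEmpty ι := not_nonempty_iff.1 hι
    rw [iSup_of_empty] at hb
    exact absurd hb hU.bot

theorem ev_inf {ι : Type*} (c : ι → ZFSet.{1}) (f : ι → B) :
    Ev (fun M => ∀ U : Set B, GenF Set.univ M U → (∀ i, c i ∈ M → f i ∈ U) → (⨅ i, f i) ∈ U) := by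
  refine Ev.mono (((ev_genF (B := B)).and (Ev.const (⨅ i, f i))).and
    (ev_sup c (fun i => (f i)ᶜ))) ?_
  rintro M ⟨⟨hgen, hI⟩, hs⟩ U hU hall
  have hc := (hgen Set.univ csub_univ U hU).2.2.1
  have hdec := (hgen Set.univ csub_univ U hU).2.1
  rcases hdec _ (Set.mem_univ _) hI with h | h
  · exact h
  · rw [compl_iInf] at h
    obtain ⟨i, hi, hfi⟩ := hs U hU h
    exact absurd hfi (hc _ (hall i hi))

theorem ev_bool : Ev (fun M => ∀ U : Set B, GenF Set.univ M U → ⊤ ∈ U ∧ ∀ a b : B, InM a M → InM b M →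
    (aᶜ ∈ U ↔ a ∉ U) ∧ (a ⊓ b ∈ U ↔ a ∈ U ∧ b ∈ U) ∧ (a ⊔ b ∈ U ↔ a ∈ U ∨ b ∈ U) ∧
    (a ⇨ b ∈ U ↔ (a ∈ U → b ∈ U)) ∧ (a ≤ b → a ∈ U → b ∈ U)) := by
  refine Ev.mono (((ev_genF (B := B)).and (Ev.fn2 (fun x y : B => x ⊔ y))).and
    (Ev.fn2 (fun x y : B => x ⇨ y))) ?_
  rintro M ⟨⟨hgen, hsup⟩, himp⟩ U hU
  obtain ⟨htop, hdec, hc, -, -⟩ := hgen Set.univ csub_univ U hU
  refine ⟨htop, fun a b ha hb => ?_⟩
  have hdec' : ∀ x : B, InM x M → x ∉ U → xᶜ ∈ U := fun x hx hxU =>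
    (hdec x (Set.mem_univ _) hx).resolve_left hxU
  have hup : ∀ x y : B, InM y M → x ≤ y → x ∈ U → y ∈ U := fun x y hy hxy hx =>
    hU.up x hx y (Set.mem_univ _) hy hxy
  refine ⟨⟨fun h h' => hc a h' h, hdec' a ha⟩,
    ⟨fun h => ⟨hup _ _ ha inf_le_left h, hup _ _ hb inf_le_right h⟩, fun h => hU.inf a h.1 b h.2⟩,
    ⟨fun h => ?_, fun h => ?_⟩, ⟨fun h h' => ?_, fun h => ?_⟩, fun hab => hup a b hb hab⟩
  · by_contra hno
    rw [not_or] at hno
    have h1 := hU.inf _ h _ (hU.inf _ (hdec' a ha hno.1) _ (hdec' b hb hno.2))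
    have h2 : (a ⊔ b) ⊓ (aᶜ ⊓ bᶜ) = ⊥ := by
      rw [← compl_sup, inf_compl_self]
    rw [h2] at h1
    exact hU.bot h1
  · rcases h with h | h
    · exact hup _ _ (hsup a b ha hb) le_sup_left h
    · exact hup _ _ (hsup a b ha hb) le_sup_right h
  · exact hup _ _ hb himp_inf_le (hU.inf _ h _ h')
  · by_cases haU : a ∈ U
    · exact hup _ _ (himp a b ha hb) le_himp (h haU)
    · refine hup _ _ (himp a b ha hb) ?_ (hdec' a ha haU)
      rw [himp_eq]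
      exact le_sup_right

theorem ev_sup1 (B : Type 1) [CompleteBooleanAlgebra B] (T : Type 1) :
    Ev (fun M => ∀ U : Set B, GenF Set.univ M U → ∀ (A : Set T) (f : T → B), InM A M → InM f M →
      ((⨆ t ∈ A, f t) ∈ U ↔ ∃ t ∈ A, InM t M ∧ f t ∈ U)) := by
  have key : ∀ (A : Set T) (f : T → B), Ev (fun M => ∀ U : Set B, GenF Set.univ M U →
      ((⨆ t ∈ A, f t) ∈ U ↔ ∃ t ∈ A, InM t M ∧ f t ∈ U)) := by
    intro A f
    refine Ev.mono ((Ev.const (⨆ t ∈ A, f t)).and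
      (ev_sup (fun t : {t : T // t ∈ A} => cd t.1) (fun t => f t.1))) ?_
    rintro M ⟨hI, hs⟩ U hU
    constructor
    · intro h
      have h1 : (⨆ t ∈ A, f t) = ⨆ t : {t : T // t ∈ A}, f t.1 := iSup_subtype'
      rw [h1] at h
      obtain ⟨t, ht, hf⟩ := hs U hU h
      exact ⟨t.1, t.2, ht, hf⟩
    · rintro ⟨t, htA, -, hf⟩
      exact hU.up _ hf _ (Set.mem_univ _) hI (le_iSup₂ (f := fun t (_ : t ∈ A) => f t) t htA)
  refine Ev.mono (Ev.diag (fun A : Set T => Ev.diag (fun f : T → B => key A f))) ?_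
  intro M h U hU A f hA hf
  exact h A hA f hf U hU

theorem ev_inf1 (B : Type 1) [CompleteBooleanAlgebra B] (T : Type 1) :
    Ev (fun M => ∀ U : Set B, GenF Set.univ M U → ∀ (A : Set T) (f : T → B), InM A M → InM f M →
      ((⨅ t ∈ A, f t) ∈ U ↔ ∀ t ∈ A, InM t M → f t ∈ U)) := by
  have key : ∀ (A : Set T) (f : T → B), Ev (fun M => ∀ U : Set B, GenF Set.univ M U →
      ((⨅ t ∈ A, f t) ∈ U ↔ ∀ t ∈ A, InM t M → f t ∈ U)) := by
    intro A f
    refine Ev.mono ((Ev.fn1 f).and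
      (ev_inf (fun t : {t : T // t ∈ A} => cd t.1) (fun t => f t.1))) ?_
    rintro M ⟨hI, hs⟩ U hU
    have h1 : (⨅ t ∈ A, f t) = ⨅ t : {t : T // t ∈ A}, f t.1 := iInf_subtype'
    constructor
    · intro h t htA htM
      exact hU.up _ h _ (Set.mem_univ _) (hI t htM) (iInf₂_le (f := fun t (_ : t ∈ A) => f t) t htA)
    · intro h
      rw [h1]
      exact hs U hU fun t ht => h t.1 t.2 ht
  refine Ev.mono (Ev.diag (fun A : Set T => Ev.diag (fun f : T → B => key A f))) ?_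
  intro M h U hU A f hA hf
  exact h A hA f hf U hU

theorem ev_supN (B : Type 1) [CompleteBooleanAlgebra B] :
    Ev (fun M => ∀ U : Set B, GenF Set.univ M U → ∀ f : ℕ → B, InM f M → ((⨆ n, f n) ∈ U ↔ ∃ n, f n ∈ U)) := by
  have key : ∀ f : ℕ → B, Ev (fun M => ∀ U : Set B, GenF Set.univ M U →
      ((⨆ n, f n) ∈ U ↔ ∃ n, f n ∈ U)) := by
    intro f
    refine Ev.mono ((Ev.const (⨆ n, f n)).and (ev_sup (fun _ : ℕ => (∅ : ZFSet.{1})) f)) ?_
    rintro M ⟨hI, hs⟩ U hU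
    constructor
    · intro h
      obtain ⟨n, -, hn⟩ := hs U hU h
      exact ⟨n, hn⟩
    · rintro ⟨n, hn⟩
      exact hU.up _ hn _ (Set.mem_univ _) hI (le_iSup f n)
  refine Ev.mono (Ev.diag key) ?_
  intro M h U hU f hf
  exact h f hf U hU

theorem ev_infN (B : Type 1) [CompleteBooleanAlgebra B] :
    Ev (fun M => ∀ U : Set B, GenF Set.univ M U → ∀ f : ℕ → B, InM f M → ((⨅ n, f n) ∈ U ↔ ∀ n, f n ∈ U)) := by
  have key : ∀ f : ℕ → B, Ev (fun M => ∀ U : Set B, GenF Set.univ M U →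
      ((⨅ n, f n) ∈ U ↔ ∀ n, f n ∈ U)) := by
    intro f
    refine Ev.mono ((Ev.all_nat (fun n => Ev.const (f n))).and
      (ev_inf (fun _ : ℕ => (∅ : ZFSet.{1})) f)) ?_
    rintro M ⟨hI, hs⟩ U hU
    constructor
    · intro h n
      exact hU.up _ h _ (Set.mem_univ _) (hI n) (iInf_le f n)
    · intro h
      exact hs U hU fun n _ => h n
  refine Ev.mono (Ev.diag key) ?_
  intro M h U hU f hf
  exact h f hf U hU

theorem ev_gen_exists (B : Type 1) [CompleteBooleanAlgebra B] :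
    Ev (fun M => ∀ b : B, InM b M → b ≠ ⊥ → ∃ U : Set B, GenF Set.univ M U ∧ b ∈ U) := by
  classical
  refine Ev.mono ((((Ev.mdl (fun _ _ => (∅ : ZFSet.{1}))).and (Ev.const ({⊤} : Set B))).and
    (Ev.fn2 (fun x y : B => x ⊓ y))).and
    (Ev.wit2 (fun (x : B) (D : Set B) (d : B) => d ∈ D ∧ x ⊓ d ≠ ⊥))) ?_
  rintro M ⟨⟨⟨hM, htop⟩, hinf⟩, hwit⟩ b hb hb0
  have hcount : {D : Set B | InM D M ∧ sSup D = ⊤}.Countable :=
    (tr_countable (T := Set B) hM.ctbl).mono fun D hD => hD.1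
  obtain ⟨e, he⟩ := hcount.exists_eq_range ⟨{⊤}, htop, sSup_singleton⟩
  have heM : ∀ n, InM (e n) M ∧ sSup (e n) = ⊤ := by
    intro n
    have : e n ∈ {D : Set B | InM D M ∧ sSup D = ⊤} := by
      rw [he]
      exact ⟨n, rfl⟩
    exact this
  have hstep : ∀ (n : ℕ) (x : {x : B // InM x M ∧ x ≠ ⊥}), ∃ y : {x : B // InM x M ∧ x ≠ ⊥},
      y.1 ≤ x.1 ∧ ∃ d ∈ e n, InM d M ∧ y.1 ≤ d := by
    rintro n ⟨x, hx, hx0⟩
    have h1 : ∃ d, d ∈ e n ∧ x ⊓ d ≠ ⊥ := by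
      by_contra hno
      push Not at hno
      apply hx0
      have h2 : x ⊓ sSup (e n) = ⊥ := by
        rw [inf_sSup_eq]
        apply bot_unique
        exact iSup₂_le fun d hd => (hno d hd).le
      rwa [(heM n).2, inf_top_eq] at h2
    obtain ⟨d, hdM, hd, hxd⟩ := hwit x (e n) hx (heM n).1 h1
    exact ⟨⟨x ⊓ d, hinf x d hx hdM, hxd⟩, inf_le_left, d, hd, hdM, inf_le_right⟩
  choose step hle hd using hstep
  let s : ℕ → {x : B // InM x M ∧ x ≠ ⊥} := fun n => Nat.rec ⟨b, hb, hb0⟩ (fun n x => step n x) n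
  have hs0 : s 0 = ⟨b, hb, hb0⟩ := rfl
  have hss : ∀ n, s (n + 1) = step n (s n) := fun n => rfl
  have hanti : Antitone (fun n => (s n).1) := antitone_nat_of_succ_le fun n => by
    rw [hss]
    exact hle n (s n)
  refine ⟨{x | InM x M ∧ ∃ n, (s n).1 ≤ x}, ⟨?_, ?_, ?_, ?_, ?_⟩, hb, 0, ?_⟩
  · rintro x ⟨hx, -⟩
    exact ⟨Set.mem_univ _, hx⟩
  · rintro x ⟨-, n, hn⟩ y - hy hxy
    exact ⟨hy, n, hn.trans hxy⟩
  · rintro x ⟨hx, n, hn⟩ y ⟨hy, m, hm⟩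
    exact ⟨hinf x y hx hy, max n m, le_inf ((hanti (le_max_left n m)).trans hn)
      ((hanti (le_max_right n m)).trans hm)⟩
  · rintro ⟨-, n, hn⟩
    exact (s n).2.2 (le_bot_iff.1 hn)
  · intro D hD _ hsD
    have h1 : D ∈ Set.range e := by
      rw [← he]
      exact ⟨hD, hsD⟩
    obtain ⟨n, rfl⟩ := h1
    obtain ⟨d, hde, hdM, hdle⟩ := hd n (s n)
    exact ⟨d, hde, hdM, n + 1, by rw [hss]; exact hdle⟩
  · rw [hs0]

end Pool.Agent.CAN
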