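import Pool.Agent.CAN.GVL
import Pool.Agent.CAN.OMB
import Pool.Agent.FBZ.DE1
import Pool.Agent.CAN.GSI

/-!
# CAN/GCK: names of ground model sets, collapses

* `ev_chk`: `chk B x = range (fun z => pair (chk B z) (cd ⊤))`.  `chk B` is injective (induction on rank, or: by `Ev.wit1` we do not need it:
  the relation `ρ w z ↔ w = chk B z` has for `w ∈ M` of the form `chk B z` a witness `z ∈ M`; injectivity shows that it is the
  given one).  So for `M` closed under `chk B` and its inverse, `chk B z ∈ M ↔ z ∈ M`.  `⊤ ∈ U`.  By `mem_vl`, `mem_chk`, `mem_col` and induction on the rank of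
  `x` (all `x`, not only `x ∈ M`): `vl M U (chk B x) = col M x`.
* `ev_col_mem`: `col M x ∈ col M y ↔ x ∈ y` and `col M x = col M y ↔ x = y` for `x, y ∈ M`: extensionality of `M`: for `x ≠ y` in `M` there is
  `z ∈ M` with `z ∈ x ↔ z ∉ y` (`Ev.wit2`).  Injectivity by induction on the rank of `x` for all `y`: if `col x = col y` and `z ∈ M`, `z ∈ x`, then
  `col z ∈ col y`, so `col z = col z'` for some `z' ∈ M`, `z' ∈ y`; by induction `z = z'`.
* `ev_col_pair`: for `x, y ∈ M`: `pair x y = {{x}, {x, y}}`, `M` closed under `{x}`, `{x, y}`; the elements of the finite sets are in `M`.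
* `ev_col_nz`, `ev_col_omega`: `nz n ∈ M` for all `n` (`Ev.const`), `nz (n+1) = insert (nz n) (nz n)`, and `mem_omega` (FBZ/DE1).
* `ev_col_oz`: for `a : Om` with `InM a M`: `M` is closed under `a ↦ oz a` and its inverse, and all `b < a` are in `M`
  (`Ev.ctbl` applied to `Set.Iio a`, `Om.Iio_countable`, closure of `M` under `Set.Iio`);
  `x ∈ oz a ↔ ∃ b < a, x = oz b` (`Ordinal.mem_toZFSet_iff`, `Ordinal.lift` is an order embedding onto an initial segment: `Ordinal.lt_lift_iff`).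
* `ev_col_sz`: for a countable `s : Set Om` in `M` all elements are in `M` (`Ev.ctbl`).
-/

set_option autoImplicit false

namespace Pool.Agent.CAN
open ZFSet Pool.Agent.FBZ

private theorem GCK_inj (B : Type 1) [CompleteBooleanAlgebra B] :
    ∀ x : ZFSet.{1}, ∀ y, chk B x = chk B y → x = y := by
  refine rank_induction ?_
  intro x ih y h
  ext z
  constructor
  · intro hz
    have h1 : pair (chk B z) (cd (⊤ : B)) ∈ chk B x := mem_chk.2 ⟨rfl, z, hz, rfl⟩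
    rw [h] at h1
    obtain ⟨_, w, hw, e⟩ := mem_chk.1 h1
    have := ih z (rank_lt_of_mem hz) w e
    rwa [this]
  · intro hz
    have h1 : pair (chk B z) (cd (⊤ : B)) ∈ chk B y := mem_chk.2 ⟨rfl, z, hz, rfl⟩
    rw [← h] at h1
    obtain ⟨_, w, hw, e⟩ := mem_chk.1 h1
    have := ih w (rank_lt_of_mem hw) z e.symm
    rwa [← this]

theorem ev_chk_mem (B : Type 1) [CompleteBooleanAlgebra B] : Ev (fun M => ∀ x, x ∈ M ↔ chk B x ∈ M) := by
  classical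
  have h1 := Ev.fn1 (S := ZFSet.{1}) (Z := ZFSet.{1}) (fun x => chk B x)
  have h2 := Ev.fn1 (S := ZFSet.{1}) (Z := ZFSet.{1})
    (fun w => if h : ∃ z, w = chk B z then h.choose else ∅)
  refine (h1.and h2).mono ?_
  rintro M ⟨h1, h2⟩ x
  constructor
  · exact h1 x
  · intro h
    have h3 := h2 (chk B x) h
    have hex : ∃ z, chk B x = chk B z := ⟨x, rfl⟩
    rw [dif_pos hex, ← GCK_inj B x _ hex.choose_spec] at h3
    exact h3

theorem ev_chk (B : Type 1) [CompleteBooleanAlgebra B] :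
    Ev (fun M => ∀ U : Set B, GenF Set.univ M U → ∀ x, vl M U (chk B x) = col M x) := by
  refine ((ev_ctbl0.and (ev_chk_mem B)).and (ev_bool (B := B))).mono ?_
  rintro M ⟨⟨h0, h1⟩, h2⟩ U hU
  refine rank_induction ?_
  intro x ih
  ext t
  rw [mem_vl h0.1 h0.2, mem_col h0.1 h0.2]
  constructor
  · rintro ⟨y, hy, b, hb, hp, rfl⟩
    obtain ⟨_, z, hz, rfl⟩ := mem_chk.1 hp
    exact ⟨z, (h1 z).2 hy, hz, ih z (rank_lt_of_mem hz)⟩
  · rintro ⟨z, hz, hzx, rfl⟩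
    exact ⟨chk B z, (h1 z).1 hz, ⊤, (h2 U hU).1, mem_chk.2 ⟨rfl, z, hzx, rfl⟩,
      (ih z (rank_lt_of_mem hzx)).symm⟩

theorem ev_col_mem : Ev (fun M => ∀ x ∈ M, ∀ y ∈ M, (col M x ∈ col M y ↔ x ∈ y) ∧ (col M x = col M y ↔ x = y)) := by
  have hw := Ev.wit2 (S := ZFSet.{1}) (T := ZFSet.{1}) (Z := ZFSet.{1})
    (fun x y z => (z ∈ x ∧ z ∉ y) ∨ (z ∉ x ∧ z ∈ y))
  refine (ev_ctbl0.and hw).mono ?_
  rintro M ⟨h0, hw⟩
  have inj : ∀ x : ZFSet.{1}, x ∈ M → ∀ y ∈ M, col M x = col M y → x = y := by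
    refine rank_induction ?_
    intro x ih hx y hy h
    by_contra hne
    have hex : ∃ z, (z ∈ x ∧ z ∉ y) ∨ (z ∉ x ∧ z ∈ y) := by
      by_contra hcon
      push Not at hcon
      apply hne
      ext z
      constructor
      · intro hz
        by_contra hzy
        exact (hcon z).1 hz |> hzy
      · intro hz
        by_contra hzx
        exact (hcon z).2 hzx hz
    obtain ⟨z, hz, hd⟩ := hw x y hx hy hex
    have hz' : z ∈ M := hz
    rcases hd with ⟨hzx, hzy⟩ | ⟨hzx, hzy⟩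
    · have h1 : col M z ∈ col M x := (mem_col h0.1 h0.2).2 ⟨z, hz', hzx, rfl⟩
      rw [h] at h1
      obtain ⟨w, hwM, hwy, e⟩ := (mem_col h0.1 h0.2).1 h1
      have := ih z (rank_lt_of_mem hzx) hz' w hwM e
      rw [this] at hzy
      exact hzy hwy
    · have h1 : col M z ∈ col M y := (mem_col h0.1 h0.2).2 ⟨z, hz', hzy, rfl⟩
      rw [← h] at h1
      obtain ⟨w, hwM, hwx, e⟩ := (mem_col h0.1 h0.2).1 h1
      have := ih w (rank_lt_of_mem hwx) hwM z hz' e.symm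
      rw [this] at hwx
      exact hzx hwx
  intro x hx y hy
  refine ⟨⟨?_, fun h => (mem_col h0.1 h0.2).2 ⟨x, hx, h, rfl⟩⟩, inj x hx y hy, fun h => by rw [h]⟩
  intro h
  obtain ⟨w, hwM, hwy, e⟩ := (mem_col h0.1 h0.2).1 h
  rw [inj x hx w hwM e]
  exact hwy

theorem ev_col_pair : Ev (fun M => ∀ x ∈ M, ∀ y ∈ M, pair x y ∈ M ∧ col M (pair x y) = pair (col M x) (col M y)) := by
  have h1 := Ev.fn2 (S := ZFSet.{1}) (T := ZFSet.{1}) (Z := ZFSet.{1}) (fun x y => pair x y)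
  have h2 := Ev.fn2 (S := ZFSet.{1}) (T := ZFSet.{1}) (Z := ZFSet.{1}) (fun x y => {x, y})
  have h3 := Ev.fn1 (S := ZFSet.{1}) (Z := ZFSet.{1}) (fun x => {x})
  refine ((ev_ctbl0.and h1).and (h2.and h3)).mono ?_
  rintro M ⟨⟨h0, h1⟩, h2, h3⟩ x hx y hy
  refine ⟨h1 x y hx hy, ?_⟩
  have e1 : ∀ a ∈ M, ∀ b ∈ M, col M ({a, b} : ZFSet.{1}) = {col M a, col M b} := by
    intro a ha b hb
    ext t
    rw [mem_col h0.1 h0.2, mem_pair]
    constructor
    · rintro ⟨z, _, hzz, rfl⟩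
      rcases mem_pair.1 hzz with rfl | rfl
      · exact Or.inl rfl
      · exact Or.inr rfl
    · rintro (rfl | rfl)
      · exact ⟨a, ha, mem_pair.2 (Or.inl rfl), rfl⟩
      · exact ⟨b, hb, mem_pair.2 (Or.inr rfl), rfl⟩
  have e2 : ∀ a ∈ M, col M ({a} : ZFSet.{1}) = {col M a} := by
    intro a ha
    ext t
    rw [mem_col h0.1 h0.2, mem_singleton]
    constructor
    · rintro ⟨z, _, hzz, rfl⟩
      rw [mem_singleton.1 hzz]
    · rintro rfl
      exact ⟨a, ha, mem_singleton.2 rfl, rfl⟩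
  have e3 : col M (pair x y) = {col M {x}, col M {x, y}} := e1 {x} (h3 x hx) {x, y} (h2 x y hx hy)
  rw [e3, e2 x hx, e1 x hx y hy]
  rfl

theorem ev_col_nz : Ev (fun M => ∀ n : ℕ, nz n ∈ M ∧ col M (nz n) = nz n) := by
  have h1 : Ev (fun M => ∀ n : ℕ, InM (nz.{1} n) M) := Ev.all_nat fun n => Ev.const (nz.{1} n)
  refine (ev_ctbl0.and h1).mono ?_
  rintro M ⟨h0, h1⟩ n
  refine ⟨h1 n, ?_⟩
  induction n with
  | zero =>
    ext t
    rw [mem_col h0.1 h0.2]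
    constructor
    · rintro ⟨z, _, hz, _⟩
      exact absurd hz (notMem_empty z)
    · intro h
      exact absurd h (notMem_empty t)
  | succ n ih =>
    ext t
    rw [mem_col h0.1 h0.2]
    change (∃ y ∈ M, y ∈ (insert (nz n) (nz n) : ZFSet.{1}) ∧ t = col M y) ↔
      t ∈ (insert (nz n) (nz n) : ZFSet.{0})
    rw [mem_insert_iff]
    constructor
    · rintro ⟨z, hzM, hz, rfl⟩
      rcases mem_insert_iff.1 hz with rfl | hz
      · exact Or.inl ih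
      · refine Or.inr ?_
        rw [← ih]
        exact (mem_col h0.1 h0.2).2 ⟨z, hzM, hz, rfl⟩
    · rintro (rfl | h)
      · exact ⟨nz n, h1 n, mem_insert_iff.2 (Or.inl rfl), ih.symm⟩
      · rw [← ih] at h
        obtain ⟨z, hzM, hz, rfl⟩ := (mem_col h0.1 h0.2).1 h
        exact ⟨z, hzM, mem_insert_iff.2 (Or.inr hz), rfl⟩

theorem ev_col_omega : Ev (fun M => ZFSet.omega ∈ M ∧ col M ZFSet.omega = ZFSet.omega) := by
  refine ((ev_ctbl0.and ev_col_nz).and (Ev.const (ZFSet.omega.{1}))).mono ?_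
  rintro M ⟨⟨h0, h1⟩, h2⟩
  refine ⟨h2, ?_⟩
  ext t
  rw [mem_col h0.1 h0.2, mem_omega]
  constructor
  · rintro ⟨z, _, hz, rfl⟩
    obtain ⟨n, rfl⟩ := mem_omega.1 hz
    exact ⟨n, (h1 n).2⟩
  · rintro ⟨n, rfl⟩
    exact ⟨nz n, (h1 n).1, nz_mem_omega n, (h1 n).2.symm⟩

theorem mem_oz {a : Om} {x : ZFSet.{1}} : x ∈ oz a ↔ ∃ b : Om, b < a ∧ x = oz b := by
  unfold oz
  rw [Ordinal.mem_toZFSet_iff]
  constructor
  · rintro ⟨c, hc, rfl⟩
    obtain ⟨b, hb, rfl⟩ := Ordinal.lt_lift_iff.1 hc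
    exact ⟨⟨b, hb.trans a.2⟩, hb, rfl⟩
  · rintro ⟨b, hb, rfl⟩
    exact ⟨_, Ordinal.lift_lt.2 hb, rfl⟩

theorem mem_o0 {a : Om} {x : ZFSet.{0}} : x ∈ o0 a ↔ ∃ b : Om, b < a ∧ x = o0 b := by
  unfold o0
  rw [Ordinal.mem_toZFSet_iff]
  constructor
  · rintro ⟨c, hc, rfl⟩
    exact ⟨⟨c, hc.trans a.2⟩, hc, rfl⟩
  · rintro ⟨b, hb, rfl⟩
    exact ⟨_, hb, rfl⟩

theorem o0_inj {a b : Om} : o0 a = o0 b ↔ a = b :=
  ⟨fun h => Subtype.ext (Ordinal.toZFSet_injective h), fun h => by rw [h]⟩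

theorem o0_mem_o0 {a b : Om} : o0 a ∈ o0 b ↔ a < b := by
  rw [mem_o0]
  constructor
  · rintro ⟨c, hc, e⟩
    rw [o0_inj.1 e]
    exact hc
  · intro h
    exact ⟨a, h, rfl⟩

theorem isOrdinal_o0 (a : Om) : (o0 a).IsOrdinal := ZFSet.isOrdinal_toZFSet _

theorem ev_col_oz : Ev (fun M => ∀ a : Om, InM a M → oz a ∈ M ∧ col M (oz a) = o0 a) := by
  have h1 := Ev.fn1 (S := Om) (Z := ZFSet.{1}) (fun a => oz a)
  have h2 := Ev.fn1 (S := Om) (Z := Set Om) (fun a => Set.Iio a)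
  refine ((ev_ctbl0.and h1).and (h2.and (Ev.ctbl Om))).mono ?_
  rintro M ⟨⟨h0, h1⟩, h2, h3⟩ a
  induction a using (wellFounded_lt (α := Om)).induction with
  | _ a ih =>
    intro ha
    refine ⟨h1 a ha, ?_⟩
    have hlt : ∀ b, b < a → InM b M := fun b hb => h3 _ (h2 a ha) (Om.Iio_countable a) b hb
    ext t
    rw [mem_col h0.1 h0.2, mem_o0]
    constructor
    · rintro ⟨z, _, hz, rfl⟩
      obtain ⟨b, hb, rfl⟩ := mem_oz.1 hz
      exact ⟨b, hb, (ih b hb (hlt b hb)).2⟩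
    · rintro ⟨b, hb, rfl⟩
      exact ⟨oz b, h1 b (hlt b hb), mem_oz.2 ⟨b, hb, rfl⟩, (ih b hb (hlt b hb)).2.symm⟩

theorem mem_s0 {s : Set Om} (hs : s.Countable) {x : ZFSet.{0}} : x ∈ s0 s ↔ ∃ a ∈ s, x = o0 a := by
  have : Countable ↥s := hs.to_subtype
  have hsm : Small.{0} ↥s := inferInstance
  unfold s0
  rw [dif_pos hsm, mem_range]
  constructor
  · rintro ⟨a, rfl⟩
    exact ⟨a.1, a.2, rfl⟩
  · rintro ⟨a, ha, rfl⟩
    exact ⟨⟨a, ha⟩, rfl⟩

theorem ev_col_sz : Ev (fun M => ∀ s : Set Om, InM s M → s.Countable → sz s ∈ M ∧ col M (sz s) = s0 s) := by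
  have h1 := Ev.fn1 (S := Set Om) (Z := ZFSet.{1}) (fun s => sz s)
  refine ((ev_ctbl0.and h1).and (ev_col_oz.and (Ev.ctbl Om))).mono ?_
  rintro M ⟨⟨h0, h1⟩, h2, h3⟩ s hs hc
  refine ⟨h1 s hs, ?_⟩
  have hsz : ∀ z : ZFSet.{1}, z ∈ sz s ↔ ∃ a ∈ s, z = oz a := by
    intro z
    unfold sz
    rw [mem_range]
    constructor
    · rintro ⟨a, rfl⟩
      exact ⟨a.1, a.2, rfl⟩
    · rintro ⟨a, ha, rfl⟩
      exact ⟨⟨a, ha⟩, rfl⟩
  ext t
  rw [mem_col h0.1 h0.2, mem_s0 hc]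
  constructor
  · rintro ⟨z, _, hz, rfl⟩
    obtain ⟨a, ha, rfl⟩ := (hsz z).1 hz
    exact ⟨a, ha, (h2 a (h3 s hs hc a ha)).2⟩
  · rintro ⟨a, ha, rfl⟩
    have h4 := h2 a (h3 s hs hc a ha)
    exact ⟨oz a, h4.1, (hsz _).2 ⟨a, ha, rfl⟩, h4.2.symm⟩

end Pool.Agent.CAN
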