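import Pool.Agent.CAN.GRP
import Pool.Agent.CAN.GCK
import Pool.Agent.FBZ.DC3

/-!
# CAN/GZC: the axiom of choice in the model

Let `x` be a set of nonempty sets of the model, `u = ⋃₀ x = vl M U t` with a name `t ∈ M` (`u` is in the model by ZF).  In `V` choose an injection
`ι` of the set `dom t` into the ordinals `Ordinal.{1}` (for instance `ι y` = rank in a well-order of `↥(dom t)`, shrunk to `Type 1`), and let
`r` be the name with elements `opn`-like names of the pairs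
`(ι y, y)`, `y ∈ dom t`: we need a name `P y` with value `pair (vl (chk (ι y).toZFSet)) (vl y)`.  Use `upB a b = {pair a (cd ⊤), pair b (cd ⊤)}` with value
`{vl a, vl b}` and `pair a b = {{a}, {a, b}}`.  So there is `r ∈ Nm M U` whose elements are exactly the pairs
`pair (col M (ι y).toZFSet) (vl M U y)`, `y ∈ M`, `y ∈ dom t` (closure of `M` under `y ↦ name of the pair` and its inverse for fixed `t`, `Ev.diag`).
For `y, y' ∈ M` in `dom t`: `ι y < ι y'` iff `col M (ι y).toZFSet ∈ col M (ι y').toZFSet` (`ev_col_mem`), and every nonempty set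
of ordinals of `V` has a least element.
By ZF in the model (definability calculus of FBZ, `sep_mem`, `prod_mem`, …) the set
`f = {pair y z ∈ prod x u | z ∈ y ∧ ∃ α, pair α z ∈ r ∧ ∀ z' ∈ y, ∀ α', pair α' z' ∈ r → α' ∉ α}`
is in the model.  It is a function with `f(y) ∈ y`: for `y ∈ x` consider all names `w ∈ M`, `w ∈ dom t` with `vl w ∈ y`, and take the one with
the least `ι w` (exists because the ordinals are well-ordered in `V`; no closure of `M` needed, only that it is among the `w ∈ M`).  Uniqueness of `z`: if `z, z'` both qualify with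
`α, α'` then `α ∉ α'`, `α' ∉ α`, so `α = α'` (collapses of ordinals `ι w`, `ι w'` of names in `M`), `ι w = ι w'`, `w = w'`, `z = z'`.
-/

set_option autoImplicit false

namespace Pool.Agent.CAN
open ZFSet Pool.Agent.FBZ

section
variable (B : Type 1) [CompleteBooleanAlgebra B]

/-- The name of `{a, b}`. -/
private noncomputable def GZC_up (a b : ZFSet.{1}) : ZFSet.{1} := mkn (fun _ => (⊤ : B)) {a, b}

/-- The name of `pair a b`. -/
private noncomputable def GZC_pr (a b : ZFSet.{1}) : ZFSet.{1} := GZC_up B (GZC_up B a a) (GZC_up B a b)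

/-- The name of the set of all `pair (col M y) (vl M U y)`, `y ∈ dom t`. -/
private noncomputable def GZC_R (t : ZFSet.{1}) : ZFSet.{1} :=
  mkn (fun _ => (⊤ : B)) (img (fun y => GZC_pr B (chk B y) y) (dom t))

/-- A well-order of `dom t`. -/
private noncomputable def GZC_W (t : ZFSet.{1}) : ZFSet.{1} :=
  (prod (dom t) (dom t)).sep (fun p => ∃ a b, p = pair a b ∧ WellOrderingRel a b)

end

private theorem GZC_mem_W {t a b : ZFSet.{1}} :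
    pair a b ∈ GZC_W t ↔ a ∈ dom t ∧ b ∈ dom t ∧ WellOrderingRel a b := by
  rw [GZC_W, mem_sep, pair_mem_prod]
  constructor
  · rintro ⟨⟨h1, h2⟩, c, d, h3, h4⟩
    obtain ⟨rfl, rfl⟩ := pair_injective h3
    exact ⟨h1, h2, h4⟩
  · rintro ⟨h1, h2, h3⟩
    exact ⟨⟨h1, h2⟩, a, b, rfl, h3⟩

private theorem GZC_model {N : Set ZFSet.{0}} (hN : ZF N) {x r W : ZFSet.{0}} (hx : x ∈ N) (hr : r ∈ N)
    (hW : W ∈ N) :
    ∃ f ∈ N, ∀ p, p ∈ f ↔ ∃ y ∈ x, ∃ z ∈ y, p = pair y z ∧ ∃ α ∈ dom r, pair α z ∈ r ∧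
      ∀ z' ∈ y, ∀ α' ∈ dom r, pair α' z' ∈ r → pair α' α ∉ W := by
  have hd : dom r ∈ N := dom_mem hN hr
  have cx : ∀ {c : ZFSet.{0}}, c ∈ N → DT N (fun _ => c) := fun hc => DT.cst hN hc
  refine ⟨(prod x (⋃₀ x : ZFSet.{0})).sep (fun p => ∃ y ∈ x, ∃ z ∈ y, p = pair y z ∧
    ∃ α ∈ dom r, pair α z ∈ r ∧ ∀ z' ∈ y, ∀ α' ∈ dom r, pair α' z' ∈ r → pair α' α ∉ W),
    sep_mem hN ?_ (prod_mem hN hx (sUnion_mem hN hx)), fun p => ?_⟩
  · refine Dfn.bex hN (Q := fun v y => ∃ z ∈ y, v 0 = pair y z ∧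
      ∃ α ∈ dom r, pair α z ∈ r ∧ ∀ z' ∈ y, ∀ α' ∈ dom r, pair α' z' ∈ r → pair α' α ∉ W) (cx hx) ?_
    refine Dfn.bex hN (Q := fun v z => v 1 = pair (v 0) z ∧
      ∃ α ∈ dom r, pair α z ∈ r ∧ ∀ z' ∈ v 0, ∀ α' ∈ dom r, pair α' z' ∈ r → pair α' α ∉ W)
      (DT.var hN 0) ?_
    refine Dfn.and (Dfn.eq hN (DT.var hN 2) (DT.pairT hN (DT.var hN 1) (DT.var hN 0))) ?_
    refine Dfn.bex hN (Q := fun v α => pair α (v 0) ∈ r ∧
      ∀ z' ∈ v 1, ∀ α' ∈ dom r, pair α' z' ∈ r → pair α' α ∉ W) (cx hd) ?_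
    refine Dfn.and (Dfn.mem hN (DT.pairT hN (DT.var hN 0) (DT.var hN 1)) (cx hr)) ?_
    refine Dfn.ball hN (Q := fun v z' => ∀ α' ∈ dom r, pair α' z' ∈ r → pair α' (v 0) ∉ W)
      (DT.var hN 2) ?_
    refine Dfn.ball hN (Q := fun v α' => pair α' (v 0) ∈ r → pair α' (v 1) ∉ W) (cx hd) ?_
    exact Dfn.imp (Dfn.mem hN (DT.pairT hN (DT.var hN 0) (DT.var hN 1)) (cx hr))
      (Dfn.not (Dfn.mem hN (DT.pairT hN (DT.var hN 0) (DT.var hN 2)) (cx hW)))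
  · rw [mem_sep]
    constructor
    · exact fun h => h.2
    · intro h
      refine ⟨?_, h⟩
      obtain ⟨y, hy, z, hz, rfl, -⟩ := h
      rw [pair_mem_prod]
      exact ⟨hy, mem_sUnion.2 ⟨y, hy, hz⟩⟩

theorem ev_zfc (B : Type 1) [CompleteBooleanAlgebra B] :
    Ev (fun M => ∀ U : Set B, GenF Set.univ M U → ZFC (Nm M U)) := by
  have e1 : Ev (fun M => ∀ a b : ZFSet.{1}, InM a M → InM b M → InM (GZC_up B a b) M) := Ev.fn2 _
  have e2 : Ev (fun M => ∀ t : ZFSet.{1}, InM t M → InM (GZC_R B t) M) := Ev.fn1 _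
  have e3 : Ev (fun M => ∀ t : ZFSet.{1}, InM t M → InM (GZC_W t) M) := Ev.fn1 _
  have e4 : Ev (fun M => ∀ t w : ZFSet.{1}, InM t M → InM w M →
      (∃ y : ZFSet.{1}, y ∈ dom t ∧ w = GZC_pr B (chk B y) y) →
      ∃ y : ZFSet.{1}, InM y M ∧ (y ∈ dom t ∧ w = GZC_pr B (chk B y) y)) :=
    Ev.wit2 (fun (t w y : ZFSet.{1}) => y ∈ dom t ∧ w = GZC_pr B (chk B y) y)
  refine (ev_ctbl0.and ((ev_bool (B := B)).and (e1.and (e2.and (e3.and (e4.and
    ((ev_chk_mem B).and ((ev_chk B).and (ev_col_mem.and (ev_col_pair.and ((ev_zf B).and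
    (ev_ground B)))))))))))).mono ?_
  rintro M ⟨⟨hc, h0⟩, hb, h1, h2, h3, h4, hkm, hk, hcm, hcp, hzf, hg⟩ U hU
  have htop : (⊤ : B) ∈ U := (hb U hU).1
  have hN := hzf U hU
  refine ⟨hN, ?_⟩
  intro x hx hne
  have hup : ∀ a ∈ M, ∀ b ∈ M, vl M U (GZC_up B a b) = {vl M U a, vl M U b} := by
    intro a ha b hb'
    ext z
    rw [GZC_up, vl_mkn hc h0]
    simp only [mem_pair]
    constructor
    · rintro ⟨y, hy, rfl | rfl, -, rfl⟩
      · exact Or.inl rfl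
      · exact Or.inr rfl
    · rintro (rfl | rfl)
      · exact ⟨a, ha, Or.inl rfl, htop, rfl⟩
      · exact ⟨b, hb', Or.inr rfl, htop, rfl⟩
  have hpr : ∀ a ∈ M, ∀ b ∈ M, GZC_pr B a b ∈ M ∧ vl M U (GZC_pr B a b) = pair (vl M U a) (vl M U b) := by
    intro a ha b hb'
    have k1 : GZC_up B a a ∈ M := h1 a a ha ha
    have k2 : GZC_up B a b ∈ M := h1 a b ha hb'
    refine ⟨h1 _ _ k1 k2, ?_⟩
    rw [GZC_pr, hup _ k1 _ k2, hup _ ha _ ha, hup _ ha _ hb', pair, ZFSet.pair_eq_singleton]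
  obtain ⟨t, ht, htu⟩ : (⋃₀ x : ZFSet.{0}) ∈ Nm M U := sUnion_mem hN hx
  have hr : ∀ p, p ∈ vl M U (GZC_R B t) ↔ ∃ y ∈ M, y ∈ dom t ∧ p = pair (col M y) (vl M U y) := by
    intro p
    rw [GZC_R, vl_mkn hc h0]
    constructor
    · rintro ⟨w, hw, hw2, -, rfl⟩
      obtain ⟨y0, hy0, hy1⟩ := mem_img.1 hw2
      obtain ⟨y, hy, hyd, hyw⟩ := h4 t w ht hw ⟨y0, hy0, hy1⟩
      have hyM : y ∈ M := hy
      refine ⟨y, hyM, hyd, ?_⟩
      rw [hyw, (hpr _ ((hkm y).1 hyM) _ hyM).2, hk U hU]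
    · rintro ⟨y, hy, hyd, rfl⟩
      refine ⟨_, (hpr _ ((hkm y).1 hy) _ hy).1, mem_img.2 ⟨y, hyd, rfl⟩, htop, ?_⟩
      rw [(hpr _ ((hkm y).1 hy) _ hy).2, hk U hU]
  have hWM : GZC_W t ∈ M := h3 t ht
  have hW : ∀ w w', w ∈ M → w' ∈ M → (pair (col M w) (col M w') ∈ col M (GZC_W t) ↔
      w ∈ dom t ∧ w' ∈ dom t ∧ WellOrderingRel w w') := by
    intro w w' hw hw'
    rw [← (hcp w hw w' hw').2, (hcm _ (hcp w hw w' hw').1 _ hWM).1, GZC_mem_W]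
  obtain ⟨f, hf, hfm⟩ := GZC_model hN hx ⟨_, h2 t ht, rfl⟩ (hg U hU _ hWM)
  have hdom : ∀ α z, pair α z ∈ vl M U (GZC_R B t) → α ∈ dom (vl M U (GZC_R B t)) :=
    fun α z h => mem_dom.2 ⟨z, h⟩
  have hchar : ∀ y z, pair y z ∈ f ↔ y ∈ x ∧ z ∈ y ∧ ∃ α, pair α z ∈ vl M U (GZC_R B t) ∧
      ∀ z' ∈ y, ∀ α', pair α' z' ∈ vl M U (GZC_R B t) → pair α' α ∉ col M (GZC_W t) := by
    intro y z
    rw [hfm]
    constructor
    · rintro ⟨y1, hy1, z1, hz1, he, α, -, h7, h8⟩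
      obtain ⟨rfl, rfl⟩ := pair_injective he
      exact ⟨hy1, hz1, α, h7, fun z' hz' α' h9 => h8 z' hz' α' (hdom _ _ h9) h9⟩
    · rintro ⟨hy, hz, α, h7, h8⟩
      exact ⟨y, hy, z, hz, rfl, α, hdom _ _ h7, h7, fun z' hz' α' _ h9 => h8 z' hz' α' h9⟩
  refine ⟨f, hf, ⟨?_, ?_⟩, fun y z h => ((hchar y z).1 h).2.1⟩
  · intro p hp
    obtain ⟨y, hy, z, hz, rfl, -⟩ := (hfm p).1 hp
    rw [pair_mem_prod]
    exact ⟨hy, mem_sUnion.2 ⟨y, hy, hz⟩⟩
  · intro y hy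
    obtain ⟨z0, hz0⟩ := hne y hy
    have hex : ∃ w, w ∈ M ∧ w ∈ dom t ∧ vl M U w ∈ y := by
      have hz1 : z0 ∈ vl M U t := by
        rw [← htu]
        exact mem_sUnion.2 ⟨y, hy, hz0⟩
      obtain ⟨w, hw, b, -, hwt, rfl⟩ := (mem_vl hc h0).1 hz1
      exact ⟨w, hw, mem_dom.2 ⟨_, hwt⟩, hz0⟩
    have hwf : WellFounded (WellOrderingRel : ZFSet.{1} → ZFSet.{1} → Prop) :=
      WellOrderingRel.isWellOrder.wf
    obtain ⟨w, ⟨hwM, hwt, hwy⟩, hmin⟩ := hwf.has_min {w | w ∈ M ∧ w ∈ dom t ∧ vl M U w ∈ y} hex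
    refine ⟨vl M U w, (hchar _ _).2 ⟨hy, hwy, col M w, (hr _).2 ⟨w, hwM, hwt, rfl⟩, ?_⟩, ?_⟩
    · intro z' hz' α' h7 h8
      obtain ⟨w', hw', hw't, he⟩ := (hr _).1 h7
      obtain ⟨rfl, rfl⟩ := pair_injective he
      exact hmin w' ⟨hw', hw't, hz'⟩ ((hW _ _ hw' hwM).1 h8).2.2
    · intro z2 hz2
      obtain ⟨-, hz3, α, h7, h8⟩ := (hchar _ _).1 hz2
      obtain ⟨w2, hw2, hw2t, he⟩ := (hr _).1 h7
      obtain ⟨rfl, rfl⟩ := pair_injective he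
      have h9 : ¬ WellOrderingRel w w2 := fun h =>
        h8 (vl M U w) hwy (col M w) ((hr _).2 ⟨w, hwM, hwt, rfl⟩) ((hW _ _ hwM hw2).2 ⟨hwt, hw2t, h⟩)
      have h10 : ¬ WellOrderingRel w2 w := hmin w2 ⟨hw2, hw2t, hz3⟩
      rcases trichotomous_of WellOrderingRel w w2 with h | h | h
      · exact absurd h h9
      · rw [h]
      · exact absurd h h10

end Pool.Agent.CAN
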