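import Pool.Agent.CAN.GEM
import Pool.Agent.CAN.GOM
import Pool.Agent.CAN.GZC
import Pool.Agent.FBZ.DE1

/-!
# CAN/GAR: a name for the system of an Aronszajn tree

`N = Nm M U`, `κ = o0 (del M)` is `ω₁` of `N` (`ev_omega1`), its elements are the `o0 a`, `a < del M` (`mem_o0`).  Take `E` from `exists_enum`, and
let `en a n` be the unique `t` with `pair (pair (o0 a) (nz n)) t ∈ E` (for `a < del M`; `ω` = set of the `nz n`, `mem_omega`).  `surj`: every node has a height in `κ`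
(`Aronszajn.height`).
The set `R₀` of all `pair (pair α β) (pair n m)`, `α, β ∈ κ`, `n, m ∈ ω` with
`(α = β ∧ n = m) ∨ (α ∈ β ∧ ∃ s t, pair (pair α m) s ∈ E ∧ pair (pair β n) t ∈ E ∧ pair s t ∈ lt ∧ ∀ m' ∈ m, ∀ s', pair (pair α m') s' ∈ E → pair s' t ∉ lt)`
is in `N` (separation from a product, definability calculus).  `of4` gives the name `ρ` for it.  `R`: `R₀` itself (`InM a M ↔ a < del M` by `ev_del`).
-/

set_option autoImplicit false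

namespace Pool.Agent.CAN
open ZFSet Pool.Agent.FBZ

private def GAR_Q (T lt E p : ZFSet.{0}) : Prop :=
  (fs (fs p) = sn (fs p) ∧ fs (sn p) = sn (sn p)) ∨
    (fs (fs p) ∈ sn (fs p) ∧ ∃ s ∈ T, ∃ t ∈ T, pair (pair (fs (fs p)) (sn (sn p))) s ∈ E ∧
      pair (pair (sn (fs p)) (fs (sn p))) t ∈ E ∧ pair s t ∈ lt ∧
      ∀ m' ∈ sn (sn p), ∀ s' ∈ T, pair (pair (fs (fs p)) m') s' ∈ E → ¬ pair s' t ∈ lt)

private theorem GAR_dfn {N : Set ZFSet.{0}} (hN : ZF N) {T lt E : ZFSet.{0}} (hT : T ∈ N) (hlt : lt ∈ N)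
    (hE : E ∈ N) : Dfn N (fun v => GAR_Q T lt E (v 0)) := by
  have cT := DT.cst hN hT
  have cl := DT.cst hN hlt
  have cE := DT.cst hN hE
  have ff : ∀ i, DT N (fun v : Env.{0} => fs (fs (v i))) := fun i => DT.fsT hN (DT.fsT hN (DT.var hN i))
  have sf : ∀ i, DT N (fun v : Env.{0} => sn (fs (v i))) := fun i => DT.snT hN (DT.fsT hN (DT.var hN i))
  have fsn : ∀ i, DT N (fun v : Env.{0} => fs (sn (v i))) := fun i => DT.fsT hN (DT.snT hN (DT.var hN i))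
  have ssn : ∀ i, DT N (fun v : Env.{0} => sn (sn (v i))) := fun i => DT.snT hN (DT.snT hN (DT.var hN i))
  have h1 : Dfn N (fun v : Env.{0} => pair (pair (fs (fs (v 4))) (v 1)) (v 0) ∈ E → ¬ pair (v 0) (v 2) ∈ lt) :=
    Dfn.imp (Dfn.mem hN (DT.pairT hN (DT.pairT hN (ff 4) (DT.var hN 1)) (DT.var hN 0)) cE)
      (Dfn.not (Dfn.mem hN (DT.pairT hN (DT.var hN 0) (DT.var hN 2)) cl))
  have h2 : Dfn N (fun v : Env.{0} => ∀ s' ∈ T, pair (pair (fs (fs (v 3))) (v 0)) s' ∈ E →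
      ¬ pair s' (v 1) ∈ lt) :=
    Dfn.ball hN cT (Q := fun v s' => pair (pair (fs (fs (v 3))) (v 0)) s' ∈ E → ¬ pair s' (v 1) ∈ lt) h1
  have h3 : Dfn N (fun v : Env.{0} => ∀ m' ∈ sn (sn (v 2)), ∀ s' ∈ T,
      pair (pair (fs (fs (v 2))) m') s' ∈ E → ¬ pair s' (v 0) ∈ lt) :=
    Dfn.ball hN (ssn 2) (Q := fun v m' => ∀ s' ∈ T, pair (pair (fs (fs (v 2))) m') s' ∈ E →
      ¬ pair s' (v 0) ∈ lt) h2
  have h4 : Dfn N (fun v : Env.{0} => pair (pair (fs (fs (v 2))) (sn (sn (v 2)))) (v 1) ∈ E ∧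
      pair (pair (sn (fs (v 2))) (fs (sn (v 2)))) (v 0) ∈ E ∧ pair (v 1) (v 0) ∈ lt ∧
      ∀ m' ∈ sn (sn (v 2)), ∀ s' ∈ T, pair (pair (fs (fs (v 2))) m') s' ∈ E → ¬ pair s' (v 0) ∈ lt) :=
    Dfn.and (Dfn.mem hN (DT.pairT hN (DT.pairT hN (ff 2) (ssn 2)) (DT.var hN 1)) cE)
      (Dfn.and (Dfn.mem hN (DT.pairT hN (DT.pairT hN (sf 2) (fsn 2)) (DT.var hN 0)) cE)
      (Dfn.and (Dfn.mem hN (DT.pairT hN (DT.var hN 1) (DT.var hN 0)) cl) h3))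
  have h5 : Dfn N (fun v : Env.{0} => ∃ t ∈ T, pair (pair (fs (fs (v 1))) (sn (sn (v 1)))) (v 0) ∈ E ∧
      pair (pair (sn (fs (v 1))) (fs (sn (v 1)))) t ∈ E ∧ pair (v 0) t ∈ lt ∧
      ∀ m' ∈ sn (sn (v 1)), ∀ s' ∈ T, pair (pair (fs (fs (v 1))) m') s' ∈ E → ¬ pair s' t ∈ lt) :=
    Dfn.bex hN cT (Q := fun v t => pair (pair (fs (fs (v 1))) (sn (sn (v 1)))) (v 0) ∈ E ∧
      pair (pair (sn (fs (v 1))) (fs (sn (v 1)))) t ∈ E ∧ pair (v 0) t ∈ lt ∧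
      ∀ m' ∈ sn (sn (v 1)), ∀ s' ∈ T, pair (pair (fs (fs (v 1))) m') s' ∈ E → ¬ pair s' t ∈ lt) h4
  have h6 : Dfn N (fun v : Env.{0} => ∃ s ∈ T, ∃ t ∈ T, pair (pair (fs (fs (v 0))) (sn (sn (v 0)))) s ∈ E ∧
      pair (pair (sn (fs (v 0))) (fs (sn (v 0)))) t ∈ E ∧ pair s t ∈ lt ∧
      ∀ m' ∈ sn (sn (v 0)), ∀ s' ∈ T, pair (pair (fs (fs (v 0))) m') s' ∈ E → ¬ pair s' t ∈ lt) :=
    Dfn.bex hN cT (Q := fun v s => ∃ t ∈ T, pair (pair (fs (fs (v 0))) (sn (sn (v 0)))) s ∈ E ∧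
      pair (pair (sn (fs (v 0))) (fs (sn (v 0)))) t ∈ E ∧ pair s t ∈ lt ∧
      ∀ m' ∈ sn (sn (v 0)), ∀ s' ∈ T, pair (pair (fs (fs (v 0))) m') s' ∈ E → ¬ pair s' t ∈ lt) h5
  exact Dfn.or (Dfn.and (Dfn.eq hN (ff 0) (sf 0)) (Dfn.eq hN (fsn 0) (ssn 0)))
    (Dfn.and (Dfn.mem hN (ff 0) (sf 0)) h6)

private theorem GAR_Q_pair (T lt E α β n m : ZFSet.{0}) : GAR_Q T lt E (pair (pair α β) (pair n m)) ↔
    (α = β ∧ n = m) ∨ (α ∈ β ∧ ∃ s ∈ T, ∃ t ∈ T, pair (pair α m) s ∈ E ∧ pair (pair β n) t ∈ E ∧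
      pair s t ∈ lt ∧ ∀ m' ∈ m, ∀ s' ∈ T, pair (pair α m') s' ∈ E → ¬ pair s' t ∈ lt) := by
  unfold GAR_Q
  rw [fs_pair, sn_pair, fs_pair, sn_pair, fs_pair, sn_pair]

theorem ev_arN (B : Type 1) [CompleteBooleanAlgebra B] (hd : Distr (Set.univ : Set B)) :
    Ev (fun M => ∀ U : Set B, GenF Set.univ M U → ∀ T ∈ Nm M U, ∀ lt ∈ Nm M U, Aronszajn (Nm M U) T lt →
      ∃ (en : Om → ℕ → ZFSet.{0}) (ρ : Om → Om → ℕ → ℕ → B), InM ρ M ∧ ArN M U T lt en ρ) := by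
  classical
  refine Ev.mono ((ev_zfc B).and ((ev_omega1 B hd).and ((of4 B).and ev_del))) ?_
  rintro M ⟨h1, h2, h3, h4⟩ U hU T hT lt hlt hA
  have hZ := h1 U hU
  have hN := hZ.zf
  have hκ := h2 U hU
  have hκN : o0 (del M) ∈ Nm M U := hκ.2.1.1
  obtain ⟨E, hE, e1, e2, e3, e4, e5⟩ := exists_enum hZ hT hlt hA hκ
  have hex : ∀ a, a < del M → ∀ n : ℕ, ∃ t, pair (pair (o0 a) (nz n)) t ∈ E := fun a ha n =>
    e2 _ (o0_mem_o0.2 ha) _ (nz_mem_omega n)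
  let en : Om → ℕ → ZFSet.{0} := fun a n =>
    if h : ∃ t, pair (pair (o0 a) (nz n)) t ∈ E then h.choose else ∅
  have hen : ∀ a, a < del M → ∀ n : ℕ, pair (pair (o0 a) (nz n)) (en a n) ∈ E := by
    intro a ha n
    have h := hex a ha n
    show pair (pair (o0 a) (nz n)) (if h : ∃ t, pair (pair (o0 a) (nz n)) t ∈ E then h.choose else ∅) ∈ E
    rw [dif_pos h]
    exact h.choose_spec
  have hun : ∀ a, a < del M → ∀ (n : ℕ) t, pair (pair (o0 a) (nz n)) t ∈ E → t = en a n :=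
    fun a ha n t ht => e3 _ _ _ ht (hen a ha n)
  have hET : ∀ x t, pair x t ∈ E → t ∈ T := by
    intro x t h
    obtain ⟨α, -, n, -, t', ht', hp⟩ := e1 _ h
    rw [(pair_inj.1 hp).2]
    exact ht'
  have henT : ∀ a, a < del M → ∀ n : ℕ, en a n ∈ T := fun a ha n => hET _ _ (hen a ha n)
  have hR0 : (prod (prod (o0 (del M)) (o0 (del M))) (prod ZFSet.omega ZFSet.omega)).sep (GAR_Q T lt E) ∈
      Nm M U := by
    refine sep_mem hN (GAR_dfn hN hT hlt hE) ?_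
    exact prod_mem hN (prod_mem hN hκN hκN) (prod_mem hN hN.omega hN.omega)
  have hRm : ∀ a b, a < del M → b < del M → ∀ n m : ℕ, (pair (pair (o0 a) (o0 b)) (pair (nz n) (nz m)) ∈
      (prod (prod (o0 (del M)) (o0 (del M))) (prod ZFSet.omega ZFSet.omega)).sep (GAR_Q T lt E) ↔
      (a = b ∧ n = m) ∨ (a < b ∧ pair (en a m) (en b n) ∈ lt ∧ ∀ m' < m, pair (en a m') (en b n) ∉ lt)) := by
    intro a b ha hb n m
    rw [mem_sep, GAR_Q_pair, o0_inj, nz_inj, o0_mem_o0]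
    have hp : pair (pair (o0 a) (o0 b)) (pair (nz n) (nz m)) ∈
        prod (prod (o0 (del M)) (o0 (del M))) (prod ZFSet.omega ZFSet.omega) := by
      rw [pair_mem_prod, pair_mem_prod, pair_mem_prod]
      exact ⟨⟨o0_mem_o0.2 ha, o0_mem_o0.2 hb⟩, nz_mem_omega n, nz_mem_omega m⟩
    constructor
    · rintro ⟨-, h | ⟨hab, s, hs, t, ht, hs', ht', hst, hmin⟩⟩
      · exact Or.inl h
      · rw [hun a ha m s hs', hun b hb n t ht'] at hst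
        rw [hun b hb n t ht'] at hmin
        refine Or.inr ⟨hab, hst, fun m' hm' => ?_⟩
        exact hmin _ (nz_mem_nz.2 hm') _ (henT a ha m') (hen a ha m')
    · rintro (h | ⟨hab, hst, hmin⟩)
      · exact ⟨hp, Or.inl h⟩
      · refine ⟨hp, Or.inr ⟨hab, en a m, henT a ha m, en b n, henT b hb n, hen a ha m, hen b hb n, hst, ?_⟩⟩
        intro m' hm' s' _ hs'
        obtain ⟨k, hk, rfl⟩ := mem_nz.1 hm'
        rw [hun a ha k s' hs']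
        exact hmin k hk
  obtain ⟨ρ, hρM, hρ⟩ := h3 U hU _ hR0
  have hρ' : ∀ a b, a < del M → b < del M → ∀ n m : ℕ, (ρ a b n m ∈ U ↔
      pair (pair (o0 a) (o0 b)) (pair (nz n) (nz m)) ∈
      (prod (prod (o0 (del M)) (o0 (del M))) (prod ZFSet.omega ZFSet.omega)).sep (GAR_Q T lt E)) :=
    fun a b ha hb n m => hρ a b n m ((h4 a).2 ha) ((h4 b).2 hb)
  refine ⟨en, ρ, hρM, ?_, ?_, ?_, ?_, ?_⟩
  · intro a ha n
    exact ⟨henT a ha n, e4 _ _ _ (hen a ha n)⟩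
  · intro t ht
    obtain ⟨α, hα, hh⟩ := (hA.height _ hκ).1 t ht
    obtain ⟨a, ha, rfl⟩ := mem_o0.1 hα
    obtain ⟨n, hn, hnt⟩ := e5 t ht _ hh
    obtain ⟨k, rfl⟩ := mem_omega.1 hn
    exact ⟨a, ha, k, hun a ha k t hnt⟩
  · intro a b ha hb n m
    rw [hρ' a b ha hb n m, hRm a b ha hb n m]
  · refine ⟨E, hE, fun z => ⟨fun hz => ?_, ?_⟩⟩
    · obtain ⟨α, hα, n, hn, t, ht, rfl⟩ := e1 z hz
      obtain ⟨a, ha, rfl⟩ := mem_o0.1 hα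
      obtain ⟨k, rfl⟩ := mem_omega.1 hn
      refine ⟨a, k, ha, ?_⟩
      rw [hun a ha k t hz]
    · rintro ⟨a, n, ha, rfl⟩
      exact hen a ha n
  · refine ⟨_, hR0, fun z => ⟨fun hz => ?_, ?_⟩⟩
    · have hz' := (mem_sep.1 hz).1
      rw [mem_prod] at hz'
      obtain ⟨x, hx, y, hy, rfl⟩ := hz'
      rw [mem_prod] at hx hy
      obtain ⟨α, hα, β, hβ, rfl⟩ := hx
      obtain ⟨n, hn, m, hm, rfl⟩ := hy
      obtain ⟨a, ha, rfl⟩ := mem_o0.1 hα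
      obtain ⟨b, hb, rfl⟩ := mem_o0.1 hβ
      obtain ⟨k, rfl⟩ := mem_omega.1 hn
      obtain ⟨l, rfl⟩ := mem_omega.1 hm
      exact ⟨a, b, k, l, ha, hb, (hρ' a b ha hb k l).2 hz, rfl⟩
    · rintro ⟨a, b, n, m, ha, hb, h, rfl⟩
      exact (hρ' a b ha hb n m).1 h

end Pool.Agent.CAN
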