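import Pool.Agent.CAN.EVC
import Pool.Agent.CAN.GDefs

/-!
# CAN/GVL: values of names and collapses, elementary facts

`enm M` enumerates `M` if `M` is countable and not empty (`Set.Countable.exists_eq_range`), so `mem_vl`, `mem_col` are
unfolding (`rw [vl]`, `ZFSet.mem_range`; if the recursive definition is unfolded by `rw [vl]` only once there is no problem).
* `mem_mkn`: `mkn f a = img (fun y => pair y (cd (f y))) a`, use `mem_img` and `ZFSet.pair_inj`, injectivity of `cd` (`Cod.inj`).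
* `vl_mkn`: from `mem_vl` and `mem_mkn`.
* `mem_chk`: unfold.  `ev_ctbl0`: `Ev.mdl` with any operation gives `Mdl`.
* `beq_eq`: one unfolding step; `beq_symm` (both sides are the same after exchanging the two infima): induction on the rank of `x` for all
  `y`: `beq B x y = beq B y x` (the inner values `beq B z w` have `z.rank < x.rank`).
-/

set_option autoImplicit false

namespace Pool.Agent.CAN
open ZFSet Pool.Agent.FBZ

variable {B : Type 1} [CompleteBooleanAlgebra B]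

private theorem GVL_enm {M : ZFSet.{1}} (hM : {x : ZFSet.{1} | x ∈ M}.Countable)
    (h0 : (∅ : ZFSet.{1}) ∈ M) (x : ZFSet.{1}) : x ∈ M ↔ ∃ n, enm M n = x := by
  classical
  obtain ⟨f, hf⟩ := hM.exists_eq_range ⟨∅, h0⟩
  have h : ∃ f : ℕ → ZFSet.{1}, ∀ x, x ∈ M ↔ ∃ n, f n = x := by
    refine ⟨f, fun x => ?_⟩
    have h1 := Set.ext_iff.1 hf x
    exact h1
  have e : enm M = h.choose := by
    unfold enm
    rw [dif_pos h]
  rw [e]
  exact h.choose_spec x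

theorem ev_ctbl0 : Ev (fun M => {x : ZFSet.{1} | x ∈ M}.Countable ∧ (∅ : ZFSet.{1}) ∈ M) := 
  ⟨fun x _ => x, fun _ h => ⟨h.ctbl, h.zero⟩⟩

theorem mem_vl {M : ZFSet.{1}} (hM : {x : ZFSet.{1} | x ∈ M}.Countable) (h0 : (∅ : ZFSet.{1}) ∈ M) {U : Set B}
    {x : ZFSet.{1}} {z : ZFSet.{0}} :
    z ∈ vl M U x ↔ ∃ y ∈ M, ∃ b ∈ U, pair y (cd b) ∈ x ∧ z = vl M U y := by
  rw [vl, ZFSet.mem_range]
  constructor
  · rintro ⟨n, rfl⟩
    obtain ⟨h1, b, hb, h2⟩ := n.2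
    exact ⟨enm M n.1, h1, b, hb, h2, rfl⟩
  · rintro ⟨y, hy, b, hb, hp, rfl⟩
    obtain ⟨n, rfl⟩ := (GVL_enm hM h0 y).1 hy
    exact ⟨⟨n, hy, b, hb, hp⟩, rfl⟩

theorem mem_col {M : ZFSet.{1}} (hM : {x : ZFSet.{1} | x ∈ M}.Countable) (h0 : (∅ : ZFSet.{1}) ∈ M)
    {x : ZFSet.{1}} {z : ZFSet.{0}} : z ∈ col M x ↔ ∃ y ∈ M, y ∈ x ∧ z = col M y := by
  rw [col, ZFSet.mem_range]
  constructor
  · rintro ⟨n, rfl⟩
    exact ⟨enm M n.1, n.2.1, n.2.2, rfl⟩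
  · rintro ⟨y, hy, hp, rfl⟩
    obtain ⟨n, rfl⟩ := (GVL_enm hM h0 y).1 hy
    exact ⟨⟨n, hy, hp⟩, rfl⟩

theorem mem_mkn {f : ZFSet.{1} → B} {a y : ZFSet.{1}} {b : B} :
    pair y (cd b) ∈ mkn f a ↔ y ∈ a ∧ b = f y := by
  unfold mkn
  rw [mem_img]
  constructor
  · rintro ⟨x, hx, h⟩
    obtain ⟨rfl, h2⟩ := pair_inj.1 h
    exact ⟨hx, Cod.inj h2⟩
  · rintro ⟨hy, rfl⟩
    exact ⟨y, hy, rfl⟩

theorem vl_mkn {M : ZFSet.{1}} (hM : {x : ZFSet.{1} | x ∈ M}.Countable) (h0 : (∅ : ZFSet.{1}) ∈ M) {U : Set B}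
    {f : ZFSet.{1} → B} {a : ZFSet.{1}} {z : ZFSet.{0}} :
    z ∈ vl M U (mkn f a) ↔ ∃ y ∈ M, y ∈ a ∧ f y ∈ U ∧ z = vl M U y := by
  rw [mem_vl hM h0]
  constructor
  · rintro ⟨y, hy, b, hb, hp, hz⟩
    obtain ⟨h1, rfl⟩ := mem_mkn.1 hp
    exact ⟨y, hy, h1, hb, hz⟩
  · rintro ⟨y, hy, h1, h2, hz⟩
    exact ⟨y, hy, f y, h2, mem_mkn.2 ⟨h1, rfl⟩, hz⟩

theorem mem_chk {x y : ZFSet.{1}} {b : B} :
    pair y (cd b) ∈ chk B x ↔ b = ⊤ ∧ ∃ z ∈ x, y = chk B z := by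
  rw [chk, ZFSet.mem_range]
  constructor
  · rintro ⟨z, h⟩
    obtain ⟨h1, h2⟩ := pair_inj.1 h
    exact ⟨(Cod.inj h2).symm, z.1, z.2, h1.symm⟩
  · rintro ⟨rfl, z, hz, rfl⟩
    exact ⟨⟨z, hz⟩, rfl⟩

private theorem GVL_ri {p : ZFSet.{1} → Prop} (h : ∀ x, (∀ y, y.rank < x.rank → p y) → p x) (x : ZFSet.{1}) : p x :=
  (InvImage.wf ZFSet.rank (wellFounded_lt (α := Ordinal.{1}))).induction x h

private theorem GVL_beq (x y : ZFSet.{1}) : beq B x y =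
    (⨅ z : {z : ZFSet.{1} × B // pair z.1 (cd z.2) ∈ x},
      z.1.2 ⇨ ⨆ w : {w : ZFSet.{1} × B // pair w.1 (cd w.2) ∈ y}, w.1.2 ⊓ beq B z.1.1 w.1.1) ⊓
    (⨅ w : {w : ZFSet.{1} × B // pair w.1 (cd w.2) ∈ y},
      w.1.2 ⇨ ⨆ z : {z : ZFSet.{1} × B // pair z.1 (cd z.2) ∈ x}, z.1.2 ⊓ beq B z.1.1 w.1.1) := by
  rw [beq]

theorem beq_symm (x y : ZFSet.{1}) : beq B x y = beq B y x := by
  revert y
  refine GVL_ri (p := fun x => ∀ y, beq B x y = beq B y x) ?_ x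
  intro x ih y
  rw [GVL_beq x y, GVL_beq y x, inf_comm]
  congr 1
  · refine iInf_congr fun w => ?_
    congr 1
    refine iSup_congr fun z => ?_
    rw [ih z.1.1 (rank_lt_pair z.2)]
  · refine iInf_congr fun w => ?_
    congr 1
    refine iSup_congr fun z => ?_
    rw [ih w.1.1 (rank_lt_pair w.2)]

theorem nm_trans {M : ZFSet.{1}} (hM : {x : ZFSet.{1} | x ∈ M}.Countable) (h0 : (∅ : ZFSet.{1}) ∈ M) {U : Set B} :
    ∀ z ∈ Nm M U, ∀ w ∈ z, w ∈ Nm M U := by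
  rintro z ⟨x, hx, rfl⟩ w hw
  obtain ⟨y, hy, b, hb, hp, rfl⟩ := (mem_vl hM h0).1 hw
  exact ⟨y, hy, rfl⟩

/-- The model is countable. -/
theorem nm_countable {M : ZFSet.{1}} (hM : {x : ZFSet.{1} | x ∈ M}.Countable) (U : Set B) : (Nm M U).Countable := by
  refine (hM.image (vl M U)).mono ?_
  rintro z ⟨x, hx, rfl⟩
  exact ⟨x, hx, rfl⟩

/-- Induction for collapses: every countable set `M` is handled by recursion on ranks. -/
theorem rank_induction {p : ZFSet.{1} → Prop} (h : ∀ x, (∀ y, y.rank < x.rank → p y) → p x) (x : ZFSet.{1}) : p x := 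
  GVL_ri h x

end Pool.Agent.CAN
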