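import Pool.Agent.CAN.GSI
import Pool.Agent.CAN.GVL

/-!
# CAN/GAT: the truth lemma for `=` and `∈`

For all sufficiently closed `M` and all generic `U`: for names `x, y ∈ M`
`vl M U x = vl M U y ↔ beq B x y ∈ U` and `vl M U y ∈ vl M U x ↔ bmem B y x ∈ U`.

PROOF.  Closure properties of `M` used:
(c1) for `x y ∈ M`: `beq B x y`, `bmem B y x` are in `M` (`Ev.fn2`), the operations of `B` (`ev_bool`), `cd`: if `pair z (cd b) ∈ M` then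
     `z ∈ M` and `InM b M` (`Ev.fn1` for the functions `ZFSet.{1} → ZFSet.{1}`, `p ↦ fs p`-like, or witnesses `Ev.wit1`: for `p` with
     `∃ z, ∃ b, p = pair z (cd b)` there are such `z` and `b` in `M`, and they are unique).
(c2) for `x ∈ M` and `z w ∈ M`: for the families
     `f (z,b) = b ⊓ beq B z y` (`pair z (cd b) ∈ x`), and `f (z,b) = b ⇨ bmem B z y`, indexed by
     `{z : ZFSet × B // pair z.1 (cd z.2) ∈ x}` with code `pair z.1 (cd z.2)`: `ev_sup`, `ev_inf`, with `Ev.diag` for the parameters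
     `x, y` (`ZFSet.{1}` is a `Cod` type).
Note `beq B x y = (⨅ z ∈ x, z.2 ⇨ bmem B z.1 y) ⊓ (⨅ w ∈ y, w.2 ⇨ bmem B w.1 x)` by `beq_symm` (in `bmem B z y` the value is
`⨆ w ∈ y, w.2 ⊓ beq B w.1 z`).
Fix `M`, `U`.  By induction on the rank of `x`, for all `y`: first `bmem`: for `z` with `pair z (cd b) ∈ x`, `z ∈ M`:
`vl z ∈ vl y ↔ ∃ w ∈ M, ∃ c ∈ U, pair w (cd c) ∈ y ∧ vl z = vl w ↔ ∃ w ∈ M, ∃ c ∈ U, pair w (cd c) ∈ y ∧ beq B z w ∈ U` (induction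
hypothesis for `z`) `↔ bmem B z y ∈ U` (`ev_sup`, and conversely the supremum is in `M` and above).
`vl x ⊆ vl y ↔ ∀ z ∈ M, ∀ b ∈ U, pair z (cd b) ∈ x → vl z ∈ vl y ↔ ∀ …, bmem B z y ∈ U ↔ (⨅ z, z.2 ⇨ bmem B z.1 y) ∈ U`.
For the other half `vl y ⊆ vl x`: for `w` with `pair w (cd c) ∈ y`: `vl w ∈ vl x ↔ ∃ z ∈ M, ∃ b ∈ U, pair z (cd b) ∈ x ∧ vl z = vl w ↔ …
beq B z w ∈ U` (induction hypothesis for `z`) `↔ (⨆ z, z.2 ⊓ beq B z.1 w) ∈ U`.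
-/

set_option autoImplicit false

namespace Pool.Agent.CAN
open ZFSet Pool.Agent.FBZ

private theorem GAT_mem_dom {e z b : ZFSet.{1}} (hb : pair z b ∈ e) : z ∈ dom e := by
  unfold dom
  rw [mem_sep]
  refine ⟨?_, b, hb⟩
  rw [mem_sUnion]
  refine ⟨{z}, ?_, by simp⟩
  rw [mem_sUnion]
  exact ⟨pair z b, hb, by simp [pair]⟩

section

variable (B : Type 1) [CompleteBooleanAlgebra B]

/-- the entries of a name -/
private abbrev GI (x : ZFSet.{1}) : Type 2 := {z : ZFSet.{1} × B // pair z.1 (cd z.2) ∈ x}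

private noncomputable def Ginf (x y : ZFSet.{1}) : B := ⨅ z : GI B x, z.1.2 ⇨ bmem B z.1.1 y

private theorem GAT_beq (x y : ZFSet.{1}) : beq B x y = Ginf B x y ⊓ Ginf B y x := by
  have h1 : beq B x y = (⨅ z : GI B x, z.1.2 ⇨ ⨆ w : GI B y, w.1.2 ⊓ beq B z.1.1 w.1.1) ⊓
      (⨅ w : GI B y, w.1.2 ⇨ ⨆ z : GI B x, z.1.2 ⊓ beq B z.1.1 w.1.1) := by
    rw [beq]
  rw [h1]
  congr 1
  refine iInf_congr fun z => ?_
  congr 1
  unfold bmem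
  refine iSup_congr fun w => ?_
  rw [beq_symm]

/-- closure properties of the model -/
private structure GCl (M : ZFSet.{1}) : Prop where
  c0 : {x : ZFSet.{1} | x ∈ M}.Countable ∧ (∅ : ZFSet.{1}) ∈ M
  bool : ∀ U : Set B, GenF Set.univ M U → ⊤ ∈ U ∧ ∀ a b : B, InM a M → InM b M →
    (aᶜ ∈ U ↔ a ∉ U) ∧ (a ⊓ b ∈ U ↔ a ∈ U ∧ b ∈ U) ∧ (a ⊔ b ∈ U ↔ a ∈ U ∨ b ∈ U) ∧
    (a ⇨ b ∈ U ↔ (a ∈ U → b ∈ U)) ∧ (a ≤ b → a ∈ U → b ∈ U)
  fst : ∀ p, InM p M → ∀ (z : ZFSet.{1}) (b : B), p = pair z (cd b) → z ∈ M ∧ InM b M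
  beq : ∀ x y : ZFSet.{1}, InM x M → InM y M → InM (CAN.beq B x y) M
  bmem : ∀ x y : ZFSet.{1}, InM x M → InM y M → InM (CAN.bmem B x y) M
  inf : ∀ x y : ZFSet.{1}, InM x M → InM y M → InM (Ginf B x y) M
  himp : ∀ a b : B, InM a M → InM b M → InM (a ⇨ b) M
  meet : ∀ a b : B, InM a M → InM b M → InM (a ⊓ b) M
  sup : ∀ x : ZFSet.{1}, InM x M → ∀ y : ZFSet.{1}, InM y M → ∀ U : Set B, GenF Set.univ M U →
    (⨆ z : GI B x, z.1.2 ⊓ CAN.beq B z.1.1 y) ∈ U →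
    ∃ z : GI B x, pair z.1.1 (cd z.1.2) ∈ M ∧ z.1.2 ⊓ CAN.beq B z.1.1 y ∈ U
  infi : ∀ x : ZFSet.{1}, InM x M → ∀ y : ZFSet.{1}, InM y M → ∀ U : Set B, GenF Set.univ M U →
    (∀ z : GI B x, pair z.1.1 (cd z.1.2) ∈ M → (z.1.2 ⇨ CAN.bmem B z.1.1 y) ∈ U) →
    (⨅ z : GI B x, z.1.2 ⇨ CAN.bmem B z.1.1 y) ∈ U

private theorem GAT_cl : Ev (GCl B) := by
  have h0 := ev_ctbl0
  have h1 := ev_bool (B := B)
  have h2 : Ev (fun M => ∀ p : ZFSet.{1}, InM p M → ∀ (z : ZFSet.{1}) (b : B), p = pair z (cd b) →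
      z ∈ M ∧ InM b M) := by
    classical
    have ha := Ev.fn1 (S := ZFSet.{1}) (Z := ZFSet.{1})
      (fun p => if h : ∃ z w : ZFSet.{1}, p = pair z w then h.choose else ∅)
    have hb := Ev.fn1 (S := ZFSet.{1}) (Z := ZFSet.{1})
      (fun p => if h : ∃ w z : ZFSet.{1}, p = pair z w then h.choose else ∅)
    refine (ha.and hb).mono ?_
    rintro M ⟨ha, hb⟩ p hp z b rfl
    constructor
    · have h := ha _ hp
      have hex : ∃ z' w : ZFSet.{1}, pair z (cd b) = pair z' w := ⟨_, _, rfl⟩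
      rw [dif_pos hex] at h
      obtain ⟨w, hw⟩ := hex.choose_spec
      have e := (pair_inj.1 hw).1
      rw [← e] at h
      exact h
    · have h := hb _ hp
      have hex : ∃ w z' : ZFSet.{1}, pair z (cd b) = pair z' w := ⟨_, _, rfl⟩
      rw [dif_pos hex] at h
      obtain ⟨w, hw⟩ := hex.choose_spec
      have e := (pair_inj.1 hw).2
      rw [← e] at h
      exact h
  have h3 := Ev.fn2 (S := ZFSet.{1}) (T := ZFSet.{1}) (Z := B) (fun x y => beq B x y)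
  have h4 := Ev.fn2 (S := ZFSet.{1}) (T := ZFSet.{1}) (Z := B) (fun x y => bmem B x y)
  have h5 := Ev.fn2 (S := ZFSet.{1}) (T := ZFSet.{1}) (Z := B) (fun x y => Ginf B x y)
  have h6 := Ev.fn2 (S := B) (T := B) (Z := B) (fun a b => a ⇨ b)
  have h7 := Ev.fn2 (S := B) (T := B) (Z := B) (fun a b => a ⊓ b)
  have h8 : Ev (fun M => ∀ x : ZFSet.{1}, InM x M → ∀ y : ZFSet.{1}, InM y M → ∀ U : Set B,
      GenF Set.univ M U → (⨆ z : GI B x, z.1.2 ⊓ beq B z.1.1 y) ∈ U →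
      ∃ z : GI B x, pair z.1.1 (cd z.1.2) ∈ M ∧ z.1.2 ⊓ beq B z.1.1 y ∈ U) :=
    Ev.diag fun x => Ev.diag fun y => ev_sup (fun z : GI B x => pair z.1.1 (cd z.1.2))
      (fun z : GI B x => z.1.2 ⊓ beq B z.1.1 y)
  have h9 : Ev (fun M => ∀ x : ZFSet.{1}, InM x M → ∀ y : ZFSet.{1}, InM y M → ∀ U : Set B,
      GenF Set.univ M U →
      (∀ z : GI B x, pair z.1.1 (cd z.1.2) ∈ M → (z.1.2 ⇨ bmem B z.1.1 y) ∈ U) →
      (⨅ z : GI B x, z.1.2 ⇨ bmem B z.1.1 y) ∈ U) :=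
    Ev.diag fun x => Ev.diag fun y => ev_inf (fun z : GI B x => pair z.1.1 (cd z.1.2))
      (fun z : GI B x => z.1.2 ⇨ bmem B z.1.1 y)
  refine ((((((((h0.and h1).and h2).and h3).and h4).and h5).and h6).and h7).and (h8.and h9)).mono ?_
  rintro M ⟨⟨⟨⟨⟨⟨⟨⟨h0, h1⟩, h2⟩, h3⟩, h4⟩, h5⟩, h6⟩, h7⟩, h8, h9⟩
  exact ⟨h0, h1, h2, h3, h4, h5, h6, h7, h8, h9⟩

variable {B}

private theorem GAT_mem {M : ZFSet.{1}} (hc : GCl B M) {U : Set B} (hU : GenF Set.univ M U)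
    {w x : ZFSet.{1}} (hw : w ∈ M) (hx : x ∈ M)
    (H : ∀ z ∈ M, ∀ b : B, pair z (cd b) ∈ x → (vl M U z = vl M U w ↔ beq B z w ∈ U)) :
    vl M U w ∈ vl M U x ↔ bmem B w x ∈ U := by
  rw [mem_vl hc.c0.1 hc.c0.2]
  constructor
  · rintro ⟨z, hz, b, hb, hp, he⟩
    have h1 := (H z hz b hp).1 he.symm
    have hbM : InM b M := (hU.sub b hb).2
    have h2 : b ⊓ beq B z w ∈ U := (((hc.bool U hU).2 b _ hbM (hc.beq z w hz hw)).2.1).2 ⟨hb, h1⟩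
    refine hU.up _ h2 _ (Set.mem_univ _) (hc.bmem w x hw hx) ?_
    exact le_iSup (fun z : GI B x => z.1.2 ⊓ beq B z.1.1 w) ⟨(z, b), hp⟩
  · intro h
    obtain ⟨⟨⟨z, b⟩, hp⟩, hM, h1⟩ := hc.sup x hx w hw U hU h
    obtain ⟨hz, hb⟩ := hc.fst _ hM z b rfl
    have h2 := (((hc.bool U hU).2 b _ hb (hc.beq z w hz hw)).2.1).1 h1
    exact ⟨z, hz, b, h2.1, hp, ((H z hz b hp).2 h2.2).symm⟩

private theorem GAT_sub {M : ZFSet.{1}} (hc : GCl B M) {U : Set B} (hU : GenF Set.univ M U)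
    {x y : ZFSet.{1}} (hx : x ∈ M) (hy : y ∈ M)
    (H : ∀ z ∈ M, ∀ b : B, pair z (cd b) ∈ x → (vl M U z ∈ vl M U y ↔ bmem B z y ∈ U)) :
    (∀ t, t ∈ vl M U x → t ∈ vl M U y) ↔ Ginf B x y ∈ U := by
  constructor
  · intro h
    refine hc.infi x hx y hy U hU ?_
    rintro ⟨⟨z, b⟩, hp⟩ hM
    obtain ⟨hz, hb⟩ := hc.fst _ hM z b rfl
    refine (((hc.bool U hU).2 b _ hb (hc.bmem z y hz hy)).2.2.2.1).2 fun hbU => ?_
    refine (H z hz b hp).1 (h _ ?_)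
    exact (mem_vl hc.c0.1 hc.c0.2).2 ⟨z, hz, b, hbU, hp, rfl⟩
  · intro h t ht
    obtain ⟨z, hz, b, hb, hp, rfl⟩ := (mem_vl hc.c0.1 hc.c0.2).1 ht
    have hbM : InM b M := (hU.sub b hb).2
    have h1 : (b ⇨ bmem B z y) ∈ U :=
      hU.up _ h _ (Set.mem_univ _) (hc.himp _ _ hbM (hc.bmem z y hz hy))
        (iInf_le (fun z : GI B x => z.1.2 ⇨ bmem B z.1.1 y) ⟨(z, b), hp⟩)
    exact (H z hz b hp).2 ((((hc.bool U hU).2 b _ hbM (hc.bmem z y hz hy)).2.2.2.1).1 h1 hb)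

private theorem GAT_eq {M : ZFSet.{1}} (hc : GCl B M) {U : Set B} (hU : GenF Set.univ M U) :
    ∀ x : ZFSet.{1}, x ∈ M → ∀ y ∈ M, (vl M U x = vl M U y ↔ beq B x y ∈ U) := by
  refine rank_induction ?_
  intro x ih hx y hy
  have e1 := GAT_sub hc hU hx hy (fun z hz b hp => GAT_mem hc hU hz hy (fun w hw c _ => by
    rw [beq_symm w z, eq_comm]
    exact ih z (rank_lt_pair hp) hz w hw))
  have e2 := GAT_sub hc hU hy hx (fun w hw c _ => GAT_mem hc hU hw hx (fun z hz b hp =>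
    ih z (rank_lt_pair hp) hz w hw))
  rw [GAT_beq, ((hc.bool U hU).2 _ _ (hc.inf x y hx hy) (hc.inf y x hy hx)).2.1, ← e1, ← e2]
  constructor
  · intro h
    rw [h]
    exact ⟨fun _ h => h, fun _ h => h⟩
  · rintro ⟨h1, h2⟩
    exact ZFSet.ext fun t => ⟨h1 t, h2 t⟩

end

theorem ev_beq (B : Type 1) [CompleteBooleanAlgebra B] :
    Ev (fun M => ∀ U : Set B, GenF Set.univ M U → ∀ x ∈ M, ∀ y ∈ M,
      (vl M U x = vl M U y ↔ beq B x y ∈ U)) :=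
  (GAT_cl B).mono fun _ hc _ hU x hx y hy => GAT_eq hc hU x hx y hy

theorem ev_bmem (B : Type 1) [CompleteBooleanAlgebra B] :
    Ev (fun M => ∀ U : Set B, GenF Set.univ M U → ∀ x ∈ M, ∀ y ∈ M,
      (vl M U y ∈ vl M U x ↔ bmem B y x ∈ U)) :=
  (GAT_cl B).mono fun _ hc _ hU _ hx y hy => GAT_mem hc hU hy hx fun z hz _ _ =>
    GAT_eq hc hU z hz y hy

/-- Elements of `vl x` are values of elements of the domain of `x` with truth value in `U`. -/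
theorem ev_mem_dom (B : Type 1) [CompleteBooleanAlgebra B] :
    Ev (fun M => ∀ U : Set B, GenF Set.univ M U → ∀ x ∈ M, ∀ z,
      (z ∈ vl M U x ↔ ∃ y ∈ M, y ∈ dom x ∧ bmem B y x ∈ U ∧ z = vl M U y)) := by
  refine (ev_ctbl0.and (ev_bmem B)).mono ?_
  rintro M ⟨h0, hb⟩ U hU x hx z
  constructor
  · intro h
    obtain ⟨y, hy, b, hbU, hp, rfl⟩ := (mem_vl h0.1 h0.2).1 h
    exact ⟨y, hy, GAT_mem_dom hp, (hb U hU x hx y hy).1 h, rfl⟩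
  · rintro ⟨y, hy, _, h, rfl⟩
    exact (hb U hU x hx y hy).2 h

end Pool.Agent.CAN
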