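import Pool.Agent.CAN.GDefs

/-!
# CAN, part G: further definitions (wave 2)
-/

namespace Pool.Agent.CAN
open ZFSet Pool.Agent.FBZ

section
variable {B : Type 1} [CompleteBooleanAlgebra B]

/-- `en a n` (`a < del M`, `n : ℕ`) enumerates the nodes of height `a` of the Aronszajn tree `(T, lt)` of the
model `Nm M U`, and `ρ` is a name of the corresponding system: `ρ a b n m ∈ U` iff `m` is the least
index of the predecessor of `en b n` at level `a` (`m = n` for `a = b`). -/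
structure ArN (M : ZFSet.{1}) (U : Set B) (T lt : ZFSet.{0}) (en : Om → ℕ → ZFSet.{0})
    (ρ : Om → Om → ℕ → ℕ → B) : Prop where
  node : ∀ a, a < del M → ∀ n, en a n ∈ T ∧ Height (Nm M U) T lt (en a n) (o0 a)
  surj : ∀ t ∈ T, ∃ a, a < del M ∧ ∃ n, t = en a n
  rel : ∀ a b, a < del M → b < del M → ∀ n m, (ρ a b n m ∈ U ↔
    (a = b ∧ n = m) ∨ (a < b ∧ pair (en a m) (en b n) ∈ lt ∧ ∀ m' < m, pair (en a m') (en b n) ∉ lt))
  E : ∃ E ∈ Nm M U, ∀ z, z ∈ E ↔ ∃ a n, a < del M ∧ z = pair (pair (o0 a) (nz n)) (en a n)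
  R : ∃ R ∈ Nm M U, ∀ z, z ∈ R ↔ ∃ a b n m, a < del M ∧ b < del M ∧ ρ a b n m ∈ U ∧
    z = pair (pair (o0 a) (o0 b)) (pair (nz n) (nz m))

/-- The poset `QQ S` is `(ω, ∞)`-distributive. -/
def DistQ (S : Om → B) : Prop :=
  ∀ (p : QQ S) (D : ℕ → Set (QQ S)), (∀ n, ∀ q, ∃ r ≤ q, r ∈ D n) →
    (∀ n, ∀ q ∈ D n, ∀ r ≤ q, r ∈ D n) → ∃ q ≤ p, ∀ n, q ∈ D n

/-- Conditions of `QQ S` can be extended beyond every ordinal. -/
def UnbQ (S : Om → B) : Prop := ∀ (p : QQ S) (a : Om), ∃ q ≤ p, ∃ b ∈ q.1.2.s, a < b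

end

/-- The index `k` of the block of `a`: `k = h g a` for the least `g ∈ C` above `a`. -/
def NextC (δ : Om) (C : Om → Prop) (h : Om → Om → ℕ) (a : Om) (k : ℕ) : Prop :=
  ∃ g, g < δ ∧ C g ∧ a < g ∧ (∀ g', g' < δ → C g' → a < g' → g ≤ g') ∧ k = h g a

/-- The value `q` attached to the node `(a, n)`: `0` if no element of `C` is `≤ a`, and `r + 1` for
the value `r` at the predecessor `(g, m)` of the node at level `g`, the last element of `C` which is `≤ a`. -/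
def QPart (δ : Om) (C : Om → Prop) (R : Om → Om → ℕ → ℕ → Prop) (F : Om → ℕ → ℕ → Prop) (a : Om)
    (n q : ℕ) : Prop :=
  (q = 0 ∧ ∀ g, g < δ → C g → a < g) ∨
    ∃ g, C g ∧ g ≤ a ∧ (∀ g', C g' → g' ≤ a → g' ≤ g) ∧ ∃ m r, R g a n m ∧ F g m r ∧ q = r + 1

end Pool.Agent.CAN
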