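import Pool.Agent.CAN.GSI
import Pool.Agent.CAN.GDefs2
import Pool.Agent.CAN.DEL

/-!
# CAN/GSY: from the model to Boolean values: systems without branches

Let `ρ` be a name for a system.  The four infima (over all parameters in `V`)
`v₁ = ⨅ a ≤ b, n, ⨆ m, ρ a b n m`, `v₂ = ⨅ (ρ a b n m ⊓ ρ a b n m')ᶜ`, `v₃ = ⨅ ρ a a n n`, `v₄ = ⨅ (ρ b c n m ⊓ ρ a b m k ⇨ ρ a c n k)` are in `U`, by `ev_inf` for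
families indexed by tuples of parameters (code: nested pairs of the codes, or use `Cod` of the product type in `Type 1`; if the tuple is in `M` then its
components are in `M`; `InM a M ↔ a < del M` by `ev_del`), with the parameter `ρ` by `Ev.diag`.
`D = {b | ∃ x : Om → ℕ → B, (∀ a, b ≤ ⨆ n, x a n) ∧ ∀ a c n m, a ≤ c → b ⊓ x c n ⊓ x a m ≤ ρ a c n m}`, `v₅ = (sSup D)ᶜ`.  If `v₅ ∉ U` then `sSup D ∈ U` and some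
`b ∈ D ∩ U`; a witness `x` can be taken in `M` (`Ev.wit2` for the relation of `(ρ, b)` and `x`), and it contradicts the hypothesis on branches.
`b₀ = v₁ ⊓ v₂ ⊓ v₃ ⊓ v₄ ⊓ v₅ ∈ U` works; `NoBr ρ b₀`: a `b ≤ b₀` with a branch `x` is in `D`, so `b ≤ sSup D` and `b ≤ (sSup D)ᶜ`.
-/

set_option autoImplicit false

namespace Pool.Agent.CAN
open ZFSet Pool.Agent.FBZ

section
variable {B : Type 1} [CompleteBooleanAlgebra B]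

private def GSY_br (ρ : Om → Om → ℕ → ℕ → B) (b : B) (x : Om → ℕ → B) : Prop :=
  (∀ a, b ≤ ⨆ n, x a n) ∧ ∀ a c n m, a ≤ c → b ⊓ x c n ⊓ x a m ≤ ρ a c n m

private noncomputable def GSY_v1 (ρ : Om → Om → ℕ → ℕ → B) : B :=
  ⨅ i : {p : Om × Om × ℕ // p.1 ≤ p.2.1}, ⨆ m, ρ i.1.1 i.1.2.1 i.1.2.2 m

private noncomputable def GSY_v2 (ρ : Om → Om → ℕ → ℕ → B) : B :=
  ⨅ i : {p : Om × Om × ℕ × ℕ × ℕ // p.1 ≤ p.2.1 ∧ p.2.2.2.1 ≠ p.2.2.2.2},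
    (ρ i.1.1 i.1.2.1 i.1.2.2.1 i.1.2.2.2.1 ⊓ ρ i.1.1 i.1.2.1 i.1.2.2.1 i.1.2.2.2.2)ᶜ

private noncomputable def GSY_v3 (ρ : Om → Om → ℕ → ℕ → B) : B :=
  ⨅ i : Om × ℕ, ρ i.1 i.1 i.2 i.2

private noncomputable def GSY_v4 (ρ : Om → Om → ℕ → ℕ → B) : B :=
  ⨅ i : {p : Om × Om × Om × ℕ × ℕ × ℕ // p.1 ≤ p.2.1 ∧ p.2.1 ≤ p.2.2.1},
    (ρ i.1.2.1 i.1.2.2.1 i.1.2.2.2.1 i.1.2.2.2.2.1 ⊓ ρ i.1.1 i.1.2.1 i.1.2.2.2.2.1 i.1.2.2.2.2.2) ⇨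
      ρ i.1.1 i.1.2.2.1 i.1.2.2.2.1 i.1.2.2.2.2.2

private noncomputable def GSY_s5 (ρ : Om → Om → ℕ → ℕ → B) : B :=
  ⨆ i : {p : B × (Om → ℕ → B) // GSY_br ρ p.1 p.2}, i.1.1

private theorem GSY_e1 (ρ : Om → Om → ℕ → ℕ → B) : Ev (fun M => ∀ U : Set B, GenF Set.univ M U →
    (∀ a b, a ≤ b → b < del M → ∀ n, ∃ m, ρ a b n m ∈ U) → GSY_v1 ρ ∈ U) := by
  refine Ev.mono ((((ev_inf (fun i : {p : Om × Om × ℕ // p.1 ≤ p.2.1} => cd i.1)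
    (fun i => ⨆ m, ρ i.1.1 i.1.2.1 i.1.2.2 m)).and ev_del).and
    (Ev.fn1 (fun p : Om × Om × ℕ => p.2.1))).and
    (Ev.fn1 (fun p : Om × Om × ℕ => ⨆ m, ρ p.1 p.2.1 p.2.2 m))) ?_
  rintro M ⟨⟨⟨h1, h2⟩, h3⟩, h4⟩ U hU h
  refine h1 U hU (fun i hi => ?_)
  obtain ⟨m, hm⟩ := h i.1.1 i.1.2.1 i.2 ((h2 _).1 (h3 i.1 hi)) i.1.2.2
  exact hU.up _ hm _ (Set.mem_univ _) (h4 i.1 hi) (le_iSup (fun m => ρ i.1.1 i.1.2.1 i.1.2.2 m) m)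

private theorem GSY_e2 (ρ : Om → Om → ℕ → ℕ → B) : Ev (fun M => ∀ U : Set B, GenF Set.univ M U →
    (∀ a b n m m', a ≤ b → b < del M → ρ a b n m ∈ U → ρ a b n m' ∈ U → m = m') → GSY_v2 ρ ∈ U) := by
  refine Ev.mono (((((ev_inf (fun i : {p : Om × Om × ℕ × ℕ × ℕ // p.1 ≤ p.2.1 ∧ p.2.2.2.1 ≠ p.2.2.2.2} => cd i.1)
    (fun i => (ρ i.1.1 i.1.2.1 i.1.2.2.1 i.1.2.2.2.1 ⊓ ρ i.1.1 i.1.2.1 i.1.2.2.1 i.1.2.2.2.2)ᶜ)).and ev_del).and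
    (Ev.fn1 (fun p : Om × Om × ℕ × ℕ × ℕ => p.2.1))).and (ev_bool (B := B))).and
    ((Ev.fn1 (fun p : Om × Om × ℕ × ℕ × ℕ => ρ p.1 p.2.1 p.2.2.1 p.2.2.2.1)).and
    ((Ev.fn1 (fun p : Om × Om × ℕ × ℕ × ℕ => ρ p.1 p.2.1 p.2.2.1 p.2.2.2.2)).and
    (Ev.fn2 (fun x y : B => x ⊓ y))))) ?_
  rintro M ⟨⟨⟨⟨h1, h2⟩, h3⟩, h4⟩, h5, h6, h7⟩ U hU h
  refine h1 U hU (fun i hi => ?_)
  have hb := (h4 U hU).2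
  have hx := h5 i.1 hi
  have hy := h6 i.1 hi
  refine ((hb _ _ (h7 _ _ hx hy) hx).1).2 (fun hxy => ?_)
  obtain ⟨hx1, hy1⟩ := ((hb _ _ hx hy).2.1).1 hxy
  exact i.2.2 (h _ _ _ _ _ i.2.1 ((h2 _).1 (h3 i.1 hi)) hx1 hy1)

private theorem GSY_e3 (ρ : Om → Om → ℕ → ℕ → B) : Ev (fun M => ∀ U : Set B, GenF Set.univ M U →
    (∀ a n, a < del M → ρ a a n n ∈ U) → GSY_v3 ρ ∈ U) := by
  refine Ev.mono (((ev_inf (fun i : Om × ℕ => cd i)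
    (fun i => ρ i.1 i.1 i.2 i.2)).and ev_del).and
    (Ev.fn1 (fun p : Om × ℕ => p.1))) ?_
  rintro M ⟨⟨h1, h2⟩, h3⟩ U hU h
  exact h1 U hU (fun i hi => h _ _ ((h2 _).1 (h3 i hi)))

private theorem GSY_e4 (ρ : Om → Om → ℕ → ℕ → B) : Ev (fun M => ∀ U : Set B, GenF Set.univ M U →
    (∀ a b c n m k, a ≤ b → b ≤ c → c < del M → ρ b c n m ∈ U → ρ a b m k ∈ U → ρ a c n k ∈ U) →
    GSY_v4 ρ ∈ U) := by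
  refine Ev.mono (((((ev_inf (fun i : {p : Om × Om × Om × ℕ × ℕ × ℕ // p.1 ≤ p.2.1 ∧ p.2.1 ≤ p.2.2.1} => cd i.1)
    (fun i => (ρ i.1.2.1 i.1.2.2.1 i.1.2.2.2.1 i.1.2.2.2.2.1 ⊓ ρ i.1.1 i.1.2.1 i.1.2.2.2.2.1 i.1.2.2.2.2.2) ⇨
      ρ i.1.1 i.1.2.2.1 i.1.2.2.2.1 i.1.2.2.2.2.2)).and ev_del).and
    (Ev.fn1 (fun p : Om × Om × Om × ℕ × ℕ × ℕ => p.2.2.1))).and (ev_bool (B := B))).and
    ((Ev.fn1 (fun p : Om × Om × Om × ℕ × ℕ × ℕ => ρ p.2.1 p.2.2.1 p.2.2.2.1 p.2.2.2.2.1)).and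
    ((Ev.fn1 (fun p : Om × Om × Om × ℕ × ℕ × ℕ => ρ p.1 p.2.1 p.2.2.2.2.1 p.2.2.2.2.2)).and
    ((Ev.fn1 (fun p : Om × Om × Om × ℕ × ℕ × ℕ => ρ p.1 p.2.2.1 p.2.2.2.1 p.2.2.2.2.2)).and
    (Ev.fn2 (fun x y : B => x ⊓ y)))))) ?_
  rintro M ⟨⟨⟨⟨h1, h2⟩, h3⟩, h4⟩, h5, h6, h7, h8⟩ U hU h
  refine h1 U hU (fun i hi => ?_)
  have hb := (h4 U hU).2
  have hx := h5 i.1 hi
  have hy := h6 i.1 hi
  have hz := h7 i.1 hi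
  refine ((hb _ _ (h8 _ _ hx hy) hz).2.2.2.1).2 (fun hxy => ?_)
  obtain ⟨hx1, hy1⟩ := ((hb _ _ hx hy).2.1).1 hxy
  exact h _ _ _ _ _ _ i.2.1 i.2.2 ((h2 _).1 (h3 i.1 hi)) hx1 hy1

private theorem GSY_sup (x : Om → ℕ → B) : Ev (fun M => ∀ U : Set B, GenF Set.univ M U →
    ∀ a, InM a M → (⨆ n, x a n) ∈ U → ∃ n, x a n ∈ U) := by
  refine Ev.mono (Ev.diag (T := Om) (fun a => ev_sup (fun n : ℕ => cd n) (fun n => x a n))) ?_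
  intro M h U hU a ha hs
  obtain ⟨n, -, hn⟩ := h a ha U hU hs
  exact ⟨n, hn⟩

private theorem GSY_e5 (ρ : Om → Om → ℕ → ℕ → B) : Ev (fun M => ∀ U : Set B, GenF Set.univ M U →
    (∀ x : Om → ℕ → B, InM x M → (∀ a, a < del M → ∃ n, x a n ∈ U) →
        (∀ a c n m, a ≤ c → c < del M → x c n ∈ U → x a m ∈ U → ρ a c n m ∈ U) → False) →
    (GSY_s5 ρ)ᶜ ∈ U) := by
  refine Ev.mono (((((ev_sup (fun i : {p : B × (Om → ℕ → B) // GSY_br ρ p.1 p.2} => cd i.1.2)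
    (fun i => i.1.1)).and ev_del).and (Ev.diag (T := Om → ℕ → B) (fun x => GSY_sup x))).and
    (ev_bool (B := B))).and
    ((Ev.const (GSY_s5 ρ)).and ((Ev.fn2 (fun (x : Om → ℕ → B) (a : Om) => ⨆ n, x a n)).and
    ((Ev.fn4 ρ).and Ev.nat)))) ?_
  rintro M ⟨⟨⟨⟨h1, h2⟩, h3⟩, h4⟩, h5, h6, h7, h8⟩ U hU h
  have hb := (h4 U hU).2
  refine ((hb _ _ h5 h5).1).2 (fun hs => ?_)
  obtain ⟨⟨⟨b, x⟩, hbr1, hbr2⟩, hxM, hbU⟩ := h1 U hU hs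
  refine h x hxM (fun a ha => ?_) (fun a c n m hac hc hxc hxa => ?_)
  · have haM := (h2 a).2 ha
    exact h3 x hxM U hU a haM (hU.up _ hbU _ (Set.mem_univ _) (h6 x a hxM haM) (hbr1 a))
  · have hcM := (h2 c).2 hc
    have haM := (h2 a).2 (lt_of_le_of_lt hac hc)
    exact hU.up _ (hU.inf _ (hU.inf _ hbU _ hxc) _ hxa) _ (Set.mem_univ _)
      (h7 a c n m haM hcM (h8 n) (h8 m)) (hbr2 a c n m hac)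

end

theorem ev_sys (B : Type 1) [CompleteBooleanAlgebra B] :
    Ev (fun M => ∀ U : Set B, GenF Set.univ M U → ∀ ρ : Om → Om → ℕ → ℕ → B, InM ρ M →
      (∀ a b, a ≤ b → b < del M → ∀ n, ∃ m, ρ a b n m ∈ U) →
      (∀ a b n m m', a ≤ b → b < del M → ρ a b n m ∈ U → ρ a b n m' ∈ U → m = m') →
      (∀ a n, a < del M → ρ a a n n ∈ U) →
      (∀ a b c n m k, a ≤ b → b ≤ c → c < del M → ρ b c n m ∈ U → ρ a b m k ∈ U → ρ a c n k ∈ U) →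
      (∀ x : Om → ℕ → B, InM x M → (∀ a, a < del M → ∃ n, x a n ∈ U) →
        (∀ a c n m, a ≤ c → c < del M → x c n ∈ U → x a m ∈ U → ρ a c n m ∈ U) → False) →
      ∃ b₀ ∈ U, Sys ρ b₀ ∧ NoBr ρ b₀) := by
  refine Ev.mono ((Ev.diag (GSY_e1 (B := B))).and ((Ev.diag (GSY_e2 (B := B))).and
    ((Ev.diag (GSY_e3 (B := B))).and ((Ev.diag (GSY_e4 (B := B))).and (Ev.diag (GSY_e5 (B := B))))))) ?_
  rintro M ⟨h1, h2, h3, h4, h5⟩ U hU ρ hρ g1 g2 g3 g4 g5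
  have k1 := h1 ρ hρ U hU g1
  have k2 := h2 ρ hρ U hU g2
  have k3 := h3 ρ hρ U hU g3
  have k4 := h4 ρ hρ U hU g4
  have k5 := h5 ρ hρ U hU g5
  refine ⟨GSY_v1 ρ ⊓ (GSY_v2 ρ ⊓ (GSY_v3 ρ ⊓ (GSY_v4 ρ ⊓ (GSY_s5 ρ)ᶜ))),
    hU.inf _ k1 _ (hU.inf _ k2 _ (hU.inf _ k3 _ (hU.inf _ k4 _ k5))), ?_, ?_⟩
  · have l1 : ∀ x y : B, x ⊓ y ≤ x := fun x y => inf_le_left
    have l2 : GSY_v1 ρ ⊓ (GSY_v2 ρ ⊓ (GSY_v3 ρ ⊓ (GSY_v4 ρ ⊓ (GSY_s5 ρ)ᶜ))) ≤ GSY_v2 ρ :=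
      inf_le_right.trans inf_le_left
    have l3 : GSY_v1 ρ ⊓ (GSY_v2 ρ ⊓ (GSY_v3 ρ ⊓ (GSY_v4 ρ ⊓ (GSY_s5 ρ)ᶜ))) ≤ GSY_v3 ρ :=
      inf_le_right.trans (inf_le_right.trans inf_le_left)
    have l4 : GSY_v1 ρ ⊓ (GSY_v2 ρ ⊓ (GSY_v3 ρ ⊓ (GSY_v4 ρ ⊓ (GSY_s5 ρ)ᶜ))) ≤ GSY_v4 ρ :=
      inf_le_right.trans (inf_le_right.trans (inf_le_right.trans inf_le_left))
    constructor
    · intro a b hab n
      exact inf_le_left.trans (iInf_le (fun i : {p : Om × Om × ℕ // p.1 ≤ p.2.1} =>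
        ⨆ m, ρ i.1.1 i.1.2.1 i.1.2.2 m) ⟨(a, b, n), hab⟩)
    · intro a b n m m' hab hm
      have := l2.trans (iInf_le (fun i : {p : Om × Om × ℕ × ℕ × ℕ // p.1 ≤ p.2.1 ∧ p.2.2.2.1 ≠ p.2.2.2.2} =>
        (ρ i.1.1 i.1.2.1 i.1.2.2.1 i.1.2.2.2.1 ⊓ ρ i.1.1 i.1.2.1 i.1.2.2.1 i.1.2.2.2.2)ᶜ)
        ⟨(a, b, n, m, m'), hab, hm⟩)
      rw [inf_assoc]
      exact le_compl_iff_disjoint_right.1 this |>.eq_bot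
    · intro a n
      exact l3.trans (iInf_le (fun i : Om × ℕ => ρ i.1 i.1 i.2 i.2) (a, n))
    · intro a b c n m k hab hbc
      have := l4.trans (iInf_le (fun i : {p : Om × Om × Om × ℕ × ℕ × ℕ // p.1 ≤ p.2.1 ∧ p.2.1 ≤ p.2.2.1} =>
        (ρ i.1.2.1 i.1.2.2.1 i.1.2.2.2.1 i.1.2.2.2.2.1 ⊓ ρ i.1.1 i.1.2.1 i.1.2.2.2.2.1 i.1.2.2.2.2.2) ⇨
        ρ i.1.1 i.1.2.2.1 i.1.2.2.2.1 i.1.2.2.2.2.2) ⟨(a, b, c, n, m, k), hab, hbc⟩)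
      rw [inf_assoc]
      exact (le_himp_iff).1 this
  · intro x b hb hx1 hx2
    have l5 : b ≤ (GSY_s5 ρ)ᶜ :=
      hb.trans (inf_le_right.trans (inf_le_right.trans (inf_le_right.trans inf_le_right)))
    have l6 : b ≤ GSY_s5 ρ :=
      le_iSup (fun i : {p : B × (Om → ℕ → B) // GSY_br ρ p.1 p.2} => i.1.1) ⟨(b, x), hx1, hx2⟩
    have := le_inf l6 l5
    rw [inf_compl_self] at this
    exact le_bot_iff.1 this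

end Pool.Agent.CAN
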