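import Pool.Agent.CAN.GAR
import Pool.Agent.CAN.GSY
import Pool.Agent.FBZ.DE1

/-!
# CAN/GBR: the system of an Aronszajn tree is forced to be a system without branches

Verify the hypotheses of `ev_sys` with `ArN` and `GHT`:
* total: for `a < b` the node `en b n` has a predecessor `s` of height `o0 a` (`height_down`), `s ∈ T` (`Tree.field`), `s = en a m` for some `m` (`surj`, `height_unique`, `o0_inj`); take the
  least `m` with `pair (en a m) (en b n) ∈ lt`.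
* unique: least numbers are unique.  * refl: clear.
* composition: the only case is `a < b < c`: transitivity, and if `m' < k` and `pair (en a m') (en c n) ∈ lt` then `en a m' = en a k` (`height_pred_unique`), so
  `pair (en a m') (en b m) ∈ lt`, contradiction.
* branches: let `x` be as in `ev_sys`, `X₀ ∈ N` the set of the `pair (o0 a) (nz n)` with `x a n ∈ U` (`mk1N`).  `b = {t ∈ T | ∃ p ∈ X₀, pair p t ∈ E} ∈ N` is a
  chain: `t = en a m`, `t' = en c n`, `a ≤ c`, `ρ a c n m ∈ U`.  It is not countable in `N`: it is not empty; if `f ∈ N` maps `ω` onto `b` then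
  `g = {pair n α | ∃ t, pair n t ∈ f ∧ Height t α} ∈ N` maps `ω` onto `o0 (del M)` (heights of elements of `b` are all `o0 a`, `a < del M`), which contradicts
  `ev_bdd_fun` (`del M < del M`).  So `b` is an `UncChain`, contradiction to `Aronszajn.nobranch`.
-/

set_option autoImplicit false

namespace Pool.Agent.CAN
open ZFSet Pool.Agent.FBZ

section
variable {B : Type 1} [CompleteBooleanAlgebra B] {M : ZFSet.{1}} {U : Set B} {T lt : ZFSet.{0}}
  {en : Om → ℕ → ZFSet.{0}} {ρ : Om → Om → ℕ → ℕ → B}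

omit [CompleteBooleanAlgebra B] in
private theorem GBR_idx (hN : ZF (Nm M U)) (hT : Tree (Nm M U) T lt) (hA : ArN M U T lt en ρ) {s : ZFSet.{0}}
    (hs : s ∈ T) {a : Om} (ha : Height (Nm M U) T lt s (o0 a)) : ∃ n, s = en a n := by
  obtain ⟨a', ha', n, hn⟩ := hA.surj s hs
  have h1 := (hA.node a' ha' n).2
  rw [← hn] at h1
  have h2 := o0_inj.1 (height_unique hN hT h1 ha)
  subst h2
  exact ⟨n, hn⟩

private theorem GBR_pred (hN : ZF (Nm M U)) (hT : Tree (Nm M U) T lt) (hA : ArN M U T lt en ρ) {a b : Om}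
    (hab : a < b) (hb : b < del M) (n : ℕ) : ∃ m, pair (en a m) (en b n) ∈ lt := by
  obtain ⟨s, hs, hs'⟩ := height_down hN hT (hA.node b hb n).2 (o0_mem_o0.2 hab)
  have h1 : s ∈ T := (pair_mem_prod.1 (hT.field hs)).1
  obtain ⟨m, rfl⟩ := GBR_idx hN hT hA h1 hs'
  exact ⟨m, hs⟩

private theorem GBR_tot (hN : ZF (Nm M U)) (hT : Tree (Nm M U) T lt) (hA : ArN M U T lt en ρ) {a b : Om}
    (hab : a ≤ b) (hb : b < del M) (n : ℕ) : ∃ m, ρ a b n m ∈ U := by
  classical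
  rcases hab.eq_or_lt with h | h
  · subst h
    exact ⟨n, (hA.rel a a hb hb n n).2 (Or.inl ⟨rfl, rfl⟩)⟩
  · have hex := GBR_pred hN hT hA h hb n
    refine ⟨Nat.find hex, (hA.rel a b (h.trans hb) hb n _).2 (Or.inr ⟨h, Nat.find_spec hex, ?_⟩)⟩
    intro m' hm'
    exact Nat.find_min hex hm'

omit [CompleteBooleanAlgebra B] in
private theorem GBR_uniq (hA : ArN M U T lt en ρ) {a b : Om} {n m m' : ℕ}
    (hab : a ≤ b) (hb : b < del M) (h : ρ a b n m ∈ U) (h' : ρ a b n m' ∈ U) : m = m' := by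
  have ha := hab.trans_lt hb
  rcases (hA.rel a b ha hb n m).1 h with ⟨h1, h2⟩ | ⟨h1, h2, h3⟩ <;>
    rcases (hA.rel a b ha hb n m').1 h' with ⟨h1', h2'⟩ | ⟨h1', h2', h3'⟩
  · rw [← h2, ← h2']
  · exact absurd h1 h1'.ne
  · exact absurd h1' h1.ne
  · rcases lt_trichotomy m m' with h4 | h4 | h4
    · exact absurd h2 (h3' m h4)
    · exact h4
    · exact absurd h2' (h3 m' h4)

omit [CompleteBooleanAlgebra B] in
private theorem GBR_comp (hN : ZF (Nm M U)) (hT : Tree (Nm M U) T lt) (hA : ArN M U T lt en ρ) {a b c : Om}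
    {n m k : ℕ} (hab : a ≤ b) (hbc : b ≤ c) (hc : c < del M) (h : ρ b c n m ∈ U) (h' : ρ a b m k ∈ U) :
    ρ a c n k ∈ U := by
  have hb := hbc.trans_lt hc
  have ha := hab.trans_lt hb
  rcases (hA.rel b c hb hc n m).1 h with ⟨h1, h2⟩ | ⟨h1, h2, h3⟩
  · subst h1
    subst h2
    exact h'
  · rcases (hA.rel a b ha hb m k).1 h' with ⟨h1', h2'⟩ | ⟨h1', h2', h3'⟩
    · subst h1'
      subst h2'
      exact h
    · refine (hA.rel a c ha hc n k).2 (Or.inr ⟨h1'.trans h1, hT.trans _ _ _ h2' h2, ?_⟩)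
      intro m' hm' hcon
      have h4 : en a m' = en a k :=
        height_pred_unique hN hT hcon (hT.trans _ _ _ h2' h2) (hA.node a ha m').2 (hA.node a ha k).2
          ⟨_, (hA.node c hc n).2⟩
      rw [← h4] at h2'
      exact h3' m' hm' h2'

private theorem GBR_branch (hN : ZF (Nm M U)) (hTN : T ∈ Nm M U) (hltN : lt ∈ Nm M U)
    (hAr : Aronszajn (Nm M U) T lt) (hA : ArN M U T lt en ρ) (hdel : ∀ a : Om, InM a M ↔ a < del M)
    (hom : Omega1 (Nm M U) (o0 (del M)))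
    (hbdd : ∀ f ∈ Nm M U, ∀ X : ZFSet.{0}, X ⊆ o0 (del M) → Surj f ZFSet.omega X → ∃ a : Om, a < del M ∧ X ⊆ o0 a)
    (x : Om → ℕ → B)
    (hX : ∃ S ∈ Nm M U, ∀ z, z ∈ S ↔ ∃ a n, InM a M ∧ x a n ∈ U ∧ z = pair (o0 a) (nz n))
    (h1 : ∀ a, a < del M → ∃ n, x a n ∈ U)
    (h2 : ∀ a c n m, a ≤ c → c < del M → x c n ∈ U → x a m ∈ U → ρ a c n m ∈ U) : False := by
  have hT := hAr.tree
  obtain ⟨X₀, hX₀, hX₀'⟩ := hX
  obtain ⟨E, hE, hE'⟩ := hA.E
  obtain ⟨b, hbdef⟩ : ∃ b : ZFSet.{0}, b = T.sep (fun t => ∃ p ∈ X₀, pair p t ∈ E) := ⟨_, rfl⟩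
  have hbN : b ∈ Nm M U := by
    rw [hbdef]
    refine sep_mem hN (Q := fun t => ∃ p ∈ X₀, pair p t ∈ E) ?_ hTN
    refine Dfn.bex hN (t := fun _ => X₀) (Q := fun v p => pair p (v 0) ∈ E) (DT.cst hN hX₀) ?_
    exact Dfn.mem hN (DT.pairT hN (DT.var hN 0) (DT.var hN 1)) (DT.cst hN hE)
  have hb : ∀ t, t ∈ b ↔ ∃ a n, a < del M ∧ x a n ∈ U ∧ t = en a n := by
    intro t
    rw [hbdef, mem_sep]
    constructor
    · rintro ⟨ht, p, hp, hpt⟩
      obtain ⟨a, n, ha, hxa, rfl⟩ := (hX₀' p).1 hp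
      obtain ⟨a', n', ha', he⟩ := (hE' _).1 hpt
      obtain ⟨e1, e2⟩ := pair_inj.1 he
      obtain ⟨e3, e4⟩ := pair_inj.1 e1
      rw [o0_inj] at e3
      rw [nz_inj] at e4
      subst e3
      subst e4
      exact ⟨a, n, ha', hxa, e2⟩
    · rintro ⟨a, n, ha, hxa, rfl⟩
      refine ⟨(hA.node a ha n).1, pair (o0 a) (nz n), (hX₀' _).2 ⟨a, n, (hdel a).2 ha, hxa, rfl⟩, ?_⟩
      exact (hE' _).2 ⟨a, n, ha, rfl⟩
  have hchain : ∀ a c n m, a ≤ c → c < del M → x c n ∈ U → x a m ∈ U →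
      en a m = en c n ∨ pair (en a m) (en c n) ∈ lt := by
    intro a c n m hac hc hxc hxa
    rcases (hA.rel a c (hac.trans_lt hc) hc n m).1 (h2 a c n m hac hc hxc hxa) with ⟨h3, h4⟩ | ⟨_, h4, _⟩
    · subst h3
      subst h4
      exact Or.inl rfl
    · exact Or.inr h4
  refine hAr.nobranch b hbN ⟨?_, ?_, ?_⟩
  · rw [hbdef]
    exact sep_subset
  · intro s hs t ht
    obtain ⟨a, n, ha, hxa, rfl⟩ := (hb s).1 hs
    obtain ⟨c, m, hc, hxc, rfl⟩ := (hb t).1 ht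
    rcases le_total a c with h | h
    · rcases hchain a c m n h hc hxc hxa with h3 | h3
      · exact Or.inl h3
      · exact Or.inr (Or.inl h3)
    · rcases hchain c a n m h ha hxa hxc with h3 | h3
      · exact Or.inl h3.symm
      · exact Or.inr (Or.inr h3)
  · rintro (h3 | ⟨f, hf, hfs⟩)
    · obtain ⟨a, ha, _⟩ := mem_o0.1 (hom.2.2.1)
      obtain ⟨n, hn⟩ := h1 a ha
      have h4 := (hb (en a n)).2 ⟨a, n, ha, hn, rfl⟩
      rw [h3] at h4
      exact notMem_empty _ h4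
    · obtain ⟨⟨hfsub, hfun⟩, hsurj⟩ := hfs
      have hκN : o0 (del M) ∈ Nm M U := hom.2.1.1
      obtain ⟨g, hg⟩ : ∃ g : ZFSet.{0}, g = (prod ZFSet.omega (o0 (del M))).sep
        (fun p => ∃ t ∈ T, pair (fs p) t ∈ f ∧ Height (Nm M U) T lt t (sn p)) := ⟨_, rfl⟩
      have hgN : g ∈ Nm M U := by
        rw [hg]
        refine sep_mem hN (Q := fun p => ∃ t ∈ T, pair (fs p) t ∈ f ∧ Height (Nm M U) T lt t (sn p)) ?_
          (prod_mem hN hN.omega hκN)
        refine Dfn.bex hN (t := fun _ => T)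
          (Q := fun v t => pair (fs (v 0)) t ∈ f ∧ Height (Nm M U) T lt t (sn (v 0))) (DT.cst hN hTN) ?_
        refine Dfn.and ?_ ?_
        · exact Dfn.mem hN (DT.pairT hN (DT.fsT hN (DT.var hN 1)) (DT.var hN 0)) (DT.cst hN hf)
        · exact Dfn.height hN hTN hltN (DT.var hN 0) (DT.snT hN (DT.var hN 1))
      have hgm : ∀ n α, pair n α ∈ g ↔ (n ∈ ZFSet.omega.{0} ∧ α ∈ o0 (del M)) ∧ ∃ t ∈ T, pair n t ∈ f ∧
          Height (Nm M U) T lt t α := by
        intro n α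
        rw [hg, mem_sep, pair_mem_prod, fs_pair, sn_pair]
      have hfb : ∀ {n t : ZFSet.{0}}, pair n t ∈ f → t ∈ b := fun h => (pair_mem_prod.1 (hfsub h)).2
      have hgs : Surj g ZFSet.omega (o0 (del M)) := by
        refine ⟨⟨?_, ?_⟩, ?_⟩
        · rw [hg]
          exact sep_subset
        · intro n hn
          obtain ⟨t, ht, htu⟩ := hfun n hn
          obtain ⟨a, m, ha, hxa, rfl⟩ := (hb t).1 (hfb ht)
          refine ⟨o0 a, (hgm _ _).2 ⟨⟨hn, o0_mem_o0.2 ha⟩, en a m, (hA.node a ha m).1, ht, (hA.node a ha m).2⟩, ?_⟩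
          intro α' hα'
          obtain ⟨_, t', ht', hft', hh⟩ := (hgm _ _).1 hα'
          have e := htu t' hft'
          rw [e] at hh
          exact height_unique hN hT hh (hA.node a ha m).2
        · intro α hα
          obtain ⟨a, ha, rfl⟩ := mem_o0.1 hα
          obtain ⟨m, hm⟩ := h1 a ha
          obtain ⟨n, hn, hnf⟩ := hsurj (en a m) ((hb _).2 ⟨a, m, ha, hm, rfl⟩)
          exact ⟨n, hn, (hgm _ _).2 ⟨⟨hn, hα⟩, en a m, (hA.node a ha m).1, hnf, (hA.node a ha m).2⟩⟩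
      obtain ⟨a, ha, hsub⟩ := hbdd g hgN (o0 (del M)) (fun _ h => h) hgs
      exact absurd (o0_mem_o0.1 (hsub (o0_mem_o0.2 ha))) (lt_irrefl a)

end

theorem ev_arSys (B : Type 1) [CompleteBooleanAlgebra B] (hd : Distr (Set.univ : Set B)) :
    Ev (fun M => ∀ U : Set B, GenF Set.univ M U → ∀ T ∈ Nm M U, ∀ lt ∈ Nm M U, Aronszajn (Nm M U) T lt →
      ∀ (en : Om → ℕ → ZFSet.{0}) (ρ : Om → Om → ℕ → ℕ → B), InM ρ M → ArN M U T lt en ρ →
      ∃ b₀ ∈ U, Sys ρ b₀ ∧ NoBr ρ b₀) := by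
  refine ((((((ev_sys B).and ev_del).and (mk1N B)).and (ev_bdd_fun B hd)).and (ev_omega1 B hd)).and
    (ev_zfc B)).mono ?_
  rintro M ⟨⟨⟨⟨⟨hsys, hdel⟩, hmk⟩, hbdd⟩, hom⟩, hzfc⟩ U hU T hT lt hlt hAr en ρ hρ hA
  have hN := (hzfc U hU).zf
  refine hsys U hU ρ hρ ?_ ?_ ?_ ?_ ?_
  · intro a b hab hb n
    exact GBR_tot hN hAr.tree hA hab hb n
  · intro a b n m m' hab hb h h'
    exact GBR_uniq hA hab hb h h'
  · intro a n ha
    exact (hA.rel a a ha ha n n).2 (Or.inl ⟨rfl, rfl⟩)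
  · intro a b c n m k hab hbc hc h h'
    exact GBR_comp hN hAr.tree hA hab hbc hc h h'
  · intro x hx h1 h2
    exact GBR_branch hN hT hlt hAr hA hdel (hom U hU) (hbdd U hU) x (hmk U hU x hx) h1 h2

end Pool.Agent.CAN
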