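import Pool.Agent.CAN.GOM

/-!
# CAN/GCH: CH in the model

Let `g : Om → ℕ → B` be the name of `Facts.ch` (in `M` by `Ev.const`), `r ∈ Nm M U` the set of all `pair (o0 a) (nz n)` with
`InM a M`, `g a n ∈ U` (`mk1N`).  `N = Nm M U` is a model of ZF (`ev_zf`), so by the calculus of FBZ (`DT.grT`, `DT.sepT`, `gr_mem`)
`f = gr (fun α => ZFSet.omega.sep (fun n => pair α n ∈ r)) (o0 (del M))` is in `N`; it is a function from `o0 (del M)` to
`powN N ω`.  It is onto: let `x ∈ N`, `x ⊆ ω`.  `ofN`: a name `y : ℕ → B` in `M`, `y n ∈ U ↔ nz n ∈ x`.  Claim: some `A : Set ℕ` in `M` satisfies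
`n ∈ A ↔ y n ∈ U`: apply `ev_choose` to `T = ULift.{1} Bool` and `F n t = y n` or `(y n)ᶜ`, and let `A = {n | g n = true}` (a function of `g`).
By `Facts.ch` and `ev_sup` (`Ev.diag` for the parameter `A`; `⊤ ∈ U`) there is `a` in `M` with `(⨅ n ∈ A, g a n) ⊓ ⨅ n ∈ Aᶜ, (g a n)ᶜ ∈ U`,
so `g a n ∈ U ↔ n ∈ A` (`GenF.up`; the values are in `M`), hence `f(o0 a) = x`.
-/

set_option autoImplicit false

namespace Pool.Agent.CAN
open ZFSet Pool.Agent.FBZ

theorem ev_ch (B : Type 1) [CompleteBooleanAlgebra B] (h : Facts B) :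
    Ev (fun M => ∀ U : Set B, GenF Set.univ M U → CH (Nm M U)) := by
  obtain ⟨g, hg⟩ := h.ch
  have k1 := ev_zf B
  have k2 := ev_omega1 B h.dist
  have k3 := mk1N B
  have k4 := Ev.const g
  have k5 := ofN B
  have k6 := ev_choose B h.dist (ULift.{1} Bool)
  have k7 := Ev.fn1 (S := ℕ → B) (fun y => (fun (n : ℕ) (t : ULift.{1} Bool) =>
    if t.down = true then y n else (y n)ᶜ))
  have k8 := Ev.fn1 (S := ℕ → ULift.{1} Bool) (fun G => {n : ℕ | (G n).down = true})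
  have k9 := (Ev.const (ULift.up.{1} true)).and (Ev.const (ULift.up.{1} false))
  have k10 : Ev (fun M => ∀ A : Set ℕ, InM A M → ∀ U : Set B, GenF Set.univ M U →
      (⨆ a, ((⨅ n ∈ A, g a n) ⊓ ⨅ n ∈ Aᶜ, (g a n)ᶜ)) ∈ U →
      ∃ a : Om, cd a ∈ M ∧ ((⨅ n ∈ A, g a n) ⊓ ⨅ n ∈ Aᶜ, (g a n)ᶜ) ∈ U) :=
    Ev.diag fun A => ev_sup (fun a : Om => cd a) (fun a => (⨅ n ∈ A, g a n) ⊓ ⨅ n ∈ Aᶜ, (g a n)ᶜ)
  have k11 := Ev.fn2 (S := Om) (T := ℕ) (fun a n => g a n)
  have k12 := Ev.fn2 (S := Om) (T := ℕ) (fun a n => (g a n)ᶜ)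
  have k13 := Ev.nat
  have k14 := ev_bool (B := B)
  have k15 := ev_del
  have k16 := Ev.seq B
  refine ((((k1.and k2).and (k3.and k4)).and ((k5.and k6).and (k7.and k8))).and
    (((k9.and k10).and (k11.and k12)).and ((k13.and k14).and (k15.and k16)))).mono ?_
  rintro M ⟨⟨⟨⟨k1, k2⟩, k3, k4⟩, ⟨k5, k6⟩, k7, k8⟩, ⟨⟨⟨k9, k9'⟩, k10⟩, k11, k12⟩, ⟨k13, k14⟩, k15, k16⟩ U hU
  have hN := k1 U hU
  have hκ := k2 U hU
  obtain ⟨r, hr, hrm⟩ := k3 U hU g k4
  obtain ⟨hT, hbool⟩ := k14 U hU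
  have hκN : o0 (del M) ∈ Nm M U := hκ.2.1.1
  have hF : DT (Nm M U) (fun v => ZFSet.sep (fun n => pair (v 0) n ∈ r) ZFSet.omega) :=
    DT.sepT hN (Q := fun v n => pair (v 0) n ∈ r) (DT.omegaT hN)
      (Dfn.mem hN (DT.pairT hN (DT.var hN 1) (DT.var hN 0)) (DT.cst hN hr))
  refine ⟨o0 (del M), hκ, gr (fun α => ZFSet.sep (fun n => pair α n ∈ r) ZFSet.omega) (o0 (del M)),
    gr_mem hN hF hκN, gr_isFunc ?_, ?_⟩
  · intro α hα
    rw [mem_powN]
    exact ⟨hF.1 (fun _ => α) (fun _ => mem_N hN hκN hα), fun z hz => (mem_sep.1 hz).1⟩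
  · intro x hx
    obtain ⟨hxN, hxω⟩ := mem_powN.1 hx
    obtain ⟨y, hy, hyx⟩ := k5 U hU x hxN
    obtain ⟨G, hG, hGF⟩ := k6 U hU _ (k7 y hy) (by
      intro n
      by_cases hn : y n ∈ U
      · exact ⟨ULift.up true, k9, by simpa using hn⟩
      · have h1 := ((hbool (y n) (y n) (k16 y hy n) (k16 y hy n)).1).2 hn
        exact ⟨ULift.up false, k9', by simpa using h1⟩)
    have hAG := k8 G hG
    have hAy : ∀ n, n ∈ {n : ℕ | (G n).down = true} ↔ y n ∈ U := by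
      intro n
      have h1 := hGF n
      constructor
      · intro h2
        have h3 : (G n).down = true := h2
        rw [if_pos h3] at h1
        exact h1
      · intro h2
        by_contra h3
        have h4 : ¬ (G n).down = true := h3
        rw [if_neg h4] at h1
        exact ((hbool (y n) (y n) (k16 y hy n) (k16 y hy n)).1.1 h1) h2
    obtain ⟨a, ha, haU⟩ := k10 _ hAG U hU (by rw [hg]; exact hT)
    have hag : ∀ n, g a n ∈ U ↔ n ∈ {n : ℕ | (G n).down = true} := by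
      intro n
      have hgn : InM (g a n) M := k11 a n ha (k13 n)
      constructor
      · intro h1
        by_contra h2
        have h3 : (g a n)ᶜ ∈ U := hU.up _ haU _ (Set.mem_univ _) (k12 a n ha (k13 n))
          (inf_le_right.trans (iInf₂_le n h2))
        exact (hbool (g a n) (g a n) hgn hgn).1.1 h3 h1
      · intro h1
        exact hU.up _ haU _ (Set.mem_univ _) hgn (inf_le_left.trans (iInf₂_le n h1))
    refine ⟨o0 a, o0_mem_o0.2 ((k15 a).1 ha), mem_gr.2 ⟨o0_mem_o0.2 ((k15 a).1 ha), ?_⟩⟩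
    ext z
    rw [mem_sep]
    constructor
    · intro hz
      refine ⟨hxω hz, ?_⟩
      obtain ⟨n, rfl⟩ := mem_omega.1 (hxω hz)
      exact (hrm _).2 ⟨a, n, ha, (hag n).2 ((hAy n).2 ((hyx n).2 hz)), rfl⟩
    · rintro ⟨hz, hp⟩
      obtain ⟨n, rfl⟩ := mem_omega.1 hz
      obtain ⟨a', n', _, hU', he⟩ := (hrm _).1 hp
      obtain ⟨e1, e2⟩ := pair_inj.1 he
      have e1' := o0_inj.1 e1
      have e2' := nz_inj.1 e2
      subst e1' e2'
      exact (hyx n).1 ((hAy n).1 ((hag n).1 hU'))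

end Pool.Agent.CAN
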