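import Pool.Agent.CAN.GOM

/-!
# CAN/GCL: truth values `unbV`, `closV`, `clubV`, `chainV` and their meaning in the model

Use `ev_sup1`, `ev_inf1` for families over `Om` with `A = {b | a < b}` etc. (`iSup_subtype'`, `iInf_subtype'` translate between the subtype
and `∈`), the parameters `a`, `x` by closure of `M` under `a ↦ {b | a < b}`, `x ↦ (…)`, (`Ev.fn1`, `Ev.fn2`, `Ev.fn3`), `ev_bool` for `⇨`, `⊓`, `⊔`, and `ev_del` (`InM a M ↔ a < del M`).
In `ev_closV` the inner infimum and supremum are families with parameters `a`, `x` (and `b`).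
* `ev_clubV`: `IsV M U x S` says that `S` consists of the `o0 a` with `x a ∈ U`; `o0 a ∈ o0 (del M) ↔ a < del M`; elements of `o0 (del M)` are the `o0 a`.
* `ev_stationary`: `Omega1 N (o0 (del M))`; for a club `C` of the model take a name `y` (`of1`), replace `C` by ...: `IsV M U y C` holds since `C ⊆ o0 (del M)`; then `clubV y ∈ U`, so
  `⨆ a, y a ⊓ x a ∈ U`, and some `a` in `M` has `y a ⊓ x a ∈ U` (`ev_sup1` with `A = univ`).
-/

set_option autoImplicit false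

namespace Pool.Agent.CAN
open ZFSet Pool.Agent.FBZ

private theorem GCL_o0_mem {a b : Om} : o0 a ∈ o0 b ↔ a < b := Ordinal.toZFSet_mem_toZFSet_iff

private theorem GCL_mem_o0 {z : ZFSet.{0}} {b : Om} : z ∈ o0 b ↔ ∃ a : Om, a < b ∧ z = o0 a := by
  constructor
  · intro h
    obtain ⟨a, ha, he⟩ := Ordinal.mem_toZFSet_iff.mp h
    exact ⟨⟨a, ha.trans b.2⟩, ha, he.symm⟩
  · rintro ⟨a, ha, rfl⟩
    exact GCL_o0_mem.mpr ha

private theorem GCL_o0_inj {a b : Om} (h : o0 a = o0 b) : a = b :=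
  Subtype.ext (Ordinal.toZFSet_injective h)

section aux
variable {B : Type 1} [CompleteBooleanAlgebra B]

private def GCL_F (x : Om → B) (a : Om) : B := ⨆ b ∈ {b : Om | a < b}, x b

private theorem GCL_unb (x : Om → B) : unbV x = ⨅ a ∈ (Set.univ : Set Om), GCL_F x a := by
  unfold unbV GCL_F
  simp only [Set.mem_univ, iInf_pos]
  refine iInf_congr fun a => ?_
  exact (iSup_subtype' (p := fun b => a < b) (f := fun b _ => x b)).symm

private def GCL_H (x : Om → B) (a b : Om) : B := ⨆ c ∈ {c : Om | b < c ∧ c < a}, x c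

private def GCL_L (x : Om → B) (a : Om) : B := ⨅ b ∈ {b : Om | b < a}, GCL_H x a b

private def GCL_G (x : Om → B) (a : Om) : B := GCL_L x a ⇨ x a

private theorem GCL_clos (x : Om → B) :
    closV x = ⨅ a ∈ {a : Om | ∃ b : Om, b < a}, GCL_G x a := by
  unfold closV GCL_G GCL_L GCL_H
  rw [show (⨅ a ∈ {a : Om | ∃ b : Om, b < a}, (⨅ b ∈ {b : Om | b < a},
    ⨆ c ∈ {c : Om | b < c ∧ c < a}, x c) ⇨ x a) = ⨅ a : {a : Om // ∃ b : Om, b < a},
      (⨅ b ∈ {b : Om | b < a.1}, ⨆ c ∈ {c : Om | b < c ∧ c < a.1}, x c) ⇨ x a.1 from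
    iInf_subtype' (p := fun a => ∃ b : Om, b < a) (f := fun a _ => (⨅ b ∈ {b : Om | b < a},
      ⨆ c ∈ {c : Om | b < c ∧ c < a}, x c) ⇨ x a)]
  refine iInf_congr fun a => ?_
  congr 1
  rw [show (⨅ b ∈ {b : Om | b < a.1}, ⨆ c ∈ {c : Om | b < c ∧ c < a.1}, x c) =
    ⨅ b : {b : Om // b < a.1}, ⨆ c ∈ {c : Om | b.1 < c ∧ c < a.1}, x c from
    iInf_subtype' (p := fun b => b < a.1) (f := fun b _ => ⨆ c ∈ {c : Om | b < c ∧ c < a.1}, x c)]
  refine iInf_congr fun b => ?_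
  exact (iSup_subtype' (p := fun c => b.1 < c ∧ c < a.1) (f := fun c _ => x c)).symm

private def GCL_Q (T : Om → Om → B) (x : Om → B) (a b : Om) : B :=
  (x a ⊓ x b) ⇨ (T a b ⊔ T b a)

private def GCL_P (T : Om → Om → B) (x : Om → B) (a : Om) : B :=
  ⨅ b ∈ {b : Om | a ≠ b}, GCL_Q T x a b

private def GCL_R (T : Om → Om → B) (x : Om → B) : B :=
  ⨅ a ∈ (Set.univ : Set Om), GCL_P T x a

private theorem GCL_chain (T : Om → Om → B) (x : Om → B) :
    chainV T x = unbV x ⊓ GCL_R T x := by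
  unfold chainV GCL_R GCL_P GCL_Q
  simp only [Set.mem_univ, iInf_pos]
  congr 1
  refine iInf_congr fun a => ?_
  exact (iInf_subtype' (p := fun b => a ≠ b) (f := fun b _ => (x a ⊓ x b) ⇨ (T a b ⊔ T b a))).symm

end aux

section
variable (B : Type 1) [CompleteBooleanAlgebra B]

theorem ev_unbV : Ev (fun M => ∀ U : Set B, GenF Set.univ M U → ∀ x : Om → B, InM x M →
    (unbV x ∈ U ↔ ∀ a, a < del M → ∃ b, a < b ∧ b < del M ∧ x b ∈ U)) := by
  refine Ev.mono (((ev_sup1 B Om).and (ev_inf1 B Om)).and ((ev_del).and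
    (((Ev.const (Set.univ : Set Om)).and (Ev.fn1 (GCL_F : (Om → B) → Om → B))).and
      (Ev.fn1 (fun a : Om => {b : Om | a < b}))))) ?_
  rintro M ⟨⟨hsup, hinf⟩, hdel, ⟨huniv, hF⟩, hA⟩ U hU x hx
  rw [GCL_unb, hinf U hU _ _ huniv (hF x hx)]
  constructor
  · intro h a ha
    have h1 := h a (Set.mem_univ a) ((hdel a).mpr ha)
    obtain ⟨b, hb, hbM, hbU⟩ := (hsup U hU _ _ (hA a ((hdel a).mpr ha)) hx).mp h1
    exact ⟨b, hb, (hdel b).mp hbM, hbU⟩
  · intro h a _ haM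
    obtain ⟨b, hb, hbd, hbU⟩ := h a ((hdel a).mp haM)
    exact (hsup U hU _ _ (hA a haM) hx).mpr ⟨b, hb, (hdel b).mpr hbd, hbU⟩

theorem ev_closV : Ev (fun M => ∀ U : Set B, GenF Set.univ M U → ∀ x : Om → B, InM x M →
    (closV x ∈ U ↔ ∀ a, a < del M → (∃ b, b < a) → (∀ b, b < a → ∃ c, b < c ∧ c < a ∧ x c ∈ U) → x a ∈ U)) := by
  refine Ev.mono (((ev_sup1 B Om).and (ev_inf1 B Om)).and ((ev_del).and
    (((Ev.const {a : Om | ∃ b : Om, b < a}).and
      ((Ev.fn1 (GCL_G : (Om → B) → Om → B)).and (Ev.fn2 (GCL_L : (Om → B) → Om → B)))).and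
      (((Ev.fn2 (GCL_H : (Om → B) → Om → Om → B)).and (Ev.fn1 (fun a : Om => {b : Om | b < a}))).and
      ((Ev.fn2 (fun a b : Om => {c : Om | b < c ∧ c < a})).and
        ((Ev.fn2 (fun (x : Om → B) (a : Om) => x a)).and (ev_bool (B := B)))))))) ?_
  rintro M ⟨⟨hsup, hinf⟩, hdel, ⟨hne, hG, hL⟩, ⟨hH, hA⟩, hA2, hap, hbool⟩ U hU x hx
  rw [GCL_clos, hinf U hU _ _ hne (hG x hx)]
  have key : ∀ a : Om, InM a M → (GCL_G x a ∈ U ↔
      ((∀ b, b < a → ∃ c, b < c ∧ c < a ∧ x c ∈ U) → x a ∈ U)) := by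
    intro a ha
    have h1 := ((hbool U hU).2 (GCL_L x a) (x a) (hL x a hx ha) (hap x a hx ha)).2.2.2.1
    have h2 : GCL_L x a ∈ U ↔ ∀ b, b < a → ∃ c, b < c ∧ c < a ∧ x c ∈ U := by
      unfold GCL_L
      rw [hinf U hU _ _ (hA a ha) (hH x a hx ha)]
      have h3 : ∀ b, InM b M → (GCL_H x a b ∈ U ↔ ∃ c, b < c ∧ c < a ∧ x c ∈ U) := by
        intro b hb
        unfold GCL_H
        rw [hsup U hU _ _ (hA2 a b ha hb) hx]
        constructor
        · rintro ⟨c, hc, _, hcU⟩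
          exact ⟨c, hc.1, hc.2, hcU⟩
        · rintro ⟨c, h4, h5, h6⟩
          exact ⟨c, ⟨h4, h5⟩, (hdel c).mpr (h5.trans ((hdel a).mp ha)), h6⟩
      constructor
      · intro h b hb
        have hbM : InM b M := (hdel b).mpr (hb.trans ((hdel a).mp ha))
        exact (h3 b hbM).mp (h b hb hbM)
      · intro h b hb hbM
        exact (h3 b hbM).mpr (h b hb)
    unfold GCL_G
    rw [h1, h2]
  constructor
  · intro h a ha hne'
    have haM := (hdel a).mpr ha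
    exact (key a haM).mp (h a hne' haM)
  · intro h a hne' haM
    exact (key a haM).mpr (h a ((hdel a).mp haM) hne')

theorem ev_clubV : Ev (fun M => ∀ U : Set B, GenF Set.univ M U → ∀ (x : Om → B) (S : ZFSet.{0}), InM x M → IsV M U x S →
    (clubV x ∈ U ↔ Club (o0 (del M)) S)) := by
  refine Ev.mono (((ev_unbV B).and (ev_closV B)).and ((ev_del).and
    (((Ev.fn1 (unbV : (Om → B) → B)).and (Ev.fn1 (closV : (Om → B) → B))).and
      (ev_bool (B := B))))) ?_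
  rintro M ⟨⟨hunb, hclos⟩, hdel, ⟨hu, hc⟩, hbool⟩ U hU x S hx hS
  have h1 := ((hbool U hU).2 (unbV x) (closV x) (hu x hx) (hc x hx)).2.1
  unfold clubV
  rw [h1, hunb U hU x hx, hclos U hU x hx]
  have hmem : ∀ a : Om, a < del M → (x a ∈ U ↔ o0 a ∈ S) := by
    intro a ha
    rw [hS]
    constructor
    · intro h
      exact ⟨a, (hdel a).mpr ha, h, rfl⟩
    · rintro ⟨b, _, hb, he⟩
      rw [GCL_o0_inj he]
      exact hb
  have hsub : ∀ z, z ∈ S → ∃ a : Om, a < del M ∧ z = o0 a ∧ x a ∈ U := by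
    intro z hz
    obtain ⟨a, haM, haU, he⟩ := (hS z).mp hz
    exact ⟨a, (hdel a).mp haM, he, haU⟩
  constructor
  · rintro ⟨h2, h3⟩
    refine ⟨?_, ?_, ?_⟩
    · intro z hz
      obtain ⟨a, ha, he, _⟩ := hsub z hz
      rw [he]
      exact GCL_o0_mem.mpr ha
    · intro z hz
      obtain ⟨a, ha, rfl⟩ := GCL_mem_o0.mp hz
      obtain ⟨b, hab, hb, hbU⟩ := h2 a ha
      exact ⟨o0 b, (hmem b hb).mp hbU, GCL_o0_mem.mpr hab⟩
    · intro z hz hne hz2
      obtain ⟨a, ha, rfl⟩ := GCL_mem_o0.mp hz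
      refine (hmem a ha).mp (h3 a ha ?_ ?_)
      · obtain ⟨w, hw⟩ := hne
        obtain ⟨b, hb, _⟩ := GCL_mem_o0.mp hw
        exact ⟨b, hb⟩
      · intro b hb
        obtain ⟨γ, hγ, hγa, hbγ⟩ := hz2 (o0 b) (GCL_o0_mem.mpr hb)
        obtain ⟨c, hc', he, hcU⟩ := hsub γ hγ
        rw [he] at hγa hbγ
        exact ⟨c, GCL_o0_mem.mp hbγ, GCL_o0_mem.mp hγa, hcU⟩
  · intro hC
    refine ⟨fun a ha => ?_, fun a ha hne h4 => ?_⟩
    · obtain ⟨z, hz, haz⟩ := hC.unb (o0 a) (GCL_o0_mem.mpr ha)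
      obtain ⟨b, hb, he, hbU⟩ := hsub z hz
      rw [he] at haz
      exact ⟨b, GCL_o0_mem.mp haz, hb, hbU⟩
    · refine (hmem a ha).mpr (hC.closed (o0 a) (GCL_o0_mem.mpr ha) ?_ ?_)
      · obtain ⟨b, hb⟩ := hne
        exact ⟨o0 b, GCL_o0_mem.mpr hb⟩
      · intro w hw
        obtain ⟨b, hb, rfl⟩ := GCL_mem_o0.mp hw
        obtain ⟨c, hbc, hca, hcU⟩ := h4 b hb
        exact ⟨o0 c, (hmem c (hca.trans ha)).mp hcU, GCL_o0_mem.mpr hca, GCL_o0_mem.mpr hbc⟩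

theorem ev_chainV : Ev (fun M => ∀ U : Set B, GenF Set.univ M U → ∀ (T : Om → Om → B) (x : Om → B), InM T M → InM x M →
    (chainV T x ∈ U ↔ (∀ a, a < del M → ∃ b, a < b ∧ b < del M ∧ x b ∈ U) ∧
      ∀ a b, a < del M → b < del M → a ≠ b → x a ∈ U → x b ∈ U → T a b ∈ U ∨ T b a ∈ U)) := by
  refine Ev.mono (((ev_unbV B).and (ev_inf1 B Om)).and ((ev_del).and
    (((Ev.const (Set.univ : Set Om)).and
      ((Ev.fn2 (GCL_P : (Om → Om → B) → (Om → B) → Om → B)).and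
        (Ev.fn3 (GCL_Q : (Om → Om → B) → (Om → B) → Om → Om → B)))).and
      (((Ev.fn2 (GCL_R : (Om → Om → B) → (Om → B) → B)).and
        (Ev.fn1 (fun a : Om => {b : Om | a ≠ b}))).and
      (((Ev.fn1 (unbV : (Om → B) → B)).and (Ev.fn3 (fun (T : Om → Om → B) (a b : Om) => T a b))).and
        (((Ev.fn2 (fun (x : Om → B) (a : Om) => x a)).and (ev_bool (B := B))).and
          ((Ev.fn2 (fun a b : B => a ⊓ b)).and (Ev.fn2 (fun a b : B => a ⊔ b))))))))) ?_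
  rintro M ⟨⟨hunb, hinf⟩, hdel, ⟨huniv, hP, hQ⟩, ⟨hR, hA⟩, ⟨hu, hT2⟩, ⟨hap, hbool⟩, hand, hor⟩
    U hU T x hT hx
  have h1 := ((hbool U hU).2 (unbV x) (GCL_R T x) (hu x hx) (hR T x hT hx)).2.1
  rw [GCL_chain, h1, hunb U hU x hx]
  refine and_congr_right fun _ => ?_
  unfold GCL_R
  rw [hinf U hU _ _ huniv (hP T x hT hx)]
  have key : ∀ a b : Om, InM a M → InM b M → (GCL_Q T x a b ∈ U ↔
      (x a ∈ U → x b ∈ U → T a b ∈ U ∨ T b a ∈ U)) := by
    intro a b ha hb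
    have h2 := ((hbool U hU).2 (x a ⊓ x b) (T a b ⊔ T b a)
      (hand _ _ (hap x a hx ha) (hap x b hx hb))
      (hor _ _ (hT2 T a b hT ha hb) (hT2 T b a hT hb ha))).2.2.2.1
    have h3 := ((hbool U hU).2 (x a) (x b) (hap x a hx ha) (hap x b hx hb)).2.1
    have h4 := ((hbool U hU).2 (T a b) (T b a) (hT2 T a b hT ha hb) (hT2 T b a hT hb ha)).2.2.1
    unfold GCL_Q
    rw [h2, h3, h4]
    exact ⟨fun h p q => h ⟨p, q⟩, fun h p => h p.1 p.2⟩
  have key2 : ∀ a : Om, InM a M → (GCL_P T x a ∈ U ↔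
      ∀ b, a ≠ b → InM b M → GCL_Q T x a b ∈ U) := by
    intro a ha
    unfold GCL_P
    rw [hinf U hU _ _ (hA a ha) (hQ T x a hT hx ha)]
    exact Iff.rfl
  constructor
  · intro h a b ha hb hne
    have haM := (hdel a).mpr ha
    have hbM := (hdel b).mpr hb
    exact (key a b haM hbM).mp ((key2 a haM).mp (h a (Set.mem_univ a) haM) b hne hbM)
  · intro h a _ haM
    refine (key2 a haM).mpr fun b hne hbM => (key a b haM hbM).mpr ?_
    exact h a b ((hdel a).mp haM) ((hdel b).mp hbM) hne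

theorem ev_stationary (hd : Distr (Set.univ : Set B)) :
    Ev (fun M => ∀ U : Set B, GenF Set.univ M U → ∀ (x : Om → B) (S : ZFSet.{0}), InM x M → IsV M U x S →
      (∀ C : Om → B, clubV C ≤ ⨆ a, C a ⊓ x a) → Stationary (Nm M U) S) := by
  refine Ev.mono (((ev_omega1 B hd).and (of1 B)).and (((ev_clubV B).and ev_del).and
    (((ev_sup1 B Om).and (Ev.const (Set.univ : Set Om))).and
      (((Ev.fn2 (fun (y x : Om → B) => fun a => y a ⊓ x a)).and
        (Ev.fn2 (fun (y x : Om → B) => ⨆ a, y a ⊓ x a))).and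
        ((ev_bool (B := B)).and ((Ev.fn1 (clubV : (Om → B) → B)).and
          (Ev.fn2 (fun (x : Om → B) (a : Om) => x a)))))))) ?_
  rintro M ⟨⟨hom, hof⟩, ⟨hclub, hdel⟩, ⟨hsup, huniv⟩, ⟨hf, hs⟩, hbool, hcl, hap⟩ U hU x S hx hS hst
  refine ⟨o0 (del M), hom U hU, ?_, ?_⟩
  · intro z hz
    obtain ⟨a, haM, _, he⟩ := (hS z).mp hz
    rw [he]
    exact GCL_o0_mem.mpr ((hdel a).mp haM)
  · intro C hC hCl
    obtain ⟨y, hyM, hy⟩ := hof U hU C hC
    have hyC : IsV M U y C := by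
      intro z
      constructor
      · intro hz
        obtain ⟨a, ha, rfl⟩ := GCL_mem_o0.mp (hCl.sub hz)
        have haM := (hdel a).mpr ha
        exact ⟨a, haM, (hy a haM).mpr hz, rfl⟩
      · rintro ⟨a, haM, haU, rfl⟩
        exact (hy a haM).mp haU
    have h1 : clubV y ∈ U := (hclub U hU y C hyM hyC).mpr hCl
    have h2 : (⨆ a, y a ⊓ x a) ∈ U :=
      ((hbool U hU).2 (clubV y) (⨆ a, y a ⊓ x a) (hcl y hyM) (hs y x hyM hx)).2.2.2.2 (hst y) h1
    have h3 : (⨆ a ∈ (Set.univ : Set Om), (fun a => y a ⊓ x a) a) ∈ U := by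
      simpa only [Set.mem_univ, iSup_pos] using h2
    obtain ⟨a, _, haM, haU⟩ := (hsup U hU _ _ huniv (hf y x hyM hx)).mp h3
    have h4 := (((hbool U hU).2 (y a) (x a) (hap y a hyM haM) (hap x a hx haM)).2.1).mp haU
    exact ⟨o0 a, (hy a haM).mp h4.1, (hS _).mpr ⟨a, haM, h4.2, rfl⟩⟩

end

end Pool.Agent.CAN
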