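import Pool.Agent.CAN.GHT

/-!
# CAN/GEM: a uniform enumeration of the levels of an Aronszajn tree, in the model

For `α ∈ κ` let `L α = T.sep (fun t => Height N T lt t α)` (in `N`: `Dfn.height`), not empty and countable in `N`, so the set
`Z α = {f ∈ powN N (prod ω T) | Surj f ω (L α)}` is in `N` and not empty.  The set `x = img Z κ` is in `N` (`img_mem`).  The axiom of choice of `N` gives
`g ∈ N` with `g(z) ∈ z` for `z ∈ x`.  `E = {pair (pair α n) t | α ∈ κ, pair n t ∈ g(Z α)}`, obtained from `prod (prod κ ω) T` by separation.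
-/

set_option autoImplicit false

namespace Pool.Agent.CAN
open ZFSet Pool.Agent.FBZ

private noncomputable def gemL (N : Set ZFSet.{0}) (T lt α : ZFSet.{0}) : ZFSet.{0} :=
  T.sep (fun t => Height N T lt t α)

private noncomputable def gemZ (N : Set ZFSet.{0}) (T lt α : ZFSet.{0}) : ZFSet.{0} :=
  (powN N (prod ZFSet.omega T)).sep (fun f => Surj f ZFSet.omega (gemL N T lt α))

private theorem gem_dt {N : Set ZFSet.{0}} (hN : ZF N) {T lt : ZFSet.{0}} (hT : T ∈ N) (hlt : lt ∈ N) :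
    DT N (fun v => gemZ N T lt (v 0)) := by
  have h1 : DT N (fun _ => powN N (prod ZFSet.omega T)) :=
    DT.powT hN (DT.prodT hN (DT.omegaT hN) (DT.cst hN hT))
  have h2 : DT N (fun v => gemL N T lt (tl v 0)) := by
    refine DT.sepT (Q := fun v t => Height N T lt t (tl v 0)) hN (DT.cst hN hT) ?_
    exact Dfn.height hN hT hlt (DT.var hN 0) (DT.var hN 2)
  exact DT.sepT (Q := fun v f => Surj f ZFSet.omega (gemL N T lt (v 0))) hN h1
    (Dfn.surj hN (DT.var hN 0) (DT.omegaT hN) h2)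

theorem exists_enum {N : Set ZFSet.{0}} (hN : ZFC N) {T lt κ : ZFSet.{0}} (hT : T ∈ N) (hlt : lt ∈ N)
    (hA : Aronszajn N T lt) (hκ : Omega1 N κ) :
    ∃ E ∈ N, (∀ p ∈ E, ∃ α ∈ κ, ∃ n ∈ ZFSet.omega.{0}, ∃ t ∈ T, p = pair (pair α n) t) ∧
      (∀ α ∈ κ, ∀ n ∈ ZFSet.omega.{0}, ∃ t, pair (pair α n) t ∈ E) ∧
      (∀ x t t', pair x t ∈ E → pair x t' ∈ E → t = t') ∧
      (∀ α n t, pair (pair α n) t ∈ E → Height N T lt t α) ∧
      ∀ t ∈ T, ∀ α, Height N T lt t α → ∃ n ∈ ZFSet.omega.{0}, pair (pair α n) t ∈ E := by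
  have hZF := hN.zf
  have hκN : κ ∈ N := hκ.2.1.1
  have hZ := gem_dt hZF hT hlt
  have hx : img (gemZ N T lt) κ ∈ N := img_mem hZF hZ hκN
  obtain ⟨g, hg, hg1, hg2⟩ := hN.choice _ hx (by
    intro z hz
    obtain ⟨α, hα, rfl⟩ := mem_img.1 hz
    obtain ⟨t, ht, hh⟩ := (hA.height κ hκ).2 α hα
    have hne : gemL N T lt α ≠ ∅ := by
      intro h0
      have : t ∈ gemL N T lt α := mem_sep.2 ⟨ht, hh⟩
      rw [h0] at this
      exact notMem_empty _ this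
    rcases hA.levels α with h0 | ⟨f, hf, hs⟩
    · exact absurd h0 hne
    · refine ⟨f, mem_sep.2 ⟨mem_powN.2 ⟨hf, ?_⟩, hs⟩⟩
      intro p hp
      obtain ⟨a, ha, b, hb, rfl⟩ := mem_prod.1 (hs.1.1 hp)
      exact mem_prod.2 ⟨a, ha, b, (mem_sep.1 hb).1, rfl⟩)
  have key : ∀ α ∈ κ, Surj (ap g (gemZ N T lt α)) ZFSet.omega (gemL N T lt α) := by
    intro α hα
    have h1 := pair_ap hg1 (mem_img.2 ⟨α, hα, rfl⟩ : gemZ N T lt α ∈ img (gemZ N T lt) κ)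
    exact (mem_sep.1 (hg2 _ _ h1.1)).2
  let E : ZFSet.{0} := (prod (prod κ ZFSet.omega) T).sep
    (fun p => pair (sn (fs p)) (sn p) ∈ ap g (gemZ N T lt (fs (fs p))))
  have hE : E ∈ N := by
    refine sep_mem hZF ?_ (prod_mem hZF (prod_mem hZF hκN hZF.omega) hT)
    refine Dfn.mem hZF (DT.pairT hZF (DT.snT hZF (DT.fsT hZF (DT.var hZF 0))) (DT.snT hZF (DT.var hZF 0)))
      (DT.apT hZF (DT.cst hZF hg) ?_)
    exact DT.app1 hZF hZ (DT.fsT hZF (DT.fsT hZF (DT.var hZF 0)))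
  have memE : ∀ α n t, pair (pair α n) t ∈ E ↔
      (α ∈ κ ∧ n ∈ ZFSet.omega.{0} ∧ t ∈ T) ∧ pair n t ∈ ap g (gemZ N T lt α) := by
    intro α n t
    rw [mem_sep, pair_mem_prod, pair_mem_prod, fs_pair, sn_pair, fs_pair, sn_pair]
    tauto
  have hL : ∀ α ∈ κ, ∀ n t, pair n t ∈ ap g (gemZ N T lt α) →
      n ∈ ZFSet.omega.{0} ∧ t ∈ T ∧ Height N T lt t α := by
    intro α hα n t h
    have h1 := pair_mem_prod.1 ((key α hα).1.1 h)
    exact ⟨h1.1, (mem_sep.1 h1.2).1, (mem_sep.1 h1.2).2⟩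
  refine ⟨E, hE, ?_, ?_, ?_, ?_, ?_⟩
  · intro p hp
    obtain ⟨q, hq, t, ht, rfl⟩ := mem_prod.1 (mem_sep.1 hp).1
    obtain ⟨α, hα, n, hn, rfl⟩ := mem_prod.1 hq
    exact ⟨α, hα, n, hn, t, ht, rfl⟩
  · intro α hα n hn
    obtain ⟨t, ht, _⟩ := (key α hα).1.2 n hn
    exact ⟨t, (memE _ _ _).2 ⟨⟨hα, hn, (hL α hα n t ht).2.1⟩, ht⟩⟩
  · intro x t t' h h'
    have h1 := (mem_sep.1 h).1
    obtain ⟨q, hq, s, hs, he⟩ := mem_prod.1 h1
    obtain ⟨α, hα, n, hn, rfl⟩ := mem_prod.1 hq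
    obtain ⟨rfl, rfl⟩ := pair_inj.1 he
    exact (((key α hα).1.2 n hn).unique ((memE _ _ _).1 h).2 ((memE _ _ _).1 h').2)
  · intro α n t h
    obtain ⟨⟨hα, _, _⟩, h2⟩ := (memE _ _ _).1 h
    exact (hL α hα n t h2).2.2
  · intro t ht α hh
    obtain ⟨α', hα', hh'⟩ := (hA.height κ hκ).1 t ht
    obtain rfl := height_unique hZF hA.tree hh hh'
    obtain ⟨n, hn, h1⟩ := (key α hα').2 t (mem_sep.2 ⟨ht, hh⟩)
    exact ⟨n, hn, (memE _ _ _).2 ⟨⟨hα', hn, ht⟩, h1⟩⟩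

end Pool.Agent.CAN
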