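import Pool.Agent.CAN.GSPa
import Pool.Agent.CAN.GBR
import Pool.Agent.CAN.GCL

/-!
# CAN/GSPb: Aronszajn trees of the model are special

Let `T, lt ∈ N = Nm M U` be an Aronszajn tree, `en`, `ρ` from `ev_arN`, `b₀ ∈ U` from `ev_arSys`; `Facts.special` gives names `C`, `f`, which can be taken in `M` (`Ev.wit2` for the
relation `(ρ, b₀) ↦ (C, f)`; the pair `(C, f)` is an element of the type `(Om → B) × (Om → ℕ → ℚ → B)`).  Let `δ = del M`,
`C' a ↔ a < δ ∧ C a ∈ U`, `R a b n m ↔ ρ a b n m ∈ U`, `F a n q ↔ ∃ r : ℚ, f a n r ∈ U ∧ q = Encodable.encode r`, `h g a` = the least `k` with `e g k = a`, where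
`e g : ℕ → Om` is a fixed enumeration of `Set.Iio g` (a choice function in `V`; `h g a = 0` if there is no such `k`), `code n k q = Nat.pair n (Nat.pair k q)`.
The sets needed in `colour_mem` are in `N`: `ArN.E`, `mk1` for `C` (`IsV`, `ev_del`), `ArN.R`, `mkQ`, `ev_groundh`, `ev_groundc`.
Facts: `clubV C ∈ U` (above `b₀`), so `{a | C' a}` is closed unbounded in `δ` (`ev_unbV`, `ev_closV`); for `C' a` and all `n` some `F a n q` holds
(`b₀ ⊓ C a ≤ ⨆ q, f a n q`, `ev_supN` or `ev_sup`); if `C' a`, `C' b`, `a < b`, `R a b n m`, `f a m q ∈ U`, `f b n r ∈ U` then `q < r` (the infimum of finitely many elements of `U` is in `U`, so not `⊥`).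
Let `Q` be as in `colour_mem`.
(1) every `t ∈ T` has some `c` with `pair t c ∈ Q`: `t = en a n` (`ArN.surj`) with `n` least; `NextC`: `C'` is unbounded in `δ`, take the least element above `a`;
`QPart`: if some `g ≤ a` is in `C'` let `g` be the largest one (the least upper bound of `{g ≤ a | C' g}` is in `C'` by closedness, or use well-foundedness of `>`… : let `s` be the least `s` such that all elements of `C'` which are `≤ a` are `≤ s`; if
`¬ C' s` then `s` is nonzero and a limit of elements of `C'`, so `C' s`); `R g a n m` for some `m`: total, shown in GBR for `Sys` (from `Sys.tot` and `b₀ ∈ U` with `ev_supN`).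
(2) if `pair s t ∈ lt` then there is no `c` with `pair s c ∈ Q` and `pair t c ∈ Q`: `s = en a n`, `t = en a' n'`, `a < a'` (`height_mem`, `o0_mem_o0`), the codes are equal, so
`n = n'`, `k = k'`, `q = q'` (`Nat.pair_eq_pair`).  Let `g`, `g'` be the next elements of `C'` above `a`, `a'`; `g ≤ g'`.  If `g = g'` then `h g a = h g a'`, both are `< g`, so `a = a'`,
contradiction.  So `g < g'`, hence `g ≤ a'` (otherwise `a' < g < g'` contradicts minimality of `g'`).  In `QPart` for `a'` the second alternative holds (as `C' g`, `g ≤ a'`) with `g₁' ≥ g`; so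
`q' ≠ 0` and the second alternative holds for `a` too, with `g₁ ≤ a < g ≤ g₁'`; `R g₁ a n m`, `F g₁ m r`, `R g₁' a' n m'`, `F g₁' m' r`.
Claim `R g₁ g₁' m' m`: i.e. (`ArN.rel`) `pair (en g₁ m) (en g₁' m') ∈ lt` and `m` is least.  `en g₁ m ≤ s` (equal if `g₁ = a`, `m = n`), `en g₁' m' ≤ t` (equal if `g₁' = a'`), `s < t`.  Both
`en g₁ m` and `en g₁' m'` are `≤ t`; they are comparable (`tree_linear`) and have heights `o0 g₁`, `o0 g₁'`, so `en g₁ m < en g₁' m'` (`height_mem`).  Least: if `m'' < m` and `en g₁ m'' < en g₁' m'` then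
`en g₁ m'' = en g₁ m` (`height_pred_unique`); if `g₁ = a`, `m = n` this contradicts `∀ n'' < n, en a n'' ≠ en a n`; if `g₁ < a` it contradicts the minimality of `m` in `R g₁ a n m`.
Then `f g₁ m x ∈ U`, `f g₁' m' y ∈ U` with `encode x = encode y = r`, so `x = y` (`Encodable.encode_injective`), but `x < y`.  Contradiction.
(3) `f₁ = {pair t c ∈ Q | ∀ c' ∈ c, pair t c' ∉ Q}` is in `N` (separation), a function `T → ω` (`IsFunc`), as required in `Special`.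
-/

set_option autoImplicit false

namespace Pool.Agent.CAN
open ZFSet Pool.Agent.FBZ

private theorem GSPb_mem {a b : Om} : o0 a ∈ o0 b ↔ a < b := Ordinal.toZFSet_mem_toZFSet_iff

private theorem GSPb_inj {a b : Om} (h : o0 a = o0 b) : a = b :=
  Subtype.ext (Ordinal.toZFSet_injective h)

private theorem GSPb_min (p : Om → Prop) (h : ∃ a, p a) : ∃ a, p a ∧ ∀ b, p b → a ≤ b := by
  obtain ⟨a, ha, hm⟩ := (wellFounded_lt (α := Om)).has_min {a | p a} h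
  exact ⟨a, ha, fun b hb => not_lt.1 (hm b hb)⟩

section core
variable {N : Set ZFSet.{0}} {T lt : ZFSet.{0}} {δ : Om} {en : Om → ℕ → ZFSet.{0}}
  {C : Om → Prop} {R : Om → Om → ℕ → ℕ → Prop} {F : Om → ℕ → ℕ → Prop} {h : Om → Om → ℕ}

private theorem GSPb_tot (hN : ZF N) (tr : Tree N T lt)
    (node : ∀ a, a < δ → ∀ n, en a n ∈ T ∧ Height N T lt (en a n) (o0 a))
    (surj : ∀ t ∈ T, ∃ a, a < δ ∧ ∃ n, t = en a n)
    (rel : ∀ a b, a < δ → b < δ → ∀ n m, (R a b n m ↔ (a = b ∧ n = m) ∨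
      (a < b ∧ pair (en a m) (en b n) ∈ lt ∧ ∀ m' < m, pair (en a m') (en b n) ∉ lt)))
    (a b : Om) (hab : a ≤ b) (hb : b < δ) (n : ℕ) : ∃ m, R a b n m := by
  classical
  rcases eq_or_lt_of_le hab with rfl | hlt
  · exact ⟨n, (rel a a hb hb n n).2 (Or.inl ⟨rfl, rfl⟩)⟩
  · have ha : a < δ := hlt.trans hb
    obtain ⟨s, hs, hsh⟩ := height_down hN tr (node b hb n).2 (GSPb_mem.2 hlt)
    have hsT : s ∈ T := (pair_mem_prod.1 (tr.field hs)).1
    obtain ⟨a', ha', m, hm⟩ := surj s hsT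
    have haa : a' = a := by
      have h1 := (node a' ha' m).2
      rw [← hm] at h1
      exact GSPb_inj (height_unique hN tr h1 hsh)
    subst haa
    have hex : ∃ m, pair (en a' m) (en b n) ∈ lt := ⟨m, by rw [← hm]; exact hs⟩
    refine ⟨Nat.find hex, (rel a' b ha hb n _).2 (Or.inr ⟨hlt, Nat.find_spec hex, fun m' hm' => ?_⟩)⟩
    exact Nat.find_min hex hm'

private theorem GSPb_ex
    (surj : ∀ t ∈ T, ∃ a, a < δ ∧ ∃ n, t = en a n)
    (tot : ∀ a b, a ≤ b → b < δ → ∀ n, ∃ m, R a b n m)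
    (hCδ : ∀ a, C a → a < δ) (unb : ∀ a, a < δ → ∃ b, a < b ∧ C b)
    (clos : ∀ a, a < δ → (∃ b, b < a) → (∀ b, b < a → ∃ c, b < c ∧ c < a ∧ C c) → C a)
    (Ft : ∀ a, C a → ∀ n, ∃ q, F a n q) {Q : ZFSet.{0}}
    (hQ : ∀ z, z ∈ Q ↔ ∃ a n k q, a < δ ∧ (∀ n' < n, en a n' ≠ en a n) ∧ NextC δ C h a k ∧
      QPart δ C R F a n q ∧ z = pair (en a n) (nz (Nat.pair n (Nat.pair k q))))
    (t : ZFSet.{0}) (ht : t ∈ T) : ∃ c : ℕ, pair t (nz c) ∈ Q := by
  classical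
  obtain ⟨a, ha, hex⟩ := surj t ht
  obtain ⟨g, ⟨hg1, hg2⟩, hg3⟩ := GSPb_min (fun b => a < b ∧ C b) (unb a ha)
  have hq : ∃ q, QPart δ C R F a (Nat.find hex) q := by
    by_cases hc : ∃ g, C g ∧ g ≤ a
    · obtain ⟨g0, hg0, hg0a⟩ := hc
      obtain ⟨s, hs, hsm⟩ := GSPb_min (fun s => ∀ g, C g → g ≤ a → g ≤ s) ⟨a, fun _ _ h => h⟩
      have hsa : s ≤ a := hsm a fun _ _ h => h
      have hCs : C s := by
        by_contra hns
        refine hns (clos s (hsa.trans_lt ha) ⟨g0, ?_⟩ ?_)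
        · exact lt_of_le_of_ne (hs g0 hg0 hg0a) fun h => hns (h ▸ hg0)
        · intro b hb
          have h1 : ¬ ∀ g, C g → g ≤ a → g ≤ b := fun h => (hsm b h).not_gt hb
          push Not at h1
          obtain ⟨c, hc1, hc2, hc3⟩ := h1
          exact ⟨c, hc3, lt_of_le_of_ne (hs c hc1 hc2) fun h => hns (h ▸ hc1), hc1⟩
      obtain ⟨m, hm⟩ := tot s a hsa ha (Nat.find hex)
      obtain ⟨r, hr⟩ := Ft s hCs m
      exact ⟨r + 1, Or.inr ⟨s, hCs, hsa, hs, m, r, hm, hr, rfl⟩⟩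
    · push Not at hc
      exact ⟨0, Or.inl ⟨rfl, fun g _ hg => hc g hg⟩⟩
  obtain ⟨q, hq⟩ := hq
  refine ⟨Nat.pair (Nat.find hex) (Nat.pair (h g a) q), (hQ _).2
    ⟨a, Nat.find hex, h g a, q, ha, ?_, ⟨g, hCδ g hg2, hg2, hg1, ?_, rfl⟩, hq, ?_⟩⟩
  · intro n' hn' he
    exact Nat.find_min hex hn' (he ▸ Nat.find_spec hex)
  · exact fun g' _ h1 h2 => hg3 g' ⟨h2, h1⟩
  · rw [← Nat.find_spec hex]

private theorem GSPb_anti (hN : ZF N) (hlt : lt ∈ N) (tr : Tree N T lt)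
    (node : ∀ a, a < δ → ∀ n, en a n ∈ T ∧ Height N T lt (en a n) (o0 a))
    (rel : ∀ a b, a < δ → b < δ → ∀ n m, (R a b n m ↔ (a = b ∧ n = m) ∨
      (a < b ∧ pair (en a m) (en b n) ∈ lt ∧ ∀ m' < m, pair (en a m') (en b n) ∉ lt)))
    (hCδ : ∀ a, C a → a < δ)
    (Finc : ∀ a b n m r, C a → C b → a < b → R a b n m → F a m r → F b n r → False)
    (hinj : ∀ g a a', a < g → a' < g → h g a = h g a' → a = a') {Q : ZFSet.{0}}
    (hQ : ∀ z, z ∈ Q ↔ ∃ a n k q, a < δ ∧ (∀ n' < n, en a n' ≠ en a n) ∧ NextC δ C h a k ∧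
      QPart δ C R F a n q ∧ z = pair (en a n) (nz (Nat.pair n (Nat.pair k q))))
    (s t c : ZFSet.{0}) (hst : pair s t ∈ lt) (hs : pair s c ∈ Q) (ht : pair t c ∈ Q) : False := by
  obtain ⟨a, n, k, q, ha, hmin, hk, hq, he⟩ := (hQ _).1 hs
  obtain ⟨a', n', k', q', ha', hmin', hk', hq', he'⟩ := (hQ _).1 ht
  obtain ⟨hs1, hc1⟩ := pair_inj.1 he
  obtain ⟨ht1, hc2⟩ := pair_inj.1 he'
  have hcc : Nat.pair n (Nat.pair k q) = Nat.pair n' (Nat.pair k' q') := nz_inj.1 (hc1.symm.trans hc2)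
  obtain ⟨hn, hkq⟩ := Nat.pair_eq_pair.1 hcc
  obtain ⟨hkk, hqq⟩ := Nat.pair_eq_pair.1 hkq
  subst hn hkk hqq hs1 ht1
  have haa : a < a' := GSPb_mem.1 (height_mem hN tr hst (node a ha n).2 (node a' ha' n).2)
  obtain ⟨g, hg1, hg2, hg3, hg4, hg5⟩ := hk
  obtain ⟨g', hg1', hg2', hg3', hg4', hg5'⟩ := hk'
  have hgg : g ≤ g' := hg4 g' hg1' hg2' (haa.trans hg3')
  have hgne : g ≠ g' := by
    rintro rfl
    exact haa.ne (hinj g a a' hg3 hg3' (hg5.symm.trans hg5'))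
  have hglt : g < g' := lt_of_le_of_ne hgg hgne
  have hga' : g ≤ a' := by
    by_contra hcon
    exact (hg4' g hg1 hg2 (not_le.1 hcon)).not_gt hglt
  rcases hq' with ⟨_, h1⟩ | ⟨g1', hC1', hle1', hmax1', m', r', hR', hF', hq1'⟩
  · exact (h1 g hg1 hg2).not_ge hga'
  rcases hq with ⟨h0, _⟩ | ⟨g1, hC1, hle1, hmax1, m, r, hR, hF, hq1⟩
  · omega
  have hrr : r = r' := by omega
  subst hrr
  have hlt1 : g1 < g1' := hle1.trans_lt (hg3.trans_le (hmax1' g hg2 hga'))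
  have hd1 := hCδ g1 hC1
  have hd1' := hCδ g1' hC1'
  have hR1 := (rel g1 a hd1 ha n m).1 hR
  have hR1' := (rel g1' a' hd1' ha' n m').1 hR'
  have hN1 := (node g1 hd1 m).2
  have hN1' := (node g1' hd1' m').2
  -- `en g1 m < t`
  have h1 : pair (en g1 m) (en a' n) ∈ lt := by
    rcases hR1 with ⟨e1, e2⟩ | ⟨_, e2, _⟩
    · rw [e1, ← e2]
      exact hst
    · exact tr.trans _ _ _ e2 hst
  have h2 : pair (en g1 m) (en g1' m') ∈ lt := by
    rcases hR1' with ⟨e1, e2⟩ | ⟨_, e2, _⟩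
    · rw [e1, ← e2]
      exact h1
    · rcases tree_linear hN hlt tr h1 e2 with h3 | h3 | h3
      · exfalso
        rw [h3] at hN1
        exact hlt1.ne (GSPb_inj (height_unique hN tr hN1 hN1'))
      · exact h3
      · exfalso
        exact (GSPb_mem.1 (height_mem hN tr h3 hN1' hN1)).not_gt hlt1
  have h3 : ∀ m'' < m, pair (en g1 m'') (en g1' m') ∉ lt := by
    intro m'' hm'' h4
    have h5 : en g1 m'' = en g1 m :=
      height_pred_unique hN tr h4 h2 (node g1 hd1 m'').2 hN1 ⟨_, hN1'⟩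
    rcases hR1 with ⟨e1, e2⟩ | ⟨_, e2, e3⟩
    · subst e1 e2
      exact hmin m'' hm'' h5
    · refine e3 m'' hm'' ?_
      rw [h5]
      exact e2
  exact Finc g1 g1' m' m r hC1 hC1' hlt1 ((rel g1 g1' hd1 hd1' m' m).2 (Or.inr ⟨hlt1, h2, h3⟩)) hF hF'

private theorem GSPb_core (hN : ZF N) {Q : ZFSet.{0}} (hQN : Q ∈ N)
    (hsub : ∀ z ∈ Q, ∃ t ∈ T, ∃ c : ℕ, z = pair t (nz c))
    (hex : ∀ t ∈ T, ∃ c : ℕ, pair t (nz c) ∈ Q)
    (hanti : ∀ s t c, pair s t ∈ lt → pair s c ∈ Q → pair t c ∈ Q → False) : Special N T lt := by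
  classical
  have hf : Q.sep (fun z => ∀ c' ∈ sn z, pair (fs z) c' ∉ Q) ∈ N := by
    refine sep_mem hN ?_ hQN
    refine Dfn.ball hN (Q := fun v c' => pair (fs (v 0)) c' ∉ Q) (DT.snT hN (DT.var hN 0)) ?_
    exact (Dfn.mem hN (DT.pairT hN (DT.fsT hN (DT.var hN 1)) (DT.var hN 0)) (DT.cst hN hQN)).not
  refine ⟨_, hf, ⟨?_, ?_⟩, ?_⟩
  · intro z hz
    obtain ⟨t, ht, c, rfl⟩ := hsub z (mem_sep.1 hz).1
    exact pair_mem_prod.2 ⟨ht, nz_mem_omega c⟩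
  · intro t ht
    have hx := hex t ht
    refine ⟨nz (Nat.find hx), mem_sep.2 ⟨Nat.find_spec hx, ?_⟩, ?_⟩
    · rw [sn_pair, fs_pair]
      intro c' hc'
      obtain ⟨m, hm, rfl⟩ := mem_nz.1 hc'
      exact Nat.find_min hx hm
    · intro y hy
      obtain ⟨hy1, hy2⟩ := mem_sep.1 hy
      obtain ⟨t', _, c, he⟩ := hsub _ hy1
      obtain ⟨_, rfl⟩ := pair_inj.1 he
      rw [sn_pair, fs_pair] at hy2
      congr 1
      refine le_antisymm ?_ (Nat.find_min' hx hy1)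
      by_contra hcon
      exact hy2 _ (nz_mem_nz.2 (not_le.1 hcon)) (Nat.find_spec hx)
  · intro s t n hst hs ht
    exact hanti s t n hst (mem_sep.1 hs).1 (mem_sep.1 ht).1

end core

/-- the function `k ↦ f a n q`, `k` the number of `q` -/
private def GSPb_g {B : Type 1} [CompleteBooleanAlgebra B] (f : Om → ℕ → ℚ → B) (a : Om) (n k : ℕ) : B :=
  match (Encodable.decode k : Option ℚ) with
  | some q => f a n q
  | none => ⊥

private theorem GSPb_sup {B : Type 1} [CompleteBooleanAlgebra B] (f : Om → ℕ → ℚ → B) (a : Om) (n : ℕ) :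
    ⨆ q, f a n q = ⨆ k, GSPb_g f a n k := by
  refine le_antisymm (iSup_le fun q => ?_) (iSup_le fun k => ?_)
  · refine le_iSup_of_le (Encodable.encode q) ?_
    simp [GSPb_g]
  · unfold GSPb_g
    split
    · exact le_iSup (fun q => f a n q) _
    · exact bot_le

private theorem GSPb_enum : ∃ e : Om → Om → ℕ, ∀ g a a', a < g → a' < g → e g a = e g a' → a = a' := by
  classical
  have h1 : ∀ g : Om, ∃ f : Om → ℕ, ∀ a a', a < g → a' < g → f a = f a' → a = a' := by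
    intro g
    haveI : Countable (Set.Iio g) := (Om.Iio_countable g).to_subtype
    obtain ⟨f, hf⟩ := exists_injective_nat (Set.Iio g)
    refine ⟨fun a => if ha : a < g then f ⟨a, ha⟩ else 0, fun a a' ha ha' h => ?_⟩
    simp only [dif_pos ha, dif_pos ha'] at h
    exact congrArg Subtype.val (hf h)
  choose e he using h1
  exact ⟨e, he⟩

theorem ev_special (B : Type 1) [CompleteBooleanAlgebra B] (h : Facts B) :
    Ev (fun M => ∀ U : Set B, GenF Set.univ M U → ∀ T ∈ Nm M U, ∀ lt ∈ Nm M U, Aronszajn (Nm M U) T lt →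
      Special (Nm M U) T lt) := by
  obtain ⟨e, he⟩ := GSPb_enum
  refine Ev.mono ((((ev_arN B h.dist).and (ev_arSys B h.dist)).and ((ev_zf B).and (ev_omega1 B h.dist))).and
    ((((ev_unbV B).and (ev_closV B)).and ((ev_supN B).and (ev_bool (B := B)))).and
    ((((Ev.wit2 (S := Om → Om → ℕ → ℕ → B) (T := B) (Z := (Om → B) × (Om → ℕ → ℚ → B))
      (fun R b₀ Cf => b₀ ≤ clubV Cf.1 ∧ (∀ a n, b₀ ⊓ Cf.1 a ≤ ⨆ q, Cf.2 a n q) ∧
        ∀ a b n m q r, a < b → b₀ ⊓ Cf.1 a ⊓ Cf.1 b ⊓ R a b n m ⊓ Cf.2 a m q ⊓ Cf.2 b n r ≠ ⊥ → q < r)).and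
      ((Ev.fn1 (fun Cf : (Om → B) × (Om → ℕ → ℚ → B) => Cf.1)).and
        (Ev.fn1 (fun Cf : (Om → B) × (Om → ℕ → ℚ → B) => Cf.2)))).and
      (((mk1 B).and (mkQ B)).and ((ev_groundh B e).and
        (ev_groundc B (fun n k q => Nat.pair n (Nat.pair k q)))))).and
      ((ev_del.and Ev.nat).and
        ((((Ev.fn1 (unbV : (Om → B) → B)).and (Ev.fn1 (closV : (Om → B) → B))).and
          (Ev.fn2 (fun (x : Om → B) (a : Om) => x a))).and
          ((Ev.fn2 (fun a b : B => a ⊓ b)).and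
            ((Ev.fn3 (GSPb_g : (Om → ℕ → ℚ → B) → Om → ℕ → ℕ → B)).and
            (Ev.fn3 (fun (f : Om → ℕ → ℚ → B) (a : Om) (n : ℕ) => ⨆ q, f a n q))))))))) ?_
  rintro M ⟨⟨⟨harN, harS⟩, hzf, hom⟩, ⟨⟨hunb, hclos⟩, hsup, hbool⟩,
    ⟨⟨hwit, hf1, hf2⟩, ⟨hmk1, hmkQ⟩, hgh, hgc⟩, ⟨hdel, hnat⟩,
    ⟨⟨hu, hc⟩, hap⟩, hand, hg, hsq⟩ U hU T hT lt hlt hA
  obtain ⟨en, ρ, hρ, hAr⟩ := harN U hU T hT lt hlt hA
  obtain ⟨b₀, hb₀, hSys, hNo⟩ := harS U hU T hT lt hlt hA en ρ hρ hAr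
  have hb₀M : InM b₀ M := (hU.sub b₀ hb₀).2
  obtain ⟨C0, f0, hsp⟩ := h.special ρ b₀ hSys hNo
  obtain ⟨⟨C, f⟩, hCfM, hCf1, hCf2, hCf3⟩ := hwit ρ b₀ hρ hb₀M ⟨(C0, f0), hsp⟩
  have hCM : InM C M := hf1 _ hCfM
  have hfM : InM f M := hf2 _ hCfM
  simp only at hCf1 hCf2 hCf3
  have hN := hzf U hU
  have huC : unbV C ∈ U :=
    ((hbool U hU).2 b₀ (unbV C) hb₀M (hu C hCM)).2.2.2.2 (hCf1.trans inf_le_left) hb₀
  have hcC : closV C ∈ U :=
    ((hbool U hU).2 b₀ (closV C) hb₀M (hc C hCM)).2.2.2.2 (hCf1.trans inf_le_right) hb₀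
  have hunb' := (hunb U hU C hCM).1 huC
  have hclos' := (hclos U hU C hCM).1 hcC
  have hδ : o0 (del M) ∈ Nm M U := (hom U hU).2.1.1
  obtain ⟨S1, hS1, hS1'⟩ := hmk1 U hU C hCM
  obtain ⟨S2, hS2, hS2'⟩ := hmkQ U hU f hfM
  obtain ⟨S3, hS3, hS3'⟩ := hgh U hU
  obtain ⟨S4, hS4, hS4'⟩ := hgc U hU
  obtain ⟨Q, hQN, hQ⟩ := colour_mem hN (del M) hδ T hT en (fun a ha n => (hAr.node a ha n).1)
    (fun a => a < del M ∧ C a ∈ U) (fun a b n m => ρ a b n m ∈ U)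
    (fun a n q => ∃ r : ℚ, f a n r ∈ U ∧ q = Encodable.encode r) e
    (fun n k q => Nat.pair n (Nat.pair k q)) (fun a ha => ha.1) hAr.E
    ⟨S1, hS1, fun z => by
      rw [hS1' z]
      constructor
      · rintro ⟨a, h1, h2, h3⟩
        exact ⟨a, ⟨(hdel a).1 h1, h2⟩, h3⟩
      · rintro ⟨a, ⟨h1, h2⟩, h3⟩
        exact ⟨a, (hdel a).2 h1, h2, h3⟩⟩
    hAr.R
    ⟨S2, hS2, fun z => by
      rw [hS2' z]
      constructor
      · rintro ⟨a, n, q, h1, h2, h3⟩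
        exact ⟨a, n, Encodable.encode q, (hdel a).1 h1, ⟨q, h2, rfl⟩, h3⟩
      · rintro ⟨a, n, _, h1, ⟨q, h2, rfl⟩, h3⟩
        exact ⟨a, n, q, (hdel a).2 h1, h2, h3⟩⟩
    ⟨S3, hS3, fun z => by
      rw [hS3' z]
      constructor
      · rintro ⟨a, b, h1, h2, h3⟩
        exact ⟨a, b, (hdel a).1 h1, (hdel b).1 h2, h3⟩
      · rintro ⟨a, b, h1, h2, h3⟩
        exact ⟨a, b, (hdel a).2 h1, (hdel b).2 h2, h3⟩⟩
    ⟨S4, hS4, hS4'⟩
  refine GSPb_core hN hQN ?_ ?_ ?_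
  · intro z hz
    obtain ⟨a, n, k, q, ha, _, _, _, hz'⟩ := (hQ z).1 hz
    exact ⟨en a n, (hAr.node a ha n).1, _, hz'⟩
  · refine GSPb_ex (δ := del M) (en := en) (C := fun a => a < del M ∧ C a ∈ U)
      (R := fun a b n m => ρ a b n m ∈ U)
      (F := fun a n q => ∃ r : ℚ, f a n r ∈ U ∧ q = Encodable.encode r) (h := e)
      hAr.surj (GSPb_tot hN hA.tree hAr.node hAr.surj hAr.rel) (fun a ha => ha.1) ?_ ?_ ?_ hQ
    · intro a ha
      obtain ⟨b, h1, h2, h3⟩ := hunb' a ha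
      exact ⟨b, h1, h2, h3⟩
    · intro a ha h1 h2
      refine ⟨ha, hclos' a ha h1 fun b hb => ?_⟩
      obtain ⟨c, h3, h4, _, h5⟩ := h2 b hb
      exact ⟨c, h3, h4, h5⟩
    · rintro a ⟨ha, haU⟩ n
      have haM : InM a M := (hdel a).2 ha
      have h1 : b₀ ⊓ C a ∈ U :=
        (((hbool U hU).2 b₀ (C a) hb₀M (hap C a hCM haM)).2.1).2 ⟨hb₀, haU⟩
      have h2 : (⨆ q, f a n q) ∈ U :=
        ((hbool U hU).2 (b₀ ⊓ C a) (⨆ q, f a n q) (hU.sub _ h1).2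
          (hsq f a n hfM haM (hnat n))).2.2.2.2 (hCf2 a n) h1
      rw [GSPb_sup] at h2
      obtain ⟨k, hk⟩ := (hsup U hU _ (hg f a n hfM haM (hnat n))).1 h2
      unfold GSPb_g at hk
      split at hk
      · rename_i q _
        exact ⟨_, q, hk, rfl⟩
      · exact absurd hk hU.bot
  · refine GSPb_anti (δ := del M) (en := en) (C := fun a => a < del M ∧ C a ∈ U)
      (R := fun a b n m => ρ a b n m ∈ U)
      (F := fun a n q => ∃ r : ℚ, f a n r ∈ U ∧ q = Encodable.encode r) (h := e)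
      hN hlt hA.tree hAr.node hAr.rel (fun a ha => ha.1) ?_ he hQ
    rintro a b n m _ ⟨_, haU⟩ ⟨_, hbU⟩ hab hR ⟨x, hx, rfl⟩ ⟨y, hy, hxy⟩
    have hxy' : x = y := Encodable.encode_injective hxy
    subst hxy'
    refine lt_irrefl x (hCf3 a b n m x x hab fun h0 => hU.bot ?_)
    rw [← h0]
    exact hU.inf _ (hU.inf _ (hU.inf _ (hU.inf _ (hU.inf _ hb₀ _ haU) _ hbU) _ hR) _ hx) _ hy

end Pool.Agent.CAN
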