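import Pool.Agent.CAN.GNC
import Pool.Agent.CAN.GSPb
import Pool.Agent.CAN.EVX

/-!
# CAN/GFI: the final model
-/

set_option autoImplicit false

namespace Pool.Agent.CAN
open ZFSet Pool.Agent.FBZ

theorem model_of_facts (B : Type 1) [CompleteBooleanAlgebra B] (h : Facts B) :
    ∃ N : Set ZFSet.{0}, Model N := by
  have key := ((((ev_zfc B).and (ev_ch B h)).and (ev_special B h)).and (ev_nocanary B h)).and
    ((ev_ctbl0.and (ev_gen_exists B)).and (Ev.const (⊤ : B)))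
  obtain ⟨F, hF⟩ := key
  obtain ⟨M, hM, -⟩ := exists_mdl F (P := ∅) Set.countable_empty
  obtain ⟨⟨⟨⟨h1, h2⟩, h3⟩, h4⟩, ⟨⟨h5, -⟩, h6⟩, h7⟩ := hF M hM
  obtain ⟨U, hU, -⟩ := h6 ⊤ h7 (fun hh => h.nontriv hh.symm)
  exact ⟨Nm M U, nm_countable h5 U, h1 U hU, h2 U hU, h3 U hU, h4 U hU⟩

end Pool.Agent.CAN
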