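import Pool.Agent.CAN.GDefs2
import Pool.Agent.FBZ.DC3

/-!
# CAN/GHT: heights of nodes of a tree in a transitive model of ZF

`Height N T lt t α`: some `f ∈ N` is an isomorphism from the ordinal `α` onto the predecessors of `t`.
* `height_unique`: let `f : α → T`, `g : β → T` be the two isomorphisms.  By `∈`-induction on `γ`: `pair γ s ∈ f`, `pair γ' s ∈ g` imply
  `γ = γ'`: for `δ ∈ γ` (so `δ ∈ α`) let `pair δ s' ∈ f`; `pair s' s ∈ lt`, so `pair s' t ∈ lt`, `pair δ' s' ∈ g` for some `δ'`, `δ' ∈ γ'` since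
  `pair s' s ∈ lt`, and `δ = δ'` by induction; so `γ ⊆ γ'`; the other inclusion in the same way (for `δ' ∈ γ'` with
  `pair δ' s' ∈ g` there is `δ` with `pair δ s' ∈ f`, `δ ∈ γ`, and the induction hypothesis for `δ` gives `δ = δ'`).  Then `α = β`.
* `height_down`: for `β ∈ α` let `pair β s ∈ f`; the restriction of `f` to `β` (`f.sep (fun p => fs p ∈ β)`, in `N` by `sep_mem`) shows `Height N T lt s β`: if
  `pair r s ∈ lt` then `pair r t ∈ lt`, `pair γ r ∈ f`, and `γ ∈ β` by order preservation.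
* `height_mem`, `height_pred_unique`: `pair s t ∈ lt` gives `pair γ s ∈ f` with `γ ∈ α`, and `Height s γ` as before, so `β = γ` by uniqueness.
* `tree_linear`: apply `Tree.wo` to the set `{s, s'}`.
* `Dfn.height`: `Dfn.ex`, `Dfn.and`, `Dfn.isFunc`, `Dfn.isOrdinal`, `Dfn.all` (quantifiers over elements of transitive sets of `N` may be replaced by quantifiers over
  `N`: if `pair s t ∈ lt ∈ N` then `s, t ∈ N`; use `Dfn.congr`).
-/

set_option autoImplicit false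

namespace Pool.Agent.CAN
open ZFSet Pool.Agent.FBZ

section
variable {N : Set ZFSet.{0}} {T lt : ZFSet.{0}}

private theorem GHT_down (hN : ZF N) (hT : Tree N T lt) {t α f γ s : ZFSet.{0}} (ha : α.IsOrdinal) (hfN : f ∈ N)
    (hF : IsFunc α T f) (hP : ∀ s, pair s t ∈ lt ↔ ∃ β, pair β s ∈ f)
    (hO : ∀ β γ s r, pair β s ∈ f → pair γ r ∈ f → (β ∈ γ ↔ pair s r ∈ lt)) (h : pair γ s ∈ f) :
    Height N T lt s γ := by
  have hγ : γ ∈ α := (pair_mem_prod.mp (hF.1 h)).1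
  have hγN : γ ∈ N := ((pair_mem_iff hN).mp (hN.trans f hfN _ h)).1
  have hst : pair s t ∈ lt := (hP s).mpr ⟨γ, h⟩
  have hg : ∀ x y, pair x y ∈ f.sep (fun p => fs p ∈ γ) ↔ pair x y ∈ f ∧ x ∈ γ := by
    intro x y
    rw [mem_sep, fs_pair]
  refine ⟨ha.mem hγ, f.sep (fun p => fs p ∈ γ), ?_, ⟨?_, ?_⟩, ?_, ?_⟩
  · exact sep_mem hN (Q := fun p => fs p ∈ γ)
      (Dfn.mem hN (DT.fsT hN (DT.var hN 0)) (DT.cst hN hγN)) hfN
  · intro p hp
    rw [mem_sep] at hp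
    obtain ⟨x, hx, y, hy, rfl⟩ := mem_prod.mp (hF.1 hp.1)
    have h2 := hp.2
    rw [fs_pair] at h2
    exact pair_mem_prod.mpr ⟨h2, hy⟩
  · intro z hz
    obtain ⟨w, hw, hu⟩ := hF.2 z (ha.isTransitive.mem_trans hz hγ)
    refine ⟨w, (hg z w).mpr ⟨hw, hz⟩, fun w' hw' => hu w' ((hg z w').mp hw').1⟩
  · intro r
    constructor
    · intro hr
      obtain ⟨δ, hδ⟩ := (hP r).mp (hT.trans r s t hr hst)
      exact ⟨δ, (hg δ r).mpr ⟨hδ, (hO δ γ r s hδ h).mpr hr⟩⟩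
    · rintro ⟨δ, hδ⟩
      obtain ⟨h1, h2⟩ := (hg δ r).mp hδ
      exact (hO δ γ r s h1 h).mp h2
  · intro x y r r' h1 h2
    exact hO x y r r' ((hg x r).mp h1).1 ((hg y r').mp h2).1

/-- The bounded form of the properties of the isomorphism. -/
private def GHT_H (N : Set ZFSet.{0}) (T lt f t s : ZFSet.{0}) : Prop :=
  IsFunc s T f ∧ (∀ x ∈ N, (pair x t ∈ lt ↔ ∃ β ∈ N, pair β x ∈ f)) ∧
    ∀ β ∈ N, ∀ γ ∈ N, ∀ x ∈ N, ∀ y ∈ N, pair β x ∈ f → pair γ y ∈ f → (β ∈ γ ↔ pair x y ∈ lt)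

private theorem GHT_dfn (hN : ZF N) (hT : T ∈ N) (hlt : lt ∈ N) :
    Dfn N (fun v => GHT_H N T lt (v 0) (v 1) (v 2)) := by
  refine Dfn.and (Dfn.isFunc hN (DT.var hN 2) (DT.cst hN hT) (DT.var hN 0)) (Dfn.and ?_ ?_)
  · refine Dfn.all (Q := fun v x => (pair x (v 1) ∈ lt ↔ ∃ β ∈ N, pair β x ∈ v 0)) ?_
    exact Dfn.iff (Dfn.mem hN (DT.pairT hN (DT.var hN 0) (DT.var hN 2)) (DT.cst hN hlt))
      (Dfn.ex (Q := fun v β => pair β (v 0) ∈ v 1)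
        (Dfn.mem hN (DT.pairT hN (DT.var hN 0) (DT.var hN 1)) (DT.var hN 2)))
  · refine Dfn.all (Q := fun v β => ∀ γ ∈ N, ∀ x ∈ N, ∀ y ∈ N, pair β x ∈ v 0 → pair γ y ∈ v 0 →
      (β ∈ γ ↔ pair x y ∈ lt)) ?_
    refine Dfn.all (Q := fun v γ => ∀ x ∈ N, ∀ y ∈ N, pair (v 0) x ∈ v 1 → pair γ y ∈ v 1 →
      (v 0 ∈ γ ↔ pair x y ∈ lt)) ?_
    refine Dfn.all (Q := fun v x => ∀ y ∈ N, pair (v 1) x ∈ v 2 → pair (v 0) y ∈ v 2 →
      (v 1 ∈ v 0 ↔ pair x y ∈ lt)) ?_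
    refine Dfn.all (Q := fun v y => pair (v 2) (v 0) ∈ v 3 → pair (v 1) y ∈ v 3 →
      (v 2 ∈ v 1 ↔ pair (v 0) y ∈ lt)) ?_
    exact Dfn.imp (Dfn.mem hN (DT.pairT hN (DT.var hN 3) (DT.var hN 1)) (DT.var hN 4))
      (Dfn.imp (Dfn.mem hN (DT.pairT hN (DT.var hN 2) (DT.var hN 0)) (DT.var hN 4))
        (Dfn.iff (Dfn.mem hN (DT.var hN 3) (DT.var hN 2))
          (Dfn.mem hN (DT.pairT hN (DT.var hN 1) (DT.var hN 0)) (DT.cst hN hlt))))

theorem height_unique (hN : ZF N) (hT : Tree N T lt) {t α β : ZFSet.{0}} (ha : Height N T lt t α)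
    (hb : Height N T lt t β) : α = β := by
  obtain ⟨hα, f, hfN, fF, fP, fO⟩ := ha
  obtain ⟨hβ, g, hgN, gF, gP, gO⟩ := hb
  have key : ∀ γ γ' s : ZFSet.{0}, pair γ s ∈ f → pair γ' s ∈ g → γ = γ' := by
    intro γ
    induction γ using ZFSet.inductionOn with
    | _ γ ih =>
      intro γ' s h h'
      have hγ : γ ∈ α := (pair_mem_prod.mp (fF.1 h)).1
      have hγ' : γ' ∈ β := (pair_mem_prod.mp (gF.1 h')).1
      ext δ
      constructor
      · intro hδ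
        obtain ⟨s', hs', _⟩ := fF.2 δ (hα.isTransitive.mem_trans hδ hγ)
        have h1 : pair s' s ∈ lt := (fO δ γ s' s hs' h).mp hδ
        obtain ⟨δ', hδ'⟩ := (gP s').mp ((fP s').mpr ⟨δ, hs'⟩)
        rw [ih δ hδ δ' s' hs' hδ']
        exact (gO δ' γ' s' s hδ' h').mpr h1
      · intro hδ
        obtain ⟨s', hs', _⟩ := gF.2 δ (hβ.isTransitive.mem_trans hδ hγ')
        have h1 : pair s' s ∈ lt := (gO δ γ' s' s hs' h').mp hδ
        obtain ⟨δ', hδ'⟩ := (fP s').mp ((gP s').mpr ⟨δ, hs'⟩)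
        have h2 : δ' ∈ γ := (fO δ' γ s' s hδ' h).mpr h1
        rw [← ih δ' h2 δ s' hδ' hs']
        exact h2
  ext γ
  constructor
  · intro hγ
    obtain ⟨s, hs, _⟩ := fF.2 γ hγ
    obtain ⟨γ', hγ'⟩ := (gP s).mp ((fP s).mpr ⟨γ, hs⟩)
    rw [key γ γ' s hs hγ']
    exact (pair_mem_prod.mp (gF.1 hγ')).1
  · intro hγ
    obtain ⟨s, hs, _⟩ := gF.2 γ hγ
    obtain ⟨γ', hγ'⟩ := (fP s).mp ((gP s).mpr ⟨γ, hs⟩)
    rw [← key γ' γ s hγ' hs]
    exact (pair_mem_prod.mp (fF.1 hγ')).1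

theorem height_down (hN : ZF N) (hT : Tree N T lt) {t α β : ZFSet.{0}} (ha : Height N T lt t α) (hb : β ∈ α) :
    ∃ s, pair s t ∈ lt ∧ Height N T lt s β := by
  obtain ⟨hα, f, hfN, fF, fP, fO⟩ := ha
  obtain ⟨s, hs, _⟩ := fF.2 β hb
  exact ⟨s, (fP s).mpr ⟨β, hs⟩, GHT_down hN hT hα hfN fF fP fO hs⟩

theorem height_mem (hN : ZF N) (hT : Tree N T lt) {s t α β : ZFSet.{0}} (h : pair s t ∈ lt)
    (hs : Height N T lt s β) (ht : Height N T lt t α) : β ∈ α := by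
  obtain ⟨hα, f, hfN, fF, fP, fO⟩ := ht
  obtain ⟨γ, hγ⟩ := (fP s).mp h
  rw [height_unique hN hT hs (GHT_down hN hT hα hfN fF fP fO hγ)]
  exact (pair_mem_prod.mp (fF.1 hγ)).1

theorem height_pred_unique (hN : ZF N) (hT : Tree N T lt) {s s' t β : ZFSet.{0}} (h : pair s t ∈ lt)
    (h' : pair s' t ∈ lt) (hs : Height N T lt s β) (hs' : Height N T lt s' β)
    (ht : ∃ α, Height N T lt t α) : s = s' := by
  obtain ⟨α, hα, f, hfN, fF, fP, fO⟩ := ht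
  obtain ⟨γ, hγ⟩ := (fP s).mp h
  obtain ⟨γ', hγ'⟩ := (fP s').mp h'
  have e1 := height_unique hN hT hs (GHT_down hN hT hα hfN fF fP fO hγ)
  have e2 := height_unique hN hT hs' (GHT_down hN hT hα hfN fF fP fO hγ')
  rw [← e1] at hγ
  rw [← e2] at hγ'
  exact (fF.2 β (pair_mem_prod.mp (fF.1 hγ)).1).unique hγ hγ'


theorem tree_linear (hN : ZF N) (hlt : lt ∈ N) (hT : Tree N T lt) {s s' t : ZFSet.{0}} (h : pair s t ∈ lt)
    (h' : pair s' t ∈ lt) : s = s' ∨ pair s s' ∈ lt ∨ pair s' s ∈ lt := by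
  have ht : t ∈ T := (pair_mem_prod.mp (hT.field h)).2
  have hs : s ∈ N := ((pair_mem_iff hN).mp (hN.trans lt hlt _ h)).1
  have hs' : s' ∈ N := ((pair_mem_iff hN).mp (hN.trans lt hlt _ h')).1
  obtain ⟨a, ha, hmin⟩ := hT.wo t ht {s, s'} (hN.pairing s hs s' hs')
    ⟨s, by rw [mem_pair]; exact Or.inl rfl⟩ (fun a ha => by
      rw [mem_pair] at ha
      rcases ha with rfl | rfl
      · exact h
      · exact h')
  have h1 := hmin s (by rw [mem_pair]; exact Or.inl rfl)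
  have h2 := hmin s' (by rw [mem_pair]; exact Or.inr rfl)
  rw [mem_pair] at ha
  rcases ha with rfl | rfl
  · rcases h2 with h2 | h2
    · exact Or.inl h2.symm
    · exact Or.inr (Or.inl h2)
  · rcases h1 with h1 | h1
    · exact Or.inl h1
    · exact Or.inr (Or.inr h1)

theorem Dfn.height (hN : ZF N) (hT : T ∈ N) (hlt : lt ∈ N) {t s : Env.{0} → ZFSet.{0}} (ht : DT N t) (hs : DT N s) :
    Dfn N (fun v => Height N T lt (t v) (s v)) := by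
  have h1 : Dfn N (fun v => ∃ f ∈ N, GHT_H N T lt f (t v) (s v)) :=
    Dfn.ex (Q := fun v f => GHT_H N T lt f (t v) (s v))
      (Dfn.app3 hN (P := fun f t s => GHT_H N T lt f t s) (GHT_dfn hN hT hlt) (DT.var hN 0)
        (DT.shift ht) (DT.shift hs))
  refine Dfn.congr (Dfn.and (Dfn.isOrdinal hN hs) h1) fun v hv => ?_
  refine and_congr_right fun _ => ?_
  have hpN : ∀ a ∈ N, ∀ x y, pair x y ∈ a → x ∈ N ∧ y ∈ N := fun a ha x y h =>
    (pair_mem_iff hN).mp (hN.trans a ha _ h)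
  constructor
  · rintro ⟨f, hf, h2, h3, h4⟩
    refine ⟨f, hf, h2, fun x _ => ?_, fun β _ γ _ x _ y _ => h4 β γ x y⟩
    rw [h3 x]
    constructor
    · rintro ⟨β, hβ⟩
      exact ⟨β, (hpN f hf _ _ hβ).1, hβ⟩
    · rintro ⟨β, _, hβ⟩
      exact ⟨β, hβ⟩
  · rintro ⟨f, hf, h2, h3, h4⟩
    refine ⟨f, hf, h2, fun x => ?_, fun β γ x y h5 h6 => ?_⟩
    · constructor
      · intro h
        obtain ⟨β, _, hβ⟩ := (h3 x (hpN lt hlt _ _ h).1).mp h
        exact ⟨β, hβ⟩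
      · rintro ⟨β, hβ⟩
        exact (h3 x (hpN f hf _ _ hβ).2).mpr ⟨β, (hpN f hf _ _ hβ).1, hβ⟩
    · exact h4 β (hpN f hf _ _ h5).1 γ (hpN f hf _ _ h6).1 x (hpN f hf _ _ h5).2 y
        (hpN f hf _ _ h6).2 h5 h6

end

end Pool.Agent.CAN
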