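import Pool.Agent.CAN.GDefs2
import Pool.Agent.FBZ.DC3
import Pool.Agent.FBZ.DK

/-!
# CAN/GIN: under CH a set of size continuum injects into `ω₁` (in a transitive model of ZF)

`CH N`: `κ'` with `Omega1 N κ'` and `g ∈ N`, `Surj g κ' (powN N ω)`; `κ' = κ` (`SuccCard` determines the cardinal: two ordinals are comparable; if `κ ∈ κ'` then `κ = ω` or `κ ∈ ω`, but
`ω ∈ κ`).  For `t ∈ T` with `pair t x ∈ f`, `x ∈ powN N ω`, let `i(t)` be the least `α ∈ κ` with `pair α x ∈ g`.  So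
`i = {pair t α | t ∈ T, α ∈ κ, ∃ x, pair t x ∈ f ∧ pair α x ∈ g ∧ ∀ β ∈ α, pair β x ∉ g}` is in `N` (separation from `prod T κ`), a function, injective since `g` is a function and `f` is injective.
-/

set_option autoImplicit false

namespace Pool.Agent.CAN
open ZFSet Pool.Agent.FBZ

private theorem GIN_unique {N : Set ZFSet.{0}} {κ κ' : ZFSet.{0}} (h : Omega1 N κ) (h' : Omega1 N κ') : κ = κ' := by
  have key : ∀ a b : ZFSet.{0}, Omega1 N a → Omega1 N b → a ∉ b := by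
    intro a b ha hb hab
    rcases hb.2.2.2 a hab ha.2.1 with h1 | h1
    · have h2 := ha.2.2.1
      rw [h1] at h2
      exact mem_irrefl _ h2
    · exact mem_asymm h1 ha.2.2.1
  rcases h.2.1.2.1.mem_trichotomous h'.2.1.2.1 with h1 | h1 | h1
  · exact absurd h1 (key _ _ h h')
  · exact h1
  · exact absurd h1 (key _ _ h' h)

theorem exists_inj {N : Set ZFSet.{0}} (hN : ZF N) (hc : CH N) {κ T : ZFSet.{0}} (hκ : Omega1 N κ) (hT : T ∈ N)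
    (hcard : ∃ f ∈ N, Surj f T (powN N ZFSet.omega) ∧ ∀ s t x, pair s x ∈ f → pair t x ∈ f → s = t) :
    ∃ i ∈ N, IsFunc T κ i ∧ ∀ s t a, pair s a ∈ i → pair t a ∈ i → s = t := by
  obtain ⟨κ', hκ', g, hg, hgs⟩ := hc
  obtain rfl := GIN_unique hκ hκ'
  obtain ⟨f, hf, hfs, hinj⟩ := hcard
  have hord := hκ.2.1.2.1
  have hD : Dfn N (fun v => ∃ x ∈ N, pair (fs (v 0)) x ∈ f ∧ pair (sn (v 0)) x ∈ g ∧
      ∀ β ∈ sn (v 0), pair β x ∉ g) := by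
    refine Dfn.ex (Q := fun v x => pair (fs (v 0)) x ∈ f ∧ pair (sn (v 0)) x ∈ g ∧
      ∀ β ∈ sn (v 0), pair β x ∉ g) ?_
    refine Dfn.and (Dfn.mem hN (DT.pairT hN (DT.fsT hN (DT.var hN 1)) (DT.var hN 0)) (DT.cst hN hf))
      (Dfn.and (Dfn.mem hN (DT.pairT hN (DT.snT hN (DT.var hN 1)) (DT.var hN 0)) (DT.cst hN hg)) ?_)
    exact Dfn.ball hN (Q := fun v β => pair β (v 0) ∉ g) (DT.snT hN (DT.var hN 1))
      (Dfn.not (Dfn.mem hN (DT.pairT hN (DT.var hN 0) (DT.var hN 1)) (DT.cst hN hg)))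
  have hi := sep_mem hN (Q := fun p => ∃ x ∈ N, pair (fs p) x ∈ f ∧ pair (sn p) x ∈ g ∧
      ∀ β ∈ sn p, pair β x ∉ g) hD (prod_mem hN hT hκ.2.1.1)
  obtain ⟨i, hidef⟩ : ∃ i, i = (prod T κ).sep (fun p => ∃ x ∈ N, pair (fs p) x ∈ f ∧ pair (sn p) x ∈ g ∧
      ∀ β ∈ sn p, pair β x ∉ g) := ⟨_, rfl⟩
  rw [← hidef] at hi
  have hmem : ∀ t a, pair t a ∈ i ↔ (t ∈ T ∧ a ∈ κ) ∧ ∃ x ∈ N, pair t x ∈ f ∧ pair a x ∈ g ∧
      ∀ β ∈ a, pair β x ∉ g := by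
    intro t a
    rw [hidef, mem_sep, pair_mem_prod, fs_pair, sn_pair]
  refine ⟨i, hi, ⟨?_, ?_⟩, ?_⟩
  · rw [hidef]
    intro z hz
    rw [mem_sep] at hz
    exact hz.1
  · intro t ht
    obtain ⟨h1, h2⟩ := pair_ap hfs.1 ht
    obtain ⟨x, hx⟩ : ∃ x, x = ap f t := ⟨_, rfl⟩
    rw [← hx] at h1 h2
    obtain ⟨a, ha, hax⟩ := hgs.2 x h2
    have hne : κ.sep (fun a => pair a x ∈ g) ≠ ∅ := by
      intro h
      have h3 : a ∈ κ.sep (fun a => pair a x ∈ g) := mem_sep.2 ⟨ha, hax⟩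
      rw [h] at h3
      exact notMem_empty _ h3
    obtain ⟨b, hb, hbe⟩ := regularity _ hne
    rw [mem_sep] at hb
    have hmin : ∀ β ∈ b, pair β x ∉ g := by
      intro β hβ hβx
      have h3 : β ∈ κ.sep (fun a => pair a x ∈ g) ∩ b :=
        mem_inter.2 ⟨mem_sep.2 ⟨hord.mem_trans hβ hb.1, hβx⟩, hβ⟩
      rw [hbe] at h3
      exact notMem_empty _ h3
    refine ⟨b, (hmem t b).2 ⟨⟨ht, hb.1⟩, x, (mem_powN.1 h2).1, h1, hb.2, hmin⟩, ?_⟩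
    intro c hc
    obtain ⟨⟨-, hcκ⟩, x', hx'N, hx', hcx, hcmin⟩ := (hmem t c).1 hc
    have h4 : x' = x := by rw [← ap_eq hfs.1 hx', ← ap_eq hfs.1 h1]
    rw [h4] at hcx hcmin
    rcases (hord.mem hcκ).mem_trichotomous (hord.mem hb.1) with h5 | h5 | h5
    · exact absurd hcx (hmin c h5)
    · exact h5
    · exact absurd hb.2 (hcmin b h5)
  · intro s t a hs ht
    obtain ⟨-, x, -, hx, hax, -⟩ := (hmem s a).1 hs
    obtain ⟨-, x', -, hx', hax', -⟩ := (hmem t a).1 ht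
    have h4 : x' = x := by rw [← ap_eq hgs.1 hax', ← ap_eq hgs.1 hax]
    rw [h4] at hx'
    exact hinj s t x hx hx'

end Pool.Agent.CAN
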