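import Pool.Agent.CAN.GQD
import Pool.Agent.FBZ.FH
import Pool.Agent.FBZ.DE1

/-!
# CAN/GQF: no uncountable branch is added

`N = Nm M U`, `κ = o0 (del M)`, `y ∈ N[H]` an uncountable chain of `(T, lt)` in the sense of `N[H]`.
STEP 1 (a name for the image of `y` in `κ`): `flat_one` (FBZ/FD) with `A = T`: `B₁ ∈ N`, `B₁ ⊆ prod T P`, downward closed, `s ∈ y ↔ ∃ p ∈ H, pair s p ∈ B₁`.
Let `B₂ = {pair α p | α ∈ κ, p ∈ P, ∃ s, pair s α ∈ i ∧ pair s p ∈ B₁} ∈ N`, downward closed.  `ev_names` with `I = Om`, `J = oz` gives `x : Om → Set (QQ S)` in `M` with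
`(∃ s ∈ y, pair s (o0 a) ∈ i) ↔ ∃ q ∈ UH, ∃ t ∈ x a, q ≤ t` for `a < del M`.
STEP 2: the image of `y` is unbounded in `κ`: suppose `i(s) ∈ o0 a` for all `s ∈ y`, `a < del M`.  `a` is countable in `N` (`ev_ctble_lt`; `o0 a` is not empty since `y` is not): `g ∈ N` maps `ω` onto `o0 a`.
Fix `s₀ ∈ y`.  Let `f = {pair n s | n ∈ ω, s ∈ y, pair n (i(s)) ∈ g} ∪ {pair n s₀ | n ∈ ω, g(n) ≠ i(s) for all s ∈ y}`, a surjection `ω → y`.  `f ∈ N[H]` by `build_one` with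
`A = prod ω T` and `C = {pair (pair n s) p | ∃ α, pair n α ∈ g ∧ ((pair s α ∈ i ∧ pair s p ∈ B₁) ∨ (s = s₀ ∧ ∀ q, pair q p ∈ le → pair α q ∉ B₂))}` in `N`: for given `n`, `α = g(n)`,
the set `{p ∈ P | pair α p ∈ B₂ ∨ ∀ q, pair q p ∈ le → pair α q ∉ B₂}` is in `N` and dense, so `H` meets it; if no `s ∈ y` has `i(s) = α` then the second alternative holds for some `p ∈ H`; if some `s ∈ y` has `i(s) = α` then
no `p ∈ H` satisfies the second one (a common extension in `H`).  So `Ctble (N[H]) y`, contradiction.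
STEP 3: `D` = the set of the `q` with `ForcesChain S τ x q`, or (∃ a ≠ b, (∃ t ∈ x a, q ≤ t) ∧ (∃ t ∈ x b, q ≤ t) ∧ q.1.1 ⊓ (τ a b ⊔ τ b a) = ⊥), or (∃ a, ∀ r ≤ q, ∀ b > a, ∀ t ∈ x b, ¬ r ≤ t).  `D` is dense: if no
`r ≤ q` satisfies the second or third property then `ForcesChain S τ x q`.  `D` is in `M`.  Take `q ∈ UH ∩ D`.
 - first case: `q` and `p` have a common extension `r`, `ForcesChain S τ x r` (it is inherited by stronger conditions), contradiction to the hypothesis on `p`.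
 - second case: such `a`, `b` can be taken in `M` (`Ev.wit3`); there are `s, t ∈ y` with `i(s) = o0 a`, `i(t) = o0 b`, `s ≠ t`, so `s < t` or `t < s`, `τ a b ∈ U` or `τ b a ∈ U`, but `q.1.1 ∈ U` is
   disjoint from both, contradiction (`ev_bool`).
 - third case: `a` can be taken in `M`; by step 2 there are `s ∈ y`, `i(s) = o0 b`, `a < b < del M`, so `q' ∈ UH`, `t ∈ x b`, `q' ≤ t`; a common extension of `q`, `q'` gives a contradiction.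
-/

set_option autoImplicit false

namespace Pool.Agent.CAN
open ZFSet Pool.Agent.FBZ

private theorem GQF_B2 {N : Set ZFSet.{0}} {P T i κ B₁ : ZFSet.{0}} (hN : ZF N) (hP : P ∈ N) (hT : T ∈ N)
    (hi : i ∈ N) (hκ : κ ∈ N) (hfun : IsFunc T κ i) (hB₁ : B₁ ∈ N) :
    ∃ B₂ ∈ N, ∀ α p, pair α p ∈ B₂ ↔ p ∈ P ∧ ∃ s, pair s α ∈ i ∧ pair s p ∈ B₁ := by
  refine ⟨(prod κ P).sep (fun z => ∃ s ∈ T, pair s (fs z) ∈ i ∧ pair s (sn z) ∈ B₁), ?_, ?_⟩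
  · refine Pool.Agent.FBZ.sep_mem hN (Q := fun z => ∃ s ∈ T, pair s (fs z) ∈ i ∧ pair s (sn z) ∈ B₁) ?_
      (prod_mem hN hκ hP)
    exact Dfn.bex hN (DT.cst hN hT) (Q := fun v s => pair s (fs (v 0)) ∈ i ∧ pair s (sn (v 0)) ∈ B₁)
      ((Dfn.mem hN (DT.pairT hN (DT.var hN 0) (DT.fsT hN (DT.var hN 1))) (DT.cst hN hi)).and
        (Dfn.mem hN (DT.pairT hN (DT.var hN 0) (DT.snT hN (DT.var hN 1))) (DT.cst hN hB₁)))
  · intro α p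
    rw [mem_sep, fs_pair, sn_pair, pair_mem_prod]
    constructor
    · rintro ⟨⟨-, h1⟩, s, -, h2⟩
      exact ⟨h1, s, h2⟩
    · rintro ⟨h1, s, h2, h3⟩
      have h4 := pair_mem_prod.1 (hfun.1 h2)
      exact ⟨⟨h4.2, h1⟩, s, h4.1, h2, h3⟩

private theorem GQF_ctble {N : Set ZFSet.{0}} {P le H T i κ κ' y B₁ B₂ g : ZFSet.{0}} (hN : ZF N)
    (hf : Forcing P le) (hP : P ∈ N) (hle : le ∈ N) (hG : Generic N P le H) (hT : T ∈ N) (hi : i ∈ N)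
    (hfun : IsFunc T κ i) (hinj : ∀ s t a, pair s a ∈ i → pair t a ∈ i → s = t) (hyT : y ⊆ T)
    (hB₁ : B₁ ∈ N) (hB₁d : ∀ a p q, pair a p ∈ B₁ → pair q p ∈ le → pair a q ∈ B₁)
    (hy : ∀ a ∈ T, (a ∈ y ↔ ∃ p ∈ H, pair a p ∈ B₁)) (hB₂ : B₂ ∈ N)
    (hB₂' : ∀ α p, pair α p ∈ B₂ ↔ p ∈ P ∧ ∃ s, pair s α ∈ i ∧ pair s p ∈ B₁)
    (hg : g ∈ N) (hgs : Surj g ZFSet.omega κ') (hbd : ∀ s ∈ y, ∀ α, pair s α ∈ i → α ∈ κ') :
    Ctble (Ext N H) y := by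
  by_cases hy0 : ∃ s, s ∈ y
  swap
  · push Not at hy0
    exact Or.inl ((ZFSet.eq_empty y).2 hy0)
  obtain ⟨s₀, hs₀⟩ := hy0
  have hs₀N : s₀ ∈ N := mem_N hN hT (hyT hs₀)
  have hne := gen_nonempty hf hP hG
  have hC : (prod (prod ZFSet.omega T) P).sep (fun z =>
      (pair (sn (fs z)) (ap g (fs (fs z))) ∈ i ∧ pair (sn (fs z)) (sn z) ∈ B₁) ∨
      (sn (fs z) = s₀ ∧ ∀ q ∈ P, pair q (sn z) ∈ le → pair (ap g (fs (fs z))) q ∉ B₂)) ∈ N := by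
    refine Pool.Agent.FBZ.sep_mem hN (Q := fun z =>
      (pair (sn (fs z)) (ap g (fs (fs z))) ∈ i ∧ pair (sn (fs z)) (sn z) ∈ B₁) ∨
      (sn (fs z) = s₀ ∧ ∀ q ∈ P, pair q (sn z) ∈ le → pair (ap g (fs (fs z))) q ∉ B₂)) ?_
      (prod_mem hN (prod_mem hN hN.omega hT) hP)
    refine Dfn.or ?_ ?_
    · exact (Dfn.mem hN (DT.pairT hN (DT.snT hN (DT.fsT hN (DT.var hN 0)))
        (DT.apT hN (DT.cst hN hg) (DT.fsT hN (DT.fsT hN (DT.var hN 0))))) (DT.cst hN hi)).and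
        (Dfn.mem hN (DT.pairT hN (DT.snT hN (DT.fsT hN (DT.var hN 0))) (DT.snT hN (DT.var hN 0))) (DT.cst hN hB₁))
    · refine (Dfn.eq hN (DT.snT hN (DT.fsT hN (DT.var hN 0))) (DT.cst hN hs₀N)).and ?_
      exact Dfn.ball hN (DT.cst hN hP)
        (Q := fun v q => pair q (sn (v 0)) ∈ le → pair (ap g (fs (fs (v 0)))) q ∉ B₂)
        ((Dfn.mem hN (DT.pairT hN (DT.var hN 0) (DT.snT hN (DT.var hN 1))) (DT.cst hN hle)).imp
          (Dfn.mem hN (DT.pairT hN (DT.apT hN (DT.cst hN hg) (DT.fsT hN (DT.fsT hN (DT.var hN 1))))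
            (DT.var hN 0)) (DT.cst hN hB₂)).not)
  have hfE := build_one hN hP hG.sub hne (prod_mem hN hN.omega hT) hC
  set f := (prod ZFSet.omega T).sep (fun a => ∃ p ∈ H, pair a p ∈ (prod (prod ZFSet.omega T) P).sep (fun z =>
      (pair (sn (fs z)) (ap g (fs (fs z))) ∈ i ∧ pair (sn (fs z)) (sn z) ∈ B₁) ∨
      (sn (fs z) = s₀ ∧ ∀ q ∈ P, pair q (sn z) ∈ le → pair (ap g (fs (fs z))) q ∉ B₂))) with hfdef
  have hmem : ∀ n s, pair n s ∈ f ↔ n ∈ ZFSet.omega ∧ s ∈ T ∧ ∃ p ∈ H,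
      (pair s (ap g n) ∈ i ∧ pair s p ∈ B₁) ∨
      (s = s₀ ∧ ∀ q ∈ P, pair q p ∈ le → pair (ap g n) q ∉ B₂) := by
    intro n s
    rw [hfdef, mem_sep, pair_mem_prod]
    constructor
    · rintro ⟨⟨h1, h2⟩, p, hp, h3⟩
      rw [mem_sep, fs_pair, sn_pair, fs_pair, sn_pair] at h3
      exact ⟨h1, h2, p, hp, h3.2⟩
    · rintro ⟨h1, h2, p, hp, h3⟩
      refine ⟨⟨h1, h2⟩, p, hp, ?_⟩
      rw [mem_sep, fs_pair, sn_pair, fs_pair, sn_pair]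
      exact ⟨pair_mem_prod.2 ⟨pair_mem_prod.2 ⟨h1, h2⟩, hG.sub hp⟩, h3⟩
  have hlP : ∀ p q, pair q p ∈ le → q ∈ P := fun p q h => (pair_mem_prod.1 (hf.field h)).1
  -- the two cases
  have hA : ∀ n ∈ ZFSet.omega, ∀ s ∈ y, pair s (ap g n) ∈ i → ∀ s', (pair n s' ∈ f ↔ s' = s) := by
    intro n hn s hs hsi s'
    obtain ⟨p', hp', h1⟩ := (hy s (hyT hs)).1 hs
    rw [hmem]
    constructor
    · rintro ⟨-, -, p, hp, h2 | h2⟩
      · exact hinj _ _ _ h2.1 hsi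
      · exfalso
        obtain ⟨r, hr, h3, h4⟩ := hG.dir p hp p' hp'
        exact h2.2 r (hlP _ _ h3) h3 ((hB₂' _ _).2 ⟨hlP _ _ h3, s, hsi, hB₁d _ _ _ h1 h4⟩)
    · rintro rfl
      exact ⟨hn, hyT hs, p', hp', Or.inl ⟨hsi, h1⟩⟩
  have hBc : ∀ n ∈ ZFSet.omega, (∀ s ∈ y, pair s (ap g n) ∉ i) → ∀ s', (pair n s' ∈ f ↔ s' = s₀) := by
    intro n hn hno s'
    rw [hmem]
    constructor
    · rintro ⟨-, h0, p, hp, h2 | h2⟩
      · exact absurd h2.1 (hno s' ((hy s' h0).2 ⟨p, hp, h2.2⟩))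
      · exact h2.1
    · rintro rfl
      refine ⟨hn, hyT hs₀, ?_⟩
      have hapN : ap g n ∈ N := by
        have h1 := (pair_ap hgs.1 hn).1
        exact ((pair_mem_iff hN).1 (mem_N hN hg h1)).2
      have hD : P.sep (fun p => pair (ap g n) p ∈ B₂ ∨ ∀ q ∈ P, pair q p ∈ le → pair (ap g n) q ∉ B₂) ∈ N := by
        refine Pool.Agent.FBZ.sep_mem hN
          (Q := fun p => pair (ap g n) p ∈ B₂ ∨ ∀ q ∈ P, pair q p ∈ le → pair (ap g n) q ∉ B₂) ?_ hP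
        refine (Dfn.mem hN (DT.pairT hN (DT.cst hN hapN) (DT.var hN 0)) (DT.cst hN hB₂)).or ?_
        exact Dfn.ball hN (DT.cst hN hP) (Q := fun v q => pair q (v 0) ∈ le → pair (ap g n) q ∉ B₂)
          ((Dfn.mem hN (DT.pairT hN (DT.var hN 0) (DT.var hN 1)) (DT.cst hN hle)).imp
            (Dfn.mem hN (DT.pairT hN (DT.cst hN hapN) (DT.var hN 0)) (DT.cst hN hB₂)).not)
      obtain ⟨p, hp, h1⟩ := hG.meets _ hD ⟨fun z hz => (ZFSet.mem_sep.1 hz).1, fun p hp => by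
        by_cases h : ∃ q ∈ P, pair q p ∈ le ∧ pair (ap g n) q ∈ B₂
        · obtain ⟨q, hq, h1, h2⟩ := h
          exact ⟨q, ZFSet.mem_sep.2 ⟨hq, Or.inl h2⟩, h1⟩
        · refine ⟨p, ZFSet.mem_sep.2 ⟨hp, Or.inr fun q hq h1 h2 => h ⟨q, hq, h1, h2⟩⟩, hf.refl p hp⟩⟩
      rw [mem_sep] at h1
      rcases h1.2 with h2 | h2
      · obtain ⟨-, s, h3, h4⟩ := (hB₂' _ _).1 h2
        exact absurd h3 (hno s ((hy s (pair_mem_prod.1 (hfun.1 h3)).1).2 ⟨p, hp, h4⟩))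
      · exact ⟨p, hp, Or.inr ⟨rfl, h2⟩⟩
  have hex : ∀ n ∈ ZFSet.omega, ∃ s ∈ y, ∀ s', (pair n s' ∈ f ↔ s' = s) := by
    intro n hn
    by_cases h : ∃ s ∈ y, pair s (ap g n) ∈ i
    · obtain ⟨s, hs, h1⟩ := h
      exact ⟨s, hs, hA n hn s hs h1⟩
    · push Not at h
      exact ⟨s₀, hs₀, hBc n hn h⟩
  refine Or.inr ⟨f, hfE, ⟨?_, ?_⟩, ?_⟩
  · intro z hz
    obtain ⟨n, hn, s, hs, rfl⟩ := mem_prod.1 (mem_sep.1 (hfdef ▸ hz)).1
    obtain ⟨s', hs', h1⟩ := hex n hn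
    rw [(h1 s).1 hz]
    exact pair_mem_prod.2 ⟨hn, hs'⟩
  · intro n hn
    obtain ⟨s', hs', h1⟩ := hex n hn
    exact ⟨s', (h1 s').2 rfl, fun w hw => (h1 w).1 hw⟩
  · intro s hs
    obtain ⟨α, h1, -⟩ := hfun.2 s (hyT hs)
    obtain ⟨n, hn, h2⟩ := hgs.2 α (hbd s hs α h1)
    refine ⟨n, hn, (hA n hn s hs ?_ s).2 rfl⟩
    rw [ap_eq hgs.1 h2]
    exact h1

section
variable {B : Type 1} [CompleteBooleanAlgebra B]

private def GQF_P2 (S : Om → B) (τ : Om → Om → B) (x : Om → Set (QQ S)) (q : QQ S) (c : Om × Om) : Prop :=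
  c.1 ≠ c.2 ∧ (∃ t ∈ x c.1, q ≤ t) ∧ (∃ t ∈ x c.2, q ≤ t) ∧ q.1.1 ⊓ (τ c.1 c.2 ⊔ τ c.2 c.1) = ⊥

private def GQF_P3 (S : Om → B) (x : Om → Set (QQ S)) (q : QQ S) (a : Om) : Prop :=
  ∀ r ≤ q, ∀ b > a, ∀ t ∈ x b, ¬ r ≤ t

private def GQF_D (S : Om → B) (τ : Om → Om → B) (x : Om → Set (QQ S)) : Set (QQ S) :=
  {q | ForcesChain S τ x q ∨ (∃ c, GQF_P2 S τ x q c) ∨ ∃ a, GQF_P3 S x q a}

private theorem GQF_dense (S : Om → B) (τ : Om → Om → B) (x : Om → Set (QQ S)) (q : QQ S) :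
    ∃ r ≤ q, r ∈ GQF_D S τ x := by
  by_contra hcon
  push Not at hcon
  refine hcon q (QQ.le_refl q) (Or.inl ⟨?_, ?_⟩)
  · intro a q' hq'
    by_contra h1
    push Not at h1
    exact hcon q' hq' (Or.inr (Or.inr ⟨a, fun r hr b hb t ht hrt => h1 r hr b hb t ht hrt⟩))
  · intro a b hab q' hq' h1 h2 h3
    exact hcon q' hq' (Or.inr (Or.inl ⟨(a, b), hab, h1, h2, h3⟩))

end

theorem ev_noChain (B : Type 1) [CompleteBooleanAlgebra B] (hd : Distr (Set.univ : Set B)) :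
    Ev (fun M => ∀ U : Set B, GenF Set.univ M U → ∀ S : Om → B, InM S M → DistQ S →
    ∀ P ∈ Nm M U, ∀ le ∈ Nm M U, IsPN M U S P le → ∀ H, Generic (Nm M U) P le H →
    ∀ T ∈ Nm M U, ∀ lt ∈ Nm M U, ∀ i ∈ Nm M U, lt ⊆ prod T T → IsFunc T (o0 (del M)) i →
    (∀ s t a, pair s a ∈ i → pair t a ∈ i → s = t) →
    ∀ τ : Om → Om → B, InM τ M →
      (∀ a b, a < del M → b < del M → (τ a b ∈ U ↔ ∃ s t, pair s (o0 a) ∈ i ∧ pair t (o0 b) ∈ i ∧ pair s t ∈ lt)) →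
    ∀ p ∈ UH M U S H, (∀ x : Om → Set (QQ S), ∀ q ≤ p, ¬ ForcesChain S τ x q) →
    ∀ y ∈ Ext (Nm M U) H, ¬ UncChain (Ext (Nm M U) H) T lt y) := by
  refine (((((((ev_UH B).and (isPN_forcing B)).and (ev_omega1 B hd)).and ((ev_zf B).and ev_del)).and
    ((ev_names B (I := Om) oz).and ev_col_oz)).and
    (Ev.diag (T := Om → B) (p := fun S M =>
      ((∀ (x : Om → Set (QQ S)) (τ : Om → Om → B), InM x M → InM τ M → InM (GQF_D S τ x) M) ∧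
      (∀ (x : Om → Set (QQ S)) (τ : Om → Om → B) (q : QQ S), InM x M → InM τ M → InM q M →
        (∃ c, GQF_P2 S τ x q c) → ∃ c, InM c M ∧ GQF_P2 S τ x q c)) ∧
      ∀ (x : Om → Set (QQ S)) (q : QQ S), InM x M → InM q M →
        (∃ a, GQF_P3 S x q a) → ∃ a, InM a M ∧ GQF_P3 S x q a)
      (fun S => ((Ev.fn2 (fun (x : Om → Set (QQ S)) (τ : Om → Om → B) => GQF_D S τ x)).and
        (Ev.wit3 (fun (x : Om → Set (QQ S)) (τ : Om → Om → B) (q : QQ S) (c : Om × Om) => GQF_P2 S τ x q c))).and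
        (Ev.wit2 (fun (x : Om → Set (QQ S)) (q : QQ S) (a : Om) => GQF_P3 S x q a))))).and
    (((Ev.fn1 (fun c : Om × Om => c.1)).and (Ev.fn1 (fun c : Om × Om => c.2))).and
      (ev_del_lim.and (ev_ctble_lt B)))).mono ?_
  rintro M ⟨⟨⟨⟨⟨⟨hUH, hfo⟩, ho⟩, hzf, hdel⟩, hnames, hcoz⟩, hS⟩, ⟨hfst, hsnd⟩, hdl, hctb⟩ U hU S hSM hDist P hP le hle
    hPN H hH T hT lt hlt i hi hltT hfun hinj τ hτ hτU p hp hnf y hy hyc
  obtain ⟨⟨hD, hw2⟩, hw3⟩ := hS S hSM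
  obtain ⟨-, u2, u3, -⟩ := hUH U hU S hSM P hP le hle hPN H hH
  have hN := hzf U hU
  have hκN : o0 (del M) ∈ Nm M U := (ho U hU).2.1.1
  have hf := hfo U hU S hSM P le hPN
  -- names
  obtain ⟨B₁, hB₁, -, hB₁d, hyB⟩ := flat_one hN hf hP hle hH hy hT
  obtain ⟨B₂, hB₂, hB₂'⟩ := GQF_B2 hN hP hT hi hκN hfun hB₁
  obtain ⟨x, hxM, hx⟩ := hnames U hU S hSM P hP le hle hPN H hH B₂ hB₂ (by
    intro a p q h1 h2
    obtain ⟨h3, s, h4, h5⟩ := (hB₂' _ _).1 h1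
    exact (hB₂' _ _).2 ⟨(pair_mem_prod.1 (hf.field h2)).1, s, h4, hB₁d _ _ _ h5 h2⟩)
  have hxy : ∀ a, a < del M → ((∃ q ∈ UH M U S H, ∃ t ∈ x a, q ≤ t) ↔ ∃ s ∈ y, pair s (o0 a) ∈ i) := by
    intro a ha
    have haM := (hdel a).2 ha
    rw [← hx a haM, (hcoz a haM).2]
    constructor
    · rintro ⟨p, hp, h1⟩
      obtain ⟨-, s, h2, h3⟩ := (hB₂' _ _).1 h1
      exact ⟨s, (hyB s (pair_mem_prod.1 (hfun.1 h2)).1).2 ⟨p, hp, h3⟩, h2⟩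
    · rintro ⟨s, hs, h2⟩
      obtain ⟨p, hp, h3⟩ := (hyB s (hyc.sub hs)).1 hs
      exact ⟨p, hp, (hB₂' _ _).2 ⟨hH.sub hp, s, h2, h3⟩⟩
  -- the image is unbounded
  have hunb : ∀ a, a < del M → ∃ b, a < b ∧ b < del M ∧ ∃ s ∈ y, pair s (o0 b) ∈ i := by
    intro a ha
    by_contra hcon
    push Not at hcon
    have has : a.s < del M := Om.lim_s hdl ha
    rcases hctb U hU a.s has with h1 | ⟨g, hg, hgs⟩
    · have h2 : o0 a ∈ o0 a.s := o0_mem_o0.2 (Om.lt_s a)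
      rw [h1] at h2
      exact absurd h2 (ZFSet.notMem_empty _)
    · refine hyc.unc (GQF_ctble hN hf hP hle hH hT hi hfun hinj hyc.sub hB₁ hB₁d hyB hB₂ hB₂' hg hgs ?_)
      intro s hs α hα
      obtain ⟨b, hb, rfl⟩ := mem_o0.1 (pair_mem_prod.1 (hfun.1 hα)).2
      by_contra h3
      refine hcon b ?_ hb s hs hα
      by_contra h4
      exact h3 (o0_mem_o0.2 (Om.lt_s_iff.2 (not_lt.1 h4)))
  obtain ⟨q, hq, hqD⟩ := u3 (GQF_D S τ x) (hD x τ hxM hτ) (GQF_dense S τ x)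
  rcases hqD with h1 | h1 | h1
  · obtain ⟨r, -, hrq, hrp⟩ := u2 q hq p hp
    refine hnf x r hrp ⟨?_, ?_⟩
    · intro a q' hq'
      exact h1.unb a q' (QQ.le_trans hq' hrq)
    · intro a b hab q' hq'
      exact h1.chain a b hab q' (QQ.le_trans hq' hrq)
  · obtain ⟨⟨a, b⟩, hcM, hab, h2, h3, h4⟩ := hw2 x τ q hxM hτ hq.1 h1
    have ha : a < del M := (hdel a).1 (hfst (a, b) hcM)
    have hb : b < del M := (hdel b).1 (hsnd (a, b) hcM)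
    obtain ⟨s, hs, hsa⟩ := (hxy a ha).1 ⟨q, hq, h2⟩
    obtain ⟨t, ht, htb⟩ := (hxy b hb).1 ⟨q, hq, h3⟩
    have hno : ∀ z ∈ U, z ≤ τ a b ⊔ τ b a → False := by
      intro z hz hle'
      have h5 : q.1.1 ⊓ z = ⊥ := le_bot_iff.1 ((inf_le_inf_left _ hle').trans h4.le)
      exact hU.bot (h5 ▸ hU.inf _ hq.2.1 _ hz)
    rcases hyc.chain s hs t ht with h5 | h5 | h5
    · subst h5
      apply hab
      exact o0_inj.1 ((hfun.2 s (hyc.sub hs)).unique hsa htb)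
    · exact hno _ ((hτU a b ha hb).2 ⟨s, t, hsa, htb, h5⟩) le_sup_left
    · exact hno _ ((hτU b a hb ha).2 ⟨t, s, htb, hsa, h5⟩) le_sup_right
  · obtain ⟨a, haM, h2⟩ := hw3 x q hxM hq.1 h1
    obtain ⟨b, hab, hb, h3⟩ := hunb a ((hdel a).1 haM)
    obtain ⟨q', hq', t, ht, hqt⟩ := (hxy b hb).2 h3
    obtain ⟨r, -, hrq, hrq'⟩ := u2 q hq q' hq'
    exact h2 r hrq b hab t ht (QQ.le_trans hrq' hqt)

end Pool.Agent.CAN
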