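import Pool.Agent.CAN.GCL
import Pool.Agent.CAN.GZC

/-!
# CAN/GTC: a name for the tree, transferred to `ω₁`, without unbounded chains

`N = Nm M U`, `κ = o0 (del M)`.  The relation `T' = {pair α β | α, β ∈ κ, ∃ s t, pair s α ∈ i ∧ pair t β ∈ i ∧ pair s t ∈ lt}` is in `N` (separation from `prod κ κ`); `of2` gives `τ`.
Suppose `chainV τ x ∈ U` for a name `x` in `M`; let `X ∈ N` be its value (`mk1`), `b = {s ∈ T | ∃ α ∈ X, pair s α ∈ i} ∈ N`.  By `ev_chainV` `X` is unbounded in `κ` and any two different elements of `X` are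
comparable in `τ`; so every element of `X` is of the form `i(s)` (there is another element of `X`), and `b` is a chain: for `s ≠ t` in `b` with `i(s) = o0 a ≠ i(t) = o0 c` (injectivity) one of
`τ a c`, `τ c a` is in `U`, which gives `s < t` or `t < s` (injectivity of `i`).  `b` is not countable in `N`: it is not empty, and if `f ∈ N` maps `ω` onto `b` then
`{pair n α | ∃ s, pair n s ∈ f ∧ pair s α ∈ i} ∈ N` maps `ω` onto `X`, and `ev_bdd_fun` contradicts unboundedness.  So `UncChain N T lt b`, contradiction.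
-/

set_option autoImplicit false

namespace Pool.Agent.CAN
open ZFSet Pool.Agent.FBZ

theorem ev_tau (B : Type 1) [CompleteBooleanAlgebra B] (hd : Distr (Set.univ : Set B)) :
    Ev (fun M => ∀ U : Set B, GenF Set.univ M U → ∀ T ∈ Nm M U, ∀ lt ∈ Nm M U, ∀ i ∈ Nm M U,
      lt ⊆ prod T T → IsFunc T (o0 (del M)) i → (∀ s t a, pair s a ∈ i → pair t a ∈ i → s = t) →
      (∀ b ∈ Nm M U, ¬ UncChain (Nm M U) T lt b) →
      ∃ τ : Om → Om → B, InM τ M ∧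
        (∀ a b, a < del M → b < del M → (τ a b ∈ U ↔ ∃ s t, pair s (o0 a) ∈ i ∧ pair t (o0 b) ∈ i ∧ pair s t ∈ lt)) ∧
        ∀ x : Om → B, InM x M → chainV τ x ∉ U) := by
  refine Ev.mono ((((ev_zf B).and (ev_omega1 B hd)).and ((of2 B).and (mk1 B))).and (((ev_chainV B).and ev_del).and
    (ev_del_lim.and (ev_bdd_fun B hd)))) ?_
  rintro M ⟨⟨⟨hzf, hom⟩, hof2, hmk1⟩, ⟨hchain, hdel⟩, hlim, hbdd⟩ U hU T hT lt hlt i hi hltT hiF hinj hno
  have hN : ZF (Nm M U) := hzf U hU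
  have hκ : o0 (del M) ∈ Nm M U := (hom U hU).2.1.1
  have hT' : ((prod (o0 (del M)) (o0 (del M))).sep (fun p => ∃ s ∈ Nm M U, ∃ t ∈ Nm M U,
      pair s (fs p) ∈ i ∧ pair t (sn p) ∈ i ∧ pair s t ∈ lt)) ∈ Nm M U := by
    refine FBZ.sep_mem hN ?_ (prod_mem hN hκ hκ)
    refine Dfn.ex (Q := fun v s => ∃ t ∈ Nm M U,
      pair s (fs (v 0)) ∈ i ∧ pair t (sn (v 0)) ∈ i ∧ pair s t ∈ lt) ?_
    refine Dfn.ex (Q := fun v t => pair (v 0) (fs (tl v 0)) ∈ i ∧ pair t (sn (tl v 0)) ∈ i ∧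
      pair (v 0) t ∈ lt) ?_
    refine Dfn.and ?_ (Dfn.and ?_ ?_)
    · exact Dfn.mem hN (DT.pairT hN (DT.var hN 1) (DT.fsT hN (DT.var hN 2))) (DT.cst hN hi)
    · exact Dfn.mem hN (DT.pairT hN (DT.var hN 0) (DT.snT hN (DT.var hN 2))) (DT.cst hN hi)
    · exact Dfn.mem hN (DT.pairT hN (DT.var hN 1) (DT.var hN 0)) (DT.cst hN hlt)
  obtain ⟨τ, hτM, hτ⟩ := hof2 U hU _ hT'
  have hNi : ∀ s α, pair s α ∈ i → s ∈ T ∧ α ∈ o0 (del M) := by
    intro s α h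
    exact pair_mem_prod.1 (hiF.1 h)
  have hτ2 : ∀ a b, a < del M → b < del M →
      (τ a b ∈ U ↔ ∃ s t, pair s (o0 a) ∈ i ∧ pair t (o0 b) ∈ i ∧ pair s t ∈ lt) := by
    intro a b ha hb
    rw [hτ a b ((hdel a).2 ha) ((hdel b).2 hb), ZFSet.mem_sep, pair_mem_prod, fs_pair, sn_pair, o0_mem_o0, o0_mem_o0]
    constructor
    · rintro ⟨_, s, _, t, _, h⟩
      exact ⟨s, t, h⟩
    · rintro ⟨s, t, h1, h2, h3⟩
      exact ⟨⟨ha, hb⟩, s, hN.trans T hT s (hNi s _ h1).1, t, hN.trans T hT t (hNi t _ h2).1, h1, h2, h3⟩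
  refine ⟨τ, hτM, hτ2, fun x hx hcx => ?_⟩
  obtain ⟨X, hX, hXV⟩ := hmk1 U hU x hx
  obtain ⟨hunb, hcomp⟩ := (hchain U hU τ x hτM hx).1 hcx
  have hXκ : X ⊆ o0 (del M) := by
    intro z hz
    obtain ⟨a, haM, _, rfl⟩ := (hXV z).1 hz
    exact o0_mem_o0.2 ((hdel a).1 haM)
  have hXe : ∀ a, a < del M → x a ∈ U → o0 a ∈ X := fun a ha hxa => (hXV _).2 ⟨a, (hdel a).2 ha, hxa, rfl⟩
  -- every element of X is a value of i
  have hpre : ∀ a, a < del M → x a ∈ U → ∃ s, pair s (o0 a) ∈ i := by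
    intro a ha hxa
    obtain ⟨c, hac, hc, hxc⟩ := hunb a ha
    rcases hcomp a c ha hc hac.ne hxa hxc with h | h
    · obtain ⟨s, t, h1, _, _⟩ := (hτ2 a c ha hc).1 h
      exact ⟨s, h1⟩
    · obtain ⟨s, t, _, h1, _⟩ := (hτ2 c a hc ha).1 h
      exact ⟨t, h1⟩
  have hb : (T.sep (fun s => ∃ α ∈ X, pair s α ∈ i)) ∈ Nm M U := by
    refine FBZ.sep_mem hN ?_ hT
    exact Dfn.bex hN (Q := fun v α => pair (v 0) α ∈ i) (DT.cst hN hX)
      (Dfn.mem hN (DT.pairT hN (DT.var hN 1) (DT.var hN 0)) (DT.cst hN hi))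
  have hbm : ∀ s, s ∈ (T.sep (fun s => ∃ α ∈ X, pair s α ∈ i)) ↔ ∃ a, a < del M ∧ x a ∈ U ∧ pair s (o0 a) ∈ i := by
    intro s
    rw [ZFSet.mem_sep]
    constructor
    · rintro ⟨_, α, hα, h⟩
      obtain ⟨a, haM, hxa, rfl⟩ := (hXV α).1 hα
      exact ⟨a, (hdel a).1 haM, hxa, h⟩
    · rintro ⟨a, ha, hxa, h⟩
      exact ⟨(hNi s _ h).1, o0 a, hXe a ha hxa, h⟩
  refine hno _ hb ⟨?_, ?_, ?_⟩
  · intro s hs
    exact (ZFSet.mem_sep.1 hs).1
  · intro s hs t ht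
    obtain ⟨a, ha, hxa, hsa⟩ := (hbm s).1 hs
    obtain ⟨c, hc, hxc, htc⟩ := (hbm t).1 ht
    by_cases hac : a = c
    · subst hac
      exact Or.inl (hinj s t _ hsa htc)
    · right
      rcases hcomp a c ha hc hac hxa hxc with h | h
      · obtain ⟨s', t', h1, h2, h3⟩ := (hτ2 a c ha hc).1 h
        rw [hinj s' s _ h1 hsa, hinj t' t _ h2 htc] at h3
        exact Or.inl h3
      · obtain ⟨t', s', h1, h2, h3⟩ := (hτ2 c a hc ha).1 h
        rw [hinj s' s _ h2 hsa, hinj t' t _ h1 htc] at h3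
        exact Or.inr h3
  · rintro (hempty | ⟨f, hf, hfS⟩)
    · obtain ⟨j, hj⟩ := hlim.1
      obtain ⟨a, _, ha, hxa⟩ := hunb j hj
      obtain ⟨s, hs⟩ := hpre a ha hxa
      have h1 := (hbm s).2 ⟨a, ha, hxa, hs⟩
      rw [hempty] at h1
      exact ZFSet.notMem_empty _ h1
    · have hg : ((prod ZFSet.omega (o0 (del M))).sep (fun p => ∃ s ∈ Nm M U,
          pair (fs p) s ∈ f ∧ pair s (sn p) ∈ i)) ∈ Nm M U := by
        refine FBZ.sep_mem hN ?_ (prod_mem hN hN.omega hκ)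
        refine Dfn.ex (Q := fun v s => pair (fs (v 0)) s ∈ f ∧ pair s (sn (v 0)) ∈ i) ?_
        refine Dfn.and ?_ ?_
        · exact Dfn.mem hN (DT.pairT hN (DT.fsT hN (DT.var hN 1)) (DT.var hN 0)) (DT.cst hN hf)
        · exact Dfn.mem hN (DT.pairT hN (DT.var hN 0) (DT.snT hN (DT.var hN 1))) (DT.cst hN hi)
      have hgm : ∀ n α, pair n α ∈ ((prod ZFSet.omega (o0 (del M))).sep (fun p => ∃ s ∈ Nm M U,
          pair (fs p) s ∈ f ∧ pair s (sn p) ∈ i)) ↔ ∃ s, pair n s ∈ f ∧ pair s α ∈ i := by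
        intro n α
        rw [ZFSet.mem_sep, pair_mem_prod, fs_pair, sn_pair]
        constructor
        · rintro ⟨_, s, _, h⟩
          exact ⟨s, h⟩
        · rintro ⟨s, h1, h2⟩
          exact ⟨⟨(pair_mem_prod.1 (hfS.1.1 h1)).1, (hNi s _ h2).2⟩, s, hN.trans T hT s (hNi s _ h2).1, h1, h2⟩
      have hfun : ∀ s α α', pair s α ∈ i → pair s α' ∈ i → α = α' := by
        intro s α α' h1 h2
        exact (hiF.2 s (hNi s _ h1).1).unique h1 h2
      have hgS : Surj ((prod ZFSet.omega (o0 (del M))).sep (fun p => ∃ s ∈ Nm M U,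
          pair (fs p) s ∈ f ∧ pair s (sn p) ∈ i)) ZFSet.omega X := by
        have hfX : ∀ n s, pair n s ∈ f → ∃ α ∈ X, pair s α ∈ i := by
          intro n s h
          exact (ZFSet.mem_sep.1 (pair_mem_prod.1 (hfS.1.1 h)).2).2
        refine ⟨⟨?_, ?_⟩, ?_⟩
        · intro p hp
          have hp1 := (ZFSet.mem_sep.1 hp).1
          obtain ⟨n, hn, α, _, rfl⟩ := ZFSet.mem_prod.1 hp1
          obtain ⟨s, h1, h2⟩ := (hgm n α).1 hp
          obtain ⟨α', hα', h3⟩ := hfX n s h1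
          rw [hfun s α α' h2 h3]
          exact pair_mem_prod.2 ⟨hn, hα'⟩
        · intro n hn
          obtain ⟨s, hs, hsu⟩ := hfS.1.2 n hn
          obtain ⟨α, hα, h3⟩ := hfX n s hs
          refine ⟨α, (hgm n α).2 ⟨s, hs, h3⟩, fun α' h => ?_⟩
          obtain ⟨s', h1, h2⟩ := (hgm n α').1 h
          rw [hsu s' h1] at h2
          exact hfun s _ _ h2 h3
        · intro α hα
          obtain ⟨a, haM, hxa, rfl⟩ := (hXV α).1 hα
          have ha := (hdel a).1 haM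
          obtain ⟨s, hs⟩ := hpre a ha hxa
          obtain ⟨n, hn, hns⟩ := hfS.2 s ((hbm s).2 ⟨a, ha, hxa, hs⟩)
          exact ⟨n, hn, (hgm n _).2 ⟨s, hns, hs⟩⟩
      obtain ⟨a, ha, hXa⟩ := hbdd U hU _ hg X hXκ hgS
      obtain ⟨c, hac, hc, hxc⟩ := hunb a ha
      have h1 := o0_mem_o0.1 (hXa (hXe c hc hxc))
      exact absurd hac (not_lt.2 h1.le)

end Pool.Agent.CAN
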