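import Pool.Agent.CAN.GQE
import Pool.Agent.CAN.GQF
import Pool.Agent.CAN.GIN
import Pool.Agent.CAN.GTC
import Pool.Agent.CAN.GCH
import Pool.Agent.FBZ.FI

/-!
# CAN/GNC: no stationarity-detecting trees in the model

Let `T, lt ∈ N = Nm M U` with `Detecting N T lt`.  `κ = o0 (del M)` is `ω₁` of `N` (`ev_omega1`).  `exists_inj` (with `ev_ch`, `ev_zf`) gives `i ∈ N`, `ev_tau` gives `τ`.
Let `b₀ = (⨆ x : Om → B, chainV τ x)ᶜ`: `b₀ ∈ U`, because otherwise `⨆ x, chainV τ x ∈ U` and some `x` in `M` has `chainV τ x ∈ U` (`ev_sup1` with `T = (Om → B)`, `A = univ`; or `ev_sup` and `Ev.diag`).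
`b₀ ⊓ chainV τ x = ⊥` for all `x`.  Let `D` be the set of all `e = p.1.1` such that for some `S : Om → B` and `p : QQ S`: `(∀ C, clubV C ≤ ⨆ a, C a ⊓ S a)`, `DistQ S`, `UnbQ S`, `∀ x, ∀ q ≤ p, ¬ ForcesChain S τ x q`.
By `Facts.canary` (applied to all nonzero `b ≤ b₀`) every nonzero `b ≤ b₀` has a nonzero element of `D` below it, so `sSup (insert b₀ᶜ D) = ⊤`; this set is in `M` (a function of `τ`), so some `e ∈ D` is in `U`
(`b₀ᶜ ∉ U`).  Witnesses `S` and `p` for `(τ, e)` can be taken in `M` (`Ev.wit2` for the type `Σ S : Om → B, QQ S`, which is in `Type 1`, or first `S` with `Ev.wit2` and then `p` with `Ev.wit3` for fixed `S`).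
`mk1`: `S₀ ∈ N` the value of `S`; `Stationary N S₀` (`ev_stationary`).  `rep_CB`: `P, le`.  `Forcing P le` (`isPN_forcing`), `NoNewReals` (`ev_nnr`), `Kills` (`ev_kills`).  So
`Detecting.detects` gives `AddsBranch N P le T lt`.  `c = p.1.2`: `s0 c.s ∈ P` since `goodV S c ≥ p.1.1 ∈ U`; `N` is countable (`nm_countable`), so `exists_generic` (FBZ/FI) gives a generic `H` with
`s0 c.s ∈ H`; `p ∈ UH M U S H`.  `ev_noChain` contradicts `AddsBranch`.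
-/

set_option autoImplicit false

namespace Pool.Agent.CAN
open ZFSet Pool.Agent.FBZ

variable {B : Type 1} [CompleteBooleanAlgebra B]

private def GNC_P (S : Om → B) (τ : Om → Om → B) (e : B) (p : QQ S) : Prop :=
  p.1.1 = e ∧ ∀ x : Om → Set (QQ S), ∀ q ≤ p, ¬ ForcesChain S τ x q

private def GNC_S (τ : Om → Om → B) (e : B) (S : Om → B) : Prop :=
  (∀ C : Om → B, clubV C ≤ ⨆ a, C a ⊓ S a) ∧ DistQ S ∧ UnbQ S ∧ ∃ p : QQ S, GNC_P S τ e p

private def GNC_D (τ : Om → Om → B) : Set B :=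
  insert (⨆ x : Om → B, chainV τ x) {e | ∃ S, GNC_S τ e S}

private theorem GNC_top (h : Facts B) (τ : Om → Om → B) : sSup (GNC_D τ) = ⊤ := by
  by_contra hne
  have hc : (sSup (GNC_D τ))ᶜ ≠ ⊥ := fun h0 => hne (compl_eq_bot.1 h0)
  have h1 : ∀ x : Om → B, (sSup (GNC_D τ))ᶜ ⊓ chainV τ x = ⊥ := by
    intro x
    rw [eq_bot_iff]
    have h2 : chainV τ x ≤ sSup (GNC_D τ) :=
      (le_iSup (fun x : Om → B => chainV τ x) x).trans (le_sSup (Set.mem_insert _ _))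
    refine (inf_le_inf_left _ h2).trans ?_
    rw [compl_inf_eq_bot]
  obtain ⟨S, hS1, hS2, hS3, p, hp, hpx⟩ := h.canary τ _ hc h1
  have h3 : p.1.1 ∈ GNC_D τ := Set.mem_insert_of_mem _ ⟨S, hS1, hS2, hS3, p, rfl, hpx⟩
  have h4 : p.1.1 ≤ ⊥ :=
    (le_inf hp (le_sSup h3)).trans (compl_inf_eq_bot (a := sSup (GNC_D τ))).le
  exact p.2.1 (le_bot_iff.1 h4)

theorem ev_nocanary (B : Type 1) [CompleteBooleanAlgebra B] (h : Facts B) :
    Ev (fun M => ∀ U : Set B, GenF Set.univ M U → ∀ T ∈ Nm M U, ∀ lt ∈ Nm M U, ¬ Detecting (Nm M U) T lt) := by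
  have hd := h.dist
  have w0 : Ev (fun M => ∀ τ : Om → Om → B, InM τ M → ∀ U : Set B, GenF Set.univ M U →
      (⨆ x : Om → B, chainV τ x) ∈ U → ∃ x : Om → B, cd x ∈ M ∧ chainV τ x ∈ U) :=
    Ev.diag fun τ => ev_sup (fun x : Om → B => cd x) (fun x : Om → B => chainV τ x)
  have w1 := Ev.wit2 (S := Om → Om → B) (T := B) (Z := Om → B) (GNC_S (B := B))
  have w2 : Ev (fun M => ∀ S : Om → B, InM S M → ∀ (τ : Om → Om → B) (e : B), InM τ M → InM e M →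
      (∃ p, GNC_P S τ e p) → ∃ p : QQ S, InM p M ∧ GNC_P S τ e p) :=
    Ev.diag fun S => Ev.wit2 (GNC_P S)
  have w3 : Ev (fun M => ∀ S : Om → B, InM S M → ∀ p : QQ S, InM p M → InM p.1.2 M) :=
    Ev.diag fun S => Ev.fn1 (fun p : QQ S => p.1.2)
  have w4 := Ev.fn1 (S := Om → Om → B) (Z := Set B) (GNC_D (B := B))
  have w5 := Ev.fn2 (S := Om → B) (T := CB) (Z := B) (fun S c => goodV S c)
  refine (((((ev_ctbl0.and (ev_zf B)).and ((ev_ch B h).and (ev_omega1 B hd))).and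
    ((ev_tau B hd).and (mk1 B))).and (((ev_stationary B hd).and (rep_CB B)).and
    ((isPN_forcing B).and (ev_nnr B)))).and ((((ev_kills B hd).and (ev_noChain B hd)).and
    (w0.and w1)).and ((w2.and w3).and (w4.and w5)))).mono ?_
  rintro M ⟨⟨⟨⟨⟨⟨h0, h0'⟩, hzf⟩, hch, hom⟩, htau, hmk⟩, ⟨hst, hrep⟩, hfor, hnnr⟩,
    ⟨⟨hkill, hno⟩, w0, w1⟩, ⟨w2, w3⟩, w4, w5⟩ U hU T hT lt hlt hdet
  have hzfN := hzf U hU
  have homN := hom U hU
  obtain ⟨i, hi, hi1, hi2⟩ := exists_inj hzfN (hch U hU) homN hT hdet.card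
  obtain ⟨τ, hτ, hτ1, hτ2⟩ := htau U hU T hT lt hlt i hi hdet.tree.field hi1 hi2 hdet.nobranch
  obtain ⟨e, heD, heU⟩ := hU.meet (GNC_D τ) (w4 τ hτ) (Set.subset_univ _) (GNC_top h τ)
  rcases Set.mem_insert_iff.1 heD with he | he
  · rw [he] at heU
    obtain ⟨x, hx, hxU⟩ := w0 τ hτ U hU heU
    exact hτ2 x hx hxU
  obtain ⟨S, hS, hS1, hS2, hS3, hS4⟩ := w1 τ e hτ (hU.sub e heU).2 he
  obtain ⟨p, hp, hpe, hpx⟩ := w2 S hS τ e hτ (hU.sub e heU).2 hS4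
  obtain ⟨S₀, hS₀, hV⟩ := hmk U hU S hS
  obtain ⟨P, hP, le, hle, hPN⟩ := hrep U hU S hS
  have hF := hfor U hU S hS P le hPN
  have hbr := hdet.detects S₀ hS₀ (hst U hU S S₀ hS hV hS1) P hP le hle hF
    (hnnr U hU S hS hS2 P hP le hle hPN) (hkill U hU S hS hS2 hS3 P hP le hle hPN S₀ hV)
  have hc := w3 S hS p hp
  have hgood : goodV S p.1.2 ∈ U :=
    hU.up e heU _ (Set.mem_univ _) (w5 S p.1.2 hS hc) (hpe ▸ p.2.2)
  have hsP : s0 p.1.2.s ∈ P := (hPN.P _).2 ⟨p.1.2, hc, hgood, rfl⟩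
  obtain ⟨H, hH, hpH⟩ := exists_generic hF hP (nm_countable h0 U) hsP
  obtain ⟨b, hb, hbc⟩ := hbr H hH
  have hpU : p ∈ UH M U S H := ⟨hp, by rw [hpe]; exact heU, hpH⟩
  exact hno U hU S hS hS2 P hP le hle hPN H hH T hT lt hlt i hi hdet.tree.field hi1 hi2 τ hτ hτ1
    p hpU hpx b hb hbc

end Pool.Agent.CAN
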