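import Pool.Agent.CAN.GRI
import Pool.Agent.CAN.GDefs2

/-!
# CAN/GQA: the club shooting poset of the model and the generic filter of the two step iteration

`N = Nm M U`, `S` a name (`InM S M`), `IsPN M U S P le` (the elements of `P` are the `s0 c.s`, `c : CB` in `M`, `goodV S c ∈ U`), `H` a `P`-generic filter over `N`,
`UH M U S H = {q : QQ S | InM q M, q.1.1 ∈ U, s0 q.1.2.s ∈ H}`.
Preliminaries (in `V`): `c.s` is countable for `c : CB` (`Om.Iic_countable`); `s0` is injective on countable sets (`mem_s0`, `o0_inj`), so `s0 c.s = s0 c'.s → c = c'` and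
`c ∈ P` determines `c`.  `≤` on `CB` is reflexive and transitive; `goodV S` is antitone: `c ≤ c' → goodV S c ≤ goodV S c'`.
`M` is closed under the projections of `QQ S` and pairing (for fixed `S` by `Ev.fn1`, `Ev.fn2`; for all `S` in `M` by `Ev.diag`; the types `QQ S : Type 1`
are coded; for a partial pairing `(e, c) ↦ ⟨(e, c), _⟩ : QQ S` use `Ev.wit2` for the relation `q.1 = (e, c)`).
* `isPN_forcing`: the empty set is a condition: `goodV S ∅ = ⊤`.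
* up: `r.1.1 ≥ q.1.1 ∈ U`, `r.1.2 ≥ q.1.2`, `goodV S r.1.2 ≥ r.1.1 ∈ U`, so `s0 r.1.2.s ∈ P` and it is above `s0 q.1.2.s ∈ H`.
* directed: some `p ∈ H` is below both; `p = s0 c.s`, `t = (q.1.1 ⊓ r.1.1 ⊓ goodV S c, c)`.
* meets dense sets: let `D` be dense, in `M`.  Let `x c = goodV S c ⊓ ⨆ (the set of all e with some q ∈ D, q.1 = (e, c))`, a function `CB → B`, `InM x M` (`Ev.fn1` for `D ↦ x`), and
  `D₀ ∈ N` the set of all `s0 c.s`, `InM c M`, `x c ∈ U` (`rep_mk` with `I = CB`, `J c = sz c.s`, `ev_col_sz`).  `D₀ ⊆ P`.  If `x c ∈ U`, `InM c M` then some `q ∈ D`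
  has `q.1.2 = c`, `q.1.1 ∈ U` (`ev_genF`, fourth clause, or `ev_sup1`).  `D₀` is dense: let `c₀ ∈ P`; `goodV S c₀ ≤ ⨆ c ≤ c₀, x c` (for a nonzero `a ≤ goodV S c₀` there is
  `q ≤ (a, c₀)` in `D`, and `q.1.1 ≤ a ⊓ x q.1.2`), so by `ev_sup1` some `c ≤ c₀` in `M` has `x c ∈ U`.  By `Generic.meets` some `c` with `s0 c.s ∈ H ∩ D₀`.
* `cond`: for `c` with `s0 c.s ∈ H`, `InM c M`: `q = (goodV S c, c) ∈ UH` (`goodV S c ∈ U` since `s0 c.s ∈ P` and `s0` is injective).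
-/

set_option autoImplicit false

namespace Pool.Agent.CAN
open ZFSet Pool.Agent.FBZ

theorem CB.countable (c : CB) : c.s.Countable := by
  obtain ⟨a, ha⟩ := c.bdd
  exact (Om.Iic_countable a).mono fun b hb => ha b hb

private theorem GQA_ext {c c' : CB} (h : c.s = c'.s) : c = c' := by
  cases c
  cases c'
  cases h
  rfl

theorem s0_inj {c c' : CB} (h : s0 c.s = s0 c'.s) : c = c' := by
  apply GQA_ext
  ext a
  constructor
  · intro ha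
    have h1 : o0 a ∈ s0 c.s := (mem_s0 c.countable).2 ⟨a, ha, rfl⟩
    rw [h] at h1
    obtain ⟨b, hb, hab⟩ := (mem_s0 c'.countable).1 h1
    rw [o0_inj.1 hab]
    exact hb
  · intro ha
    have h1 : o0 a ∈ s0 c'.s := (mem_s0 c'.countable).2 ⟨a, ha, rfl⟩
    rw [← h] at h1
    obtain ⟨b, hb, hab⟩ := (mem_s0 c.countable).1 h1
    rw [o0_inj.1 hab]
    exact hb

theorem CB.le_refl (c : CB) : c ≤ c :=
  ⟨fun _ h => h, fun _ h h' => absurd h h'⟩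

theorem CB.le_trans {a b c : CB} (h : a ≤ b) (h' : b ≤ c) : a ≤ c := by
  refine ⟨fun x hx => h.1 (h'.1 hx), fun x hx hxc y hy => ?_⟩
  by_cases hxb : x ∈ b.s
  · exact h'.2 x hxb hxc y hy
  · exact h.2 x hx hxb y (h'.1 hy)

section
variable {B : Type 1} [CompleteBooleanAlgebra B]

theorem goodV_mono (S : Om → B) {c c' : CB} (h : c ≤ c') : goodV S c ≤ goodV S c' := by
  unfold goodV
  refine le_iInf fun a => ?_
  exact iInf_le (fun a : ↥c.s => (S a.1)ᶜ) ⟨a.1, h.1 a.2⟩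

theorem QQ.le_refl {S : Om → B} (q : QQ S) : q ≤ q :=
  ⟨_root_.le_refl _, CB.le_refl _⟩

theorem QQ.le_trans {S : Om → B} {q r t : QQ S} (h : q ≤ r) (h' : r ≤ t) : q ≤ t :=
  ⟨_root_.le_trans h.1 h'.1, CB.le_trans h.2 h'.2⟩

end

section
variable (B : Type 1) [CompleteBooleanAlgebra B]

theorem isPN_forcing : Ev (fun M => ∀ U : Set B, GenF Set.univ M U → ∀ S : Om → B, InM S M → ∀ P le,
    IsPN M U S P le → Forcing P le) := by
  have hne : ∃ a : Om, ∀ b ∈ (∅ : Set Om), b ≤ a := ⟨⟨0, Ordinal.omega_pos _⟩, fun b hb => absurd hb (by simp)⟩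
  have hcl : ∀ a : Om, (∃ b, b < a) → (∀ b < a, ∃ c ∈ (∅ : Set Om), b < c ∧ c < a) → a ∈ (∅ : Set Om) := by
    rintro a ⟨b, hb⟩ h
    obtain ⟨c, hc, -⟩ := h b hb
    exact absurd hc (by simp)
  refine ((ev_bool (B := B)).and (Ev.const (⟨∅, hne, hcl⟩ : CB))).mono ?_
  rintro M ⟨hb, hc0⟩ U hU S hS P le hP
  refine ⟨?_, ?_, ?_, ?_⟩
  · refine ⟨s0 (⟨∅, hne, hcl⟩ : CB).s, (hP.P _).2 ⟨_, hc0, ?_, rfl⟩⟩
    have h1 : goodV S (⟨∅, hne, hcl⟩ : CB) = ⊤ := by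
      unfold goodV
      refine le_antisymm le_top (le_iInf fun a => ?_)
      exact absurd (a.2 : a.1 ∈ (∅ : Set Om)) (Set.notMem_empty _)
    rw [h1]
    exact (hb U hU).1
  · intro z hz
    obtain ⟨c, c', h1, h2, h3, h4, h5, rfl⟩ := (hP.le z).1 hz
    exact pair_mem_prod.2 ⟨(hP.P _).2 ⟨c, h1, h3, rfl⟩, (hP.P _).2 ⟨c', h2, h4, rfl⟩⟩
  · intro p hp
    obtain ⟨c, h1, h2, rfl⟩ := (hP.P p).1 hp
    exact (hP.le _).2 ⟨c, c, h1, h1, h2, h2, CB.le_refl c, rfl⟩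
  · intro p q r hpq hqr
    obtain ⟨c, c', h1, h2, h3, h4, h5, h6⟩ := (hP.le _).1 hpq
    obtain ⟨d, d', k1, k2, k3, k4, k5, k6⟩ := (hP.le _).1 hqr
    obtain ⟨rfl, rfl⟩ := pair_inj.1 h6
    obtain ⟨h7, rfl⟩ := pair_inj.1 k6
    have h8 := s0_inj h7
    subst h8
    exact (hP.le _).2 ⟨c, d', h1, k2, h3, k4, CB.le_trans h5 k5, rfl⟩

private def GQA_x {B : Type 1} [CompleteBooleanAlgebra B] (S : Om → B) (D : Set (QQ S)) (c : CB) : B :=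
  goodV S c ⊓ ⨆ e ∈ {e : B | ∃ q ∈ D, q.1 = (e, c)}, id e

/-- The filter `UH` on the two step iteration. -/
theorem ev_UH : Ev (fun M => ∀ U : Set B, GenF Set.univ M U → ∀ S : Om → B, InM S M → ∀ P ∈ Nm M U, ∀ le ∈ Nm M U,
    IsPN M U S P le → ∀ H, Generic (Nm M U) P le H →
      (∀ q ∈ UH M U S H, ∀ r, InM r M → q ≤ r → r ∈ UH M U S H) ∧
      (∀ q ∈ UH M U S H, ∀ r ∈ UH M U S H, ∃ t ∈ UH M U S H, t ≤ q ∧ t ≤ r) ∧
      (∀ D : Set (QQ S), InM D M → (∀ q, ∃ r ≤ q, r ∈ D) → ∃ q ∈ UH M U S H, q ∈ D) ∧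
      (∀ c : CB, InM c M → s0 c.s ∈ H → ∃ q ∈ UH M U S H, q.1.2 = c)) := by
  have e1 : Ev (fun M => ∀ S : Om → B, InM S M → ∀ q : QQ S, InM q M → InM q.1.1 M) :=
    Ev.diag fun S => Ev.fn1 (fun q : QQ S => q.1.1)
  have e2 : Ev (fun M => ∀ S : Om → B, InM S M → ∀ q : QQ S, InM q M → InM q.1.2 M) :=
    Ev.diag fun S => Ev.fn1 (fun q : QQ S => q.1.2)
  have e3 : Ev (fun M => ∀ (S : Om → B) (c : CB), InM S M → InM c M → InM (goodV S c) M) :=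
    Ev.fn2 (fun (S : Om → B) (c : CB) => goodV S c)
  have e4 : Ev (fun M => ∀ a b : B, InM a M → InM b M → InM (a ⊓ b) M) := Ev.fn2 (fun a b : B => a ⊓ b)
  have e5 : Ev (fun M => ∀ S : Om → B, InM S M → ∀ (e : B) (c : CB), InM e M → InM c M →
      (∃ q : QQ S, q.1 = (e, c)) → ∃ q : QQ S, InM q M ∧ q.1 = (e, c)) :=
    Ev.diag fun S => Ev.wit2 (fun (e : B) (c : CB) (q : QQ S) => q.1 = (e, c))
  have e6 : Ev (fun M => ∀ S : Om → B, InM S M → ∀ D : Set (QQ S), InM D M → InM (GQA_x S D) M) :=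
    Ev.diag fun S => Ev.fn1 (fun D : Set (QQ S) => GQA_x S D)
  have e7 : Ev (fun M => ∀ c : CB, InM c M → InM c.s M) := Ev.fn1 (fun c : CB => c.s)
  have e8 : Ev (fun M => ∀ c : CB, InM c M → InM {c' : CB | c' ≤ c} M) := Ev.fn1 (fun c : CB => {c' : CB | c' ≤ c})
  have e9 : Ev (fun M => ∀ (A : Set CB) (x : CB → B), InM A M → InM x M → InM (⨆ c ∈ A, x c) M) :=
    Ev.fn2 (fun (A : Set CB) (x : CB → B) => ⨆ c ∈ A, x c)
  have e10 : Ev (fun M => ∀ S : Om → B, InM S M → ∀ (D : Set (QQ S)) (c : CB), InM D M → InM c M →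
      InM {e : B | ∃ q ∈ D, q.1 = (e, c)} M) :=
    Ev.diag fun S => Ev.fn2 (fun (D : Set (QQ S)) (c : CB) => {e : B | ∃ q ∈ D, q.1 = (e, c)})
  have e11 : Ev (fun M => ∀ A : Set B, InM A M → InM (⨆ e ∈ A, id e) M) :=
    Ev.fn1 (fun A : Set B => ⨆ e ∈ A, id e)
  have e12 : Ev (fun M => InM (id : B → B) M) := Ev.const _
  refine ((ev_col_sz.and ((rep_mk B (fun c : CB => sz c.s)).and ((ev_sup1 B CB).and (ev_sup1 B B)))).and
    (e1.and (e2.and (e3.and (e4.and (e5.and (e6.and (e7.and (e8.and (e9.and (e10.and (e11.and e12)))))))))))).mono ?_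
  rintro M ⟨⟨hsz, hrep, hsC, hsB⟩, h1, h2, h3, h4, h5, h6, h7, h8, h9, h10, h11, h12⟩ U hU S hS P hPN le hleN hP H hH
  have hPc : ∀ c : CB, s0 c.s ∈ P → InM c M ∧ goodV S c ∈ U := by
    intro c hc
    obtain ⟨c', hc', hg, he⟩ := (hP.P _).1 hc
    rw [s0_inj he]
    exact ⟨hc', hg⟩
  have hne : ∀ a ∈ U, a ≠ ⊥ := by
    rintro a ha rfl
    exact hU.bot ha
  have hlec : ∀ c c' : CB, pair (s0 c.s) (s0 c'.s) ∈ le → c ≤ c' := by
    intro c c' h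
    obtain ⟨d, d', -, -, -, -, hd, he⟩ := (hP.le _).1 h
    obtain ⟨k1, k2⟩ := pair_inj.1 he
    rw [s0_inj k1, s0_inj k2]
    exact hd
  have hcs : ∀ c : CB, InM c M → col M (sz c.s) = s0 c.s := fun c hc => (hsz c.s (h7 c hc) c.countable).2
  refine ⟨?_, ?_, ?_, ?_⟩
  · rintro q ⟨hqM, hqU, hqH⟩ r hr hqr
    have k1 : r.1.1 ∈ U := hU.up _ hqU _ (Set.mem_univ _) (h1 S hS r hr) hqr.1
    have k2 : goodV S r.1.2 ∈ U := hU.up _ k1 _ (Set.mem_univ _) (h3 _ _ hS (h2 S hS r hr)) r.2.2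
    have k3 := hPc _ (hH.sub hqH)
    exact ⟨hr, k1, hH.up _ hqH _ ((hP.le _).2 ⟨q.1.2, r.1.2, k3.1, h2 S hS r hr, k3.2, k2, hqr.2, rfl⟩)⟩
  · rintro q ⟨hqM, hqU, hqH⟩ r ⟨hrM, hrU, hrH⟩
    obtain ⟨p, hpH, hpq, hpr⟩ := hH.dir _ hqH _ hrH
    obtain ⟨c, hcM, hcU, rfl⟩ := (hP.P _).1 (hH.sub hpH)
    have k1 : q.1.1 ⊓ r.1.1 ⊓ goodV S c ∈ U := hU.inf _ (hU.inf _ hqU _ hrU) _ hcU
    obtain ⟨t, htM, ht⟩ := h5 S hS (q.1.1 ⊓ r.1.1 ⊓ goodV S c) c (hU.sub _ k1).2 hcM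
      ⟨⟨(q.1.1 ⊓ r.1.1 ⊓ goodV S c, c), hne _ k1, inf_le_right⟩, rfl⟩
    have k2 : t.1.1 = q.1.1 ⊓ r.1.1 ⊓ goodV S c := by rw [ht]
    have k3 : t.1.2 = c := by rw [ht]
    refine ⟨t, ⟨htM, ?_, ?_⟩, ⟨?_, ?_⟩, ⟨?_, ?_⟩⟩
    · rw [k2]
      exact k1
    · rw [k3]
      exact hpH
    · rw [k2]
      exact inf_le_left.trans inf_le_left
    · rw [k3]
      exact hlec _ _ hpq
    · rw [k2]
      exact inf_le_left.trans inf_le_right
    · rw [k3]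
      exact hlec _ _ hpr
  · intro D hD hDd
    obtain ⟨D₀, hD₀N, hD₀⟩ := hrep U hU _ (h6 S hS D hD)
    have hxg : ∀ c, InM c M → GQA_x S D c ∈ U → goodV S c ∈ U := fun c hc h =>
      hU.up _ h _ (Set.mem_univ _) (h3 _ _ hS hc) inf_le_left
    have hdense : Dense P le D₀ := by
      refine ⟨?_, ?_⟩
      · intro z hz
        obtain ⟨c, hc, hcU, rfl⟩ := (hD₀ z).1 hz
        rw [hcs c hc]
        exact (hP.P _).2 ⟨c, hc, hxg c hc hcU, rfl⟩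
      · intro p hp
        obtain ⟨c₀, hc₀, hc₀U, rfl⟩ := (hP.P _).1 hp
        have k1 : goodV S c₀ ≤ ⨆ c ∈ {c : CB | c ≤ c₀}, GQA_x S D c := by
          by_contra hcon
          have k2 : goodV S c₀ ⊓ (⨆ c ∈ {c : CB | c ≤ c₀}, GQA_x S D c)ᶜ ≠ ⊥ := by
            intro h
            exact hcon (by
              have := disjoint_iff.2 h
              exact (le_compl_iff_disjoint_right.2 this).trans (compl_compl _).le)
          obtain ⟨r, hr, hrD⟩ := hDd ⟨(goodV S c₀ ⊓ (⨆ c ∈ {c : CB | c ≤ c₀}, GQA_x S D c)ᶜ, c₀), k2, inf_le_left⟩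
          have k3 : r.1.1 ≤ GQA_x S D r.1.2 := by
            refine le_inf r.2.2 ?_
            exact le_iSup₂ (f := fun (e : B) (_ : e ∈ {e : B | ∃ q ∈ D, q.1 = (e, r.1.2)}) => id e) r.1.1
              ⟨r, hrD, rfl⟩
          have k4 : r.1.1 ≤ ⨆ c ∈ {c : CB | c ≤ c₀}, GQA_x S D c :=
            k3.trans (le_iSup₂ (f := fun (c : CB) (_ : c ∈ {c : CB | c ≤ c₀}) => GQA_x S D c) r.1.2 hr.2)
          have k5 : r.1.1 ≤ (⨆ c ∈ {c : CB | c ≤ c₀}, GQA_x S D c)ᶜ := hr.1.trans inf_le_right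
          exact r.2.1 (le_bot_iff.1 ((le_inf k4 k5).trans (inf_compl_self _).le))
        have k6 : (⨆ c ∈ {c : CB | c ≤ c₀}, GQA_x S D c) ∈ U :=
          hU.up _ hc₀U _ (Set.mem_univ _) (h9 _ _ (h8 c₀ hc₀) (h6 S hS D hD)) k1
        obtain ⟨c, hcc, hcM, hcU⟩ := (hsC U hU _ _ (h8 c₀ hc₀) (h6 S hS D hD)).1 k6
        refine ⟨s0 c.s, (hD₀ _).2 ⟨c, hcM, hcU, (hcs c hcM).symm⟩, ?_⟩
        exact (hP.le _).2 ⟨c, c₀, hcM, hc₀, hxg c hcM hcU, hc₀U, hcc, rfl⟩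
    obtain ⟨p, hpH, hpD⟩ := hH.meets D₀ hD₀N hdense
    obtain ⟨c, hcM, hcU, rfl⟩ := (hD₀ p).1 hpD
    rw [hcs c hcM] at hpH
    have k7 : (⨆ e ∈ {e : B | ∃ q ∈ D, q.1 = (e, c)}, id e) ∈ U :=
      hU.up _ hcU _ (Set.mem_univ _) (h11 _ (h10 S hS D c hD hcM)) inf_le_right
    obtain ⟨e, ⟨q, hqD, hqe⟩, heM, heU⟩ := (hsB U hU _ _ (h10 S hS D c hD hcM) h12).1 k7
    obtain ⟨q', hq'M, hq'⟩ := h5 S hS e c heM hcM ⟨q, hqe⟩
    have k8 : q' = q := Subtype.ext (hq'.trans hqe.symm)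
    subst k8
    refine ⟨q', ⟨hq'M, ?_, ?_⟩, hqD⟩
    · rw [hq']
      exact heU
    · rw [hq']
      exact hpH
  · intro c hcM hcH
    have k1 := (hPc c (hH.sub hcH)).2
    obtain ⟨q, hqM, hq⟩ := h5 S hS (goodV S c) c (h3 _ _ hS hcM) hcM ⟨⟨(goodV S c, c), hne _ k1, le_rfl⟩, rfl⟩
    refine ⟨q, ⟨hqM, ?_, ?_⟩, ?_⟩
    · rw [hq]
      exact k1
    · rw [hq]
      exact hcH
    · rw [hq]

end

end Pool.Agent.CAN
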