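import Pool.Agent.CAN.GQA
import Pool.Agent.CAN.GZC
import Pool.Agent.FBZ.FD

/-!
# CAN/GQB: names for subsets of ground model sets in the extension `N[H]`

Let `I : Type 1`, `J : I → ZFSet.{1}`, `A₀ = {col M (J i) | InM i M}` (this is `col M (ZFSet.range J)`, so it is in `N` by `ev_ground`; or `rep_mk` with the constant name `⊤`).
`ev_names`: `B' ∈ N`, downward closed in the second coordinate.  `rep_of` with the index type `I × CB`, `J' (i, c) = pair (J i) (sz c.s)` (`col M (J' (i, c)) = pair (col M (J i)) (s0 c.s)`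
by `ev_col_pair`, `ev_col_sz`; `M` closed under `i ↦ J i`) gives `x' : I × CB → B` in `M` with `x' (i, c) ∈ U ↔ pair (col M (J i)) (s0 c.s) ∈ B'` for `i`, `c` in `M`.
Let `x i = {q : QQ S | q.1.1 ≤ x' (i, q.1.2)}`, a function of `x'` (for fixed `S`), so in `M`.
(→) `pair (col M (J i)) p ∈ B'`, `p ∈ H ⊆ P`, `p = s0 c.s`, `goodV S c ∈ U`, `x' (i, c) ∈ U`: `q = (x' (i, c) ⊓ goodV S c, c)` is in `x i` and in `UH`.
(←) `q ∈ UH`, `t ∈ x i`, `q ≤ t`: we may take `t` in `M` (`Ev.wit3`), then `t ∈ UH` (`ev_UH`), so `t.1.1 ∈ U`, `x' (i, t.1.2) ∈ U`, `pair (col M (J i)) (s0 t.1.2.s) ∈ B'`, `s0 t.1.2.s ∈ H`.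
`ev_names_ext`: `flat_one` (FBZ/FD) with `A = A₀` gives `B'`; the value of `y` at `col M (J i)`.
-/

set_option autoImplicit false

namespace Pool.Agent.CAN
open ZFSet Pool.Agent.FBZ

section
variable (B : Type 1) [CompleteBooleanAlgebra B] {I : Type 1} (J : I → ZFSet.{1})

private def gqbX {B : Type 1} [CompleteBooleanAlgebra B] {I : Type 1} (S : Om → B) (x : I × CB → B) :
    I → Set (QQ S) := fun i => {q | q.1.1 ≤ x (i, q.1.2)}

theorem ev_names : Ev (fun M => ∀ U : Set B, GenF Set.univ M U → ∀ S : Om → B, InM S M → ∀ P ∈ Nm M U, ∀ le ∈ Nm M U,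
    IsPN M U S P le → ∀ H, Generic (Nm M U) P le H → ∀ B' ∈ Nm M U,
      (∀ a p q, pair a p ∈ B' → pair q p ∈ le → pair a q ∈ B') →
      ∃ x : I → Set (QQ S), InM x M ∧ ∀ i, InM i M →
        ((∃ p ∈ H, pair (col M (J i)) p ∈ B') ↔ ∃ q ∈ UH M U S H, ∃ t ∈ x i, q ≤ t)) := by
  have hof := rep_of B (I := I × CB) (fun k => pair (J k.1) (sz k.2.s))
  have hJ := Ev.fn1 (S := I) (Z := ZFSet.{1}) J
  have hcs := Ev.fn1 (S := CB) (Z := Set Om) (fun c => c.s)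
  have hpr := Ev.fn2 (S := I) (T := CB) (Z := I × CB) (fun i c => (i, c))
  have hap := Ev.fn2 (S := I × CB → B) (T := I × CB) (Z := B) (fun x k => x k)
  have hS : Ev (fun M => ∀ S : Om → B, InM S M →
      (∀ x : I × CB → B, InM x M → InM (gqbX S x) M) ∧
      (∀ (e : B) (c : CB), InM e M → InM c M → (∃ q : QQ S, q.1 = (e, c)) →
        ∃ q : QQ S, InM q M ∧ q.1 = (e, c)) ∧
      (∀ (x : I → Set (QQ S)) (i : I) (q : QQ S), InM x M → InM i M → InM q M →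
        (∃ t : QQ S, t ∈ x i ∧ q ≤ t) → ∃ t : QQ S, InM t M ∧ t ∈ x i ∧ q ≤ t) ∧
      (∀ q : QQ S, InM q M → InM q.1.2 M)) := by
    refine Ev.diag fun S => ?_
    have h1 := Ev.fn1 (S := I × CB → B) (Z := I → Set (QQ S)) (gqbX S)
    have h2 := Ev.wit2 (S := B) (T := CB) (Z := QQ S) (fun e c q => q.1 = (e, c))
    have h3 := Ev.wit3 (S := I → Set (QQ S)) (T := I) (U := QQ S) (Z := QQ S)
      (fun x i q t => t ∈ x i ∧ q ≤ t)
    have h4 := Ev.fn1 (S := QQ S) (Z := CB) (fun q => q.1.2)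
    exact (((h1.and h2).and h3).and h4).mono fun M h => ⟨h.1.1.1, h.1.1.2, h.1.2, h.2⟩
  refine ((((((((hof.and hJ).and hcs).and hpr).and hap).and hS).and ev_col_pair).and ev_col_sz).and
    (ev_UH B)).mono ?_
  rintro M ⟨⟨⟨⟨⟨⟨⟨⟨hof, hJ⟩, hcs⟩, hpr⟩, hap⟩, hS⟩, hcp⟩, hcz⟩, hUH⟩ U hU S hSM P hP le hle hPN H hH
    B' hB' hdc
  obtain ⟨h1, h2, h3, h4⟩ := hS S hSM
  obtain ⟨hup, -, -, -⟩ := hUH U hU S hSM P hP le hle hPN H hH
  obtain ⟨x', hx', hx⟩ := hof U hU B' hB'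
  have key : ∀ (i : I) (c : CB), InM i M → InM c M →
      (x' (i, c) ∈ U ↔ pair (col M (J i)) (s0 c.s) ∈ B') := by
    intro i c hi hc
    rw [hx (i, c) (hpr i c hi hc)]
    obtain ⟨hz1, hz2⟩ := hcz c.s (hcs c hc) c.countable
    have := (hcp (J i) (hJ i hi) (sz c.s) hz1).2
    rw [hz2] at this
    rw [this]
  refine ⟨gqbX S x', h1 x' hx', fun i hi => ⟨?_, ?_⟩⟩
  · rintro ⟨p, hp, hpB⟩
    obtain ⟨c, hc, hgc, rfl⟩ := (hPN.P p).1 (hH.sub hp)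
    have hxU := (key i c hi hc).2 hpB
    have he : x' (i, c) ⊓ goodV S c ∈ U := hU.inf _ hxU _ hgc
    have hne : x' (i, c) ⊓ goodV S c ≠ ⊥ := fun h0 => hU.bot (h0 ▸ he)
    obtain ⟨q, hq, hq1⟩ := h2 (x' (i, c) ⊓ goodV S c) c (hU.sub _ he).2 hc
      ⟨⟨(x' (i, c) ⊓ goodV S c, c), hne, inf_le_right⟩, rfl⟩
    refine ⟨q, ⟨hq, ?_, ?_⟩, q, ?_, QQ.le_refl q⟩
    · rw [hq1]; exact he
    · rw [hq1]; exact hp
    · show q.1.1 ≤ x' (i, q.1.2)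
      rw [hq1]
      exact inf_le_left
  · rintro ⟨q, hq, t, ht, hqt⟩
    obtain ⟨t, htM, ht, hqt⟩ := h3 (gqbX S x') i q (h1 x' hx') hi hq.1 ⟨t, ht, hqt⟩
    have htU := hup q hq t htM hqt
    have hc := h4 t htM
    refine ⟨s0 t.1.2.s, htU.2.2, (key i t.1.2 hi hc).1 ?_⟩
    exact hU.up _ htU.2.1 _ (Set.mem_univ _) (hap x' _ hx' (hpr i t.1.2 hi hc)) ht

theorem ev_names_ext : Ev (fun M => ∀ U : Set B, GenF Set.univ M U → ∀ S : Om → B, InM S M → ∀ P ∈ Nm M U, ∀ le ∈ Nm M U,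
    IsPN M U S P le → ∀ H, Generic (Nm M U) P le H → ∀ y ∈ Ext (Nm M U) H,
      ∃ x : I → Set (QQ S), InM x M ∧ ∀ i, InM i M →
        (col M (J i) ∈ y ↔ ∃ q ∈ UH M U S H, ∃ t ∈ x i, q ≤ t)) := by
  refine ((((((ev_names B J).and (ev_zf B)).and (isPN_forcing B)).and (rep_mk B J)).and
    (Ev.const (fun _ : I => (⊤ : B)))).and (ev_bool (B := B))).mono ?_
  rintro M ⟨⟨⟨⟨⟨hnm, hzf⟩, hfo⟩, hmk⟩, htop⟩, hbo⟩ U hU S hSM P hP le hle hPN H hH y hy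
  obtain ⟨A, hA, hAz⟩ := hmk U hU _ htop
  obtain ⟨B', hB', hsub, hdc, hB⟩ := flat_one (hzf U hU) (hfo U hU S hSM P le hPN) hP hle hH hy hA
  obtain ⟨x, hx, hxi⟩ := hnm U hU S hSM P hP le hle hPN H hH B' hB' hdc
  refine ⟨x, hx, fun i hi => ?_⟩
  rw [← hxi i hi]
  exact hB _ ((hAz _).2 ⟨i, hi, (hbo U hU).1, rfl⟩)

end

end Pool.Agent.CAN
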