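import Pool.Agent.CAN.GQB
import Pool.Agent.CAN.GOM

/-!
# CAN/GQC: the extension by club shooting has no new countable sequences

* `ev_chooseH`: let `D n` be the set of the `q` such that `(∃ t, ∃ s ∈ x n t, q ≤ s)` or `∀ r ≤ q, ∀ t, ∀ s ∈ x n t, ¬ r ≤ s`.  `D n` is dense and open, so by `DistQ S` the set
  `D = {q | ∀ n, q ∈ D n}` is dense; it is in `M` (a function of `x`).  By `ev_UH` some `q ∈ UH` is in `D`.  The second alternative is impossible for every `n`: by the hypothesis there are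
  `q' ∈ UH`, `s ∈ x n t` with `q' ≤ s`, and a common extension `r ≤ q, q'`.  So for every `n` there are `t`, `s ∈ x n t` with `q ≤ s`; by
  `Ev.wit2` (relation between `x`, `q` and `g : ℕ → T`: `∀ n, ∃ s ∈ x n (g n), q ≤ s`) there is such `g` in `M`.
* `ev_nnr`: let `y ∈ Ext N H`, `y ⊆ ω`.  `ev_names_ext` with `I = ULift.{1} ℕ`, `J n = nz n` (`ev_col_nz`): `x : ULift ℕ → Set (QQ S)` in `M`.  Apply `ev_chooseH` to
  `T = ULift.{1} Bool`, `x' n true = x n`, `x' n false = {q | ∀ r ≤ q, ∀ t ∈ x n, ¬ r ≤ t}`; the hypothesis holds since the union of `{q | ∃ t ∈ x n, q ≤ t}` and `x' n false` is dense.  We get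
  `g` in `M` with: `nz n ∈ y ↔ g n = true` (if `g n = false` some `q ∈ UH` is in (below an element of) `x' n false`; if also `nz n ∈ y` then a common extension gives a contradiction).
  So `y = {nz n | g n = true}` is the collapse of a set in `M`: `y = col M {nz n | g n = true}` (`mem_col`, or `rep_mk` with the name `⊤`/`⊥`), hence `y ∈ N` (`ev_ground`).
-/

set_option autoImplicit false

namespace Pool.Agent.CAN
open ZFSet Pool.Agent.FBZ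

private theorem GQC_dense {B : Type 1} [CompleteBooleanAlgebra B] {S : Om → B} (hS : DistQ S) {T : Type 1}
    (x : ℕ → T → Set (QQ S)) (q : QQ S) :
    ∃ r ≤ q, ∀ n, (∃ t, ∃ s ∈ x n t, r ≤ s) ∨ ∀ r' ≤ r, ∀ t, ∀ s ∈ x n t, ¬ r' ≤ s := by
  refine hS q (fun n => {r | (∃ t, ∃ s ∈ x n t, r ≤ s) ∨ ∀ r' ≤ r, ∀ t, ∀ s ∈ x n t, ¬ r' ≤ s}) ?_ ?_
  · intro n q
    by_cases h : ∃ r ≤ q, ∃ t, ∃ s ∈ x n t, r ≤ s
    · obtain ⟨r, hr, h'⟩ := h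
      exact ⟨r, hr, Or.inl h'⟩
    · refine ⟨q, QQ.le_refl q, Or.inr fun r hr t s hs hrs => h ⟨r, hr, t, s, hs, hrs⟩⟩
  · rintro n q (⟨t, s, hs, hqs⟩ | h) r hr
    · exact Or.inl ⟨t, s, hs, QQ.le_trans hr hqs⟩
    · exact Or.inr fun r' hr' t s hs hrs => h r' (QQ.le_trans hr' hr) t s hs hrs

private theorem GQC_dense1 {B : Type 1} [CompleteBooleanAlgebra B] {S : Om → B}
    (E : Set (QQ S)) (q : QQ S) :
    ∃ r ≤ q, (∃ t ∈ E, r ≤ t) ∨ ∀ r' ≤ r, ∀ t ∈ E, ¬ r' ≤ t := by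
  by_cases h : ∃ r ≤ q, ∃ t ∈ E, r ≤ t
  · obtain ⟨r, hr, h'⟩ := h
    exact ⟨r, hr, Or.inl h'⟩
  · exact ⟨q, QQ.le_refl q, Or.inr fun r hr t ht hrt => h ⟨r, hr, t, ht, hrt⟩⟩

section
variable (B : Type 1) [CompleteBooleanAlgebra B]

theorem ev_chooseH (T : Type 1) : Ev (fun M => ∀ U : Set B, GenF Set.univ M U → ∀ S : Om → B, InM S M → DistQ S →
    ∀ P ∈ Nm M U, ∀ le ∈ Nm M U, IsPN M U S P le → ∀ H, Generic (Nm M U) P le H →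
    ∀ x : ℕ → T → Set (QQ S), InM x M →
      (∀ n, ∃ t, ∃ q ∈ UH M U S H, ∃ s ∈ x n t, q ≤ s) →
      ∃ g : ℕ → T, InM g M ∧ ∀ n, ∃ q ∈ UH M U S H, ∃ s ∈ x n (g n), q ≤ s) := by
  have h1 : Ev (fun M => ∀ S : Om → B, InM S M → ∀ x : ℕ → T → Set (QQ S), InM x M →
      InM ({r | ∀ n, (∃ t, ∃ s ∈ x n t, r ≤ s) ∨ ∀ r' ≤ r, ∀ t, ∀ s ∈ x n t, ¬ r' ≤ s} : Set (QQ S)) M) :=
    Ev.diag fun S => Ev.fn1 (fun x : ℕ → T → Set (QQ S) =>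
      ({r | ∀ n, (∃ t, ∃ s ∈ x n t, r ≤ s) ∨ ∀ r' ≤ r, ∀ t, ∀ s ∈ x n t, ¬ r' ≤ s} : Set (QQ S)))
  have h2 : Ev (fun M => ∀ S : Om → B, InM S M → ∀ (x : ℕ → T → Set (QQ S)) (q : QQ S), InM x M →
      InM q M → (∃ g : ℕ → T, ∀ n, ∃ s ∈ x n (g n), q ≤ s) →
      ∃ g : ℕ → T, InM g M ∧ ∀ n, ∃ s ∈ x n (g n), q ≤ s) :=
    Ev.diag fun S => Ev.wit2 (fun (x : ℕ → T → Set (QQ S)) (q : QQ S) (g : ℕ → T) =>
      ∀ n, ∃ s ∈ x n (g n), q ≤ s)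
  refine ((h1.and h2).and (ev_UH B)).mono ?_
  rintro M ⟨⟨h1, h2⟩, h3⟩ U hU S hS hd P hP le hle hPN H hH x hx hyp
  obtain ⟨-, hdir, hmeet, -⟩ := h3 U hU S hS P hP le hle hPN H hH
  obtain ⟨q, hq, hqD⟩ := hmeet _ (h1 S hS x hx) (GQC_dense hd x)
  have h4 : ∀ n, ∃ t, ∃ s ∈ x n t, q ≤ s := by
    intro n
    rcases hqD n with h | h
    · exact h
    · exfalso
      obtain ⟨t, q', hq', s, hs, hqs⟩ := hyp n
      obtain ⟨r, hr, hrq, hrq'⟩ := hdir q hq q' hq'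
      exact h r hrq t s hs (QQ.le_trans hrq' hqs)
  choose g hg using h4
  obtain ⟨g', hg', h5⟩ := h2 S hS x q hx hq.1 ⟨g, hg⟩
  exact ⟨g', hg', fun n => ⟨q, hq, h5 n⟩⟩

theorem ev_nnr : Ev (fun M => ∀ U : Set B, GenF Set.univ M U → ∀ S : Om → B, InM S M → DistQ S →
    ∀ P ∈ Nm M U, ∀ le ∈ Nm M U, IsPN M U S P le → NoNewReals (Nm M U) P le) := by
  have h1 : Ev (fun M => ∀ S : Om → B, InM S M → ∀ (x : ULift.{1} ℕ → Set (QQ S)) (n : ULift.{1} ℕ), InM x M →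
      InM n M → InM ({r | (∃ t ∈ x n, r ≤ t) ∨ ∀ r' ≤ r, ∀ t ∈ x n, ¬ r' ≤ t} : Set (QQ S)) M) :=
    Ev.diag fun S => Ev.fn2 (fun (x : ULift.{1} ℕ → Set (QQ S)) (n : ULift.{1} ℕ) =>
      ({r | (∃ t ∈ x n, r ≤ t) ∨ ∀ r' ≤ r, ∀ t ∈ x n, ¬ r' ≤ t} : Set (QQ S)))
  have h2 : Ev (fun M => ∀ S : Om → B, InM S M → ∀ (x : ULift.{1} ℕ → Set (QQ S)), InM x M →
      InM (fun (n : ℕ) (t : ULift.{1} Bool) => if t.down = true then x ⟨n⟩ else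
        ({r | ∀ r' ≤ r, ∀ t ∈ x ⟨n⟩, ¬ r' ≤ t} : Set (QQ S))) M) :=
    Ev.diag fun S => Ev.fn1 (fun (x : ULift.{1} ℕ → Set (QQ S)) (n : ℕ) (t : ULift.{1} Bool) =>
      if t.down = true then x ⟨n⟩ else ({r | ∀ r' ≤ r, ∀ t ∈ x ⟨n⟩, ¬ r' ≤ t} : Set (QQ S)))
  have h3 := Ev.fn1 (fun g : ℕ → ULift.{1} Bool =>
    (ZFSet.omega.{1}).sep (fun z => ∃ n, z = nz n ∧ (g n).down = true))
  have h4 : Ev (fun M => ∀ n : ℕ, InM (⟨n⟩ : ULift.{1} ℕ) M) := Ev.all_nat fun n => Ev.const _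
  refine ((((((((h1.and h2).and h3).and h4).and (ev_UH B)).and (ev_chooseH B (ULift.{1} Bool))).and
    (ev_names_ext B (fun n : ULift.{1} ℕ => nz n.down))).and (ev_ground B)).and
    (ev_col_nz.and ev_ctbl0)).mono ?_
  rintro M ⟨⟨⟨⟨⟨⟨⟨⟨h1, h2⟩, h3⟩, h4⟩, h5⟩, h6⟩, h7⟩, h8⟩, h9, h10⟩ U hU S hS hd P hP le hle hPN H hH y hy hyo
  obtain ⟨-, hdir, hmeet, -⟩ := h5 U hU S hS P hP le hle hPN H hH
  obtain ⟨x, hx, hxy⟩ := h7 U hU S hS P hP le hle hPN H hH y hy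
  have h11 : ∀ n : ℕ, ∃ t : ULift.{1} Bool, ∃ q ∈ UH M U S H, ∃ s ∈ (fun (n : ℕ) (t : ULift.{1} Bool) =>
      if t.down = true then x ⟨n⟩ else ({r | ∀ r' ≤ r, ∀ t ∈ x ⟨n⟩, ¬ r' ≤ t} : Set (QQ S))) n t, q ≤ s := by
    intro n
    obtain ⟨q, hq, hqE⟩ := hmeet _ (h1 S hS x ⟨n⟩ hx (h4 n)) (GQC_dense1 (x ⟨n⟩))
    rcases hqE with ⟨t, ht, hqt⟩ | h
    · exact ⟨⟨true⟩, q, hq, t, ht, hqt⟩
    · exact ⟨⟨false⟩, q, hq, q, h, QQ.le_refl q⟩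
  obtain ⟨g, hg, h12⟩ := h6 U hU S hS hd P hP le hle hPN H hH _ (h2 S hS x hx) h11
  have h13 : ∀ n : ℕ, nz n ∈ y ↔ (g n).down = true := by
    intro n
    have h14 := hxy ⟨n⟩ (h4 n)
    rw [(h9 n).2] at h14
    obtain ⟨q, hq, s, hs, hqs⟩ := h12 n
    rw [h14]
    constructor
    · rintro ⟨q', hq', t, ht, hqt⟩
      by_contra hne
      obtain ⟨r, hr, hrq, hrq'⟩ := hdir q hq q' hq'
      have hs' : s ∈ ({r | ∀ r' ≤ r, ∀ t ∈ x ⟨n⟩, ¬ r' ≤ t} : Set (QQ S)) := by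
        have h15 : s ∈ (if (g n).down = true then x ⟨n⟩ else
          ({r | ∀ r' ≤ r, ∀ t ∈ x ⟨n⟩, ¬ r' ≤ t} : Set (QQ S))) := hs
        rwa [if_neg hne] at h15
      exact hs' r (QQ.le_trans hrq hqs) t ht (QQ.le_trans hrq' hqt)
    · intro ht
      have h15 : s ∈ (if (g n).down = true then x ⟨n⟩ else
          ({r | ∀ r' ≤ r, ∀ t ∈ x ⟨n⟩, ¬ r' ≤ t} : Set (QQ S))) := hs
      rw [if_pos ht] at h15
      exact ⟨q, hq, s, h15, hqs⟩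
  have h16 : y = col M ((ZFSet.omega.{1}).sep (fun z => ∃ n, z = nz n ∧ (g n).down = true)) := by
    ext z
    rw [mem_col h10.1 h10.2]
    constructor
    · intro hz
      obtain ⟨n, rfl⟩ := mem_omega.1 (hyo hz)
      refine ⟨nz n, (h9 n).1, ?_, (h9 n).2.symm⟩
      rw [mem_sep]
      exact ⟨nz_mem_omega n, n, rfl, (h13 n).1 hz⟩
    · rintro ⟨w, hw, hws, rfl⟩
      rw [mem_sep] at hws
      obtain ⟨-, n, rfl, hn⟩ := hws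
      rw [(h9 n).2]
      exact (h13 n).2 hn
  rw [h16]
  exact h8 U hU _ (h3 g hg)

end

end Pool.Agent.CAN
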