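import Pool.Agent.CAN.GQC
import Pool.Agent.FBZ.DK
import Pool.Agent.FBZ.FJ

/-!
# CAN/GQD: `ω₁` is preserved by the club shooting extension

* `ev_bdd_H`: as `ev_bdd_fun` in GOM, with `ev_names_ext` (`I = ℕ × Om`, `J (n, a) = pair (nz n) (oz a)`) and `ev_chooseH` (`T = Om`): for `f ∈ N[H]` a surjection `ω → X ⊆ o0 (del M)` there is
  `g : ℕ → Om` in `M` with `pair (nz n) (o0 (g n)) ∈ f` for all `n`; the range of `g` is bounded in `M`.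
  (In the hypothesis of `ev_chooseH` the index `t` must exist in `V` only, fine.)
* `ev_omega1_H`: `N ⊆ N[H]` (`mem_Ext_of_mem`, FBZ/FA).  `Card (N[H]) ω`: `ω ∈ N[H]`, and there is no surjection from a natural number onto `ω` at all.
  `Card (N[H]) (o0 (del M))`: as in GOM: if `f ∈ N[H]` maps `o0 b` onto `o0 (del M)`, `b < del M`: repeat `ev_bdd_H` for the set of names `x' n a = x (e n, a)`, `e : ℕ → Om` an enumeration of `Set.Iio b` in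
  `M`, i.e. `I = Om × Om`, `J (b, a) = pair (oz b) (oz a)`.  (`b = 0` is trivial.)  The cardinals of `N[H]` below `o0 (del M)` are cardinals of `N` since `N ⊆ N[H]`
  (`card_of_card_ext`, FBZ/FJ), so they are `ω` or natural numbers by `ev_omega1`.
-/

set_option autoImplicit false

namespace Pool.Agent.CAN
open ZFSet Pool.Agent.FBZ

section
variable (B : Type 1) [CompleteBooleanAlgebra B]

private theorem GQD_gen (K : Type 1) (j : K → ZFSet.{1}) :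
    Ev (fun M => ∀ U : Set B, GenF Set.univ M U → ∀ S : Om → B, InM S M → DistQ S →
    ∀ P ∈ Nm M U, ∀ le ∈ Nm M U, IsPN M U S P le → ∀ H, Generic (Nm M U) P le H →
    ∀ f ∈ Ext (Nm M U) H, ∀ e : ℕ → K, InM e M →
      (∀ n, ∃ a, InM a M ∧ pair (col M (j (e n))) (o0 a) ∈ f) →
      ∃ a : Om, a < del M ∧ ∀ n, ∃ b < a, pair (col M (j (e n))) (o0 b) ∈ f) := by
  have h1 : Ev (fun M => ∀ S : Om → B, InM S M → ∀ (x : K × Om → Set (QQ S)) (e : ℕ → K), InM x M →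
      InM e M → InM (fun (n : ℕ) (a : Om) => x (e n, a)) M) :=
    Ev.diag fun S => Ev.fn2 (fun (x : K × Om → Set (QQ S)) (e : ℕ → K) (n : ℕ) (a : Om) => x (e n, a))
  have h2 := Ev.fn2 (fun (k : K) (a : Om) => (k, a))
  have h5 := Ev.wit1 (fun (g : ℕ → Om) (a : Om) => ∀ n, g n < a)
  refine ((((((((h1.and h2).and (Ev.seq K)).and (Ev.seq Om)).and (ev_chooseH B Om)).and
    (ev_names_ext B (fun i : K × Om => pair (j i.1) (oz i.2)))).and h5).and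
    (ev_col_pair.and ev_col_oz)).and (ev_del.and (Ev.fn1 j))).mono ?_
  rintro M ⟨⟨⟨⟨⟨⟨⟨⟨h1, h2⟩, h3⟩, h3'⟩, h4⟩, h5⟩, h6⟩, h7, h8⟩, h9, h10⟩ U hU S hS hd P hP le hle hPN H hH
    f hf e he hyp
  obtain ⟨x, hx, hxf⟩ := h5 U hU S hS P hP le hle hPN H hH f hf
  have h11 : ∀ n a, InM a M → ((∃ q ∈ UH M U S H, ∃ t ∈ x (e n, a), q ≤ t) ↔
      pair (col M (j (e n))) (o0 a) ∈ f) := by
    intro n a ha
    have h12 := hxf (e n, a) (h2 _ _ (h3 e he n) ha)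
    have hj : j (e n) ∈ M := h10 _ (h3 e he n)
    have h13 : col M (pair (j (e n)) (oz a)) = pair (col M (j (e n))) (o0 a) := by
      rw [(h7 _ hj _ (h8 a ha).1).2, (h8 a ha).2]
    rw [← h12]
    exact Eq.to_iff (congrArg (fun z => z ∈ f) h13)
  obtain ⟨g, hg, h14⟩ := h4 U hU S hS hd P hP le hle hPN H hH _ (h1 S hS x e hx he) (by
    intro n
    obtain ⟨a, ha, h⟩ := hyp n
    exact ⟨a, (h11 n a ha).2 h⟩)
  obtain ⟨a, ha, hga⟩ := h6 g hg (by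
    obtain ⟨k, hk⟩ := Om.bdd (Set.countable_range g)
    exact ⟨k, fun n => hk _ ⟨n, rfl⟩⟩)
  exact ⟨a, (h9 a).1 ha, fun n => ⟨g n, hga n, (h11 n (g n) (h3' g hg n)).1 (h14 n)⟩⟩

private theorem GQD_sub {f A X : ZFSet.{0}} (hf : Surj f A X) {a : Om} {k : ℕ → ZFSet.{0}}
    (hk : ∀ z ∈ A, ∃ n, z = k n) (h : ∀ n, ∃ b < a, pair (k n) (o0 b) ∈ f) : X ⊆ o0 a := by
  intro y hy
  obtain ⟨z, hz, hzy⟩ := hf.2 y hy
  obtain ⟨n, rfl⟩ := hk z hz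
  obtain ⟨b, hb, h1⟩ := h n
  have h2 : y = o0 b := by
    rw [← ap_eq hf.1 hzy, ap_eq hf.1 h1]
  rw [h2]
  exact o0_mem_o0.2 hb

theorem ev_bdd_H : Ev (fun M => ∀ U : Set B, GenF Set.univ M U → ∀ S : Om → B, InM S M → DistQ S →
    ∀ P ∈ Nm M U, ∀ le ∈ Nm M U, IsPN M U S P le → ∀ H, Generic (Nm M U) P le H →
    ∀ f ∈ Ext (Nm M U) H, ∀ X : ZFSet.{0}, X ⊆ o0 (del M) → Surj f ZFSet.omega X → ∃ a : Om, a < del M ∧ X ⊆ o0 a) := by
  refine (((GQD_gen B (ULift.{1} ℕ) (fun n => nz n.down)).and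
    (Ev.const (fun n : ℕ => (⟨n⟩ : ULift.{1} ℕ)))).and (ev_del.and ev_col_nz)).mono ?_
  rintro M ⟨⟨h1, h2⟩, h3, h4⟩ U hU S hS hd P hP le hle hPN H hH f hf X hX hs
  obtain ⟨a, ha, h⟩ := h1 U hU S hS hd P hP le hle hPN H hH f hf _ h2 (by
    intro n
    obtain ⟨h5, h6⟩ := pair_ap hs.1 (nz_mem_omega n)
    obtain ⟨b, hb, h7⟩ := mem_o0.1 (hX h6)
    refine ⟨b, (h3 b).2 hb, ?_⟩
    change pair (col M (nz n)) (o0 b) ∈ f
    rw [(h4 n).2, ← h7]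
    exact h5)
  refine ⟨a, ha, GQD_sub hs (k := fun n => nz n) (fun z hz => mem_omega.1 hz) fun n => ?_⟩
  obtain ⟨b, hb, h8⟩ := h n
  change pair (col M (nz n)) (o0 b) ∈ f at h8
  rw [(h4 n).2] at h8
  exact ⟨b, hb, h8⟩

private theorem GQD_bdd : Ev (fun M => ∀ U : Set B, GenF Set.univ M U → ∀ S : Om → B, InM S M → DistQ S →
    ∀ P ∈ Nm M U, ∀ le ∈ Nm M U, IsPN M U S P le → ∀ H, Generic (Nm M U) P le H →
    ∀ f ∈ Ext (Nm M U) H, ∀ X : ZFSet.{0}, X ⊆ o0 (del M) → ∀ c : Om, c < del M → (∃ d, d < c) →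
      Surj f (o0 c) X → ∃ a : Om, a < del M ∧ X ⊆ o0 a) := by
  refine (((GQD_gen B Om oz).and
    (Ev.wit1 (fun (c : Om) (e : ℕ → Om) => Set.Iio c = Set.range e))).and (ev_del.and
    (ev_col_oz.and (Ev.seq Om)))).mono ?_
  rintro M ⟨⟨h1, h2⟩, h3, h4, h4'⟩ U hU S hS hd P hP le hle hPN H hH f hf X hX c hc hc0 hs
  obtain ⟨e, he, hce⟩ := h2 c ((h3 c).2 hc) ((Om.Iio_countable c).exists_eq_range hc0)
  have hec : ∀ n, e n < c := by
    intro n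
    have h5 : e n ∈ Set.Iio c := by
      rw [hce]
      exact ⟨n, rfl⟩
    exact h5
  obtain ⟨a, ha, h⟩ := h1 U hU S hS hd P hP le hle hPN H hH f hf e he (by
    intro n
    obtain ⟨h5, h6⟩ := pair_ap hs.1 (o0_mem_o0.2 (hec n))
    obtain ⟨b, hb, h7⟩ := mem_o0.1 (hX h6)
    refine ⟨b, (h3 b).2 hb, ?_⟩
    rw [(h4 (e n) (h4' e he n)).2, ← h7]
    exact h5)
  refine ⟨a, ha, GQD_sub hs (k := fun n => o0 (e n)) (fun z hz => ?_) fun n => ?_⟩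
  · obtain ⟨d, hd, rfl⟩ := mem_o0.1 hz
    have h5 : d ∈ Set.Iio c := hd
    rw [hce] at h5
    obtain ⟨n, rfl⟩ := h5
    exact ⟨n, rfl⟩
  · obtain ⟨b, hb, h8⟩ := h n
    rw [(h4 (e n) (h4' e he n)).2] at h8
    exact ⟨b, hb, h8⟩

theorem ev_omega1_H (hd : Distr (Set.univ : Set B)) :
    Ev (fun M => ∀ U : Set B, GenF Set.univ M U → ∀ S : Om → B, InM S M → DistQ S →
    ∀ P ∈ Nm M U, ∀ le ∈ Nm M U, IsPN M U S P le → ∀ H, Generic (Nm M U) P le H →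
    Omega1 (Ext (Nm M U) H) (o0 (del M))) := by
  refine ((((GQD_bdd B).and (ev_omega1 B hd)).and (ev_zf B)).and (isPN_forcing B)).mono ?_
  rintro M ⟨⟨⟨h1, h2⟩, h3⟩, h4⟩ U hU S hS hdS P hP le hle hPN H hH
  have hN := h3 U hU
  have hne := gen_nonempty (h4 U hU S hS P le hPN) hP hH
  have hO := h2 U hU
  have hin : ∀ x ∈ Nm M U, x ∈ Ext (Nm M U) H := fun x hx => mem_Ext_of_mem hN hP hH.sub hne hx
  refine ⟨⟨hin _ hN.omega, isOrdinal_omega, ?_⟩, ⟨hin _ hO.2.1.1, hO.2.1.2.1, ?_⟩, hO.2.2.1, ?_⟩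
  · intro a ha f hf hs
    obtain ⟨n, rfl⟩ := mem_omega.1 ha
    exact infinite_of_omega_subset (fun _ h => h) (onto_fin (N := Set.univ) ⟨f, Set.mem_univ _, hs⟩ (fin_nz n))
  · intro a ha f hf hs
    obtain ⟨c, hc, rfl⟩ := mem_o0.1 ha
    by_cases hc0 : ∃ d, d < c
    · obtain ⟨b, hb, hsub⟩ := h1 U hU S hS hdS P hP le hle hPN H hH f hf _ (fun _ h => h) c hc hc0 hs
      have h5 : o0 b ∈ o0 b := hsub (o0_mem_o0.2 hb)
      exact mem_irrefl _ h5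
    · obtain ⟨z, hz, -⟩ := hs.2 _ hO.2.2.1
      obtain ⟨d, hd, -⟩ := mem_o0.1 hz
      exact hc0 ⟨d, hd⟩
  · intro a ha hca
    exact hO.2.2.2 a ha (card_of_card_ext hN hP hH.sub hne hca)

end

end Pool.Agent.CAN
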