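import Pool.Agent.CAN.GQD
import Pool.Agent.FBZ.FH

/-!
# CAN/GQE: the club shooting poset kills the stationary set

Let `κ = o0 (del M)`, `C = {α ∈ κ | ∃ p ∈ H, α ∈ p}`; `C ∈ N[H]` by `build_one` (FBZ/FH) with `A = κ` and the set of all `pair α p`, `p ∈ P`, `α ∈ p`
(in `N`: separation from `prod κ P`).  `α ∈ C` iff `α = o0 a`, `a ∈ q.1.2.s` for some `q ∈ UH` (`ev_UH`).
* unbounded: for `a` in `M` the set `{q | ∃ b ∈ q.1.2.s, a < b}` is dense (`UnbQ S`) and in `M`.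
* closed: let `α = o0 a`, `a < del M`, `α ≠ ∅`, `C` unbounded below `α`.  Take `q ∈ UH` with an element `b ∈ q.1.2.s`, `a < b`.  For `β < a` there is `γ`, `β < γ < a`, `γ ∈ q'.1.2.s` for some
  `q' ∈ UH`; for a common extension `t` of `q`, `q'`: `γ ∈ t.1.2.s`, and if `γ ∉ q.1.2.s` then `b < γ` (end extension), but `γ < a < b`.  So `γ ∈ q.1.2.s`, and `a ∈ q.1.2.s` by `CB.closed`.
* disjoint from `S₀`: `α = o0 a`, `a ∈ q.1.2.s`, `q.1.1 ∈ U`, `q.1.1 ≤ goodV S q.1.2 ≤ (S a)ᶜ`, so `S a ∉ U`; and `IsV M U S S₀`.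
Now if `S₀` was stationary in `N[H]`, with `Omega1 (N[H]) κ'`, then `κ' = κ` (`omega1_unique`, `ev_omega1_H`), and `C` gives a contradiction.
-/

set_option autoImplicit false

namespace Pool.Agent.CAN
open ZFSet Pool.Agent.FBZ

theorem ev_kills (B : Type 1) [CompleteBooleanAlgebra B] (hd : Distr (Set.univ : Set B)) :
    Ev (fun M => ∀ U : Set B, GenF Set.univ M U → ∀ S : Om → B, InM S M → DistQ S → UnbQ S →
    ∀ P ∈ Nm M U, ∀ le ∈ Nm M U, IsPN M U S P le → ∀ S₀, IsV M U S S₀ → Kills (Nm M U) P le S₀) := by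
  refine ((((((ev_UH B).and (isPN_forcing B)).and ((ev_omega1_H B hd).and (ev_omega1 B hd))).and
    ((ev_zf B).and ev_del)).and
    (Ev.diag (T := Om → B) (p := fun S M => (∀ a : Om, InM a M → InM ({q : QQ S | ∃ b ∈ q.1.2.s, a < b} : Set (QQ S)) M) ∧
      ∀ q : QQ S, InM q M → InM q.1.2.s M)
      (fun S => (Ev.fn1 (fun a : Om => ({q : QQ S | ∃ b ∈ q.1.2.s, a < b} : Set (QQ S)))).and
        (Ev.fn1 (fun q : QQ S => q.1.2.s))))).and (Ev.ctbl Om)).mono ?_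
  rintro M ⟨⟨⟨⟨⟨hUH, hfo⟩, hoH, ho⟩, hzf, hdel⟩, hS⟩, hct⟩ U hU S hSM hDist hUnb P hP le hle hPN S₀ hS₀ H hH
  obtain ⟨hD, hs⟩ := hS S hSM
  obtain ⟨-, u2, u3, u4⟩ := hUH U hU S hSM P hP le hle hPN H hH
  have hN := hzf U hU
  have hκN : o0 (del M) ∈ Nm M U := (ho U hU).2.1.1
  have hΩ := hoH U hU S hSM hDist P hP le hle hPN H hH
  have hne := gen_nonempty (hfo U hU S hSM P le hPN) hP hH
  -- elements of conditions in the filter
  have hlt : ∀ q ∈ UH M U S H, ∀ b ∈ q.1.2.s, b < del M := fun q hq b hb =>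
    (hdel b).1 (hct _ (hs q hq.1) (CB.countable _) b hb)
  have hC' : (prod (o0 (del M)) P).sep (fun z => fs z ∈ sn z) ∈ Nm M U :=
    Pool.Agent.FBZ.sep_mem hN (Q := fun z => fs z ∈ sn z)
      (Dfn.mem hN (DT.fsT hN (DT.var hN 0)) (DT.snT hN (DT.var hN 0))) (prod_mem hN hκN hP)
  have hCE := build_one hN hP hH.sub hne hκN hC'
  set C := (o0 (del M)).sep (fun a => ∃ p ∈ H, pair a p ∈ (prod (o0 (del M)) P).sep (fun z => fs z ∈ sn z)) with hCdef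
  have hmem : ∀ α, α ∈ C ↔ ∃ a : Om, a < del M ∧ α = o0 a ∧ ∃ q ∈ UH M U S H, a ∈ q.1.2.s := by
    intro α
    rw [hCdef, mem_sep]
    constructor
    · rintro ⟨h1, p, hp, h2⟩
      obtain ⟨a, ha, rfl⟩ := mem_o0.1 h1
      rw [mem_sep, fs_pair, sn_pair] at h2
      obtain ⟨c, hc, hgood, rfl⟩ := (hPN.P p).1 (hH.sub hp)
      obtain ⟨q, hq, rfl⟩ := u4 c hc hp
      obtain ⟨a', ha', h3⟩ := (mem_s0 (CB.countable _)).1 h2.2
      rw [o0_inj] at h3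
      exact ⟨a, ha, rfl, q, hq, h3 ▸ ha'⟩
    · rintro ⟨a, ha, rfl, q, hq, haq⟩
      have h1 : o0 a ∈ o0 (del M) := o0_mem_o0.2 ha
      refine ⟨h1, s0 q.1.2.s, hq.2.2, ?_⟩
      rw [mem_sep, fs_pair, sn_pair]
      exact ⟨pair_mem_prod.2 ⟨h1, hH.sub hq.2.2⟩, (mem_s0 (CB.countable _)).2 ⟨a, haq, rfl⟩⟩
  have hunb : ∀ a, a < del M → ∃ q ∈ UH M U S H, ∃ b ∈ q.1.2.s, a < b := fun a ha =>
    u3 _ (hD a ((hdel a).2 ha)) (fun q => hUnb q a)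
  have hclub : Club (o0 (del M)) C := by
    refine ⟨fun α hα => (mem_sep.1 hα).1, ?_, ?_⟩
    · intro α hα
      obtain ⟨a, ha, rfl⟩ := mem_o0.1 hα
      obtain ⟨q, hq, b, hb, hab⟩ := hunb a ha
      exact ⟨o0 b, (hmem _).2 ⟨b, hlt q hq b hb, rfl, q, hq, hb⟩, o0_mem_o0.2 hab⟩
    · intro α hα h1 h2
      obtain ⟨a, ha, rfl⟩ := mem_o0.1 hα
      obtain ⟨q, hq, b, hb, hab⟩ := hunb a ha
      refine (hmem _).2 ⟨a, ha, rfl, q, hq, q.1.2.closed a ?_ ?_⟩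
      · obtain ⟨β, hβ⟩ := h1
        obtain ⟨b', hb', -⟩ := mem_o0.1 hβ
        exact ⟨b', hb'⟩
      · intro b' hb'
        obtain ⟨γ, hγ, h3, h4⟩ := h2 (o0 b') (o0_mem_o0.2 hb')
        obtain ⟨g, hg, rfl, q', hq', hgq⟩ := (hmem γ).1 hγ
        obtain ⟨t, ht, htq, htq'⟩ := u2 q hq q' hq'
        have h5 : g < a := o0_mem_o0.1 h3
        have h6 : b' < g := o0_mem_o0.1 h4
        refine ⟨g, ?_, h6, h5⟩
        by_contra h7
        have h8 : b < g := htq.2.2 g (htq'.2.1 hgq) h7 b hb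
        exact lt_irrefl _ (h8.trans (h5.trans hab))
  rintro ⟨κ', h1, -, h3⟩
  obtain rfl := omega1_unique h1 hΩ
  obtain ⟨α, hα, hαS⟩ := h3 C hCE hclub
  obtain ⟨a, ha, rfl, q, hq, haq⟩ := (hmem α).1 hα
  obtain ⟨a', -, h4, h5⟩ := (hS₀ _).1 hαS
  rw [o0_inj] at h5
  subst h5
  have h6 : q.1.1 ⊓ S a = ⊥ := by
    rw [eq_bot_iff]
    have h7 : q.1.1 ≤ (S a)ᶜ := q.2.2.trans (iInf_le (fun x : ↥q.1.2.s => (S x.1)ᶜ) ⟨a, haq⟩)
    refine (inf_le_inf_right _ h7).trans ?_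
    rw [compl_inf_self]
  exact hU.bot (h6 ▸ hU.inf _ hq.2.1 _ h4)

end Pool.Agent.CAN
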