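import Pool.Agent.CAN.GRP

/-!
# CAN/GRI: names for relations on countable ordinals and numbers

All from `rep_mk`, `rep_of` (GRP) with the index types `Om`, `Om × Om`, `Om × ℕ`, `Om × Om × ℕ × ℕ`, `Om × ℕ × ℚ`, `ULift.{1} ℕ`, `CB`,
`CB × CB`, and `J a = oz a`, `J (a, b) = pair (oz a) (oz b)`, `J (a, n) = pair (oz a) (nz n)`, … ; the values `col M (J i)` are computed by `ev_col_pair`,
`ev_col_oz`, `ev_col_nz`, `ev_col_sz` (the codes of the components of an element of the product in `M` are in `M` and conversely: `Ev.fn1` for the projections, `Ev.fn2` for the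
pairing; numbers and rationals are always in `M`: `Ev.nat`, `Ev.const` with `Ev.all_ctbl`).  Currying is a function `(Om → Om → B) → (Om × Om → B)`, so `M` is closed under it
and its inverse (`Ev.fn1`).
* `rep_CB`: for `P` take `x c = goodV S c`, for `le` take `x (c, c') = goodV S c ⊓ goodV S c'` if `c ≤ c'`, `⊥` otherwise (a function of `S`);
  `c.s` is countable since it is bounded (`Om.Iic_countable`); `M` is closed under `c ↦ c.s`.
-/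

set_option autoImplicit false

namespace Pool.Agent.CAN
open ZFSet Pool.Agent.FBZ

private def GRI_good (M : ZFSet.{1}) : Prop :=
  (∀ x ∈ M, ∀ y ∈ M, pair x y ∈ M ∧ col M (pair x y) = pair (col M x) (col M y)) ∧
  (∀ n : ℕ, nz n ∈ M ∧ col M (nz n) = nz n) ∧
  (∀ a : Om, InM a M → oz a ∈ M ∧ col M (oz a) = o0 a)

private theorem GRI_ev : Ev GRI_good :=
  ev_col_pair.and (ev_col_nz.and ev_col_oz)

section
variable (B : Type 1) [CompleteBooleanAlgebra B]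

theorem mk1 : Ev (fun M => ∀ U : Set B, GenF Set.univ M U → ∀ x : Om → B, InM x M → ∃ S ∈ Nm M U, IsV M U x S) := by
  refine ((rep_mk B (fun a : Om => oz a)).and ev_col_oz).mono ?_
  rintro M ⟨h1, h2⟩ U hU x hx
  obtain ⟨S, hS, hz⟩ := h1 U hU x hx
  refine ⟨S, hS, fun z => ?_⟩
  rw [hz]
  refine exists_congr fun a => and_congr_right fun ha => ?_
  rw [(h2 a ha).2]

theorem of1 : Ev (fun M => ∀ U : Set B, GenF Set.univ M U → ∀ S ∈ Nm M U, ∃ x : Om → B, InM x M ∧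
    ∀ a, InM a M → (x a ∈ U ↔ o0 a ∈ S)) := by
  refine ((rep_of B (fun a : Om => oz a)).and ev_col_oz).mono ?_
  rintro M ⟨h1, h2⟩ U hU S hS
  obtain ⟨x, hx, hz⟩ := h1 U hU S hS
  refine ⟨x, hx, fun a ha => ?_⟩
  rw [hz a ha, (h2 a ha).2]

theorem of2 : Ev (fun M => ∀ U : Set B, GenF Set.univ M U → ∀ S ∈ Nm M U, ∃ x : Om → Om → B, InM x M ∧
    ∀ a b, InM a M → InM b M → (x a b ∈ U ↔ pair (o0 a) (o0 b) ∈ S)) := by
  have e1 : Ev (fun M => ∀ x : Om × Om → B, InM x M → InM (fun a b : Om => x (a, b)) M) := Ev.fn1 _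
  have e2 : Ev (fun M => ∀ a b : Om, InM a M → InM b M → InM (a, b) M) := Ev.fn2 (fun a b : Om => (a, b))
  refine ((rep_of B (fun p : Om × Om => pair (oz p.1) (oz p.2))).and (e1.and (e2.and GRI_ev))).mono ?_
  rintro M ⟨h1, h3, h4, hp, hn, ho⟩ U hU S hS
  obtain ⟨x, hx, hz⟩ := h1 U hU S hS
  refine ⟨fun a b => x (a, b), h3 x hx, fun a b ha hb => ?_⟩
  rw [hz (a, b) (h4 a b ha hb)]
  change col M (pair (oz a) (oz b)) ∈ S ↔ _
  rw [(hp _ (ho a ha).1 _ (ho b hb).1).2, (ho a ha).2, (ho b hb).2]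

theorem mk1N : Ev (fun M => ∀ U : Set B, GenF Set.univ M U → ∀ x : Om → ℕ → B, InM x M → ∃ S ∈ Nm M U,
    ∀ z, z ∈ S ↔ ∃ a n, InM a M ∧ x a n ∈ U ∧ z = pair (o0 a) (nz n)) := by
  have e1 : Ev (fun M => ∀ x : Om → ℕ → B, InM x M → InM (fun p : Om × ℕ => x p.1 p.2) M) := Ev.fn1 _
  have e2 : Ev (fun M => ∀ (a : Om) (n : ℕ), InM a M → InM n M → InM (a, n) M) :=
    Ev.fn2 (fun (a : Om) (n : ℕ) => (a, n))
  have e3 : Ev (fun M => ∀ p : Om × ℕ, InM p M → InM p.1 M) := Ev.fn1 (fun p : Om × ℕ => p.1)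
  refine ((rep_mk B (fun p : Om × ℕ => pair (oz p.1) (nz p.2))).and (e1.and (e2.and (e3.and
    (Ev.nat.and GRI_ev))))).mono ?_
  rintro M ⟨h1, h3, h4, h5, h6, hp, hn, ho⟩ U hU x hx
  obtain ⟨S, hS, hz⟩ := h1 U hU _ (h3 x hx)
  refine ⟨S, hS, fun z => ?_⟩
  rw [hz]
  have hcol : ∀ (a : Om) (n : ℕ), InM a M → col M (pair (oz a) (nz n)) = pair (o0 a) (nz n) := by
    intro a n ha
    rw [(hp _ (ho a ha).1 _ (hn n).1).2, (ho a ha).2, (hn n).2]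
  constructor
  · rintro ⟨⟨a, n⟩, hi, hxU, rfl⟩
    exact ⟨a, n, h5 _ hi, hxU, hcol a n (h5 _ hi)⟩
  · rintro ⟨a, n, ha, hxU, rfl⟩
    exact ⟨(a, n), h4 a n ha (h6 n), hxU, (hcol a n ha).symm⟩

theorem of4 : Ev (fun M => ∀ U : Set B, GenF Set.univ M U → ∀ S ∈ Nm M U, ∃ x : Om → Om → ℕ → ℕ → B, InM x M ∧
    ∀ a b n m, InM a M → InM b M → (x a b n m ∈ U ↔ pair (pair (o0 a) (o0 b)) (pair (nz n) (nz m)) ∈ S)) := by
  have e1 : Ev (fun M => ∀ x : Om × Om × ℕ × ℕ → B, InM x M →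
      InM (fun (a b : Om) (n m : ℕ) => x (a, b, n, m)) M) := Ev.fn1 _
  have e2 : Ev (fun M => ∀ (a b : Om) (n m : ℕ), InM a M → InM b M → InM n M → InM m M → InM (a, b, n, m) M) :=
    Ev.fn4 (fun (a b : Om) (n m : ℕ) => (a, b, n, m))
  refine ((rep_of B (fun p : Om × Om × ℕ × ℕ => pair (pair (oz p.1) (oz p.2.1))
    (pair (nz p.2.2.1) (nz p.2.2.2)))).and (e1.and (e2.and (Ev.nat.and GRI_ev)))).mono ?_
  rintro M ⟨h1, h3, h4, h6, hp, hn, ho⟩ U hU S hS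
  obtain ⟨x, hx, hz⟩ := h1 U hU S hS
  refine ⟨fun a b n m => x (a, b, n, m), h3 x hx, fun a b n m ha hb => ?_⟩
  rw [hz (a, b, n, m) (h4 a b n m ha hb (h6 n) (h6 m))]
  change col M (pair (pair (oz a) (oz b)) (pair (nz n) (nz m))) ∈ S ↔ _
  rw [(hp _ (hp _ (ho a ha).1 _ (ho b hb).1).1 _ (hp _ (hn n).1 _ (hn m).1).1).2,
    (hp _ (ho a ha).1 _ (ho b hb).1).2, (hp _ (hn n).1 _ (hn m).1).2, (ho a ha).2, (ho b hb).2, (hn n).2,
    (hn m).2]

theorem mkQ : Ev (fun M => ∀ U : Set B, GenF Set.univ M U → ∀ x : Om → ℕ → ℚ → B, InM x M → ∃ S ∈ Nm M U,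
    ∀ z, z ∈ S ↔ ∃ a n q, InM a M ∧ x a n q ∈ U ∧ z = pair (pair (o0 a) (nz n)) (nz (Encodable.encode q))) := by
  have e1 : Ev (fun M => ∀ x : Om → ℕ → ℚ → B, InM x M →
      InM (fun p : Om × ℕ × ℚ => x p.1 p.2.1 p.2.2) M) := Ev.fn1 _
  have e2 : Ev (fun M => ∀ (a : Om) (n : ℕ) (q : ℚ), InM a M → InM n M → InM q M → InM (a, n, q) M) :=
    Ev.fn3 (fun (a : Om) (n : ℕ) (q : ℚ) => (a, n, q))
  have e3 : Ev (fun M => ∀ p : Om × ℕ × ℚ, InM p M → InM p.1 M) := Ev.fn1 (fun p : Om × ℕ × ℚ => p.1)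
  have e4 : Ev (fun M => ∀ q : ℚ, InM q M) := Ev.all_ctbl fun q => Ev.const q
  refine ((rep_mk B (fun p : Om × ℕ × ℚ => pair (pair (oz p.1) (nz p.2.1))
    (nz (Encodable.encode p.2.2)))).and (e1.and (e2.and (e3.and (e4.and
    (Ev.nat.and GRI_ev)))))).mono ?_
  rintro M ⟨h1, h3, h4, h5, h7, h6, hp, hn, ho⟩ U hU x hx
  obtain ⟨S, hS, hz⟩ := h1 U hU _ (h3 x hx)
  refine ⟨S, hS, fun z => ?_⟩
  rw [hz]
  have hcol : ∀ (a : Om) (n : ℕ) (q : ℚ), InM a M →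
      col M (pair (pair (oz a) (nz n)) (nz (Encodable.encode q))) =
        pair (pair (o0 a) (nz n)) (nz (Encodable.encode q)) := by
    intro a n q ha
    rw [(hp _ (hp _ (ho a ha).1 _ (hn n).1).1 _ (hn _).1).2, (hp _ (ho a ha).1 _ (hn n).1).2,
      (ho a ha).2, (hn n).2, (hn _).2]
  constructor
  · rintro ⟨⟨a, n, q⟩, hi, hxU, rfl⟩
    exact ⟨a, n, q, h5 _ hi, hxU, hcol a n q (h5 _ hi)⟩
  · rintro ⟨a, n, q, ha, hxU, rfl⟩
    exact ⟨(a, n, q), h4 a n q ha (h6 n) (h7 q), hxU, (hcol a n q ha).symm⟩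

theorem ofN : Ev (fun M => ∀ U : Set B, GenF Set.univ M U → ∀ S ∈ Nm M U, ∃ x : ℕ → B, InM x M ∧
    ∀ n, (x n ∈ U ↔ nz n ∈ S)) := by
  have e1 : Ev (fun M => ∀ x : ULift.{1} ℕ → B, InM x M → InM (fun n : ℕ => x ⟨n⟩) M) := Ev.fn1 _
  have e2 : Ev (fun M => ∀ n : ULift.{1} ℕ, InM n M) := Ev.all_ctbl fun n => Ev.const n
  refine ((rep_of B (fun n : ULift.{1} ℕ => nz n.down)).and (e1.and (e2.and ev_col_nz))).mono ?_
  rintro M ⟨h1, h3, h4, hn⟩ U hU S hS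
  obtain ⟨x, hx, hz⟩ := h1 U hU S hS
  refine ⟨fun n => x ⟨n⟩, h3 x hx, fun n => ?_⟩
  rw [hz ⟨n⟩ (h4 _)]
  change col M (nz n) ∈ S ↔ _
  rw [(hn n).2]

private theorem GRI_ctbl (c : CB) : c.s.Countable := by
  obtain ⟨a, ha⟩ := c.bdd
  exact (Om.Iic_countable a).mono fun b hb => ha b hb

theorem rep_CB : Ev (fun M => ∀ U : Set B, GenF Set.univ M U → ∀ S : Om → B, InM S M →
    ∃ P ∈ Nm M U, ∃ le ∈ Nm M U, IsPN M U S P le) := by
  classical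
  have e1 : Ev (fun M => ∀ S : Om → B, InM S M → InM (fun c : CB => goodV S c) M) := Ev.fn1 _
  have e2 : Ev (fun M => ∀ S : Om → B, InM S M →
      InM (fun p : CB × CB => if p.1 ≤ p.2 then goodV S p.1 ⊓ goodV S p.2 else ⊥) M) := Ev.fn1 _
  have e3 : Ev (fun M => ∀ c : CB, InM c M → InM c.s M) := Ev.fn1 (fun c : CB => c.s)
  have e4 : Ev (fun M => ∀ (S : Om → B) (c : CB), InM S M → InM c M → InM (goodV S c) M) :=
    Ev.fn2 (fun (S : Om → B) (c : CB) => goodV S c)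
  have e5 : Ev (fun M => ∀ c c' : CB, InM c M → InM c' M → InM (c, c') M) := Ev.fn2 (fun c c' : CB => (c, c'))
  have e6 : Ev (fun M => ∀ p : CB × CB, InM p M → InM p.1 M) := Ev.fn1 (fun p : CB × CB => p.1)
  have e7 : Ev (fun M => ∀ p : CB × CB, InM p M → InM p.2 M) := Ev.fn1 (fun p : CB × CB => p.2)
  refine ((rep_mk B (fun c : CB => sz c.s)).and ((rep_mk B (fun p : CB × CB => pair (sz p.1.s) (sz p.2.s))).and
    (e1.and (e2.and (e3.and (e4.and (e5.and (e6.and (e7.and ((ev_bool (B := B)).and (ev_col_sz.and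
      ev_col_pair))))))))))).mono ?_
  rintro M ⟨r1, r2, h1, h2, h3, h4, h5, h6, h7, hb, hs, hp⟩ U hU S hSM
  obtain ⟨P, hP, hPz⟩ := r1 U hU _ (h1 S hSM)
  obtain ⟨le, hle, hlez⟩ := r2 U hU _ (h2 S hSM)
  have hcs : ∀ c : CB, InM c M → sz c.s ∈ M ∧ col M (sz c.s) = s0 c.s := fun c hc =>
    hs c.s (h3 c hc) (GRI_ctbl c)
  refine ⟨P, hP, le, hle, ⟨fun z => ?_, fun z => ?_⟩⟩
  · rw [hPz]
    refine exists_congr fun c => and_congr_right fun hc => ?_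
    rw [(hcs c hc).2]
  · rw [hlez]
    have hcol : ∀ c c' : CB, InM c M → InM c' M → col M (pair (sz c.s) (sz c'.s)) = pair (s0 c.s) (s0 c'.s) := by
      intro c c' hc hc'
      rw [(hp _ (hcs c hc).1 _ (hcs c' hc').1).2, (hcs c hc).2, (hcs c' hc').2]
    constructor
    · rintro ⟨⟨c, c'⟩, hi, hxU, rfl⟩
      have hc := h6 _ hi
      have hc' := h7 _ hi
      have h8 : (if c ≤ c' then goodV S c ⊓ goodV S c' else ⊥) ∈ U := hxU
      split_ifs at h8 with hcc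
      · have h9 := ((hb U hU).2 _ _ (h4 S c hSM hc) (h4 S c' hSM hc')).2.1.1 h8
        exact ⟨c, c', hc, hc', h9.1, h9.2, hcc, hcol c c' hc hc'⟩
      · exact absurd h8 hU.bot
    · rintro ⟨c, c', hc, hc', hcU, hcU', hcc, rfl⟩
      refine ⟨(c, c'), h5 c c' hc hc', ?_, (hcol c c' hc hc').symm⟩
      change (if c ≤ c' then goodV S c ⊓ goodV S c' else ⊥) ∈ U
      rw [if_pos hcc]
      exact hU.inf _ hcU _ hcU'

end

/-- Ground model relations `h : Om → Om → ℕ` (as sets of triples) are in the model. -/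
theorem ev_groundh (B : Type 1) [CompleteBooleanAlgebra B] (h : Om → Om → ℕ) :
    Ev (fun M => ∀ U : Set B, GenF Set.univ M U → ∃ S ∈ Nm M U,
      ∀ z, z ∈ S ↔ ∃ a b, InM a M ∧ InM b M ∧ z = pair (pair (o0 a) (o0 b)) (nz (h a b))) := by
  have e1 : Ev (fun M => InM (fun _ : Om × Om => (⊤ : B)) M) := Ev.const _
  have e2 : Ev (fun M => ∀ a b : Om, InM a M → InM b M → InM (a, b) M) := Ev.fn2 (fun a b : Om => (a, b))
  have e3 : Ev (fun M => ∀ p : Om × Om, InM p M → InM p.1 M) := Ev.fn1 (fun p : Om × Om => p.1)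
  have e4 : Ev (fun M => ∀ p : Om × Om, InM p M → InM p.2 M) := Ev.fn1 (fun p : Om × Om => p.2)
  refine ((rep_mk B (fun p : Om × Om => pair (pair (oz p.1) (oz p.2)) (nz (h p.1 p.2)))).and
    (e1.and (e2.and (e3.and (e4.and ((ev_bool (B := B)).and GRI_ev)))))).mono ?_
  rintro M ⟨r1, h1, h2, h3, h4, hb, hp, hn, ho⟩ U hU
  obtain ⟨S, hS, hz⟩ := r1 U hU _ h1
  refine ⟨S, hS, fun z => ?_⟩
  rw [hz]
  have hcol : ∀ a b : Om, InM a M → InM b M →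
      col M (pair (pair (oz a) (oz b)) (nz (h a b))) = pair (pair (o0 a) (o0 b)) (nz (h a b)) := by
    intro a b ha hb
    rw [(hp _ (hp _ (ho a ha).1 _ (ho b hb).1).1 _ (hn _).1).2, (hp _ (ho a ha).1 _ (ho b hb).1).2,
      (ho a ha).2, (ho b hb).2, (hn _).2]
  constructor
  · rintro ⟨⟨a, b⟩, hi, -, rfl⟩
    exact ⟨a, b, h3 _ hi, h4 _ hi, hcol a b (h3 _ hi) (h4 _ hi)⟩
  · rintro ⟨a, b, ha, hb', rfl⟩
    exact ⟨(a, b), h2 a b ha hb', (hb U hU).1, (hcol a b ha hb').symm⟩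

/-- Ground model functions `ℕ → ℕ → ℕ → ℕ` are in the model. -/
theorem ev_groundc (B : Type 1) [CompleteBooleanAlgebra B] (h : ℕ → ℕ → ℕ → ℕ) :
    Ev (fun M => ∀ U : Set B, GenF Set.univ M U → ∃ S ∈ Nm M U,
      ∀ z, z ∈ S ↔ ∃ i j k, z = pair (pair (nz i) (pair (nz j) (nz k))) (nz (h i j k))) := by
  have e1 : Ev (fun M => InM (fun _ : ULift.{1} (ℕ × ℕ × ℕ) => (⊤ : B)) M) := Ev.const _
  have e2 : Ev (fun M => ∀ p : ULift.{1} (ℕ × ℕ × ℕ), InM p M) := Ev.all_ctbl fun p => Ev.const p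
  refine ((rep_mk B (fun p : ULift.{1} (ℕ × ℕ × ℕ) => pair (pair (nz p.down.1) (pair (nz p.down.2.1)
    (nz p.down.2.2))) (nz (h p.down.1 p.down.2.1 p.down.2.2)))).and
    (e1.and (e2.and ((ev_bool (B := B)).and GRI_ev)))).mono ?_
  rintro M ⟨r1, h1, h2, hb, hp, hn, ho⟩ U hU
  obtain ⟨S, hS, hz⟩ := r1 U hU _ h1
  refine ⟨S, hS, fun z => ?_⟩
  rw [hz]
  have hcol : ∀ i j k : ℕ, col M (pair (pair (nz i) (pair (nz j) (nz k))) (nz (h i j k))) =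
      pair (pair (nz i) (pair (nz j) (nz k))) (nz (h i j k)) := by
    intro i j k
    have h3 := hp _ (hn j).1 _ (hn k).1
    have h4 := hp _ (hn i).1 _ h3.1
    rw [(hp _ h4.1 _ (hn _).1).2, h4.2, h3.2, (hn i).2, (hn j).2, (hn k).2, (hn _).2]
  constructor
  · rintro ⟨⟨i, j, k⟩, -, -, rfl⟩
    exact ⟨i, j, k, hcol i j k⟩
  · rintro ⟨i, j, k, rfl⟩
    exact ⟨⟨(i, j, k)⟩, h2 _, (hb U hU).1, (hcol i j k).symm⟩

end Pool.Agent.CAN
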