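import Pool.Agent.CAN.GZR

/-!
# CAN/GRP: subsets of ground model sets

Let `I : Type 1` and let `J : I → ZFSet.{1}` be any function (the ground model set of the `J i`).
* `rep_mk`: for a name `x : I → B` in `M` the set of all `col M (J i)` with `InM i M`, `x i ∈ U`, is in the model: for fixed `x` it is the value
  of the name with the elements `chk B (J i)` with value `x i`: `ZFSet.range (fun i : I => pair (chk B (J i)) (cd (x i)))`: by `mem_vl` its value
  consists of the `vl M U (chk B (J i)) = col M (J i)` for which `chk B (J i) ∈ M`, `x i ∈ U`; given such `i` (perhaps not in `M`) there is `i' ∈ M` with `J i' = J i`, and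
  `cd (x i') = cd (x i)`: witness rule `Ev.wit2` for the relation `ρ w b i ↔ w = chk B (J i) ∧ b = x i`.  For all
  `x` in `M`: `Ev.diag`.
* `rep_of`: for `S = vl M U s`, `s ∈ M`, let `x i = bmem B (chk B (J i)) s`: `InM x M` (`Ev.fn1` for the function `s ↦ x`) and
  `x i ∈ U ↔ vl (chk B (J i)) ∈ vl s ↔ col M (J i) ∈ S` for `InM i M` (`chk B (J i) ∈ M` by `Ev.fn1`).
-/

set_option autoImplicit false

namespace Pool.Agent.CAN
open ZFSet Pool.Agent.FBZ

private noncomputable def grpName {B : Type 1} [CompleteBooleanAlgebra B] {I : Type 1} (J : I → ZFSet.{1})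
    (x : I → B) : ZFSet.{1} :=
  ZFSet.range (fun i : I => pair (chk B (J i)) (cd (x i)))

private theorem mem_grpName {B : Type 1} [CompleteBooleanAlgebra B] {I : Type 1} {J : I → ZFSet.{1}}
    {x : I → B} {y : ZFSet.{1}} {b : B} :
    pair y (cd b) ∈ grpName J x ↔ ∃ i, y = chk B (J i) ∧ b = x i := by
  unfold grpName
  rw [ZFSet.mem_range]
  constructor
  · rintro ⟨i, hi⟩
    obtain ⟨h1, h2⟩ := pair_inj.1 hi
    exact ⟨i, h1.symm, (Cod.inj h2).symm⟩
  · rintro ⟨i, rfl, rfl⟩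
    exact ⟨i, rfl⟩

theorem rep_mk (B : Type 1) [CompleteBooleanAlgebra B] {I : Type 1} (J : I → ZFSet.{1}) :
    Ev (fun M => ∀ U : Set B, GenF Set.univ M U → ∀ x : I → B, InM x M →
      ∃ S ∈ Nm M U, ∀ z, z ∈ S ↔ ∃ i, InM i M ∧ x i ∈ U ∧ z = col M (J i)) := by
  have hd : Ev (fun M => ∀ x : I → B, InM x M → ∀ (w : ZFSet.{1}) (b : B), InM w M → InM b M →
      (∃ i : I, w = chk B (J i) ∧ b = x i) → ∃ i : I, InM i M ∧ w = chk B (J i) ∧ b = x i) :=
    Ev.diag fun x => Ev.wit2 (fun (w : ZFSet.{1}) (b : B) (i : I) => w = chk B (J i) ∧ b = x i)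
  have hn := Ev.fn1 (S := I → B) (Z := ZFSet.{1}) (fun x => grpName J x)
  have hj := Ev.fn1 (S := I) (Z := ZFSet.{1}) (fun i => chk B (J i))
  refine ((((ev_ctbl0.and (ev_chk B)).and hd).and hn).and hj).mono ?_
  rintro M ⟨⟨⟨⟨h0, hck⟩, hd⟩, hn⟩, hj⟩ U hU x hx
  refine ⟨vl M U (grpName J x), ⟨_, hn x hx, rfl⟩, fun z => ?_⟩
  rw [mem_vl h0.1 h0.2]
  constructor
  · rintro ⟨y, hy, b, hb, hp, rfl⟩
    obtain ⟨i, hi, hyi, hbi⟩ := hd x hx y b hy (hU.sub b hb).2 (mem_grpName.1 hp)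
    refine ⟨i, hi, hbi ▸ hb, ?_⟩
    rw [hyi, hck U hU]
  · rintro ⟨i, hi, hxi, rfl⟩
    exact ⟨chk B (J i), hj i hi, x i, hxi, mem_grpName.2 ⟨i, rfl, rfl⟩, (hck U hU _).symm⟩

theorem rep_of (B : Type 1) [CompleteBooleanAlgebra B] {I : Type 1} (J : I → ZFSet.{1}) :
    Ev (fun M => ∀ U : Set B, GenF Set.univ M U → ∀ S ∈ Nm M U, ∃ x : I → B, InM x M ∧
      ∀ i, InM i M → (x i ∈ U ↔ col M (J i) ∈ S)) := by
  have hn := Ev.fn1 (S := ZFSet.{1}) (Z := I → B) (fun s i => bmem B (chk B (J i)) s)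
  have hj := Ev.fn1 (S := I) (Z := ZFSet.{1}) (fun i => chk B (J i))
  refine ((((ev_bmem B).and (ev_chk B)).and hn).and hj).mono ?_
  rintro M ⟨⟨⟨hb, hck⟩, hn⟩, hj⟩ U hU S hS
  obtain ⟨s, hs, rfl⟩ := hS
  refine ⟨_, hn s hs, fun i hi => ?_⟩
  rw [← hck U hU (J i)]
  exact (hb U hU s hs _ (hj i hi)).symm

/-- Ground model sets are in the model. -/
theorem ev_ground (B : Type 1) [CompleteBooleanAlgebra B] :
    Ev (fun M => ∀ U : Set B, GenF Set.univ M U → ∀ x ∈ M, col M x ∈ Nm M U) := by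
  refine ((ev_chk B).and (ev_chk_mem B)).mono ?_
  rintro M ⟨hck, hm⟩ U hU x hx
  exact ⟨chk B x, (hm x).1 hx, (hck U hU x).symm⟩

end Pool.Agent.CAN
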