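import Pool.Agent.CAN.GHT
import Pool.Agent.CAN.GCK
import Pool.Agent.FBZ.DE2

/-!
# CAN/GSPa: the colouring relation is in the model

Everything is in a transitive model `N` of ZF (ZFSet.{0}).  `δ : Om`; the sets `E, C₀, R₀, F₀, h₀, c₀ ∈ N` describe the Lean objects `en, C, R, F, h, code` below `δ`.
Define `Q` by separation from `prod T ω` (definability calculus of FBZ: `sep_mem`, `Dfn.bex`, `Dfn.ball`, `DT.pairT`, `DT.insertT`, …) with the formula, for `z = pair t c`: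
`∃ α ∈ o0 δ, ∃ n ∈ ω, ∃ k ∈ ω, ∃ q ∈ ω, pair (pair α n) t ∈ E ∧ (∀ n' ∈ n, pair (pair α n') t ∉ E) ∧`
`[∃ γ ∈ C₀, α ∈ γ ∧ (∀ γ' ∈ C₀, α ∈ γ' → γ ⊆ γ') ∧ pair (pair γ α) k ∈ h₀] ∧`
`[(q = ∅ ∧ ∀ γ ∈ C₀, α ∈ γ) ∨ ∃ γ ∈ C₀, γ ⊆ α ∧ (∀ γ' ∈ C₀, γ' ⊆ α → γ' ⊆ γ) ∧ ∃ m ∈ ω, ∃ r ∈ ω, pair (pair γ α) (pair n m) ∈ R₀ ∧ pair (pair γ m) r ∈ F₀ ∧ q = insert r r] ∧`
`pair (pair n (pair k q)) c ∈ c₀`.
Translate with `mem_o0`, `o0_inj`, `o0_mem_o0`, `mem_omega`, `nz_inj`, `nz_mem_nz` (FBZ/DE1), `o0 a ⊆ o0 b ↔ a ≤ b`, `nz (r+1) = insert (nz r) (nz r)`.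
-/

set_option autoImplicit false

namespace Pool.Agent.CAN
open ZFSet Pool.Agent.FBZ

private def GSPa_P1 (C₀ h₀ α κ : ZFSet.{0}) : Prop :=
  ∃ γ ∈ C₀, α ∈ γ ∧ (∀ γ' ∈ C₀, α ∈ γ' → γ' ∉ γ) ∧ pair (pair γ α) κ ∈ h₀

private def GSPa_P2 (C₀ R₀ F₀ α ν q : ZFSet.{0}) : Prop :=
  (q = ∅ ∧ ∀ γ ∈ C₀, α ∈ γ) ∨ ∃ γ ∈ C₀, α ∉ γ ∧ (∀ γ' ∈ C₀, α ∉ γ' → γ ∉ γ') ∧
    ∃ m ∈ ZFSet.omega, ∃ r ∈ ZFSet.omega, pair (pair γ α) (pair ν m) ∈ R₀ ∧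
      pair (pair γ m) r ∈ F₀ ∧ q = insert r r

private def GSPa_P (D T E C₀ R₀ F₀ h₀ c₀ z : ZFSet.{0}) : Prop :=
  ∃ α ∈ D, ∃ ν ∈ ZFSet.omega, ∃ κ ∈ ZFSet.omega, ∃ q ∈ ZFSet.omega, ∃ t ∈ T, ∃ c ∈ ZFSet.omega,
    z = pair t c ∧ pair (pair α ν) t ∈ E ∧ (∀ ν' ∈ ν, pair (pair α ν') t ∉ E) ∧
    GSPa_P1 C₀ h₀ α κ ∧ GSPa_P2 C₀ R₀ F₀ α ν q ∧ pair (pair ν (pair κ q)) c ∈ c₀

section
variable {N : Set ZFSet.{0}}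

private theorem GSPa_d1 (hN : ZF N) {C₀ h₀ : ZFSet.{0}} (hC : C₀ ∈ N) (hh : h₀ ∈ N) :
    Dfn N (fun v => GSPa_P1 C₀ h₀ (v 0) (v 1)) := by
  refine Dfn.bex hN (Q := fun v γ => v 0 ∈ γ ∧ (∀ γ' ∈ C₀, v 0 ∈ γ' → γ' ∉ γ) ∧
    pair (pair γ (v 0)) (v 1) ∈ h₀) (DT.cst hN hC) ?_
  refine Dfn.and (Dfn.mem hN (DT.var hN 1) (DT.var hN 0)) (Dfn.and ?_ ?_)
  · refine Dfn.ball hN (Q := fun v γ' => v 1 ∈ γ' → γ' ∉ v 0) (DT.cst hN hC) ?_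
    exact Dfn.imp (Dfn.mem hN (DT.var hN 2) (DT.var hN 0))
      (Dfn.not (Dfn.mem hN (DT.var hN 0) (DT.var hN 1)))
  · exact Dfn.mem hN (DT.pairT hN (DT.pairT hN (DT.var hN 0) (DT.var hN 1)) (DT.var hN 2))
      (DT.cst hN hh)

private theorem GSPa_d2 (hN : ZF N) {C₀ R₀ F₀ : ZFSet.{0}} (hC : C₀ ∈ N) (hR : R₀ ∈ N) (hF : F₀ ∈ N) :
    Dfn N (fun v => GSPa_P2 C₀ R₀ F₀ (v 0) (v 1) (v 2)) := by
  refine Dfn.or (Dfn.and (Dfn.eq hN (DT.var hN 2) (DT.empty hN)) ?_) ?_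
  · refine Dfn.ball hN (Q := fun v γ => v 0 ∈ γ) (DT.cst hN hC) ?_
    exact Dfn.mem hN (DT.var hN 1) (DT.var hN 0)
  · refine Dfn.bex hN (Q := fun v γ => v 0 ∉ γ ∧ (∀ γ' ∈ C₀, v 0 ∉ γ' → γ ∉ γ') ∧
      ∃ m ∈ ZFSet.omega, ∃ r ∈ ZFSet.omega, pair (pair γ (v 0)) (pair (v 1) m) ∈ R₀ ∧
      pair (pair γ m) r ∈ F₀ ∧ v 2 = insert r r) (DT.cst hN hC) ?_
    refine Dfn.and (Dfn.not (Dfn.mem hN (DT.var hN 1) (DT.var hN 0))) (Dfn.and ?_ ?_)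
    · refine Dfn.ball hN (Q := fun v γ' => v 1 ∉ γ' → v 0 ∉ γ') (DT.cst hN hC) ?_
      exact Dfn.imp (Dfn.not (Dfn.mem hN (DT.var hN 2) (DT.var hN 0)))
        (Dfn.not (Dfn.mem hN (DT.var hN 1) (DT.var hN 0)))
    · refine Dfn.bex hN (Q := fun v m => ∃ r ∈ ZFSet.omega, pair (pair (v 0) (v 1)) (pair (v 2) m) ∈ R₀ ∧
        pair (pair (v 0) m) r ∈ F₀ ∧ v 3 = insert r r) (DT.omegaT hN) ?_
      refine Dfn.bex hN (Q := fun v r => pair (pair (v 1) (v 2)) (pair (v 3) (v 0)) ∈ R₀ ∧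
        pair (pair (v 1) (v 0)) r ∈ F₀ ∧ v 4 = insert r r) (DT.omegaT hN) ?_
      refine Dfn.and ?_ (Dfn.and ?_ ?_)
      · exact Dfn.mem hN (DT.pairT hN (DT.pairT hN (DT.var hN 2) (DT.var hN 3))
          (DT.pairT hN (DT.var hN 4) (DT.var hN 1))) (DT.cst hN hR)
      · exact Dfn.mem hN (DT.pairT hN (DT.pairT hN (DT.var hN 2) (DT.var hN 1)) (DT.var hN 0))
          (DT.cst hN hF)
      · exact Dfn.eq hN (DT.var hN 5) (DT.insertT hN (DT.var hN 0) (DT.var hN 0))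

private theorem GSPa_d (hN : ZF N) {D T E C₀ R₀ F₀ h₀ c₀ : ZFSet.{0}} (hD : D ∈ N) (hT : T ∈ N)
    (hE : E ∈ N) (hC : C₀ ∈ N) (hR : R₀ ∈ N) (hF : F₀ ∈ N) (hh : h₀ ∈ N) (hc : c₀ ∈ N) :
    Dfn N (fun v => GSPa_P D T E C₀ R₀ F₀ h₀ c₀ (v 0)) := by
  refine Dfn.bex hN (Q := fun v α => ∃ ν ∈ ZFSet.omega, ∃ κ ∈ ZFSet.omega, ∃ q ∈ ZFSet.omega,
    ∃ t ∈ T, ∃ c ∈ ZFSet.omega,
    v 0 = pair t c ∧ pair (pair α ν) t ∈ E ∧ (∀ ν' ∈ ν, pair (pair α ν') t ∉ E) ∧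
    GSPa_P1 C₀ h₀ α κ ∧ GSPa_P2 C₀ R₀ F₀ α ν q ∧ pair (pair ν (pair κ q)) c ∈ c₀) (DT.cst hN hD) ?_
  refine Dfn.bex hN (Q := fun v ν => ∃ κ ∈ ZFSet.omega, ∃ q ∈ ZFSet.omega,
    ∃ t ∈ T, ∃ c ∈ ZFSet.omega,
    v 1 = pair t c ∧ pair (pair (v 0) ν) t ∈ E ∧ (∀ ν' ∈ ν, pair (pair (v 0) ν') t ∉ E) ∧
    GSPa_P1 C₀ h₀ (v 0) κ ∧ GSPa_P2 C₀ R₀ F₀ (v 0) ν q ∧ pair (pair ν (pair κ q)) c ∈ c₀)
    (DT.omegaT hN) ?_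
  refine Dfn.bex hN (Q := fun v κ => ∃ q ∈ ZFSet.omega, ∃ t ∈ T, ∃ c ∈ ZFSet.omega,
    v 2 = pair t c ∧ pair (pair (v 1) (v 0)) t ∈ E ∧ (∀ ν' ∈ v 0, pair (pair (v 1) ν') t ∉ E) ∧
    GSPa_P1 C₀ h₀ (v 1) κ ∧ GSPa_P2 C₀ R₀ F₀ (v 1) (v 0) q ∧ pair (pair (v 0) (pair κ q)) c ∈ c₀)
    (DT.omegaT hN) ?_
  refine Dfn.bex hN (Q := fun v q => ∃ t ∈ T, ∃ c ∈ ZFSet.omega,
    v 3 = pair t c ∧ pair (pair (v 2) (v 1)) t ∈ E ∧ (∀ ν' ∈ v 1, pair (pair (v 2) ν') t ∉ E) ∧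
    GSPa_P1 C₀ h₀ (v 2) (v 0) ∧ GSPa_P2 C₀ R₀ F₀ (v 2) (v 1) q ∧
    pair (pair (v 1) (pair (v 0) q)) c ∈ c₀) (DT.omegaT hN) ?_
  refine Dfn.bex hN (Q := fun v t => ∃ c ∈ ZFSet.omega,
    v 4 = pair t c ∧ pair (pair (v 3) (v 2)) t ∈ E ∧ (∀ ν' ∈ v 2, pair (pair (v 3) ν') t ∉ E) ∧
    GSPa_P1 C₀ h₀ (v 3) (v 1) ∧ GSPa_P2 C₀ R₀ F₀ (v 3) (v 2) (v 0) ∧
    pair (pair (v 2) (pair (v 1) (v 0))) c ∈ c₀) (DT.cst hN hT) ?_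
  refine Dfn.bex hN (Q := fun v c =>
    v 5 = pair (v 0) c ∧ pair (pair (v 4) (v 3)) (v 0) ∈ E ∧ (∀ ν' ∈ v 3, pair (pair (v 4) ν') (v 0) ∉ E) ∧
    GSPa_P1 C₀ h₀ (v 4) (v 2) ∧ GSPa_P2 C₀ R₀ F₀ (v 4) (v 3) (v 1) ∧
    pair (pair (v 3) (pair (v 2) (v 1))) c ∈ c₀) (DT.omegaT hN) ?_
  refine Dfn.and ?_ (Dfn.and ?_ (Dfn.and ?_ (Dfn.and ?_ (Dfn.and ?_ ?_))))
  · exact Dfn.eq hN (DT.var hN 6) (DT.pairT hN (DT.var hN 1) (DT.var hN 0))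
  · exact Dfn.mem hN (DT.pairT hN (DT.pairT hN (DT.var hN 5) (DT.var hN 4)) (DT.var hN 1))
      (DT.cst hN hE)
  · refine Dfn.ball hN (Q := fun v ν' => pair (pair (v 5) ν') (v 1) ∉ E) (DT.var hN 4) ?_
    exact Dfn.not (Dfn.mem hN (DT.pairT hN (DT.pairT hN (DT.var hN 6) (DT.var hN 0)) (DT.var hN 2))
      (DT.cst hN hE))
  · exact Dfn.app2 hN (P := GSPa_P1 C₀ h₀) (GSPa_d1 hN hC hh) (DT.var hN 5) (DT.var hN 3)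
  · exact Dfn.app3 hN (P := GSPa_P2 C₀ R₀ F₀) (GSPa_d2 hN hC hR hF) (DT.var hN 5) (DT.var hN 4)
      (DT.var hN 2)
  · exact Dfn.mem hN (DT.pairT hN (DT.pairT hN (DT.var hN 4) (DT.pairT hN (DT.var hN 3) (DT.var hN 2)))
      (DT.var hN 0)) (DT.cst hN hc)

end

private theorem GSPa_pair {a b c d : ZFSet.{0}} : pair a b = pair c d ↔ a = c ∧ b = d :=
  ⟨fun h => pair_injective h, fun h => by rw [h.1, h.2]⟩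

theorem colour_mem {N : Set ZFSet.{0}} (hN : ZF N) (δ : Om) (hδ : o0 δ ∈ N) (T : ZFSet.{0}) (hT : T ∈ N)
    (en : Om → ℕ → ZFSet.{0}) (hen : ∀ a, a < δ → ∀ n, en a n ∈ T)
    (C : Om → Prop) (R : Om → Om → ℕ → ℕ → Prop) (F : Om → ℕ → ℕ → Prop) (h : Om → Om → ℕ)
    (code : ℕ → ℕ → ℕ → ℕ) (hC : ∀ a, C a → a < δ)
    (hE : ∃ E ∈ N, ∀ z, z ∈ E ↔ ∃ a n, a < δ ∧ z = pair (pair (o0 a) (nz n)) (en a n))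
    (hC0 : ∃ C₀ ∈ N, ∀ z, z ∈ C₀ ↔ ∃ a, C a ∧ z = o0 a)
    (hR0 : ∃ R₀ ∈ N, ∀ z, z ∈ R₀ ↔ ∃ a b n m, a < δ ∧ b < δ ∧ R a b n m ∧
      z = pair (pair (o0 a) (o0 b)) (pair (nz n) (nz m)))
    (hF0 : ∃ F₀ ∈ N, ∀ z, z ∈ F₀ ↔ ∃ a n q, a < δ ∧ F a n q ∧ z = pair (pair (o0 a) (nz n)) (nz q))
    (hh0 : ∃ h₀ ∈ N, ∀ z, z ∈ h₀ ↔ ∃ a b, a < δ ∧ b < δ ∧ z = pair (pair (o0 a) (o0 b)) (nz (h a b)))
    (hc0 : ∃ c₀ ∈ N, ∀ z, z ∈ c₀ ↔ ∃ i j k, z = pair (pair (nz i) (pair (nz j) (nz k))) (nz (code i j k))) :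
    ∃ Q ∈ N, ∀ z, z ∈ Q ↔ ∃ a n k q, a < δ ∧ (∀ n' < n, en a n' ≠ en a n) ∧ NextC δ C h a k ∧
      QPart δ C R F a n q ∧ z = pair (en a n) (nz (code n k q)) := by
  obtain ⟨E, hEN, hE⟩ := hE
  obtain ⟨C₀, hC0N, hC0⟩ := hC0
  obtain ⟨R₀, hR0N, hR0⟩ := hR0
  obtain ⟨F₀, hF0N, hF0⟩ := hF0
  obtain ⟨h₀, hh0N, hh0⟩ := hh0
  obtain ⟨c₀, hc0N, hc0⟩ := hc0
  have mE : ∀ a n t, pair (pair (o0 a) (nz n)) t ∈ E ↔ a < δ ∧ t = en a n := by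
    intro a n t
    rw [hE]
    constructor
    · rintro ⟨a', n', h1, h2⟩
      obtain ⟨h3, h4⟩ := GSPa_pair.1 h2
      obtain ⟨h5, h6⟩ := GSPa_pair.1 h3
      rw [o0_inj.1 h5, nz_inj.1 h6]
      exact ⟨h1, h4⟩
    · rintro ⟨h1, rfl⟩
      exact ⟨a, n, h1, rfl⟩
  have mh : ∀ g a k, g < δ → a < δ → (pair (pair (o0 g) (o0 a)) (nz k) ∈ h₀ ↔ k = h g a) := by
    intro g a k hg ha
    rw [hh0]
    constructor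
    · rintro ⟨a', b', -, -, h2⟩
      obtain ⟨h3, h4⟩ := GSPa_pair.1 h2
      obtain ⟨h5, h6⟩ := GSPa_pair.1 h3
      rw [nz_inj.1 h4, o0_inj.1 h5, o0_inj.1 h6]
    · rintro rfl
      exact ⟨g, a, hg, ha, rfl⟩
  have mR : ∀ g a n m, g < δ → a < δ → (pair (pair (o0 g) (o0 a)) (pair (nz n) (nz m)) ∈ R₀ ↔ R g a n m) := by
    intro g a n m hg ha
    rw [hR0]
    constructor
    · rintro ⟨a', b', n', m', -, -, h1, h2⟩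
      obtain ⟨h3, h4⟩ := GSPa_pair.1 h2
      obtain ⟨h5, h6⟩ := GSPa_pair.1 h3
      obtain ⟨h7, h8⟩ := GSPa_pair.1 h4
      rw [o0_inj.1 h5, o0_inj.1 h6, nz_inj.1 h7, nz_inj.1 h8]
      exact h1
    · intro h1
      exact ⟨g, a, n, m, hg, ha, h1, rfl⟩
  have mF : ∀ g n q, g < δ → (pair (pair (o0 g) (nz n)) (nz q) ∈ F₀ ↔ F g n q) := by
    intro g n q hg
    rw [hF0]
    constructor
    · rintro ⟨a', n', q', -, h1, h2⟩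
      obtain ⟨h3, h4⟩ := GSPa_pair.1 h2
      obtain ⟨h5, h6⟩ := GSPa_pair.1 h3
      rw [o0_inj.1 h5, nz_inj.1 h6, nz_inj.1 h4]
      exact h1
    · intro h1
      exact ⟨g, n, q, hg, h1, rfl⟩
  have mc : ∀ i j k c, pair (pair (nz i) (pair (nz j) (nz k))) (nz c) ∈ c₀ ↔ c = code i j k := by
    intro i j k c
    rw [hc0]
    constructor
    · rintro ⟨i', j', k', h2⟩
      obtain ⟨h3, h4⟩ := GSPa_pair.1 h2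
      obtain ⟨h5, h6⟩ := GSPa_pair.1 h3
      obtain ⟨h7, h8⟩ := GSPa_pair.1 h6
      rw [nz_inj.1 h4, nz_inj.1 h5, nz_inj.1 h7, nz_inj.1 h8]
    · rintro rfl
      exact ⟨i, j, k, rfl⟩
  have t1 : ∀ a k, a < δ → (GSPa_P1 C₀ h₀ (o0 a) (nz k) ↔ NextC δ C h a k) := by
    intro a k ha
    constructor
    · rintro ⟨γ, hγ, h1, h2, h3⟩
      obtain ⟨g, hg, rfl⟩ := (hC0 γ).1 hγ
      refine ⟨g, hC g hg, hg, o0_mem_o0.1 h1, ?_, (mh g a k (hC g hg) ha).1 h3⟩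
      intro g' _ hg' hag'
      refine not_lt.1 fun hlt => ?_
      exact h2 (o0 g') ((hC0 _).2 ⟨g', hg', rfl⟩) (o0_mem_o0.2 hag') (o0_mem_o0.2 hlt)
    · rintro ⟨g, hgd, hg, h1, h2, h3⟩
      refine ⟨o0 g, (hC0 _).2 ⟨g, hg, rfl⟩, o0_mem_o0.2 h1, ?_, (mh g a k hgd ha).2 h3⟩
      intro γ' hγ' h4 h5
      obtain ⟨g', hg', rfl⟩ := (hC0 γ').1 hγ'
      exact absurd (o0_mem_o0.1 h5) (not_lt.2 (h2 g' (hC g' hg') hg' (o0_mem_o0.1 h4)))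
  have t2 : ∀ a n q, a < δ → (GSPa_P2 C₀ R₀ F₀ (o0 a) (nz n) (nz q) ↔ QPart δ C R F a n q) := by
    intro a n q ha
    refine or_congr (and_congr ?_ ?_) ?_
    · exact nz_inj (m := q) (n := 0)
    · constructor
      · intro h1 g _ hg
        exact o0_mem_o0.1 (h1 (o0 g) ((hC0 _).2 ⟨g, hg, rfl⟩))
      · intro h1 γ hγ
        obtain ⟨g, hg, rfl⟩ := (hC0 γ).1 hγ
        exact o0_mem_o0.2 (h1 g (hC g hg) hg)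
    · constructor
      · rintro ⟨γ, hγ, h1, h2, m, hm, r, hr, h3, h4, h5⟩
        obtain ⟨g, hg, rfl⟩ := (hC0 γ).1 hγ
        obtain ⟨m, rfl⟩ := mem_omega.1 hm
        obtain ⟨r, rfl⟩ := mem_omega.1 hr
        refine ⟨g, hg, not_lt.1 fun hlt => h1 (o0_mem_o0.2 hlt), ?_, m, r,
          (mR g a n m (hC g hg) ha).1 h3, (mF g m r (hC g hg)).1 h4, nz_inj (n := r + 1).1 h5⟩
        intro g' hg' hga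
        refine not_lt.1 fun hlt => ?_
        exact h2 (o0 g') ((hC0 _).2 ⟨g', hg', rfl⟩) (fun h6 => absurd (o0_mem_o0.1 h6) (not_lt.2 hga))
          (o0_mem_o0.2 hlt)
      · rintro ⟨g, hg, h1, h2, m, r, h3, h4, rfl⟩
        refine ⟨o0 g, (hC0 _).2 ⟨g, hg, rfl⟩, fun h6 => absurd (o0_mem_o0.1 h6) (not_lt.2 h1), ?_,
          nz m, nz_mem_omega m, nz r, nz_mem_omega r, (mR g a n m (hC g hg) ha).2 h3,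
          (mF g m r (hC g hg)).2 h4, rfl⟩
        intro γ' hγ' h5 h6
        obtain ⟨g', hg', rfl⟩ := (hC0 γ').1 hγ'
        exact absurd (o0_mem_o0.1 h6) (not_lt.2 (h2 g' hg' (not_lt.1 fun hlt => h5 (o0_mem_o0.2 hlt))))
  refine ⟨(prod T ZFSet.omega).sep (GSPa_P (o0 δ) T E C₀ R₀ F₀ h₀ c₀),
    sep_mem hN (GSPa_d hN hδ hT hEN hC0N hR0N hF0N hh0N hc0N) (prod_mem hN hT hN.omega), fun z => ?_⟩
  rw [mem_sep]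
  constructor
  · rintro ⟨-, α, hα, ν, hν, κ, hκ, q, hq, t, ht, c, hc, rfl, h1, h2, h3, h4, h5⟩
    obtain ⟨a, ha, rfl⟩ := mem_o0.1 hα
    obtain ⟨n, rfl⟩ := mem_omega.1 hν
    obtain ⟨k, rfl⟩ := mem_omega.1 hκ
    obtain ⟨q, rfl⟩ := mem_omega.1 hq
    obtain ⟨c, rfl⟩ := mem_omega.1 hc
    obtain ⟨-, rfl⟩ := (mE a n t).1 h1
    refine ⟨a, n, k, q, ha, ?_, (t1 a k ha).1 h3, (t2 a n q ha).1 h4, ?_⟩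
    · intro n' hn' he
      exact h2 (nz n') (nz_mem_nz.2 hn') ((mE a n' _).2 ⟨ha, he.symm⟩)
    · rw [(mc n k q c).1 h5]
  · rintro ⟨a, n, k, q, ha, h1, h2, h3, rfl⟩
    refine ⟨?_, o0 a, mem_o0.2 ⟨a, ha, rfl⟩, nz n, nz_mem_omega n, nz k, nz_mem_omega k, nz q,
      nz_mem_omega q, en a n, hen a ha n, nz (code n k q), nz_mem_omega _, rfl, (mE a n _).2 ⟨ha, rfl⟩, ?_,
      (t1 a k ha).2 h2, (t2 a n q ha).2 h3, (mc n k q _).2 rfl⟩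
    · rw [pair_mem_prod]
      exact ⟨hen a ha n, nz_mem_omega _⟩
    · intro ν' hν' h4
      obtain ⟨n', hn', rfl⟩ := mem_nz.1 hν'
      exact h1 n' hn' ((mE a n' _).1 h4).2.symm

end Pool.Agent.CAN
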