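import Pool.Agent.CAN.TWL
import Pool.Agent.CAN.GNF

/-!
# CAN/GSQ: generic sequences

`two_gseq`: the dense open sets `D` with `InM D M` form a countable nonempty family (`Two.do_all` is in `M` by `Ev.const`), enumerate them as `D n`.
Given `c_n` with `InM (c_n) M`, `Good c_n ∈ G`: the set `{a' | ∃ c' ≤ c_n, (a', c') ∈ D n} ∪ {(Good c_n)ᶜ} ⊆ A` is in `M` (`Ev.fn2`) and has supremum `⊤`:
for `⊥ ≠ b ∈ A`, `b ≤ Good c_n`, the condition `(b, c_n)` has an extension in `D n`.  `GenF.meet` gives `a' ∈ G` in it (`(Good c_n)ᶜ ∉ G`), and by `Ev.wit3` there is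
`c_{n+1} ≤ c_n`, `InM c_{n+1} M`, `(a', c_{n+1}) ∈ D n`; `a' ≤ Good c_{n+1}` so `Good c_{n+1} ∈ G` (`InM (Good c) M` by `Ev.fn1`).  `Good c_0 ∈ G` as `a ≤ Good c`.

`gseq_genF`: `GSet = {x | x ∈ C ∧ InM x M ∧ ∃ n, ∃ a ∈ G, Pos A Good a (cs n) ∧ ι a (cs n) ≤ x}`.  `⊥ ∉`: `Two.ne_bot`.  `⊓`: for `a, n` and `a', n'` use `a ⊓ a' ∈ G` and
`max n n'` (`cs` decreasing; `a ⊓ a' ⊓ Good (cs m) ∈ G`, as `Good (cs m) ∈ G`; elements of `G` are not `⊥`), `Two.le_of_le`.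
`meet`: for `E ∈ₘ M` use `Two.do_of_sup E` (in `M` by `Ev.fn1`): `(a, cs n)` in it, so `ι a (cs n) ≤ e ∈ E`, with `e` chosen in `M` (`Ev.wit3`).
`G ⊆ GSet`: for `x ∈ G` use `Two.do_decide x` (or directly: `ι (x ⊓ Good (cs 0)) (cs 0) ≤ x`).
Last part: for `b ≤ sInf G`, `a ∈ G`: `b ≤ a`, so `ι b c' ≤ ι a (cs n)`.
-/

set_option autoImplicit false

namespace Pool.Agent.CAN

variable {B : Type 1} [CompleteBooleanAlgebra B] {K : Type 1} [Preorder K] {A C : Set B} {Good : K → B} {ι : B → K → B}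

private theorem GSQ_step (h : Two A C Good ι) {M : ZFSet.{1}}
    (h2 : ∀ (D : Set (B × K)) (c : K), InM D M → InM c M →
      InM ({a' | ∃ c', c' ≤ c ∧ (a', c') ∈ D} ∪ {(Good c)ᶜ} : Set B) M)
    (h3 : ∀ (D : Set (B × K)) (a : B) (c : K), InM D M → InM a M → InM c M →
      (∃ c' : K, c' ≤ c ∧ (a, c') ∈ D) → ∃ c' : K, InM c' M ∧ c' ≤ c ∧ (a, c') ∈ D)
    (h4 : ∀ c : K, InM c M → InM (Good c) M)
    {G : Set B} (hG : GenF A M G) {D : Set (B × K)} (hD : DO A Good D) (hDM : InM D M) {c : K}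
    (hc : InM c M) (hcG : Good c ∈ G) :
    ∃ c' : K, (InM c' M ∧ Good c' ∈ G) ∧ c' ≤ c ∧ ∃ a ∈ G, (a, c') ∈ D := by
  set S : Set B := {a' | ∃ c', c' ≤ c ∧ (a', c') ∈ D} ∪ {(Good c)ᶜ} with hS
  have hSA : S ⊆ A := by
    rintro x (⟨c', hc', hx⟩ | hx)
    · exact (hD.sub _ _ hx).1
    · rw [Set.mem_singleton_iff.1 hx]
      exact h.subA.compl _ (h.good c)
  have hsup : sSup S = ⊤ := by
    by_contra hne
    have hb : (sSup S)ᶜ ≠ ⊥ := by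
      intro hb
      exact hne (compl_eq_bot.1 hb)
    have hbA : (sSup S)ᶜ ∈ A := h.subA.compl _ (h.subA.sup _ hSA)
    have hbc : (sSup S)ᶜ ≤ Good c := by
      have h5 : (Good c)ᶜ ≤ sSup S := le_sSup (Or.inr rfl)
      exact compl_le_of_compl_le h5
    obtain ⟨a', c', hac, ha', hc'⟩ := hD.dns _ _ ⟨hbA, hb, hbc⟩
    have h6 : a' ≤ sSup S := le_sSup (Or.inl ⟨c', hc', hac⟩)
    apply (hD.sub _ _ hac).2.1
    rw [eq_bot_iff, ← inf_compl_self (a := sSup S)]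
    exact le_inf h6 ha'
  obtain ⟨a', ha'S, ha'G⟩ := hG.meet S (h2 D c hDM hc) hSA hsup
  rcases ha'S with ⟨c', hc', hac⟩ | hx
  · obtain ⟨c'', hc''M, hc''c, hac''⟩ := h3 D a' c hDM (hG.sub _ ha'G).2 hc ⟨c', hc', hac⟩
    have hP := hD.sub _ _ hac''
    exact ⟨c'', ⟨hc''M, hG.up _ ha'G _ (h.good c'') (h4 _ hc''M) hP.2.2⟩, hc''c, a', ha'G, hac''⟩
  · exfalso
    rw [Set.mem_singleton_iff.1 hx] at ha'G
    have h5 := hG.inf _ hcG _ ha'G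
    rw [inf_compl_self] at h5
    exact hG.bot h5

theorem two_gseq (h : Two A C Good ι) : Ev fun M => ∀ G : Set B, GenF A M G → ∀ a ∈ G, ∀ c, InM c M →
    Pos A Good a c → ∃ cs : ℕ → K, cs 0 = c ∧ GSeq A Good M G cs := by
  refine (((((Ev.const ({p : B × K | Pos A Good p.1 p.2})).and
    (Ev.fn2 (fun (D : Set (B × K)) (c : K) =>
      ({a' | ∃ c', c' ≤ c ∧ (a', c') ∈ D} ∪ {(Good c)ᶜ} : Set B)))).and
    (Ev.wit3 (fun (D : Set (B × K)) (a : B) (c c' : K) => c' ≤ c ∧ (a, c') ∈ D))).and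
    (Ev.fn1 Good)).and (Ev.mdl (fun _ _ => ∅))).mono ?_
  rintro M ⟨⟨⟨⟨h1, h2⟩, h3⟩, h4⟩, h5⟩ G hG a ha c hc hac
  have hcount : {D : Set (B × K) | DO A Good D ∧ InM D M}.Countable :=
    (tr_countable (T := Set (B × K)) h5.ctbl).mono fun D hD => hD.2
  have hne : {D : Set (B × K) | DO A Good D ∧ InM D M}.Nonempty := ⟨_, h.do_all, h1⟩
  obtain ⟨D, hD⟩ := hcount.exists_eq_range hne
  have hDn : ∀ n, DO A Good (D n) ∧ InM (D n) M := fun n => by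
    have : D n ∈ {D : Set (B × K) | DO A Good D ∧ InM D M} := by
      rw [hD]; exact ⟨n, rfl⟩
    exact this
  have hcG : Good c ∈ G := hG.up a ha _ (h.good c) (h4 c hc) hac.2.2
  have step : ∀ (n : ℕ) (x : {c : K // InM c M ∧ Good c ∈ G}),
      ∃ y : {c : K // InM c M ∧ Good c ∈ G}, y.1 ≤ x.1 ∧ ∃ a ∈ G, (a, y.1) ∈ D n := by
    intro n x
    obtain ⟨c', hc', h6, h7⟩ := GSQ_step h h2 h3 h4 hG (hDn n).1 (hDn n).2 x.2.1 x.2.2
    exact ⟨⟨c', hc'⟩, h6, h7⟩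
  choose f hf using step
  let cs : ℕ → {c : K // InM c M ∧ Good c ∈ G} := fun n => Nat.rec ⟨c, hc, hcG⟩ (fun n x => f n x) n
  have hcs : ∀ n, cs (n + 1) = f n (cs n) := fun n => rfl
  refine ⟨fun n => (cs n).1, rfl, ⟨fun n => (cs n).2.1, fun n => ?_, fun n => (cs n).2.2, ?_⟩⟩
  · change (cs (n + 1)).1 ≤ (cs n).1
    rw [hcs]
    exact (hf n (cs n)).1
  · intro E hE hEM
    have h6 : E ∈ {D : Set (B × K) | DO A Good D ∧ InM D M} := ⟨hE, hEM⟩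
    rw [hD] at h6
    obtain ⟨n, rfl⟩ := h6
    obtain ⟨a', ha', h7⟩ := (hf n (cs n)).2
    refine ⟨n + 1, a', ha', ?_⟩
    change (a', (cs (n + 1)).1) ∈ D n
    rw [hcs]
    exact h7

/-- The filter of the extension generated by a filter and a generic sequence. -/
def GSet (A C : Set B) (Good : K → B) (ι : B → K → B) (M : ZFSet.{1}) (G : Set B) (cs : ℕ → K) : Set B :=
  {x | x ∈ C ∧ InM x M ∧ ∃ n, ∃ a ∈ G, Pos A Good a (cs n) ∧ ι a (cs n) ≤ x}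

theorem gseq_genF (h : Two A C Good ι) : Ev fun M => ∀ G : Set B, GenF A M G → ∀ cs, GSeq A Good M G cs →
    GenF C M (GSet A C Good ι M G cs) ∧ G ⊆ GSet A C Good ι M G cs ∧
    (∀ a ∈ G, ∀ n, Pos A Good a (cs n) → ι a (cs n) ∈ GSet A C Good ι M G cs) ∧
    ∀ b c', Pos A Good b c' → b ≤ sInf G → (∀ n, c' ≤ cs n) → ι b c' ≤ sInf (GSet A C Good ι M G cs) := by
  refine ((((Ev.fn1 (fun E : Set B => {p : B × K | Pos A Good p.1 p.2 ∧ ∃ e ∈ E, ι p.1 p.2 ≤ e})).and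
    (Ev.fn2 ι)).and (Ev.fn2 (fun x y : B => x ⊓ y))).and
    (Ev.wit3 (fun (E : Set B) (a : B) (c : K) (e : B) => e ∈ E ∧ ι a c ≤ e))).mono ?_
  rintro M ⟨⟨⟨h1, h2⟩, h3⟩, h4⟩ G hG cs hcs
  have hanti : ∀ n m, n ≤ m → cs m ≤ cs n := by
    intro n m hnm
    induction m, hnm using Nat.le_induction with
    | base => exact le_rfl
    | succ m _ ih => exact (hcs.anti m).trans ih
  have hpos : ∀ x ∈ G, ∀ n, Pos A Good (x ⊓ Good (cs n)) (cs n) ∧ x ⊓ Good (cs n) ∈ G := by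
    intro x hx n
    have h5 := hG.inf x hx _ (hcs.good n)
    exact ⟨⟨(hG.sub _ h5).1, fun h6 => hG.bot (h6 ▸ h5), inf_le_right⟩, h5⟩
  refine ⟨⟨?_, ?_, ?_, ?_, ?_⟩, ?_, ?_, ?_⟩
  · rintro x ⟨hxC, hxM, -⟩
    exact ⟨hxC, hxM⟩
  · rintro x ⟨hxC, hxM, n, a, ha, hp, hle⟩ y hy hyM hxy
    exact ⟨hy, hyM, n, a, ha, hp, hle.trans hxy⟩
  · rintro x ⟨hxC, hxM, n, a, ha, hp, hle⟩ y ⟨hyC, hyM, n', a', ha', hp', hle'⟩
    obtain ⟨hp2, hG2⟩ := hpos _ (hG.inf a ha a' ha') (max n n')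
    refine ⟨h.subC.and hxC hyC, h3 x y hxM hyM, max n n', _, hG2, hp2, le_inf ?_ ?_⟩
    · exact (h.le_of_le hp hp2 (inf_le_left.trans inf_le_left)
        (hanti _ _ (le_max_left _ _))).trans hle
    · exact (h.le_of_le hp' hp2 (inf_le_left.trans inf_le_right)
        (hanti _ _ (le_max_right _ _))).trans hle'
  · rintro ⟨-, -, n, a, ha, hp, hle⟩
    exact h.ne_bot hp (le_bot_iff.1 hle)
  · intro E hEM hEC hs
    obtain ⟨n, a, ha, h5⟩ := hcs.meet _ (h.do_of_sup hEC hs) (h1 E hEM)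
    have h5' : Pos A Good a (cs n) ∧ ∃ e ∈ E, ι a (cs n) ≤ e := h5
    obtain ⟨hp, e, he, hle⟩ := h5'
    obtain ⟨e', he'M, he'E, he'⟩ := h4 E a (cs n) hEM (hG.sub a ha).2 (hcs.mem n) ⟨e, he, hle⟩
    exact ⟨e', he'E, hEC he'E, he'M, n, a, ha, hp, he'⟩
  · intro x hx
    obtain ⟨hp2, hG2⟩ := hpos x hx 0
    exact ⟨h.incl (hG.sub x hx).1, (hG.sub x hx).2, 0, _, hG2, hp2,
      (h.le_fst hp2).trans inf_le_left⟩
  · intro a ha n hp
    exact ⟨h.mem _ _ hp, h2 a (cs n) (hG.sub a ha).2 (hcs.mem n), n, a, ha, hp, le_rfl⟩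
  · intro b c' hp hb hc'
    refine le_sInf ?_
    rintro x ⟨hxC, hxM, n, a, ha, hpa, hle⟩
    exact (h.le_of_le hpa hp (hb.trans (sInf_le ha)) (hc' n)).trans hle

end Pool.Agent.CAN
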