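import Pool.Agent.CAN.GDefs

/-!
# CAN/GSU: a formula depends only on finitely many variables

`bdf φ` is a bound of the free variables of `φ`: `bdf (mem i j) = max i j + 1`, `bdf (neg φ) = bdf φ`,
`bdf (and φ ψ) = max …`, `bdf (all φ) = bdf φ - 1` (or simply `bdf φ`).  Both congruence lemmas by induction on `φ`.
`countable_fml`: `Fml` is countable: `deriving instance Countable for Pool.Agent.FBZ.Fml` works, or map a formula to a list of
natural numbers.
-/

set_option autoImplicit false

namespace Pool.Agent.CAN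
open ZFSet Pool.Agent.FBZ

private def GSU_code : Fml → ℕ
  | .mem i j => Nat.pair 0 (Nat.pair i j)
  | .eq i j => Nat.pair 1 (Nat.pair i j)
  | .neg φ => Nat.pair 2 (GSU_code φ)
  | .and φ ψ => Nat.pair 3 (Nat.pair (GSU_code φ) (GSU_code ψ))
  | .all φ => Nat.pair 4 (GSU_code φ)

private theorem GSU_inj : ∀ φ ψ : Fml, GSU_code φ = GSU_code ψ → φ = ψ := by
  intro φ
  induction φ with
  | mem i j =>
    intro ψ h
    cases ψ <;> simp only [GSU_code, Nat.pair_eq_pair] at h <;> first | omega | (obtain ⟨_, rfl, rfl⟩ := h; rfl)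
  | eq i j =>
    intro ψ h
    cases ψ <;> simp only [GSU_code, Nat.pair_eq_pair] at h <;> first | omega | (obtain ⟨_, rfl, rfl⟩ := h; rfl)
  | neg φ ih =>
    intro ψ h
    cases ψ <;> simp only [GSU_code, Nat.pair_eq_pair] at h <;> first | omega | (rw [ih _ h.2])
  | and φ1 φ2 ih1 ih2 =>
    intro ψ h
    cases ψ <;> simp only [GSU_code, Nat.pair_eq_pair] at h <;> first | omega | (rw [ih1 _ h.2.1, ih2 _ h.2.2])
  | all φ ih =>
    intro ψ h
    cases ψ <;> simp only [GSU_code, Nat.pair_eq_pair] at h <;> first | omega | (rw [ih _ h.2])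

instance countable_fml : Countable Fml := by
  exact Function.Injective.countable (f := GSU_code) (fun φ ψ h => GSU_inj φ ψ h)

theorem exists_bdf (φ : Fml) : ∃ k : ℕ,
    (∀ (N : Set ZFSet.{0}) (v w : ℕ → ZFSet.{0}), (∀ i, i < k → v i = w i) → (Sat N φ v ↔ Sat N φ w)) ∧
    ∀ (B : Type 1) [CompleteBooleanAlgebra B] (v w : ℕ → ZFSet.{1}), (∀ i, i < k → v i = w i) →
      bv B φ v = bv B φ w := by
  induction φ with
  | mem i j =>
    refine ⟨max i j + 1, fun N v w h => ?_, fun B _ v w h => ?_⟩
    · simp only [Sat]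
      rw [h i (by omega), h j (by omega)]
    · simp only [bv]
      rw [h i (by omega), h j (by omega)]
  | eq i j =>
    refine ⟨max i j + 1, fun N v w h => ?_, fun B _ v w h => ?_⟩
    · simp only [Sat]
      rw [h i (by omega), h j (by omega)]
    · simp only [bv]
      rw [h i (by omega), h j (by omega)]
  | neg φ ih =>
    obtain ⟨k, h1, h2⟩ := ih
    refine ⟨k, fun N v w h => ?_, fun B _ v w h => ?_⟩
    · simp only [Sat]
      rw [h1 N v w h]
    · simp only [bv]
      rw [h2 B v w h]
  | and φ ψ ih ih' =>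
    obtain ⟨k, h1, h2⟩ := ih
    obtain ⟨k', h1', h2'⟩ := ih'
    refine ⟨max k k', fun N v w h => ?_, fun B _ v w h => ?_⟩
    · simp only [Sat]
      rw [h1 N v w fun i hi => h i (by omega), h1' N v w fun i hi => h i (by omega)]
    · simp only [bv]
      rw [h2 B v w fun i hi => h i (by omega), h2' B v w fun i hi => h i (by omega)]
  | all φ ih =>
    obtain ⟨k, h1, h2⟩ := ih
    refine ⟨k, fun N v w h => ?_, fun B _ v w h => ?_⟩
    · simp only [Sat]
      refine forall_congr' fun x => forall_congr' fun _ => h1 N _ _ fun i hi => ?_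
      rcases i with _ | j
      · rfl
      · exact h j (by omega)
    · simp only [bv]
      refine iInf_congr fun x => h2 B _ _ fun i hi => ?_
      rcases i with _ | j
      · rfl
      · exact h j (by omega)

end Pool.Agent.CAN
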