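import Pool.Agent.CAN.GAT
import Pool.Agent.CAN.GSU
import Pool.Agent.CAN.EVK

/-!
# CAN/GTR: the truth lemma for all formulas

`lk l i = l.getD i ∅` for a list `l`.  STEP 1: for every formula `φ` and every list `l` (with entries anywhere in `V`):
`Ev (fun M => (∀ x ∈ l, x ∈ M) → ∀ U, GenF Set.univ M U → (Sat (Nm M U) φ (fun i => vl M U (lk l i)) ↔ bv B φ (lk l) ∈ U))`, by induction
on `φ` for all `l`: `mem`, `eq`: `ev_bmem`, `ev_beq` (`∅ ∈ M` for the junk entries); `neg`, `and`: `ev_bool` and `Ev.const` for the values;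
`all φ`: for every `x : ZFSet` the induction hypothesis for `x :: l`, by `Ev.diag`
for all `x ∈ M` simultaneously (`cons x (lk l) = lk (x :: l)`, and `vl M U (lk (x :: l) i) = cons (vl M U x) (fun i => vl M U (lk l i)) i`);
`⨅ x, bv B φ (cons x (lk l)) ∈ U` iff all `bv B φ (cons x (lk l)) ∈ U` for `x ∈ M`: `←` is `ev_inf` with `c = id`, `→`: the values are in
`M` (`Ev.fn1` for the function `x ↦ bv B φ (cons x (lk l))`) and above the infimum.
STEP 2: the same for all lists with entries in `M` simultaneously: the closure under a list parameter follows from `Ev.list`/`Ev.diag`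
(code the list by nested pairs, or prove for each length `n` by induction: `(∀ l : List ZFSet, Ev (p l)) → Ev (fun M => ∀ l, (∀ x ∈ l, x ∈ M) → p l M)`:
choose `F l` for each `l`; by `Ev.all_nat` it suffices to do it for lists of length `n`; induction on `n` with `Ev.diag`).
STEP 3: all formulas simultaneously: `Fml` is countable (`Ev.all_nat` through an enumeration).
STEP 4: arbitrary assignments `v : ℕ → ZFSet` with values in `M`: use `exists_bdf` and the list `List.ofFn`/`(List.range k).map v`.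
-/

set_option autoImplicit false

namespace Pool.Agent.CAN
open ZFSet Pool.Agent.FBZ

private theorem GTR_len (n : ℕ) : ∀ p : List ZFSet.{1} → ZFSet.{1} → Prop, (∀ l, Ev (p l)) →
    Ev (fun M => ∀ l : List ZFSet.{1}, l.length = n → (∀ x ∈ l, x ∈ M) → p l M) := by
  induction n with
  | zero =>
    intro p h
    refine (h []).mono ?_
    intro M hM l hl _
    rw [List.length_eq_zero_iff] at hl
    rw [hl]
    exact hM
  | succ n ih =>
    intro p h
    have h1 : Ev (fun M => ∀ x : ZFSet.{1}, InM x M → ∀ l : List ZFSet.{1}, l.length = n →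
        (∀ y ∈ l, y ∈ M) → p (x :: l) M) :=
      Ev.diag fun x => ih (fun l => p (x :: l)) fun l => h (x :: l)
    refine h1.mono ?_
    intro M hM l hl hlM
    cases l with
    | nil => simp at hl
    | cons x l =>
      exact hM x (hlM x (by simp)) l (by simpa using hl) (fun y hy => hlM y (by simp [hy]))

/-- The normal filter rule for lists of parameters. -/
theorem Ev.diag_list {p : List ZFSet.{1} → ZFSet.{1} → Prop} (h : ∀ l, Ev (p l)) :
    Ev (fun M => ∀ l : List ZFSet.{1}, (∀ x ∈ l, x ∈ M) → p l M) := by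
  refine (Ev.all_nat fun n => GTR_len n p h).mono ?_
  intro M hM l hl
  exact hM l.length l rfl hl

/-- the assignment given by a list -/
private noncomputable def lk (l : List ZFSet.{1}) (i : ℕ) : ZFSet.{1} := l.getD i ∅

private theorem GTR_lk {M : ZFSet.{1}} (h0 : (∅ : ZFSet.{1}) ∈ M) {l : List ZFSet.{1}}
    (hl : ∀ x ∈ l, x ∈ M) (i : ℕ) : lk l i ∈ M := by
  unfold lk
  by_cases hi : i < l.length
  · rw [List.getD_eq_getElem _ _ hi]
    exact hl _ (List.getElem_mem hi)
  · rw [List.getD_eq_default _ _ (not_lt.1 hi)]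
    exact h0

private theorem GTR_cons (x : ZFSet.{1}) (l : List ZFSet.{1}) : lk (x :: l) = cons x (lk l) := by
  funext i
  cases i with
  | zero => rfl
  | succ i => rfl

private theorem GTR_cons' (f : ZFSet.{1} → ZFSet.{0}) (x : ZFSet.{1}) (l : List ZFSet.{1}) :
    (fun i => f (lk (x :: l) i)) = cons (f x) (fun i => f (lk l i)) := by
  funext i
  cases i with
  | zero => rfl
  | succ i => rfl

private theorem GTR_one (B : Type 1) [CompleteBooleanAlgebra B] (φ : Fml) : ∀ l : List ZFSet.{1},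
    Ev (fun M => (∀ x ∈ l, x ∈ M) → ∀ U : Set B, GenF Set.univ M U →
      (Sat (Nm M U) φ (fun i => vl M U (lk l i)) ↔ bv B φ (lk l) ∈ U)) := by
  induction φ with
  | mem i j =>
    intro l
    refine (ev_ctbl0.and (ev_bmem B)).mono ?_
    rintro M ⟨h0, hb⟩ hl U hU
    exact hb U hU _ (GTR_lk h0.2 hl j) _ (GTR_lk h0.2 hl i)
  | eq i j =>
    intro l
    refine (ev_ctbl0.and (ev_beq B)).mono ?_
    rintro M ⟨h0, hb⟩ hl U hU
    exact hb U hU _ (GTR_lk h0.2 hl i) _ (GTR_lk h0.2 hl j)
  | neg φ ih =>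
    intro l
    refine ((ih l).and ((ev_bool (B := B)).and (Ev.const (bv B φ (lk l))))).mono ?_
    rintro M ⟨h1, h2, h3⟩ hl U hU
    change ¬ Sat (Nm M U) φ (fun i => vl M U (lk l i)) ↔ (bv B φ (lk l))ᶜ ∈ U
    rw [((h2 U hU).2 _ _ h3 h3).1, h1 hl U hU]
  | and φ ψ ih1 ih2 =>
    intro l
    refine (((ih1 l).and (ih2 l)).and ((ev_bool (B := B)).and ((Ev.const (bv B φ (lk l))).and
      (Ev.const (bv B ψ (lk l)))))).mono ?_
    rintro M ⟨⟨h1, h1'⟩, h2, h3, h3'⟩ hl U hU
    change (Sat (Nm M U) φ (fun i => vl M U (lk l i)) ∧ Sat (Nm M U) ψ (fun i => vl M U (lk l i))) ↔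
      bv B φ (lk l) ⊓ bv B ψ (lk l) ∈ U
    rw [((h2 U hU).2 _ _ h3 h3').2.1, h1 hl U hU, h1' hl U hU]
  | all φ ih =>
    intro l
    have k1 : Ev (fun M => ∀ x : ZFSet.{1}, InM x M → ((∀ y ∈ x :: l, y ∈ M) → ∀ U : Set B,
        GenF Set.univ M U → (Sat (Nm M U) φ (fun i => vl M U (lk (x :: l) i)) ↔
          bv B φ (lk (x :: l)) ∈ U))) := Ev.diag fun x => ih (x :: l)
    refine (k1.and ((ev_inf (ι := ZFSet.{1}) (fun x => x) (fun x => bv B φ (cons x (lk l)))).and
      (Ev.fn1 (fun x : ZFSet.{1} => bv B φ (cons x (lk l)))))).mono ?_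
    rintro M ⟨h1, h2, h3⟩ hl U hU
    change (∀ z ∈ Nm M U, Sat (Nm M U) φ (cons z (fun i => vl M U (lk l i)))) ↔
      (⨅ x : ZFSet.{1}, bv B φ (cons x (lk l))) ∈ U
    have h4 : ∀ x ∈ M, (Sat (Nm M U) φ (cons (vl M U x) (fun i => vl M U (lk l i))) ↔
        bv B φ (cons x (lk l)) ∈ U) := by
      intro x hx
      have h5 := h1 x hx (by
        intro y hy
        rcases List.mem_cons.1 hy with rfl | hy
        · exact hx
        · exact hl y hy) U hU
      rw [GTR_cons' (vl M U), GTR_cons] at h5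
      exact h5
    constructor
    · intro h
      refine h2 U hU fun x hx => ?_
      exact (h4 x hx).1 (h _ ⟨x, hx, rfl⟩)
    · rintro h z ⟨x, hx, rfl⟩
      refine (h4 x hx).2 ?_
      exact hU.up _ h _ (Set.mem_univ _) (h3 x hx)
        (iInf_le (fun x : ZFSet.{1} => bv B φ (cons x (lk l))) x)

theorem ev_truth (B : Type 1) [CompleteBooleanAlgebra B] :
    Ev (fun M => ∀ U : Set B, GenF Set.univ M U → ∀ (φ : Fml) (v : ℕ → ZFSet.{1}), (∀ i, v i ∈ M) →
      (Sat (Nm M U) φ (fun i => vl M U (v i)) ↔ bv B φ v ∈ U)) := by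
  have h1 := Ev.all_ctbl fun φ : Fml => Ev.diag_list fun l => GTR_one B φ l
  refine h1.mono ?_
  intro M hM U hU φ v hv
  obtain ⟨k, hk1, hk2⟩ := exists_bdf φ
  have hg : ∀ i, i < k → v i = lk ((List.range k).map v) i := by
    intro i hi
    unfold lk
    rw [List.getD_eq_getElem _ _ (by simpa using hi)]
    simp
  have hl : ∀ x ∈ (List.range k).map v, x ∈ M := by
    intro x hx
    obtain ⟨i, _, rfl⟩ := List.mem_map.1 hx
    exact hv i
  have e1 := hM φ ((List.range k).map v) hl hl U hU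
  rw [hk1 (Nm M U) (fun i => vl M U (v i)) (fun i => vl M U (lk ((List.range k).map v) i))
    (fun i hi => by rw [hg i hi]), e1]
  rw [hk2 B v (lk ((List.range k).map v)) hg]

end Pool.Agent.CAN
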