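import Pool.Agent.CAN.GTR
import Pool.Agent.CAN.GCK

/-!
# CAN/GZA: pairing, union, power set, separation in the model

For all sufficiently closed `M` and generic `U`.
* omega: `vl M U (chk B ω) = col M ω = ω`.
* pairing: the name `{pair x (cd ⊤), pair y (cd ⊤)}`.
* separation: for `φ`, a list `l` of parameters and `a`: the name `mkn (fun y => bmem B y a ⊓ bv B φ (cons y (lk l))) (dom a)` where
  `lk l i = l.getD i ∅`, is in `M` for
  all `φ` (`Ev.all_ctbl`), `l` (`Ev.diag_list`), `a` (`Ev.diag`).  By `vl_mkn`, `ev_mem_dom`, `ev_truth` its value is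
  `{z ∈ vl a | φ(z, params)}`.  An assignment `v` with values in `Nm M U` is replaced by names, and then by a list (`exists_bdf`).
* union: first the bound: `W = ⋃ {dom z | z ∈ dom a}`, the name `mkn (fun w => ⨆ z : ZFSet, bmem B z a ⊓ bmem B w z) W`; its value is the union: if
  `vl w ∈ vl z ∈ vl a` then we can take `z ∈ dom a`, `w ∈ dom z`; `(⨆ z, …) ∈ U` iff some `z ∈ M` has
  `bmem z a ⊓ bmem w z ∈ U` (`ev_sup` with `c = id`).
* power set: for the name `x` let `W` be the set of all names `mkn f (dom x)`, `f : ZFSet → B` (a set: a subset of the power set of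
  `prod (dom x) (range cd)`).  `mkn (fun _ => ⊤) W ∈ M`.  For a name `u ∈ M` with `vl u ⊆ vl x` let
  `u' = mkn (fun y => bmem B y u) (dom x) ∈ M`: `vl u' = vl u` (an element of `vl u` is an element of `vl x`, hence `vl y` with `y ∈ dom x`,
  and `vl y ∈ vl u ↔ bmem B y u ∈ U`).  So every subset of `vl x` in the model is an element of `vl (mkn ⊤ W)`; then apply separation
  with the formula `z ⊆ x` (`neg (all (neg …))`-free form: `∀ w, w ∈ z → w ∈ x` is `all (neg (and (mem 0 1) (neg (mem 0 2))))`).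
-/

set_option autoImplicit false

namespace Pool.Agent.CAN
open ZFSet Pool.Agent.FBZ

theorem ev_omega (B : Type 1) [CompleteBooleanAlgebra B] :
    Ev (fun M => ∀ U : Set B, GenF Set.univ M U → ZFSet.omega ∈ Nm M U) := by
  refine ((ev_chk B).and ((ev_chk_mem B).and ev_col_omega)).mono ?_
  rintro M ⟨h1, h2, h3, h4⟩ U hU
  exact ⟨chk B ZFSet.omega, (h2 _).1 h3, by rw [h1 U hU, h4]⟩

private noncomputable def GZA_up (B : Type 1) [CompleteBooleanAlgebra B] (x y : ZFSet.{1}) : ZFSet.{1} :=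
  {pair x (cd (⊤ : B)), pair y (cd (⊤ : B))}

theorem ev_pairing (B : Type 1) [CompleteBooleanAlgebra B] :
    Ev (fun M => ∀ U : Set B, GenF Set.univ M U → ∀ x ∈ Nm M U, ∀ y ∈ Nm M U, ({x, y} : ZFSet.{0}) ∈ Nm M U) := by
  refine (ev_ctbl0.and ((ev_bool (B := B)).and (Ev.fn2 (GZA_up B)))).mono ?_
  rintro M ⟨⟨hc, h0⟩, hb, hf⟩ U hU x ⟨x', hx', rfl⟩ y ⟨y', hy', rfl⟩
  refine ⟨GZA_up B x' y', hf x' y' hx' hy', ?_⟩
  have htop : (⊤ : B) ∈ U := (hb U hU).1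
  apply ZFSet.ext
  intro z
  rw [mem_vl hc h0, mem_pair]
  constructor
  · rintro (rfl | rfl)
    · exact ⟨x', hx', ⊤, htop, by rw [GZA_up, mem_pair]; exact Or.inl rfl, rfl⟩
    · exact ⟨y', hy', ⊤, htop, by rw [GZA_up, mem_pair]; exact Or.inr rfl, rfl⟩
  · rintro ⟨w, -, b, -, hw, rfl⟩
    rw [GZA_up, mem_pair] at hw
    rcases hw with hw | hw
    · left; rw [(pair_inj.1 hw).1]
    · right; rw [(pair_inj.1 hw).1]

private noncomputable def GZA_lk (l : List ZFSet.{1}) (i : ℕ) : ZFSet.{1} := l.getD i ∅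

private theorem GZA_lk_mem {M : ZFSet.{1}} (h0 : (∅ : ZFSet.{1}) ∈ M) {l : List ZFSet.{1}}
    (hl : ∀ x ∈ l, x ∈ M) (i : ℕ) : GZA_lk l i ∈ M := by
  rw [GZA_lk]
  by_cases h : i < l.length
  · rw [List.getD_eq_getElem _ _ h]
    exact hl _ (List.getElem_mem h)
  · rw [List.getD_eq_default _ _ (not_lt.1 h)]
    exact h0

private theorem GZA_lk_map (w : ℕ → ZFSet.{1}) (k i : ℕ) (h : i < k) :
    GZA_lk ((List.range k).map w) i = w i := by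
  rw [GZA_lk, List.getD_eq_getElem _ _ (by simpa using h)]
  simp

theorem ev_separation (B : Type 1) [CompleteBooleanAlgebra B] :
    Ev (fun M => ∀ U : Set B, GenF Set.univ M U → ∀ (φ : Fml) (v : ℕ → ZFSet.{0}), In (Nm M U) v → ∀ a ∈ Nm M U,
      ∃ b ∈ Nm M U, ∀ z, z ∈ b ↔ z ∈ a ∧ Sat (Nm M U) φ (cons z v)) := by
  have e1 : Ev (fun M => ∀ φ : Fml, ∀ l : List ZFSet.{1}, (∀ x ∈ l, x ∈ M) → ∀ a : ZFSet.{1}, InM a M →
      InM (mkn (fun y => bmem B y a ⊓ bv B φ (cons y (GZA_lk l))) (dom a)) M) :=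
    Ev.all_ctbl fun φ => Ev.diag_list fun l => Ev.fn1 _
  have e2 : Ev (fun M => ∀ φ : Fml, ∀ l : List ZFSet.{1}, (∀ x ∈ l, x ∈ M) → ∀ y : ZFSet.{1}, InM y M →
      InM (bv B φ (cons y (GZA_lk l))) M) :=
    Ev.all_ctbl fun φ => Ev.diag_list fun l => Ev.fn1 _
  have e3 : Ev (fun M => ∀ y a : ZFSet.{1}, InM y M → InM a M → InM (bmem B y a) M) :=
    Ev.fn2 (fun y a : ZFSet.{1} => bmem B y a)
  refine (ev_ctbl0.and ((ev_bool (B := B)).and (e1.and (e2.and (e3.and ((ev_truth B).and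
    (ev_mem_dom B))))))).mono ?_
  rintro M ⟨⟨hc, h0⟩, hb, h1, h2, h3, ht, hd⟩ U hU φ v hv a ⟨a', ha', rfl⟩
  have hw : ∀ i, ∃ x ∈ M, v i = vl M U x := hv
  choose w hw hvw using hw
  obtain ⟨k, hk, hkb⟩ := exists_bdf φ
  have hl : ∀ x ∈ (List.range k).map w, x ∈ M := by
    intro x hx
    obtain ⟨i, -, rfl⟩ := List.mem_map.1 hx
    exact hw i
  have hsat : ∀ y ∈ M, (Sat (Nm M U) φ (cons (vl M U y) v) ↔
      bv B φ (cons y (GZA_lk ((List.range k).map w))) ∈ U) := by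
    intro y hy
    rw [← ht U hU φ (cons y (GZA_lk ((List.range k).map w))) (by
      intro i
      cases i with
      | zero => exact hy
      | succ i => exact GZA_lk_mem h0 hl i)]
    apply hk
    intro i hi
    cases i with
    | zero => rfl
    | succ i =>
      change v i = vl M U (GZA_lk ((List.range k).map w) i)
      rw [GZA_lk_map w k i (by omega)]
      exact hvw i
  refine ⟨vl M U (mkn (fun y => bmem B y a' ⊓ bv B φ (cons y (GZA_lk ((List.range k).map w)))) (dom a')),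
    ⟨_, h1 φ _ hl a' ha', rfl⟩, fun z => ?_⟩
  rw [vl_mkn hc h0, hd U hU a' ha' z]
  constructor
  · rintro ⟨y, hy, hyd, hyU, rfl⟩
    have h4 := ((hb U hU).2 _ _ (h3 y a' hy ha') (h2 φ _ hl y hy)).2.1.1 hyU
    exact ⟨⟨y, hy, hyd, h4.1, rfl⟩, (hsat y hy).2 h4.2⟩
  · rintro ⟨⟨y, hy, hyd, hyU, rfl⟩, hs⟩
    refine ⟨y, hy, hyd, ?_, rfl⟩
    exact ((hb U hU).2 _ _ (h3 y a' hy ha') (h2 φ _ hl y hy)).2.1.2 ⟨hyU, (hsat y hy).1 hs⟩

private noncomputable def GZA_W (a : ZFSet.{1}) : ZFSet.{1} := (⋃₀ (img dom (dom a)) : ZFSet.{1})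

private theorem GZA_mem_W {a w : ZFSet.{1}} : w ∈ GZA_W a ↔ ∃ z ∈ dom a, w ∈ dom z := by
  rw [GZA_W, mem_sUnion]
  constructor
  · rintro ⟨u, hu, hw⟩
    obtain ⟨z, hz, rfl⟩ := mem_img.1 hu
    exact ⟨z, hz, hw⟩
  · rintro ⟨z, hz, hw⟩
    exact ⟨dom z, mem_img.2 ⟨z, hz, rfl⟩, hw⟩

theorem ev_union (B : Type 1) [CompleteBooleanAlgebra B] :
    Ev (fun M => ∀ U : Set B, GenF Set.univ M U → ∀ x ∈ Nm M U, (⋃₀ x : ZFSet.{0}) ∈ Nm M U) := by
  have e1 : Ev (fun M => ∀ a : ZFSet.{1}, InM a M →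
      InM (mkn (fun w => ⨆ z : ZFSet.{1}, bmem B z a ⊓ bmem B w z) (GZA_W a)) M) := Ev.fn1 _
  have e2 : Ev (fun M => ∀ a w : ZFSet.{1}, InM a M → InM w M →
      InM (⨆ z : ZFSet.{1}, bmem B z a ⊓ bmem B w z) M) :=
    Ev.fn2 (fun a w : ZFSet.{1} => ⨆ z : ZFSet.{1}, bmem B z a ⊓ bmem B w z)
  have e3 : Ev (fun M => ∀ y a : ZFSet.{1}, InM y M → InM a M → InM (bmem B y a) M) :=
    Ev.fn2 (fun y a : ZFSet.{1} => bmem B y a)
  have e4 : Ev (fun M => ∀ a : ZFSet.{1}, InM a M → ∀ w : ZFSet.{1}, InM w M → ∀ U : Set B, GenF Set.univ M U →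
      (⨆ z : ZFSet.{1}, bmem B z a ⊓ bmem B w z) ∈ U → ∃ z : ZFSet.{1}, z ∈ M ∧ bmem B z a ⊓ bmem B w z ∈ U) :=
    Ev.diag fun a => Ev.diag fun w => ev_sup (fun z : ZFSet.{1} => z) _
  refine (ev_ctbl0.and ((ev_bool (B := B)).and (e1.and (e2.and (e3.and (e4.and ((ev_bmem B).and
    (ev_mem_dom B)))))))).mono ?_
  rintro M ⟨⟨hc, h0⟩, hb, h1, h2, h3, h4, hm, hd⟩ U hU x ⟨a, ha, rfl⟩
  refine ⟨mkn (fun w => ⨆ z : ZFSet.{1}, bmem B z a ⊓ bmem B w z) (GZA_W a), h1 a ha, ?_⟩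
  apply ZFSet.ext
  intro u
  rw [vl_mkn hc h0, mem_sUnion]
  constructor
  · rintro ⟨y, hy, hu⟩
    obtain ⟨z, hz, hzd, hzU, rfl⟩ := (hd U hU a ha y).1 hy
    obtain ⟨w, hw, hwd, hwU, rfl⟩ := (hd U hU z hz u).1 hu
    refine ⟨w, hw, GZA_mem_W.2 ⟨z, hzd, hwd⟩, ?_, rfl⟩
    have h5 : bmem B z a ⊓ bmem B w z ∈ U := hU.inf _ hzU _ hwU
    exact hU.up _ h5 _ (Set.mem_univ _) (h2 a w ha hw) (le_iSup (fun z : ZFSet.{1} => bmem B z a ⊓ bmem B w z) z)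
  · rintro ⟨w, hw, -, hwU, rfl⟩
    obtain ⟨z, hz, hzU⟩ := h4 a ha w hw U hU hwU
    have h5 := ((hb U hU).2 _ _ (h3 z a hz ha) (h3 w z hw hz)).2.1.1 hzU
    exact ⟨vl M U z, (hm U hU a ha z hz).2 h5.1, (hm U hU z hz w hw).2 h5.2⟩

private noncomputable def GZA_P (B : Type 1) [CompleteBooleanAlgebra B] (x : ZFSet.{1}) : ZFSet.{1} :=
  (powerset (prod (dom x) (ZFSet.range (fun b : B => cd b)))).sep
    (fun u => ∃ f : ZFSet.{1} → B, u = mkn f (dom x))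

private theorem GZA_mem_P {B : Type 1} [CompleteBooleanAlgebra B] (x : ZFSet.{1}) (f : ZFSet.{1} → B) :
    mkn f (dom x) ∈ GZA_P B x := by
  rw [GZA_P, mem_sep, mem_powerset]
  refine ⟨?_, f, rfl⟩
  intro z hz
  rw [mkn, mem_img] at hz
  obtain ⟨y, hy, rfl⟩ := hz
  rw [pair_mem_prod]
  exact ⟨hy, mem_range.2 ⟨f y, rfl⟩⟩

theorem ev_power (B : Type 1) [CompleteBooleanAlgebra B] :
    Ev (fun M => ∀ U : Set B, GenF Set.univ M U → ∀ x ∈ Nm M U, ∃ y ∈ Nm M U, ∀ z, z ∈ y ↔ z ∈ Nm M U ∧ z ⊆ x) := by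
  have e1 : Ev (fun M => ∀ x : ZFSet.{1}, InM x M →
      InM (mkn (fun _ => (⊤ : B)) (GZA_P B x)) M) := Ev.fn1 _
  have e2 : Ev (fun M => ∀ u x : ZFSet.{1}, InM u M → InM x M →
      InM (mkn (fun y => bmem B y u) (dom x)) M) :=
    Ev.fn2 (fun u x : ZFSet.{1} => mkn (fun y => bmem B y u) (dom x))
  refine (ev_ctbl0.and ((ev_bool (B := B)).and (e1.and (e2.and ((ev_separation B).and ((ev_bmem B).and
    (ev_mem_dom B))))))).mono ?_
  rintro M ⟨⟨hc, h0⟩, hb, h1, h2, hs, hm, hd⟩ U hU x ⟨a, ha, rfl⟩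
  have htop : (⊤ : B) ∈ U := (hb U hU).1
  have hP : vl M U (mkn (fun _ => (⊤ : B)) (GZA_P B a)) ∈ Nm M U := ⟨_, h1 a ha, rfl⟩
  have hx : vl M U a ∈ Nm M U := ⟨a, ha, rfl⟩
  obtain ⟨y, hy, hyz⟩ := hs U hU (.all (.neg (.and (.mem 0 1) (.neg (.mem 0 2))))) (fun _ => vl M U a)
    (fun _ => hx) _ hP
  refine ⟨y, hy, fun z => ?_⟩
  rw [hyz]
  have hsat : Sat (Nm M U) (.all (.neg (.and (.mem 0 1) (.neg (.mem 0 2))))) (cons z (fun _ => vl M U a)) ↔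
      ∀ w ∈ Nm M U, ¬ (w ∈ z ∧ ¬ w ∈ vl M U a) := Iff.rfl
  rw [hsat]
  constructor
  · rintro ⟨hz, h⟩
    have hzN := nm_trans hc h0 _ hP z hz
    refine ⟨hzN, fun w hw => ?_⟩
    by_contra hcon
    exact h w (nm_trans hc h0 z hzN w hw) ⟨hw, hcon⟩
  · rintro ⟨⟨u, hu, rfl⟩, hsub⟩
    refine ⟨?_, fun w _ h => h.2 (hsub h.1)⟩
    rw [vl_mkn hc h0]
    refine ⟨mkn (fun y => bmem B y u) (dom a), h2 u a hu ha, GZA_mem_P a _, htop, ?_⟩
    apply ZFSet.ext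
    intro z
    rw [vl_mkn hc h0]
    constructor
    · intro hz
      obtain ⟨y, hy, hyd, -, rfl⟩ := (hd U hU a ha z).1 (hsub hz)
      exact ⟨y, hy, hyd, (hm U hU u hu y hy).1 hz, rfl⟩
    · rintro ⟨y, hy, -, hyU, rfl⟩
      exact (hm U hU u hu y hy).2 hyU

end Pool.Agent.CAN
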