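import Pool.Agent.CAN.GZA
import Pool.Agent.FBZ.DA1

/-!
# CAN/GZR: replacement in the model, the model satisfies ZF

REPLACEMENT.  Fix `φ` and a list `l` of parameters, a name `a`.  For every `y` the family `w ↦ bv B φ (cons y (cons w (lk l)))` has a small image
(subset of `B : Type 1`), so there is a set `W` of names such that for every `y ∈ dom a` and every `w : ZFSet` there is `w' ∈ W` with
`bv B φ (cons y (cons w (lk l))) = bv B φ (cons y (cons w' (lk l)))` (choose `w'` for every `y ∈ dom a` and every value in `B`;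
`ZFSet.range` over `↥(dom a) × B`).  `M` contains such a `W` (a function of `φ, l, a`).  Let
`Bd = mkn (fun _ => ⊤) W`.  If in the model `x = vl y ∈ vl a` (`y ∈ M`, `y ∈ dom a`) and `φ(x, vl w)` holds for some `w ∈ M`, then by `ev_truth`
`bv B φ (cons y (cons w (lk l))) ∈ U`, the supremum over `w' ∈ W` of `bv B φ (cons y (cons w' (lk l)))` is in `U`, by `ev_sup` (family indexed by the elements of `W`, code:
the element itself; parameters `y`, …  by `Ev.diag`) there is `w' ∈ M`, `w' ∈ W` with value in `U`, so `φ(x, vl w')` and `vl w' ∈ vl Bd`.  By uniqueness of the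
value `vl w = vl w'`.  So all values are in `vl Bd`; now use separation with the formula `∃ x ∈ a, φ(x, y, v)`: with the assignment
`cons y (cons a v)` it is `neg (all (neg (and (mem 0 2) (φ.rn f))))` where `f 0 = 0`, `f 1 = 1`, `f (n+2) = n+3` (`sat_rn` in FBZ/DA1: `Sat N (φ.rn f) v ↔ Sat N φ (fun n => v (f n))`).

ZF: `GZA`, `nm_trans`.
-/

set_option autoImplicit false

namespace Pool.Agent.CAN
open ZFSet Pool.Agent.FBZ

private noncomputable def GZR_lk (l : List ZFSet.{1}) (i : ℕ) : ZFSet.{1} := l.getD i ∅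

private theorem GZR_lk_mem {M : ZFSet.{1}} (h0 : (∅ : ZFSet.{1}) ∈ M) {l : List ZFSet.{1}}
    (hl : ∀ x ∈ l, x ∈ M) (i : ℕ) : GZR_lk l i ∈ M := by
  rw [GZR_lk]
  by_cases h : i < l.length
  · rw [List.getD_eq_getElem _ _ h]
    exact hl _ (List.getElem_mem h)
  · rw [List.getD_eq_default _ _ (not_lt.1 h)]
    exact h0

private theorem GZR_lk_map (w : ℕ → ZFSet.{1}) (k i : ℕ) (h : i < k) :
    GZR_lk ((List.range k).map w) i = w i := by
  rw [GZR_lk, List.getD_eq_getElem _ _ (by simpa using h)]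
  simp

private noncomputable def GZR_b (B : Type 1) [CompleteBooleanAlgebra B] (φ : Fml) (l : List ZFSet.{1})
    (y w : ZFSet.{1}) : B := bv B φ (cons y (cons w (GZR_lk l)))

open Classical in
private noncomputable def GZR_p (B : Type 1) [CompleteBooleanAlgebra B] (φ : Fml) (l : List ZFSet.{1})
    (y : ZFSet.{1}) (b : B) : ZFSet.{1} :=
  if h : ∃ w, GZR_b B φ l y w = b then h.choose else ∅

private noncomputable def GZR_W (B : Type 1) [CompleteBooleanAlgebra B] (φ : Fml) (l : List ZFSet.{1})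
    (a : ZFSet.{1}) : ZFSet.{1} :=
  ZFSet.range (fun p : ↥(dom a) × B => GZR_p B φ l p.1.1 p.2)

private theorem GZR_exists (B : Type 1) [CompleteBooleanAlgebra B] (φ : Fml) (l : List ZFSet.{1})
    (a y w : ZFSet.{1}) (hy : y ∈ dom a) : ∃ w' ∈ GZR_W B φ l a, GZR_b B φ l y w' = GZR_b B φ l y w := by
  have h : ∃ w', GZR_b B φ l y w' = GZR_b B φ l y w := ⟨w, rfl⟩
  refine ⟨GZR_p B φ l y (GZR_b B φ l y w), ?_, ?_⟩
  · rw [GZR_W, mem_range]
    exact ⟨(⟨y, hy⟩, GZR_b B φ l y w), rfl⟩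
  · rw [GZR_p, dif_pos h]
    exact h.choose_spec

private def GZR_f (n : ℕ) : ℕ := if n < 2 then n else n + 1

theorem ev_replacement (B : Type 1) [CompleteBooleanAlgebra B] :
    Ev (fun M => ∀ U : Set B, GenF Set.univ M U → ∀ (φ : Fml) (v : ℕ → ZFSet.{0}), In (Nm M U) v → ∀ a ∈ Nm M U,
      (∀ x ∈ a, ∃! y, y ∈ Nm M U ∧ Sat (Nm M U) φ (cons x (cons y v))) →
      ∃ b ∈ Nm M U, ∀ y, y ∈ b ↔ y ∈ Nm M U ∧ ∃ x ∈ a, Sat (Nm M U) φ (cons x (cons y v))) := by
  have e1 : Ev (fun M => ∀ φ : Fml, ∀ l : List ZFSet.{1}, (∀ x ∈ l, x ∈ M) → ∀ a : ZFSet.{1}, InM a M →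
      InM (mkn (fun _ => (⊤ : B)) (GZR_W B φ l a)) M) :=
    Ev.all_ctbl fun φ => Ev.diag_list fun l => Ev.fn1 _
  have e2 : Ev (fun M => ∀ φ : Fml, ∀ l : List ZFSet.{1}, (∀ x ∈ l, x ∈ M) → ∀ a y : ZFSet.{1}, InM a M →
      InM y M → InM (⨆ w : {w // w ∈ GZR_W B φ l a}, GZR_b B φ l y w.1) M) :=
    Ev.all_ctbl fun φ => Ev.diag_list fun l => Ev.fn2 _
  have e3 : Ev (fun M => ∀ φ : Fml, ∀ l : List ZFSet.{1}, (∀ x ∈ l, x ∈ M) → ∀ a : ZFSet.{1}, InM a M →
      ∀ y : ZFSet.{1}, InM y M → ∀ U : Set B, GenF Set.univ M U →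
      (⨆ w : {w // w ∈ GZR_W B φ l a}, GZR_b B φ l y w.1) ∈ U →
      ∃ w : {w // w ∈ GZR_W B φ l a}, w.1 ∈ M ∧ GZR_b B φ l y w.1 ∈ U) :=
    Ev.all_ctbl fun φ => Ev.diag_list fun l => Ev.diag fun a => Ev.diag fun y => ev_sup _ _
  refine (ev_ctbl0.and ((ev_bool (B := B)).and (e1.and (e2.and (e3.and ((ev_truth B).and
    ((ev_mem_dom B).and (ev_separation B)))))))).mono ?_
  rintro M ⟨⟨hc, h0⟩, hb, h1, h2, h3, ht, hd, hsep⟩ U hU φ v hv a ⟨a', ha', rfl⟩ huniq
  have htop : (⊤ : B) ∈ U := (hb U hU).1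
  have hw : ∀ i, ∃ x ∈ M, v i = vl M U x := hv
  choose w hw hvw using hw
  obtain ⟨k, hk, hkb⟩ := exists_bdf φ
  have hl : ∀ x ∈ (List.range k).map w, x ∈ M := by
    intro x hx
    obtain ⟨i, -, rfl⟩ := List.mem_map.1 hx
    exact hw i
  have hsat : ∀ y ∈ M, ∀ u ∈ M, (Sat (Nm M U) φ (cons (vl M U y) (cons (vl M U u) v)) ↔
      GZR_b B φ ((List.range k).map w) y u ∈ U) := by
    intro y hy u hu
    rw [GZR_b, ← ht U hU φ (cons y (cons u (GZR_lk ((List.range k).map w)))) (by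
      intro i
      rcases i with _ | _ | i
      · exact hy
      · exact hu
      · exact GZR_lk_mem h0 hl i)]
    apply hk
    intro i hi
    rcases i with _ | _ | i
    · rfl
    · rfl
    · change v i = vl M U (GZR_lk ((List.range k).map w) i)
      rw [GZR_lk_map w k i (by omega)]
      exact hvw i
  have ha0 : vl M U a' ∈ Nm M U := ⟨a', ha', rfl⟩
  have hBd : vl M U (mkn (fun _ => (⊤ : B)) (GZR_W B φ ((List.range k).map w) a')) ∈ Nm M U :=
    ⟨_, h1 φ _ hl a' ha', rfl⟩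
  have hbound : ∀ x ∈ vl M U a', ∀ y ∈ Nm M U, Sat (Nm M U) φ (cons x (cons y v)) →
      y ∈ vl M U (mkn (fun _ => (⊤ : B)) (GZR_W B φ ((List.range k).map w) a')) := by
    intro x hx y0 hy0 hs
    obtain ⟨y, hy, hyd, -, rfl⟩ := (hd U hU a' ha' x).1 hx
    obtain ⟨w0, hw0, rfl⟩ := hy0
    have h4 := (hsat y hy w0 hw0).1 hs
    obtain ⟨w1, hw1, hw1e⟩ := GZR_exists B φ ((List.range k).map w) a' y w0 hyd
    have h5 : (⨆ u : {u // u ∈ GZR_W B φ ((List.range k).map w) a'},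
        GZR_b B φ ((List.range k).map w) y u.1) ∈ U := by
      refine hU.up _ h4 _ (Set.mem_univ _) (h2 φ _ hl a' y ha' hy) ?_
      rw [← hw1e]
      exact le_iSup (fun u : {u // u ∈ GZR_W B φ ((List.range k).map w) a'} =>
        GZR_b B φ ((List.range k).map w) y u.1) ⟨w1, hw1⟩
    obtain ⟨⟨w2, hw2⟩, hw2M, hw2U⟩ := h3 φ _ hl a' ha' y hy U hU h5
    have h6 : Sat (Nm M U) φ (cons (vl M U y) (cons (vl M U w2) v)) := (hsat y hy w2 hw2M).2 hw2U
    have h7 : vl M U w0 = vl M U w2 :=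
      (huniq _ hx).unique ⟨⟨w0, hw0, rfl⟩, hs⟩ ⟨⟨w2, hw2M, rfl⟩, h6⟩
    rw [h7, vl_mkn hc h0]
    exact ⟨w2, hw2M, hw2, htop, rfl⟩
  have hv2 : In (Nm M U) (cons (vl M U a') v) := by
    intro i
    cases i with
    | zero => exact ha0
    | succ i => exact hv i
  obtain ⟨b, hbN, hbz⟩ := hsep U hU (.neg (.all (.neg (.and (.mem 0 2) (φ.rn GZR_f)))))
    (cons (vl M U a') v) hv2 _ hBd
  refine ⟨b, hbN, fun y => ?_⟩
  rw [hbz]
  have hform : Sat (Nm M U) (.neg (.all (.neg (.and (.mem 0 2) (φ.rn GZR_f))))) (cons y (cons (vl M U a') v)) ↔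
      ∃ x ∈ Nm M U, x ∈ vl M U a' ∧ Sat (Nm M U) φ (cons x (cons y v)) := by
    have h8 : ∀ x, (Sat (Nm M U) (φ.rn GZR_f) (cons x (cons y (cons (vl M U a') v))) ↔
        Sat (Nm M U) φ (cons x (cons y v))) := by
      intro x
      rw [sat_rn]
      have h9 : (fun n => cons x (cons y (cons (vl M U a') v)) (GZR_f n)) = cons x (cons y v) := by
        funext n
        rcases n with _ | _ | n
        · rfl
        · rfl
        · have h10 : GZR_f (n + 1 + 1) = n + 1 + 1 + 1 := by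
            rw [GZR_f, if_neg (by omega)]
          rw [h10]
          rfl
      rw [h9]
    change (¬ ∀ x ∈ Nm M U, ¬ (x ∈ vl M U a' ∧ Sat (Nm M U) (φ.rn GZR_f)
      (cons x (cons y (cons (vl M U a') v))))) ↔ _
    constructor
    · intro h
      by_contra hcon
      apply h
      intro x hx hx2
      exact hcon ⟨x, hx, hx2.1, (h8 x).1 hx2.2⟩
    · rintro ⟨x, hx, hx1, hx2⟩ h
      exact h x hx ⟨hx1, (h8 x).2 hx2⟩
  rw [hform]
  constructor
  · rintro ⟨hy, x, hx, hxa, hs⟩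
    exact ⟨nm_trans hc h0 _ hBd y hy, x, hxa, hs⟩
  · rintro ⟨hy, x, hxa, hs⟩
    exact ⟨hbound x hxa y hy hs, x, nm_trans hc h0 _ ha0 x hxa, hxa, hs⟩

theorem ev_zf (B : Type 1) [CompleteBooleanAlgebra B] :
    Ev (fun M => ∀ U : Set B, GenF Set.univ M U → ZF (Nm M U)) := by
  refine (ev_ctbl0.and ((ev_omega B).and ((ev_pairing B).and ((ev_union B).and ((ev_power B).and
    ((ev_separation B).and (ev_replacement B))))))).mono ?_
  rintro M ⟨⟨hc, h0⟩, h1, h2, h3, h4, h5, h6⟩ U hU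
  exact ⟨nm_trans hc h0, h1 U hU, h2 U hU, h3 U hU, h4 U hU, h5 U hU, h6 U hU⟩

end Pool.Agent.CAN
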