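import Pool.Agent.FBZ.Defs

/-!
# CAN: the final statement (definitions)

Everything takes place in Mathlib's `ZFSet`.  A model is a set `M` of `ZFSet`s, `Pool.Agent.FBZ.ZF M`
says that `M` is a transitive model of ZF, `Pool.Agent.FBZ.Ext M H` is the generic extension `M[H]`,
`Pool.Agent.FBZ.SuccCard M omega κ` says that `κ` is `ω₁` in the sense of `M`.

The notions below are the relativisations to a transitive class `M` of the usual notions.
-/

namespace Pool.Agent.CAN
open ZFSet Pool.Agent.FBZ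
universe u

/-- `M` is a transitive model of ZFC. -/
structure ZFC (M : Set ZFSet.{u}) : Prop where
  zf : ZF M
  choice : ∀ x ∈ M, (∀ y ∈ x, ∃ z, z ∈ y) →
    ∃ f ∈ M, IsFunc x (⋃₀ x : ZFSet.{u}) f ∧ ∀ y z, pair y z ∈ f → z ∈ y

/-- `κ` is `ω₁` in the sense of `M`. -/
def Omega1 (M : Set ZFSet.{u}) (κ : ZFSet.{u}) : Prop := SuccCard M ZFSet.omega κ

/-- `x` is countable in the sense of `M`. -/
def Ctble (M : Set ZFSet.{u}) (x : ZFSet.{u}) : Prop :=
  x = ∅ ∨ ∃ f ∈ M, Surj f ZFSet.omega x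

/-- The continuum hypothesis in the sense of `M`: there is a function of `M` from `ω₁` onto the set
of all subsets of `ω`. -/
def CH (M : Set ZFSet.{u}) : Prop :=
  ∃ κ, Omega1 M κ ∧ ∃ f ∈ M, Surj f κ (powN M ZFSet.omega)

/-- `C` is a closed unbounded subset of the ordinal `κ`. -/
structure Club (κ C : ZFSet.{u}) : Prop where
  sub : C ⊆ κ
  unb : ∀ α ∈ κ, ∃ β ∈ C, α ∈ β
  closed : ∀ α ∈ κ, (∃ β, β ∈ α) → (∀ β ∈ α, ∃ γ ∈ C, γ ∈ α ∧ β ∈ γ) → α ∈ C

/-- `S` is a stationary subset of `ω₁` in the sense of `M`. -/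
def Stationary (M : Set ZFSet.{u}) (S : ZFSet.{u}) : Prop :=
  ∃ κ, Omega1 M κ ∧ S ⊆ κ ∧ ∀ C ∈ M, Club κ C → ∃ α ∈ C, α ∈ S

/-- `(T, lt)` is a tree in the sense of `M`: a strict partial order in which the predecessors of
every node are well-ordered (every nonempty set, in `M`, of predecessors of a node has a least
element).  `pair s t ∈ lt` means `s < t`. -/
structure Tree (M : Set ZFSet.{u}) (T lt : ZFSet.{u}) : Prop where
  field : lt ⊆ prod T T
  irrefl : ∀ s, pair s s ∉ lt
  trans : ∀ s t r, pair s t ∈ lt → pair t r ∈ lt → pair s r ∈ lt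
  wo : ∀ t ∈ T, ∀ A ∈ M, (∃ a, a ∈ A) → (∀ a ∈ A, pair a t ∈ lt) →
    ∃ a ∈ A, ∀ b ∈ A, b = a ∨ pair a b ∈ lt

/-- `b` is an uncountable chain (an uncountable linearly ordered set of nodes) of the tree, in the
sense of `M`. -/
structure UncChain (M : Set ZFSet.{u}) (T lt b : ZFSet.{u}) : Prop where
  sub : b ⊆ T
  chain : ∀ s ∈ b, ∀ t ∈ b, s = t ∨ pair s t ∈ lt ∨ pair t s ∈ lt
  unc : ¬ Ctble M b

/-- In the sense of `M` the node `t` has height `α`: the set of the predecessors of `t` is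
isomorphic to the ordinal `α`. -/
def Height (M : Set ZFSet.{u}) (T lt t α : ZFSet.{u}) : Prop :=
  α.IsOrdinal ∧ ∃ f ∈ M, IsFunc α T f ∧ (∀ s, pair s t ∈ lt ↔ ∃ β, pair β s ∈ f) ∧
    ∀ β γ s r, pair β s ∈ f → pair γ r ∈ f → (β ∈ γ ↔ pair s r ∈ lt)

/-- `(T, lt)` is an Aronszajn tree in the sense of `M`: a tree of height `ω₁` with countable levels
and without an uncountable chain. -/
structure Aronszajn (M : Set ZFSet.{u}) (T lt : ZFSet.{u}) : Prop where
  tree : Tree M T lt
  height : ∀ κ, Omega1 M κ →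
    (∀ t ∈ T, ∃ α ∈ κ, Height M T lt t α) ∧ ∀ α ∈ κ, ∃ t ∈ T, Height M T lt t α
  levels : ∀ α, Ctble M (T.sep fun t => Height M T lt t α)
  nobranch : ∀ b ∈ M, ¬ UncChain M T lt b

/-- The tree `(T, lt)` is special in the sense of `M`: there is a function of `M` from `T` to `ω`
whose fibres are antichains. -/
def Special (M : Set ZFSet.{u}) (T lt : ZFSet.{u}) : Prop :=
  ∃ f ∈ M, IsFunc T ZFSet.omega f ∧ ∀ s t n, pair s t ∈ lt → pair s n ∈ f → pair t n ∉ f

/-- The forcing notion `(P, le) ∈ N` adds no new reals. -/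
def NoNewReals (N : Set ZFSet.{u}) (P le : ZFSet.{u}) : Prop :=
  ∀ H, Generic N P le H → ∀ x ∈ Ext N H, x ⊆ ZFSet.omega → x ∈ N

/-- The forcing notion `(P, le) ∈ N` forces that `S` is not stationary. -/
def Kills (N : Set ZFSet.{u}) (P le S : ZFSet.{u}) : Prop :=
  ∀ H, Generic N P le H → ¬ Stationary (Ext N H) S

/-- The forcing notion `(P, le) ∈ N` forces that the tree `(T, lt)` has an uncountable branch. -/
def AddsBranch (N : Set ZFSet.{u}) (P le T lt : ZFSet.{u}) : Prop :=
  ∀ H, Generic N P le H → ∃ b ∈ Ext N H, UncChain (Ext N H) T lt b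

/-- The tree `(T, lt)` is stationarity-detecting in the sense of the countable transitive model
`N` (a canary tree): it has size `2 ^ ℵ₀`, it has no uncountable branch, and every forcing notion
which adds no new reals and kills some stationary subset of `ω₁` adds an uncountable branch. -/
structure Detecting (N : Set ZFSet.{u}) (T lt : ZFSet.{u}) : Prop where
  tree : Tree N T lt
  card : ∃ f ∈ N, Surj f T (powN N ZFSet.omega) ∧ ∀ s t x, pair s x ∈ f → pair t x ∈ f → s = t
  nobranch : ∀ b ∈ N, ¬ UncChain N T lt b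
  detects : ∀ S ∈ N, Stationary N S → ∀ P ∈ N, ∀ le ∈ N, Forcing P le →
    NoNewReals N P le → Kills N P le S → AddsBranch N P le T lt

/-- The countable transitive model asked for in Q1. -/
structure Model (N : Set ZFSet.{u}) : Prop where
  countable : N.Countable
  zfc : ZFC N
  ch : CH N
  special : ∀ T ∈ N, ∀ lt ∈ N, Aronszajn N T lt → Special N T lt
  nocanary : ∀ T ∈ N, ∀ lt ∈ N, ¬ Detecting N T lt

end Pool.Agent.CAN
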