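import Pool.Agent.CAN.HDefs
import Pool.Agent.CAN.NPT
import Pool.Agent.CAN.CSR

/-!
# CAN/HA: complete embeddings and the truth values of Facts

All truth values are built from `⨆`, `⨅`, `⊓`, `⇨`, complements, so a complete embedding commutes with them.
`iSup'`: `CEmb.sup` for `Set.range f` (`Set.range_comp`).  `iInf'`: `CEmb.sInf`.  `himp'`: `himp_eq`.  `unbV'`, `closV'`, `clubV'`, `chainV'`, `clGood'`: unfold and
rewrite (`iSup`, `iInf` over subtypes and propositions are all covered by `Sort*`).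
`sys`: every field is an inequality or an equation `= ⊥` between elements of the range (`CEmb.le_iff`, `CEmb.bot`, injectivity).
`nobr`: given `x, b` for `R`, apply the hypothesis to `e ∘ x`, `e b`.
`special`: given `C, f` for `R`, take `e ∘ C`, `e ∘ f`.
`incl`: for complete subalgebras `A ⊆ C` the inclusion: `sup`: `Subtype.ext`, both sides have the value `sSup` of the same set.
`val_range`: trivial.
-/

set_option autoImplicit false

namespace Pool.Agent.CAN

section
variable {A C : Type 1} [CompleteBooleanAlgebra A] [CompleteBooleanAlgebra C] {e : A → C}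

theorem CEmb.iSup' (he : CEmb e) {ι : Sort*} (f : ι → A) : e (⨆ i, f i) = ⨆ i, e (f i) := by
  rw [iSup, he.sup, ← Set.range_comp]
  rfl

theorem CEmb.iInf' (he : CEmb e) {ι : Sort*} (f : ι → A) : e (⨅ i, f i) = ⨅ i, e (f i) := by
  rw [iInf, he.sInf, ← Set.range_comp]
  rfl

theorem CEmb.or' (he : CEmb e) (x y : A) : e (x ⊔ y) = e x ⊔ e y := by
  rw [← sSup_pair, he.sup, Set.image_pair, sSup_pair]

theorem CEmb.himp' (he : CEmb e) (x y : A) : e (x ⇨ y) = e x ⇨ e y := by
  rw [himp_eq, himp_eq, he.or', he.compl]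

theorem CEmb.ne_bot (he : CEmb e) {x : A} (hx : x ≠ ⊥) : e x ≠ ⊥ := by
  intro h
  rw [← he.bot] at h
  exact hx (he.inj h)

theorem CEmb.unbV' (he : CEmb e) (x : Om → A) : e (unbV x) = unbV (fun a => e (x a)) := by
  unfold unbV
  rw [he.iInf']
  exact iInf_congr fun a => he.iSup' _

theorem CEmb.closV' (he : CEmb e) (x : Om → A) : e (closV x) = closV (fun a => e (x a)) := by
  unfold closV
  rw [he.iInf']
  refine iInf_congr fun a => ?_
  rw [he.himp', he.iInf']
  congr 1
  exact iInf_congr fun b => he.iSup' _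

theorem CEmb.clubV' (he : CEmb e) (x : Om → A) : e (clubV x) = clubV (fun a => e (x a)) := by
  unfold clubV
  rw [he.and, he.unbV', he.closV']

theorem CEmb.chainV' (he : CEmb e) (T : Om → Om → A) (x : Om → A) :
    e (chainV T x) = chainV (fun a b => e (T a b)) (fun a => e (x a)) := by
  unfold chainV
  rw [he.and, he.unbV', he.iInf']
  congr 1
  refine iInf_congr fun a => ?_
  rw [he.iInf']
  refine iInf_congr fun b => ?_
  rw [he.himp', he.and, he.or']

theorem CEmb.clGood' (he : CEmb e) (S : Om → A) (c : Cl) : e (ClGood S c) = ClGood (fun a => e (S a)) c := by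
  unfold ClGood
  rw [he.iInf']
  refine iInf_congr fun a => ?_
  rw [he.iInf']
  exact iInf_congr fun _ => he.compl _

theorem CEmb.sys (he : CEmb e) {R : Om → Om → ℕ → ℕ → A} {b₀ : A} :
    Sys (fun a b n m => e (R a b n m)) (e b₀) ↔ Sys R b₀ := by
  constructor
  · intro h
    refine ⟨fun a b hab n => ?_, fun a b n m m' hab hm => ?_, fun a n => ?_, fun a b c n m k hab hbc => ?_⟩
    · rw [← he.le_iff, he.iSup']
      exact h.tot a b hab n
    · apply he.inj
      rw [he.and, he.and, he.bot]
      exact h.uniq a b n m m' hab hm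
    · rw [← he.le_iff]
      exact h.refl a n
    · rw [← he.le_iff, he.and, he.and]
      exact h.comp a b c n m k hab hbc
  · intro h
    refine ⟨fun a b hab n => ?_, fun a b n m m' hab hm => ?_, fun a n => ?_, fun a b c n m k hab hbc => ?_⟩
    · rw [← he.iSup', he.le_iff]
      exact h.tot a b hab n
    · show e b₀ ⊓ e (R a b n m) ⊓ e (R a b n m') = ⊥
      rw [← he.and, ← he.and, h.uniq a b n m m' hab hm, he.bot]
    · exact he.le_iff.2 (h.refl a n)
    · show e b₀ ⊓ e (R b c n m) ⊓ e (R a b m k) ≤ e (R a c n k)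
      rw [← he.and, ← he.and, he.le_iff]
      exact h.comp a b c n m k hab hbc

theorem CEmb.nobr (he : CEmb e) {R : Om → Om → ℕ → ℕ → A} {b₀ : A}
    (h : NoBr (fun a b n m => e (R a b n m)) (e b₀)) : NoBr R b₀ := by
  intro x b hb h1 h2
  have h3 := h (fun a n => e (x a n)) (e b) (he.le_iff.2 hb) (fun a => by
    rw [← he.iSup', he.le_iff]
    exact h1 a) (fun a c n m hac => by
    show e b ⊓ e (x c n) ⊓ e (x a m) ≤ e (R a c n m)
    rw [← he.and, ← he.and, he.le_iff]
    exact h2 a c n m hac)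
  rw [← he.bot] at h3
  exact he.inj h3

theorem CEmb.special (he : CEmb e) {R : Om → Om → ℕ → ℕ → A} {b₀ : A} (h : SpecialV R b₀) :
    SpecialV (fun a b n m => e (R a b n m)) (e b₀) := by
  obtain ⟨C', f, h1, h2, h3⟩ := h
  refine ⟨fun a => e (C' a), fun a n q => e (f a n q), ?_, fun a n => ?_, fun a b n m q r hab hne => ?_⟩
  · rw [← he.clubV', he.le_iff]
    exact h1
  · show e b₀ ⊓ e (C' a) ≤ ⨆ q, e (f a n q)
    rw [← he.and, ← he.iSup', he.le_iff]
    exact h2 a n
  · refine h3 a b n m q r hab (fun h0 => hne ?_)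
    show e b₀ ⊓ e (C' a) ⊓ e (C' b) ⊓ e (R a b n m) ⊓ e (f a m q) ⊓ e (f b n r) = ⊥
    rw [← he.and, ← he.and, ← he.and, ← he.and, ← he.and, h0, he.bot]

/-- Conditions are mapped to conditions. -/
theorem CEmb.pos (he : CEmb e) {K : Type 1} {Good : K → A} {a : A} {c : K} (h : Pos Set.univ Good a c) :
    Pos (Set.range e) (fun c => e (Good c)) (e a) c := by
  exact ⟨⟨a, rfl⟩, he.ne_bot h.2.1, he.le_iff.2 h.2.2⟩

end

section
variable {A C D : Type 1} [CompleteBooleanAlgebra A] [CompleteBooleanAlgebra C] [CompleteBooleanAlgebra D]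

theorem CEmb.comp' {e : A → C} {f : C → D} (hf : CEmb f) (he : CEmb e) : CEmb (fun x => f (e x)) := by
  refine ⟨hf.inj.comp he.inj, fun s => ?_, fun x => ?_⟩
  · show f (e (sSup s)) = _
    rw [he.sup, hf.sup, ← Set.image_comp]
    rfl
  · show f (e xᶜ) = _
    rw [he.compl, hf.compl]

theorem CEmb.ident : CEmb (fun x : A => x) := by
  refine ⟨fun _ _ h => h, fun s => ?_, fun x => rfl⟩
  show sSup s = _
  rw [Set.image_id']

theorem CEmb.ofIso (f : A ≃o C) : CEmb (fun x => f x) := by
  refine ⟨f.injective, fun s => ?_, fun x => ?_⟩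
  · show f (sSup s) = sSup ((fun x => f x) '' s)
    rw [f.map_sSup, sSup_image]
  · exact map_compl' f x

end

section
variable {B : Type 1} [CompleteBooleanAlgebra B] {A C : Set B}

theorem CEmb.incl (hA : CSub A) (hC : CSub C) (h : A ⊆ C) :
    @CEmb A C hA.alg hC.alg (Set.inclusion h) := by
  let _ := hA.alg
  let _ := hC.alg
  refine ⟨Set.inclusion_injective h, fun s => ?_, fun x => rfl⟩
  apply Subtype.ext
  show sSup (Subtype.val '' s) = sSup (Subtype.val '' (Set.inclusion h '' s))
  rw [← Set.image_comp]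
  rfl

end

end Pool.Agent.CAN
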