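import Pool.Agent.CAN.NPT
import Pool.Agent.CAN.GNF

/-!
# CAN/HB: transfer back along a complete embedding `f : C0 → B`

As in `CAN/NPT` (read its header).  For models `M` closed under `f`, its inverse, images and preimages of sets: `InM (f x) M ↔ InM x M`;
`gen (f '' A') M = f (gen A' M)`, `ggen (f '' A') W i j = f (ggen A' W i j)`; for `G' ⊆ C0`: `GenF (f '' A') M (f '' G') ↔ GenF A' M G'`.
PP: for `q ∈ C'`, `InM q (W i)`: apply the hypothesis to `f q` and reflect the inequality (`CEmb.proj`, `CEmb.and`, `CEmb.le_iff`).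
NN: for `G'` with `InM G' (W i)`, `GenF A' M G'` apply the hypothesis to `f '' G'` (`InM` by closure) and `f q`: it gives `G''` with
`GenF (f '' C') M G''`; take `f ⁻¹' G''` (`G'' ⊆ f '' C'`, so `f '' (f ⁻¹' G'') = G''`).
`Distr.comap`: apply the hypothesis to `f '' (D n)` and `f q`.
-/

set_option autoImplicit false

namespace Pool.Agent.CAN

variable {B C0 : Type 1} [CompleteBooleanAlgebra B] [CompleteBooleanAlgebra C0] {A' C' : Set C0}

/-- closure properties of the models -/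
private structure HBCl (f : C0 → B) (M : ZFSet.{1}) : Prop where
  app : ∀ x, InM x M → InM (f x) M
  inv : ∀ x, InM (f x) M → InM x M
  img : ∀ D : Set C0, InM D M → InM (f '' D) M
  pre : ∀ D : Set B, InM D M → InM (f ⁻¹' D) M

private theorem HB_ev {f : C0 → B} (hf : CEmb f) : Ev (HBCl f) := by
  have h1 : Ev (fun M => ∀ x, InM x M → InM (f x) M) := Ev.fn1 f
  have h2 : Ev (fun M => ∀ x, InM x M → InM (Function.invFun f x) M) := Ev.fn1 (Function.invFun f)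
  have h3 : Ev (fun M => ∀ D : Set C0, InM D M → InM (f '' D) M) := Ev.fn1 (fun D : Set C0 => f '' D)
  have h4 : Ev (fun M => ∀ D : Set B, InM D M → InM (f ⁻¹' D) M) := Ev.fn1 (fun D : Set B => f ⁻¹' D)
  refine ((h1.and h2).and (h3.and h4)).mono ?_
  rintro M ⟨⟨k1, k2⟩, k3, k4⟩
  refine ⟨k1, fun x hx => ?_, k3, k4⟩
  have h := k2 _ hx
  rwa [Function.leftInverse_invFun hf.inj x] at h

private theorem HB_iInf {f : C0 → B} (hf : CEmb f) {ι : Sort*} (g : ι → C0) :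
    f (⨅ i, g i) = ⨅ i, f (g i) := by
  rw [iInf, hf.sInf, ← Set.range_comp]
  rfl

private theorem HB_top_pre {f : C0 → B} (hf : CEmb f) {A : Set C0} {D : Set B} (hD : D ⊆ f '' A)
    (hs : sSup D = ⊤) : f ⁻¹' D ⊆ A ∧ f '' (f ⁻¹' D) = D ∧ sSup (f ⁻¹' D) = ⊤ := by
  have h1 : f ⁻¹' D ⊆ A := by
    intro x hx
    obtain ⟨y, hy, hxy⟩ := hD hx
    rwa [← hf.inj hxy]
  have h2 : f '' (f ⁻¹' D) = D := by
    rw [Set.image_preimage_eq_iff]
    exact hD.trans (Set.image_subset_range f A)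
  refine ⟨h1, h2, hf.inj ?_⟩
  rw [hf.sup, h2, hs, hf.top]

private theorem HB_img_in {f : C0 → B} {M : ZFSet.{1}} (hM : HBCl f M) (D : Set C0) :
    f '' {d | d ∈ D ∧ InM d M} = {d | d ∈ f '' D ∧ InM d M} := by
  ext y
  constructor
  · rintro ⟨d, ⟨h1, h2⟩, rfl⟩
    exact ⟨⟨d, h1, rfl⟩, hM.app d h2⟩
  · rintro ⟨⟨d, h1, rfl⟩, h2⟩
    exact ⟨d, ⟨h1, hM.inv d h2⟩, rfl⟩

private theorem HB_gen {f : C0 → B} (hf : CEmb f) {M : ZFSet.{1}} (hM : HBCl f M) (A : Set C0) :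
    gen (f '' A) M = f (gen A M) := by
  apply le_antisymm
  · unfold gen
    rw [HB_iInf hf]
    refine le_iInf fun D => ?_
    rw [HB_iInf hf]
    refine le_iInf fun h1 => ?_
    rw [HB_iInf hf]
    refine le_iInf fun h2 => ?_
    rw [HB_iInf hf]
    refine le_iInf fun h3 => ?_
    rw [hf.sup, HB_img_in hM]
    refine gen_le (hM.img D h1) (Set.image_mono h2) ?_
    rw [← hf.sup, h3, hf.top]
  · refine le_gen fun D h1 h2 h3 => ?_
    obtain ⟨k1, k2, k3⟩ := HB_top_pre hf h2 h3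
    have h4 := gen_le (hM.pre D h1) k1 k3
    have h5 := hf.le_iff.2 h4
    rw [hf.sup, HB_img_in hM, k2] at h5
    exact h5

private theorem HB_ggen {f : C0 → B} (hf : CEmb f) {W : Om → ZFSet.{1}} {i : Om}
    (hW : ∀ k, i ≤ k → HBCl f (W k)) (A : Set C0) (j : Om) :
    ggen (f '' A) W i j = f (ggen A W i j) := by
  unfold ggen
  rw [HB_iInf hf]
  refine iInf_congr fun k => ?_
  rw [HB_iInf hf]
  refine iInf_congr fun hk => ?_
  rw [HB_iInf hf]
  refine iInf_congr fun _ => ?_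
  exact HB_gen hf (hW k hk) A

private theorem HB_pre {f : C0 → B} (hf : CEmb f) {M : ZFSet.{1}} (hM : HBCl f M) {A : Set C0}
    {G : Set B} (hG : GenF (f '' A) M G) : GenF A M (f ⁻¹' G) where
  sub x hx := by
    obtain ⟨⟨y, hy, hxy⟩, h2⟩ := hG.sub _ hx
    rw [hf.inj hxy] at hy
    exact ⟨hy, hM.inv x h2⟩
  up x hx y hy hyM hxy := hG.up _ hx _ ⟨y, hy, rfl⟩ (hM.app y hyM) (hf.le_iff.2 hxy)
  inf x hx y hy := by
    rw [Set.mem_preimage, hf.and]
    exact hG.inf _ hx _ hy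
  bot h := by
    rw [Set.mem_preimage, hf.bot] at h
    exact hG.bot h
  meet D hD hA hs := by
    obtain ⟨_, ⟨d, hd, rfl⟩, h⟩ := hG.meet (f '' D) (hM.img D hD) (Set.image_mono hA) (by
      rw [← hf.sup, hs, hf.top])
    exact ⟨d, hd, h⟩

private theorem HB_img {f : C0 → B} (hf : CEmb f) {M : ZFSet.{1}} (hM : HBCl f M) {A : Set C0}
    {G : Set C0} (hG : GenF A M G) : GenF (f '' A) M (f '' G) where
  sub := by
    rintro _ ⟨x, hx, rfl⟩
    exact ⟨⟨x, (hG.sub x hx).1, rfl⟩, hM.app x (hG.sub x hx).2⟩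
  up := by
    rintro _ ⟨x, hx, rfl⟩ _ ⟨y, hy, rfl⟩ hyM hxy
    exact ⟨y, hG.up x hx y hy (hM.inv y hyM) (hf.le_iff.1 hxy), rfl⟩
  inf := by
    rintro _ ⟨x, hx, rfl⟩ _ ⟨y, hy, rfl⟩
    exact ⟨x ⊓ y, hG.inf x hx y hy, hf.and x y⟩
  bot := by
    rintro ⟨x, hx, h⟩
    rw [← hf.bot] at h
    rw [hf.inj h] at hx
    exact hG.bot hx
  meet D hD hA hs := by
    obtain ⟨k1, -, k3⟩ := HB_top_pre hf hA hs
    obtain ⟨d, hd, h⟩ := hG.meet _ (hM.pre D hD) k1 k3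
    exact ⟨f d, hd, d, h, rfl⟩

theorem NP.comap {f : C0 → B} (hf : CEmb f) (hA : CSub A') (hC : CSub C')
    (h : NP (f '' A') (f '' C')) : NP A' C' := by
  constructor
  · refine (h.pp.and (EvT.of_ev (HB_ev hf))).mono ?_
    rintro W i - ⟨h1, h2⟩ j hj q hq hqW
    have h3 := h1 j hj (f q) ⟨q, hq, rfl⟩ ((h2 i le_rfl).app q hqW)
    rw [HB_ggen hf h2, HB_ggen hf h2, hf.proj hA, ← hf.and, ← hf.and, hf.proj hA] at h3
    exact hf.le_iff.1 h3
  · refine ((h.nn.and (EvN.of_ev (HB_ev hf))).and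
      (EvN.of_evT (EvT.of_ev (HB_ev hf)))).mono ?_
    rintro M W i - ⟨⟨h1, h2⟩, h3⟩ G hGW hG q hq hqM hqG
    obtain ⟨j, hj, G', k1, k2, k3, k4⟩ := h1 (f '' G) ((h3 i le_rfl).img G hGW) (HB_img hf h2 hG)
      (f q) ⟨q, hq, rfl⟩ (h2.app q hqM) (by
        rw [hf.proj hA]
        exact ⟨_, hqG, rfl⟩)
    refine ⟨j, hj, f ⁻¹' G', HB_pre hf h2 k1, k2, fun x hx => k3 ⟨x, hx, rfl⟩, ?_⟩
    have h5 : f '' (f ⁻¹' G') = G' := by
      rw [Set.image_preimage_eq_iff]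
      intro y hy
      obtain ⟨a, -, ha⟩ := (k1.sub y hy).1
      exact ⟨a, ha⟩
    have h6 : sInf G' = f (sInf (f ⁻¹' G')) := by
      rw [hf.sInf, h5]
    rw [h6, HB_ggen hf h3, ← hf.sInf, ← hf.and, hf.proj hA] at k4
    exact hf.le_iff.1 k4

theorem Distr.comap {f : C0 → B} (hf : CEmb f) (hA : CSub A') (h : Distr (f '' A')) : Distr A' := by
  intro D hD q hq hq0
  obtain ⟨_, ⟨r, hr, rfl⟩, hr0, hrq, hrD⟩ := h (fun n => f '' (D n)) (fun n =>
    ⟨Set.image_mono (hD n).1, by rw [← hf.sup, (hD n).2, hf.top]⟩) (f q) ⟨q, hq, rfl⟩ (by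
      intro h0
      rw [← hf.bot] at h0
      exact hq0 (hf.inj h0))
  refine ⟨r, hr, ?_, hf.le_iff.1 hrq, fun n => ?_⟩
  · rintro rfl
    exact hr0 hf.bot
  · obtain ⟨_, ⟨d, hd, rfl⟩, hrd⟩ := hrD n
    exact ⟨d, hd, hf.le_iff.1 hrd⟩

end Pool.Agent.CAN
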