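import Pool.Agent.CAN.HDefs
import Pool.Agent.CAN.OMB

/-!
# CAN/HC: smallness, closing off

`small_Om`: `Om` is the set of ordinals below `omega 1` (`Ordinal.small_Iio` or `small_subtype`-like lemmas).  `small_Co`, `small_Cl`: inject into `Om × Set Om` (sets of a small
type form a small type).  `small_TI`: products and `Option` (through `Sum`/`Equiv`) of small types.  `small_Kd`: finite.
`small_bdd`: a small family of ordinals is bounded (`Ordinal.bddAbove_range`/`bddAbove_of_small`), then `Order.succ`.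
`exists_closed`: PROOF.  Let `H b = max (succ b) (sup of succ (h b') for b' ≤ b)` (small family), so `b < H b`, `h b' < H b` for `b' ≤ b`.  Define by well-founded recursion
`f : Om → Ordinal.{0}`, `f ξ = H (sup of b0 and all f η, η < ξ)` (small family, `f ξ` is greater than `b0` and than all `f η`, `η < ξ`).  `f` is strictly increasing.  Let
`a = sup of f`.  `a` is a limit (no largest `f ξ`, since `f ξ < f ξ.s`).  For `b < a` there is `ξ` with `b ≤ f ξ` so `h b < f ξ.s ≤ a`.  `¬ CofW a`: if `g : ℕ → Ordinal` is cofinal below `a`,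
`g n ≤ f (ξ n)`; by `Om.bdd` some `ζ` is `> ξ n` for all `n`; `f ζ < a` must be `≤ g n ≤ f (ξ n) < f ζ`, a contradiction.
-/

set_option autoImplicit false

namespace Pool.Agent.CAN

instance small_Om : Small.{0} Om := by
  have h := Ordinal.small_Iio (Ordinal.omega.{0} 1)
  exact h

instance small_Co : Small.{0} Co := by
  refine small_of_injective (β := Om × Set Om) (f := fun c => (c.l, c.s)) ?_
  intro c c' h
  obtain ⟨l, s, hs⟩ := c
  obtain ⟨l', s', hs'⟩ := c'
  simp only [Prod.mk.injEq] at h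
  obtain ⟨rfl, rfl⟩ := h
  rfl

instance small_Cl : Small.{0} Cl := by
  refine small_of_injective (β := Om × Set Om) (f := fun c => (c.h, c.c)) ?_
  intro c c' h
  obtain ⟨l, s, _, _, _⟩ := c
  obtain ⟨l', s', _, _, _⟩ := c'
  simp only [Prod.mk.injEq] at h
  obtain ⟨rfl, rfl⟩ := h
  rfl

instance small_TI : Small.{0} TI :=
  small_of_injective (β := (Om × Om × ℕ × ℕ) ⊕ PUnit.{1})
    (f := Equiv.optionEquivSumPUnit.{0} (Om × Om × ℕ × ℕ)) (Equiv.injective _)

instance small_Kd : Small.{0} Kd := by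
  refine small_of_injective (β := Fin 3)
    (f := fun k => match k with | .sp => 0 | .br => 1 | .co => 2) ?_
  intro a b h
  cases a <;> cases b <;> simp_all

theorem small_bdd {X : Type 1} [Small.{0} X] (f : X → Ordinal.{0}) : ∃ a, ∀ x, f x < a := by
  have h1 : BddAbove (Set.range f) := Ordinal.bddAbove_of_small
  obtain ⟨b, hb⟩ := h1
  exact ⟨Order.succ b, fun x => Order.lt_succ_iff.2 (hb ⟨x, rfl⟩)⟩

private theorem hc_step (h : Ordinal.{0} → Ordinal.{0}) (b0 : Ordinal.{0}) (x : Om)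
    (g : ∀ y : Om, y < x → Ordinal.{0}) :
    ∃ c : Ordinal.{0}, b0 < c ∧ ∀ (y : Om) (hy : y < x), g y hy < c ∧ ∀ b, b ≤ g y hy → h b < c := by
  have hH : ∀ b : Ordinal.{0}, ∃ c : Ordinal.{0}, b < c ∧ ∀ b', b' ≤ b → h b' < c := by
    intro b
    have hs : Small.{0} (Set.Iic b) := inferInstance
    obtain ⟨c, hc⟩ := small_bdd (X := Set.Iic b) fun b' => h b'.1
    exact ⟨max c (Order.succ b), lt_max_of_lt_right (Order.lt_succ b),
      fun b' hb' => lt_max_of_lt_left (hc ⟨b', hb'⟩)⟩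
  choose H hH1 hH2 using hH
  have hs : Small.{0} {y : Om // y < x} := inferInstance
  obtain ⟨c, hc⟩ := small_bdd (X := {y : Om // y < x}) fun y => H (g y.1 y.2)
  refine ⟨max c (Order.succ b0), lt_max_of_lt_right (Order.lt_succ b0), fun y hy => ?_⟩
  have h1 : H (g y hy) < c := hc ⟨y, hy⟩
  exact ⟨lt_max_of_lt_left ((hH1 _).trans h1), fun b hb => lt_max_of_lt_left ((hH2 _ b hb).trans h1)⟩

private theorem hc_exists (h : Ordinal.{0} → Ordinal.{0}) (b0 : Ordinal.{0}) :
    ∃ f : Om → Ordinal.{0}, (∀ x, b0 < f x) ∧ (∀ y x, y < x → f y < f x) ∧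
      ∀ y x, y < x → ∀ b, b ≤ f y → h b < f x := by
  let F : ∀ x : Om, (∀ y : Om, y < x → Ordinal.{0}) → Ordinal.{0} :=
    fun x g => Classical.choose (hc_step h b0 x g)
  let f : Om → Ordinal.{0} := (wellFounded_lt (α := Om)).fix F
  have hf : ∀ x, f x = F x fun y _ => f y := fun x => (wellFounded_lt (α := Om)).fix_eq F x
  have hs : ∀ x, b0 < f x ∧ ∀ (y : Om) (_ : y < x), f y < f x ∧ ∀ b, b ≤ f y → h b < f x := by
    intro x
    rw [hf x]
    exact Classical.choose_spec (hc_step h b0 x fun y _ => f y)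
  exact ⟨f, fun x => (hs x).1, fun y x hy => ((hs x).2 y hy).1, fun y x hy => ((hs x).2 y hy).2⟩

theorem exists_closed (h : Ordinal.{0} → Ordinal.{0}) (b0 : Ordinal.{0}) :
    ∃ a, b0 < a ∧ Order.IsSuccLimit a ∧ ¬ CofW a ∧ ∀ b, b < a → h b < a := by
  obtain ⟨f, hb0, hmono, hh⟩ := hc_exists h b0
  have hbdd : BddAbove (Set.range f) := Ordinal.bddAbove_of_small
  have hle : ∀ x, f x ≤ ⨆ y, f y := fun x => le_ciSup hbdd x
  have hlt : ∀ x, f x < ⨆ y, f y := fun x => (hmono x x.s (Om.lt_s x)).trans_le (hle _)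
  have hex : ∀ b, b < ⨆ y, f y → ∃ x, b < f x := by
    intro b hb
    have : Nonempty Om := ⟨Om.z⟩
    exact exists_lt_of_lt_ciSup hb
  refine ⟨⨆ y, f y, (hb0 Om.z).trans (hlt _), ⟨?_, ?_⟩, ?_, ?_⟩
  · intro hmin
    exact hmin.not_lt ((hb0 Om.z).trans (hlt _))
  · intro b hb
    obtain ⟨x, hx⟩ := hex b hb.1
    exact hb.2 hx (hlt x)
  · rintro ⟨g, hg, hcof⟩
    choose ξ hξ using fun n => hex (g n) (hg n)
    obtain ⟨ζ, hζ⟩ := Om.bdd (Set.countable_range ξ)
    obtain ⟨n, hn⟩ := hcof (f ζ) (hlt ζ)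
    have h1 : f (ξ n) < f ζ := hmono _ _ (hζ _ ⟨n, rfl⟩)
    exact absurd (hn.trans_lt (hξ n)) h1.not_gt
  · intro b hb
    obtain ⟨x, hx⟩ := hex b hb
    exact (hh x x.s (Om.lt_s x) b hx.le).trans (hlt _)

end Pool.Agent.CAN
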