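import Pool.Agent.CAN.TDefs
import Pool.Agent.CAN.PRA

/-!
# CAN/TWL: facts on `Two`

* `ne_bot`: `proj A (ι a c) = a ≠ ⊥` and `proj_bot`.  `le_fst`: `ι a c ≤ proj A (ι a c) = a`.
* `le_of_le`: for `a' ≤ a`, `c' ≤ c`: `ι a' c' ≤ ι a' c` (`mono`) and `ι a' c = a' ⊓ ι a c` (`res` with `b = a'`, `a' ⊓ a = a'`).
* `eq_iSup`: density.  `two_proj_eq`: `proj_iSup` and `proj (ι a c) = a`.
* `do_of_sup`: open: `le_of_le`; dense: `ι a c ≠ ⊥` meets some `e ∈ E` (`sSup E = ⊤`), take a condition with `ι a₁ c₁ ≤ ι a c ⊓ e` and use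
  `sep` for `ι a₁ c₁ ≤ ι a c`: a condition `(a'', c'')` below both.
* `iota_sup`: for a fixed `c` and `a ≤ Good c`: every condition below is met.
-/

set_option autoImplicit false

namespace Pool.Agent.CAN

variable {B : Type 1} [CompleteBooleanAlgebra B] {K : Type 1} [Preorder K] {A C : Set B} {Good : K → B} {ι : B → K → B}

theorem Two.ne_bot (h : Two A C Good ι) {a : B} {c : K} (hp : Pos A Good a c) : ι a c ≠ ⊥ := by
  intro h0
  have h1 := h.proj a c hp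
  rw [h0, proj_bot h.subA] at h1
  exact hp.2.1 h1.symm

theorem Two.le_fst (h : Two A C Good ι) {a : B} {c : K} (hp : Pos A Good a c) : ι a c ≤ a := by
  have h1 := le_proj (A := A) (ι a c)
  rwa [h.proj a c hp] at h1

theorem Two.le_of_le (h : Two A C Good ι) {a a' : B} {c c' : K} (hp : Pos A Good a c) (hp' : Pos A Good a' c')
    (ha : a' ≤ a) (hc : c' ≤ c) : ι a' c' ≤ ι a c := by
  have h0 : a' ⊓ a = a' := inf_eq_left.2 ha
  have h1 : Pos A Good (a' ⊓ a) c := by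
    rw [h0]
    exact ⟨hp'.1, hp'.2.1, ha.trans hp.2.2⟩
  have h2 := h.res a a' c hp h1 hp'.1
  rw [h0] at h2
  have h3 := h.mono a' c c' hc hp'
  rw [h2] at h3
  exact h3.trans inf_le_right

private theorem TWL_mem (h : Two A C Good ι) (x : B) :
    (⨆ (a : B) (c : K) (_ : Pos A Good a c ∧ ι a c ≤ x), ι a c) ∈ C :=
  h.subC.iSup fun a => h.subC.iSup fun c => h.subC.iSup fun hp => h.mem a c hp.1

private theorem TWL_ge (h : Two A C Good ι) (x : B) :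
    (⨆ (a : B) (c : K) (_ : Pos A Good a c ∧ ι a c ≤ x), ι a c) ≤ x :=
  iSup_le fun _ => iSup_le fun _ => iSup_le fun hp => hp.2

theorem Two.eq_iSup (h : Two A C Good ι) {x : B} (hx : x ∈ C) :
    x = ⨆ (a : B) (c : K) (_ : Pos A Good a c ∧ ι a c ≤ x), ι a c := by
  refine le_antisymm ?_ (TWL_ge h x)
  obtain ⟨y, hy⟩ : ∃ y, y = ⨆ (a : B) (c : K) (_ : Pos A Good a c ∧ ι a c ≤ x), ι a c := ⟨_, rfl⟩
  have hyC : y ∈ C := by
    rw [hy]
    exact TWL_mem h x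
  rw [← hy]
  by_contra hcon
  have h1 : x ⊓ yᶜ ≠ ⊥ := by
    intro h0
    exact hcon (disjoint_compl_right_iff.1 (disjoint_iff.2 h0))
  obtain ⟨a, c, hp, hle⟩ := h.dense (x ⊓ yᶜ) (h.subC.and hx (h.subC.compl y hyC)) h1
  have h2 : ι a c ≤ y := by
    rw [hy]
    exact le_iSup_of_le a (le_iSup_of_le c (le_iSup_of_le ⟨hp, hle.trans inf_le_left⟩ le_rfl))
  have h3 : ι a c ≤ yᶜ := hle.trans inf_le_right
  apply h.ne_bot hp
  rw [eq_bot_iff, ← inf_compl_eq_bot (a := y)]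
  exact le_inf h2 h3

theorem two_proj_eq (h : Two A C Good ι) {x : B} (hx : x ∈ C) :
    proj A x = ⨆ (a : B) (c : K) (_ : Pos A Good a c ∧ ι a c ≤ x), a := by
  conv_lhs => rw [h.eq_iSup hx]
  rw [proj_iSup h.subA]
  refine iSup_congr fun a => ?_
  rw [proj_iSup h.subA]
  refine iSup_congr fun c => ?_
  rw [proj_iSup h.subA]
  refine iSup_congr fun hp => ?_
  exact h.proj a c hp.1

private theorem TWL_meet {x : B} (hx : x ≠ ⊥) {E : Set B} (hs : sSup E = ⊤) : ∃ e ∈ E, x ⊓ e ≠ ⊥ := by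
  by_contra hcon
  push Not at hcon
  apply hx
  have h1 : x ⊓ sSup E = ⊥ := by
    rw [inf_sSup_eq]
    exact le_bot_iff.1 (iSup_le fun e => iSup_le fun he => (hcon e he).le)
  rwa [hs, inf_top_eq] at h1

theorem Two.do_of_sup (h : Two A C Good ι) {E : Set B} (hE : E ⊆ C) (hs : sSup E = ⊤) :
    DO A Good {p : B × K | Pos A Good p.1 p.2 ∧ ∃ e ∈ E, ι p.1 p.2 ≤ e} := by
  refine ⟨fun a c hac => hac.1, ?_, ?_⟩
  · intro a c a' c' hac hp' ha hc
    obtain ⟨hp, e, he, hle⟩ := hac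
    exact ⟨hp', e, he, (h.le_of_le hp hp' ha hc).trans hle⟩
  · intro a c hp
    obtain ⟨e, he, hne⟩ := TWL_meet (h.ne_bot hp) hs
    obtain ⟨a1, c1, hp1, hle⟩ := h.dense (ι a c ⊓ e) (h.subC.and (h.mem a c hp) (hE he)) hne
    obtain ⟨a2, c2, hp2, h1, h2, h3, h4⟩ := h.sep a c a1 c1 hp hp1 (hle.trans inf_le_left)
    exact ⟨a2, c2, ⟨hp2, e, he, (h.le_of_le hp1 hp2 h2 h4).trans (hle.trans inf_le_right)⟩, h1, h3⟩

theorem Two.do_all (h : Two A C Good ι) : DO A Good {p : B × K | Pos A Good p.1 p.2} := by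
  refine ⟨fun a c hac => hac, ?_, ?_⟩
  · intro a c a' c' _ hp' _ _
    exact hp'
  · intro a c hp
    exact ⟨a, c, hp, le_rfl, le_rfl⟩

theorem Two.do_decide (h : Two A C Good ι) {x : B} (hx : x ∈ A) :
    DO A Good {p : B × K | Pos A Good p.1 p.2 ∧ (p.1 ≤ x ∨ p.1 ≤ xᶜ)} := by
  refine ⟨fun a c hac => hac.1, ?_, ?_⟩
  · intro a c a' c' hac hp' ha hc
    refine ⟨hp', ?_⟩
    rcases hac.2 with h1 | h1
    · exact Or.inl (ha.trans h1)
    · exact Or.inr (ha.trans h1)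
  · intro a c hp
    by_cases h0 : a ⊓ x = ⊥
    · refine ⟨a, c, ⟨hp, Or.inr ?_⟩, le_rfl, le_rfl⟩
      exact le_compl_iff_disjoint_right.2 (disjoint_iff.2 h0)
    · exact ⟨a ⊓ x, c, ⟨⟨h.subA.and hp.1 hx, h0, inf_le_left.trans hp.2.2⟩, Or.inl inf_le_right⟩,
        inf_le_left, le_rfl⟩

section map

variable {C0 : Type 1} [CompleteBooleanAlgebra C0] {f : C0 → B}

private theorem TWL_bot (hf : CEmb f) : f ⊥ = ⊥ := by
  have := hf.sup ∅
  rwa [sSup_empty, Set.image_empty, sSup_empty] at this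

private theorem TWL_sup2 (hf : CEmb f) (x y : C0) : f (x ⊔ y) = f x ⊔ f y := by
  have := hf.sup {x, y}
  rwa [sSup_pair, Set.image_pair, sSup_pair] at this

private theorem TWL_top (hf : CEmb f) : f ⊤ = ⊤ := by
  rw [← compl_bot, hf.compl, TWL_bot hf, compl_bot]

private theorem TWL_inf2 (hf : CEmb f) (x y : C0) : f (x ⊓ y) = f x ⊓ f y := by
  have h1 : x ⊓ y = (xᶜ ⊔ yᶜ)ᶜ := by rw [compl_sup, compl_compl, compl_compl]
  rw [h1, hf.compl, TWL_sup2 hf, hf.compl, hf.compl, compl_sup, compl_compl, compl_compl]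

private theorem TWL_le (hf : CEmb f) {x y : C0} : f x ≤ f y ↔ x ≤ y := by
  rw [← sup_eq_right, ← TWL_sup2 hf, hf.inj.eq_iff, sup_eq_right]

private theorem TWL_ne (hf : CEmb f) {x : C0} : f x ≠ ⊥ ↔ x ≠ ⊥ := by
  rw [← TWL_bot hf, hf.inj.ne_iff]

private theorem TWL_sInf (hf : CEmb f) (s : Set C0) : f (sInf s) = sInf (f '' s) := by
  have h1 : sInf s = (sSup (compl '' s))ᶜ := by
    rw [compl_sSup', ← Set.image_comp]
    simp
  have h2 : sInf (f '' s) = (sSup (compl '' (f '' s)))ᶜ := by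
    rw [compl_sSup', ← Set.image_comp compl compl]
    simp
  rw [h1, hf.compl, hf.sup, h2]
  congr 2
  rw [← Set.image_comp, ← Set.image_comp]
  exact Set.image_congr fun x _ => hf.compl x

private theorem TWL_csub (hf : CEmb f) {A' : Set C0} (h : CSub A') : CSub (f '' A') := by
  constructor
  · intro s hs
    have h1 : s = f '' (A' ∩ f ⁻¹' s) := by
      ext x
      constructor
      · intro hx
        obtain ⟨a, ha, rfl⟩ := hs hx
        exact ⟨a, ⟨ha, hx⟩, rfl⟩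
      · rintro ⟨a, ⟨_, ha⟩, rfl⟩
        exact ha
    rw [h1, ← hf.sup]
    exact ⟨_, h.sup _ Set.inter_subset_left, rfl⟩
  · rintro _ ⟨a, ha, rfl⟩
    exact ⟨aᶜ, h.compl a ha, hf.compl a⟩

private theorem TWL_proj (hf : CEmb f) (A' : Set C0) (x : C0) :
    proj (f '' A') (f x) = f (proj A' x) := by
  unfold proj
  rw [TWL_sInf hf]
  congr 1
  ext y
  constructor
  · rintro ⟨⟨a, ha, rfl⟩, hle⟩
    exact ⟨a, ⟨ha, (TWL_le hf).1 hle⟩, rfl⟩
  · rintro ⟨a, ⟨ha, hle⟩, rfl⟩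
    exact ⟨⟨a, ha, rfl⟩, (TWL_le hf).2 hle⟩

private theorem TWL_pos (hf : CEmb f) {A' : Set C0} {Good' : K → C0} {a : B} {c : K}
    (hp : Pos (f '' A') (fun c => f (Good' c)) a c) : ∃ a', f a' = a ∧ Pos A' Good' a' c := by
  obtain ⟨⟨a', ha', rfl⟩, h1, h2⟩ := hp
  exact ⟨a', rfl, ha', (TWL_ne hf).1 h1, (TWL_le hf).1 h2⟩

private theorem TWL_pos' (hf : CEmb f) {A' : Set C0} {Good' : K → C0} {a : C0} {c : K}
    (hp : Pos A' Good' a c) : Pos (f '' A') (fun c => f (Good' c)) (f a) c :=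
  ⟨⟨a, hp.1, rfl⟩, (TWL_ne hf).2 hp.2.1, (TWL_le hf).2 hp.2.2⟩

private theorem TWL_map {A' C' : Set C0} {Good' : K → C0} {ι' : C0 → K → C0}
    (h : Two A' C' Good' ι') (hf : CEmb f) (ι : B → K → B) (hι : ∀ a c, ι (f a) c = f (ι' a c)) :
    Two (f '' A') (f '' C') (fun c => f (Good' c)) ι := by
  refine ⟨TWL_csub hf h.subA, TWL_csub hf h.subC, Set.image_mono h.incl, fun c => ⟨_, h.good c, rfl⟩,
    fun c c' hc => (TWL_le hf).2 (h.anti c c' hc), ?_, ?_, ?_, ?_, ?_, ?_, ?_⟩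
  · intro a c hp
    obtain ⟨a', rfl, hp'⟩ := TWL_pos hf hp
    rw [hι]
    exact ⟨_, h.mem a' c hp', rfl⟩
  · intro a c hp
    obtain ⟨a', rfl, hp'⟩ := TWL_pos hf hp
    rw [hι, TWL_proj hf, h.proj a' c hp']
  · intro a b c hp hp2 hb
    obtain ⟨a', rfl, hp'⟩ := TWL_pos hf hp
    obtain ⟨b', hb', rfl⟩ := hb
    rw [← TWL_inf2 hf] at hp2 ⊢
    obtain ⟨x, hx, hpx⟩ := TWL_pos hf hp2
    have hx' := hf.inj hx
    rw [hx'] at hpx
    rw [hι, hι, h.res a' b' c hp' hpx hb', TWL_inf2 hf]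
  · intro a c c' hc hp
    obtain ⟨a', rfl, hp'⟩ := TWL_pos hf hp
    rw [hι, hι, TWL_le hf]
    exact h.mono a' c c' hc hp'
  · rintro _ ⟨x, hx, rfl⟩ hne
    obtain ⟨a, c, hp, hle⟩ := h.dense x hx ((TWL_ne hf).1 hne)
    exact ⟨f a, c, TWL_pos' hf hp, by rw [hι, TWL_le hf]; exact hle⟩
  · intro a c a' c' hp hp' hle
    obtain ⟨b, rfl, hb⟩ := TWL_pos hf hp
    obtain ⟨b', rfl, hb'⟩ := TWL_pos hf hp'
    rw [hι, hι, TWL_le hf] at hle
    obtain ⟨a2, c2, hp2, h1, h2, h3, h4⟩ := h.sep b c b' c' hb hb' hle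
    exact ⟨f a2, c2, TWL_pos' hf hp2, (TWL_le hf).2 h1, (TWL_le hf).2 h2, h3, h4⟩
  · obtain ⟨c0, h1, h2⟩ := h.top
    refine ⟨c0, by rw [h1, TWL_top hf], ?_⟩
    rw [← TWL_top hf, hι, h2]

end map

/-- A complete embedding maps two-step extensions to two-step extensions. -/
theorem Two.map {C0 : Type 1} [CompleteBooleanAlgebra C0] {A' C' : Set C0} {Good' : K → C0} {ι' : C0 → K → C0}
    (h : Two A' C' Good' ι') (f : C0 → B) (hf : CEmb f) :
    ∃ ι : B → K → B, Two (f '' A') (f '' C') (fun c => f (Good' c)) ι ∧ ∀ a c, ι (f a) c = f (ι' a c) := by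
  have hι : ∀ a c, (fun b c => f (ι' (Function.invFun f b) c)) (f a) c = f (ι' a c) := by
    intro a c
    show f (ι' (Function.invFun f (f a)) c) = f (ι' a c)
    rw [Function.leftInverse_invFun hf.inj a]
  exact ⟨fun b c => f (ι' (Function.invFun f b) c), TWL_map h hf _ hι, hι⟩

end Pool.Agent.CAN
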