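import Pool.Agent.CAN.HA
import Pool.Agent.CAN.TWL

/-!
# CAN/HD: the task relation is invariant under isomorphisms

Let `f : A ≃o A'`, `g : C ≃o C'`, `t' i = f (t i)`, `e' x = g (e (f.symm x))`; so `e' (t' i) = g (e (t i))`.  `f`, `g` and their inverses are complete embeddings (`CEmb.ofIso`).
`sp`: `Sys (tR t') (tb t')` gives `Sys (tR t) (tb t)` by `CEmb.sys`, the same for `NoBr` (`CEmb.nobr`); then `CEmb.special` for `g`.
`br`, first alternative: `g ∘ x`, `CEmb.chainV'`, `CEmb.le_iff`.  Second: `Two.map` along `g` (`g '' range e = range e'`, `g '' univ = univ`, `g ⊤ = ⊤`); for `e'' : A' → D` apply the hypothesis to `e'' ∘ f` (`CEmb.comp'`; the same range).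
`co`: as in `br`.
-/

set_option autoImplicit false

namespace Pool.Agent.CAN

private theorem HD_two {A C A' C' : Type 1} [CompleteBooleanAlgebra A] [CompleteBooleanAlgebra C]
    [CompleteBooleanAlgebra A'] [CompleteBooleanAlgebra C'] (f : A ≃o A') (g : C ≃o C') {e : A → C}
    {ι : C → Co → C} (h : Two (Set.range e) Set.univ (fun _ => ⊤) ι) :
    ∃ ι : C' → Co → C', Two (Set.range fun x => g (e (f.symm x))) Set.univ (fun _ => ⊤) ι := by
  obtain ⟨ι', h', -⟩ := h.map (fun x => g x) (CEmb.ofIso g)
  refine ⟨ι', ?_⟩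
  have h1 : (fun x => g x) '' Set.range e = Set.range fun x => g (e (f.symm x)) := by
    ext y
    constructor
    · rintro ⟨_, ⟨x, rfl⟩, rfl⟩
      exact ⟨f x, by simp⟩
    · rintro ⟨x, rfl⟩
      exact ⟨_, ⟨f.symm x, rfl⟩, rfl⟩
  have h2 : (fun x => g x) '' (Set.univ : Set C) = Set.univ := by
    rw [Set.image_univ, Set.range_eq_univ]
    exact g.surjective
  have h3 : (fun _ : Co => (fun x => g x) (⊤ : C)) = fun _ => (⊤ : C') := by
    funext _
    exact (CEmb.ofIso g).top
  rw [h1, h2, h3] at h'
  exact h'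

theorem inv_PTk : Inv PTk := by
  intro A C a c A' C' a' c' f g t j e h
  have hf : CEmb (fun x => f x) := CEmb.ofIso f
  have hg : CEmb (fun x => g x) := CEmb.ofIso g
  cases j with
  | sp =>
    intro h1 h2
    have h3 : Sys (tR t) (tb t) := hf.sys.1 h1
    have h4 : NoBr (tR t) (tb t) := hf.nobr h2
    have h5 := hg.special (h h3 h4)
    have h6 : (fun a b n m => g (e (f.symm (tR (fun i => f (t i)) a b n m)))) =
        fun a b n m => g (e (tR t a b n m)) := by
      funext a b n m
      simp [tR]
    have h7 : g (e (f.symm (tb fun i => f (t i)))) = g (e (tb t)) := by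
      simp [tb]
    show SpecialV (fun a b n m => g (e (f.symm (tR (fun i => f (t i)) a b n m))))
      (g (e (f.symm (tb fun i => f (t i)))))
    rw [h6, h7]
    exact h5
  | br =>
    rcases h with ⟨x, hx⟩ | ⟨⟨ι, hι⟩, h2⟩
    · left
      refine ⟨fun a => g (x a), ?_⟩
      have h6 : (fun a b => g (e (f.symm (tT (fun i => f (t i)) a b)))) =
          fun a b => g (e (tT t a b)) := by
        funext a b
        simp [tT]
      have h7 : g (e (f.symm (tb fun i => f (t i)))) = g (e (tb t)) := by
        simp [tb]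
      show g (e (f.symm (tb fun i => f (t i)))) ≤
        chainV (fun a b => g (e (f.symm (tT (fun i => f (t i)) a b)))) fun a => g (x a)
      rw [h6, h7]
      have h8 := hg.chainV' (fun a b => e (tT t a b)) x
      rw [← h8]
      exact hg.le_iff.2 hx
    · right
      refine ⟨HD_two f g hι, ?_⟩
      intro D _ e' hD he' hN x hx
      refine h2 D _ (fun y => e' (f y)) hD (he'.comp' hf) ?_ x hx
      have h3 : Set.range (fun y => e' (f y)) = Set.range e' := by
        ext z
        constructor
        · rintro ⟨y, rfl⟩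
          exact ⟨f y, rfl⟩
        · rintro ⟨y, rfl⟩
          exact ⟨f.symm y, by simp⟩
      rw [h3]
      exact hN
  | co =>
    obtain ⟨ι, hι⟩ := h
    exact HD_two f g hι

end Pool.Agent.CAN
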