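import Pool.Agent.CAN.EIface
import Pool.Agent.CAN.Facts

/-!
# CAN part H (section 6): from the iteration to the facts about the final algebra (definitions)

* `SpecialV R b₀`: the conclusion of `Facts.special`.
* `TI`, `Kd`: index types of tasks.  A task `t : TI → A` codes a family `tR t` (a system), a relation `tT t` and an element
  `tb t`; the kinds are `sp` (specialise the system), `br` (a relation: add a chain or a Cohen set), `co` (add a Cohen set).
* `PTk`: the task relation used in the recursion.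
* `SpecStep`: the statement proved in part S.
* `FC`: as `ForcesChain` of `Facts`, for conditions `(e, c)` with `c : Cl`.
-/

set_option autoImplicit false

namespace Pool.Agent.CAN

section
universe u
variable {B : Type u} [CompleteBooleanAlgebra B]

/-- Names for a club and a specialising function on it. -/
def SpecialV (R : Om → Om → ℕ → ℕ → B) (b₀ : B) : Prop :=
  ∃ (C : Om → B) (f : Om → ℕ → ℚ → B), b₀ ≤ clubV C ∧
    (∀ a n, b₀ ⊓ C a ≤ ⨆ q, f a n q) ∧
    ∀ a b n m q r, a < b → b₀ ⊓ C a ⊓ C b ⊓ R a b n m ⊓ f a m q ⊓ f b n r ≠ ⊥ → q < r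

end

/-- Index type of the families coded by tasks. -/
abbrev TI : Type 1 := Option (Om × Om × ℕ × ℕ)

/-- The kinds of tasks. -/
inductive Kd : Type 1
  | sp
  | br
  | co

section
variable {A : Type*}

/-- The system coded by a task. -/
def tR (t : TI → A) : Om → Om → ℕ → ℕ → A := fun a b n m => t (some (a, b, n, m))

/-- The relation coded by a task. -/
def tT (t : TI → A) : Om → Om → A := fun a b => t (some (a, b, 0, 0))

/-- The element coded by a task. -/
def tb (t : TI → A) : A := t none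

end

/-- The task relation of the recursion. -/
def PTk : TaskRel TI Kd := fun A C _ _ t j e =>
  match j with
  | .sp => Sys (tR t) (tb t) → NoBr (tR t) (tb t) → SpecialV (fun a b n m => e (tR t a b n m)) (e (tb t))
  | .br => (∃ x : Om → C, e (tb t) ≤ chainV (fun a b => e (tT t a b)) x) ∨
      ((∃ ι : C → Co → C, Two (Set.range e) Set.univ (fun _ => ⊤) ι) ∧
        ∀ (D : Type 1) (_ : CompleteBooleanAlgebra D) (e' : A → D), Small.{0} D → CEmb e' →
          NP (Set.range e') Set.univ → ∀ x : Om → D, ¬ e' (tb t) ≤ chainV (fun a b => e' (tT t a b)) x)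
  | .co => ∃ ι : C → Co → C, Two (Set.range e) Set.univ (fun _ => ⊤) ι

/-- Part S: specialising a system without branches. -/
def SpecStep : Prop :=
  ∀ (A : Type 1) (_ : CompleteBooleanAlgebra A), (⊥ : A) ≠ ⊤ → Distr (Set.univ : Set A) →
    ∀ (R : Om → Om → ℕ → ℕ → A) (b₀ : A), Sys R b₀ → NoBr R b₀ →
      ∃ (C : Type 1) (_ : CompleteBooleanAlgebra C) (e : A → C), CEmb e ∧ NP (Set.range e) Set.univ ∧
        (Small.{0} A → Small.{0} C) ∧ SpecialV (fun a b n m => e (R a b n m)) (e b₀)

section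
variable {B : Type 1} [CompleteBooleanAlgebra B]

/-- `(e, c)` forces that `X` is (a name for) an unbounded chain of `T`. -/
structure FC (S : Om → B) (T : Om → Om → B) (X : Om → Set (B × Cl)) (e : B) (c : Cl) : Prop where
  unb : ∀ (a : Om) (e' : B) (c' : Cl), Pos Set.univ (ClGood S) e' c' → e' ≤ e → c' ≤ c →
    ∃ e'' c'', Pos Set.univ (ClGood S) e'' c'' ∧ e'' ≤ e' ∧ c'' ≤ c' ∧ ∃ b, a < b ∧ ∃ t ∈ X b, e'' ≤ t.1 ∧ c'' ≤ t.2
  chain : ∀ a b : Om, a ≠ b → ∀ (e' : B) (c' : Cl), Pos Set.univ (ClGood S) e' c' → e' ≤ e → c' ≤ c →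
    (∃ t ∈ X a, e' ≤ t.1 ∧ c' ≤ t.2) → (∃ t ∈ X b, e' ≤ t.1 ∧ c' ≤ t.2) → e' ⊓ (T a b ⊔ T b a) ≠ ⊥

/-- The algebra after the stage `a` is obtained by adding a Cohen set, and no small nice extension of the algebra
`S a` adds (with value at least `b₀`) an unbounded chain of `T`. -/
structure Br (S : Ordinal.{0} → Set B) (hS : Chain S) (T : Om → Om → B) (b₀ : B) (a : Ordinal.{0})
    (ι : B → Co → B) : Prop where
  two : Two (S a) (S (Order.succ a)) (fun _ => ⊤) ι
  memT : ∀ α β, T α β ∈ S a
  memb : b₀ ∈ S a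
  no : ∀ (D : Type 1) (_ : CompleteBooleanAlgebra D) (e : S a → D), Small.{0} D →
    (@CEmb (S a) D (hS.sub a).alg _ e) → NP (Set.range e) Set.univ →
    ∀ x : Om → D, ¬ e ⟨b₀, memb⟩ ≤ chainV (fun α β => e ⟨T α β, memT α β⟩) x

end

end Pool.Agent.CAN
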