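import Pool.Agent.CAN.Defs

/-!
# CAN: two-step extensions, ladders, Cohen conditions, closed bounded sets (definitions)

* `CEmb f`: `f` is a complete embedding of complete Boolean algebras.
* `Two A C Good ι`: `C` is the two-step extension of the complete subalgebra `A` by the forcing notion `K` in which
  `c : K` is available with the Boolean value `Good c`; `ι a c` (for `a ∈ A`, `a ≤ Good c`) is the condition `(a, c)`.
* `Pos A Good a c`: `(a, c)` is a condition.  `DO A Good D`: `D` is a dense open set of conditions.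
* `Ladder`: decreasing sequences whose heights are cofinal in `δ` have a lower bound of height `δ + 1`, on the Boolean
  value `v δ`.
* `Co`: Cohen conditions (bounded subsets of `ω₁`), `Cl`: closed bounded subsets of `ω₁`.
-/

set_option autoImplicit false

namespace Pool.Agent.CAN

/-- Complete embeddings. -/
structure CEmb {A C : Type*} [CompleteBooleanAlgebra A] [CompleteBooleanAlgebra C] (f : A → C) : Prop where
  inj : Function.Injective f
  sup : ∀ s : Set A, f (sSup s) = sSup (f '' s)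
  compl : ∀ x, f xᶜ = (f x)ᶜ

section
variable {B : Type 1} [CompleteBooleanAlgebra B] {K : Type 1} [Preorder K]

/-- `(a, c)` is a condition of the two-step iteration. -/
def Pos (A : Set B) (Good : K → B) (a : B) (c : K) : Prop := a ∈ A ∧ a ≠ ⊥ ∧ a ≤ Good c

/-- `C` is the two-step extension of `A` by the forcing `K` (with Boolean values `Good`). -/
structure Two (A C : Set B) (Good : K → B) (ι : B → K → B) : Prop where
  subA : CSub A
  subC : CSub C
  incl : A ⊆ C
  good : ∀ c, Good c ∈ A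
  anti : ∀ c c', c' ≤ c → Good c' ≤ Good c
  mem : ∀ a c, Pos A Good a c → ι a c ∈ C
  proj : ∀ a c, Pos A Good a c → proj A (ι a c) = a
  res : ∀ a b c, Pos A Good a c → Pos A Good (b ⊓ a) c → b ∈ A → ι (b ⊓ a) c = b ⊓ ι a c
  mono : ∀ a c c', c' ≤ c → Pos A Good a c' → ι a c' ≤ ι a c
  dense : ∀ x ∈ C, x ≠ ⊥ → ∃ a c, Pos A Good a c ∧ ι a c ≤ x
  sep : ∀ a c a' c', Pos A Good a c → Pos A Good a' c' → ι a' c' ≤ ι a c →
    ∃ a'' c'', Pos A Good a'' c'' ∧ a'' ≤ a ∧ a'' ≤ a' ∧ c'' ≤ c ∧ c'' ≤ c'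
  top : ∃ c0, Good c0 = ⊤ ∧ ι ⊤ c0 = ⊤

/-- Dense open sets of conditions. -/
structure DO (A : Set B) (Good : K → B) (D : Set (B × K)) : Prop where
  sub : ∀ a c, (a, c) ∈ D → Pos A Good a c
  opn : ∀ a c a' c', (a, c) ∈ D → Pos A Good a' c' → a' ≤ a → c' ≤ c → (a', c') ∈ D
  dns : ∀ a c, Pos A Good a c → ∃ a' c', (a', c') ∈ D ∧ a' ≤ a ∧ c' ≤ c

/-- `c` is an `M`-generic decreasing sequence of `K` over the filter `G`. -/
structure GSeq (A : Set B) (Good : K → B) (M : ZFSet.{1}) (G : Set B) (c : ℕ → K) : Prop where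
  mem : ∀ n, InM (c n) M
  anti : ∀ n, c (n + 1) ≤ c n
  good : ∀ n, Good (c n) ∈ G
  meet : ∀ D : Set (B × K), DO A Good D → InM D M → ∃ n, ∃ a ∈ G, (a, c n) ∈ D

/-- Lower bounds of decreasing sequences at the limit `δ` of the heights, on the Boolean value `v δ`. -/
structure Ladder (A : Set B) (Good : K → B) (v : Om → B) (ht : K → Om) (tag : K → Om → Prop) : Prop where
  vmem : ∀ δ, v δ ∈ A
  lim : ∀ (c : ℕ → K) (δ : Om), Lim δ → (∀ n, c (n + 1) ≤ c n) → (∀ n, ht (c n) < δ) →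
    (∀ a, a < δ → ∃ n, a < ht (c n)) →
    ∃ c', (∀ n, c' ≤ c n) ∧ ht c' = δ.s ∧ tag c' δ ∧ (⨅ n, Good (c n)) ⊓ v δ ≤ Good c'
  high : ∀ a c, Pos A Good a c → ∀ b : Om, ∃ a' c', Pos A Good a' c' ∧ a' ≤ a ∧ c' ≤ c ∧ b < ht c'
  tag_mono : ∀ c c' δ, c' ≤ c → tag c δ → tag c' δ
  ht_mono : ∀ c c', c' ≤ c → ht c ≤ ht c'

/-- The Boolean value of: some condition with the tag `δ` is in the generic filter. -/
noncomputable def tg (A : Set B) (Good : K → B) (ι : B → K → B) (tag : K → Om → Prop) (δ : Om) : B :=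
  ⨆ (a : B) (c : K) (_ : Pos A Good a c ∧ tag c δ), ι a c

end

/-! ### Cohen conditions -/

/-- A bounded subset of `ω₁` together with a length. -/
structure Co : Type 1 where
  l : Om
  s : Set Om
  sub : ∀ a ∈ s, a < l

instance : Preorder Co where
  le c' c := c.l ≤ c'.l ∧ ∀ a, a < c.l → (a ∈ c'.s ↔ a ∈ c.s)
  le_refl c := ⟨le_refl _, fun _ _ => Iff.rfl⟩
  le_trans c c' c'' h h' := ⟨h'.1.trans h.1, fun a ha => (h.2 a (ha.trans_le h'.1)).trans (h'.2 a ha)⟩

/-- The Boolean value of `a ∈ S`, `S` the Cohen set. -/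
noncomputable def CoS {B : Type 1} [CompleteBooleanAlgebra B] (ι : B → Co → B) (a : Om) : B :=
  ⨆ (c : Co) (_ : a < c.l ∧ a ∈ c.s), ι ⊤ c

/-! ### closed bounded sets -/

/-- A closed bounded subset of `ω₁`: it is empty and of height `0` or it has a largest element, and then its height is
the successor of the largest element. -/
structure Cl : Type 1 where
  h : Om
  c : Set Om
  sub : ∀ a ∈ c, a < h
  closed : ∀ a, a < h → Lim a → (∀ b, b < a → ∃ x ∈ c, b < x ∧ x < a) → a ∈ c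
  max : h.1 = 0 ∨ ∃ t ∈ c, h = t.s

instance : Preorder Cl where
  le c' c := c.h ≤ c'.h ∧ ∀ a, a < c.h → (a ∈ c'.c ↔ a ∈ c.c)
  le_refl c := ⟨le_refl _, fun _ _ => Iff.rfl⟩
  le_trans c c' c'' h h' := ⟨h'.1.trans h.1, fun a ha => (h.2 a (ha.trans_le h'.1)).trans (h'.2 a ha)⟩

/-- The Boolean value of `c ∩ S = ∅`. -/
noncomputable def ClGood {B : Type 1} [CompleteBooleanAlgebra B] (Sv : Om → B) (c : Cl) : B :=
  ⨅ (a : Om) (_ : a ∈ c.c), (Sv a)ᶜ

end Pool.Agent.CAN
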