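import Pool.Agent.CAN.ROA
import Pool.Agent.CAN.TDefs

/-!
# CAN/ROB: existence of the two-step extension

`P = {p : A × K // p.1 ≠ ⊥ ∧ p.1 ≤ Good p.2}` with the product order, `C, j` from `exists_ro`.
`e a = ⨆ {j (b, c) | b ≤ a}`.  Facts: (1) `j (b, c) ≤ e a ↔ b ≤ a`: if `b ⊓ aᶜ ≠ ⊥` then `j (b ⊓ aᶜ, c) ≤ e a` is a sup of `j (b', c')`, `b' ≤ a`, so
meets one of them, so (density and the fourth property of `j`) some condition is below `(b ⊓ aᶜ, c)` and `(b', c')`: impossible.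
(2) `e` preserves `sSup`: an element `j (b, c) ≤ e (sSup s)` has `b ≤ sSup s`; if it did not meet `sSup (e '' s)`: some `a ∈ s` has `b ⊓ a ≠ ⊥` and
`j (b ⊓ a, c) ≤ e a`.  (3) complements: `e a ⊔ e aᶜ = ⊤` (every `(b, c)` has `b ⊓ a ≠ ⊥` or `b ⊓ aᶜ ≠ ⊥`), `e a ⊓ e aᶜ = ⊥`.  (4) injective: for `a ≰ a'`,
`(a ⊓ a'ᶜ, c0)` shows `e a ≠ e a'`.
`ι x c = ⨆ {j (b, c') | c' ≤ c, e b ≤ x}`.  For a condition `(a, c)`: `ι (e a) c = j (a, c)` (`≤`: `e b ≤ e a` gives `b ≤ a`, so `(b, c') ≤ (a, c)`).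
The fields of `Two` follow; `proj (range e) (j (a, c)) = e a` by (1) (`j (a, c) ≤ e a'` iff `a ≤ a'`).  `ι ⊤ c0 = ⊤` since `c ≤ c0` for all `c`.
-/

set_option autoImplicit false

namespace Pool.Agent.CAN

private theorem rob_bot {A : Type 1} [CompleteBooleanAlgebra A] {x a : A} (h1 : x ≤ a) (h2 : x ≤ aᶜ) : x = ⊥ := by
  rw [eq_bot_iff, ← inf_compl_self (a := a)]
  exact le_inf h1 h2

section rob
variable {A C : Type 1} [CompleteBooleanAlgebra A] [CompleteBooleanAlgebra C] {K : Type 1} [Preorder K]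
  {Good : K → A}

/-- The conditions. -/
private abbrev RobP (Good : K → A) : Type 1 := {p : A × K // p.1 ≠ ⊥ ∧ p.1 ≤ Good p.2}

private structure RobJ (j : RobP Good → C) : Prop where
  ne : ∀ p, j p ≠ ⊥
  mono : ∀ p q, q ≤ p → j q ≤ j p
  dense : ∀ x, x ≠ ⊥ → ∃ p, j p ≤ x
  sep : ∀ p q, j q ≤ j p → ∃ r, r ≤ q ∧ r ≤ p

/-- The embedding. -/
private noncomputable def robE (j : RobP Good → C) (a : A) : C := ⨆ (p : RobP Good) (_ : p.1.1 ≤ a), j p

/-- The conditions as elements. -/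
private noncomputable def robI (j : RobP Good → C) (x : C) (c : K) : C :=
  ⨆ (p : RobP Good) (_ : p.1.2 ≤ c ∧ robE j p.1.1 ≤ x), j p

variable {j : RobP Good → C}

private theorem rob_le (h : RobJ j) {x y : C} (hxy : ∀ r, j r ≤ x → j r ≤ yᶜ → False) : x ≤ y := by
  by_contra hn
  have h1 : x ⊓ yᶜ ≠ ⊥ := by
    intro h2
    exact hn (by
      rw [← compl_compl y]
      exact (disjoint_iff.2 h2).le_compl_right)
  obtain ⟨r, hr⟩ := h.dense _ h1
  exact hxy r (hr.trans inf_le_left) (hr.trans inf_le_right)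

private theorem rob_ne (h : RobJ j) {r : RobP Good} {y : C} (h1 : j r ≤ y) (h2 : j r ≤ yᶜ) : False := by
  apply h.ne r
  rw [eq_bot_iff, ← inf_compl_self (a := y)]
  exact le_inf h1 h2

private theorem rob_cut (p : RobP Good) (a : A) (ha : p.1.1 ⊓ a ≠ ⊥) :
    ∃ r : RobP Good, r ≤ p ∧ r.1.1 ≤ a := by
  refine ⟨⟨(p.1.1 ⊓ a, p.1.2), ha, inf_le_left.trans p.2.2⟩, ⟨inf_le_left, le_refl _⟩, inf_le_right⟩

omit [Preorder K] in
private theorem rob_E_of_le {p : RobP Good} {a : A} (hp : p.1.1 ≤ a) : j p ≤ robE j a :=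
  le_iSup₂ (f := fun (p : RobP Good) (_ : p.1.1 ≤ a) => j p) p hp

omit [Preorder K] in
private theorem rob_E_mono {a a' : A} (h : a ≤ a') : robE j a ≤ robE j a' :=
  iSup₂_le fun _ hp => rob_E_of_le (hp.trans h)

private theorem rob_E_iff (h : RobJ j) {p : RobP Good} {a : A} : j p ≤ robE j a ↔ p.1.1 ≤ a := by
  constructor
  · intro hp
    by_contra hn
    have h1 : p.1.1 ⊓ aᶜ ≠ ⊥ := by
      intro h2
      exact hn (by
        rw [← compl_compl a]
        exact (disjoint_iff.2 h2).le_compl_right)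
    obtain ⟨r, hr, hra⟩ := rob_cut p _ h1
    have h2 : j r ⊓ robE j a = j r := inf_eq_left.2 ((h.mono _ _ hr).trans hp)
    have h3 : robE j a ≤ (j r)ᶜ := by
      unfold robE
      refine iSup₂_le fun q hq => ?_
      apply rob_le h
      intro t ht ht'
      rw [compl_compl] at ht'
      obtain ⟨t1, h3, h4⟩ := h.sep _ _ ht'
      obtain ⟨t2, h5, h6⟩ := h.sep _ _ ((h.mono _ _ h3).trans ht)
      have h7 : t2.1.1 ≤ a := (show t2.1.1 ≤ q.1.1 from h6.1).trans hq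
      have h8 : t2.1.1 ≤ aᶜ := (show t2.1.1 ≤ r.1.1 from (h5.trans h4).1).trans hra
      exact t2.2.1 (rob_bot h7 h8)
    exact rob_ne h (le_refl (j r)) (((h.mono _ _ hr).trans hp).trans h3)
  · exact rob_E_of_le

private theorem rob_E_sup (h : RobJ j) (s : Set A) : robE j (sSup s) = sSup (robE j '' s) := by
  apply le_antisymm
  · unfold robE
    refine iSup₂_le fun p hp => ?_
    apply rob_le h
    intro r hr hr'
    obtain ⟨r1, h1, h2⟩ := h.sep _ _ hr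
    have h3 : r1.1.1 ⊓ sSup s ≠ ⊥ := by
      rw [inf_eq_left.2 ((show r1.1.1 ≤ p.1.1 from h2.1).trans hp)]
      exact r1.2.1
    rw [inf_sSup_eq] at h3
    have h4 : ∃ a ∈ s, r1.1.1 ⊓ a ≠ ⊥ := by
      by_contra hn
      push Not at hn
      apply h3
      rw [iSup₂_eq_bot]
      exact hn
    obtain ⟨a, ha, h5⟩ := h4
    obtain ⟨r2, h6, h7⟩ := rob_cut r1 a h5
    have h8 : j r2 ≤ sSup (robE j '' s) := (rob_E_of_le h7).trans (le_sSup ⟨a, ha, rfl⟩)
    exact rob_ne h h8 ((h.mono _ _ (h6.trans h1)).trans hr')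
  · refine sSup_le ?_
    rintro _ ⟨a, ha, rfl⟩
    exact rob_E_mono (le_sSup ha)

private theorem rob_E_top (h : RobJ j) : robE j (⊤ : A) = ⊤ := by
  rw [eq_top_iff]
  apply rob_le h
  intro r _ hr
  exact rob_ne h (rob_E_of_le (le_top : r.1.1 ≤ ⊤)) hr

private theorem rob_E_compl (h : RobJ j) (a : A) : robE j aᶜ = (robE j a)ᶜ := by
  symm
  apply IsCompl.compl_eq
  refine ⟨disjoint_iff.2 ?_, codisjoint_iff.2 ?_⟩
  · rw [eq_bot_iff]
    apply rob_le h
    intro r hr _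
    have h1 := (rob_E_iff h).1 (hr.trans inf_le_left)
    have h2 := (rob_E_iff h).1 (hr.trans inf_le_right)
    exact r.2.1 (rob_bot h1 h2)
  · have h1 := rob_E_sup h {a, aᶜ}
    rw [sSup_pair, sup_compl_eq_top, rob_E_top h, Set.image_pair, sSup_pair] at h1
    exact h1.symm

private theorem rob_E_le (h : RobJ j) (c0 : K) (h0 : Good c0 = ⊤) {a a' : A} (hle : robE j a ≤ robE j a') :
    a ≤ a' := by
  by_contra hn
  have h1 : a ⊓ a'ᶜ ≠ ⊥ := by
    intro h2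
    exact hn (by
      rw [← compl_compl a']
      exact (disjoint_iff.2 h2).le_compl_right)
  have h2 : j (⟨(a ⊓ a'ᶜ, c0), h1, by rw [h0]; exact le_top⟩ : RobP Good) ≤ robE j a' :=
    (rob_E_of_le inf_le_left).trans hle
  have h3 := (rob_E_iff h).1 h2
  apply h1
  rw [eq_bot_iff, ← inf_compl_self (a := a')]
  exact le_inf h3 inf_le_right

private theorem rob_E_inf (h : RobJ j) (a b : A) : robE j (a ⊓ b) = robE j a ⊓ robE j b := by
  have h1 := rob_E_sup h {aᶜ, bᶜ}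
  rw [sSup_pair, Set.image_pair, sSup_pair, ← compl_inf, rob_E_compl h, rob_E_compl h, rob_E_compl h,
    ← compl_inf] at h1
  exact compl_injective h1

private theorem rob_I (h : RobJ j) (c0 : K) (h0 : Good c0 = ⊤) (p : RobP Good) :
    robI j (robE j p.1.1) p.1.2 = j p := by
  apply le_antisymm
  · unfold robI
    refine iSup₂_le fun q hq => h.mono _ _ ⟨rob_E_le h c0 h0 hq.2, hq.1⟩
  · exact le_iSup₂ (f := fun (q : RobP Good) (_ : q.1.2 ≤ p.1.2 ∧ robE j q.1.1 ≤ robE j p.1.1) => j q) p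
      ⟨le_refl _, le_refl _⟩

private theorem rob_E_bot (h : RobJ j) : robE j (⊥ : A) = ⊥ := by
  have h1 := rob_E_sup h ∅
  rwa [sSup_empty, Set.image_empty, sSup_empty] at h1

private theorem rob_pos (h : RobJ j) (c0 : K) (h0 : Good c0 = ⊤) {x : C} {c : K}
    (hx : Pos (Set.range (robE j)) (fun c => robE j (Good c)) x c) :
    ∃ p : RobP Good, robE j p.1.1 = x ∧ p.1.2 = c ∧ robI j x c = j p := by
  obtain ⟨⟨a, rfl⟩, h1, h2⟩ := hx
  have h3 : a ≠ ⊥ := by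
    rintro rfl
    exact h1 (rob_E_bot h)
  have h4 : a ≤ Good c := rob_E_le h c0 h0 h2
  exact ⟨⟨(a, c), h3, h4⟩, rfl, rfl, rob_I h c0 h0 ⟨(a, c), h3, h4⟩⟩

private theorem rob_pos' (h : RobJ j) (p : RobP Good) :
    Pos (Set.range (robE j)) (fun c => robE j (Good c)) (robE j p.1.1) p.1.2 := by
  refine ⟨⟨_, rfl⟩, ?_, rob_E_mono p.2.2⟩
  intro h1
  apply h.ne p
  rw [eq_bot_iff, ← h1]
  exact rob_E_of_le (le_refl _)

private theorem rob_two (h : RobJ j) (anti : ∀ c c', c' ≤ c → Good c' ≤ Good c) (c0 : K)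
    (h0 : Good c0 = ⊤) (h1 : ∀ c, c ≤ c0) :
    Two (Set.range (robE j)) Set.univ (fun c => robE j (Good c)) (robI j) where
  subA := by
    refine ⟨fun s hs => ?_, ?_⟩
    · refine ⟨sSup (robE j ⁻¹' s), ?_⟩
      rw [rob_E_sup h, Set.image_preimage_eq_of_subset hs]
    · rintro _ ⟨a, rfl⟩
      exact ⟨aᶜ, rob_E_compl h a⟩
  subC := ⟨fun _ _ => trivial, fun _ _ => trivial⟩
  incl := Set.subset_univ _
  good c := ⟨Good c, rfl⟩
  anti c c' hc := rob_E_mono (anti c c' hc)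
  mem _ _ _ := trivial
  proj x c hx := by
    obtain ⟨p, rfl, rfl, h3⟩ := rob_pos h c0 h0 hx
    rw [h3]
    apply le_antisymm
    · exact sInf_le ⟨⟨_, rfl⟩, rob_E_of_le (le_refl _)⟩
    · refine le_sInf ?_
      rintro _ ⟨⟨a', rfl⟩, h4⟩
      exact rob_E_mono ((rob_E_iff h).1 h4)
  res x y c hx hyx hy := by
    obtain ⟨p, rfl, rfl, h3⟩ := rob_pos h c0 h0 hx
    obtain ⟨q, h4, h5, h6⟩ := rob_pos h c0 h0 hyx
    obtain ⟨b, rfl⟩ := hy
    rw [h3, h6]
    rw [← rob_E_inf h] at h4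
    have h7 : q.1.1 = b ⊓ p.1.1 :=
      le_antisymm (rob_E_le h c0 h0 h4.le) (rob_E_le h c0 h0 h4.ge)
    apply le_antisymm
    · refine le_inf (rob_E_of_le (h7.le.trans inf_le_left)) (h.mono _ _ ⟨?_, h5.le⟩)
      exact h7.le.trans inf_le_right
    · apply rob_le h
      intro r hr hr'
      have h8 := (rob_E_iff h).1 (hr.trans inf_le_left)
      obtain ⟨r1, h9, h10⟩ := h.sep _ _ (hr.trans inf_le_right)
      have h11 : r1 ≤ q := by
        refine ⟨?_, h10.2.trans h5.ge⟩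
        show r1.1.1 ≤ q.1.1
        rw [h7]
        exact le_inf ((show r1.1.1 ≤ r.1.1 from h9.1).trans h8) h10.1
      exact rob_ne h (h.mono _ _ h11) ((h.mono _ _ h9).trans hr')
  mono x c c' hc _ := by
    unfold robI
    refine iSup₂_le fun q hq => ?_
    exact le_iSup₂ (f := fun (q : RobP Good) (_ : q.1.2 ≤ c ∧ robE j q.1.1 ≤ x) => j q) q
      ⟨hq.1.trans hc, hq.2⟩
  dense x _ hx := by
    obtain ⟨p, hp⟩ := h.dense x hx
    refine ⟨robE j p.1.1, p.1.2, rob_pos' h p, ?_⟩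
    rw [rob_I h c0 h0]
    exact hp
  sep x c x' c' hx hx' hle := by
    obtain ⟨p, rfl, rfl, h3⟩ := rob_pos h c0 h0 hx
    obtain ⟨q, rfl, rfl, h4⟩ := rob_pos h c0 h0 hx'
    rw [h3, h4] at hle
    obtain ⟨r, h5, h6⟩ := h.sep _ _ hle
    exact ⟨robE j r.1.1, r.1.2, rob_pos' h r, rob_E_mono h6.1, rob_E_mono h5.1, h6.2, h5.2⟩
  top := by
    refine ⟨c0, ?_, ?_⟩
    · show robE j (Good c0) = ⊤
      rw [h0, rob_E_top h]
    · rw [eq_top_iff]
      apply rob_le h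
      intro r _ hr
      refine rob_ne h ?_ hr
      exact le_iSup₂ (f := fun (q : RobP Good) (_ : q.1.2 ≤ c0 ∧ robE j q.1.1 ≤ (⊤ : C)) => j q) r
        ⟨h1 _, le_top⟩

end rob

theorem exists_two {A : Type 1} [CompleteBooleanAlgebra A] [Nontrivial A] {K : Type 1} [Preorder K] (Good : K → A)
    (anti : ∀ c c', c' ≤ c → Good c' ≤ Good c) (c0 : K) (h0 : Good c0 = ⊤) (h1 : ∀ c, c ≤ c0) :
    ∃ (C : Type 1) (_ : CompleteBooleanAlgebra C) (e : A → C) (ι : C → K → C), CEmb e ∧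
      Two (Set.range e) Set.univ (fun c => e (Good c)) ι ∧ (Small.{0} A → Small.{0} K → Small.{0} C) := by
  obtain ⟨C, iC, j, J1, J2, J3, J4, J5⟩ := exists_ro (RobP Good)
  have h : RobJ j := ⟨J1, J2, J3, J4⟩
  refine ⟨C, iC, robE j, robI j, ⟨?_, rob_E_sup h, rob_E_compl h⟩, rob_two h anti c0 h0 h1, ?_⟩
  · intro a a' haa
    exact le_antisymm (rob_E_le h c0 h0 haa.le) (rob_E_le h c0 h0 haa.ge)
  · intro hA hK
    exact J5 inferInstance

end Pool.Agent.CAN
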