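import Pool.Agent.CAN.HA
import Pool.Agent.CAN.HC
import Pool.Agent.CAN.COH
import Pool.Agent.CAN.ROB
import Pool.Agent.CAN.NTE
import Pool.Agent.CAN.DIS

/-!
# CAN/HE: all tasks can be handled

`np_self`: `pps_self`, `nns_self`.  `step_co`: `exists_two` for `K = Co`, `Good = ⊤`, `c0` = the empty condition of length `Om.z` (`Nontrivial A` from `hne`); `e ⊤ = ⊤`; `cohen_np` (`Distr (range e)` by `Distr.map`, `range e = e '' univ`); small by `small_Co`.
`steps_PTk`: `Distr univ` by `distr_of_np csub_univ`.  `sp`: if `Sys` and `NoBr` hold use `hS`, otherwise `C = A`, `e = fun x => x` (`CEmb.ident`, `np_self`, `Set.range_id'`).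
`br`: if there are a small `D`, `e'`, `x` with `CEmb e'`, `NP (range e') univ`, `e' (tb t) ≤ chainV (e' ∘ tT t) x` take them (first alternative), otherwise `step_co` (second alternative).  `co`: `step_co`.
-/

set_option autoImplicit false

namespace Pool.Agent.CAN

theorem np_self {B : Type 1} [CompleteBooleanAlgebra B] {A : Set B} (hA : CSub A) : NP A A := by
  refine ⟨EvT.tw.mono ?_, nns_self hA⟩
  intro W i _ _ j _ q hq _
  rw [proj_self hq, proj_self (hA.and hq (ggen_mem hA W i j)), inf_comm]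

theorem step_co (A : Type 1) [CompleteBooleanAlgebra A] (hne : (⊥ : A) ≠ ⊤) (hd : Distr (Set.univ : Set A)) :
    ∃ (C : Type 1) (_ : CompleteBooleanAlgebra C) (e : A → C), (Small.{0} A → Small.{0} C) ∧ CEmb e ∧
      NP (Set.range e) Set.univ ∧ ∃ ι : C → Co → C, Two (Set.range e) Set.univ (fun _ => ⊤) ι := by
  have hnt : Nontrivial A := ⟨⟨⊥, ⊤, hne⟩⟩
  obtain ⟨C, iC, e, ι, he, hT, hs⟩ := exists_two (A := A) (K := Co) (fun _ => ⊤) (fun _ _ _ => le_rfl)
    ⟨Om.z, ∅, fun a ha => ha.elim⟩ rfl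
    (fun c => And.intro (Om.z_le _) fun a ha => absurd (Om.z_le a) (not_le.2 ha))
  have het : e ⊤ = ⊤ := by
    have h1 := he.compl ⊥
    rw [compl_bot, he.bot, compl_bot] at h1
    exact h1
  rw [het] at hT
  have hd' : Distr (Set.range e) := by
    have h := Distr.map he hd
    rwa [Set.image_univ] at h
  exact ⟨C, iC, e, fun hA => hs hA small_Co, he, cohen_np hT hd', ι, hT⟩

theorem steps_PTk (hS : SpecStep) : Steps PTk := by
  intro A iA hsm hne hnp t j
  have hd : Distr (Set.univ : Set A) := distr_of_np csub_univ hnp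
  have hid : NP (Set.range (fun x : A => x)) (Set.univ : Set A) := by
    rw [Set.range_id']
    exact np_self csub_univ
  cases j with
  | sp =>
    by_cases h : Sys (tR t) (tb t) ∧ NoBr (tR t) (tb t)
    · obtain ⟨C, iC, e, he, hE, hC, hs⟩ := hS A iA hne hd (tR t) (tb t) h.1 h.2
      exact ⟨C, iC, e, hC hsm, he, hE, fun _ _ => hs⟩
    · exact ⟨A, iA, fun x => x, hsm, CEmb.ident, hid, fun h1 h2 => absurd ⟨h1, h2⟩ h⟩
  | br =>
    by_cases h : ∃ (D : Type 1) (_ : CompleteBooleanAlgebra D) (e' : A → D), Small.{0} D ∧ CEmb e' ∧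
        NP (Set.range e') Set.univ ∧ ∃ x : Om → D, e' (tb t) ≤ chainV (fun a b => e' (tT t a b)) x
    · obtain ⟨D, iD, e', h1, h2, h3, h4⟩ := h
      exact ⟨D, iD, e', h1, h2, h3, Or.inl h4⟩
    · obtain ⟨C, iC, e, hC, he, hE, hι⟩ := step_co A hne hd
      exact ⟨C, iC, e, hC hsm, he, hE, Or.inr ⟨hι, fun D iD e' h1 h2 h3 x hx =>
        h ⟨D, iD, e', h1, h2, h3, x, hx⟩⟩⟩
  | co =>
    obtain ⟨C, iC, e, hC, he, hE, hι⟩ := step_co A hne hd
    exact ⟨C, iC, e, hC hsm, he, hE, hι⟩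

end Pool.Agent.CAN
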