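import Pool.Agent.CAN.HC
import Pool.Agent.CAN.NTE
import Pool.Agent.CAN.DIS

/-!
# CAN/HF: basic facts on full iterations

`np_zero`: `chain_np` for `0 ≤ a` and `h0`.  `distr_S`: `distr_of_np`.  `Full.bdd`: `cover` for the range of `f` (small), and `Chain.mono` for the maximum with `b`.
`Full.close`: for `x y` with `∃ z, ρ x y z` choose `z(x, y)` and an ordinal `w(x, y)` with `z(x, y) ∈ S (w(x, y))` (`cover` of a singleton), otherwise `w = 0`.  `h b` = a strict bound of `w(x, y)`, `x ∈ S b`, `y : Y`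
(`small_bdd` for the small type `S b × Y`).  `exists_closed h b0`.  `z(x, y) ∈ S (w(x, y)) ⊆ S g` as `w(x, y) < h b < g`.
-/

set_option autoImplicit false

namespace Pool.Agent.CAN

variable {I J B : Type 1} {P : TaskRel I J} [CompleteBooleanAlgebra B] {S : Ordinal.{0} → Set B}

theorem np_zero (hS : Chain S) (h0 : S 0 = {⊥, ⊤}) (a : Ordinal.{0}) : NP ({⊥, ⊤} : Set B) (S a) := by
  rw [← h0]
  exact chain_np hS zero_le

theorem distr_S (hS : Chain S) (h0 : S 0 = {⊥, ⊤}) (a : Ordinal.{0}) : Distr (S a) :=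
  distr_of_np (hS.sub a) (np_zero hS h0 a)

theorem Full.bdd (hF : Full P B S) {X : Type 1} [Small.{0} X] (f : X → B) (b : Ordinal.{0}) :
    ∃ a, b ≤ a ∧ ∀ x, f x ∈ S a := by
  obtain ⟨a, ha⟩ := hF.cover (Set.range f) inferInstance
  exact ⟨max b a, le_max_left _ _, fun x => hF.chain.mono a _ (le_max_right _ _) (ha ⟨x, rfl⟩)⟩

theorem Full.close (hF : Full P B S) {Y : Type 1} [Small.{0} Y] (ρ : B → Y → B → Prop) (b0 : Ordinal.{0}) :
    ∃ g, b0 < g ∧ Order.IsSuccLimit g ∧ ¬ CofW g ∧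
      ∀ b, b < g → ∀ x ∈ S b, ∀ y, (∃ z, ρ x y z) → ∃ z ∈ S g, ρ x y z := by
  have key : ∀ (x : B) (y : Y), ∃ w : Ordinal.{0}, (∃ z, ρ x y z) → ∃ z ∈ S w, ρ x y z := by
    intro x y
    by_cases h : ∃ z, ρ x y z
    · obtain ⟨z, hz⟩ := h
      obtain ⟨a, ha⟩ := hF.cover {z} inferInstance
      exact ⟨a, fun _ => ⟨z, ha rfl, hz⟩⟩
    · exact ⟨0, fun h' => absurd h' h⟩
  choose w hw using key
  have hh : ∀ b : Ordinal.{0}, ∃ a : Ordinal.{0}, ∀ p : S b × Y, w p.1.1 p.2 < a := by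
    intro b
    have := hF.small b
    exact small_bdd (fun p : S b × Y => w p.1.1 p.2)
  choose h hh using hh
  obtain ⟨g, hbg, hL, hC, hg⟩ := exists_closed h b0
  refine ⟨g, hbg, hL, hC, fun b hb x hx y hz => ?_⟩
  obtain ⟨z, hz1, hz2⟩ := hw x y hz
  exact ⟨z, hF.chain.mono _ _ ((hh b (⟨x, hx⟩, y)).trans (hg b hb)).le hz1, hz2⟩

end Pool.Agent.CAN
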