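import Pool.Agent.CAN.HF
import Pool.Agent.CAN.PRA

/-!
# CAN/HG: the final algebra is distributive

PROOF.  Let `D n`, `q ≠ ⊥` be given, `q ∈ S b0`.  `Full.close` with `Y = ULift ℕ` and `ρ x n z := x ≠ ⊥ ∧ z ∈ D n ∧ x ⊓ z ≠ ⊥` gives `g`.  `En n = D n ∩ S g`.  `sSup (En n) = ⊤`: the complement `z` of `sSup (En n)` is in `S g`; if `z ≠ ⊥`
then `Chain.direct` gives `b < g`, `y ∈ S b`, `⊥ ≠ y ≤ z`; since `sSup (D n) = ⊤` some `d ∈ D n` has `y ⊓ d ≠ ⊥`, so by closure there is such a `d ∈ S g`, `d ≤ sSup (En n)`, contradicting `y ≤ z`.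
`distr_S` for `S g`, `En`, `q`.
-/

set_option autoImplicit false

namespace Pool.Agent.CAN

variable {I J B : Type 1} {P : TaskRel I J} [CompleteBooleanAlgebra B] {S : Ordinal.{0} → Set B}

private theorem HG_meet {x : B} (hx : x ≠ ⊥) {s : Set B} (h : sSup s = ⊤) : ∃ y ∈ s, x ⊓ y ≠ ⊥ := by
  by_contra hno
  push Not at hno
  apply hx
  have h1 : x ⊓ sSup s = ⊥ := by
    rw [inf_sSup_eq]
    refine le_bot_iff.1 (iSup₂_le fun y hy => (hno y hy).le)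
  rw [h, inf_top_eq] at h1
  exact h1

theorem full_dist (hF : Full P B S) : Distr (Set.univ : Set B) := by
  intro D hD q _ hq
  obtain ⟨b0, hb0⟩ := hF.cover {q} inferInstance
  have hqb : q ∈ S b0 := hb0 rfl
  obtain ⟨g, hg, hlim, hcof, hcl⟩ := hF.close (Y := ULift.{1} ℕ)
    (fun x n z => z ∈ D n.down ∧ x ⊓ z ≠ ⊥) b0
  have hsub := hF.chain.sub g
  have hE : ∀ n, (D n ∩ S g) ⊆ S g ∧ sSup (D n ∩ S g) = ⊤ := by
    intro n
    refine ⟨Set.inter_subset_right, ?_⟩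
    by_contra hne
    have hz : (sSup (D n ∩ S g))ᶜ ≠ ⊥ := by
      intro h
      exact hne (compl_eq_bot.1 h)
    have hzS : (sSup (D n ∩ S g))ᶜ ∈ S g := hsub.compl _ (hsub.sup _ Set.inter_subset_right)
    obtain ⟨b, hb, y, hy, hy0, hyz⟩ := hF.chain.direct g hlim hcof _ hzS hz
    obtain ⟨d, hd, hyd⟩ := HG_meet hy0 (hD n).2
    obtain ⟨z', hz', h1, h2⟩ := hcl b hb y hy ⟨n⟩ ⟨d, hd, hyd⟩
    apply h2
    rw [← le_bot_iff, ← inf_compl_self (a := sSup (D n ∩ S g)), inf_comm y z']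
    exact inf_le_inf (le_sSup ⟨h1, hz'⟩) hyz
  obtain ⟨r, hr, hr0, hrq, hrD⟩ := distr_S hF.chain hF.zero g (fun n => D n ∩ S g) hE q
    (hF.chain.mono b0 g hg.le hqb) hq
  refine ⟨r, Set.mem_univ _, hr0, hrq, fun n => ?_⟩
  obtain ⟨d, hd, hrd⟩ := hrD n
  exact ⟨d, hd.1, hrd⟩

end Pool.Agent.CAN
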