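import Pool.Agent.CAN.COH
import Pool.Agent.CAN.OMB

/-!
# CAN/HH: a Cohen subset of `ω₁` gives a name for an enumeration of the reals

PROOF.  `g a n = CoS ι (Om.s^[n] a)`.  Let `X` be given and `σ = ⨆ a, ..`; `σ ∈ C` (`CoS_mem`, `h.subC`).  If `σᶜ ≠ ⊥` then `Two.dense`: `ι b c ≤ σᶜ`, `Pos A ⊤ b c`.  Let `a = c.l`; `Om.s^[n] a` is strictly increasing in `n`, `≥ a`; let `L` be above all of them
(`Om.bdd`).  `c' = (L, c.s ∪ {Om.s^[n] a | n ∈ X})`: `c' ≤ c` (for `x < c.l`, `x` is not of the form `Om.s^[n] a`).  `ι b c' ≤ ι b c` (`mono`).  For `n ∈ X`: `ι b c' ≤ CoS ι (Om.s^[n] a)` (`CoS_le`).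
For `n ∉ X`: `Om.s^[n] a ∉ c'.s` (not in `c.s` by `c.sub`; injectivity of the iterates), so `ι b c' ≤ (CoS ι (Om.s^[n] a))ᶜ` (`CoS_compl`).  So `ι b c' ≤ σ`, and `ι b c' ≤ σᶜ`, but `ι b c' ≠ ⊥`.
-/

set_option autoImplicit false

namespace Pool.Agent.CAN

variable {B : Type 1} [CompleteBooleanAlgebra B] {A C : Set B} {ι : B → Co → B}

private theorem HH_top (h : Two A C (fun _ : Co => (⊤ : B)) ι) {x : B} (hx : x ∈ C)
    (hd : ∀ b c, Pos A (fun _ : Co => (⊤ : B)) b c → ∃ c', c' ≤ c ∧ ι b c' ≤ x) : x = ⊤ := by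
  by_contra hne
  have h1 : xᶜ ≠ ⊥ := fun h2 => hne (compl_eq_bot.1 h2)
  obtain ⟨b, c, hp, hle⟩ := h.dense _ (h.subC.compl x hx) h1
  obtain ⟨c', hc', hle'⟩ := hd b c hp
  have hp' : Pos A (fun _ : Co => (⊤ : B)) b c' := ⟨hp.1, hp.2.1, le_top⟩
  have h3 : ι b c' = ⊥ := by
    refine le_bot_iff.1 ?_
    calc ι b c' ≤ x ⊓ xᶜ := le_inf hle' ((h.mono b c c' hc' hp').trans hle)
      _ = ⊥ := inf_compl_eq_bot
  have h2 := h.proj b c' hp'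
  rw [h3, proj_bot h.subA] at h2
  exact hp.2.1 h2.symm

theorem ch_of_cohen (h : Two A C (fun _ : Co => (⊤ : B)) ι) :
    ∃ g : Om → ℕ → B, ∀ X : Set ℕ, ⨆ a, ((⨅ n ∈ X, g a n) ⊓ ⨅ n ∈ Xᶜ, (g a n)ᶜ) = ⊤ := by
  refine ⟨fun a n => CoS ι (Om.s^[n] a), fun X => ?_⟩
  refine HH_top h (h.subC.iSup fun a => h.subC.and ?_ ?_) ?_
  · exact h.subC.iInf fun n => h.subC.iInf fun _ => CoS_mem h _
  · exact h.subC.iInf fun n => h.subC.iInf fun _ => h.subC.compl _ (CoS_mem h _)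
  intro b c hp
  have hsm : StrictMono (fun n : ℕ => Om.s^[n] c.l) := by
    refine strictMono_nat_of_lt_succ fun n => ?_
    rw [Function.iterate_succ_apply']
    exact Om.lt_s _
  obtain ⟨L, hL⟩ := Om.bdd (Set.countable_range (fun n : ℕ => Om.s^[n] c.l))
  have hfL : ∀ n, Om.s^[n] c.l < L := fun n => hL _ ⟨n, rfl⟩
  have hcf : ∀ n, c.l ≤ Om.s^[n] c.l := fun n => hsm.monotone (Nat.zero_le n)
  have hcL : c.l < L := hfL 0
  refine ⟨⟨L, {y | y ∈ c.s ∨ ∃ n ∈ X, y = Om.s^[n] c.l}, ?_⟩, ⟨hcL.le, ?_⟩, ?_⟩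
  · rintro y (hy | ⟨n, -, rfl⟩)
    · exact (c.sub y hy).trans hcL
    · exact hfL n
  · intro y hy
    constructor
    · rintro (h1 | ⟨n, -, rfl⟩)
      · exact h1
      · exact absurd (hcf n) (not_le.2 hy)
    · intro h1
      exact Or.inl h1
  · refine le_iSup_of_le c.l (le_inf (le_iInf fun n => le_iInf fun hn => ?_)
      (le_iInf fun n => le_iInf fun hn => ?_))
    · exact CoS_le h ⟨hp.1, hp.2.1, le_top⟩ (Or.inr ⟨n, hn, rfl⟩)
    · refine CoS_compl h ⟨hp.1, hp.2.1, le_top⟩ (hfL n) ?_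
      rintro (h1 | ⟨m, hm, h1⟩)
      · exact absurd (hcf n) (not_le.2 (c.sub _ h1))
      · exact hn (by rw [hsm.injective h1]; exact hm)

end Pool.Agent.CAN
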