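import Pool.Agent.CAN.HA
import Pool.Agent.CAN.HF
import Pool.Agent.CAN.TWL

/-!
# CAN/HI: the tasks of a full iteration

In all proofs `letI := (hF.chain.sub a).alg`, `letI := (hF.chain.sub (succ a)).alg`; `val` is a complete embedding into `B` (`CSub.alg_emb`), and `val (inclusion x) = val x`.
`full_special`: the task `t none = b₀`, `t (some (a, b, n, m)) = R a b n m` of kind `sp`: `hF.task` gives `a`, `t'`.  `Sys (tR t') (tb t')` by `CEmb.sys` for `val`, `NoBr` by `CEmb.nobr`.  So `PTk` gives `SpecialV` in `S (succ a)`;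
`CEmb.special` for `val`.
`full_co`: a task of kind `co` (`t = ⊥`); `Two.map` for `val`: `val '' range (inclusion) = S a`, `val '' univ = S (succ a)`, `val ⊤ = ⊤`.
`full_br`: the task `t none = b₀`, `t (some (a, b, _, _)) = T a b` of kind `br`.  First alternative: `x : Om → S (succ a)` with `inclusion (tb t') ≤ chainV .. x`; apply `val` (`CEmb.chainV'`, `CEmb.le_iff`): `b₀ ≤ chainV T (val ∘ x)`, so
`b₀ = b₀ ⊓ chainV .. = ⊥`, contradiction.  Second alternative: `two` as in `full_co`; `memT`, `memb` from `t'`; `no`: the given statement, with `t'` rewritten (`Subtype.ext`).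
-/

set_option autoImplicit false

namespace Pool.Agent.CAN

variable {B : Type 1} [CompleteBooleanAlgebra B] {S : Ordinal.{0} → Set B}

private theorem hi_two (hS : Chain S) (a : Ordinal.{0}) {ι' : S (Order.succ a) → Co → S (Order.succ a)}
    (h : @Two (S (Order.succ a)) (hS.sub (Order.succ a)).alg Co _
      (Set.range (Set.inclusion (hS.mono a (Order.succ a) (Order.le_succ a)))) Set.univ
      (fun _ => (hS.sub (Order.succ a)).alg.top) ι') :
    ∃ ι : B → Co → B, Two (S a) (S (Order.succ a)) (fun _ => ⊤) ι := by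
  let _ := (hS.sub (Order.succ a)).alg
  obtain ⟨ι, h1, _⟩ := Two.map h (Subtype.val : S (Order.succ a) → B) (hS.sub (Order.succ a)).alg_emb
  refine ⟨ι, ?_⟩
  have e1 : (Subtype.val : S (Order.succ a) → B) ''
      (Set.range (Set.inclusion (hS.mono a (Order.succ a) (Order.le_succ a)))) = S a := by
    ext x
    constructor
    · rintro ⟨_, ⟨y, rfl⟩, rfl⟩
      exact y.2
    · intro hx
      exact ⟨_, ⟨⟨x, hx⟩, rfl⟩, rfl⟩
  have e2 : (Subtype.val : S (Order.succ a) → B) '' Set.univ = S (Order.succ a) := by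
    rw [Set.image_univ, Subtype.range_coe]
  rw [e1, e2] at h1
  exact h1

theorem full_special (hF : Full PTk B S) (R : Om → Om → ℕ → ℕ → B) (b₀ : B) (h1 : Sys R b₀) (h2 : NoBr R b₀) :
    SpecialV R b₀ := by
  obtain ⟨a, _, t', ht', hP⟩ := hF.task (fun x : TI => match x with
    | none => b₀
    | some (a, b, n, m) => R a b n m) Kd.sp 0
  let i1 := (hF.chain.sub a).alg
  let i2 := (hF.chain.sub (Order.succ a)).alg
  have hv1 : CEmb (Subtype.val : S a → B) := (hF.chain.sub a).alg_emb
  have hv2 : CEmb (Subtype.val : S (Order.succ a) → B) := (hF.chain.sub (Order.succ a)).alg_emb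
  have e1 : (fun a b n m => (tR t' a b n m).1) = R := by
    funext a b n m
    exact ht' (some (a, b, n, m))
  have e2 : (tb t').1 = b₀ := ht' none
  have hs : Sys (tR t') (tb t') := by
    rw [← CEmb.sys hv1, e1, e2]
    exact h1
  have hn : NoBr (tR t') (tb t') := by
    apply CEmb.nobr hv1
    rw [e1, e2]
    exact h2
  have h3 := CEmb.special hv2 (hP hs hn)
  have e3 : (fun a' b n m => ((Set.inclusion (hF.chain.mono a (Order.succ a) (Order.le_succ a))
      (tR t' a' b n m) : S (Order.succ a)) : B)) = R := by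
    funext a b n m
    exact ht' (some (a, b, n, m))
  have e4 : ((Set.inclusion (hF.chain.mono a (Order.succ a) (Order.le_succ a)) (tb t') :
      S (Order.succ a)) : B) = b₀ := ht' none
  rw [e3, e4] at h3
  exact h3

theorem full_co (hF : Full PTk B S) :
    ∃ (a : Ordinal.{0}) (ι : B → Co → B), Two (S a) (S (Order.succ a)) (fun _ => ⊤) ι := by
  obtain ⟨a, _, t', _, ι', hι⟩ := hF.task (fun _ : TI => ⊥) Kd.co 0
  exact ⟨a, hi_two hF.chain a hι⟩

theorem full_br (hF : Full PTk B S) (T : Om → Om → B) (b₀ : B) (hb : b₀ ≠ ⊥) (hT : ∀ x : Om → B, b₀ ⊓ chainV T x = ⊥) :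
    ∃ (a : Ordinal.{0}) (ι : B → Co → B), Br S hF.chain T b₀ a ι := by
  obtain ⟨a, _, t', ht', hP⟩ := hF.task (fun x : TI => match x with
    | none => b₀
    | some (a, b, _, _) => T a b) Kd.br 0
  have e2 : (tb t').1 = b₀ := ht' none
  have e1 : ∀ α β, (tT t' α β).1 = T α β := fun α β => ht' (some (α, β, 0, 0))
  rcases hP with ⟨x, hx⟩ | ⟨⟨ι', hι⟩, hno⟩
  · exfalso
    let i2 := (hF.chain.sub (Order.succ a)).alg
    have hv2 : CEmb (Subtype.val : S (Order.succ a) → B) := (hF.chain.sub (Order.succ a)).alg_emb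
    have h3 := (CEmb.le_iff hv2).2 hx
    rw [CEmb.chainV' hv2] at h3
    have e3 : (fun α β => ((Set.inclusion (hF.chain.mono a (Order.succ a) (Order.le_succ a))
        (tT t' α β) : S (Order.succ a)) : B)) = T := by
      funext α β
      exact e1 α β
    have e4 : ((Set.inclusion (hF.chain.mono a (Order.succ a) (Order.le_succ a)) (tb t') :
        S (Order.succ a)) : B) = b₀ := e2
    rw [e3, e4] at h3
    have h4 := hT (fun a => (x a).1)
    rw [inf_eq_left.2 h3] at h4
    exact hb h4
  · obtain ⟨ι, hι2⟩ := hi_two hF.chain a hι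
    have memT : ∀ α β, T α β ∈ S a := fun α β => by
      rw [← e1 α β]
      exact (tT t' α β).2
    have memb : b₀ ∈ S a := by
      rw [← e2]
      exact (tb t').2
    refine ⟨a, ι, hι2, memT, memb, ?_⟩
    intro D iD e hsm hce hnp x hx
    refine hno D iD e hsm hce hnp x ?_
    have e5 : tb t' = ⟨b₀, memb⟩ := Subtype.ext e2
    have e6 : (fun α β => e (tT t' α β)) = (fun α β => e ⟨T α β, memT α β⟩) := by
      funext α β
      exact congrArg e (Subtype.ext (e1 α β))
    rw [e5, e6]
    exact hx

end Pool.Agent.CAN
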