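import Pool.Agent.CAN.HF
import Pool.Agent.CAN.COH
import Pool.Agent.CAN.TWX
import Pool.Agent.CAN.DEL

/-!
# CAN/HJ: the Cohen set stays stationary

PROOF.  Suppose not: `b = clubV Cn ⊓ (⨆ α, Cn α ⊓ CoS ι α)ᶜ ≠ ⊥`.  `b ∈ S g` (`S (succ a) ⊆ S g`, `CoS_mem`).  Combine into one `F` (`EvN.and`, `EvN.shift`, `EvN.of_evT`, `EvN.of_ev`, `EvN.sub`): `nns_choice S`, `chain_nn`, `chain_pp` (for
`0`, `a`, `succ a`, `g`), `lad_nn` for `h` and `co_ladder_in` (`v = ⊤`), `ev_genF`, `ev_del`, `Ev.fn2 (fun (s : Ordinal) x => proj (S s) x)`, `Ev.fn1` for `z ↦ {Cn c | z < c}` (a set of elements of `B`), and for `d ↦` a `c > z` with `Cn c = d` (`Ev.wit2`).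
`exists_mdl` gives a model `M` containing the codes of `0, a, succ a, g, b, {⊤}`; `exists_tw F M` a tower `W` with `M ∈ W Om.z`.
(1) `G₀ = {⊤}` satisfies `GenF (S 0) M G₀` (`S 0 = {⊥, ⊤}`; a set `D ⊆ {⊥, ⊤}` with supremum `⊤` contains `⊤`, since `⊥ ≠ ⊤`), `InM G₀ (W Om.z)` (it is in `M`, `M ⊆ W`).  `proj (S 0) (proj (S a) b) = ⊤` (`proj_two`).  `nns_choice` for `0, a`: `j₁`, `Ga` with
`InM Ga (W j₁.s)`, `GenF (S a) M Ga`, `proj (S a) b ∈ Ga`, `sInf G₀ ⊓ ggen (S 0) W Om.z j₁ ≤ proj (S 0) (sInf Ga)`; the left side is `⊤` (`gen {⊥, ⊤} = ⊤`), so `sInf Ga ≠ ⊥`.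
(2) `lad_nn` at `i = j₁.s` for `q = proj (S (succ a)) b` (`proj (S a) q = proj (S a) b ∈ Ga`): `G₁`, `q₀ ∈ S (succ a)` with `q ∈ G₁`, `q₀ ≤ sInf G₁`, `q₀ ≤ tg .. ≤ CoS ι δ` (`CoS_tg_in`, `δ = del M`), `proj (S a) q₀ = sInf Ga ≠ ⊥`, both in `W j₁.s`.  So `q₀ ≠ ⊥`.
(3) `chain_nn` for `succ a, g` at `i = j₁.s`, `G₁`, `b`: `j₂`, `G₂` with `GenF (S g) M G₂`, `b ∈ G₂`, `sInf G₁ ⊓ ggen (S (succ a)) W i j₂ ≤ proj (S (succ a)) (sInf G₂)`.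
(4) `chain_pp` for `0, succ a` and `q₀`: `⊤ = ggen (S 0) W i j₂ ⊓ proj (S 0) q₀ ≤ proj (S 0) (q₀ ⊓ ggen (S (succ a)) W i j₂)`, so `y = q₀ ⊓ ggen (S (succ a)) W i j₂ ≠ ⊥`; `y ∈ S (succ a)`, `y ≤ proj (S (succ a)) (sInf G₂)`, so `b' = y ⊓ sInf G₂ ≠ ⊥`
(`inf_ne_bot_of_proj`).
(5) `b' ≤ b`, `b' ≤ CoS ι δ`.  `b' ≤ Cn δ`: for `z < δ` (`InM z M`), `b ≤ ⨆ c > z, Cn c`, so by `ev_genF` (meeting `{Cn c | z < c}` below `b ∈ G₂`) some `Cn c ∈ G₂`, `z < c`, `InM c M`, so `c < δ`; `b' ≤ Cn c`.  So `b'` is below the premise of the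
implication of `closV Cn` at `δ` (`δ` is nonzero: `Om.z < δ`), and `b' ≤ closV Cn`; so `b' ≤ Cn δ`.  So `b' ≤ Cn δ ⊓ CoS ι δ` and `b' ≤ b`, contradiction.
-/

set_option autoImplicit false

namespace Pool.Agent.CAN

variable {B : Type 1} [CompleteBooleanAlgebra B] {S : Ordinal.{0} → Set B}

private theorem HJ_club {A : Set B} (hA : CSub A) (x : Om → B) (hx : ∀ a, x a ∈ A) : clubV x ∈ A := by
  unfold clubV
  refine hA.and ?_ ?_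
  · exact hA.iInf fun a => hA.iSup fun b => hx _
  · refine hA.iInf fun a => ?_
    rw [himp_eq]
    exact hA.or (hx _) (hA.compl _ (hA.iInf fun b => hA.iSup fun c => hx _))

private structure HJ_C (S : Ordinal.{0} → Set B) (a g : Ordinal.{0}) (Cn : Om → B) (b : B) (M : ZFSet.{1}) : Prop where
  zero : InM (0 : Ordinal.{0}) M
  ma : InM a M
  msa : InM (Order.succ a) M
  mg : InM g M
  mb : InM b M
  mt : InM (⊤ : B) M
  mtt : InM ({⊤} : Set B) M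
  pr : ∀ (s : Ordinal.{0}) (x : B), InM s M → InM x M → InM (proj (S s) x) M
  set : ∀ z : Om, InM z M → InM {d : B | ∃ c, z < c ∧ d = Cn c} M
  wit : ∀ (z : Om) (d : B), InM z M → InM d M → (∃ c : Om, z < c ∧ d = Cn c) → ∃ c : Om, InM c M ∧ z < c ∧ d = Cn c
  del : ∀ z : Om, InM z M ↔ z < CAN.del M
  lim : Lim (CAN.del M)

private theorem HJ_ev (S : Ordinal.{0} → Set B) (a g : Ordinal.{0}) (Cn : Om → B) (b : B) : Ev (HJ_C S a g Cn b) := by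
  refine ((((Ev.const (0 : Ordinal.{0})).and ((Ev.const a).and ((Ev.const (Order.succ a)).and (Ev.const g)))).and
    ((Ev.const b).and ((Ev.const (⊤ : B)).and (Ev.const ({⊤} : Set B))))).and
    (((Ev.fn2 (fun (s : Ordinal.{0}) (x : B) => proj (S s) x)).and
    (Ev.fn1 (fun z : Om => {d : B | ∃ c, z < c ∧ d = Cn c}))).and
    ((Ev.wit2 (fun (z : Om) (d : B) (c : Om) => z < c ∧ d = Cn c)).and (ev_del.and ev_del_lim)))).mono ?_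
  rintro M ⟨⟨⟨h1, h2, h3, h4⟩, h5, h6, h7⟩, ⟨h8, h9⟩, h10, h11, h12⟩
  exact ⟨h1, h2, h3, h4, h5, h6, h7, h8, h9, h10, h11, h12⟩

theorem cohen_stat (hS : Chain S) (h0 : S 0 = {⊥, ⊤}) (hn : (⊥ : B) ≠ ⊤) {a : Ordinal.{0}} {ι : B → Co → B}
    (h : Two (S a) (S (Order.succ a)) (fun _ : Co => (⊤ : B)) ι) (Cn : Om → B) {g : Ordinal.{0}}
    (hg : Order.succ a ≤ g) (hC : ∀ α, Cn α ∈ S g) : clubV Cn ≤ ⨆ α, Cn α ⊓ CoS ι α := by
  by_contra hno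
  have hb0 : clubV Cn ⊓ (⨆ α, Cn α ⊓ CoS ι α)ᶜ ≠ ⊥ := by
    intro h1
    exact hno (le_compl_iff_disjoint_right.2 (disjoint_iff.2 h1) |>.trans (compl_compl _).le)
  have hbS : clubV Cn ⊓ (⨆ α, Cn α ⊓ CoS ι α)ᶜ ∈ S g := by
    refine (hS.sub g).and (HJ_club (hS.sub g) Cn hC) ((hS.sub g).compl _ ((hS.sub g).iSup fun α => ?_))
    exact (hS.sub g).and (hC α) (hS.mono _ _ hg (CoS_mem h α))
  obtain ⟨b, hb⟩ : ∃ b, b = clubV Cn ⊓ (⨆ α, Cn α ⊓ CoS ι α)ᶜ := ⟨_, rfl⟩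
  rw [← hb] at hb0 hbS
  obtain ⟨F, hF⟩ := (((nns_choice S hS.sub).and (chain_nn hS).shift).and
    ((EvN.of_evT (chain_pp hS).shift).and (lad_nn h (co_ladder_in (hS.sub a))).shift)).and
    (((EvN.of_ev (ev_genF (B := B))).and (EvN.of_ev (HJ_ev S a g Cn b))).and
    ((EvN.of_evT (EvT.of_ev (HJ_ev S a g Cn b))).and EvN.sub))
  obtain ⟨M, hM, -⟩ := exists_mdl F (P := ∅) Set.countable_empty
  obtain ⟨W, hW, hMW⟩ := exists_tw F M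
  obtain ⟨⟨⟨hch, hnn⟩, hpp, hlad⟩, ⟨hgen, hc⟩, hcW, htw, hMz, hsub⟩ := hF M W Om.z hM hW hMW
  have hS0 : CSub (S 0) := hS.sub 0
  have hgg : ∀ i j, (⊤ : B) ≤ ggen (S 0) W i j := by
    intro i j
    rw [h0]
    exact le_ggen fun k _ _ => gen_two (hcW k (Om.z_le k)).mt hn
  have hne : ∀ x : B, (⊤ : B) ≤ proj (S 0) x → x ≠ ⊥ := by
    rintro x hx rfl
    rw [proj_bot hS0] at hx
    exact hn (le_bot_iff.1 hx).symm
  have hpt : ∀ x : B, x ≠ ⊥ → proj (S 0) x = ⊤ := by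
    intro x hx
    rw [h0]
    exact proj_two hx
  have hG0 : GenF (S 0) M {⊤} := by
    rw [h0]
    refine ⟨?_, ?_, ?_, ?_, ?_⟩
    · intro x hx
      rw [Set.mem_singleton_iff] at hx
      subst hx
      exact ⟨Or.inr rfl, hc.mt⟩
    · intro x hx y _ _ hxy
      rw [Set.mem_singleton_iff] at hx ⊢
      subst hx
      exact top_le_iff.1 hxy
    · intro x hx y hy
      rw [Set.mem_singleton_iff] at hx hy ⊢
      subst hx; subst hy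
      exact inf_idem _
    · intro hb
      rw [Set.mem_singleton_iff] at hb
      exact hn hb
    · intro E _ hE hs
      exact ⟨⊤, mem_top_of_two hE hs hn, rfl⟩
  have hbp : ∀ s : Ordinal.{0}, proj (S s) b ≠ ⊥ := fun s h1 => hb0 (proj_eq_bot h1)
  -- step 1
  obtain ⟨j1, hj1, Ga, k1, k2, k3, k4, k5⟩ := hch 0 a hc.zero hc.ma (hnn Om.z le_rfl 0 a zero_le hc.zero hc.ma)
    {⊤} (hcW Om.z le_rfl).mtt hG0 (proj (S a) b) (proj_mem (hS.sub a) b) (hc.pr a b hc.ma hc.mb)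
    (by rw [hpt _ (hbp a)]; exact rfl)
  have hGa : sInf Ga ≠ ⊥ := by
    refine hne _ (le_trans (le_inf ?_ (hgg _ _)) k5)
    simp
  -- step 2
  obtain ⟨G1, l1, l2, l3, l4, q0, l5, l6, l7, l8, l9⟩ := hlad j1.s (Om.z_le _) Ga k1 k2 (by rwa [inf_top_eq])
    (proj (S (Order.succ a)) b) (proj_mem (hS.sub _) b) (hc.pr _ b hc.msa hc.mb) (by
      rw [proj_proj (hS.sub a) (hS.sub _) (hS.mono _ _ (Order.le_succ a))]
      exact k3)
  have hq0 : q0 ≠ ⊥ := by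
    rintro rfl
    rw [proj_bot (hS.sub a), inf_top_eq] at l9
    exact hGa l9.symm
  -- step 3
  obtain ⟨j2, hj2, G2, m1, m2, m3, m4⟩ := hnn j1.s (Om.z_le _) (Order.succ a) g hg hc.msa hc.mg G1 l1 l2 b hbS hc.mb l3
  -- step 4
  have n1 := hpp j1.s (Om.z_le _) 0 (Order.succ a) zero_le (hcW j1.s (Om.z_le _)).zero (hcW j1.s (Om.z_le _)).msa
    j2 hj2 q0 l5 l6
  have hy0 : q0 ⊓ ggen (S (Order.succ a)) W j1.s j2 ≠ ⊥ := by
    refine hne _ (le_trans (le_inf (hgg _ _) ?_) n1)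
    rw [hpt _ hq0]
  have hyS : q0 ⊓ ggen (S (Order.succ a)) W j1.s j2 ∈ S (Order.succ a) :=
    (hS.sub _).and l5 (ggen_mem (hS.sub _) W _ _)
  have hyle : q0 ⊓ ggen (S (Order.succ a)) W j1.s j2 ≤ proj (S (Order.succ a)) (sInf G2) :=
    (inf_le_inf_right _ l7).trans m4
  have hb' : q0 ⊓ ggen (S (Order.succ a)) W j1.s j2 ⊓ sInf G2 ≠ ⊥ := by
    refine inf_ne_bot_of_proj (hS.sub _) hyS ?_
    rw [inf_eq_left.2 hyle]
    exact hy0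
  -- step 5
  have p1 : q0 ⊓ ggen (S (Order.succ a)) W j1.s j2 ⊓ sInf G2 ≤ b := inf_le_right.trans (sInf_le m2)
  have p2 : q0 ⊓ ggen (S (Order.succ a)) W j1.s j2 ⊓ sInf G2 ≤ CoS ι (del M) :=
    inf_le_left.trans (inf_le_left.trans (l8.trans (CoS_tg_in h _)))
  have hbc : b ≤ clubV Cn := by rw [hb]; exact inf_le_left
  have p3 : sInf G2 ≤ ⨅ z : {z : Om // z < del M}, ⨆ c : {c : Om // z.1 < c ∧ c < del M}, Cn c.1 := by
    refine le_iInf fun z => ?_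
    have hzM : InM z.1 M := (hc.del z.1).2 z.2
    have h1 : b ≤ sSup {d : B | ∃ c, z.1 < c ∧ d = Cn c} := by
      refine (hbc.trans (inf_le_left.trans (iInf_le _ z.1))).trans ?_
      exact iSup_le fun c => le_sSup ⟨c.1, c.2, rfl⟩
    obtain ⟨d, hd, hdG⟩ := (hgen (S g) (hS.sub g) G2 m1).2.2.2.1 _ (hc.set z.1 hzM) (by
      rintro d ⟨c, -, rfl⟩
      exact hC c) b m2 h1
    obtain ⟨c, hcM, hzc, rfl⟩ := hc.wit z.1 d hzM (m1.sub d hdG).2 hd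
    exact (sInf_le hdG).trans (le_iSup (fun c : {c : Om // z.1 < c ∧ c < del M} => Cn c.1) ⟨c, hzc, (hc.del c).1 hcM⟩)
  have p4 : b ≤ (⨅ z : {z : Om // z < del M}, ⨆ c : {c : Om // z.1 < c ∧ c < del M}, Cn c.1) ⇨ Cn (del M) :=
    hbc.trans (inf_le_right.trans (iInf_le (fun a : {a : Om // ∃ b : Om, b < a} =>
      (⨅ b : {b : Om // b < a.1}, ⨆ c : {c : Om // b.1 < c ∧ c < a.1}, Cn c.1) ⇨ Cn a.1) ⟨del M, hc.lim.1⟩))
  have p5 : q0 ⊓ ggen (S (Order.succ a)) W j1.s j2 ⊓ sInf G2 ≤ Cn (del M) := by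
    have h1 := le_inf (p1.trans p4) (inf_le_right.trans p3)
    exact h1.trans himp_inf_le
  apply hb'
  rw [← le_bot_iff, ← inf_compl_self (a := ⨆ α, Cn α ⊓ CoS ι α)]
  refine le_inf ((le_inf p5 p2).trans (le_iSup (fun α => Cn α ⊓ CoS ι α) (del M))) (p1.trans ?_)
  rw [hb]
  exact inf_le_right

end Pool.Agent.CAN
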