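import Pool.Agent.CAN.HDefs
import Pool.Agent.CAN.OMB

/-!
# CAN/HK: the two kinds of closed bounded sets (`CB` of Facts, `Cl` of TDefs)

`cl_ext`: let `c.c = c'.c`.  If one height is `0` then its set is empty, and then the other height cannot be a successor `t.s` with `t` in the set, so it is `0`.
Otherwise `c.h = t.s`, `c'.h = t'.s` with `t, t'` in the common set: `t < c'.h = t'.s`, so `t ≤ t'`, and conversely.
`exists_cl`: if `c.s` is empty take `h = Om.z`.  Otherwise the bounded nonempty set `c.s` has a least upper bound `t` (well-foundedness: the least `a` with `∀ b ∈ c.s, b ≤ a`).  `t ∈ c.s`: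
otherwise for every `b < t` there is an element of `c.s` above `b` (as `b` is not an upper bound), and it is `≠ t`, so `< t`; there is `b < t` (an element of `c.s`), so `c.closed t` applies.  `h = t.s`.
`closed` of `Cl`: from `closed` of `CB` (`Lim a` gives some `b < a`).
`exists_cb`: `s = c.c`, bounded by `c.h`; `closed`: let `∃ b < a` and `∀ b < a, ∃ x ∈ c.c, b < x ∧ x < a`.  Then `Lim a` (`b < x < a`).  If `a < c.h` use `c.closed`.  If `c.h ≤ a`: `c.max`: `h = 0` impossible (some `x ∈ c.c`, `x < h`);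
`h = t.s ≤ a`, so `t < a`, and there is `x ∈ c.c` with `t < x`, but `x < c.h = t.s`, a contradiction.
`le_cl`: both orders say: `c'` end-extends `c`.  If `toCl c' ≤ toCl c` then `c.s ⊆ c'.s` (elements of `c.s` are `< h`), and an element `a` of `c'.s` not in `c.s` is `≥ h` of `c`, so above all elements.  Conversely let
`c.s ⊆ c'.s` and all new elements be above `c.s`: for `a < h`, `a ∈ c'.s`: if `a ∉ c.s` then `a` is above all elements, but `h = t.s`, `t ∈ c.s`, `t < a < t.s`, impossible (or `h = 0`: no `a < h`).  Heights: if `h = 0` trivial; if `h = t.s`, `t ∈ c'.s`, so `t < h'`.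
`goodV_eq`: both are the infimum of `(S a)ᶜ` over `a` in the same set.
-/

set_option autoImplicit false

namespace Pool.Agent.CAN

theorem cl_ext {c c' : Cl} (h : c.c = c'.c) : c = c' := by
  have key : ∀ c c' : Cl, c.c = c'.c → c.h ≤ c'.h := by
    intro c c' h
    rcases c.max with h0 | ⟨t, ht, h1⟩
    · change c.h.1 ≤ c'.h.1
      rw [h0]
      exact bot_le
    · rw [h1, Om.s_le]
      rw [h] at ht
      exact c'.sub t ht
  have hh : c.h = c'.h := le_antisymm (key c c' h) (key c' c h.symm)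
  cases c
  cases c'
  simp only at h hh
  subst h
  subst hh
  rfl

theorem exists_cl (c : CB) : ∃ c' : Cl, c'.c = c.s := by
  rcases c.s.eq_empty_or_nonempty with h0 | hne
  · refine ⟨⟨Om.z, c.s, ?_, ?_, Or.inl rfl⟩, rfl⟩
    · intro a ha
      rw [h0] at ha
      exact absurd ha (Set.notMem_empty a)
    · intro a ha
      exact absurd ha (not_lt.2 (Om.z_le a))
  · obtain ⟨t, ht, hmin⟩ : ∃ t : Om, (∀ b ∈ c.s, b ≤ t) ∧ ∀ b, (∀ x ∈ c.s, x ≤ b) → t ≤ b := by
      have h1 : {a : Om | ∀ b ∈ c.s, b ≤ a}.Nonempty := c.bdd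
      refine ⟨WellFounded.min (wellFounded_lt (α := Om)) _ h1, WellFounded.min_mem (wellFounded_lt (α := Om)) _ h1,
        fun b hb => ?_⟩
      exact not_lt.1 fun hlt => WellFounded.not_lt_min (wellFounded_lt (α := Om)) {a : Om | ∀ b ∈ c.s, b ≤ a} hb hlt
    have htm : t ∈ c.s := by
      by_contra hn
      refine hn (c.closed t ?_ ?_)
      · obtain ⟨b, hb⟩ := hne
        exact ⟨b, lt_of_le_of_ne (ht b hb) (fun e => hn (e ▸ hb))⟩
      · intro b hb
        by_contra hcon
        have h3 : t ≤ b := by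
          refine hmin b fun x hx => ?_
          by_contra hlt
          have h4 : ¬ x < t := fun h5 => hcon ⟨x, hx, not_le.1 hlt, h5⟩
          have h5 : x = t := le_antisymm (ht x hx) (not_lt.1 h4)
          exact hn (h5 ▸ hx)
        exact absurd hb (not_lt.2 h3)
    refine ⟨⟨t.s, c.s, fun a ha => Om.lt_s_iff.2 (ht a ha), ?_, Or.inr ⟨t, htm, rfl⟩⟩, rfl⟩
    intro a _ hl h
    exact c.closed a hl.1 h

theorem exists_cb (c : Cl) : ∃ c' : CB, c'.s = c.c := by
  refine ⟨⟨c.c, ⟨c.h, fun b hb => (c.sub b hb).le⟩, ?_⟩, rfl⟩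
  rintro a ⟨b0, hb0⟩ h
  have hl : Lim a := by
    refine ⟨⟨b0, hb0⟩, fun b hb => ?_⟩
    obtain ⟨x, _, h1, h2⟩ := h b hb
    exact ⟨x, h1, h2⟩
  by_cases ha : a < c.h
  · exact c.closed a ha hl h
  · exfalso
    rcases c.max with h0 | ⟨t, ht, h1⟩
    · obtain ⟨x, hx, _⟩ := h b0 hb0
      have h2 : x.1 < c.h.1 := c.sub x hx
      rw [h0] at h2
      exact absurd h2 not_lt_bot
    · have h4 : t < c.h := c.sub t ht
      obtain ⟨x, hx, h2, _⟩ := h t (h4.trans_le (not_lt.1 ha))
      have h3 : x < c.h := c.sub x hx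
      rw [h1] at h3
      exact absurd h2 (not_lt.2 (Om.lt_s_iff.1 h3))

/-- The set `c` with its height. -/
noncomputable def toCl (c : CB) : Cl := (exists_cl c).choose

theorem toCl_c (c : CB) : (toCl c).c = c.s := (exists_cl c).choose_spec

theorem toCl_surj (c : Cl) : ∃ c' : CB, toCl c' = c := by
  obtain ⟨c', h⟩ := exists_cb c
  exact ⟨c', cl_ext ((toCl_c c').trans h)⟩

theorem le_cl (c' c : CB) : toCl c' ≤ toCl c ↔ c' ≤ c := by
  have e := toCl_c c
  have e' := toCl_c c'
  constructor
  · rintro ⟨h1, h2⟩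
    refine ⟨?_, ?_⟩
    · intro b hb
      rw [← e] at hb
      rw [← e']
      exact (h2 b ((toCl c).sub b hb)).2 hb
    · intro a ha han b hb
      rw [← e] at hb han
      rw [← e'] at ha
      have h3 : ¬ a < (toCl c).h := fun h4 => han ((h2 a h4).1 ha)
      exact ((toCl c).sub b hb).trans_le (not_lt.1 h3)
  · rintro ⟨h1, h2⟩
    rw [← e, ← e'] at h1 h2
    refine ⟨?_, ?_⟩
    · rcases (toCl c).max with h0 | ⟨t, ht, h3⟩
      · change (toCl c).h.1 ≤ (toCl c').h.1
        rw [h0]
        exact bot_le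
      · rw [h3, Om.s_le]
        exact (toCl c').sub t (h1 ht)
    · intro a ha
      refine ⟨fun h => ?_, fun h => h1 h⟩
      by_contra hn
      have h4 := h2 a h hn
      rcases (toCl c).max with h0 | ⟨t, ht, h3⟩
      · have h5 : a.1 < (toCl c).h.1 := ha
        rw [h0] at h5
        exact absurd h5 not_lt_bot
      · rw [h3] at ha
        exact absurd (h4 t ht) (not_lt.2 (Om.lt_s_iff.1 ha))

theorem goodV_eq {B : Type 1} [CompleteBooleanAlgebra B] (S : Om → B) (c : CB) : goodV S c = ClGood S (toCl c) := by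
  unfold goodV ClGood
  rw [toCl_c]
  exact iInf_subtype

end Pool.Agent.CAN
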