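import Pool.Agent.CAN.HK

/-!
# CAN/HL: translating the statements about conditions `(e, c : Cl)` into the statements of Facts about `QQ S`

A condition `p : QQ S` is the pair `(p.1.1, p.1.2)`; it corresponds to `(p.1.1, toCl p.1.2)` with `Pos Set.univ (ClGood S) ..` (`goodV_eq`), and every pair with `Pos` comes
from some `p : QQ S` (`toCl_surj`); the orders agree (`le_cl`).  Let `m p = (p.1.1, toCl p.1.2) : B × Cl`.
`qq_dist`: apply `H` to `D' n = {x | ∃ p ∈ D n, m p = x}`; `DO`: `opn` by openness of `D n` (if `(a', c') ≤ m p` is a condition, it is `m p'` with `p' ≤ p`), `dns` by density.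
`m` is injective on the relevant level: if `m p = m p'` then `p ≤ p'` and `p' ≤ p` (equal first components, `toCl` equal gives equal sets), so `p ∈ D n` gives `p' ∈ D n` by openness.
`qq_unb`: `H` gives `c'` with `b < c'.h`... take `b = a.s`-like: the element needed: `c'.h > a.s` so `c'.max` gives `h = t.s`, `t ∈ c'.c`, `a < t`.
`qq_chain`: given `(e, c)` from `H` take `p` with `m p = (e, c)`.  For `x : Om → Set (QQ S)` let `X a = {m t | t ∈ x a}`; if some `q ≤ p` satisfies `ForcesChain S T x q` then `FC S T X q.1.1 (toCl q.1.2)` (translate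
conditions back and forth), contradicting `H`.
-/

set_option autoImplicit false

namespace Pool.Agent.CAN

variable {B : Type 1} [CompleteBooleanAlgebra B]

private theorem HL_pos {S : Om → B} (p : QQ S) : Pos Set.univ (ClGood S) p.1.1 (toCl p.1.2) :=
  ⟨Set.mem_univ _, p.2.1, by rw [← goodV_eq]; exact p.2.2⟩

private theorem HL_surj {S : Om → B} {e : B} {c : Cl} (h : Pos Set.univ (ClGood S) e c) :
    ∃ p : QQ S, p.1.1 = e ∧ toCl p.1.2 = c := by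
  obtain ⟨c', rfl⟩ := toCl_surj c
  exact ⟨⟨(e, c'), h.2.1, by rw [goodV_eq]; exact h.2.2⟩, rfl, rfl⟩

private theorem HL_le {S : Om → B} {q p : QQ S} (h1 : q.1.1 ≤ p.1.1) (h2 : toCl q.1.2 ≤ toCl p.1.2) : q ≤ p :=
  ⟨h1, (le_cl _ _).1 h2⟩

private theorem HL_le' {S : Om → B} {q p : QQ S} (h : q ≤ p) : q.1.1 ≤ p.1.1 ∧ toCl q.1.2 ≤ toCl p.1.2 :=
  ⟨h.1, (le_cl _ _).2 h.2⟩

theorem qq_dist (S : Om → B) (H : ∀ D : ℕ → Set (B × Cl), (∀ n, DO Set.univ (ClGood S) (D n)) →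
    ∀ e c, Pos Set.univ (ClGood S) e c → ∃ e' c', Pos Set.univ (ClGood S) e' c' ∧ e' ≤ e ∧ c' ≤ c ∧ ∀ n, (e', c') ∈ D n)
    (p : QQ S) (D : ℕ → Set (QQ S)) (h1 : ∀ n, ∀ q, ∃ r ≤ q, r ∈ D n)
    (h2 : ∀ n, ∀ q ∈ D n, ∀ r ≤ q, r ∈ D n) : ∃ q ≤ p, ∀ n, q ∈ D n := by
  obtain ⟨e', c', hpos, he, hc, hD⟩ := H (fun n => {x | ∃ p ∈ D n, p.1.1 = x.1 ∧ toCl p.1.2 = x.2}) (by
    intro n
    refine ⟨?_, ?_, ?_⟩
    · rintro a c ⟨q, _, rfl, rfl⟩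
      exact HL_pos q
    · rintro a c a' c' ⟨q, hq, rfl, rfl⟩ hpos' ha hc
      obtain ⟨r, rfl, rfl⟩ := HL_surj hpos'
      exact ⟨r, h2 n q hq r (HL_le ha hc), rfl, rfl⟩
    · intro a c hpos'
      obtain ⟨q, rfl, rfl⟩ := HL_surj hpos'
      obtain ⟨r, hr, hrD⟩ := h1 n q
      exact ⟨r.1.1, toCl r.1.2, ⟨r, hrD, rfl, rfl⟩, (HL_le' hr).1, (HL_le' hr).2⟩) p.1.1 (toCl p.1.2) (HL_pos p)
  obtain ⟨q, rfl, rfl⟩ := HL_surj hpos
  refine ⟨q, HL_le he hc, fun n => ?_⟩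
  obtain ⟨r, hr, hr1, hr2⟩ := hD n
  exact h2 n r hr q (HL_le (by rw [hr1]) (by rw [hr2]))

theorem qq_unb (S : Om → B) (H : ∀ e c, Pos Set.univ (ClGood S) e c → ∀ b : Om,
    ∃ e' c', Pos Set.univ (ClGood S) e' c' ∧ e' ≤ e ∧ c' ≤ c ∧ b < c'.h) (p : QQ S) (a : Om) :
    ∃ q ≤ p, ∃ b ∈ q.1.2.s, a < b := by
  obtain ⟨e', c', hpos, he, hc, hb⟩ := H p.1.1 (toCl p.1.2) (HL_pos p) a.s
  obtain ⟨q, rfl, rfl⟩ := HL_surj hpos
  refine ⟨q, HL_le he hc, ?_⟩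
  rcases (toCl q.1.2).max with h0 | ⟨t, ht, hh⟩
  · exfalso
    have h3 : (a.s).1 < (toCl q.1.2).h.1 := hb
    rw [h0] at h3
    exact absurd h3 (not_lt.2 zero_le)
  · rw [hh] at hb
    refine ⟨t, ?_, (Om.lt_s a).trans_le (Om.lt_s_iff.1 hb)⟩
    rw [toCl_c] at ht
    exact ht

theorem qq_chain (S : Om → B) (T : Om → Om → B) (b₀ : B)
    (H : ∃ e c, Pos Set.univ (ClGood S) e c ∧ e ≤ b₀ ∧ ∀ (X : Om → Set (B × Cl)) e' c',
      Pos Set.univ (ClGood S) e' c' → e' ≤ e → c' ≤ c → ¬ FC S T X e' c') :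
    ∃ p : QQ S, p.1.1 ≤ b₀ ∧ ∀ x : Om → Set (QQ S), ∀ q ≤ p, ¬ ForcesChain S T x q := by
  obtain ⟨e, c, hpos, he, hX⟩ := H
  obtain ⟨p, rfl, rfl⟩ := HL_surj hpos
  refine ⟨p, he, fun x q hq hF => ?_⟩
  refine hX (fun a => {y | ∃ t ∈ x a, t.1.1 = y.1 ∧ toCl t.1.2 = y.2}) q.1.1 (toCl q.1.2) (HL_pos q)
    (HL_le' hq).1 (HL_le' hq).2 ⟨?_, ?_⟩
  · intro a e' c' hpos' h1 h2
    obtain ⟨r, rfl, rfl⟩ := HL_surj hpos'
    obtain ⟨r', hr', b, hab, t, ht, hrt⟩ := hF.unb a r (HL_le h1 h2)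
    exact ⟨r'.1.1, toCl r'.1.2, HL_pos r', (HL_le' hr').1, (HL_le' hr').2, b, hab, (t.1.1, toCl t.1.2),
      ⟨t, ht, rfl, rfl⟩, (HL_le' hrt).1, (HL_le' hrt).2⟩
  · intro a b hab e' c' hpos' h1 h2 ha hb
    obtain ⟨r, rfl, rfl⟩ := HL_surj hpos'
    obtain ⟨y, ⟨t, ht, hty1, hty2⟩, hy1, hy2⟩ := ha
    obtain ⟨y', ⟨t', ht', hty1', hty2'⟩, hy1', hy2'⟩ := hb
    exact hF.chain a b hab r (HL_le h1 h2) ⟨t, ht, HL_le (by rw [hty1]; exact hy1) (by rw [hty2]; exact hy2)⟩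
      ⟨t', ht', HL_le (by rw [hty1']; exact hy1') (by rw [hty2']; exact hy2')⟩

end Pool.Agent.CAN
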