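import Pool.Agent.CAN.HDefs

/-!
# CAN/HM: mixing names

PROOF.  Write `r ≤ q` for `r.1 ≤ q.1 ∧ r.2 ≤ q.2` (pairs in `B × Cl`) and `P r` for `Pos Set.univ (ClGood S) r.1 r.2`.  Let `Q = {q | P q ∧ q.1 ≤ b₀ ∧ ∃ X, FC S T X q.1 q.2}`.
By Zorn's lemma there is a maximal set `Z ⊆ Q` such that for different `q, q' ∈ Z` there is no `r` with `P r`, `r ≤ q`, `r ≤ q'`.  (1) Every `p` with `P p`, `p.1 ≤ b₀` has an `r`, `P r`, with `r ≤ p` and
`r ≤ q` for some `q ∈ Z`: `H` gives `p' ≤ p` in `Q`; if no such `r` exists then `Z ∪ {p'}` is a larger set, or `p' ∈ Z` and `r = p'` works.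
Choose `X_q` for `q ∈ Z` and let `X a = {t | P t ∧ ∃ q ∈ Z, t ≤ q ∧ ∃ u ∈ X_q a, t ≤ u}`.  `unb`: let `p' ≤ p`; by (1) there are `q ∈ Z` and `r ≤ p', q`; `FC.unb` for `X_q` gives `r' ≤ r`, `b > a`, `u ∈ X_q b`,
`r' ≤ u`; then `r' ∈ X b`.  `chain`: let `e', c'` be below `t ∈ X a` and `t' ∈ X b`; `t ≤ q`, `t' ≤ q'` in `Z`; `(e', c')` is below both so `q = q'`; `(e', c') ≤ t ≤ u ∈ X_q a` and the same for `b`; use `FC.chain` of `X_q` (for the condition `q`).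
-/

set_option autoImplicit false

namespace Pool.Agent.CAN

variable {B : Type 1} [CompleteBooleanAlgebra B]

theorem fc_mix (S : Om → B) (T : Om → Om → B) (b₀ : B)
    (H : ∀ e c, Pos Set.univ (ClGood S) e c → e ≤ b₀ → ∃ X e' c', Pos Set.univ (ClGood S) e' c' ∧ e' ≤ e ∧ c' ≤ c ∧
      FC S T X e' c') :
    ∃ X : Om → Set (B × Cl), (∀ a, ∀ t ∈ X a, Pos Set.univ (ClGood S) t.1 t.2) ∧
      ∀ e c, Pos Set.univ (ClGood S) e c → e ≤ b₀ → FC S T X e c := by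
  classical
  let P : B × Cl → Prop := fun q => Pos Set.univ (ClGood S) q.1 q.2
  let Q : Set (B × Cl) := {q | P q ∧ q.1 ≤ b₀ ∧ ∃ X, FC S T X q.1 q.2}
  let F : Set (Set (B × Cl)) := {Z | Z ⊆ Q ∧ ∀ q ∈ Z, ∀ q' ∈ Z, q ≠ q' → ∀ r, P r → r ≤ q → r ≤ q' → False}
  obtain ⟨Z, hZ⟩ := zorn_subset F (by
    intro c hc hch
    refine ⟨⋃₀ c, ⟨?_, ?_⟩, fun s hs => Set.subset_sUnion_of_mem hs⟩
    · exact Set.sUnion_subset fun s hs => (hc hs).1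
    · rintro q ⟨s, hs, hq⟩ q' ⟨s', hs', hq'⟩ hne
      rcases hch.total hs hs' with h | h
      · exact (hc hs').2 q (h hq) q' hq' hne
      · exact (hc hs).2 q hq q' (h hq') hne)
  have hZF : Z ∈ F := hZ.prop
  have h1 : ∀ p, P p → p.1 ≤ b₀ → ∃ q ∈ Z, ∃ r, P r ∧ r ≤ p ∧ r ≤ q := by
    intro p hp hpb
    by_contra hno
    push Not at hno
    obtain ⟨X, e', c', k1, k2, k3, k4⟩ := H p.1 p.2 hp hpb
    have hQ : (e', c') ∈ Q := ⟨k1, k2.trans hpb, X, k4⟩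
    have hF : insert (e', c') Z ∈ F := by
      refine ⟨Set.insert_subset hQ hZF.1, ?_⟩
      rintro q hq q' hq' hne r hr hrq hrq'
      rcases Set.mem_insert_iff.1 hq with rfl | hq
      · rcases Set.mem_insert_iff.1 hq' with rfl | hq'
        · exact hne rfl
        · exact hno q' hq' r hr ⟨hrq.1.trans k2, hrq.2.trans k3⟩ hrq'
      · rcases Set.mem_insert_iff.1 hq' with rfl | hq'
        · exact hno q hq r hr ⟨hrq'.1.trans k2, hrq'.2.trans k3⟩ hrq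
        · exact hZF.2 q hq q' hq' hne r hr hrq hrq'
    have hmem : (e', c') ∈ Z := hZ.le_of_ge hF (Set.subset_insert _ _) (Set.mem_insert _ _)
    exact hno _ hmem (e', c') k1 ⟨k2, k3⟩ le_rfl
  have h2 : ∀ q : B × Cl, ∃ X, q ∈ Z → FC S T X q.1 q.2 := by
    intro q
    by_cases hq : q ∈ Z
    · obtain ⟨X, hX⟩ := (hZF.1 hq).2.2
      exact ⟨X, fun _ => hX⟩
    · exact ⟨fun _ => ∅, fun h => absurd h hq⟩
  choose XX hXX using h2
  refine ⟨fun a => {t | P t ∧ ∃ q ∈ Z, t ≤ q ∧ ∃ u ∈ XX q a, t ≤ u}, fun a t ht => ht.1, ?_⟩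
  intro e c hec heb
  constructor
  · intro a e' c' hp he hc
    obtain ⟨q, hq, r, hr, hrp, hrq⟩ := h1 (e', c') hp (he.trans heb)
    obtain ⟨e'', c'', k1, k2, k3, b, hab, u, hu, k4, k5⟩ := (hXX q hq).unb a r.1 r.2 hr hrq.1 hrq.2
    refine ⟨e'', c'', k1, k2.trans hrp.1, k3.trans hrp.2, b, hab, (e'', c''), ⟨k1, q, hq, ⟨k2.trans hrq.1, k3.trans hrq.2⟩,
      u, hu, k4, k5⟩, le_rfl, le_rfl⟩
  · rintro a b hab e' c' hp he hc ⟨t, ⟨-, q, hq, htq, u, hu, htu⟩, k1, k2⟩ ⟨t', ⟨-, q', hq', htq', u', hu', htu'⟩, k3, k4⟩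
    have hqq : q = q' := by
      by_contra hne
      exact hZF.2 q hq q' hq' hne (e', c') hp ⟨k1.trans htq.1, k2.trans htq.2⟩ ⟨k3.trans htq'.1, k4.trans htq'.2⟩
    subst hqq
    exact (hXX q hq).chain a b hab e' c' hp (k1.trans htq.1) (k2.trans htq.2)
      ⟨u, hu, k1.trans htu.1, k2.trans htu.2⟩ ⟨u', hu', k3.trans htu'.1, k4.trans htu'.2⟩

end Pool.Agent.CAN
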