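import Pool.Agent.CAN.HA
import Pool.Agent.CAN.TWL

/-!
# CAN/HN: from a name for an unbounded chain over the big algebra to an element of a small algebra

PROOF.  Choose `v a c : E` with `f (v a c) = vv a c` (`vv a c` is the supremum in `hv`).  `vv a c ≤ ClGood (f ∘ S) c = f (ClGood S c)` (`CEmb.clGood'`), so `v a c ≤ ClGood S c`.
`x a = ⨆ (c) (_ : v a c ≠ ⊥), ι (e (v a c)) c`.  For `y ≠ ⊥`, `y ≤ ClGood S c` the pair `(e y, c)` satisfies `Pos (range e) ..` (call it a condition of level E) and `(f y, c)` satisfies `Pos univ (ClGood (f ∘ S))`;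
`proj (range e) (ι (e y) c) = e y`.  `Two.dense` gives conditions of level E (elements of `range e`).
(1) `e b₀ ≤ ⨆ b > a, x b`.  Otherwise a condition `ι (e y) c ≤ e b₀ ⊓ (⨆ ..)ᶜ`; then `y ≤ b₀` (`proj`).  `FC.unb` for `(f y, c)`: `e'' ≤ f y`, `c'' ≤ c`, `b > a`, `t ∈ X b`, `e'' ≤ t.1`, `c'' ≤ t.2`,
so `e'' ≤ vv b c'' = f (v b c'')`.  `y' = y ⊓ v b c''` is not `⊥` (`e'' ≤ f y'`), `y' ≤ ClGood S c''`, and `ι (e y') c'' ≤ ι (e y) c` and `≤ ι (e (v b c'')) c'' ≤ x b` (`Two.le_of_le`), contradiction.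
(2) for `a ≠ b`: `e b₀ ⊓ x a ⊓ x b ≤ e (T a b ⊔ T b a)`.  Otherwise a condition `ι (e y) c` is below `e b₀ ⊓ x a ⊓ x b ⊓ (e (T a b ⊔ T b a))ᶜ`; so `y ≤ b₀`, `y ⊓ (T a b ⊔ T b a) = ⊥`.
`ι (e y) c ≤ x a` meets some `ι (e (v a c₁)) c₁`; a condition is below both, and by `sep` (twice) there is a condition `(y₁, c₂)` of level E with `y₁ ≤ y, v a c₁` and `c₂ ≤ c, c₁`.  Still `ι (e y₁) c₂ ≤ x b`, so there is
`(y₂, c₃)`, `y₂ ≤ y₁, v b c₁'`, `c₃ ≤ c₂, c₁'`.  `f y₂ ≤ vv a c₁` meets some `y' ` of the set defining `vv a c₁` (`y' ≤ t.1`, `c₁ ≤ t.2`, `t ∈ X a`): `e₁ = f y₂ ⊓ y' ≠ ⊥`; `e₁ ≤ f (v b c₁')` meets some `y''`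
(`y'' ≤ t'.1`, `c₁' ≤ t'.2`, `t' ∈ X b`): `e₂ = e₁ ⊓ y'' ≠ ⊥`.  `(e₂, c₃)` is a condition below `(f y₂, c₃)`, below `t` and below `t'`.  `FC.chain` for the condition `(f y₂, c₃)`: `e₂ ⊓ (f (T a b) ⊔ f (T b a)) ≠ ⊥`, but `e₂ ≤ f y`.
-/

set_option autoImplicit false

namespace Pool.Agent.CAN

variable {B E D : Type 1} [CompleteBooleanAlgebra B] [CompleteBooleanAlgebra E] [CompleteBooleanAlgebra D]

private theorem HN_meet {A : Type 1} [CompleteBooleanAlgebra A] {x : A} (hx : x ≠ ⊥) {s : Set A} (h : x ≤ sSup s) :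
    ∃ y ∈ s, x ⊓ y ≠ ⊥ := by
  by_contra hno
  push Not at hno
  apply hx
  have h1 : x ⊓ sSup s = ⊥ := by
    rw [inf_sSup_eq]
    refine le_bot_iff.1 (iSup₂_le fun y hy => (hno y hy).le)
  rw [← h1]
  exact (inf_eq_left.2 h).symm

private theorem HN_two {A : Type 1} [CompleteBooleanAlgebra A] {K : Type 1} [Preorder K] {A' : Set A} {Good : K → A}
    {ι : A → K → A} (h2 : Two A' Set.univ Good ι) {p q : A} {c c' : K} (hp : Pos A' Good p c)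
    (hq : Pos A' Good q c') (h : ι p c ⊓ ι q c' ≠ ⊥) :
    ∃ r k, Pos A' Good r k ∧ r ≤ p ∧ r ≤ q ∧ k ≤ c ∧ k ≤ c' := by
  obtain ⟨d, k, hd, hdk⟩ := h2.dense _ (Set.mem_univ _) h
  obtain ⟨d1, k1, hd1, g1, g2, g3, g4⟩ := h2.sep _ _ _ _ hp hd (hdk.trans inf_le_left)
  have h3 : ι d1 k1 ≤ ι q c' := (h2.le_of_le hd hd1 g2 g4).trans (hdk.trans inf_le_right)
  obtain ⟨d2, k2, hd2, g5, g6, g7, g8⟩ := h2.sep _ _ _ _ hq hd1 h3
  exact ⟨d2, k2, hd2, g6.trans g1, g5, g8.trans g3, g7⟩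

theorem fc_chainV (f : E → B) (hf : CEmb f) (S : Om → E) (T : Om → Om → E) (b₀ : E)
    (e : E → D) (ι : D → Cl → D) (he : CEmb e)
    (h2 : Two (Set.range e) Set.univ (fun c => e (ClGood S c)) ι)
    (X : Om → Set (B × Cl))
    (hFC : ∀ e' c, Pos Set.univ (ClGood fun a => f (S a)) e' c → e' ≤ f b₀ →
      FC (fun a => f (S a)) (fun a b => f (T a b)) X e' c)
    (hv : ∀ a c, sSup {y | Pos Set.univ (ClGood fun a => f (S a)) y c ∧ ∃ t ∈ X a, y ≤ t.1 ∧ c ≤ t.2} ∈ Set.range f) :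
    ∃ x : Om → D, e b₀ ≤ chainV (fun a b => e (T a b)) x := by
  classical
  choose v hv' using hv
  have hG : ∀ c, (ClGood (fun a => f (S a)) c : B) = f (ClGood S c) := fun c => (hf.clGood' S c).symm
  have hvG : ∀ a c, v a c ≤ ClGood S c := by
    intro a c
    rw [← hf.le_iff, hv', ← hG]
    exact sSup_le fun y hy => hy.1.2.2
  have hpE : ∀ (y : E) (c : Cl), y ≠ ⊥ → y ≤ ClGood S c →
      Pos (Set.range e) (fun c => e (ClGood S c)) (e y) c :=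
    fun y c hy hyc => ⟨⟨y, rfl⟩, he.ne_bot hy, he.le_iff.2 hyc⟩
  have hpE' : ∀ (d : D) (c : Cl), Pos (Set.range e) (fun c => e (ClGood S c)) d c →
      ∃ y, e y = d ∧ y ≠ ⊥ ∧ y ≤ ClGood S c := by
    rintro d c ⟨⟨y, rfl⟩, h1, h3⟩
    refine ⟨y, rfl, ?_, he.le_iff.1 h3⟩
    rintro rfl
    exact h1 he.bot
  have hpB : ∀ (y : E) (c : Cl), y ≠ ⊥ → y ≤ ClGood S c →
      Pos Set.univ (ClGood fun a => f (S a)) (f y) c :=
    fun y c hy hyc => ⟨Set.mem_univ _, hf.ne_bot hy, by rw [hG]; exact hf.le_iff.2 hyc⟩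
  have hfst : ∀ (y z : E) (c : Cl), Pos (Set.range e) (fun c => e (ClGood S c)) (e y) c →
      ι (e y) c ≤ e z → y ≤ z := by
    intro y z c hp h
    have h3 := proj_le (A := Set.range e) (⟨z, rfl⟩ : e z ∈ Set.range e) h
    rw [h2.proj _ _ hp] at h3
    exact he.le_iff.1 h3
  let x : Om → D := fun a => ⨆ (c : Cl) (_ : v a c ≠ ⊥), ι (e (v a c)) c
  have hx : ∀ a, x a = sSup {d | ∃ c, v a c ≠ ⊥ ∧ d = ι (e (v a c)) c} := by
    intro a
    apply le_antisymm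
    · exact iSup_le fun c => iSup_le fun hc => le_sSup ⟨c, hc, rfl⟩
    · refine sSup_le ?_
      rintro d ⟨c, hc, rfl⟩
      exact le_iSup₂_of_le c hc le_rfl
  refine ⟨x, le_inf (le_iInf fun a => ?_) (le_iInf fun a => le_iInf fun b => ?_)⟩
  · by_contra hno
    have h3 : e b₀ ⊓ (⨆ b : {b : Om // a < b}, x b.1)ᶜ ≠ ⊥ := by
      intro h0
      exact hno (le_compl_iff_disjoint_right.2 (disjoint_iff.2 h0) |>.trans (compl_compl _).le)
    obtain ⟨d, c, hd, hdc⟩ := h2.dense _ (Set.mem_univ _) h3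
    obtain ⟨y, rfl, hy0, hyc⟩ := hpE' d c hd
    have hyb : y ≤ b₀ := hfst y b₀ c hd (hdc.trans inf_le_left)
    obtain ⟨e'', c'', k1, k2, k3, b, hab, t, ht, k4, k5⟩ :=
      (hFC (f y) c (hpB y c hy0 hyc) (hf.le_iff.2 hyb)).unb a (f y) c (hpB y c hy0 hyc) le_rfl le_rfl
    have k6 : e'' ≤ f (v b c'') := by
      rw [hv']
      exact le_sSup ⟨k1, t, ht, k4, k5⟩
    have k7 : e'' ≤ f (y ⊓ v b c'') := by
      rw [hf.and]
      exact le_inf k2 k6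
    have k8 : y ⊓ v b c'' ≠ ⊥ := by
      intro h0
      rw [h0, hf.bot] at k7
      exact k1.2.1 (le_bot_iff.1 k7)
    have k9 : v b c'' ≠ ⊥ := fun h0 => k8 (by rw [h0, inf_bot_eq])
    have p1 := hpE (y ⊓ v b c'') c'' k8 (inf_le_right.trans (hvG b c''))
    have p2 := hpE (v b c'') c'' k9 (hvG b c'')
    have q1 := h2.le_of_le hd p1 (he.le_iff.2 inf_le_left) k3
    have q2 := h2.le_of_le p2 p1 (he.le_iff.2 inf_le_right) le_rfl
    have q3 : ι (e (v b c'')) c'' ≤ x b := le_iSup₂_of_le c'' k9 le_rfl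
    have q4 : x b ≤ ⨆ b : {b : Om // a < b}, x b.1 := le_iSup (fun b : {b : Om // a < b} => x b.1) ⟨b, hab⟩
    apply h2.ne_bot p1
    rw [← le_bot_iff, ← inf_compl_self (a := ⨆ b : {b : Om // a < b}, x b.1)]
    exact le_inf (q2.trans (q3.trans q4)) (q1.trans (hdc.trans inf_le_right))
  · rw [le_himp_iff]
    by_contra hno
    have h3 : e b₀ ⊓ (x a ⊓ x b.1) ⊓ (e (T a b.1) ⊔ e (T b.1 a))ᶜ ≠ ⊥ := by
      intro h0
      exact hno (le_compl_iff_disjoint_right.2 (disjoint_iff.2 h0) |>.trans (compl_compl _).le)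
    obtain ⟨d, c, hd, hdc⟩ := h2.dense _ (Set.mem_univ _) h3
    obtain ⟨y, rfl, hy0, hyc⟩ := hpE' d c hd
    have hyb : y ≤ b₀ := hfst y b₀ c hd (hdc.trans (inf_le_left.trans inf_le_left))
    have hyT : y ≤ (T a b.1 ⊔ T b.1 a)ᶜ := by
      refine hfst y _ c hd ?_
      rw [he.compl, he.or']
      exact hdc.trans inf_le_right
    have hya : ι (e y) c ≤ x a := hdc.trans (inf_le_left.trans (inf_le_right.trans inf_le_left))
    have hyb' : ι (e y) c ≤ x b.1 := hdc.trans (inf_le_left.trans (inf_le_right.trans inf_le_right))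
    rw [hx] at hya hyb'
    obtain ⟨_, ⟨c1, hc1, rfl⟩, m1⟩ := HN_meet (h2.ne_bot hd) hya
    obtain ⟨d1, c2, hd1, g1, g2, g3, g4⟩ := HN_two h2 hd (hpE _ c1 hc1 (hvG a c1)) m1
    obtain ⟨y1, rfl, hy10, hy1c⟩ := hpE' d1 c2 hd1
    have hy1b := (h2.le_of_le hd hd1 g1 g3).trans hyb'
    obtain ⟨_, ⟨c1', hc1', rfl⟩, m2⟩ := HN_meet (h2.ne_bot hd1) hy1b
    obtain ⟨d2, c3, hd2, g5, g6, g7, g8⟩ := HN_two h2 hd1 (hpE _ c1' hc1' (hvG b.1 c1')) m2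
    obtain ⟨y2, rfl, hy20, hy2c⟩ := hpE' d2 c3 hd2
    have j1 : f y2 ≤ f (v a c1) := hf.le_iff.2 (he.le_iff.1 (g5.trans g2))
    have j2 : f y2 ≤ f (v b.1 c1') := hf.le_iff.2 (he.le_iff.1 g6)
    rw [hv'] at j1 j2
    obtain ⟨y', ⟨-, t, ht, l1, l2⟩, m3⟩ := HN_meet (hf.ne_bot hy20) j1
    obtain ⟨y'', ⟨-, t', ht', l3, l4⟩, m4⟩ := HN_meet m3 (inf_le_left.trans j2)
    have hpos : Pos Set.univ (ClGood fun a => f (S a)) (f y2) c3 := hpB y2 c3 hy20 hy2c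
    have hpos2 : Pos Set.univ (ClGood fun a => f (S a)) (f y2 ⊓ y' ⊓ y'') c3 :=
      ⟨Set.mem_univ _, m4, (inf_le_left.trans inf_le_left).trans hpos.2.2⟩
    have hy2y : y2 ≤ y := he.le_iff.1 (g5.trans g1)
    have hch := (hFC (f y2) c3 hpos (hf.le_iff.2 (hy2y.trans hyb))).chain a b.1 b.2 _ c3 hpos2
      (inf_le_left.trans inf_le_left) le_rfl
      ⟨t, ht, (inf_le_left.trans inf_le_right).trans l1, (g7.trans g4).trans l2⟩
      ⟨t', ht', inf_le_right.trans l3, g8.trans l4⟩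
    apply hch
    have j3 : f y2 ≤ (f (T a b.1) ⊔ f (T b.1 a))ᶜ := by
      rw [← hf.or', ← hf.compl, hf.le_iff]
      exact hy2y.trans hyT
    rw [← le_bot_iff, ← inf_compl_self (a := f (T a b.1) ⊔ f (T b.1 a))]
    exact le_inf inf_le_right ((inf_le_left.trans (inf_le_left.trans inf_le_left)).trans j3)

end Pool.Agent.CAN
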