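import Pool.Agent.CAN.HP
import Pool.Agent.CAN.HB
import Pool.Agent.CAN.CUN
import Pool.Agent.CAN.NTE
import Pool.Agent.CAN.ROB

/-!
# CAN/HO: shooting a club over the algebra `S g`

PROOF.  `letI := (hS.sub g).alg`; `val : S g → B` is a complete embedding (`CSub.alg_emb`).  `exists_two` for the algebra `S g`, `Good = ClGood Sg` (`cl_anti`, `cl_top`), gives `D, e, ι₂`.
For `b ≤ g` let `Z b = {x : S g | x.1 ∈ S b}`; `val '' Z b = S b`, `Z b` is a complete subalgebra, `Z g = univ`, `Z 0 = {⊥, ⊤}`.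
`NP (S b) (S c)` for `b ≤ c ≤ g` (`chain_np`), so `NP (Z b) (Z c)` (`NP.comap`), so `NP (e '' Z b) (e '' Z c)` (`NP.map`); `Distr (S b)` by `distr_of_np` and `h0` (for `b = a`, `b = g`), so `Distr (Z b)`, `Distr (e '' Z b)`
(`Distr.comap`, `Distr.map`).  `two_co_comap` along `val`: `Two (Z a) (Z (succ a)) ⊤ ι'`, `val (CoS ι' α) = CoS ι α`, so `CoS ι' = Sg`; `two_co_map` along `e`: `Two (e '' Z a) (e '' Z (succ a)) ⊤ ι₁`, `CoS ι₁ α = e (Sg α)`.
`np_cu` in `D` with `A = e '' Z a`, `C = e '' Z (succ a)`, `E = range e = e '' Z g`, `D = univ`, `ι₂` (its `Good` is `e (ClGood Sg c) = ClGood (CoS ι₁) c` by `CEmb.clGood'`): `NP (e '' Z a) univ`; and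
`e '' Z a` is the range of `fun x : S a => e (inclusion x)`.  `Distr univ`: `NP (e '' Z 0) (e '' Z a)` and `NP.comp`: `NP {⊥, ⊤} univ`; `distr_of_np csub_univ`.
-/

set_option autoImplicit false

namespace Pool.Agent.CAN

variable {B : Type 1} [CompleteBooleanAlgebra B] {S : Ordinal.{0} → Set B}

private theorem HO_small_Cl : Small.{0} Cl := by
  have : Small.{0} Om := inferInstanceAs (Small.{0} (Set.Iio (Ordinal.omega.{0} 1)))
  refine small_of_injective (f := fun c : Cl => (c.h, c.c)) ?_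
  rintro ⟨h1, c1, _, _, _⟩ ⟨h2, c2, _, _, _⟩ h
  simp only [Prod.mk.injEq] at h
  obtain ⟨rfl, rfl⟩ := h
  rfl

theorem exists_cu (hS : Chain S) (h0 : S 0 = {⊥, ⊤}) (hn : (⊥ : B) ≠ ⊤) (hsm : ∀ a, Small.{0} (S a))
    {a : Ordinal.{0}} {ι : B → Co → B} (h : Two (S a) (S (Order.succ a)) (fun _ : Co => (⊤ : B)) ι)
    {g : Ordinal.{0}} (hg : Order.succ a ≤ g) (hag : a ≤ g) (Sg : Om → S g) (hSg : ∀ α, (Sg α).1 = CoS ι α) :
    letI := (hS.sub g).alg
    ∃ (D : Type 1) (_ : CompleteBooleanAlgebra D) (e : S g → D) (ι₂ : D → Cl → D), Small.{0} D ∧ CEmb e ∧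
      Two (Set.range e) Set.univ (fun c => e (ClGood Sg c)) ι₂ ∧
      NP (Set.range fun x : S a => e (Set.inclusion (hS.mono a g hag) x)) Set.univ ∧ Distr (Set.univ : Set D) := by
  let inst := (hS.sub g).alg
  have hv : CEmb (Subtype.val : S g → B) := (hS.sub g).alg_emb
  have : Nontrivial (S g) := ⟨⊥, ⊤, fun h => hn (by rw [← hv.bot, ← hv.top, h])⟩
  obtain ⟨c0, hc0, hc1⟩ := cl_top Sg
  obtain ⟨D, iD, e, ι₂, he, h2, hsm2⟩ := exists_two (ClGood Sg) (fun c c' h => cl_anti Sg h) c0 hc0 hc1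
  set Z : Ordinal.{0} → Set (S g) := fun b => {x | x.1 ∈ S b} with hZdef
  have hZ : ∀ b, b ≤ g → Subtype.val '' Z b = S b := by
    intro b hb
    ext x
    constructor
    · rintro ⟨y, hy, rfl⟩
      exact hy
    · intro hx
      exact ⟨⟨x, hS.mono b g hb hx⟩, hx, rfl⟩
  have hZc : ∀ b, CSub (Z b) := by
    intro b
    constructor
    · intro s hs
      show (sSup s).1 ∈ S b
      rw [hv.sup]
      refine (hS.sub b).sup _ ?_
      rintro _ ⟨x, hx, rfl⟩
      exact hs hx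
    · intro x hx
      show (xᶜ).1 ∈ S b
      rw [hv.compl]
      exact (hS.sub b).compl _ hx
  have hZg : Z g = Set.univ := Set.eq_univ_of_forall fun x => x.2
  have hZ0 : Z 0 = {⊥, ⊤} := by
    ext x
    show x.1 ∈ S 0 ↔ x = ⊥ ∨ x = ⊤
    rw [h0]
    constructor
    · rintro (h | h)
      · left
        exact hv.inj (h.trans hv.bot.symm)
      · right
        exact hv.inj (h.trans hv.top.symm)
    · rintro (rfl | rfl)
      · left
        exact hv.bot
      · right
        exact hv.top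
  have hnp : ∀ b c, b ≤ c → c ≤ g → NP (Z b) (Z c) := by
    intro b c hbc hc
    refine NP.comap hv (hZc b) (hZc c) ?_
    rw [hZ b (hbc.trans hc), hZ c hc]
    exact chain_np hS hbc
  have hd : ∀ b, b ≤ g → Distr (Z b) := by
    intro b hb
    refine distr_of_np (hZc b) ?_
    rw [← hZ0]
    exact hnp 0 b zero_le hb
  have h' : Two (Subtype.val '' Z a) (Subtype.val '' Z (Order.succ a)) (fun _ : Co => (⊤ : B)) ι := by
    rw [hZ a hag, hZ _ hg]
    exact h
  obtain ⟨ι', hι', hco⟩ := two_co_comap hv (hZc a) (hZc _) h'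
  obtain ⟨ι₁, hι₁, hco₁⟩ := two_co_map he hι'
  have hSg' : ∀ α, CoS ι' α = Sg α := by
    intro α
    apply Subtype.ext
    rw [hco, hSg]
  have hfun : (fun c => e (ClGood Sg c)) = ClGood (CoS ι₁) := by
    funext c
    rw [he.clGood']
    have : CoS ι₁ = fun α => e (Sg α) := by
      funext α
      rw [hco₁, hSg']
    rw [this]
  have hrg : e '' Z g = Set.range e := by rw [hZg, Set.image_univ]
  have hE : NP (e '' Z (Order.succ a)) (Set.range e) := by
    rw [← hrg]
    exact NP.map he (hZc _) (hZc _) (hnp _ _ hg le_rfl)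
  have hdE : Distr (Set.range e) := by
    rw [← hrg]
    exact Distr.map he (hd g le_rfl)
  have h3 : Two (Set.range e) Set.univ (ClGood (CoS ι₁)) ι₂ := by
    rw [← hfun]
    exact h2
  have hmain : NP (e '' Z a) (Set.univ : Set D) :=
    np_cu hι₁ (Distr.map he (hd a hag)) (Set.image_subset_range _ _) hE hdE h3
  have himg : (Set.range fun x : S a => e (Set.inclusion (hS.mono a g hag) x)) = e '' Z a := by
    ext y
    constructor
    · rintro ⟨x, rfl⟩
      exact ⟨Set.inclusion (hS.mono a g hag) x, x.2, rfl⟩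
    · rintro ⟨x, hx, rfl⟩
      exact ⟨⟨x.1, hx⟩, rfl⟩
  have hcsa : CSub (e '' Z a) := CEmb.csub he (hZc a)
  have h00 : e '' Z 0 = {⊥, ⊤} := by
    rw [hZ0, Set.image_pair, he.bot, he.top]
  have hlow : NP ({⊥, ⊤} : Set D) (e '' Z a) := by
    rw [← h00]
    exact NP.map he (hZc _) (hZc _) (hnp 0 a zero_le hag)
  have hall : NP ({⊥, ⊤} : Set D) Set.univ := by
    refine NP.comp csub_two hcsa csub_univ ?_ (Set.subset_univ _) hlow hmain
    rintro x (rfl | rfl)
    · exact hcsa.bot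
    · exact hcsa.top
  refine ⟨D, iD, e, ι₂, hsm2 (hsm g) HO_small_Cl, he, h2, ?_, distr_of_np csub_univ hall⟩
  rw [himg]
  exact hmain

end Pool.Agent.CAN
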