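import Pool.Agent.CAN.HA
import Pool.Agent.CAN.COH

/-!
# CAN/HP: two-step extensions and complete embeddings, Cohen sets

`Two.comap`: `f` is injective; put `ι' x c = ` the preimage of `ι (f x) c` if it is in the range of `f`, else `⊥`.  For a condition `(a, c)` (`Pos A' Good' a c`; then `Pos (f '' A') (f ∘ Good') (f a) c`)
`ι (f a) c ∈ f '' C'`, so `f (ι' a c) = ι (f a) c`.  All fields are reflected by `f` (`CEmb.le_iff`, `CEmb.proj`, `CEmb.and`, `CEmb.top`); `sub A`, `sub C`: `A' = f ⁻¹' (f '' A')` is a complete subalgebra by hypothesis `hA`, `hC`.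
`CoS_map`, `CoS_comap`: `CoS ι a = ⨆ .., ι ⊤ c` and `(⊤, c)` is a condition; `CEmb.iSup'`.
`two_congr`: `Two` only depends on the values of `Good` (`funext`).
-/

set_option autoImplicit false

namespace Pool.Agent.CAN

variable {B C0 : Type 1} [CompleteBooleanAlgebra B] [CompleteBooleanAlgebra C0] {K : Type 1} [Preorder K]
  {A' C' : Set C0}

omit [Preorder K] in
private theorem HP_pos {f : C0 → B} (hf : CEmb f) {Good' : K → C0} {a : C0} {c : K}
    (h : Pos A' Good' a c) : Pos (f '' A') (fun c => f (Good' c)) (f a) c :=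
  ⟨⟨a, h.1, rfl⟩, hf.ne_bot h.2.1, hf.le_iff.2 h.2.2⟩

omit [Preorder K] in
private theorem HP_pos' {f : C0 → B} (hf : CEmb f) {Good' : K → C0} {b : B} {c : K}
    (h : Pos (f '' A') (fun c => f (Good' c)) b c) : ∃ a, f a = b ∧ Pos A' Good' a c := by
  obtain ⟨⟨a, ha, rfl⟩, h2, h3⟩ := h
  refine ⟨a, rfl, ha, ?_, hf.le_iff.1 h3⟩
  rintro rfl
  exact h2 hf.bot

private theorem HP_mem {f : C0 → B} (hf : CEmb f) {S : Set C0} {x : C0} (h : f x ∈ f '' S) : x ∈ S := by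
  obtain ⟨y, hy, hxy⟩ := h
  rw [← hf.inj hxy]
  exact hy

theorem Two.comap {f : C0 → B} (hf : CEmb f) (hA : CSub A') (hC : CSub C') {Good' : K → C0} {ι : B → K → B}
    (h : Two (f '' A') (f '' C') (fun c => f (Good' c)) ι) :
    ∃ ι' : C0 → K → C0, Two A' C' Good' ι' ∧ ∀ a c, Pos A' Good' a c → f (ι' a c) = ι (f a) c := by
  have key : ∀ a c, Pos A' Good' a c → f (Function.invFun f (ι (f a) c)) = ι (f a) c := by
    intro a c hp
    obtain ⟨y, _, hy⟩ := h.mem (f a) c (HP_pos hf hp)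
    exact Function.invFun_eq ⟨y, hy⟩
  refine ⟨fun a c => Function.invFun f (ι (f a) c), ?_, key⟩
  refine
    { subA := hA
      subC := hC
      incl := fun x hx => HP_mem hf (h.incl ⟨x, hx, rfl⟩)
      good := fun c => HP_mem hf (h.good c)
      anti := fun c c' hc => hf.le_iff.1 (h.anti c c' hc)
      mem := ?_
      proj := ?_
      res := ?_
      mono := ?_
      dense := ?_
      sep := ?_
      top := ?_ }
  · intro a c hp
    apply HP_mem hf
    rw [key a c hp]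
    exact h.mem _ _ (HP_pos hf hp)
  · intro a c hp
    apply hf.inj
    rw [← hf.proj hA, key a c hp]
    exact h.proj _ _ (HP_pos hf hp)
  · intro a b c hp hp' hb
    have h1 := HP_pos hf hp'
    rw [hf.and] at h1
    apply hf.inj
    show f (Function.invFun f (ι (f (b ⊓ a)) c)) = f (b ⊓ Function.invFun f (ι (f a) c))
    rw [key _ c hp', hf.and, hf.and, key a c hp]
    exact h.res _ _ _ (HP_pos hf hp) h1 ⟨b, hb, rfl⟩
  · intro a c c' hc hp
    have hp1 : Pos A' Good' a c := ⟨hp.1, hp.2.1, hp.2.2.trans (hf.le_iff.1 (h.anti c c' hc))⟩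
    rw [← hf.le_iff, key a c hp1, key a c' hp]
    exact h.mono _ _ _ hc (HP_pos hf hp)
  · intro x hx hne
    obtain ⟨b, c, hp, hle⟩ := h.dense (f x) ⟨x, hx, rfl⟩ (hf.ne_bot hne)
    obtain ⟨a, rfl, hp'⟩ := HP_pos' hf hp
    exact ⟨a, c, hp', by rw [← hf.le_iff, key a c hp']; exact hle⟩
  · intro a c a' c' hp hp' hle
    rw [← hf.le_iff, key a c hp, key a' c' hp'] at hle
    obtain ⟨b, c2, hp2, h1, h2, h3, h4⟩ := h.sep _ _ _ _ (HP_pos hf hp) (HP_pos hf hp') hle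
    obtain ⟨a2, rfl, hp2'⟩ := HP_pos' hf hp2
    exact ⟨a2, c2, hp2', hf.le_iff.1 h1, hf.le_iff.1 h2, h3, h4⟩
  · obtain ⟨c0, h1, h2⟩ := h.top
    refine ⟨c0, hf.inj (h1.trans hf.top.symm), ?_⟩
    show Function.invFun f (ι (f ⊤) c0) = ⊤
    rw [hf.top, h2, ← hf.top, Function.leftInverse_invFun hf.inj]

theorem CoS_map {f : C0 → B} (hf : CEmb f) {ι' : C0 → Co → C0} {ι : B → Co → B}
    (h : ∀ c, ι ⊤ c = f (ι' ⊤ c)) (a : Om) : CoS ι a = f (CoS ι' a) := by
  unfold CoS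
  rw [hf.iSup']
  refine iSup_congr fun c => ?_
  rw [hf.iSup']
  exact iSup_congr fun _ => h c

/-- `Two` for Cohen conditions is preserved by complete embeddings. -/
theorem two_co_map {f : C0 → B} (hf : CEmb f) {ι' : C0 → Co → C0}
    (h : Two A' C' (fun _ : Co => (⊤ : C0)) ι') :
    ∃ ι : B → Co → B, Two (f '' A') (f '' C') (fun _ : Co => (⊤ : B)) ι ∧ ∀ a, CoS ι a = f (CoS ι' a) := by
  obtain ⟨ι, h1, h2⟩ := h.map f hf
  rw [hf.top] at h1
  refine ⟨ι, h1, CoS_map hf fun c => ?_⟩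
  rw [← h2, hf.top]

theorem two_co_comap {f : C0 → B} (hf : CEmb f) (hA : CSub A') (hC : CSub C') {ι : B → Co → B}
    (h : Two (f '' A') (f '' C') (fun _ : Co => (⊤ : B)) ι) :
    ∃ ι' : C0 → Co → C0, Two A' C' (fun _ : Co => (⊤ : C0)) ι' ∧ ∀ a, f (CoS ι' a) = CoS ι a := by
  have h0 : Two (f '' A') (f '' C') (fun _ : Co => f (⊤ : C0)) ι := by
    rw [hf.top]
    exact h
  obtain ⟨ι', h1, h2⟩ := Two.comap (Good' := fun _ : Co => (⊤ : C0)) hf hA hC h0
  refine ⟨ι', h1, fun a => ?_⟩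
  by_cases hT : (⊤ : C0) = ⊥
  · have hB : (⊤ : B) = ⊥ := by rw [← hf.top, hT, hf.bot]
    have hall : ∀ x : B, x = ⊥ := fun x => le_bot_iff.1 (hB ▸ le_top)
    rw [hall (CoS ι a)]
    exact hall _
  · refine (CoS_map hf (fun c => ?_) a).symm
    rw [h2 ⊤ c ⟨hA.top, hT, le_rfl⟩, hf.top]

end Pool.Agent.CAN
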