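import Pool.Agent.CAN.HA
import Pool.Agent.CAN.TWL
import Pool.Agent.CAN.CUL

/-!
# CAN/HQ: distributivity of the forcing of conditions `(y, c)`, `c : Cl`

PROOF.  Let `En n = {z | ∃ y c, (y, c) ∈ Dn n ∧ z = ι₂ (e y) c}`.  `sSup (En n) = ⊤`: otherwise a condition `ι₂ (e y) c` is below the complement, extend `(y, c)` into `Dn n`.  For the given `(y, c)` put `q = ι₂ (e y) c ≠ ⊥`.
`hd` gives `r ≠ ⊥`, `r ≤ q`, and for all `n` some `(yn n, cn n) ∈ Dn n` with `r ≤ ι₂ (e (yn n)) (cn n)`.  `Two.dense`: `ι₂ (e y₁) c₁ ≤ r`, and `sep` for `ι₂ (e y₁) c₁ ≤ ι₂ (e y) c` gives a condition `(y₂, c₂)`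
below `(y₁, c₁)` and `(y, c)`.  `Om.bdd`: some `ζ` is above all `(cn n).h`.  `Ladder.high` of `cl_ladder` (`A = univ`) gives `(y', c') ≤ (y₂, c₂)` with `ζ < c'.h`.  Claim: `y' ≤ yn n` and `c' ≤ cn n`; then `(y', c') ∈ Dn n` by `opn`.
`ι₂ (e y') c' ≤ ι₂ (e y₁) c₁ ≤ r ≤ ι₂ (e (yn n)) (cn n)`; projecting: `e y' ≤ e (yn n)`.  `sep`: a condition `(y'', c'')` with `c'' ≤ c'`, `c'' ≤ cn n`; as `(cn n).h ≤ c'.h`, for `x < (cn n).h`:
`x ∈ c'.c ↔ x ∈ c''.c ↔ x ∈ (cn n).c`, so `c' ≤ cn n`.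
-/

set_option autoImplicit false

namespace Pool.Agent.CAN

variable {E D : Type 1} [CompleteBooleanAlgebra E] [CompleteBooleanAlgebra D]

theorem cu_dist (e : E → D) (he : CEmb e) (S : Om → E) (hu : ∀ a, (⨆ (x : Om) (_ : a < x), (S x)ᶜ) = ⊤)
    (ι₂ : D → Cl → D) (h2 : Two (Set.range e) Set.univ (fun c => e (ClGood S c)) ι₂)
    (hd : Distr (Set.univ : Set D)) (Dn : ℕ → Set (E × Cl)) (hD : ∀ n, DO Set.univ (ClGood S) (Dn n)) :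
    ∀ y c, Pos Set.univ (ClGood S) y c →
      ∃ y' c', Pos Set.univ (ClGood S) y' c' ∧ y' ≤ y ∧ c' ≤ c ∧ ∀ n, (y', c') ∈ Dn n := by
  intro y c hyc
  have hpos : ∀ {a : E} {c : Cl}, Pos Set.univ (ClGood S) a c →
      Pos (Set.range e) (fun c => e (ClGood S c)) (e a) c := fun h => he.pos h
  have hpos' : ∀ {a : D} {c : Cl}, Pos (Set.range e) (fun c => e (ClGood S c)) a c →
      ∃ y, a = e y ∧ Pos Set.univ (ClGood S) y c := by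
    rintro a c ⟨⟨y, rfl⟩, h1, h2⟩
    exact ⟨y, rfl, Set.mem_univ _, fun h => h1 (by rw [h, he.bot]), he.le_iff.1 h2⟩
  let En : ℕ → Set D := fun n => {z | ∃ y c, (y, c) ∈ Dn n ∧ z = ι₂ (e y) c}
  have hEn : ∀ n, sSup (En n) = ⊤ := by
    intro n
    by_contra hne
    have h1 : (sSup (En n))ᶜ ≠ ⊥ := fun h => hne (compl_eq_bot.1 h)
    obtain ⟨a, c1, hp, hle⟩ := h2.dense _ (Set.mem_univ _) h1
    obtain ⟨y1, rfl, hp1⟩ := hpos' hp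
    obtain ⟨y', c', hD', hy', hc'⟩ := (hD n).dns y1 c1 hp1
    have hp' := (hD n).sub y' c' hD'
    have h3 : ι₂ (e y') c' ≤ (sSup (En n))ᶜ :=
      (h2.le_of_le hp (hpos hp') (he.le_iff.2 hy') hc').trans hle
    have h4 : ι₂ (e y') c' ≤ sSup (En n) := le_sSup ⟨y', c', hD', rfl⟩
    exact h2.ne_bot (hpos hp') (le_bot_iff.1 ((le_inf h4 h3).trans (le_of_eq (inf_compl_self _))))
  obtain ⟨r, -, hr, hrq, hrn⟩ := hd En (fun n => ⟨Set.subset_univ _, hEn n⟩) (ι₂ (e y) c) (Set.mem_univ _)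
    (h2.ne_bot (hpos hyc))
  have hex : ∀ n, ∃ p : E × Cl, p ∈ Dn n ∧ r ≤ ι₂ (e p.1) p.2 := by
    intro n
    obtain ⟨d, ⟨y1, c1, h1, rfl⟩, h3⟩ := hrn n
    exact ⟨(y1, c1), h1, h3⟩
  choose p hpD hrp using hex
  obtain ⟨a1, c1, hp1, hle1⟩ := h2.dense r (Set.mem_univ _) hr
  obtain ⟨y1, rfl, hy1⟩ := hpos' hp1
  obtain ⟨a2, c2, hp2, h21, h22, h23, h24⟩ := h2.sep (e y) c (e y1) c1 (hpos hyc) hp1 (hle1.trans hrq)
  obtain ⟨y2, rfl, hy2⟩ := hpos' hp2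
  obtain ⟨ζ, hζ⟩ := Om.bdd (Set.countable_range (fun n => (p n).2.h))
  have L := cl_ladder (A := (Set.univ : Set E)) csub_univ S (fun _ => Set.mem_univ _) hu
  obtain ⟨y', c', hp', hyy', hcc', hζ'⟩ := L.high y2 c2 hy2 ζ
  refine ⟨y', c', hp', hyy'.trans (he.le_iff.1 h21), hcc'.trans h23, fun n => ?_⟩
  have hy1' : e y' ≤ e y1 := (he.le_iff.2 hyy').trans h22
  have h3 : ι₂ (e y') c' ≤ ι₂ (e (p n).1) (p n).2 :=
    ((h2.le_of_le hp1 (hpos hp') hy1' (hcc'.trans h24)).trans hle1).trans (hrp n)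
  have hpn : Pos Set.univ (ClGood S) (p n).1 (p n).2 := (hD n).sub _ _ (hpD n)
  have h4 : e y' ≤ e (p n).1 := by
    have h5 := proj_mono (A := Set.range e) h3
    rwa [h2.proj _ _ (hpos hp'), h2.proj _ _ (hpos hpn)] at h5
  obtain ⟨a3, c3, hp3, h31, h32, h33, h34⟩ := h2.sep (e (p n).1) (p n).2 (e y') c' (hpos hpn) (hpos hp') h3
  have hζn : (p n).2.h < ζ := hζ _ ⟨n, rfl⟩
  have hc : c' ≤ (p n).2 := by
    refine ⟨(hζn.trans hζ').le, fun x hx => ?_⟩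
    exact ((h34.2 x (hx.trans (hζn.trans hζ'))).symm).trans (h33.2 x hx)
  exact (hD n).opn _ _ _ _ (hpD n) hp' (he.le_iff.1 h4) hc

end Pool.Agent.CAN
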