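import Pool.Agent.CAN.HF
import Pool.Agent.CAN.HO
import Pool.Agent.CAN.HQ

/-!
# CAN/HR: distributivity of the club shooting over the final algebra

PROOF.  Write `Sv = CoS ι`; `Sv α ∈ S (succ a)` (`CoS_mem`).  Let `b0 ≥ succ a` with `e ∈ S b0` (`Full.bdd`).  `Full.close` with `Y = Cl × ULift ℕ` and `ρ x (c, n) z := Pos univ (ClGood Sv) x c ∧ ∃ c', (z, c') ∈ D n ∧ z ≤ x ∧ c' ≤ c` gives `g > b0`.
`letI := (hF.chain.sub g).alg`, `Sg α = ⟨Sv α, _⟩`, `val` is a complete embedding and `val (ClGood Sg c) = ClGood Sv c` (`CEmb.clGood'`).  `Dn n = {(x, c) | (x.1, c) ∈ D n} ⊆ S g × Cl` is `DO univ (ClGood Sg)`: `sub`, `opn` clear; `dns`: let `(x, c)` be a condition;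
`Chain.direct`: `b < g`, `y ∈ S b`, `⊥ ≠ y ≤ x`; `(y, c)` is a condition, `D n` is dense, so closure gives `z ∈ S g` with `(z, c') ∈ D n`, `z ≤ y`, `c' ≤ c`.
`exists_cu` for `g` gives `D', e', ι₂`; `cu_dist` (its `hu`: `CoS_unb`, transported: `val` is a complete embedding and injective) for the condition `(⟨e, _⟩, c)`.
-/

set_option autoImplicit false

namespace Pool.Agent.CAN

variable {I J B : Type 1} {P : TaskRel I J} [CompleteBooleanAlgebra B] {S : Ordinal.{0} → Set B}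

private theorem HR_small_Cl : Small.{0} Cl := by
  have : Small.{0} Om := inferInstanceAs (Small.{0} (Set.Iio (Ordinal.omega.{0} 1)))
  refine small_of_injective (f := fun c : Cl => (c.h, c.c)) ?_
  rintro ⟨h1, c1, _, _, _⟩ ⟨h2, c2, _, _, _⟩ h
  simp only [Prod.mk.injEq] at h
  obtain ⟨rfl, rfl⟩ := h
  rfl

theorem full_cu_dist (hF : Full P B S) {a : Ordinal.{0}} {ι : B → Co → B}
    (h : Two (S a) (S (Order.succ a)) (fun _ : Co => (⊤ : B)) ι) (D : ℕ → Set (B × Cl))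
    (hD : ∀ n, DO Set.univ (ClGood (CoS ι)) (D n)) (e : B) (c : Cl) (hp : Pos Set.univ (ClGood (CoS ι)) e c) :
    ∃ e' c', Pos Set.univ (ClGood (CoS ι)) e' c' ∧ e' ≤ e ∧ c' ≤ c ∧ ∀ n, (e', c') ∈ D n := by
  have hsc : Small.{0} Cl := HR_small_Cl
  obtain ⟨b0, hb0a, hb0e⟩ := hF.bdd (X := PUnit.{2}) (fun _ => e) (Order.succ a)
  obtain ⟨g, hg, hlim, hcof, hcl⟩ := hF.close (Y := Cl × ULift.{1} ℕ)
    (fun x y z => Pos Set.univ (ClGood (CoS ι)) x y.1 ∧ ∃ c', (z, c') ∈ D y.2.down ∧ z ≤ x ∧ c' ≤ y.1) b0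
  have hsg : Order.succ a ≤ g := hb0a.trans hg.le
  have hag : a ≤ g := (Order.le_succ a).trans hsg
  let inst := (hF.chain.sub g).alg
  have hv : CEmb (Subtype.val : S g → B) := (hF.chain.sub g).alg_emb
  let Sg : Om → S g := fun α => ⟨CoS ι α, hF.chain.mono _ _ hsg (CoS_mem h α)⟩
  obtain ⟨D', iD, e', ι₂, hsD, he', h2, hnp, hdist⟩ :=
    exists_cu hF.chain hF.zero hF.nontriv hF.small h hsg hag Sg (fun _ => rfl)
  have hG : ∀ c, (ClGood Sg c).1 = ClGood (CoS ι) c := fun c => hv.clGood' Sg c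
  have hb : ((⊥ : S g) : B) = ⊥ := hv.bot
  have hpos : ∀ (x : S g) (c : Cl), Pos Set.univ (ClGood (CoS ι)) x.1 c ↔ Pos Set.univ (ClGood Sg) x c := by
    intro x c
    constructor
    · rintro ⟨-, h1, h3⟩
      refine ⟨Set.mem_univ _, ?_, ?_⟩
      · intro h4
        exact h1 (by rw [h4, hb])
      · rw [← hv.le_iff, hG]
        exact h3
    · rintro ⟨-, h1, h3⟩
      refine ⟨Set.mem_univ _, ?_, ?_⟩
      · intro h4
        exact h1 (hv.inj (h4.trans hb.symm))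
      · rw [← hG]
        exact hv.le_iff.2 h3
  let Dn : ℕ → Set (S g × Cl) := fun n => {x | (x.1.1, x.2) ∈ D n}
  have hDn : ∀ n, DO Set.univ (ClGood Sg) (Dn n) := by
    intro n
    refine ⟨?_, ?_, ?_⟩
    · intro x c hx
      exact (hpos x c).1 ((hD n).sub _ _ hx)
    · intro x c x' c' hx hp' hxx hcc
      exact (hD n).opn _ _ _ _ hx ((hpos x' c').2 hp') hxx hcc
    · intro x c hx
      have hx' := (hpos x c).2 hx
      obtain ⟨b, hb, y, hy, hy0, hyx⟩ := hF.chain.direct g hlim hcof x.1 x.2 hx'.2.1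
      have hyp : Pos Set.univ (ClGood (CoS ι)) y c := ⟨Set.mem_univ _, hy0, hyx.trans hx'.2.2⟩
      obtain ⟨a', c', h3, h4, h5⟩ := (hD n).dns y c hyp
      obtain ⟨z, hz, -, c'', h6, h7, h8⟩ := hcl b hb y hy (c, ⟨n⟩) ⟨a', hyp, c', h3, h4, h5⟩
      exact ⟨⟨z, hz⟩, c'', h6, h7.trans hyx, h8⟩
  have hu : ∀ a, (⨆ (x : Om) (_ : a < x), (Sg x)ᶜ) = ⊤ := by
    intro a
    apply hv.inj
    rw [hv.iSup', hv.top, ← (CoS_unb h a).1]
    refine iSup_congr fun x => ?_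
    rw [hv.iSup']
    rfl
  have heg : e ∈ S g := hF.chain.mono b0 g hg.le (hb0e PUnit.unit)
  obtain ⟨y', c', h3, h4, h5, h6⟩ := cu_dist e' he' Sg hu ι₂ h2 hdist Dn hDn ⟨e, heg⟩ c ((hpos ⟨e, heg⟩ c).1 hp)
  exact ⟨y'.1, c', (hpos y' c').2 h3, h4, h5, h6⟩

end Pool.Agent.CAN
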