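import Pool.Agent.CAN.HF
import Pool.Agent.CAN.HM
import Pool.Agent.CAN.HN
import Pool.Agent.CAN.HO

/-!
# CAN/HS: no unbounded chain is added

PROOF.  Suppose not.  Then the hypothesis `H` of `fc_mix` holds for `CoS ι, T, b₀`; let `X` be given by it.  `vv α c = sSup {y | Pos univ (ClGood (CoS ι)) y c ∧ ∃ t ∈ X α, y ≤ t.1 ∧ c ≤ t.2}`: a family indexed by the small type `Om × Cl`, so by `Full.bdd` there is
`g ≥ succ a` with `vv α c ∈ S g` for all `α, c`.  `letI := (hF.chain.sub g).alg`; `f = val : S g → B` (`CSub.alg_emb`).  `Sg α = ⟨CoS ι α, _⟩` (`CoS_mem`, `S (succ a) ⊆ S g`), `Tg α β = ⟨T α β, _⟩`, `bg = ⟨b₀, _⟩`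
(`hb.memT`, `hb.memb`, `S a ⊆ S g`).  `exists_cu` gives `D, e, ι₂`.  `fc_chainV f .. Sg Tg bg e ι₂` gives `x : Om → D` with `e bg ≤ chainV (e ∘ Tg) x`.  `hb.no D _ (e ∘ inclusion)` (a complete embedding: `CEmb.comp'`, `CEmb.incl`) is a contradiction.
-/

set_option autoImplicit false

namespace Pool.Agent.CAN

variable {I J B : Type 1} {P : TaskRel I J} [CompleteBooleanAlgebra B] {S : Ordinal.{0} → Set B}

private theorem HS_small : Small.{0} (Om × Cl) := by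
  have : Small.{0} Om := inferInstanceAs (Small.{0} (Set.Iio (Ordinal.omega.{0} 1)))
  have : Small.{0} Cl := by
    refine small_of_injective (f := fun c : Cl => (c.h, c.c)) ?_
    rintro ⟨h1, c1, _, _, _⟩ ⟨h2, c2, _, _, _⟩ h
    simp only [Prod.mk.injEq] at h
    obtain ⟨rfl, rfl⟩ := h
    rfl
  infer_instance

theorem full_no_chain (hF : Full P B S) {T : Om → Om → B} {b₀ : B} {a : Ordinal.{0}} {ι : B → Co → B}
    (hb : Br S hF.chain T b₀ a ι) :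
    ∃ e c, Pos Set.univ (ClGood (CoS ι)) e c ∧ e ≤ b₀ ∧ ∀ (X : Om → Set (B × Cl)) e' c',
      Pos Set.univ (ClGood (CoS ι)) e' c' → e' ≤ e → c' ≤ c → ¬ FC (CoS ι) T X e' c' := by
  by_contra hno
  have H : ∀ e c, Pos Set.univ (ClGood (CoS ι)) e c → e ≤ b₀ → ∃ X e' c', Pos Set.univ (ClGood (CoS ι)) e' c' ∧
      e' ≤ e ∧ c' ≤ c ∧ FC (CoS ι) T X e' c' := by
    intro e c hp he
    by_contra h
    refine hno ⟨e, c, hp, he, fun X e' c' hp' he' hc' hfc => h ⟨X, e', c', hp', he', hc', hfc⟩⟩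
  obtain ⟨X, hXP, hFC⟩ := fc_mix (CoS ι) T b₀ H
  have hsm : Small.{0} (Om × Cl) := HS_small
  obtain ⟨g, hsg, hvv⟩ := hF.bdd (X := Om × Cl) (fun p => sSup {y | Pos Set.univ (ClGood (CoS ι)) y p.2 ∧
    ∃ t ∈ X p.1, y ≤ t.1 ∧ p.2 ≤ t.2}) (Order.succ a)
  have hag : a ≤ g := (Order.le_succ a).trans hsg
  let inst := (hF.chain.sub g).alg
  let instA := (hF.chain.sub a).alg
  have hv : CEmb (Subtype.val : S g → B) := (hF.chain.sub g).alg_emb
  let Sg : Om → S g := fun α => ⟨CoS ι α, hF.chain.mono _ _ hsg (CoS_mem hb.two α)⟩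
  let Tg : Om → Om → S g := fun α β => ⟨T α β, hF.chain.mono _ _ hag (hb.memT α β)⟩
  let bg : S g := ⟨b₀, hF.chain.mono _ _ hag hb.memb⟩
  obtain ⟨D, iD, e, ι₂, hsD, he, h2, hnp, hdist⟩ :=
    exists_cu hF.chain hF.zero hF.nontriv hF.small hb.two hsg hag Sg (fun _ => rfl)
  obtain ⟨x, hx⟩ := fc_chainV (Subtype.val : S g → B) hv Sg Tg bg e ι₂ he h2 X hFC
    (fun α c => ⟨⟨_, hvv (α, c)⟩, rfl⟩)
  refine hb.no D iD (fun x => e (Set.inclusion (hF.chain.mono a g hag) x)) hsD ?_ hnp x hx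
  exact CEmb.comp' he (CEmb.incl (hF.chain.sub a) (hF.chain.sub g) (hF.chain.mono a g hag))

end Pool.Agent.CAN
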