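import Pool.Agent.CAN.SDef
import Pool.Agent.CAN.HC

/-!
# CAN/HSA: the specialising poset over a small algebra is small

`Prom A` injects into `Σ k : ℕ, Om × (Fin k → ℚ) × (Om → (Fin k → ℕ) → A)`, which is small (`Om`, `A` small; functions between small types are small: `small_Pi`, `small_sigma`, `small_prod`-like instances).
`Cond A` injects into `Set Om × Om × (Om → ℕ → ℚ) × Set (Prom A)` (the other fields are proofs).  `WithTop X` is `Option X`.
-/

set_option autoImplicit false

namespace Pool.Agent.CAN.Sp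

private def HSA_f (A : Type 1) (u : Prom A) :
    Σ k : ℕ, Om × (Fin k → ℚ) × (Om → (Fin k → ℕ) → A) := ⟨u.k, u.base, u.h, u.U⟩

private theorem HSA_f_inj (A : Type 1) : Function.Injective (HSA_f A) := by
  rintro ⟨k, b, h, U⟩ ⟨k', b', h', U'⟩ hh
  simp only [HSA_f, Sigma.mk.injEq] at hh
  obtain ⟨rfl, h2⟩ := hh
  simp only [heq_eq_eq, Prod.mk.injEq] at h2
  obtain ⟨rfl, rfl, rfl⟩ := h2
  rfl

theorem small_prom (A : Type 1) [Small.{0} A] : Small.{0} (Prom A) := by
  exact small_of_injective (HSA_f_inj A)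

private def HSA_g (A : Type 1) (c : Cond A) : Set Om × Om × (Om → ℕ → ℚ) × Set (Prom A) :=
  (c.C, c.top, c.f, c.G)

private theorem HSA_g_inj (A : Type 1) : Function.Injective (HSA_g A) := by
  rintro ⟨C, t, h1, h2, h3, f, G, h4, h5⟩ ⟨C', t', h1', h2', h3', f', G', h4', h5'⟩ hh
  simp only [HSA_g, Prod.mk.injEq] at hh
  obtain ⟨rfl, rfl, rfl, rfl⟩ := hh
  rfl

private def HSA_o (A : Type 1) (c : WithTop (Cond A)) : Set (Cond A) := {x | (x : WithTop (Cond A)) = c}

private theorem HSA_o_inj (A : Type 1) : Function.Injective (HSA_o A) := by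
  intro c c' h
  induction c using WithTop.recTopCoe with
  | top =>
    induction c' using WithTop.recTopCoe with
    | top => rfl
    | coe c' =>
      have h1 : c' ∈ HSA_o A (c' : WithTop (Cond A)) := rfl
      rw [← h] at h1
      exact h1.symm
  | coe c =>
    have h1 : c ∈ HSA_o A (c : WithTop (Cond A)) := rfl
    rw [h] at h1
    exact h1

theorem small_cond (A : Type 1) [Small.{0} A] : Small.{0} (WithTop (Cond A)) := by
  haveI := small_prom A
  haveI : Small.{0} (Cond A) := small_of_injective (HSA_g_inj A)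
  exact small_of_injective (HSA_o_inj A)

end Pool.Agent.CAN.Sp
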