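import Pool.Agent.CAN.TWL

/-!
# CAN/HST: hitting a family of conditions

PROOF.  `ι y c ≠ ⊥` (`Two.ne_bot`) and `ι y c ≤ ⨆ t ∈ Φ, ι t.1 t.2`, so `ι y c ⊓ ι t.1 t.2 ≠ ⊥` for some `t ∈ Φ`; this element is in `C`, so `Two.dense` gives a condition `ι a₁ c₁` below it.  `sep` for `ι a₁ c₁ ≤ ι y c`: a condition `(a₂, c₂)` with
`a₂ ≤ y, a₁`, `c₂ ≤ c, c₁`.  `ι a₂ c₂ ≤ ι a₁ c₁ ≤ ι t.1 t.2` (`Two.le_of_le`); `sep` again: `(a₃, c₃)` with `a₃ ≤ t.1, a₂`, `c₃ ≤ t.2, c₂`.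
-/

set_option autoImplicit false

namespace Pool.Agent.CAN

variable {B : Type 1} [CompleteBooleanAlgebra B] {K : Type 1} [Preorder K] {A C : Set B} {Good : K → B} {ι : B → K → B}

theorem Two.hit (h : Two A C Good ι) {y : B} {c : K} (hp : Pos A Good y c) (Φ : Set (B × K))
    (hΦ : ∀ t ∈ Φ, Pos A Good t.1 t.2) (hle : ι y c ≤ ⨆ t ∈ Φ, ι t.1 t.2) :
    ∃ y' c', Pos A Good y' c' ∧ y' ≤ y ∧ c' ≤ c ∧ ∃ t ∈ Φ, y' ≤ t.1 ∧ c' ≤ t.2 := by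
  have h1 : ∃ t ∈ Φ, ι y c ⊓ ι t.1 t.2 ≠ ⊥ := by
    by_contra hno
    push Not at hno
    apply h.ne_bot hp
    have h2 : ι y c ⊓ ⨆ t ∈ Φ, ι t.1 t.2 = ⊥ := by
      rw [inf_iSup₂_eq]
      exact le_bot_iff.1 (iSup₂_le fun t ht => (hno t ht).le)
    rw [← h2]
    exact (inf_eq_left.2 hle).symm
  obtain ⟨t, ht, hne⟩ := h1
  obtain ⟨a1, c1, hp1, hle1⟩ := h.dense _ (h.subC.and (h.mem y c hp) (h.mem t.1 t.2 (hΦ t ht))) hne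
  obtain ⟨a2, c2, hp2, g1, g2, g3, g4⟩ := h.sep _ _ _ _ hp hp1 (hle1.trans inf_le_left)
  have h3 : ι a2 c2 ≤ ι t.1 t.2 := (h.le_of_le hp1 hp2 g2 g4).trans (hle1.trans inf_le_right)
  obtain ⟨a3, c3, hp3, g5, g6, g7, g8⟩ := h.sep _ _ _ _ (hΦ t ht) hp2 h3
  exact ⟨a3, c3, hp3, g6.trans g1, g8.trans g3, t, ht, g5, g7⟩

end Pool.Agent.CAN
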