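import Pool.Agent.CAN.Defs

/-!
# CAN / TDef: two step iterations `A * K` (conditions `(a, c)`, `a ≤ Good c`), definitions

`A` is a complete Boolean algebra, `K` a preorder of ground model conditions, `Good c` the truth value of
`c belongs to the second poset`.  `v` is a side condition (`v = ⊤` for nice steps).
-/

set_option autoImplicit false

namespace Pool.Agent.CAN.Sp

section
variable {A : Type 1} [CompleteBooleanAlgebra A] {K : Type 1} [Preorder K]

/-- The conditions of the two step iteration. -/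
def Pc (Good : K → A) : Set (A × K) := {p | p.1 ≠ ⊥ ∧ p.1 ≤ Good p.2}

/-- `D` is a dense open subset of `Pc Good`. -/
structure DOp (Good : K → A) (D : Set (A × K)) : Prop where
  sub : D ⊆ Pc Good
  dense : ∀ p ∈ Pc Good, ∃ d ∈ D, d ≤ p
  down : ∀ d ∈ D, ∀ p ∈ Pc Good, p ≤ d → p ∈ D

/-- Properness of the second step for towers, in terms of the conditions (with the side condition `v`). -/
def PPc (Good : K → A) (v : Om → A) (W : Om → ZFSet.{1}) (i : Om) : Prop :=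
  ∀ j, i ≤ j → ∀ r : A, r ≠ ⊥ → r ≤ ggen Set.univ W i j → (∀ k, i ≤ k → k ≤ j → r ≤ v (del (W k))) →
    (∀ x : A, InM x (W j) → r ≤ x ∨ r ≤ xᶜ) → ∀ p ∈ Pc Good, InM p (W i) → r ≤ p.1 →
      ∃ r' ≤ r, r' ≠ ⊥ ∧ ∃ c ≤ p.2, r' ≤ Good c ∧
        ∀ k, i ≤ k → k ≤ j → ∀ D : Set (A × K), InM D (W k) → DOp Good D →
          ∃ d ∈ D, InM d (W k) ∧ r' ≤ d.1 ∧ c ≤ d.2

/-- Completeness of the second step, in terms of the conditions (with the side condition `v`). -/
def NNc (Good : K → A) (v : Om → A) (M : ZFSet.{1}) (W : Om → ZFSet.{1}) (i : Om) : Prop :=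
  ∀ G : Set A, InM G (W i) → GenF Set.univ M G → ∀ p ∈ Pc Good, InM p M → p.1 ∈ G →
    ∃ j, i ≤ j ∧ ∃ c : ℕ → K, Antitone c ∧ c 0 = p.2 ∧ (∀ n, InM (c n) M ∧ Good (c n) ∈ G) ∧
      (∀ D : Set (A × K), InM D M → DOp Good D → ∃ n, ∃ a ∈ G, (a, c n) ∈ D) ∧
      sInf G ⊓ ggen Set.univ W i j ⊓ v (del M) ≤ sSup {x | ∃ c', (∀ n, c' ≤ c n) ∧ x ≤ Good c'}

end

end Pool.Agent.CAN.Sp
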