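import Pool.Agent.CAN.Facts
import Pool.Agent.CAN.TDef

/-!
# CAN / SDef: definitions for part S (the specialising poset)

Base algebra `A : Type 1`, a complete Boolean algebra (distributive in the applications).
`R a b n m` (`a ≤ b`) = truth value of `the predecessor of the node n of level b at the level a is m`.
-/

set_option autoImplicit false


namespace Pool.Agent.CAN.Sp

section
variable {A : Type 1} [CompleteBooleanAlgebra A]

/-- truth value of `the restriction of the tuple y of level b to the level a is y'` -/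
def rs {k : ℕ} (R : Om → Om → ℕ → ℕ → A) (a b : Om) (y y' : Fin k → ℕ) : A :=
  ⨅ l, R a b (y l) (y' l)

/-- (Below `b`) a set of tuples of the levels `≥ t`, closed downwards, every member extendible to all levels. -/
structure PTr {k : ℕ} (R : Om → Om → ℕ → ℕ → A) (b : A) (t : Om) (W : Om → (Fin k → ℕ) → A) : Prop where
  down : ∀ z z', t ≤ z → z ≤ z' → ∀ w y, b ⊓ W z' w ⊓ rs R z z' w y ≤ W z y
  ext : ∀ z z', t ≤ z → z ≤ z' → ∀ y, b ⊓ W z y ≤ ⨆ w, W z' w ⊓ rs R z z' w y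

/-- Pruning: members of `Bad` above the tuple `x` of level `t` with extensions in `Bad` at all levels. -/
def pru {k : ℕ} (R : Om → Om → ℕ → ℕ → A) (Bad : Om → (Fin k → ℕ) → A) (t : Om)
    (x : Fin k → ℕ) (z : Om) (y : Fin k → ℕ) : A :=
  Bad z y ⊓ rs R t z y x ⊓ ⨅ (z' : Om) (_ : z ≤ z'), ⨆ w, Bad z' w ⊓ rs R z z' w y

end

/-- A promise: tuples of length `k`, levels from `base` on, bounds `h`; `U z y` is the value of
`y is a tuple of level z of the promise`. -/
structure Prom (A : Type 1) where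
  k : ℕ
  base : Om
  h : Fin k → ℚ
  U : Om → (Fin k → ℕ) → A

/-- Ground model part of the conditions: a countable closed set `C` of levels with maximum `top`
(`0` belongs to `C`), a rational valued function `f` (relevant on the levels in `C`), countably many promises. -/
structure Cond (A : Type 1) where
  C : Set Om
  top : Om
  top_mem : top ∈ C
  le_top : ∀ a ∈ C, a ≤ top
  closed : ∀ a ≤ top, (∀ b < a, ∃ c ∈ C, b < c ∧ c ≤ a) → a ∈ C
  f : Om → ℕ → ℚ
  G : Set (Prom A)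
  cnt : G.Countable
  base_le : ∀ u ∈ G, u.base ≤ top

/-- `c' ≤ c` if `c'` extends `c`. -/
instance {A : Type 1} : Preorder (Cond A) where
  le c' c := c.C = {a ∈ c'.C | a ≤ c.top} ∧ (∀ a ∈ c.C, c'.f a = c.f a) ∧ c.G ⊆ c'.G
  le_refl c := ⟨by ext a; exact ⟨fun h => ⟨h, c.le_top a h⟩, fun h => h.1⟩, fun _ _ => rfl, subset_rfl⟩
  le_trans c3 c2 c1 h32 h21 := by
    obtain ⟨h1, h2, h3⟩ := h32
    obtain ⟨k1, k2, k3⟩ := h21
    have ht : c1.top ≤ c2.top := by
      have := c1.top_mem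
      rw [k1] at this
      exact c2.le_top _ this.1
    refine ⟨?_, ?_, k3.trans h3⟩
    · ext a
      rw [k1, h1]
      constructor
      · rintro ⟨⟨h, _⟩, h'⟩
        exact ⟨h, h'⟩
      · rintro ⟨h, h'⟩
        exact ⟨⟨h, h'.trans ht⟩, h'⟩
    · intro a ha
      have h' : a ∈ c2.C := by
        rw [k1] at ha
        exact ha.1
      rw [h2 a h', k2 a ha]

section
variable {A : Type 1} [CompleteBooleanAlgebra A]

/-- The value of the extension property of a promise. -/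
def Prom.val (R : Om → Om → ℕ → ℕ → A) (u : Prom A) : A :=
  ⨅ (z : Om) (z' : Om) (y : Fin u.k → ℕ) (_ : u.base ≤ z) (_ : z ≤ z'),
    u.U z y ⇨ ⨆ w, u.U z' w ⊓ rs R z z' w y

/-- The value of `f is strictly increasing`. -/
def Cond.g1 (R : Om → Om → ℕ → ℕ → A) (c : Cond A) : A :=
  ⨅ (a : Om) (a' : Om) (n : ℕ) (m : ℕ) (_ : a ∈ c.C) (_ : a' ∈ c.C) (_ : a < a')
    (_ : ¬ c.f a m < c.f a' n), (R a a' n m)ᶜ

/-- The value of `all promises are promises`. -/
def Cond.g2 (R : Om → Om → ℕ → ℕ → A) (c : Cond A) : A := ⨅ u ∈ c.G, u.val R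

/-- The value of `f keeps all promises`. -/
def Cond.g3 (c : Cond A) : A :=
  ⨅ (u : Prom A) (z : Om) (F : Finset ℕ) (_ : u ∈ c.G) (_ : z ∈ c.C) (_ : u.base ≤ z),
    ⨆ (y : Fin u.k → ℕ) (_ : ∀ l, y l ∉ F) (_ : ∀ l, c.f z (y l) < u.h l), u.U z y

/-- The value of `b holds and c is a condition`. -/
def Cond.good (R : Om → Om → ℕ → ℕ → A) (b : A) (c : Cond A) : A :=
  b ⊓ (c.g1 R ⊓ c.g2 R ⊓ c.g3)

/-- The same for the poset with a largest element added (nothing happens outside `b`). -/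
def goodT (R : Om → Om → ℕ → ℕ → A) (b : A) : WithTop (Cond A) → A
  | none => ⊤
  | some c => c.good R b

omit [CompleteBooleanAlgebra A] in
theorem Cond.top_le {c c' : Cond A} (h : c' ≤ c) : c.top ≤ c'.top := by
  have h1 := c.top_mem
  rw [h.1] at h1
  exact c'.le_top _ h1.1

omit [CompleteBooleanAlgebra A] in
theorem Cond.C_sub {c c' : Cond A} (h : c' ≤ c) : c.C ⊆ c'.C := by
  rw [h.1]
  exact fun a ha => ha.1

omit [CompleteBooleanAlgebra A] in
theorem Cond.zero_mem (c : Cond A) (z : Om) (hz : ∀ a, z ≤ a) : z ∈ c.C :=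
  c.closed z (hz _) fun b hb => absurd hb (not_lt.mpr (hz b))

theorem Cond.g1_anti (R : Om → Om → ℕ → ℕ → A) {c c' : Cond A} (h : c' ≤ c) :
    c'.g1 R ≤ c.g1 R := by
  refine le_iInf fun a => le_iInf fun a' => le_iInf fun n => le_iInf fun m => le_iInf fun h1 =>
    le_iInf fun h2 => le_iInf fun h3 => le_iInf fun h4 => ?_
  refine iInf_le_of_le a (iInf_le_of_le a' (iInf_le_of_le n (iInf_le_of_le m
    (iInf_le_of_le (Cond.C_sub h h1) (iInf_le_of_le (Cond.C_sub h h2)
    (iInf_le_of_le h3 (iInf_le_of_le ?_ le_rfl)))))))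
  rwa [h.2.1 a h1, h.2.1 a' h2]

theorem Cond.g2_anti (R : Om → Om → ℕ → ℕ → A) {c c' : Cond A} (h : c' ≤ c) :
    c'.g2 R ≤ c.g2 R :=
  le_iInf fun u => le_iInf fun hu => iInf_le_of_le u (iInf_le_of_le (h.2.2 hu) le_rfl)

theorem Cond.g3_anti {c c' : Cond A} (h : c' ≤ c) : c'.g3 ≤ c.g3 := by
  refine le_iInf fun u => le_iInf fun z => le_iInf fun F => le_iInf fun h1 => le_iInf fun h2 =>
    le_iInf fun h3 => ?_
  refine iInf_le_of_le u (iInf_le_of_le z (iInf_le_of_le F (iInf_le_of_le (h.2.2 h1)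
    (iInf_le_of_le (Cond.C_sub h h2) (iInf_le_of_le h3 ?_)))))
  rw [h.2.1 z h2]

theorem Cond.good_anti (R : Om → Om → ℕ → ℕ → A) (b : A) {c c' : Cond A} (h : c' ≤ c) :
    c'.good R b ≤ c.good R b :=
  inf_le_inf_left _ (inf_le_inf (inf_le_inf (Cond.g1_anti R h) (Cond.g2_anti R h))
    (Cond.g3_anti h))

theorem Cond.good_le (R : Om → Om → ℕ → ℕ → A) (b : A) (c : Cond A) : c.good R b ≤ b := inf_le_left

theorem goodT_top (R : Om → Om → ℕ → ℕ → A) (b : A) : goodT R b ⊤ = ⊤ := rfl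

theorem goodT_coe (R : Om → Om → ℕ → ℕ → A) (b : A) (c : Cond A) : goodT R b (c : WithTop (Cond A)) = c.good R b := rfl

theorem goodT_anti (R : Om → Om → ℕ → ℕ → A) (b : A) {c c' : WithTop (Cond A)} (h : c' ≤ c) :
    goodT R b c' ≤ goodT R b c := by
  induction c using WithTop.recTopCoe with
  | top => exact le_top
  | coe c =>
    induction c' using WithTop.recTopCoe with
    | top => exact absurd (WithTop.coe_ne_top (a := c)) (by simpa using h)
    | coe c' => exact Cond.good_anti R b (WithTop.coe_le_coe.mp h)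

/-- The value `good` unfolded. -/
theorem Cond.le_good (R : Om → Om → ℕ → ℕ → A) {b q : A} (c : Cond A) :
    q ≤ c.good R b ↔ q ≤ b ∧
      (∀ a a' n m, a ∈ c.C → a' ∈ c.C → a < a' → ¬ c.f a m < c.f a' n → q ⊓ R a a' n m = ⊥) ∧
      (∀ u ∈ c.G, ∀ z z', ∀ y, u.base ≤ z → z ≤ z' →
        q ⊓ u.U z y ≤ ⨆ w, u.U z' w ⊓ rs R z z' w y) ∧
      (∀ u ∈ c.G, ∀ z ∈ c.C, u.base ≤ z → ∀ F : Finset ℕ,
        q ≤ ⨆ (y : Fin u.k → ℕ) (_ : ∀ l, y l ∉ F) (_ : ∀ l, c.f z (y l) < u.h l), u.U z y) := by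
  simp only [Cond.good, le_inf_iff, Cond.g1, Cond.g2, Cond.g3, Prom.val, le_iInf_iff, le_himp_iff,
    le_compl_iff_disjoint_right, disjoint_iff]
  constructor
  · rintro ⟨h0, ⟨h1, h2⟩, h3⟩
    exact ⟨h0, fun a a' n m ha ha' hl hf => h1 a a' n m ha ha' hl hf,
      fun u hu z z' y hz hz' => h2 u hu z z' y hz hz',
      fun u hu z hz hb F => h3 u z F hu hz hb⟩
  · rintro ⟨h0, h1, h2, h3⟩
    exact ⟨h0, ⟨fun a a' n m ha ha' hl hf => h1 a a' n m ha ha' hl hf,
      fun u hu z z' y hz hz' => h2 u hu z z' y hz hz'⟩, fun u z F hu hz hb => h3 u hu z hz hb F⟩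

/-! ### worlds and branches -/

/-- `x` is a branch in the sense of the generic filter `G` over `M`. -/
def GBr (R : Om → Om → ℕ → ℕ → A) (M : ZFSet.{1}) (G : Set A) (x : Om → ℕ) : Prop :=
  ∀ a a', a ≤ a' → a' < del M → R a a' (x a') (x a) ∈ G

/-- `w` is a world over `(M, G)`: it is below `G` and `b`, and decides the predecessors of all nodes of the level
`del M`, and for all promises in `M` which tuples of the level `del M` belong to them. -/
structure World (R : Om → Om → ℕ → ℕ → A) (b : A) (M : ZFSet.{1}) (G : Set A) (w : A) : Prop where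
  ne : w ≠ ⊥
  le : ∀ x ∈ G, w ≤ x
  leb : w ≤ b
  br : ∀ n a, a < del M → ∃ m, w ≤ R a (del M) n m
  pr : ∀ u : Prom A, InM u M → ∀ y, w ≤ u.U (del M) y ∨ w ≤ (u.U (del M) y)ᶜ

open Classical in
/-- The predecessor at level `a` of the node `n` of level `d`, as decided by `w`. -/
noncomputable def brw (R : Om → Om → ℕ → ℕ → A) (d : Om) (w : A) (n : ℕ) (a : Om) : ℕ :=
  if h : ∃ m, w ≤ R a d n m then h.choose else 0

/-- The generic filter given by a condition `r` deciding everything. -/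
def fil (M : ZFSet.{1}) (r : A) : Set A := {x | InM x M ∧ r ≤ x}

/-! ### bad tuples -/

/-- The value of `y is bad`: there is no `(a', c') ∈ D` below `(a, c)` with `c.top < c'.top ≤ z` and `a'` in the generic
filter such that `c'.f` is below the bounds `H` at the predecessors (of level `c'.top`) of `y` (of level `z`). -/
def bad (R : Om → Om → ℕ → ℕ → A) (D : Set (A × WithTop (Cond A))) (a : A) (c : Cond A) {k : ℕ} (H : Fin k → ℚ)
    (z : Om) (y : Fin k → ℕ) : A :=
  (sSup {e | ∃ (a' : A) (c' : Cond A) (y' : Fin k → ℕ), (a', (c' : WithTop (Cond A))) ∈ D ∧ a' ≤ a ∧ c' ≤ c ∧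
    c.top < c'.top ∧ c'.top ≤ z ∧ (∀ l, c'.f c'.top (y' l) < H l) ∧ e = a' ⊓ rs R c'.top z y y'})ᶜ

/-! ### genericity of conditions, the induction hypothesis for towers -/

/-- `(r, c)` is `M`-generic. -/
def Gnr (R : Om → Om → ℕ → ℕ → A) (b : A) (M : ZFSet.{1}) (r : A) (c : WithTop (Cond A)) : Prop :=
  ∀ D : Set (A × WithTop (Cond A)), InM D M → DOp (goodT R b) D → ∃ d ∈ D, InM d M ∧ r ≤ d.1 ∧ c ≤ d.2

/-- `r` is a world over `M`. -/
structure Wd (R : Om → Om → ℕ → ℕ → A) (b : A) (M : ZFSet.{1}) (r : A) : Prop where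
  gen : r ≤ gen Set.univ M
  dec : ∀ x : A, InM x M → r ≤ x ∨ r ≤ xᶜ
  w : World R b M (fil M r) r

/-- Bounds: `B` is a finite set of pairs `(n, q)`: the value at the predecessor of the node `n` of level `d` is `< q`. -/
def Bds (R : Om → Om → ℕ → ℕ → A) (d : Om) (r : A) (c : Cond A) (B : Finset (ℕ × ℚ)) : Prop :=
  ∀ p ∈ B, c.f c.top (brw R d r p.1 c.top) < p.2

/-- The induction hypothesis `(S_j)` for the tower `W` from `i` to `j`. -/
def SSj (R : Om → Om → ℕ → ℕ → A) (b : A) (W : Om → ZFSet.{1}) (i j : Om) : Prop :=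
  ∀ r : A, r ≤ ggen Set.univ W i j → Wd R b (W j) r → ∀ c : Cond A, InM c (W i) → r ≤ c.good R b →
    ∀ B : Finset (ℕ × ℚ), Bds R (del (W j)) r c B →
      ∃ c' ≤ c, c'.top = del (W j) ∧ r ≤ c'.good R b ∧ (∀ p ∈ B, c'.f c'.top p.1 < p.2) ∧
        ∀ k, i ≤ k → k ≤ j → Gnr R b (W k) r c'

end

/-- The trivial condition. -/
def triv (A : Type 1) (z : Om) (hz : ∀ a, z ≤ a) : Cond A where
  C := {z}
  top := z
  top_mem := rfl
  le_top := fun _ ha => le_of_eq ha
  closed := fun _ ha _ => le_antisymm ha (hz _)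
  f := fun _ _ => 0
  G := ∅
  cnt := Set.countable_empty
  base_le := fun _ hu => absurd hu (Set.notMem_empty _)

end Pool.Agent.CAN.Sp
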