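import Pool.Agent.CAN.GNF
import Pool.Agent.CAN.TWR
import Pool.Agent.CAN.SDef
import Pool.Agent.CAN.EVK

/-!
# CAN / SEV: small facts on the quantifier `Ev`

* `Ev.all_ctbl` (in EVK), `EvT.all_ctbl`: if `T` is empty trivial; otherwise take a surjection `e : ℕ → T`
  (`exists_surjective_nat`) and use `EvT.all_nat`.
* `Ev.mem_ctbl`: `Ev.all_ctbl` and `Ev.const`.
* `Ev.pair_iff`: `Ev.fn2 Prod.mk`, `Ev.fn1 Prod.fst`, `Ev.fn1 Prod.snd`.
* `Ev.coe_iff`: `Ev.fn1` for the coercion and `Ev.wit1` for `fun (y : WithTop S) (x : S) => (x : WithTop S) = y`.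
* `ev_gf`: `ev_genF` for `A := Set.univ` (`csub_univ`).
* `ev_fil`: `ev_genF_of_dec` for `A := Set.univ` (the sets `{x | x ∈ Set.univ ∧ InM x M ∧ r ≤ x}` and `fil M r` are equal by `simp`);
  `r ≠ ⊥` is `hr.w.ne`.
-/

set_option autoImplicit false

namespace Pool.Agent.CAN

theorem Ev.mem_ctbl (T : Type*) [Cod T] [Countable T] : Ev (fun M => ∀ x : T, InM x M) :=
  Ev.all_ctbl fun x => Ev.const x

theorem EvT.all_ctbl {T : Type*} [Countable T] {p : T → (Om → ZFSet.{1}) → Om → Prop} (h : ∀ x, EvT (p x)) :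
    EvT (fun W i => ∀ x : T, p x W i) := by
  rcases isEmpty_or_nonempty T with hT | hT
  · exact EvT.tw.mono fun _ _ _ _ x => (hT.false x).elim
  · obtain ⟨e, he⟩ := exists_surjective_nat T
    refine (EvT.all_nat fun n => h (e n)).mono fun W i _ hM x => ?_
    obtain ⟨n, rfl⟩ := he x
    exact hM n

theorem Ev.pair_iff (S T : Type 1) : Ev (fun M => ∀ (x : S) (y : T), InM (x, y) M ↔ InM x M ∧ InM y M) := by
  refine (((Ev.fn2 (fun (x : S) (y : T) => (x, y))).and (Ev.fn1 (fun z : S × T => z.1))).and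
    (Ev.fn1 (fun z : S × T => z.2))).mono ?_
  rintro M ⟨⟨h1, h2⟩, h3⟩ x y
  exact ⟨fun h => ⟨h2 _ h, h3 _ h⟩, fun h => h1 x y h.1 h.2⟩

theorem Ev.coe_iff (S : Type 1) : Ev (fun M => ∀ (x : S), InM (x : WithTop S) M ↔ InM x M) := by
  refine ((Ev.fn1 (fun x : S => (x : WithTop S))).and
    (Ev.wit1 (fun (y : WithTop S) (x : S) => (x : WithTop S) = y))).mono ?_
  rintro M ⟨h1, h2⟩ x
  refine ⟨fun h => ?_, fun h => h1 x h⟩
  obtain ⟨y, hy, hxy⟩ := h2 _ h ⟨x, rfl⟩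
  rw [WithTop.coe_injective hxy] at hy
  exact hy

variable {A : Type 1} [CompleteBooleanAlgebra A]

theorem ev_gf : Ev (fun M => ∀ G : Set A, GenF Set.univ M G →
    (∀ x, InM x M → x ∉ G → xᶜ ∈ G) ∧ (∀ x, x ∈ G → xᶜ ∉ G) ∧ (∀ x, InM x M → ∀ y ∈ G, y ≤ x → x ∈ G) ∧
    ∀ D : Set A, InM D M → ∀ a ∈ G, a ≤ sSup D → ∃ d ∈ D, d ∈ G) := by
  refine (ev_genF (B := A)).mono fun M hM G hG => ?_
  obtain ⟨-, h1, h2, h3, -⟩ := hM Set.univ csub_univ G hG
  refine ⟨fun x hx hxG => (h1 x (Set.mem_univ _) hx).resolve_left hxG, h2, fun x hx y hy hyx => ?_,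
    fun D hD a ha haD => h3 D hD (Set.subset_univ _) a ha haD⟩
  rcases h1 x (Set.mem_univ _) hx with h | h
  · exact h
  · exfalso
    have h4 := hG.inf y hy _ h
    have h5 : y ⊓ xᶜ = ⊥ := by
      rw [eq_bot_iff, ← inf_compl_self (a := x)]
      exact inf_le_inf_right _ hyx
    rw [h5] at h4
    exact hG.bot h4

theorem ev_fil {R : Om → Om → ℕ → ℕ → A} {b : A} :
    Ev (fun M => ∀ r : A, Sp.Wd R b M r → GenF Set.univ M (Sp.fil M r)) := by
  refine (ev_genF_of_dec (B := A)).mono fun M hM r hr => ?_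
  have h := hM Set.univ csub_univ r hr.w.ne hr.gen (fun x _ hx => hr.dec x hx)
  have h2 : {x | x ∈ (Set.univ : Set A) ∧ InM x M ∧ r ≤ x} = Sp.fil M r := by
    ext x
    simp [Sp.fil]
  rw [← h2]
  exact h

end Pool.Agent.CAN
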