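import Pool.Agent.CAN.SEX
import Pool.Agent.CAN.SEV
import Pool.Agent.CAN.OMB
import Pool.Agent.CAN.DEL

/-!
# CAN / SAQ: the trivial condition, density of large tops

* `triv_good`: `Cond.good`: all infima are over empty sets (there are no `a < a'` in `{z}`, no promises); use `le_antisymm` and `Cond.le_good`.
* `exists_top`: if `p.2 = ⊤` replace it by `triv` (`p.1 ≤ b`); then `exists_ext` with a level `z > c.top, α` and `H n = c.f c.top n + 1`.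
* `topD_dop`: `sub`, `down` clear (if `p.2 = ⊤`, `p.1 ≤ bᶜ` and `p' ≤ p` then `p'.2 = ⊤`: otherwise `p'.1 ≤ good ≤ b`, and `p'.1 ≤ bᶜ`, so
  `p'.1 = ⊥`).  `dense`: if `p.1 ⊓ b ≠ ⊥` use `exists_top` for `(p.1 ⊓ b, p.2)`; if `p.1 ⊓ b = ⊥` then `p.1 ≤ bᶜ`, `p.2 = ⊤` (as before).
* `ev_top`: `Ev.fn1` for `fun c : Cond A => c.top` and `ev_del` (in `DEL`), `Ev.fn1` for `fun c => c.good R b`, `Ev.ctbl` for `c.G` (with `Ev.fn1 Cond.G`).
* `ev_out`: `D₀ = {a | (a, ⊤) ∈ D} ∪ {b}` is in `M` (`Ev.fn1`), `sSup D₀ = ⊤`: otherwise `q = (sSup D₀)ᶜ ≠ ⊥`, `q ≤ bᶜ`, `(q, ⊤) ∈ Pc`, `D` is dense: `(a', c') ∈ D`, `a' ≤ q`; `c' = ⊤` (as before), so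
  `a' ≤ q ⊓ sSup D₀ = ⊥`, contradiction.  So `sSup D₀ = ⊤`, and `gen_le`.
-/

set_option autoImplicit false

namespace Pool.Agent.CAN.Sp

variable {A : Type 1} [CompleteBooleanAlgebra A] {R : Om → Om → ℕ → ℕ → A} {b : A}

private theorem SAQ_top {p : A × WithTop (Cond A)} (hp : p ∈ Pc (goodT R b)) (h : p.1 ≤ bᶜ) : p.2 = ⊤ := by
  obtain ⟨a, c⟩ := p
  induction c using WithTop.recTopCoe with
  | top => rfl
  | coe c =>
    exfalso
    have h1 : a ≤ b := hp.2.trans (Cond.good_le R b c)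
    have h2 : a ≤ b ⊓ bᶜ := le_inf h1 h
    rw [inf_compl_self, le_bot_iff] at h2
    exact hp.1 h2

theorem triv_good (z : Om) (hz : ∀ a, z ≤ a) : (triv A z hz).good R b = b := by
  refine le_antisymm (Cond.good_le R b _) ?_
  rw [Cond.le_good]
  refine ⟨le_rfl, ?_, ?_, ?_⟩
  · intro a a' n m ha ha' hl _
    exfalso
    have h1 : a = z := ha
    have h2 : a' = z := ha'
    rw [h1, h2] at hl
    exact lt_irrefl _ hl
  · intro u hu
    exact absurd hu (Set.notMem_empty _)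
  · intro u hu
    exact absurd hu (Set.notMem_empty _)

theorem exists_top (hD : Distr (Set.univ : Set A)) (hR : Sys R b) (p : A × WithTop (Cond A)) (hp : p ∈ Pc (goodT R b))
    (hb : p.1 ≤ b) (α : Om) :
    ∃ p' ∈ Pc (goodT R b), p' ≤ p ∧ ∃ c : Cond A, p'.2 = (c : WithTop (Cond A)) ∧ α < c.top := by
  obtain ⟨a, c⟩ := p
  have key : ∀ c0 : Cond A, (c0 : WithTop (Cond A)) ≤ c → a ≤ c0.good R b →
      ∃ p' ∈ Pc (goodT R b), p' ≤ (a, c) ∧ ∃ c : Cond A, p'.2 = (c : WithTop (Cond A)) ∧ α < c.top := by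
    intro c0 h0 h1
    have hz : c0.top < (max c0.top α).s := lt_of_le_of_lt (le_max_left _ _) (Om.lt_s _)
    have hz2 : α < (max c0.top α).s := lt_of_le_of_lt (le_max_right _ _) (Om.lt_s _)
    obtain ⟨q', hq1, hq2, c', hc1, hc2, -, -, hc3, -⟩ := exists_ext hD hR c0 hp.1 h1 hz
      (fun n => c0.f c0.top n + 1) (fun n => lt_add_one _)
    refine ⟨(q', (c' : WithTop (Cond A))), ⟨hq2, hc3⟩, ⟨hq1, ?_⟩, c', rfl, ?_⟩
    · exact (WithTop.coe_le_coe.2 hc1).trans h0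
    · rw [hc2]
      exact hz2
  induction c using WithTop.recTopCoe with
  | top =>
    refine key (triv A Om.z Om.z_le) le_top ?_
    rw [triv_good]
    exact hb
  | coe c => exact key c le_rfl hp.2

/-- the dense set of the conditions with top above `α` -/
def topD (R : Om → Om → ℕ → ℕ → A) (b : A) (α : Om) : Set (A × WithTop (Cond A)) :=
  {p | p ∈ Pc (goodT R b) ∧ ((p.2 = ⊤ ∧ p.1 ≤ bᶜ) ∨ ∃ c : Cond A, p.2 = (c : WithTop (Cond A)) ∧ α < c.top)}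

theorem topD_dop (hD : Distr (Set.univ : Set A)) (hR : Sys R b) (α : Om) : DOp (goodT R b) (topD R b α) := by
  refine ⟨fun p hp => hp.1, ?_, ?_⟩
  · intro p hp
    by_cases h : p.1 ⊓ b = ⊥
    · have h1 : p.1 ≤ bᶜ := by
        rw [le_compl_iff_disjoint_right, disjoint_iff]
        exact h
      exact ⟨p, ⟨hp, Or.inl ⟨SAQ_top hp h1, h1⟩⟩, le_rfl⟩
    · obtain ⟨p', h1, h2, c, h3, h4⟩ := exists_top hD hR (p.1 ⊓ b, p.2) ⟨h, inf_le_left.trans hp.2⟩ inf_le_right α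
      refine ⟨p', ⟨h1, Or.inr ⟨c, h3, h4⟩⟩, h2.trans ⟨inf_le_left, le_rfl⟩⟩
  · rintro d ⟨hd, h⟩ p hp hpd
    refine ⟨hp, ?_⟩
    rcases h with ⟨h1, h2⟩ | ⟨c, h1, h2⟩
    · have h3 : p.1 ≤ bᶜ := hpd.1.trans h2
      exact Or.inl ⟨SAQ_top hp h3, h3⟩
    · right
      obtain ⟨a, c'⟩ := p
      have h3 : c' ≤ (c : WithTop (Cond A)) := by
        rw [← h1]
        exact hpd.2
      induction c' using WithTop.recTopCoe with
      | top => exact absurd (WithTop.coe_ne_top (a := c)) (by simp at h3)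
      | coe c' => exact ⟨c', rfl, lt_of_lt_of_le h2 (Cond.top_le (WithTop.coe_le_coe.1 h3))⟩

theorem ev_top (R : Om → Om → ℕ → ℕ → A) (b : A) : Ev (fun M => (∀ c : Cond A, InM c M → c.top < del M ∧
    InM (c.good R b) M ∧ ∀ u ∈ c.G, InM u M) ∧ ∀ α < del M, InM α M ∧ InM (topD R b α) M) := by
  refine (((((ev_del.and (Ev.fn1 (fun c : Cond A => c.top))).and (Ev.fn1 (fun c : Cond A => c.good R b))).and
    (Ev.fn1 (fun c : Cond A => c.G))).and (Ev.ctbl (Prom A))).and (Ev.fn1 (fun α : Om => topD R b α))).mono ?_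
  rintro M ⟨⟨⟨⟨⟨h1, h2⟩, h3⟩, h4⟩, h5⟩, h6⟩
  refine ⟨fun c hc => ⟨(h1 _).1 (h2 c hc), h3 c hc, fun u hu => h5 c.G (h4 c hc) c.cnt u hu⟩, fun α hα => ?_⟩
  have h7 := (h1 α).2 hα
  exact ⟨h7, h6 α h7⟩

/-- Outside `b` nothing happens. -/
theorem ev_out (R : Om → Om → ℕ → ℕ → A) (b : A) : Ev (fun M => ∀ D : Set (A × WithTop (Cond A)), InM D M → DOp (goodT R b) D →
    gen Set.univ M ≤ sSup {d | d ∈ ({a | (a, ⊤) ∈ D} ∪ {b} : Set A) ∧ InM d M} ∧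
    InM ({a | (a, ⊤) ∈ D} ∪ {b} : Set A) M ∧ sSup ({a | (a, ⊤) ∈ D} ∪ {b} : Set A) = ⊤) := by
  refine (Ev.fn1 (fun D : Set (A × WithTop (Cond A)) => ({a | (a, ⊤) ∈ D} ∪ {b} : Set A))).mono ?_
  intro M hM D hD hDO
  have h1 := hM D hD
  have h2 : sSup ({a | (a, ⊤) ∈ D} ∪ {b} : Set A) = ⊤ := by
    by_contra hcon
    have hq : (sSup ({a | (a, ⊤) ∈ D} ∪ {b} : Set A))ᶜ ≠ ⊥ := by
      intro h
      exact hcon (compl_eq_bot.1 h)
    have hb : b ≤ sSup ({a | (a, ⊤) ∈ D} ∪ {b} : Set A) := le_sSup (Or.inr rfl)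
    obtain ⟨d, hd1, hd2⟩ := hDO.dense ((sSup ({a | (a, ⊤) ∈ D} ∪ {b} : Set A))ᶜ, ⊤) ⟨hq, le_top⟩
    have hd3 := hDO.sub hd1
    have hd4 : d.1 ≤ bᶜ := le_trans hd2.1 (compl_le_compl hb)
    have hd5 := SAQ_top hd3 hd4
    have hd6 : d.1 ≤ sSup ({a | (a, ⊤) ∈ D} ∪ {b} : Set A) := by
      refine le_sSup (Or.inl ?_)
      show (d.1, ⊤) ∈ D
      rw [← hd5]
      exact hd1
    have hd7 : d.1 ≤ sSup ({a | (a, ⊤) ∈ D} ∪ {b} : Set A) ⊓ (sSup ({a | (a, ⊤) ∈ D} ∪ {b} : Set A))ᶜ :=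
      le_inf hd6 hd2.1
    rw [inf_compl_self, le_bot_iff] at hd7
    exact hd3.1 hd7
  exact ⟨gen_le h1 (Set.subset_univ _) h2, h1, h2⟩

end Pool.Agent.CAN.Sp
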