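import Mathlib

/-!
# CAN / SCA: disjoint choices and caps (pure combinatorics)

Take an injection `e : J → ℕ` (`Countable`).  By strong recursion on `e j` choose `y j ∈ P j` which avoids all `y i l` with `e i < e j` (a finite
set: the `i` with `e i < e j` are finitely many).  So every number `n` is in the range of `y j` for at most one `j`.  Put
`cap n = ` the minimum of `H n` and of the `h j l` with `y j l = n` if there is such a `j`, and `H n` otherwise.
(The recursion can be avoided: enumerate by `ℕ` and construct a sequence of pairs (finite set of used numbers, last choice); or prove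
by `Nat.rec`/`exists_seq` lemmas.)  For the minimum use `Finset.inf'` on `(Finset.univ.filter fun l => y j l = n).image (h j)` together with `H n`.
-/

set_option autoImplicit false

namespace Pool.Agent.CAN.Sp

theorem exists_caps {J : Type*} [Countable J] (k : J → ℕ) (P : ∀ j, Set (Fin (k j) → ℕ)) (g : ℕ → ℚ)
    (h : ∀ j, Fin (k j) → ℚ) (hP : ∀ j, ∀ E : Finset ℕ, ∃ y ∈ P j, ∀ l, y l ∉ E)
    (hlt : ∀ j, ∀ y ∈ P j, ∀ l, g (y l) < h j l) (H : ℕ → ℚ) (hH : ∀ n, g n < H n) :
    ∃ (y : ∀ j, Fin (k j) → ℕ) (cap : ℕ → ℚ), (∀ j, y j ∈ P j) ∧ (∀ n, g n < cap n) ∧ (∀ n, cap n ≤ H n) ∧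
      ∀ j l, cap (y j l) ≤ h j l := by
  classical
  obtain ⟨e, he⟩ := exists_injective_nat J
  choose c hcP hcE using hP
  let step : ℕ → Finset ℕ → Finset ℕ := fun n E =>
    E ∪ (if hn : ∃ j, e j = n then Finset.univ.image (c hn.choose E) else ∅)
  let used : ℕ → Finset ℕ := fun n => Nat.rec ∅ step n
  have hsucc : ∀ n, used (n + 1) = step n (used n) := fun n => rfl
  have hmono : Monotone used := by
    refine monotone_nat_of_le_succ fun n => ?_
    rw [hsucc]
    exact Finset.subset_union_left
  let y : ∀ j, Fin (k j) → ℕ := fun j => c j (used (e j))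
  have hy : ∀ i l, y i l ∈ used (e i + 1) := by
    intro i l
    rw [hsucc]
    refine Finset.mem_union_right _ ?_
    have hn : ∃ j, e j = e i := ⟨i, rfl⟩
    rw [dif_pos hn]
    have hi : hn.choose = i := he hn.choose_spec
    have key : ∀ i', i' = i → y i l ∈ Finset.univ.image (c i' (used (e i))) := by
      rintro i' rfl
      exact Finset.mem_image_of_mem _ (Finset.mem_univ l)
    exact key _ hi
  have hdis : ∀ i j l m, e i < e j → y i l ≠ y j m := by
    intro i j l m hij h
    refine hcE j (used (e j)) m ?_
    change y j m ∈ used (e j)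
    rw [← h]
    exact hmono hij (hy i l)
  have huniq : ∀ i j l m, y i l = y j m → i = j := by
    intro i j l m h
    rcases lt_trichotomy (e i) (e j) with h1 | h1 | h1
    · exact (hdis i j l m h1 h).elim
    · exact he h1
    · exact (hdis j i m l h1 h.symm).elim
  have hyP : ∀ j, y j ∈ P j := fun j => hcP j _
  let S : ∀ n, (∃ j, ∃ l, y j l = n) → Finset ℚ := fun n hn =>
    insert (H n) ((Finset.univ.filter (fun l => y hn.choose l = n)).image (h hn.choose))
  have hS : ∀ n hn, (S n hn).Nonempty := fun n hn => ⟨H n, Finset.mem_insert_self _ _⟩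
  let cap : ℕ → ℚ := fun n => if hn : ∃ j, ∃ l, y j l = n then (S n hn).min' (hS n hn) else H n
  refine ⟨y, cap, hyP, ?_, ?_, ?_⟩
  · intro n
    by_cases hn : ∃ j, ∃ l, y j l = n
    · simp only [cap, dif_pos hn]
      rw [Finset.lt_min'_iff]
      intro r hr
      rcases Finset.mem_insert.1 hr with rfl | hr
      · exact hH n
      · obtain ⟨l, hl, rfl⟩ := Finset.mem_image.1 hr
        have hl' := (Finset.mem_filter.1 hl).2
        have h3 := hlt _ _ (hyP hn.choose) l
        rw [hl'] at h3
        exact h3
    · simp only [cap, dif_neg hn]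
      exact hH n
  · intro n
    by_cases hn : ∃ j, ∃ l, y j l = n
    · simp only [cap, dif_pos hn]
      exact Finset.min'_le _ _ (Finset.mem_insert_self _ _)
    · simp only [cap, dif_neg hn]
      exact le_rfl
  · intro j l
    have hn : ∃ j', ∃ l', y j' l' = y j l := ⟨j, l, rfl⟩
    have hjj : hn.choose = j := by
      obtain ⟨l', hl'⟩ := hn.choose_spec
      exact huniq _ _ _ _ hl'
    simp only [cap, dif_pos hn]
    refine Finset.min'_le _ _ (Finset.mem_insert_of_mem ?_)
    have key : ∀ i', i' = j → h j l ∈ (Finset.univ.filter (fun l' => y i' l' = y j l)).image (h i') := by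
      rintro i' rfl
      exact Finset.mem_image_of_mem _ (Finset.mem_filter.2 ⟨Finset.mem_univ l, rfl⟩)
    exact key _ hjj

end Pool.Agent.CAN.Sp
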