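import Pool.Agent.CAN.SRS
import Pool.Agent.CAN.SCA
import Pool.Agent.CAN.DIS

/-!
# CAN / SEX: extension by one level, with caps

`t = c.top`.  By `Cond.le_good` we know (g1), (g2), (g3) below `q`.

1. DECIDING.  One application of `Distr.witness` and `Distr.decide` (with `A := Set.univ`, `csub_univ`; the index types are countable since
`c.cnt`) gives a nonzero `q' ≤ q` and
* `r : ℕ → ℕ` with `q' ≤ R t z n (r n)` (`Sys.tot`),
* for all `u ∈ c.G`, `y`: `q' ≤ u.U t y` or `q' ≤ (u.U t y)ᶜ`,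
* for all `u ∈ c.G`, `y₀` with `q' ≤ u.U t y₀` a tuple `e u y₀` with `q' ≤ u.U z (e u y₀) ⊓ rs R t z (e u y₀) y₀` ((g2) for `t ≤ z`;
  first decide, then apply `Distr.witness` to the countable type of pairs `(u, y₀)` with `q' ≤ u.U t y₀`),
so `r (e u y₀ l) = y₀ l` (`Sys.uniq`, `q' ≠ ⊥`).

2. CHOICE.  `J = {p : Prom A × Finset ℕ // p.1 ∈ c.G}` (countable), `k j = j.1.k`,
`P j = {y₀ | q' ≤ u.U t y₀ ∧ (∀ l, y₀ l ∉ F.image r) ∧ ∀ l, c.f t (y₀ l) < u.h l}` for `j = (u, F)`.  For `E` finite: (g3) at the level `t ∈ c.C` (`u.base ≤ t` by `c.base_le`) for the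
finite set `E ∪ F.image r`: `q' ≤ ⨆ ...`, so some `y₀` meets `q'` (`ne_bot_of_le_iSup`), and it is decided, so `q' ≤ u.U t y₀`.
`exists_caps` with `g n = c.f t n`, `h j = u.h` gives `y j` and `cap`.

3. `c'`: `C' = insert z c.C`, `top = z`, `f' = Function.update c.f z (fun n => (c.f t (r n) + cap (r n)) / 2)`, same promises.
`closed`: let `a ≤ z` be a limit of elements of `insert z C` (or `0`).  If `a < z` then these elements are in `C`, so `≤ t`, hence `a ≤ t` (otherwise take `b = t`), and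
`c.closed` applies.
`c' ≤ c`: `c.C = {a ∈ insert z C | a ≤ t}`; `f'` agrees with `f` on `C` since `z ∉ C`.

4. `Cond.le_good` for `c'`: (g1): let `a < a'` be in `C'`.  If `a' ∈ C` use (g1) of `c`.  If `a' = z`, `a ∈ C`: suppose `q' ⊓ R a z n m ≠ ⊥`.
If `a = t` then `m = r n` (`Sys.uniq`) and `c.f t (r n) < f' z n`.  If `a < t` then `R a t (r n) m` holds there (`Sys.back`), so by (g1) `c.f a m < c.f t (r n) < f' z n`.
(g2) is the same as for `c`.  (g3): for levels in `C` as for `c`; at `z`: for `u ∈ G`, `F` let `j = (u, F)`; `Y = e u (y j)`: `q' ≤ u.U z Y`, `Y l ∉ F` since `r (Y l) = y j l ∉ F.image r`, and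
`f' z (Y l) < cap (y j l) ≤ u.h l`.
The last claim: `q' ⊓ R t z n m ≠ ⊥` implies `m = r n`, and `f' z n < cap (r n) ≤ H (r n)`.
-/

set_option autoImplicit false

namespace Pool.Agent.CAN.Sp

variable {A : Type 1} [CompleteBooleanAlgebra A] {R : Om → Om → ℕ → ℕ → A} {b : A}

theorem exists_ext (hD : Distr (Set.univ : Set A)) (hR : Sys R b) (c : Cond A) {q : A} (hq : q ≠ ⊥)
    (hc : q ≤ c.good R b) {z : Om} (hz : c.top < z) (H : ℕ → ℚ) (hH : ∀ n, c.f c.top n < H n) :
    ∃ q' ≤ q, q' ≠ ⊥ ∧ ∃ c' ≤ c, c'.top = z ∧ c'.C = insert z c.C ∧ c'.G = c.G ∧ q' ≤ c'.good R b ∧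
      ∀ n m, q' ⊓ R c.top z n m ≠ ⊥ → c'.f z n < H m := by
  classical
  obtain ⟨hqb, g1, g2, g3⟩ := (Cond.le_good R c).1 hc
  -- 1. deciding
  obtain ⟨q1, -, hq1, hq1q, hr⟩ := Distr.witness csub_univ hD (fun n m => R c.top z n m) (fun _ _ => Set.mem_univ _)
    (Set.mem_univ q) hq (fun n => hqb.trans (hR.tot c.top z hz.le n))
  choose r hr using hr
  have hcG : Countable ↥c.G := c.cnt.to_subtype
  have hX : (⋃ u ∈ c.G, Set.range (fun y : Fin u.k → ℕ => u.U c.top y)).Countable :=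
    c.cnt.biUnion fun u _ => Set.countable_range _
  obtain ⟨q2, -, hq2, hq21, hdec⟩ := Distr.decide csub_univ hD hX (Set.subset_univ _) (Set.mem_univ q1) hq1
  have hdec' : ∀ u ∈ c.G, ∀ y : Fin u.k → ℕ, q2 ≤ u.U c.top y ∨ q2 ≤ (u.U c.top y)ᶜ := by
    intro u hu y
    exact hdec _ (Set.mem_biUnion hu ⟨y, rfl⟩)
  obtain ⟨q3, -, hq3, hq32, hw⟩ := Distr.witness csub_univ hD
    (ι := {p : Σ u : ↥c.G, (Fin u.1.k → ℕ) // q2 ≤ p.1.1.U c.top p.2}) (κ := ℕ → ℕ)
    (fun p w => p.1.1.1.U z (fun l => w l) ⊓ rs R c.top z (fun l => w l) p.1.2) (fun _ _ => Set.mem_univ _)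
    (Set.mem_univ q2) hq2 (by
      rintro ⟨⟨⟨u, hu⟩, y⟩, hp⟩
      have h1 : q2 ≤ ⨆ w, u.U z w ⊓ rs R c.top z w y :=
        (le_inf (hq21.trans hq1q) hp).trans (g2 u hu c.top z y (c.base_le u hu) hz.le)
      refine h1.trans (iSup_le fun w => ?_)
      refine le_iSup_of_le (fun n => if h : n < u.k then w ⟨n, h⟩ else 0) ?_
      have e : (fun l : Fin u.k => (fun n => if h : n < u.k then w ⟨n, h⟩ else 0) (l : ℕ)) = w := by
        funext l
        simp
      show u.U z w ⊓ rs R c.top z w y ≤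
        u.U z (fun l : Fin u.k => (fun n => if h : n < u.k then w ⟨n, h⟩ else 0) (l : ℕ)) ⊓
        rs R c.top z (fun l : Fin u.k => (fun n => if h : n < u.k then w ⟨n, h⟩ else 0) (l : ℕ)) y
      rw [e])
  have hq3q : q3 ≤ q := (hq32.trans hq21).trans hq1q
  have hr3 : ∀ n, q3 ≤ R c.top z n (r n) := fun n => (hq32.trans hq21).trans (hr n)
  have huq : ∀ n m, q3 ⊓ R c.top z n m ≠ ⊥ → m = r n := by
    intro n m h
    by_contra hne
    apply h
    rw [← le_bot_iff, ← hR.uniq c.top z n m (r n) hz.le hne]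
    exact le_inf (inf_le_inf_right _ (hq3q.trans hqb)) (inf_le_left.trans (hr3 n))
  -- 2. choice
  obtain ⟨y, cap, hyP, hgcap, hcapH, hcaph⟩ := exists_caps (J := ↥c.G × Finset ℕ) (fun j => j.1.1.k)
    (fun j => {y₀ | q2 ≤ j.1.1.U c.top y₀ ∧ (∀ l, y₀ l ∉ j.2.image r) ∧ ∀ l, c.f c.top (y₀ l) < j.1.1.h l})
    (fun n => c.f c.top n) (fun j => j.1.1.h) (by
      rintro ⟨⟨u, hu⟩, F⟩ E
      have h1 : q2 ≤ ⨆ y : {y : Fin u.k → ℕ // (∀ l, y l ∉ E ∪ F.image r) ∧ ∀ l, c.f c.top (y l) < u.h l},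
          u.U c.top y.1 := by
        refine ((hq21.trans hq1q).trans (g3 u hu c.top c.top_mem (c.base_le u hu) (E ∪ F.image r))).trans ?_
        exact iSup_le fun y => iSup_le fun h1 => iSup_le fun h2 =>
          le_iSup (fun y : {y : Fin u.k → ℕ // (∀ l, y l ∉ E ∪ F.image r) ∧ ∀ l, c.f c.top (y l) < u.h l} =>
            u.U c.top y.1) ⟨y, h1, h2⟩
      obtain ⟨⟨y, h2, h3⟩, h4⟩ := ne_bot_of_le_iSup hq2 h1
      have h5 : q2 ≤ u.U c.top y := by
        rcases hdec' u hu y with h | h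
        · exact h
        · exfalso
          apply h4
          rw [← le_bot_iff]
          exact (inf_le_inf_right _ h).trans (by rw [compl_inf_eq_bot])
      refine ⟨y, ⟨h5, fun l hl => h2 l (Finset.mem_union_right _ hl), h3⟩, fun l hl => h2 l (Finset.mem_union_left _ hl)⟩)
    (fun j y₀ hy₀ l => hy₀.2.2 l) H hH
  -- 3. the condition
  have hzC : ∀ a ∈ c.C, a ≠ z := fun a ha h => absurd hz (not_lt.2 (h ▸ c.le_top a ha))
  have hin : ∀ a, a ∈ insert z c.C → a ≠ z → a ∈ c.C := by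
    intro a ha hne
    rcases ha with h | h
    · exact absurd h hne
    · exact h
  let c' : Cond A :=
    { C := insert z c.C
      top := z
      top_mem := Set.mem_insert _ _
      le_top := by
        rintro a (rfl | ha)
        · exact le_rfl
        · exact (c.le_top a ha).trans hz.le
      closed := by
        intro a ha h
        rcases ha.eq_or_lt with h1 | h1
        · rw [h1]
          exact Set.mem_insert _ _
        · right
          have h2 : ∀ x ∈ insert z c.C, x ≤ a → x ∈ c.C := fun x hx hxa => hin x hx (hxa.trans_lt h1).ne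
          refine c.closed a ?_ ?_
          · by_contra h3
            obtain ⟨x, hx, hx1, hx2⟩ := h c.top (not_le.1 h3)
            exact absurd hx1 (not_lt.2 (c.le_top x (h2 x hx hx2)))
          · intro b' hb'
            obtain ⟨x, hx, hx1, hx2⟩ := h b' hb'
            exact ⟨x, h2 x hx hx2, hx1, hx2⟩
      f := Function.update c.f z (fun n => (c.f c.top (r n) + cap (r n)) / 2)
      G := c.G
      cnt := c.cnt
      base_le := fun u hu => (c.base_le u hu).trans hz.le }
  have hf1 : ∀ a ∈ c.C, c'.f a = c.f a := fun a ha => Function.update_of_ne (hzC a ha) _ _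
  have hf2 : ∀ n, c'.f z n = (c.f c.top (r n) + cap (r n)) / 2 := by
    intro n
    show Function.update c.f z (fun n => (c.f c.top (r n) + cap (r n)) / 2) z n = _
    rw [Function.update_self]
  have hf3 : ∀ n, c.f c.top (r n) < c'.f z n ∧ c'.f z n < cap (r n) := by
    intro n
    rw [hf2]
    have := hgcap (r n)
    constructor <;> linarith
  have hle : c' ≤ c := by
    refine ⟨?_, hf1, subset_rfl⟩
    ext a
    constructor
    · intro ha
      exact ⟨Set.mem_insert_of_mem _ ha, c.le_top a ha⟩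
    · rintro ⟨ha, ha'⟩
      exact hin a ha (ha'.trans_lt hz).ne
  refine ⟨q3, hq3q, hq3, c', hle, rfl, rfl, rfl, (Cond.le_good R c').2 ⟨hq3q.trans hqb, ?_, ?_, ?_⟩, ?_⟩
  · intro a a' n m ha ha' haa' hf
    by_cases hz' : a' = z
    · subst hz'
      have haC : a ∈ c.C := hin a ha haa'.ne
      rw [hf1 a haC] at hf
      by_contra hne
      apply hf
      rcases (c.le_top a haC).eq_or_lt with h1 | h1
      · subst h1
        have h2 := huq n m hne
        rw [h2]
        exact (hf3 n).1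
      · refine lt_trans ?_ (hf3 n).1
        by_contra h2
        have h3 := g1 a c.top (r n) m haC c.top_mem h1 h2
        apply hne
        rw [← le_bot_iff, ← h3]
        refine le_inf (inf_le_left.trans hq3q) ?_
        refine le_trans ?_ (Sys.back hR h1.le hz.le n (r n) m)
        exact le_inf (le_inf (inf_le_left.trans (hq3q.trans hqb)) (inf_le_left.trans (hr3 n))) inf_le_right
    · have ha'C : a' ∈ c.C := hin a' ha' hz'
      have haC : a ∈ c.C := hin a ha (haa'.trans ((c.le_top a' ha'C).trans_lt hz)).ne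
      rw [hf1 a haC, hf1 a' ha'C] at hf
      rw [← le_bot_iff, ← g1 a a' n m haC ha'C haa' hf]
      exact inf_le_inf_right _ hq3q
  · intro u hu z1 z2 y1 h1 h2
    exact (inf_le_inf_right _ hq3q).trans (g2 u hu z1 z2 y1 h1 h2)
  · intro u hu z1 hz1 hb F
    by_cases hz1' : z1 = z
    · subst hz1'
      obtain ⟨k1, k2, k3⟩ := hyP (⟨u, hu⟩, F)
      obtain ⟨w, hw'⟩ := hw ⟨⟨⟨u, hu⟩, y (⟨u, hu⟩, F)⟩, k1⟩
      have hw1 : q3 ≤ u.U z1 (fun l => w l) := hw'.trans inf_le_left
      have hw2 : ∀ l : Fin u.k, q3 ≤ R c.top z1 (w l) (y (⟨u, hu⟩, F) l) :=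
        fun l => hw'.trans (inf_le_right.trans (iInf_le _ l))
      have hw3 : ∀ l : Fin u.k, y (⟨u, hu⟩, F) l = r (w l) := by
        intro l
        apply huq
        rw [inf_eq_left.2 (hw2 l)]
        exact hq3
      refine le_iSup_of_le (fun l => w l) (le_iSup_of_le ?_ (le_iSup_of_le ?_ hw1))
      · intro l hl
        refine k2 l ?_
        show y (⟨u, hu⟩, F) l ∈ F.image r
        rw [hw3 l]
        exact Finset.mem_image_of_mem r hl
      · intro l
        refine (hf3 (w l)).2.trans_le ?_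
        rw [← hw3 l]
        exact hcaph (⟨u, hu⟩, F) l
    · have hz1C : z1 ∈ c.C := hin z1 hz1 hz1'
      have h1 := g3 u hu z1 hz1C hb F
      rw [← hf1 z1 hz1C] at h1
      exact hq3q.trans h1
  · intro n m h
    rw [huq n m h]
    exact (hf3 n).2.trans_le (hcapH (r n))

end Pool.Agent.CAN.Sp
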