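import Pool.Agent.CAN.HA
import Pool.Agent.CAN.HST
import Pool.Agent.CAN.SEX
import Pool.Agent.CAN.SAQ

/-!
# CAN/HSB: names for the club and the specialising function

Call `(x, c)`, `x : A`, `c : WithTop (Cond A)` a condition if `x ≠ ⊥`, `x ≤ goodT R b c`; then `Pos (range e) (fun c => e (goodT R b c)) (e x) c`, and every `Pos` element is of this form.
`Φ α = {(e x, c) | x ≠ ⊥, c : Cond A, x ≤ c.good R b, α ∈ c.C}`, `Cn α = ⨆ t ∈ Φ α, ι t.1 t.2`; `Ψ α n q` = those with `c.f α n = q` in addition, `fn α n q = ⨆ t ∈ Ψ α n q, ι t.1 t.2`.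
(0) If `ι (e x) c ≤ e b` (`(x, c)` a condition) then `x ≤ b` (`Two.proj`), and there is a condition `(x, c₀)` with `c₀ : Cond A`, `c₀ ≤ c` (if `c = ⊤` take `c₀ = triv A Om.z _`, `triv_good`).  For every `α` there is a condition `(x', c')`, `x' ≤ x`,
`c' ≤ c₀`, `c' : Cond A`, with `c'.top > α` and `c'.top ∈ c'.C` (`exists_ext` with `z = max c₀.top α` plus one, `H n = c₀.f c₀.top n + 1`; or `exists_top` of SAQ).
(1) `Cn` unbounded below `e b`: otherwise a condition `ι (e x) c ≤ e b ⊓ (⨆ α' > α, Cn α')ᶜ` (`Two.dense`); by (0) extend to `(x', c')` with `c'.top > α`: `ι (e x') c' ≤ Cn c'.top`, contradiction.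
(2) closed: let `α` be nonzero, `z = e b ⊓ (⨅ β < α, ⨆ γ ∈ (β, α), Cn γ) ⊓ (Cn α)ᶜ`; if `z ≠ ⊥` take `ι (e x) c ≤ z`, and by (0) a condition `(x', c')` below with `c'.top > α`, `c' : Cond A`.  For `β < α`: `ι (e x') c' ≤ ⨆ γ ∈ (β, α), Cn γ`, so
`Two.hit` (for the union of the `Φ γ`) gives `(y'', c'')` below `(e x', c')` and below some `(e x₁, c₁) ∈ Φ γ`, `γ ∈ (β, α)`: `c'' : Cond A` (it is `≤ c₁`), `γ ∈ c₁.C ⊆ c''.C` and `γ ≤ c'.top`, so `γ ∈ c'.C` (order of `Cond`).  By `c'.closed` `α ∈ c'.C`, so `ι (e x') c' ≤ Cn α`, contradiction.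
(3) total: for `(e x, c) ∈ Φ α`: it is in `Ψ α n (c.f α n)`.
(4) increasing: the element is `≠ ⊥` so a condition `ι (e x) c` is below it.  `Two.hit` for `Ψ α m q` and then for `Ψ α' n r`: a condition `(e y, c')`, `y ≤ x`, `c'` below `c₁` (`α ∈ c₁.C`, `c₁.f α m = q`) and `c₂` (`α' ∈ c₂.C`, `c₂.f α' n = r`); `c' : Cond A`, so
`α, α' ∈ c'.C`, `c'.f α m = q`, `c'.f α' n = r`.  `e y ≤ e x`, `ι (e x) c ≤ e (R α α' n m)` so `x ≤ R α α' n m` (`Two.proj`), `y ≤ R α α' n m`.  By `Cond.le_good` (g1): if not `q < r` then `y ⊓ R α α' n m = ⊥`, contradiction.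
-/

set_option autoImplicit false

namespace Pool.Agent.CAN.Sp

section
variable {A C : Type 1} [CompleteBooleanAlgebra A] [CompleteBooleanAlgebra C]
    {R : Om → Om → ℕ → ℕ → A} {b : A} {e : A → C} {ι : C → WithTop (Cond A) → C}

private def HSB_Phi (R : Om → Om → ℕ → ℕ → A) (b : A) (e : A → C) (α : Om) : Set (C × WithTop (Cond A)) :=
  {t | ∃ (x : A) (c : Cond A), x ≠ ⊥ ∧ x ≤ c.good R b ∧ α ∈ c.C ∧ t = (e x, (c : WithTop (Cond A)))}

private def HSB_Psi (R : Om → Om → ℕ → ℕ → A) (b : A) (e : A → C) (α : Om) (n : ℕ) (q : ℚ) :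
    Set (C × WithTop (Cond A)) :=
  {t | ∃ (x : A) (c : Cond A), x ≠ ⊥ ∧ x ≤ c.good R b ∧ α ∈ c.C ∧ c.f α n = q ∧
    t = (e x, (c : WithTop (Cond A)))}

private theorem HSB_pos (he : CEmb e) {x : A} {c : WithTop (Cond A)} (hx : x ≠ ⊥) (h : x ≤ goodT R b c) :
    Pos (Set.range e) (fun c => e (goodT R b c)) (e x) c :=
  ⟨⟨x, rfl⟩, he.ne_bot hx, he.le_iff.2 h⟩

private theorem HSB_inv (he : CEmb e) {y : C} {c : WithTop (Cond A)}
    (h : Pos (Set.range e) (fun c => e (goodT R b c)) y c) :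
    ∃ x : A, y = e x ∧ x ≠ ⊥ ∧ x ≤ goodT R b c := by
  obtain ⟨⟨x, rfl⟩, h1, h2⟩ := h
  refine ⟨x, rfl, ?_, he.le_iff.1 h2⟩
  rintro rfl
  exact h1 he.bot

private theorem HSB_dense (h2 : Two (Set.range e) Set.univ (fun c => e (goodT R b c)) ι) {u v : C}
    (H : ∀ y c, Pos (Set.range e) (fun c => e (goodT R b c)) y c → ι y c ≤ u →
      ∃ y' c', Pos (Set.range e) (fun c => e (goodT R b c)) y' c' ∧ ι y' c' ≤ ι y c ∧ ι y' c' ≤ v) :
    u ≤ v := by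
  by_contra hcon
  have hz : u ⊓ vᶜ ≠ ⊥ := by
    intro h
    exact hcon (disjoint_compl_right_iff.1 (disjoint_iff.2 h))
  obtain ⟨y, c, hp, hle⟩ := h2.dense _ (Set.mem_univ _) hz
  obtain ⟨y', c', hp', h1, h3⟩ := H y c hp (hle.trans inf_le_left)
  have h4 : ι y' c' ≤ ⊥ := by
    rw [← inf_compl_self v]
    exact le_inf h3 (h1.trans (hle.trans inf_le_right))
  exact h2.ne_bot hp' (le_bot_iff.1 h4)

/-- extending a condition below `e b` to a large height -/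
private theorem HSB_down (hD : Distr (Set.univ : Set A)) (hR : Sys R b) (he : CEmb e)
    (h2 : Two (Set.range e) Set.univ (fun c => e (goodT R b c)) ι) {y : C} {c : WithTop (Cond A)}
    (hp : Pos (Set.range e) (fun c => e (goodT R b c)) y c) (hb : ι y c ≤ e b) (α : Om) :
    ∃ (x' : A) (c' : Cond A), x' ≠ ⊥ ∧ x' ≤ c'.good R b ∧ e x' ≤ y ∧ (c' : WithTop (Cond A)) ≤ c ∧ α < c'.top ∧
      ι (e x') c' ≤ ι y c := by
  obtain ⟨x, rfl, hx, hxc⟩ := HSB_inv he hp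
  have hxb : x ≤ b := by
    rw [← he.le_iff, ← h2.proj _ _ hp]
    exact proj_le ⟨b, rfl⟩ hb
  obtain ⟨p', hp', hle, c', hc', hα⟩ := exists_top hD hR (x, c) ⟨hx, hxc⟩ hxb α
  obtain ⟨x', d⟩ := p'
  simp only at hc'
  subst hc'
  have hx' : e x' ≤ e x := he.le_iff.2 hle.1
  refine ⟨x', c', hp'.1, hp'.2, hx', hle.2, hα, ?_⟩
  exact h2.le_of_le hp (HSB_pos he hp'.1 hp'.2) hx' hle.2

private theorem HSB_coe {c'' : WithTop (Cond A)} {c : Cond A} (h : c'' ≤ (c : WithTop (Cond A))) :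
    ∃ d : Cond A, c'' = (d : WithTop (Cond A)) ∧ d ≤ c := by
  induction c'' using WithTop.recTopCoe with
  | top => exact absurd (WithTop.coe_ne_top (a := c)) (by simpa using h)
  | coe d => exact ⟨d, rfl, WithTop.coe_le_coe.1 h⟩

end

theorem special_names {A C : Type 1} [CompleteBooleanAlgebra A] [CompleteBooleanAlgebra C]
    {R : Om → Om → ℕ → ℕ → A} {b : A} (hD : Distr (Set.univ : Set A)) (hR : Sys R b)
    {e : A → C} (he : CEmb e) {ι : C → WithTop (Cond A) → C}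
    (h2 : Two (Set.range e) Set.univ (fun c => e (goodT R b c)) ι) :
    SpecialV (fun a b n m => e (R a b n m)) (e b) := by
  have hPhi : ∀ α, ∀ t ∈ HSB_Phi R b e α, Pos (Set.range e) (fun c => e (goodT R b c)) t.1 t.2 := by
    rintro α _ ⟨x, c, hx, hc, _, rfl⟩
    exact HSB_pos he hx hc
  have hPsi : ∀ α n q, ∀ t ∈ HSB_Psi R b e α n q,
      Pos (Set.range e) (fun c => e (goodT R b c)) t.1 t.2 := by
    rintro α n q _ ⟨x, c, hx, hc, _, _, rfl⟩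
    exact HSB_pos he hx hc
  refine ⟨fun α => ⨆ t ∈ HSB_Phi R b e α, ι t.1 t.2, fun α n q => ⨆ t ∈ HSB_Psi R b e α n q, ι t.1 t.2,
    le_inf ?_ ?_, ?_, ?_⟩
  · -- unbounded
    refine le_iInf fun α => HSB_dense h2 fun y c hp hle => ?_
    obtain ⟨x', c', hx', hc', hy, hcc, hα, hι⟩ := HSB_down hD hR he h2 hp hle α
    refine ⟨e x', c', HSB_pos he hx' hc', hι, ?_⟩
    refine le_iSup_of_le (⟨c'.top, hα⟩ : {a : Om // α < a}) ?_
    exact le_iSup₂ (f := fun (t : C × WithTop (Cond A)) (_ : t ∈ HSB_Phi R b e c'.top) => ι t.1 t.2)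
      (e x', (c' : WithTop (Cond A))) ⟨x', c', hx', hc', c'.top_mem, rfl⟩
  · -- closed
    refine le_iInf fun α => le_himp_iff.2 (HSB_dense h2 fun y c hp hle => ?_)
    obtain ⟨x', c', hx', hc', hy, hcc, hα, hι⟩ := HSB_down hD hR he h2 hp (hle.trans inf_le_left) α.1
    have hpos' := HSB_pos (R := R) (b := b) he hx' (c := (c' : WithTop (Cond A))) hc'
    refine ⟨e x', c', hpos', hι, ?_⟩
    have hmem : α.1 ∈ c'.C := by
      refine c'.closed α.1 hα.le fun β hβ => ?_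
      have h3 : ι (e x') c' ≤ ⨆ t ∈ {t | ∃ γ, β < γ ∧ γ < α.1 ∧ t ∈ HSB_Phi R b e γ}, ι t.1 t.2 := by
        refine hι.trans (hle.trans (inf_le_right.trans ((iInf_le _ (⟨β, hβ⟩ : {b : Om // b < α.1})).trans ?_)))
        refine iSup_le fun γ => iSup₂_le fun t ht => ?_
        exact le_iSup₂ (f := fun (t : C × WithTop (Cond A))
          (_ : t ∈ {t | ∃ γ, β < γ ∧ γ < α.1 ∧ t ∈ HSB_Phi R b e γ}) => ι t.1 t.2)
          t ⟨γ.1, γ.2.1, γ.2.2, ht⟩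
      obtain ⟨y'', c'', hp'', _, hcc'', t, ⟨γ, hβγ, hγα, x₁, c₁, hx₁, hc₁, hγ, rfl⟩, _, ht2⟩ :=
        h2.hit hpos' _ (by rintro t ⟨γ, _, _, ht⟩; exact hPhi γ t ht) h3
      obtain ⟨d, rfl, hd⟩ := HSB_coe ht2
      have hd' : d ≤ c' := WithTop.coe_le_coe.1 hcc''
      refine ⟨γ, ?_, hβγ, hγα.le⟩
      rw [hd'.1]
      exact ⟨Cond.C_sub hd hγ, (hγα.trans hα).le⟩
    exact le_iSup₂ (f := fun (t : C × WithTop (Cond A)) (_ : t ∈ HSB_Phi R b e α.1) => ι t.1 t.2)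
      (e x', (c' : WithTop (Cond A))) ⟨x', c', hx', hc', hmem, rfl⟩
  · -- total
    intro α n
    refine inf_le_right.trans (iSup₂_le ?_)
    rintro _ ⟨x, c, hx, hc, hα, rfl⟩
    refine le_iSup_of_le (c.f α n) ?_
    exact le_iSup₂ (f := fun (t : C × WithTop (Cond A)) (_ : t ∈ HSB_Psi R b e α n (c.f α n)) => ι t.1 t.2)
      (e x, (c : WithTop (Cond A))) ⟨x, c, hx, hc, hα, rfl, rfl⟩
  · -- increasing
    intro a a' n m q r haa' hne
    obtain ⟨y, c, hp, hle⟩ := h2.dense _ (Set.mem_univ _) hne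
    have hf2 : ι y c ≤ ⨆ t ∈ HSB_Psi R b e a' n r, ι t.1 t.2 := hle.trans inf_le_right
    have hf1 : ι y c ≤ ⨆ t ∈ HSB_Psi R b e a m q, ι t.1 t.2 := hle.trans (inf_le_left.trans inf_le_right)
    have hRy : ι y c ≤ e (R a a' n m) := hle.trans (inf_le_left.trans (inf_le_left.trans inf_le_right))
    have hyR : y ≤ e (R a a' n m) := by
      rw [← h2.proj _ _ hp]
      exact proj_le ⟨_, rfl⟩ hRy
    obtain ⟨y₁, c₁, hp₁, hy₁, hc₁, _, ⟨x₁, d₁, _, _, had₁, hf₁, rfl⟩, _, ht₁⟩ := h2.hit hp _ (hPsi a m q) hf1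
    have hι₁ : ι y₁ c₁ ≤ ι y c := h2.le_of_le hp hp₁ hy₁ hc₁
    obtain ⟨y₂, c₂, hp₂, hy₂, hc₂, _, ⟨x₂, d₂, _, _, had₂, hf₂, rfl⟩, _, ht₂⟩ :=
      h2.hit hp₁ _ (hPsi a' n r) (hι₁.trans hf2)
    obtain ⟨d, rfl, hd₂⟩ := HSB_coe ht₂
    have hd₁ : d ≤ d₁ := WithTop.coe_le_coe.1 (hc₂.trans ht₁)
    obtain ⟨x, rfl, hx, hxc⟩ := HSB_inv he hp₂
    have hxR : x ≤ R a a' n m := he.le_iff.1 (hy₂.trans (hy₁.trans hyR))
    by_contra hqr
    have hg := ((Cond.le_good R d).1 (hxc : x ≤ d.good R b)).2.1 a a' n m (Cond.C_sub hd₁ had₁)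
      (Cond.C_sub hd₂ had₂) haa' (by
        rw [hd₁.2.1 a had₁, hd₂.2.1 a' had₂, hf₁, hf₂]
        exact hqr)
    rw [inf_eq_left.2 hxR] at hg
    exact hx hg

end Pool.Agent.CAN.Sp
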