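import Pool.Agent.CAN.HC
import Pool.Agent.CAN.HD
import Pool.Agent.CAN.HE
import Pool.Agent.CAN.HG
import Pool.Agent.CAN.HH
import Pool.Agent.CAN.HI
import Pool.Agent.CAN.HJ
import Pool.Agent.CAN.HL
import Pool.Agent.CAN.HR
import Pool.Agent.CAN.HS

/-!
# CAN/HZ: the facts about the final algebra
-/

set_option autoImplicit false

namespace Pool.Agent.CAN

theorem exists_facts (hr : Recursion TI Kd) (hs : SpecStep) :
    ∃ (B : Type 1) (_ : CompleteBooleanAlgebra B), Facts B := by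
  obtain ⟨B, iB, S, hF⟩ := hr PTk inv_PTk (steps_PTk hs)
  refine ⟨B, iB, hF.nontriv, full_dist hF, ?_, fun R b₀ h1 h2 => full_special hF R b₀ h1 h2, ?_⟩
  · obtain ⟨a, ι, h⟩ := full_co hF
    exact ch_of_cohen h
  · intro T b₀ hb hT
    obtain ⟨a, ι, hbr⟩ := full_br hF T b₀ hb hT
    refine ⟨CoS ι, ?_, ?_, ?_, ?_⟩
    · intro C
      obtain ⟨g, hg, hC⟩ := hF.bdd C (Order.succ a)
      exact cohen_stat hF.chain hF.zero hF.nontriv hbr.two C hg hC
    · intro p D h1 h2
      exact qq_dist (CoS ι) (fun D hD e c hp => full_cu_dist hF hbr.two D hD e c hp) p D h1 h2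
    · intro p a'
      have hl := cl_ladder (A := (Set.univ : Set B)) csub_univ (CoS ι) (fun _ => Set.mem_univ _)
        (fun a => (CoS_unb hbr.two a).1)
      exact qq_unb (CoS ι) (fun e c hp b => hl.high e c hp b) p a'
    · exact qq_chain (CoS ι) T b₀ (full_no_chain hF hbr)

end Pool.Agent.CAN
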