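import Pool.Agent.CAN.GSQ
import Pool.Agent.CAN.DIS
import Pool.Agent.CAN.DEL

/-!
# CAN/LDA: ladders, generic lower bounds along towers

PROOF of `lad_one` (one model `M`, `G` a filter, `δ = del M`): `two_gseq` gives `cs`, `cs 0 = c`.  For `b ∈ₘ M` the set `{(a, c) | Pos A Good a c ∧ b < ht c}` is dense open
(`Ladder.high`, `ht_mono`) and in `M`, so `b < ht (cs n)` for some `n`; `ht (cs n) ∈ₘ M` so `ht (cs n) < δ` (`ev_del`), `Lim δ` (`ev_del_lim`).
`Ladder.lim` gives `c'`; `sInf G ≤ Good (cs n)`, so `sInf G ⊓ v δ ≤ Good c'`.  Generic: `GSeq.meet`, `(a'', cs n) ∈ D`, `a'' ∈ G`, both in `M`.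

PROOF of `lad_ind` by induction on `j` (`Om.cases`, strong induction, all `i' ≤ j` with `i ≤ i'`, all `r`, `a`, `c`).  Say `LB i' j r c c'` for the conclusion.
`j = i'`: `G = {x ∈ A ∩ W j | r ≤ x}` is generic (`ev_genF_of_dec`, `r ≤ gen A (W j)`), `r ≤ sInf G`, use `lad_one`.
`j = k.s`, `i' ≤ k`: `G = {x ∈ A ∩ W k.s | r ≤ x}` is `W k.s`-generic, `H = {x ∈ A ∩ W k | r ≤ x}` is in `W k.s` (`ev_trace`: `H = {x ∈ G | InM x (W k)}`).  Let
`x0 = sInf H ⊓ ggen A W i' k ⊓ ⨅ k' ∈ [i', k], v (del (W k'))`; `r ≤ x0`, so `x0 ≠ ⊥`, and `x0` decides `A ∩ W k` (it is below `sInf H`, and for `x ∈ A ∩ W k`, `x ∈ H` or `xᶜ ∈ H`).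
By induction there is `c1` with `LB i' k x0 c c1`.  `x0 ∈ₘ W k.s` and the statement only depends on `W` up to `k` and on `x0, i', c`, so `c1` can be chosen in `W k.s` (`EvT.wit`).
`Pos A Good x0 c1`.  Now the one-model case for `W k.s`, `G` and the condition `(x0, c1)` (`x0 ∈ G`) gives `c' ≤ c1`.  `r ≤ x0 ≤ a''` for the witnesses of the first part.
`j` a limit, `i' < j`: `ξ` cofinal in `j`, `ξ 0 = i'` (`Om.exists_cof`).  `i_0 = i'`, `i_{n+1} = (ξ (n+1)).s`.  Recursively `c_0 = c` and `c_{n+1} ∈ₘ W i_{n+1}` with `LB i_n (ξ (n+1)) x_n c_n c_{n+1}` where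
`x_n = sInf {x ∈ A ∩ W (ξ (n+1)) | r ≤ x} ⊓ ggen A W i_n (ξ (n+1)) ⊓ ⨅ v ≥ r` as before (`Good c_n ≥ r`; take the condition `(Good c_n ⊓ ..)`: use `a_n = Good c_n ∈ₘ W i_n`, `r ≤ a_n`).
The heights `(del (W (ξ (n+1)))).s` are cofinal in `del (W j)` and below (`evT_del`).  `Ladder.lim` with `δ = del (W j)`: `c'`; `r ≤ Good c_n`, `r ≤ v δ` so `r ≤ Good c'`.
Tags: `tag_mono` and the new tag.  Genericity for `k < j`: `k` is in some `[i_n, ξ (n+1)]`; for `W j`: a set `D ∈ₘ W j` is in some `W k`, `k < j`.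
-/

set_option autoImplicit false

namespace Pool.Agent.CAN

variable {B : Type 1} [CompleteBooleanAlgebra B] {K : Type 1} [Preorder K] {A C : Set B} {Good : K → B} {ι : B → K → B}
  {v : Om → B} {ht : K → Om} {tag : K → Om → Prop}

theorem lad_one (h : Two A C Good ι) (L : Ladder A Good v ht tag) : Ev fun M => ∀ G : Set B, GenF A M G →
    ∀ a ∈ G, ∀ c, InM c M → Pos A Good a c → ∃ cs : ℕ → K, cs 0 = c ∧ GSeq A Good M G cs ∧
      ∃ c', (∀ n, c' ≤ cs n) ∧ ht c' = (del M).s ∧ tag c' (del M) ∧ sInf G ⊓ v (del M) ≤ Good c' := by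
  refine (((((two_gseq h).and ev_del).and ev_del_lim).and
    (Ev.fn1 (fun b : Om => ({p : B × K | Pos A Good p.1 p.2 ∧ b < ht p.2} : Set (B × K))))).and (Ev.fn1 ht)).mono ?_
  rintro M ⟨⟨⟨⟨h1, h2⟩, h3⟩, h4⟩, h5⟩ G hG a ha c hc hp
  obtain ⟨cs, hcs0, hcs⟩ := h1 G hG a ha c hc hp
  refine ⟨cs, hcs0, hcs, ?_⟩
  obtain ⟨c', hc1, hc2, hc3, hc4⟩ := L.lim cs (del M) h3 hcs.anti (fun n => (h2 _).1 (h5 _ (hcs.mem n))) (by
    intro b hb
    obtain ⟨n, a', -, hn⟩ := hcs.meet {p : B × K | Pos A Good p.1 p.2 ∧ b < ht p.2}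
      { sub := fun a c hac => hac.1
        opn := fun a c a' c' hac hp' _ hc' => ⟨hp', lt_of_lt_of_le hac.2 (L.ht_mono c c' hc')⟩
        dns := fun a c hac => by
          obtain ⟨a', c', hp', ha', hc', hb'⟩ := L.high a c hac b
          exact ⟨a', c', ⟨hp', hb'⟩, ha', hc'⟩ } (h4 b ((h2 b).2 hb))
    exact ⟨n, hn.2⟩)
  refine ⟨c', hc1, hc2, hc3, le_trans ?_ hc4⟩
  exact inf_le_inf_right _ (le_iInf fun n => sInf_le (hcs.good n))

/-- the conclusion of `lad_ind` -/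
private def LDA_LB (A : Set B) (Good : K → B) (ht : K → Om) (tag : K → Om → Prop) (W : Om → ZFSet.{1}) (i j : Om)
    (r : B) (c c' : K) : Prop :=
  c' ≤ c ∧ r ≤ Good c' ∧ ht c' = (del (W j)).s ∧ (∀ k, i ≤ k → k ≤ j → tag c' (del (W k))) ∧
    ∀ k, i ≤ k → k ≤ j → ∀ D : Set (B × K), DO A Good D → InM D (W k) →
      ∃ a'' c'', (a'', c'') ∈ D ∧ InM a'' (W k) ∧ InM c'' (W k) ∧ r ≤ a'' ∧ c' ≤ c''

private theorem LDA_loc (i' : Om) (x0 : B) (c c1 : K) : Loc (fun W k => LDA_LB A Good ht tag W i' k x0 c c1) := by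
  rintro W W' k hW ⟨h1, h2, h3, h4, h5⟩
  refine ⟨h1, h2, ?_, ?_, ?_⟩
  · rw [← hW k le_rfl]; exact h3
  · intro l h6 h7
    rw [← hW l h7]; exact h4 l h6 h7
  · intro l h6 h7 D hD
    rw [← hW l h7]; exact h5 l h6 h7 D hD

/-- the condition deciding the trace -/
private noncomputable def LDA_X (A : Set B) (v : Om → B) (W : Om → ZFSet.{1}) (i j : Om) (H : Set B) : B :=
  sInf H ⊓ ggen A W i j ⊓ ⨅ (l : Om) (_ : i ≤ l) (_ : l ≤ j), v (del (W l))

private theorem LDA_X_loc (i' : Om) (H : Set B) (x : B) : Loc (fun W k => x = LDA_X A v W i' k H) := by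
  rintro W W' k hW rfl
  unfold LDA_X
  rw [ggen_loc hW]
  congr 1
  refine iInf_congr fun l => iInf_congr fun _ => iInf_congr fun h2 => ?_
  rw [hW l h2]

private theorem LDA_weaken {W : Om → ZFSet.{1}} {i j : Om} {r x : B} {c c' : K} (hr : r ≤ x)
    (h : LDA_LB A Good ht tag W i j x c c') : LDA_LB A Good ht tag W i j r c c' := by
  obtain ⟨h1, h2, h3, h4, h5⟩ := h
  refine ⟨h1, hr.trans h2, h3, h4, ?_⟩
  intro k h6 h7 D hD hDk
  obtain ⟨a'', c'', h8, h9, h10, h11, h12⟩ := h5 k h6 h7 D hD hDk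
  exact ⟨a'', c'', h8, h9, h10, hr.trans h11, h12⟩

private theorem LDA_InM_mono {T : Type*} [Cod T] {x : T} {W : Om → ZFSet.{1}} (hW : Tw W) {j k : Om} (hjk : j ≤ k)
    (hx : InM x (W j)) : InM x (W k) := hW.mono j k hjk hx

theorem lad_ind (h : Two A C Good ι) (hd : Distr A) (L : Ladder A Good v ht tag) :
    EvT fun W i => ∀ j, i ≤ j → ∀ r ∈ A, r ≠ ⊥ → r ≤ ggen A W i j → (∀ k, i ≤ k → k ≤ j → r ≤ v (del (W k))) →
      (∀ x ∈ A, InM x (W j) → r ≤ x ∨ r ≤ xᶜ) → ∀ a c, Pos A Good a c → InM a (W i) → InM c (W i) → r ≤ a →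
      ∃ c', c' ≤ c ∧ r ≤ Good c' ∧ ht c' = (del (W j)).s ∧ (∀ k, i ≤ k → k ≤ j → tag c' (del (W k))) ∧
        ∀ k, i ≤ k → k ≤ j → ∀ D : Set (B × K), DO A Good D → InM D (W k) →
          ∃ a'' c'', (a'', c'') ∈ D ∧ InM a'' (W k) ∧ InM c'' (W k) ∧ r ≤ a'' ∧ c' ≤ c'' := by
  have hA := h.subA
  refine ((((((((EvT.of_ev (lad_one h L)).and (EvT.of_ev (ev_genF_of_dec (B := B)))).and
    (EvT.of_ev (Ev.fn1 Good))).and (EvT.of_ev (Ev.fn1 (fun x : B => xᶜ)))).and (EvT.of_ev ev_del_lim)).and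
    ((ev_trace hA hd).and EvT.idx)).and evT_del).and
    ((EvT.wit2 (fun W k (i' : Om) (H : Set B) (x : B) => x = LDA_X A v W i' k H)
      (fun i' H x => LDA_X_loc i' H x)).and
    (EvT.wit3 (fun W k (i' : Om) (x0 : B) (c : K) (c1 : K) => LDA_LB A Good ht tag W i' k x0 c c1)
      (fun i' x0 c c1 => LDA_loc i' x0 c c1)))).mono ?_
  rintro W i hW ⟨⟨⟨⟨⟨⟨⟨hone, hdec⟩, hgood⟩, hcompl⟩, hdl⟩, htr, hidx⟩, hdel⟩, hwx, hwc⟩
  -- one model
  have one : ∀ j, i ≤ j → ∀ r : B, r ≠ ⊥ → r ≤ gen A (W j) → r ≤ v (del (W j)) →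
      (∀ x ∈ A, InM x (W j) → r ≤ x ∨ r ≤ xᶜ) → ∀ a c, Pos A Good a c → InM a (W j) → InM c (W j) → r ≤ a →
      ∃ c', c' ≤ c ∧ r ≤ Good c' ∧ ht c' = (del (W j)).s ∧ tag c' (del (W j)) ∧
        ∀ D : Set (B × K), DO A Good D → InM D (W j) →
          ∃ a'' c'', (a'', c'') ∈ D ∧ InM a'' (W j) ∧ InM c'' (W j) ∧ r ≤ a'' ∧ c' ≤ c'' := by
    intro j hij r hr0 hrg hrv hrd a c hp haM hcM hra
    have hG := hdec j hij A hA r hr0 hrg hrd
    obtain ⟨cs, hcs0, hcs, c', hc1, hc2, hc3, hc4⟩ := hone j hij _ hG a ⟨hp.1, haM, hra⟩ c hcM hp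
    refine ⟨c', hcs0 ▸ hc1 0, ?_, hc2, hc3, ?_⟩
    · refine le_trans (le_inf (le_sInf ?_) hrv) hc4
      rintro x ⟨-, -, hx⟩
      exact hx
    · intro D hD hDM
      obtain ⟨n, a'', ⟨h1, h2, h3⟩, hn⟩ := hcs.meet D hD hDM
      exact ⟨a'', cs n, hn, h2, hcs.mem n, h3, hc1 n⟩
  -- the induction hypothesis
  have main : ∀ j, ∀ i', i ≤ i' → i' ≤ j → ∀ r ∈ A, r ≠ ⊥ → r ≤ ggen A W i' j →
      (∀ k, i' ≤ k → k ≤ j → r ≤ v (del (W k))) →
      (∀ x ∈ A, InM x (W j) → r ≤ x ∨ r ≤ xᶜ) → ∀ a c, Pos A Good a c → InM a (W i') → InM c (W i') → r ≤ a →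
      ∃ c', LDA_LB A Good ht tag W i' j r c c' := by
    intro j
    induction j using WellFoundedLT.induction with
    | ind j ih =>
    intro i' hii hij r hrA hr0 hrg hrv hrd a c hp haM hcM hra
    -- decisions in smaller models
    have hrd' : ∀ k, k ≤ j → ∀ x ∈ A, InM x (W k) → r ≤ x ∨ r ≤ xᶜ :=
      fun k hk x hx hxM => hrd x hx (LDA_InM_mono hW hk hxM)
    have step : ∀ i'' k, i' ≤ i'' → i'' ≤ k → k < j → ∀ a c, Pos A Good a c → InM a (W i'') → InM c (W i'') →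
        r ≤ a → ∃ c1, InM c1 (W k.s) ∧ LDA_LB A Good ht tag W i'' k r c c1 := by
      intro i'' k h1 h2 h3 a c hp haM hcM hra
      have hik : i ≤ k := hii.trans (h1.trans h2)
      have hks : k.s ≤ j := Om.s_le.2 h3
      have hkks : k ≤ k.s := (Om.lt_s k).le
      have hG := hdec k.s (hik.trans hkks) A hA r hr0
        (hrg.trans (ggen_le (h1.trans (h2.trans hkks)) hks)) (hrd' k.s hks)
      have hH := htr k hik _ hG
      have hHeq : ({x | x ∈ {x | x ∈ A ∧ InM x (W k.s) ∧ r ≤ x} ∧ InM x (W k)} : Set B) =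
          {x | x ∈ A ∧ InM x (W k) ∧ r ≤ x} := by
        ext x
        constructor
        · rintro ⟨⟨h4, -, h5⟩, h6⟩
          exact ⟨h4, h6, h5⟩
        · rintro ⟨h4, h5, h6⟩
          exact ⟨⟨h4, LDA_InM_mono hW hkks h5, h6⟩, h5⟩
      rw [hHeq] at hH
      obtain ⟨x0, hx0M, hx0⟩ := hwx k hik i'' _ (hidx k hik i'' h2).1 hH ⟨_, rfl⟩
      have hx1 : x0 ≤ sInf {x | x ∈ A ∧ InM x (W k) ∧ r ≤ x} := hx0.le.trans (inf_le_left.trans inf_le_left)
      have hx2 : x0 ≤ ggen A W i'' k := hx0.le.trans (inf_le_left.trans inf_le_right)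
      have hx3 : ∀ l, i'' ≤ l → l ≤ k → x0 ≤ v (del (W l)) := fun l h4 h5 =>
        hx0.le.trans (inf_le_right.trans ((iInf_le _ l).trans ((iInf_le _ h4).trans (iInf_le _ h5))))
      have hrx : r ≤ x0 := by
        rw [hx0]
        refine le_inf (le_inf (le_sInf fun x hx => hx.2.2) (hrg.trans (ggen_anti W h1 h3.le))) ?_
        exact le_iInf fun l => le_iInf fun h4 => le_iInf fun h5 => hrv l (h1.trans h4) (h5.trans h3.le)
      have hx00 : x0 ≠ ⊥ := by
        rintro rfl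
        exact hr0 (le_bot_iff.1 hrx)
      have hx0A : x0 ∈ A := by
        rw [hx0]
        refine hA.and (hA.and (hA.inf' fun x hx => hx.1) (ggen_mem hA W i'' k)) ?_
        exact hA.iInf fun l => hA.iInf fun _ => hA.iInf fun _ => L.vmem _
      have hxin : ∀ x ∈ A, InM x (W k) → r ≤ x → x0 ≤ x := fun x h4 h5 h6 =>
        hx1.trans (sInf_le ⟨h4, h5, h6⟩)
      obtain ⟨c1, hc1⟩ := ih k h3 i'' (hii.trans h1) h2 x0 hx0A hx00 hx2 hx3 (fun x hx hxM => by
        rcases hrd' k h3.le x hx hxM with h4 | h4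
        · exact Or.inl (hxin x hx hxM h4)
        · exact Or.inr (hxin xᶜ (hA.compl x hx) (hcompl k hik x hxM) h4)) a c hp haM hcM
        (hxin a hp.1 (LDA_InM_mono hW h2 haM) hra)
      obtain ⟨c2, hc2M, hc2⟩ := hwc k hik i'' x0 c (hidx k hik i'' h2).1 hx0M
        (LDA_InM_mono hW (h2.trans hkks) hcM) ⟨c1, hc1⟩
      exact ⟨c2, hc2M, LDA_weaken hrx hc2⟩
    have hposG : ∀ c1, r ≤ Good c1 → Pos A Good (Good c1) c1 := fun c1 h1 =>
      ⟨h.good c1, fun h2 => hr0 (le_bot_iff.1 (h2 ▸ h1)), le_rfl⟩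
    rcases eq_or_lt_of_le hij with rfl | hlt
    · -- first model
      obtain ⟨c', h1, h2, h3, h4, h5⟩ := one i' hii r hr0 (hrg.trans (ggen_le le_rfl le_rfl))
        (hrv i' le_rfl le_rfl) hrd a c hp haM hcM hra
      refine ⟨c', h1, h2, h3, ?_, ?_⟩
      · intro k h6 h7
        obtain rfl := le_antisymm h6 h7
        exact h4
      · intro k h6 h7 D hD hDM
        obtain rfl := le_antisymm h6 h7
        exact h5 D hD hDM
    rcases Om.cases j with rfl | ⟨k, rfl⟩ | hlim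
    · exact absurd hlt (not_lt.2 (Om.z_le i'))
    · -- successor
      have hik : i' ≤ k := Om.lt_s_iff.1 hlt
      obtain ⟨c1, hc1M, h1, h2, h3, h4, h5⟩ := step i' k le_rfl hik (Om.lt_s k) a c hp haM hcM hra
      have hks : i ≤ k.s := hii.trans hij
      obtain ⟨c', g1, g2, g3, g4, g5⟩ := one k.s hks r hr0 (hrg.trans (ggen_le hij le_rfl)) (hrv k.s hij le_rfl)
        hrd (Good c1) c1 (hposG c1 h2) (hgood k.s hks c1 hc1M) hc1M h2
      refine ⟨c', g1.trans h1, g2, g3, ?_, ?_⟩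
      · intro l h6 h7
        rcases eq_or_lt_of_le h7 with rfl | h8
        · exact g4
        · exact L.tag_mono c1 c' _ g1 (h4 l h6 (Om.lt_s_iff.1 h8))
      · intro l h6 h7 D hD hDM
        rcases eq_or_lt_of_le h7 with rfl | h8
        · exact g5 D hD hDM
        · obtain ⟨a'', c'', q1, q2, q3, q4, q5⟩ := h5 l h6 (Om.lt_s_iff.1 h8) D hD hDM
          exact ⟨a'', c'', q1, q2, q3, q4, g1.trans q5⟩
    · -- limit
      obtain ⟨ξ, hξm, hξ0, hξl, hξc⟩ := Om.exists_cof hlim hlt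
      let I : ℕ → Om := fun n => Nat.casesOn n i' fun m => (ξ (m + 1)).s
      have hI0 : I 0 = i' := rfl
      have hIs : ∀ n, I (n + 1) = (ξ (n + 1)).s := fun n => rfl
      have hIξ : ∀ n, I n ≤ ξ (n + 1) := by
        intro n
        cases n with
        | zero => rw [hI0, ← hξ0]; exact (hξm Nat.zero_lt_one).le
        | succ n => rw [hIs]; exact Om.s_le.2 (hξm (Nat.lt_succ_self _))
      have hI : ∀ n, i' ≤ I n := by
        intro n
        cases n with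
        | zero => exact le_rfl
        | succ n =>
          rw [hIs, ← hξ0]
          exact ((hξm.monotone (Nat.zero_le _)).trans (Om.lt_s _).le)
      have next : ∀ n (c : K), InM c (W (I n)) → r ≤ Good c →
          ∃ c1, InM c1 (W (I (n + 1))) ∧ LDA_LB A Good ht tag W (I n) (ξ (n + 1)) r c c1 := by
        intro n c hc hrc
        exact step (I n) (ξ (n + 1)) (hI n) (hIξ n) (hξl _) (Good c) c (hposG c hrc)
          (hgood (I n) (hii.trans (hI n)) c hc) hc hrc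
      choose! f hf using next
      let cs : ℕ → K := fun n => Nat.rec c (fun n x => f n x) n
      have hcs0 : cs 0 = c := rfl
      have hcss : ∀ n, cs (n + 1) = f n (cs n) := fun n => rfl
      have hcs : ∀ n, InM (cs n) (W (I n)) ∧ r ≤ Good (cs n) := by
        intro n
        induction n with
        | zero => exact ⟨hcM, hra.trans hp.2.2⟩
        | succ n ihn =>
          obtain ⟨h1, h2⟩ := hf n (cs n) ihn.1 ihn.2
          exact ⟨h1, h2.2.1⟩
      have hLB : ∀ n, LDA_LB A Good ht tag W (I n) (ξ (n + 1)) r (cs n) (cs (n + 1)) := fun n =>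
        (hf n (cs n) (hcs n).1 (hcs n).2).2
      have hij' : i < j := lt_of_le_of_lt hii hlt
      have hξi : ∀ n, i ≤ ξ n := fun n => hii.trans (hξ0 ▸ hξm.monotone (Nat.zero_le n))
      obtain ⟨c', g1, g2, g3, g4⟩ := L.lim (fun n => cs (n + 1)) (del (W j)) (hdl j hij'.le)
        (fun n => (hLB (n + 1)).1)
        (fun n => by
          show ht (cs (n + 1)) < _
          rw [(hLB n).2.2.1]
          exact Om.lim_s (hdl j hij'.le) (hdel.2.2.1 _ _ (hξi _) (hξl _)).1)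
        (fun b hb => by
          obtain ⟨j', h1, h2, h3⟩ := hdel.2.2.2 j hij' hlim b hb
          obtain ⟨n, hn⟩ := hξc j' h2
          refine ⟨n, ?_⟩
          show b < ht (cs (n + 1))
          rw [(hLB n).2.2.1]
          refine h3.trans_le (le_trans ?_ (Om.lt_s _).le)
          exact hdel.2.1 _ _ h1 (hn.le.trans (hξm.monotone (Nat.le_succ n))))
      have hfind : ∀ k, i' ≤ k → k < j → ∃ n, I n ≤ k ∧ k ≤ ξ (n + 1) := by
        intro k h1 h2
        classical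
        have hex : ∃ n, k ≤ ξ (n + 1) := by
          obtain ⟨n, hn⟩ := hξc k h2
          exact ⟨n, hn.le.trans (hξm.monotone (Nat.le_succ n))⟩
        refine ⟨Nat.find hex, ?_, Nat.find_spec hex⟩
        rcases Nat.eq_zero_or_pos (Nat.find hex) with h3 | h3
        · rw [h3, hI0]; exact h1
        · obtain ⟨m, hm⟩ := Nat.exists_eq_succ_of_ne_zero h3.ne'
          have h4 := Nat.find_min hex (m := m) (by omega)
          rw [hm, Nat.succ_eq_add_one, hIs]
          exact Om.s_le.2 (not_le.1 h4)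
      have hgen : ∀ k, i' ≤ k → k < j → ∀ D : Set (B × K), DO A Good D → InM D (W k) →
          ∃ a'' c'', (a'', c'') ∈ D ∧ InM a'' (W k) ∧ InM c'' (W k) ∧ r ≤ a'' ∧ c' ≤ c'' := by
        intro k h1 h2 D hD hDM
        obtain ⟨n, h3, h4⟩ := hfind k h1 h2
        obtain ⟨a'', c'', q1, q2, q3, q4, q5⟩ := (hLB n).2.2.2.2 k h3 h4 D hD hDM
        exact ⟨a'', c'', q1, q2, q3, q4, (g1 n).trans q5⟩
      refine ⟨c', ((g1 0).trans (hLB 0).1).trans hcs0.le, ?_, g2, ?_, ?_⟩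
      · exact le_trans (le_inf (le_iInf fun n => (hcs (n + 1)).2) (hrv j hij le_rfl)) g4
      · intro k h1 h2
        rcases eq_or_lt_of_le h2 with rfl | h3
        · exact g3
        · obtain ⟨n, h4, h5⟩ := hfind k h1 h3
          exact L.tag_mono (cs (n + 1)) c' _ (g1 n) ((hLB n).2.2.2.1 k h4 h5)
      · intro k h1 h2 D hD hDM
        rcases eq_or_lt_of_le h2 with rfl | h3
        · obtain ⟨j', h4, h5⟩ := hW.cont k hlim _ hDM
          have h6 : InM D (W (max i' j')) := LDA_InM_mono hW (le_max_right i' j') h5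
          obtain ⟨a'', c'', q1, q2, q3, q4, q5⟩ := hgen (max i' j') (le_max_left _ _) (max_lt hlt h4) D hD h6
          have h7 : max i' j' ≤ k := (max_lt hlt h4).le
          exact ⟨a'', c'', q1, LDA_InM_mono hW h7 q2, LDA_InM_mono hW h7 q3, q4, q5⟩
        · exact hgen k h1 h3 D hD hDM
  intro j hij r hrA hr0 hrg hrv hrd a c hp haM hcM hra
  exact main j i le_rfl hij r hrA hr0 hrg hrv hrd a c hp haM hcM hra

end Pool.Agent.CAN
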