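import Pool.Agent.CAN.GSQ
import Pool.Agent.CAN.NCH

/-!
# CAN/TNN: criterion for `NNv`

PROOF.  Let `G`, `q` be given, `proj A q ∈ G`.  The set `{a | ∃ c, Pos A Good a c ∧ ι a c ≤ q} ∪ {(proj A q)ᶜ}` is in `M` with supremum `⊤` (`two_proj_eq`); so there is `a ∈ G` and
(`Ev.wit2`) `c`, `InM c M`, with `Pos A Good a c`, `ι a c ≤ q`.  The hypothesis gives `j`, `cs`.  `G' = GSet A C Good ι M G cs` (`gseq_genF`);
`q ∈ G'` because `ι (a ⊓ Good (cs 0)) (cs 0) ≤ ι a c ≤ q` (`cs 0 ≤ c`, `a ⊓ Good (cs 0) ∈ G`).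
The inequality: for `b ∈ A`, `c' ≤ cs n` for all `n`, `b ≤ Good c'`: put `b' = b ⊓ sInf G` (if it is `⊥` there is nothing to show): `Pos A Good b' c'`,
`ι b' c' ≤ sInf G'`, so `b' = proj A (ι b' c') ≤ proj A (sInf G')`.  So `sInf G ⊓ ⨆ b ≤ proj A (sInf G')` (`inf_iSup_eq`), and the left side of
the claim is below `sInf G ⊓ ⨆ b`.  (`sInf G ∈ A`.)
-/

set_option autoImplicit false

namespace Pool.Agent.CAN

variable {B : Type 1} [CompleteBooleanAlgebra B] {K : Type 1} [Preorder K] {A C : Set B} {Good : K → B} {ι : B → K → B}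

/-- the set of the first coordinates of conditions below `q`, completed -/
private def TNN_D (A : Set B) (Good : K → B) (ι : B → K → B) (q : B) : Set B :=
  {a | ∃ c, Pos A Good a c ∧ ι a c ≤ q} ∪ {(proj A q)ᶜ}

private theorem TNN_D_sub (h : Two A C Good ι) (q : B) : TNN_D A Good ι q ⊆ A := by
  rintro a (⟨c, hp, _⟩ | ha)
  · exact hp.1
  · rw [Set.mem_singleton_iff.1 ha]
    exact h.subA.compl _ (proj_mem h.subA q)

private theorem TNN_D_sup (h : Two A C Good ι) {q : B} (hq : q ∈ C) : sSup (TNN_D A Good ι q) = ⊤ := by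
  rw [eq_top_iff, ← sup_compl_eq_top (x := proj A q)]
  refine sup_le ?_ (le_sSup (Or.inr rfl))
  conv_lhs => rw [two_proj_eq h hq]
  exact iSup_le fun a => iSup_le fun c => iSup_le fun hp => le_sSup (Or.inl ⟨c, hp⟩)

theorem two_nnv (h : Two A C Good ι) (v : Om → B)
    (H : EvN fun M W i => ∀ G : Set B, InM G (W i) → GenF A M G → ∀ a ∈ G, ∀ c, InM c M → Pos A Good a c →
      ∃ j, i ≤ j ∧ ∃ cs : ℕ → K, cs 0 ≤ c ∧ GSeq A Good M G cs ∧
        sInf G ⊓ ggen A W i j ⊓ v (del M) ≤ ⨆ (b : B) (_ : b ∈ A ∧ ∃ c', (∀ n, c' ≤ cs n) ∧ b ≤ Good c'), b) :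
    EvN (NNv A C v) := by
  refine (H.and ((EvN.of_ev (gseq_genF h)).and
    ((EvN.of_ev (Ev.fn1 (fun q : B => TNN_D A Good ι q))).and
      (EvN.of_ev (Ev.wit2 (fun (a q : B) (c : K) => Pos A Good a c ∧ ι a c ≤ q)))))).mono ?_
  intro M W i _ HH G hG hGF q hq hqM hpq
  obtain ⟨H1, H2, H3, H4⟩ := HH
  obtain ⟨a, haD, haG⟩ := hGF.meet _ (H3 q hqM) (TNN_D_sub h q) (TNN_D_sup h hq)
  have haM := (hGF.sub a haG).2
  rcases haD with ha | ha
  · obtain ⟨c, hcM, hp, hle⟩ := H4 a q haM hqM ha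
    obtain ⟨j, hij, cs, hcs0, hgs, hineq⟩ := H1 G hG hGF a haG c hcM hp
    obtain ⟨k1, k2, _, k4⟩ := H2 G hGF cs hgs
    have hGA : ∀ x ∈ G, x ∈ A := fun x hx => (hGF.sub x hx).1
    have hag : a ⊓ Good (cs 0) ∈ G := hGF.inf a haG _ (hgs.good 0)
    have hp' : Pos A Good (a ⊓ Good (cs 0)) (cs 0) := by
      refine ⟨hGA _ hag, ?_, inf_le_right⟩
      intro h0
      rw [h0] at hag
      exact hGF.bot hag
    refine ⟨j, hij, GSet A C Good ι M G cs, k1, ?_, k2, ?_⟩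
    · exact ⟨hq, hqM, 0, _, hag, hp', (h.le_of_le hp hp' inf_le_left hcs0).trans hle⟩
    · have e1 : sInf G ⊓ ggen A W i j ⊓ v (del M) ≤
          sInf G ⊓ ⨆ (b : B) (_ : b ∈ A ∧ ∃ c', (∀ n, c' ≤ cs n) ∧ b ≤ Good c'), b :=
        le_inf (inf_le_left.trans inf_le_left) hineq
      refine e1.trans ?_
      simp only [inf_iSup_eq]
      refine iSup_le fun b => iSup_le fun hb => ?_
      obtain ⟨hbA, c', hc', hbc⟩ := hb
      by_cases h0 : sInf G ⊓ b = ⊥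
      · rw [h0]
        exact bot_le
      · have hb' : Pos A Good (sInf G ⊓ b) c' :=
          ⟨h.subA.and (h.subA.inf' hGA) hbA, h0, inf_le_right.trans hbc⟩
        have e2 := k4 (sInf G ⊓ b) c' hb' inf_le_left hc'
        have e3 := proj_mono (A := A) e2
        rwa [h.proj _ _ hb'] at e3
  · exfalso
    rw [Set.mem_singleton_iff.1 ha] at haG
    have h1 := hGF.inf _ hpq _ haG
    rw [inf_compl_eq_bot] at h1
    exact hGF.bot h1

end Pool.Agent.CAN
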