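import Pool.Agent.CAN.TWL
import Pool.Agent.CAN.DIS

/-!
# CAN/TPP: criterion for `PPv` of a two-step extension (with an additional gain `w`)

PROOF.  `q ∈ C`, `InM q (W i)`.  `le_proj_of_dense`: let `b ∈ A`, `⊥ ≠ b ≤ ggen A W i j ⊓ (⨅ v) ⊓ proj A q`.  The set
`D = {a | ∃ c, Pos A Good a c ∧ ι a c ≤ q} ∪ {(proj A q)ᶜ} ⊆ A` is `InM` of `W i` (`Ev.fn1` in `q`), `sSup D = ⊤` (`two_proj_eq`), so
`b ≤ gen A (W i) ≤ sSup (D ∩ W i)` meets some `a ∈ D ∩ W i`, `a ≠ (proj A q)ᶜ`; and `c` with `Pos A Good a c`, `ι a c ≤ q`, `InM c (W i)` (`Ev.wit2`).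
`b ⊓ a ≠ ⊥`; `Distr.decide` for the countable set `A ∩ W j` gives `r ≤ b ⊓ a`, `r ≠ ⊥`, `r ∈ A` deciding it.  The hypothesis gives `r', c'`.
`ι r' c' ≤ ι a c ≤ q` (`Two.le_of_le`, `Pos A Good r' c'`).  `ι r' c' ≤ gen C (W k)`: `le_gen`; for `E ⊆ C`, `InM E (W k)`, `sSup E = ⊤`: the dense open set `D_E` of `Two.do_of_sup` is in `W k`
(`Ev.fn1`), so there are `(a'', c'') ∈ D_E ∩ W k` with `r' ≤ a''`, `c' ≤ c''`: `ι r' c' ≤ ι a'' c'' ≤ e` for some `e ∈ E`, which can be chosen in `W k` (`Ev.wit3`).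
So `ι r' c' ≤ b ⊓ (q ⊓ ggen C W i j ⊓ w W i j)` is not `⊥`.
-/

set_option autoImplicit false

namespace Pool.Agent.CAN

variable {B : Type 1} [CompleteBooleanAlgebra B] {K : Type 1} [Preorder K] {A C : Set B} {Good : K → B} {ι : B → K → B}

/-- the set of the first coordinates of conditions below `q`, completed -/
private def TPP_D (A : Set B) (Good : K → B) (ι : B → K → B) (q : B) : Set B :=
  {a | ∃ c, Pos A Good a c ∧ ι a c ≤ q} ∪ {(proj A q)ᶜ}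

private theorem TPP_D_sub (h : Two A C Good ι) (q : B) : TPP_D A Good ι q ⊆ A := by
  rintro a (⟨c, hp, _⟩ | ha)
  · exact hp.1
  · rw [Set.mem_singleton_iff.1 ha]
    exact h.subA.compl _ (proj_mem h.subA q)

private theorem TPP_D_sup (h : Two A C Good ι) {q : B} (hq : q ∈ C) : sSup (TPP_D A Good ι q) = ⊤ := by
  rw [eq_top_iff, ← sup_compl_eq_top (x := proj A q)]
  refine sup_le ?_ (le_sSup (Or.inr rfl))
  conv_lhs => rw [two_proj_eq h hq]
  exact iSup_le fun a => iSup_le fun c => iSup_le fun hp => le_sSup (Or.inl ⟨c, hp⟩)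

/-- the conditions deciding an element of `E` -/
private def TPP_E (A : Set B) (Good : K → B) (ι : B → K → B) (E : Set B) : Set (B × K) :=
  {p : B × K | Pos A Good p.1 p.2 ∧ ∃ e ∈ E, ι p.1 p.2 ≤ e}

private theorem TPP_meet {x : B} (hx : x ≠ ⊥) {E : Set B} (hs : x ≤ sSup E) : ∃ e ∈ E, x ⊓ e ≠ ⊥ := by
  by_contra hcon
  push Not at hcon
  apply hx
  have h1 : x ⊓ sSup E = ⊥ := by
    rw [inf_sSup_eq]
    exact le_bot_iff.1 (iSup_le fun e => iSup_le fun he => (hcon e he).le)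
  rwa [inf_eq_left.2 hs] at h1

theorem two_ppw (h : Two A C Good ι) (hd : Distr A) (v : Om → B) (hv : ∀ δ, v δ ∈ A)
    (w : (Om → ZFSet.{1}) → Om → Om → B)
    (H : EvT fun W i => ∀ j, i ≤ j → ∀ r ∈ A, r ≠ ⊥ → r ≤ ggen A W i j → (∀ k, i ≤ k → k ≤ j → r ≤ v (del (W k))) →
      (∀ x ∈ A, InM x (W j) → r ≤ x ∨ r ≤ xᶜ) → ∀ a c, Pos A Good a c → InM a (W i) → InM c (W i) → r ≤ a →
      ∃ r' c', Pos A Good r' c' ∧ r' ≤ r ∧ c' ≤ c ∧ ι r' c' ≤ w W i j ∧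
        ∀ k, i ≤ k → k ≤ j → ∀ D : Set (B × K), DO A Good D → InM D (W k) →
          ∃ a'' c'', (a'', c'') ∈ D ∧ InM a'' (W k) ∧ InM c'' (W k) ∧ r' ≤ a'' ∧ c' ≤ c'') :
    EvT fun W i => ∀ j, i ≤ j → ∀ q ∈ C, InM q (W i) →
      ggen A W i j ⊓ (⨅ (k : Om) (_ : i ≤ k) (_ : k ≤ j), v (del (W k))) ⊓ proj A q ≤
        proj A (q ⊓ ggen C W i j ⊓ w W i j) := by
  refine (H.and ((EvT.of_ev (Ev.fn1 (fun q : B => TPP_D A Good ι q))).and
    ((EvT.of_ev (Ev.wit2 (fun (a q : B) (c : K) => Pos A Good a c ∧ ι a c ≤ q))).and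
      ((EvT.of_ev (Ev.fn1 (fun E : Set B => TPP_E A Good ι E))).and
        ((EvT.of_ev (Ev.wit3 (fun (E : Set B) (a : B) (c : K) (e : B) => e ∈ E ∧ ι a c ≤ e))).and
          (EvT.of_ev (Ev.mdl (fun x _ => x)))))))).mono ?_
  intro W i _ HH j hij q hq hqW
  obtain ⟨H1, H2, H3, H4, H5, H6⟩ := HH
  refine le_proj_of_dense h.subA ?_ ?_
  · exact h.subA.and (h.subA.and (ggen_mem h.subA W i j) (h.subA.iInf fun k => h.subA.iInf fun _ =>
      h.subA.iInf fun _ => hv _)) (proj_mem h.subA q)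
  intro b hb hb0 hble
  have hb1 : b ≤ ggen A W i j := hble.trans (inf_le_left.trans inf_le_left)
  have hb2 : ∀ k, i ≤ k → k ≤ j → b ≤ v (del (W k)) := fun k hk hk' =>
    hble.trans (inf_le_left.trans (inf_le_right.trans
      (iInf_le_of_le k (iInf_le_of_le hk (iInf_le _ hk')))))
  have hb3 : b ≤ proj A q := hble.trans inf_le_right
  have hb4 : b ≤ sSup {d | d ∈ TPP_D A Good ι q ∧ InM d (W i)} :=
    (hb1.trans (ggen_le le_rfl hij)).trans
      (gen_le (H2 i le_rfl q hqW) (TPP_D_sub h q) (TPP_D_sup h hq))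
  obtain ⟨a, ⟨haD, haW⟩, hne⟩ := TPP_meet hb0 hb4
  rcases haD with ha | ha
  · obtain ⟨c, hcW, hp, hle⟩ := H3 i le_rfl a q haW hqW ha
    have hX : {x : B | x ∈ A ∧ InM x (W j)}.Countable :=
      (tr_countable (T := B) (H6 j hij).ctbl).mono fun x hx => hx.2
    obtain ⟨r, hr, hr0, hrle, hdec⟩ := Distr.decide h.subA hd hX (fun x hx => hx.1)
      (h.subA.and hb hp.1) hne
    obtain ⟨r', c', hp', hr'r, hc'c, hw, hk⟩ := H1 j hij r hr hr0 (hrle.trans (inf_le_left.trans hb1))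
      (fun k hk hk' => hrle.trans (inf_le_left.trans (hb2 k hk hk')))
      (fun x hx hxW => hdec x ⟨hx, hxW⟩) a c hp haW hcW (hrle.trans inf_le_right)
    have e1 : ι r' c' ≤ b := (h.le_fst hp').trans (hr'r.trans (hrle.trans inf_le_left))
    have e2 : ι r' c' ≤ q :=
      (h.le_of_le hp hp' (hr'r.trans (hrle.trans inf_le_right)) hc'c).trans hle
    have e3 : ι r' c' ≤ ggen C W i j := by
      refine le_ggen fun k hik hkj => le_gen fun E hE hEC hEs => ?_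
      have hDO : DO A Good (TPP_E A Good ι E) := h.do_of_sup hEC hEs
      obtain ⟨a2, c2, hmem, ha2, hc2, hra, hcc⟩ := hk k hik hkj _ hDO (H4 k hik E hE)
      obtain ⟨hp2, hex⟩ := hmem
      obtain ⟨e, heW, heE, hee⟩ := H5 k hik E a2 c2 hE ha2 hc2 hex
      exact (h.le_of_le hp2 hp' hra hcc).trans (hee.trans (le_sSup ⟨heE, heW⟩))
    have e4 : ι r' c' ≤ b ⊓ (q ⊓ ggen C W i j ⊓ w W i j) := le_inf e1 (le_inf (le_inf e2 e3) hw)
    intro h0
    rw [h0] at e4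
    exact h.ne_bot hp' (le_bot_iff.1 e4)
  · exfalso
    apply hne
    rw [Set.mem_singleton_iff.1 ha, ← le_bot_iff, ← inf_compl_eq_bot (a := proj A q)]
    exact inf_le_inf_right _ hb3

end Pool.Agent.CAN
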