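import Pool.Agent.CAN.LDA
import Pool.Agent.CAN.TPP
import Pool.Agent.CAN.TNN

/-!
# CAN/LDB: two-step extensions with a ladder

`lad_pp`: `two_ppw` with `w W i j = ⨅ k ∈ [i, j], tg A Good ι tag (del (W k))`, and `lad_ind` (`r' = r`, `Pos A Good r c'`, `ι r c' ≤ tg .. (del (W k))` by definition of `tg`).
`lad_nnv`: `two_nnv` with `j = i` and `lad_one`: `b = sInf G ⊓ v (del M) ∈ A`, `b ≤ Good c'`.
`lad_nn`: `(a, c)` in `M` with `a ∈ G`, `ι a c ≤ q` (as in `two_nnv`), `cs, c'` from `lad_one`, `G' = GSet ..`, `q0 = ι (sInf G ⊓ v (del M)) c'`; `q0 ≤ sInf G'` by `gseq_genF`;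
`q0 ≤ tg`; `proj A q0 = sInf G ⊓ v (del M)`.  `G'` and `q0` can be chosen in `W i` (`Ev.wit`: they depend on `M`, `G`, `q`, all in `W i`; use the list form or `Ev.wit3` for
the pair `(G', q0) : Set B × B`, a relation between `M`, `G`, `q` and the pair; then the components are in `W i` by `Ev.fn1 Prod.fst` and `Prod.snd`).
-/

set_option autoImplicit false

namespace Pool.Agent.CAN

variable {B : Type 1} [CompleteBooleanAlgebra B] {K : Type 1} [Preorder K] {A C : Set B} {Good : K → B} {ι : B → K → B}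
  {v : Om → B} {ht : K → Om} {tag : K → Om → Prop}

private theorem LDB_tg {r : B} {c : K} {δ : Om} (hp : Pos A Good r c) (ht : tag c δ) :
    ι r c ≤ tg A Good ι tag δ :=
  le_iSup_of_le r (le_iSup_of_le c (le_iSup_of_le ⟨hp, ht⟩ le_rfl))

theorem lad_pp (h : Two A C Good ι) (hd : Distr A) (L : Ladder A Good v ht tag) :
    EvT fun W i => ∀ j, i ≤ j → ∀ q ∈ C, InM q (W i) →
      ggen A W i j ⊓ (⨅ (k : Om) (_ : i ≤ k) (_ : k ≤ j), v (del (W k))) ⊓ proj A q ≤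
        proj A (q ⊓ ggen C W i j ⊓ ⨅ (k : Om) (_ : i ≤ k) (_ : k ≤ j), tg A Good ι tag (del (W k))) := by
  refine two_ppw h hd v L.vmem (fun W i j => ⨅ (k : Om) (_ : i ≤ k) (_ : k ≤ j), tg A Good ι tag (del (W k))) ?_
  refine (lad_ind h hd L).mono ?_
  intro W i _ H j hij r hrA hr0 hrg hrv hrd a c hp haM hcM hra
  obtain ⟨c', h1, h2, -, h4, h5⟩ := H j hij r hrA hr0 hrg hrv hrd a c hp haM hcM hra
  refine ⟨r, c', ⟨hrA, hr0, h2⟩, le_rfl, h1, ?_, h5⟩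
  exact le_iInf fun k => le_iInf fun h6 => le_iInf fun h7 => LDB_tg ⟨hrA, hr0, h2⟩ (h4 k h6 h7)

theorem lad_nnv (h : Two A C Good ι) (L : Ladder A Good v ht tag) : EvN (NNv A C v) := by
  refine two_nnv h v ((EvN.of_ev (lad_one h L)).mono ?_)
  intro M W i _ H G _ hG a ha c hc hp
  obtain ⟨cs, h0, h1, c', h2, -, -, h5⟩ := H G hG a ha c hc hp
  refine ⟨i, le_rfl, cs, h0.le, h1, ?_⟩
  have hA : sInf G ⊓ v (del M) ∈ A := h.subA.and (h.subA.inf' fun x hx => (hG.sub x hx).1) (L.vmem _)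
  refine le_trans ?_ (le_iSup_of_le (sInf G ⊓ v (del M)) (le_iSup_of_le ⟨hA, c', h2, h5⟩ le_rfl))
  exact inf_le_inf_right _ inf_le_left

private theorem LDB_cond (h : Two A C Good ι) : Ev fun M => ∀ G : Set B, GenF A M G → ∀ q ∈ C, InM q M →
    proj A q ∈ G → ∃ a ∈ G, ∃ c, InM c M ∧ Pos A Good a c ∧ ι a c ≤ q := by
  refine (((ev_genF (B := B)).and (Ev.fn1 (fun q : B => ({a | ∃ c, Pos A Good a c ∧ ι a c ≤ q} : Set B)))).and
    (Ev.wit2 (fun (q a : B) (c : K) => Pos A Good a c ∧ ι a c ≤ q))).mono ?_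
  rintro M ⟨⟨h1, h2⟩, h3⟩ G hG q hq hqM hpq
  obtain ⟨a, ⟨c, hp, hle⟩, haG⟩ := (h1 A h.subA G hG).2.2.2.1 _ (h2 q hqM) (fun a ha => by
    obtain ⟨c, hp, -⟩ := ha
    exact hp.1) _ hpq (by
    rw [two_proj_eq h hq]
    exact iSup_le fun a => iSup_le fun c => iSup_le fun hac => le_sSup ⟨c, hac⟩)
  obtain ⟨c', hc'M, hc'⟩ := h3 q a hqM (hG.sub a haG).2 ⟨c, hp, hle⟩
  exact ⟨a, haG, c', hc'M, hc'⟩

theorem lad_nn (h : Two A C Good ι) (L : Ladder A Good v ht tag) :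
    EvN fun M W i => ∀ G : Set B, InM G (W i) → GenF A M G → sInf G ⊓ v (del M) ≠ ⊥ →
      ∀ q ∈ C, InM q M → proj A q ∈ G →
      ∃ G' : Set B, InM G' (W i) ∧ GenF C M G' ∧ q ∈ G' ∧ G ⊆ G' ∧
        ∃ q0 ∈ C, InM q0 (W i) ∧ q0 ≤ sInf G' ∧ q0 ≤ tg A Good ι tag (del M) ∧ proj A q0 = sInf G ⊓ v (del M) := by
  refine (((((EvN.of_ev (lad_one h L)).and (EvN.of_ev (gseq_genF h))).and (EvN.of_ev (LDB_cond h))).and EvN.sub).and
    (EvN.of_evT (EvT.of_ev (((Ev.wit3 (fun (M : ZFSet.{1}) (G : Set B) (q : B) (p : Set B × B) =>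
      GenF C M p.1 ∧ q ∈ p.1 ∧ G ⊆ p.1 ∧ p.2 ∈ C ∧ p.2 ≤ sInf p.1 ∧ p.2 ≤ tg A Good ι tag (del M) ∧
        proj A p.2 = sInf G ⊓ v (del M))).and (Ev.fn1 (fun p : Set B × B => p.1))).and
      (Ev.fn1 (fun p : Set B × B => p.2)))))).mono ?_
  rintro M W i _ ⟨⟨⟨⟨h1, h2⟩, h3⟩, -, hMW, hsub⟩, h4⟩ G hGW hG h0 q hq hqM hpq
  obtain ⟨⟨h5, h6⟩, h7⟩ := h4 i le_rfl
  obtain ⟨a, haG, c, hcM, hp, hle⟩ := h3 G hG q hq hqM hpq
  obtain ⟨cs, hcs0, hcs, c', g1, -, g3, g4⟩ := h1 G hG a haG c hcM hp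
  obtain ⟨k1, k2, k3, k4⟩ := h2 G hG cs hcs
  have hpos : Pos A Good (sInf G ⊓ v (del M)) c' :=
    ⟨h.subA.and (h.subA.inf' fun x hx => (hG.sub x hx).1) (L.vmem _), h0, g4⟩
  obtain ⟨p, hpW, q1, q2, q3, q4, q5, q6, q7⟩ := h5 M G q hMW hGW ((hsub i le_rfl).2 _ hqM)
    ⟨(GSet A C Good ι M G cs, ι (sInf G ⊓ v (del M)) c'), k1,
      k1.up _ (k3 a haG 0 (hcs0 ▸ hp)) q hq hqM (hcs0 ▸ hle), k2, h.mem _ _ hpos,
      k4 _ c' hpos inf_le_left g1, LDB_tg hpos g3, h.proj _ _ hpos⟩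
  exact ⟨p.1, h6 p hpW, q1, q2, q3, p.2, q4, h7 p hpW, q5, q6, q7⟩

end Pool.Agent.CAN
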