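import Pool.Agent.CAN.PRA

/-!
# CAN/LTH: the infimum of a thread; the dense sets `Pd S g`

PROOF of `thread_inf`.  Let `g' = ⨆ n, γ n ≤ g` (`Ordinal.iSup`, bounded by `g`): a limit ordinal (`γ` strictly increasing) with `CofW g'`,
every `a < g'` is `≤ γ n` for some `n`.  For `a < g'` let `R a = proj (S a) (r n)` for the least `n` with `a ≤ γ n`
(the same for all larger `n` since `proj (S a) (r (n+1)) = proj (S a) (proj (S (γ n)) (r (n+1))) = proj (S a) (r n)`, `proj_proj`).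
`R` is coherent: for `a ≤ b < g'`, `proj (S a) (R b) = proj (S a) (proj (S b) (r n)) = proj (S a) (r n) = R a` for large `n`.
By `hS.thread g'`: `ρ = ⨅ a < g', R a ∈ S g'` and `proj (S a) ρ = R a`.  `ρ = ⨅ n, r n` because `R (γ n) = r n` and `r n ≤ R a` for
`a ≤ γ n`.  If `CofW g` then `g' = g`, and `ρ ≤ ⨅ a < g, proj (S a) ρ ≤ ⨅ n, proj (S (γ n)) ρ = ⨅ n, r n = ρ`.  If `¬ CofW g` then
`g' < g` (otherwise `γ` shows `CofW g`) and `ρ ∈ S g'`.

`Pd_dense`: for `g` a limit use `hS.dense` or `hS.direct`; otherwise `Pd S g = S g`.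
`Pd_sSup`: if `x ⊓ (sSup ..)ᶜ ≠ ⊥` there would be a nonzero element of `Pd S g` below it.
`Pd_iInf`: if `CofW g`, `q ≤ ⨅ n, proj (S (γ n)) q ≤ ⨅ a < g, proj (S a) q = q`, as for `a ≤ γ n` `proj (S (γ n)) q ≤ proj (S a) q`.
Otherwise `q ∈ S (γ n)` for some `n` and `proj (S (γ n)) q = q`.
-/

set_option autoImplicit false

namespace Pool.Agent.CAN

variable {B : Type 1} [CompleteBooleanAlgebra B] {S : Ordinal.{0} → Set B}

theorem thread_inf (hS : Chain S) {g : Ordinal.{0}} (hg : Order.IsSuccLimit g) (γ : ℕ → Ordinal.{0})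
    (hγ : StrictMono γ) (hlt : ∀ n, γ n < g) (hcof : CofW g → ∀ a < g, ∃ n, a ≤ γ n) (r : ℕ → B)
    (hr : ∀ n, r n ∈ S (γ n)) (hp : ∀ n, proj (S (γ n)) (r (n + 1)) = r n) :
    (⨅ n, r n) ∈ Pd S g ∧ ∀ n, proj (S (γ n)) (⨅ m, r m) = r n := by
  set g' : Ordinal.{0} := ⨆ n, γ n with hg'
  have hle : ∀ n, γ n ≤ g' := fun n => Ordinal.le_iSup γ n
  have hltg' : ∀ n, γ n < g' := fun n => (hγ (Nat.lt_succ_self n)).trans_le (hle (n + 1))
  have hg'g : g' ≤ g := Ordinal.iSup_le fun n => (hlt n).le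
  have hex : ∀ a < g', ∃ n, a < γ n := fun a ha => Ordinal.lt_iSup_iff.mp ha
  have hlim : Order.IsSuccLimit g' := by
    refine Order.IsSuccPrelimit.isSuccLimit_of_not_isMin ?_ ?_
    · refine Order.isSuccPrelimit_of_succ_lt fun a ha => ?_
      obtain ⟨n, hn⟩ := hex a ha
      exact (Order.succ_le_of_lt hn).trans_lt (hltg' n)
    · intro hmin
      exact not_lt_of_ge (hmin (hltg' 0).le) (hltg' 0)
  have hcw : CofW g' := ⟨γ, hltg', fun a ha => (hex a ha).imp fun _ h => h.le⟩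
  have hconst : ∀ (a : Ordinal.{0}) (n l : ℕ), n ≤ l → a ≤ γ n →
      proj (S a) (r l) = proj (S a) (r n) := by
    intro a n l hnl han
    induction l, hnl using Nat.le_induction with
    | base => rfl
    | succ l hl ih =>
      have h1 : a ≤ γ l := han.trans (hγ.monotone hl)
      rw [← proj_proj (hS.sub a) (hS.sub (γ l)) (hS.mono a (γ l) h1) (r (l + 1)), hp l, ih]
  have hconst' : ∀ (a : Ordinal.{0}) (n l : ℕ), a ≤ γ n → a ≤ γ l →
      proj (S a) (r l) = proj (S a) (r n) := by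
    intro a n l h1 h2
    rcases le_total n l with h | h
    · exact hconst a n l h h1
    · exact (hconst a l n h h2).symm
  set R : Ordinal.{0} → B := fun a => ⨅ (n : ℕ) (_ : a ≤ γ n), proj (S a) (r n) with hR
  have hRe : ∀ a n, a ≤ γ n → R a = proj (S a) (r n) := by
    intro a n h
    refine le_antisymm (iInf₂_le (f := fun (n : ℕ) (_ : a ≤ γ n) => proj (S a) (r n)) n h)
      (le_iInf₂ fun l hl => ?_)
    rw [hconst' a n l h hl]
  have hRγ : ∀ n, R (γ n) = r n := fun n => by rw [hRe (γ n) n le_rfl, proj_self (hr n)]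
  obtain ⟨t1, t2⟩ := hS.thread g' hlim hcw R
    (fun a ha => by
      obtain ⟨n, hn⟩ := hex a ha
      rw [hRe a n hn.le]
      exact proj_mem (hS.sub a) _)
    (fun a b hab hb => by
      obtain ⟨n, hn⟩ := hex b hb
      rw [hRe b n hn.le, hRe a n (hab.trans hn.le),
        proj_proj (hS.sub a) (hS.sub b) (hS.mono a b hab)])
  have hρ : (⨅ (a) (_ : a < g'), R a) = ⨅ n, r n := by
    refine le_antisymm (le_iInf fun n => ?_) (le_iInf₂ fun a ha => ?_)
    · refine (iInf₂_le (f := fun (a : Ordinal.{0}) (_ : a < g') => R a) (γ n) (hltg' n)).trans ?_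
      show R (γ n) ≤ r n
      rw [hRγ n]
    · obtain ⟨n, hn⟩ := hex a ha
      rw [hRe a n hn.le]
      exact (iInf_le r n).trans (le_proj _)
  rw [hρ] at t1 t2
  have hpr : ∀ n, proj (S (γ n)) (⨅ m, r m) = r n := fun n => by
    rw [t2 (γ n) (hltg' n), hRγ n]
  refine ⟨⟨hS.mono g' g hg'g t1, fun _ _ => ?_, fun _ hnc => ?_⟩, hpr⟩
  · refine le_antisymm (le_iInf₂ fun a _ => le_proj _) (le_iInf fun n => ?_)
    refine (iInf₂_le (f := fun (a : Ordinal.{0}) (_ : a < g) => proj (S a) (⨅ n, r n)) (γ n)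
      (hlt n)).trans ?_
    show proj (S (γ n)) (⨅ n, r n) ≤ r n
    rw [hpr n]
  · refine ⟨g', lt_of_le_of_ne hg'g ?_, t1⟩
    intro he
    rw [← he] at hnc
    exact hnc hcw

theorem Pd_sub (g : Ordinal.{0}) : Pd S g ⊆ S g :=
  fun _ h => h.1

theorem Pd_eq {g : Ordinal.{0}} (hg : ¬ Order.IsSuccLimit g) : Pd S g = S g := by
  ext y
  exact ⟨fun h => h.1, fun h => ⟨h, fun h' => absurd h' hg, fun h' => absurd h' hg⟩⟩

theorem Pd_dense (hS : Chain S) (g : Ordinal.{0}) {x : B} (hx : x ∈ S g) (h0 : x ≠ ⊥) :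
    ∃ y ∈ Pd S g, y ≠ ⊥ ∧ y ≤ x := by
  by_cases hg : Order.IsSuccLimit g
  · by_cases hc : CofW g
    · obtain ⟨y, hy, hy0, hyx, he⟩ := hS.dense g hg hc x hx h0
      exact ⟨y, ⟨hy, fun _ _ => he, fun _ h => absurd hc h⟩, hy0, hyx⟩
    · obtain ⟨a, ha, y, hy, hy0, hyx⟩ := hS.direct g hg hc x hx h0
      exact ⟨y, ⟨hS.mono a g ha.le hy, fun _ h => absurd h hc, fun _ _ => ⟨a, ha, hy⟩⟩, hy0, hyx⟩
  · exact ⟨x, ⟨hx, fun h' => absurd h' hg, fun h' => absurd h' hg⟩, h0, le_rfl⟩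

theorem Pd_sSup (hS : Chain S) (g : Ordinal.{0}) {x : B} (hx : x ∈ S g) : sSup {y | y ∈ Pd S g ∧ y ≤ x} = x := by
  refine le_antisymm (sSup_le fun y hy => hy.2) ?_
  by_contra hlt
  have hs : sSup {y | y ∈ Pd S g ∧ y ≤ x} ∈ S g := (hS.sub g).sup _ fun y hy => hy.1.1
  have hz : x ⊓ (sSup {y | y ∈ Pd S g ∧ y ≤ x})ᶜ ≠ ⊥ := by
    intro h
    apply hlt
    rw [← sdiff_eq] at h
    exact sdiff_eq_bot_iff.mp h
  obtain ⟨y, hy, hy0, hyz⟩ := Pd_dense hS g ((hS.sub g).and hx ((hS.sub g).compl _ hs)) hz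
  have h1 : y ≤ sSup {y | y ∈ Pd S g ∧ y ≤ x} := le_sSup ⟨hy, hyz.trans inf_le_left⟩
  have h2 : y ≤ (sSup {y | y ∈ Pd S g ∧ y ≤ x})ᶜ := hyz.trans inf_le_right
  exact hy0 (le_bot_iff.mp ((le_inf h1 h2).trans (le_of_eq (inf_compl_self _))))

theorem Pd_iInf (hS : Chain S) {g : Ordinal.{0}} (hg : Order.IsSuccLimit g) (γ : ℕ → Ordinal.{0})
    (hlt : ∀ n, γ n < g) {q : B} (hq : q ∈ Pd S g) (h1 : CofW g → ∀ a < g, ∃ n, a ≤ γ n)
    (h2 : ¬ CofW g → ∃ n, q ∈ S (γ n)) : q = ⨅ n, proj (S (γ n)) q := by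
  refine le_antisymm (le_iInf fun n => le_proj _) ?_
  by_cases hc : CofW g
  · have he := hq.2.1 hg hc
    conv_rhs => rw [he]
    refine le_iInf₂ fun a ha => ?_
    obtain ⟨n, hn⟩ := h1 hc a ha
    exact (iInf_le _ n).trans (proj_anti (hS.mono a (γ n) hn) q)
  · obtain ⟨n, hn⟩ := h2 hc
    exact (iInf_le _ n).trans (proj_self hn).le

end Pool.Agent.CAN
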