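import Pool.Agent.CAN.TWR
import Pool.Agent.CAN.OMB
import Pool.Agent.CAN.LTH

/-!
# CAN/MCO: cofinal sequences of ordinals of a model

`ev_cof`: the set `{b | b < g, b ∈ₘ M}` is countable (`tr_countable`), contains `a` and is closed under `Order.succ` (`Ev.fn1`, `g` limit).  Enumerate
it and construct `γ` strictly increasing with `γ (n+1)` above the `n`-th element.  If `CofW g`, then by `Ev.wit1` there is
`f : ℕ → Ordinal` with `f ∈ₘ M` as in `CofW`, `f n ∈ₘ M` (`Ev.seq`), and each `b < g` is `≤ f n ≤ γ m`.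

`evT_cof`: the same along a sequence `ξ` cofinal in the limit `k`: enumerate `{b | b < g, b ∈ₘ W k}` as `b_n` (countable), let `ζ` be a
cofinal sequence in `k` (`Om.exists_cof`, `ζ 0 = i`), `ξ 0 = i`, `ξ (n+1)` above `ξ n`, `ζ (n+1)`, and so large that `b_n ∈ₘ W (ξ (n+1))` (`Tw.cont`, monotone);
`γ 0 = a`, `γ (n+1) = max (succ (γ n)) (succ b_n) ∈ₘ W (ξ (n+1))` (closure under `max`, `succ`).  If `CofW g` use `f ∈ₘ W i`.

`ev_Pd`: for `q ∈ₘ M`: if `¬ CofW g` there is `a < g` with `q ∈ S a`, so by `Ev.wit2` (relation between `g`, `q`, `a`) there is one with `a ∈ₘ M`, and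
`a ≤ γ n` gives `q ∈ S (γ n)`.  Conclude by `Pd_iInf`.
-/

set_option autoImplicit false

namespace Pool.Agent.CAN

private theorem MCO_seq {X : Set Ordinal.{0}} (hX : X.Countable) {a : Ordinal.{0}} (ha : a ∈ X)
    (hs : ∀ x ∈ X, ∀ y ∈ X, Order.succ (max x y) ∈ X) :
    ∃ γ : ℕ → Ordinal.{0}, StrictMono γ ∧ γ 0 = a ∧ (∀ n, γ n ∈ X) ∧ ∀ b ∈ X, ∃ n, b ≤ γ n := by
  obtain ⟨e, he⟩ := hX.exists_eq_range ⟨a, ha⟩
  have hmem : ∀ n, e n ∈ X := fun n => by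
    rw [he]
    exact ⟨n, rfl⟩
  let γ : ℕ → Ordinal.{0} := fun n => Nat.rec a (fun n x => Order.succ (max x (e n))) n
  have h1 : ∀ n, γ (n + 1) = Order.succ (max (γ n) (e n)) := fun n => rfl
  have h2 : ∀ n, γ n ∈ X := by
    intro n
    induction n with
    | zero => exact ha
    | succ n ih =>
      rw [h1]
      exact hs _ ih _ (hmem n)
  refine ⟨γ, strictMono_nat_of_lt_succ (fun n => ?_), rfl, h2, ?_⟩
  · rw [h1]
    exact Order.lt_succ_of_le (le_max_left _ _)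
  · intro b hb
    rw [he] at hb
    obtain ⟨n, rfl⟩ := hb
    refine ⟨n + 1, ?_⟩
    rw [h1]
    exact (le_max_right _ _).trans (Order.le_succ _)

private def MCO_rel (g : Ordinal.{0}) (f : ℕ → Ordinal.{0}) : Prop := (∀ n, f n < g) ∧ ∀ a < g, ∃ n, a ≤ f n

private structure MCO_cl (M : ZFSet.{1}) : Prop where
  ctbl : {x | x ∈ M}.Countable
  suc : ∀ x : Ordinal.{0}, InM x M → InM (Order.succ x) M
  mx : ∀ x y : Ordinal.{0}, InM x M → InM y M → InM (max x y) M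
  wit : ∀ g : Ordinal.{0}, InM g M → (∃ f, MCO_rel g f) → ∃ f, InM f M ∧ MCO_rel g f
  seq : ∀ f : ℕ → Ordinal.{0}, InM f M → ∀ n, InM (f n) M

private theorem MCO_ev : Ev MCO_cl := by
  have h := (Ev.mdl (fun _ _ => ∅)).and ((Ev.fn1 (fun a : Ordinal.{0} => Order.succ a)).and
    ((Ev.fn2 (fun a b : Ordinal.{0} => max a b)).and ((Ev.wit1 MCO_rel).and (Ev.seq Ordinal.{0}))))
  exact h.mono (fun M hM => ⟨hM.1.ctbl, hM.2.1, hM.2.2.1, hM.2.2.2.1, hM.2.2.2.2⟩)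

theorem ev_cof : Ev (fun M => ∀ g : Ordinal.{0}, InM g M → Order.IsSuccLimit g → ∀ a, a < g → InM a M →
    ∃ γ : ℕ → Ordinal.{0}, StrictMono γ ∧ γ 0 = a ∧ (∀ n, InM (γ n) M ∧ γ n < g) ∧
      (∀ b, b < g → InM b M → ∃ n, b ≤ γ n) ∧ (CofW g → ∀ b < g, ∃ n, b ≤ γ n)) := by
  refine MCO_ev.mono (fun M hM g hg hlim a hag haM => ?_)
  have hc : {b : Ordinal.{0} | b < g ∧ InM b M}.Countable :=
    (tr_countable (T := Ordinal.{0}) hM.ctbl).mono (fun b hb => hb.2)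
  obtain ⟨γ, h1, h2, h3, h4⟩ := MCO_seq hc (a := a) ⟨hag, haM⟩ (fun x hx y hy =>
    ⟨hlim.succ_lt (max_lt hx.1 hy.1), hM.suc _ (hM.mx _ _ hx.2 hy.2)⟩)
  refine ⟨γ, h1, h2, fun n => ⟨(h3 n).2, (h3 n).1⟩, fun b hb hbM => h4 b ⟨hb, hbM⟩, ?_⟩
  rintro ⟨f0, hf0⟩ b hb
  obtain ⟨f, hf, hf1, hf2⟩ := hM.wit g hg ⟨f0, hf0⟩
  obtain ⟨n, hn⟩ := hf2 b hb
  obtain ⟨m, hm⟩ := h4 (f n) ⟨hf1 n, hM.seq f hf n⟩
  exact ⟨m, hn.trans hm⟩

theorem evT_cof : EvT (fun W i => ∀ g : Ordinal.{0}, InM g (W i) → Order.IsSuccLimit g → ∀ a, a < g → InM a (W i) →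
    ∀ k, i < k → Lim k → ∃ ξ : ℕ → Om, StrictMono ξ ∧ ξ 0 = i ∧ (∀ n, ξ n < k) ∧ (∀ j, j < k → ∃ n, j < ξ n) ∧
      ∃ γ : ℕ → Ordinal.{0}, StrictMono γ ∧ γ 0 = a ∧ (∀ n, InM (γ n) (W (ξ n)) ∧ γ n < g) ∧
        (∀ b, b < g → InM b (W k) → ∃ n, b ≤ γ n) ∧ (CofW g → ∀ b < g, ∃ n, b ≤ γ n)) := by
  refine ((EvT.of_ev MCO_ev).and EvT.tw).mono (fun W i _ hW => ?_)
  obtain ⟨hcl, htw⟩ := hW
  intro g hg hlim a hag haM k hik hk
  have hmono : ∀ {T : Type 1} (x : T) {j l : Om}, j ≤ l → InM x (W j) → InM x (W l) := by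
    intro T x j l hjl hx
    exact htw.mono j l hjl hx
  have hWk := hcl k hik.le
  have hc : {b : Ordinal.{0} | b < g ∧ InM b (W k)}.Countable :=
    (tr_countable (T := Ordinal.{0}) hWk.ctbl).mono (fun b hb => hb.2)
  obtain ⟨e, he⟩ := hc.exists_eq_range ⟨a, hag, hmono a hik.le haM⟩
  have hmem : ∀ n, e n < g ∧ InM (e n) (W k) := fun n => by
    have : e n ∈ {b : Ordinal.{0} | b < g ∧ InM b (W k)} := by
      rw [he]
      exact ⟨n, rfl⟩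
    exact this
  obtain ⟨ζ, hζ1, hζ0, hζk, hζc⟩ := Om.exists_cof hk hik
  have hstep : ∀ (n : ℕ) (x : {x : Om // x < k}), ∃ y : {x : Om // x < k}, x.1 < y.1 ∧ ζ n < y.1 ∧ InM (e n) (W y.1) := by
    intro n x
    obtain ⟨j, hj, hej⟩ := htw.cont k hk _ (hmem n).2
    refine ⟨⟨(max x.1 (max (ζ n) j)).s, Om.lim_s hk (max_lt x.2 (max_lt (hζk n) hj))⟩, ?_, ?_, ?_⟩
    · exact Om.lt_s_iff.2 (le_max_left _ _)
    · exact Om.lt_s_iff.2 ((le_max_left _ _).trans (le_max_right _ _))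
    · exact htw.mono _ _ ((le_max_right _ _).trans ((le_max_right _ _).trans (Om.lt_s _).le)) hej
  choose nx hnx using hstep
  let ξ : ℕ → {x : Om // x < k} := fun n => Nat.rec ⟨i, hik⟩ (fun n x => nx n x) n
  have hξ : ∀ n, ξ (n + 1) = nx n (ξ n) := fun n => rfl
  have hξm : StrictMono (fun n => (ξ n).1) := strictMono_nat_of_lt_succ (fun n => by
    show (ξ n).1 < (ξ (n + 1)).1
    rw [hξ]
    exact (hnx n (ξ n)).1)
  have hξi : ∀ n, i ≤ (ξ n).1 := fun n => hξm.monotone (Nat.zero_le n)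
  let γ : ℕ → Ordinal.{0} := fun n => Nat.rec a (fun n x => Order.succ (max x (e n))) n
  have h1 : ∀ n, γ (n + 1) = Order.succ (max (γ n) (e n)) := fun n => rfl
  have h2 : ∀ n, InM (γ n) (W (ξ n).1) ∧ γ n < g := by
    intro n
    induction n with
    | zero => exact ⟨haM, hag⟩
    | succ n ih =>
      rw [h1]
      have h3 := hcl (ξ (n + 1)).1 (hξi (n + 1))
      refine ⟨h3.suc _ (h3.mx _ _ (hmono _ (hξm.monotone (Nat.le_succ n)) ih.1) ?_), hlim.succ_lt (max_lt ih.2 (hmem n).1)⟩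
      rw [hξ]
      exact (hnx n (ξ n)).2.2
  have h4 : ∀ b, b < g → InM b (W k) → ∃ n, b ≤ γ n := by
    intro b hb hbk
    have hb2 : b ∈ {b : Ordinal.{0} | b < g ∧ InM b (W k)} := ⟨hb, hbk⟩
    rw [he] at hb2
    obtain ⟨n, rfl⟩ := hb2
    refine ⟨n + 1, ?_⟩
    rw [h1]
    exact (le_max_right _ _).trans (Order.le_succ _)
  refine ⟨fun n => (ξ n).1, hξm, rfl, fun n => (ξ n).2, ?_, γ, strictMono_nat_of_lt_succ (fun n => ?_), rfl, h2, h4, ?_⟩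
  · intro j hj
    obtain ⟨n, hn⟩ := hζc j hj
    refine ⟨n + 1, hn.trans ?_⟩
    show ζ n < (ξ (n + 1)).1
    rw [hξ]
    exact (hnx n (ξ n)).2.1
  · rw [h1]
    exact Order.lt_succ_of_le (le_max_left _ _)
  · rintro ⟨f0, hf0⟩ b hb
    have h5 := hcl i le_rfl
    obtain ⟨f, hf, hf1, hf2⟩ := h5.wit g hg ⟨f0, hf0⟩
    obtain ⟨n, hn⟩ := hf2 b hb
    obtain ⟨m, hm⟩ := h4 (f n) (hf1 n) (hmono _ hik.le (h5.seq f hf n))
    exact ⟨m, hn.trans hm⟩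

variable {B : Type 1} [CompleteBooleanAlgebra B] {S : Ordinal.{0} → Set B}

theorem ev_Pd (hS : Chain S) : Ev (fun M => ∀ g : Ordinal.{0}, InM g M → Order.IsSuccLimit g → ∀ q ∈ Pd S g, InM q M →
    ∀ γ : ℕ → Ordinal.{0}, (∀ n, γ n < g) → (∀ b, b < g → InM b M → ∃ n, b ≤ γ n) →
      (CofW g → ∀ b < g, ∃ n, b ≤ γ n) → q = ⨅ n, proj (S (γ n)) q) := by
  refine (Ev.wit2 (fun (g : Ordinal.{0}) (q : B) (a : Ordinal.{0}) => a < g ∧ q ∈ S a)).mono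
    (fun M hM g hg hlim q hq hqM γ hγ h1 h2 => ?_)
  refine Pd_iInf hS hlim γ hγ hq h2 (fun hc => ?_)
  obtain ⟨a, ha, haq⟩ := hq.2.2 hlim hc
  obtain ⟨b, hb, hb1, hb2⟩ := hM g q hg hqM ⟨a, ha, haq⟩
  obtain ⟨n, hn⟩ := h1 b hb1 hb
  exact ⟨n, hS.mono _ _ hn hb2⟩

end Pool.Agent.CAN
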