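import Pool.Agent.CAN.PRA

/-!
# CAN/NAM: the fusion lemma with Boolean-valued choices

PROOF.  `A n` increasing complete subalgebras, `m n ∈ A n`, `Q` a countable set, `D n ⊆ Q`.
Hypotheses: (H1) for `p ∈ Q`: `m n ⊓ proj (A n) p ≤ sup {proj (A n) p' | p' ∈ D n, p' ≤ p}`;
(H2) for `p ∈ Q`: `m n ⊓ proj (A n) p ≤ proj (A n) (proj (A (n+1)) p ⊓ m (n+1))`.
We construct `c n : B → B` (only the values at elements of `Q` matter) such that
 (i) `c n p ∈ A n`, `c n p ⊓ c n p' = ⊥` for `p ≠ p'`, `c n p = ⊥` for `p ∉ Q`;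
 (ii) `c n p ≤ proj (A n) p ⊓ m n`;
 (iii) `c (n+1) p' ≤ ⨆ p, ⨆ (_ : p' ≤ p), c n p`, and `c (n+1) p' = ⊥` unless `p' ∈ D n`;
 (iv) `proj (A n) (⨆ p', c (n+1) p') = ⨆ p, c n p`.
`c 0 q = m 0 ⊓ proj (A 0) q`, and `⊥` elsewhere.  Given `c n`: let `e : ℕ → B` enumerate `Q` (nonempty).  For `p, p'` put
`c' p p' = c n p ⊓ proj (A n) p' \ ⨆ {proj (A n) (e k) | k < idx p', e k ∈ D n, e k ≤ p}` if `p' ∈ D n`, `p' ≤ p`, and `⊥` otherwise
(`idx p'` the least `k` with `e k = p'`).  For fixed `p` these are disjoint with supremum `c n p` by (H1) (a supremum of a sequence is the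
supremum of the disjointified sequence).  `c (n+1) p' = (⨆ p, c' p p') ⊓ proj (A (n+1)) p' ⊓ m (n+1)`.
(iv): `⨆ p, c' p p' ∈ A n` is below `m n ⊓ proj (A n) p'`, so by (H2) and `proj_inf`
`proj (A n) (c (n+1) p') = (⨆ p, c' p p') ⊓ proj (A n) (proj (A (n+1)) p' ⊓ m (n+1)) = ⨆ p, c' p p'`.
Put `r n = ⨆ p, c n p`.  Let `R = ⨅ n, r n`.  From (i),(iii) by induction on `m ≥ n`: `c m p'' ≤ ⨆ p ≥ p'', c n p`, so
`c m p'' ⊓ c n p = ⊥` unless `p'' ≤ p`.  Hence `r m ⊓ c n p ≤ ⨆ {c m p'' | p'' ≤ p} ≤ proj (A m) p`, for `m ≥ n`; for `m ≤ n`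
`c n p ≤ proj (A n) p ≤ proj (A m) p` (`proj_anti`).  So `R ⊓ c n p ≤ ⨅ m, proj (A m) p` for all `n, p`.  As `R ≤ r 0 = c 0 q` we get the
first estimate, and from `R ≤ r (n+1) = ⨆ p' ∈ D n, c (n+1) p'` the second one.
-/

set_option autoImplicit false

namespace Pool.Agent.CAN

variable {B : Type 1} [CompleteBooleanAlgebra B]

section aux

/-- the elements to be disjointified -/
private noncomputable def NAM_g (A : ℕ → Set B) (D : ℕ → Set B) (e : ℕ → B) (n k : ℕ) : ℕ → B := by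
  classical exact fun k' => if e k' ∈ D n ∧ e k' ≤ e k then proj (A n) (e k') else ⊥

/-- the Boolean-valued choices -/
private noncomputable def NAM_c (A : ℕ → Set B) (m : ℕ → B) (D : ℕ → Set B) (e : ℕ → B) (k0 : ℕ) :
    ℕ → ℕ → B
  | 0 => fun k => if k = k0 then m 0 ⊓ proj (A 0) (e k0) else ⊥
  | n + 1 => fun k' => (⨆ k, NAM_c A m D e k0 n k ⊓ disjointed (NAM_g A D e n k) k') ⊓
      (proj (A (n + 1)) (e k') ⊓ m (n + 1))

private theorem NAM_g_pos {A : ℕ → Set B} {D : ℕ → Set B} {e : ℕ → B} {n k k' : ℕ}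
    (h : e k' ∈ D n ∧ e k' ≤ e k) : NAM_g A D e n k k' = proj (A n) (e k') := by
  unfold NAM_g
  rw [if_pos h]

private theorem NAM_g_neg {A : ℕ → Set B} {D : ℕ → Set B} {e : ℕ → B} {n k k' : ℕ}
    (h : ¬ (e k' ∈ D n ∧ e k' ≤ e k)) : NAM_g A D e n k k' = ⊥ := by
  unfold NAM_g
  rw [if_neg h]

private theorem NAM_dj_mem {A : ℕ → Set B} (hA : ∀ n, CSub (A n)) {D : ℕ → Set B} {e : ℕ → B}
    (n k k' : ℕ) : disjointed (NAM_g A D e n k) k' ∈ A n := by
  have hg : ∀ i, NAM_g A D e n k i ∈ A n := by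
    intro i
    by_cases h : e i ∈ D n ∧ e i ≤ e k
    · rw [NAM_g_pos h]
      exact proj_mem (hA n) _
    · rw [NAM_g_neg h]
      exact (hA n).bot
  refine disjointedRec (p := fun t => t ∈ A n) (fun t i ht => ?_) (hg k')
  show t \ NAM_g A D e n k i ∈ A n
  rw [sdiff_eq]
  exact (hA n).and ht ((hA n).compl _ (hg i))

private theorem NAM_dj_le {A : ℕ → Set B} {D : ℕ → Set B} {e : ℕ → B} (n k k' : ℕ) :
    disjointed (NAM_g A D e n k) k' ≤ NAM_g A D e n k k' := disjointed_le _ _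

variable {A : ℕ → Set B} {m : ℕ → B} {D : ℕ → Set B} {e : ℕ → B} {k0 : ℕ}

private theorem NAM_mem (hA : ∀ n, CSub (A n)) (hmono : ∀ n, A n ⊆ A (n + 1))
    (hm : ∀ n, m n ∈ A n) (n : ℕ) : ∀ k, NAM_c A m D e k0 n k ∈ A n := by
  induction n with
  | zero =>
    intro k
    show (if k = k0 then m 0 ⊓ proj (A 0) (e k0) else ⊥) ∈ A 0
    split_ifs
    · exact (hA 0).and (hm 0) (proj_mem (hA 0) _)
    · exact (hA 0).bot
  | succ n ih =>
    intro k'
    show (⨆ k, NAM_c A m D e k0 n k ⊓ disjointed (NAM_g A D e n k) k') ⊓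
      (proj (A (n + 1)) (e k') ⊓ m (n + 1)) ∈ A (n + 1)
    refine (hA (n + 1)).and ((hA (n + 1)).iSup fun k => ?_)
      ((hA (n + 1)).and (proj_mem (hA (n + 1)) _) (hm (n + 1)))
    exact hmono n ((hA n).and (ih k) (NAM_dj_mem hA n k k'))

private theorem NAM_le_m (n k : ℕ) : NAM_c A m D e k0 n k ≤ m n := by
  cases n with
  | zero =>
    show (if k = k0 then m 0 ⊓ proj (A 0) (e k0) else ⊥) ≤ m 0
    split_ifs
    · exact inf_le_left
    · exact bot_le
  | succ n =>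
    show (⨆ j, NAM_c A m D e k0 n j ⊓ disjointed (NAM_g A D e n j) k) ⊓
      (proj (A (n + 1)) (e k) ⊓ m (n + 1)) ≤ m (n + 1)
    exact inf_le_right.trans inf_le_right

private theorem NAM_le_proj (n k : ℕ) : NAM_c A m D e k0 n k ≤ proj (A n) (e k) := by
  cases n with
  | zero =>
    show (if k = k0 then m 0 ⊓ proj (A 0) (e k0) else ⊥) ≤ proj (A 0) (e k)
    split_ifs with h
    · rw [h]
      exact inf_le_right
    · exact bot_le
  | succ n =>
    show (⨆ j, NAM_c A m D e k0 n j ⊓ disjointed (NAM_g A D e n j) k) ⊓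
      (proj (A (n + 1)) (e k) ⊓ m (n + 1)) ≤ proj (A (n + 1)) (e k)
    exact inf_le_right.trans inf_le_left

private theorem NAM_disj (n : ℕ) : ∀ k k', k ≠ k' →
    Disjoint (NAM_c A m D e k0 n k) (NAM_c A m D e k0 n k') := by
  induction n with
  | zero =>
    intro k k' hne
    show Disjoint (if k = k0 then m 0 ⊓ proj (A 0) (e k0) else ⊥)
      (if k' = k0 then m 0 ⊓ proj (A 0) (e k0) else ⊥)
    by_cases h : k = k0
    · rw [if_neg (show k' ≠ k0 from fun h' => hne (h.trans h'.symm))]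
      exact disjoint_bot_right
    · rw [if_neg h]
      exact disjoint_bot_left
  | succ n ih =>
    intro k k' hne
    refine Disjoint.mono (inf_le_left : NAM_c A m D e k0 (n + 1) k ≤
      ⨆ j, NAM_c A m D e k0 n j ⊓ disjointed (NAM_g A D e n j) k)
      (inf_le_left : NAM_c A m D e k0 (n + 1) k' ≤
      ⨆ j, NAM_c A m D e k0 n j ⊓ disjointed (NAM_g A D e n j) k') ?_
    rw [iSup_disjoint_iff]
    intro i
    rw [disjoint_iSup_iff]
    intro j
    by_cases hij : i = j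
    · subst hij
      exact Disjoint.mono inf_le_right inf_le_right (disjoint_disjointed (NAM_g A D e n i) hne)
    · exact Disjoint.mono inf_le_left inf_le_left (ih i j hij)

private theorem NAM_step_le (n k' : ℕ) : NAM_c A m D e k0 (n + 1) k' ≤
    ⨆ (k : ℕ) (_ : e k' ≤ e k), NAM_c A m D e k0 n k := by
  refine (inf_le_left : NAM_c A m D e k0 (n + 1) k' ≤
      ⨆ j, NAM_c A m D e k0 n j ⊓ disjointed (NAM_g A D e n j) k').trans (iSup_le fun k => ?_)
  by_cases h : e k' ∈ D n ∧ e k' ≤ e k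
  · exact inf_le_left.trans (le_iSup₂ (f := fun (k : ℕ) (_ : e k' ≤ e k) => NAM_c A m D e k0 n k) k h.2)
  · have h1 : disjointed (NAM_g A D e n k) k' ≤ ⊥ := by
      rw [← NAM_g_neg (A := A) (k := k) h]
      exact NAM_dj_le n k k'
    exact (inf_le_right.trans h1).trans bot_le

private theorem NAM_bot (n k' : ℕ) (h : e k' ∉ D n) : NAM_c A m D e k0 (n + 1) k' = ⊥ := by
  refine le_bot_iff.mp ((inf_le_left : NAM_c A m D e k0 (n + 1) k' ≤
      ⨆ j, NAM_c A m D e k0 n j ⊓ disjointed (NAM_g A D e n j) k').trans (iSup_le fun k => ?_))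
  have h1 : disjointed (NAM_g A D e n k) k' ≤ ⊥ := by
    rw [← NAM_g_neg (A := A) (k := k) (fun h' => h h'.1)]
    exact NAM_dj_le n k k'
  exact inf_le_right.trans h1

private theorem NAM_proj (hA : ∀ n, CSub (A n)) (hmono : ∀ n, A n ⊆ A (n + 1))
    (hm : ∀ n, m n ∈ A n)
    (H2 : ∀ n k, m n ⊓ proj (A n) (e k) ≤ proj (A n) (proj (A (n + 1)) (e k) ⊓ m (n + 1)))
    (n k' : ℕ) : proj (A n) (NAM_c A m D e k0 (n + 1) k') =
      ⨆ j, NAM_c A m D e k0 n j ⊓ disjointed (NAM_g A D e n j) k' := by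
  have hs : (⨆ j, NAM_c A m D e k0 n j ⊓ disjointed (NAM_g A D e n j) k') ∈ A n :=
    (hA n).iSup fun k => (hA n).and (NAM_mem hA hmono hm n k) (NAM_dj_mem hA n k k')
  show proj (A n) ((⨆ j, NAM_c A m D e k0 n j ⊓ disjointed (NAM_g A D e n j) k') ⊓
      (proj (A (n + 1)) (e k') ⊓ m (n + 1))) = _
  rw [proj_inf (hA n) hs]
  refine inf_eq_left.mpr (le_trans ?_ (H2 n k'))
  refine iSup_le fun k => le_inf (inf_le_left.trans (NAM_le_m n k)) ?_
  refine inf_le_right.trans ((NAM_dj_le n k k').trans ?_)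
  by_cases h : e k' ∈ D n ∧ e k' ≤ e k
  · rw [NAM_g_pos h]
  · rw [NAM_g_neg h]
    exact bot_le

private theorem NAM_later {n l : ℕ} (hnl : n ≤ l) : ∀ k'', NAM_c A m D e k0 l k'' ≤
    ⨆ (k : ℕ) (_ : e k'' ≤ e k), NAM_c A m D e k0 n k := by
  induction l, hnl using Nat.le_induction with
  | base =>
    intro k''
    exact le_iSup₂ (f := fun (k : ℕ) (_ : e k'' ≤ e k) => NAM_c A m D e k0 n k) k'' le_rfl
  | succ l _ ih =>
    intro k''
    refine (NAM_step_le l k'').trans (iSup₂_le fun k' hk' => (ih k').trans (iSup₂_le fun k hk => ?_))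
    exact le_iSup₂ (f := fun (k : ℕ) (_ : e k'' ≤ e k) => NAM_c A m D e k0 n k) k (hk'.trans hk)

private theorem NAM_key (hmono : ∀ n, A n ⊆ A (n + 1)) (n k l : ℕ) :
    (⨆ j, NAM_c A m D e k0 l j) ⊓ NAM_c A m D e k0 n k ≤ proj (A l) (e k) := by
  rcases le_total n l with h | h
  · rw [iSup_inf_eq]
    refine iSup_le fun k'' => ?_
    by_cases hk : e k'' ≤ e k
    · exact inf_le_left.trans ((NAM_le_proj l k'').trans (proj_mono hk))
    · have h1 : Disjoint (NAM_c A m D e k0 l k'') (NAM_c A m D e k0 n k) := by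
        refine Disjoint.mono_left (NAM_later h k'') ?_
        rw [iSup₂_disjoint_iff]
        intro k' hk'
        refine NAM_disj n k' k ?_
        rintro rfl
        exact hk hk'
      rw [h1.eq_bot]
      exact bot_le
  · have h2 : A l ⊆ A n := by
      induction n, h using Nat.le_induction with
      | base => exact le_rfl
      | succ n _ ih => exact ih.trans (hmono n)
    exact inf_le_right.trans ((NAM_le_proj n k).trans (proj_anti h2 _))

end aux

theorem fusion_names (A : ℕ → Set B) (hA : ∀ n, CSub (A n)) (hmono : ∀ n, A n ⊆ A (n + 1)) (m : ℕ → B)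
    (hm : ∀ n, m n ∈ A n) (Q : Set B) (hQ : Q.Countable) (D : ℕ → Set B) (hD : ∀ n, D n ⊆ Q)
    (H1 : ∀ n, ∀ p ∈ Q, m n ⊓ proj (A n) p ≤ ⨆ (p' : B) (_ : p' ∈ D n) (_ : p' ≤ p), proj (A n) p')
    (H2 : ∀ n, ∀ p ∈ Q, m n ⊓ proj (A n) p ≤ proj (A n) (proj (A (n + 1)) p ⊓ m (n + 1)))
    (q : B) (hq : q ∈ Q) :
    ∃ r : ℕ → B, (∀ n, r n ∈ A n ∧ r n ≤ m n) ∧ (∀ n, proj (A n) (r (n + 1)) = r n) ∧
      r 0 = m 0 ⊓ proj (A 0) q ∧ (⨅ n, r n) ≤ (⨅ n, proj (A n) q) ∧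
      ∀ n, (⨅ k, r k) ≤ ⨆ (p' : B) (_ : p' ∈ D n), ⨅ k, proj (A k) p' := by
  obtain ⟨e, he⟩ := hQ.exists_eq_range ⟨q, hq⟩
  have heQ : ∀ k, e k ∈ Q := fun k => by rw [he]; exact ⟨k, rfl⟩
  obtain ⟨k0, hk0⟩ : ∃ k, e k = q := by
    rw [he] at hq
    exact hq
  have H2' : ∀ n k, m n ⊓ proj (A n) (e k) ≤ proj (A n) (proj (A (n + 1)) (e k) ⊓ m (n + 1)) :=
    fun n k => H2 n (e k) (heQ k)
  have hr0 : (⨆ k, NAM_c A m D e k0 0 k) = NAM_c A m D e k0 0 k0 := by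
    refine le_antisymm (iSup_le fun k => ?_) (le_iSup (fun k => NAM_c A m D e k0 0 k) k0)
    show (if k = k0 then m 0 ⊓ proj (A 0) (e k0) else ⊥) ≤
      (if k0 = k0 then m 0 ⊓ proj (A 0) (e k0) else ⊥)
    rw [if_pos rfl]
    split_ifs
    · exact le_rfl
    · exact bot_le
  have hc0 : NAM_c A m D e k0 0 k0 = m 0 ⊓ proj (A 0) q := by
    show (if k0 = k0 then m 0 ⊓ proj (A 0) (e k0) else ⊥) = _
    rw [if_pos rfl, hk0]
  have hkey : ∀ n k, (⨅ l, ⨆ j, NAM_c A m D e k0 l j) ⊓ NAM_c A m D e k0 n k ≤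
      ⨅ l, proj (A l) (e k) := by
    intro n k
    refine le_iInf fun l => le_trans ?_ (NAM_key (m := m) (D := D) (k0 := k0) hmono n k l)
    exact inf_le_inf_right _ (iInf_le _ l)
  refine ⟨fun n => ⨆ k, NAM_c A m D e k0 n k, fun n => ⟨?_, ?_⟩, fun n => ?_, ?_, ?_, fun n => ?_⟩
  · exact (hA n).iSup fun k => NAM_mem hA hmono hm n k
  · exact iSup_le fun k => NAM_le_m n k
  · show proj (A n) (⨆ k, NAM_c A m D e k0 (n + 1) k) = ⨆ k, NAM_c A m D e k0 n k
    rw [proj_iSup (hA n)]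
    simp_rw [NAM_proj (m := m) (D := D) (k0 := k0) hA hmono hm H2' n]
    rw [iSup_comm]
    refine iSup_congr fun k => ?_
    rw [← inf_iSup_eq, iSup_disjointed]
    refine inf_eq_left.mpr ?_
    refine (le_inf (NAM_le_m n k) (NAM_le_proj n k)).trans ((H1 n (e k) (heQ k)).trans ?_)
    refine iSup_le fun p' => iSup_le fun hp' => iSup_le fun hle => ?_
    obtain ⟨k', hk'⟩ : ∃ k', e k' = p' := by
      have := hD n hp'
      rw [he] at this
      exact this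
    subst hk'
    rw [← NAM_g_pos (A := A) ⟨hp', hle⟩]
    exact le_iSup (NAM_g A D e n k) k'
  · show (⨆ k, NAM_c A m D e k0 0 k) = m 0 ⊓ proj (A 0) q
    rw [hr0, hc0]
  · have h1 : (⨅ l, ⨆ j, NAM_c A m D e k0 l j) ≤ NAM_c A m D e k0 0 k0 := by
      rw [← hr0]
      exact iInf_le _ 0
    rw [← hk0]
    exact (le_inf le_rfl h1).trans (hkey 0 k0)
  · have h1 : (⨅ l, ⨆ j, NAM_c A m D e k0 l j) ≤ ⨆ k, NAM_c A m D e k0 (n + 1) k := iInf_le _ (n + 1)
    refine (le_inf le_rfl h1).trans ?_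
    rw [inf_iSup_eq]
    refine iSup_le fun k' => ?_
    by_cases h : e k' ∈ D n
    · exact (hkey (n + 1) k').trans (le_iSup₂ (f := fun (p' : B) (_ : p' ∈ D n) =>
        ⨅ k, proj (A k) p') (e k') h)
    · rw [NAM_bot n k' h, inf_bot_eq]
      exact bot_le

end Pool.Agent.CAN
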