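import Pool.Agent.CAN.PTD

/-!
# CAN/PTH: `PPs (S a) (S b)` for all `a ≤ b`

`pt_limit`: by `pps_of_pt` the hypothesis gives `PPs (S a) (S b) W k` for all `k ≥ i`, `a ≤ b < g`, `a, b ∈ₘ W k`.  Show `PTx S g W i' j` for all
`i ≤ i' ≤ j` by induction on `j` (`Om.cases`, strong induction): if `i' = j` it is `pt_one` for the model `W j` (`ggen_self`; the hypothesis of `pt_one`
is `PPs (S a) (S b) W j` for the interval `[j, j]`); if `j = k.s`, `i' ≤ k`, use `ptx_succ` (with `PTx S g W k.s k.s` from `pt_one`); if `j` is a limit, `i' < j`, `ptx_lim`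
(for the tower from `i'` on: use `TwF.shift`, all `EvT` facts are used in their shifted form `EvT.shift`).
`chain_pp`: let `F` be an operation for the conjunction of `pt_succ`, `pt_limit`, `pps_of_pt`.  By strong induction on `g`:
for all `W, i` with `TwF F W i` and `g ∈ₘ W i`: `PT S g W i`.  (`g = 0`: no `a < g`; successor; limit.)  Then `pps_of_pt`.
-/

set_option autoImplicit false

namespace Pool.Agent.CAN

variable {B : Type 1} [CompleteBooleanAlgebra B] {S : Ordinal.{0} → Set B}

theorem pt_limit (hS : Chain S) : EvT (fun W i => ∀ g : Ordinal.{0}, InM g (W i) → Order.IsSuccLimit g →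
    (∀ g' < g, ∀ k, i ≤ k → InM g' (W k) → PT S g' W k) → PT S g W i) := by
  refine (((pps_of_pt hS).shift).and ((EvT.of_ev (pt_one hS)).and ((ptx_succ hS).and
    ((ptx_lim hS).shift)))).mono fun W i hW H g hg hlim hIH => ?_
  obtain ⟨H1, H2, H3, H4⟩ := H
  have hup : ∀ {k l : Om} {x : Ordinal.{0}}, k ≤ l → InM x (W k) → InM x (W l) :=
    fun {k l x} hkl hx => hW.mono k l hkl hx
  have hPP : ∀ k, i ≤ k → ∀ a b, a ≤ b → b < g → InM a (W k) → InM b (W k) → PPs (S a) (S b) W k :=
    fun k hik a b hab hbg ha hb => H1 k hik b hb (hIH b hbg k hik hb) a hab ha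
  have hone : ∀ k, i ≤ k → PTx S g W k k := by
    intro k hik a hag ha q hq hqW
    have h5 := H2 k hik g (hup hik hg) hlim (fun a b hab hbg ha hb x hx hxW => by
      have h6 := hPP k hik a b hab hbg ha hb k le_rfl x hx hxW
      rwa [ggen_self, ggen_self] at h6) a hag ha q hq hqW
    rw [ggen_self, ggen_self]
    exact h5
  have hall : ∀ j i', i ≤ i' → i' ≤ j → PTx S g W i' j := by
    intro j
    induction j using WellFoundedLT.induction with
    | ind j ih =>
      intro i' hi hj
      rcases hj.eq_or_lt with rfl | hlt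
      · exact hone i' hi
      rcases Om.cases j with rfl | ⟨k, rfl⟩ | hL
      · exact absurd hlt (not_lt.2 (Om.z_le i'))
      · have hik : i' ≤ k := Om.lt_s_iff.1 hlt
        exact H3 g hg i' k hi hik (ih k (Om.lt_s k) i' hi hik)
          (hone k.s (hi.trans (hik.trans (Om.lt_s k).le)))
      · exact H4 i' hi g (hup hi hg) hlim (fun k hk => hPP k (hi.trans hk)) j hlt hL
          (fun i'' j' h1 h2 h3 => ih j' h3 i'' (hi.trans h1) h2)
  intro j hij
  exact hall j i le_rfl hij

theorem chain_pp (hS : Chain S) : EvT (fun W i => ∀ a b : Ordinal.{0}, a ≤ b → InM a (W i) → InM b (W i) →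
    PPs (S a) (S b) W i) := by
  obtain ⟨F, hF⟩ := (pt_succ hS).and ((pt_limit hS).and (pps_of_pt hS))
  refine ⟨F, fun W i hW a b hab ha hb => ?_⟩
  have key : ∀ g : Ordinal.{0}, ∀ k, TwF F W k → InM g (W k) → PT S g W k := by
    intro g
    induction g using WellFoundedLT.induction with
    | ind g ih =>
      intro k hk hg
      rcases Ordinal.zero_or_succ_or_isSuccLimit g with rfl | ⟨b, rfl⟩ | hL
      · intro j _ a ha
        exact absurd ha (not_lt.2 zero_le)
      · exact (hF W k hk).1 b hg (fun l hkl hbl => ih b (Order.lt_succ b) l (hk.shift hkl) hbl)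
      · exact (hF W k hk).2.1 g hg hL (fun g' hg' l hkl hgl => ih g' hg' l (hk.shift hkl) hgl)
  exact (hF W i hW).2.2 b hb (key b i hW hb) a hab ha

end Pool.Agent.CAN
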