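import Pool.Agent.CAN.NCH
import Pool.Agent.CAN.PTH

/-!
# CAN/NTB: no new sequences, limit stage

PROOF.  `γ` from `ev_cof` for `M` (`γ 0 = a`).  Let `E n` enumerate the `E : Set B`, `E ∈ₘ M`, `E ⊆ S g`, `sSup E = ⊤` (countable, contains `{⊤}`).
`p_0 ∈ Pd S g`, `p_0 ∈ₘ M`, `p_0 ≤ q`, `proj (S a) p_0 ∈ G` (`ev_genF_sup`).  Recursively: `k_n` (start), `G_n ∈ₘ W k_n`, `GenF (S (γ n)) M G_n`, `p_n ∈ Pd S g`, `p_n ∈ₘ M`,
`proj (S (γ n)) p_n ∈ G_n`; `k_0 = i`, `G_0 = G`.  Step: `p_{n+1} ≤ p_n` in `Pd S g`, `∈ₘ M`, below an element of `E n`, `proj (S (γ n)) p_{n+1} ∈ G_n` (`ev_genF_dense`);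
`nns_choice` for `(γ n, γ (n+1))`, tower from `k_n` on, filter `G_n` and the element `proj (S (γ (n+1))) p_{n+1}` (`proj_proj`): `j_n ≥ k_n`, `G_{n+1} ∈ₘ W j_n.s`,
`proj (S (γ (n+1))) p_{n+1} ∈ G_{n+1}`, `G_n ⊆ G_{n+1}`, `sInf G_n ⊓ ggen (S (γ n)) W k_n j_n ≤ proj (S (γ n)) (sInf G_{n+1})`; `k_{n+1} = j_n.s`.
`k` is strictly increasing; let `j` be its supremum (`Om.exists_sup`), so `j_n < k_{n+1} < j`.
`t n = sInf G_n ⊓ ggen (S (γ n)) W k_n j ∈ S (γ n)`.  By `PPs (S (γ n)) (S (γ (n+1))) W k_{n+1}` for the element `sInf G_{n+1} ∈ₘ W k_{n+1}`: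
`t n ≤ proj (S (γ n)) (sInf G_{n+1}) ⊓ ggen (S (γ n)) W k_{n+1} j ≤ proj (S (γ n)) (sInf G_{n+1} ⊓ ggen (S (γ (n+1))) W k_{n+1} j) = proj (S (γ n)) (t (n+1))`.
`exists_thread`, `thread_inf`: `r`, `ρ = ⨅ n, r n ∈ Pd S g`, `proj (S a) ρ = t 0 = sInf G ⊓ ggen (S a) W i j`.
`G' = {x ∈ S g | x ∈ₘ M, ∃ n, p_n ≤ x}`.  `GenF (S g) M G'`: `⊥ ∉ G'` since `proj (S (γ n)) p_n ∈ G_n`, so `p_n ≠ ⊥`; directed because `p` is decreasing; meets `E n`: the element `e ∈ E n` with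
`p_{n+1} ≤ e` can be chosen `∈ₘ M` (`Ev.wit2`).  `G ⊆ G'`: let `x ∈ G`; apply genericity to `E n = {x, xᶜ} ⊆ S g`: `p_{n+1} ≤ x` or `p_{n+1} ≤ xᶜ`; in the second case
`proj (S a) p_{n+1} ≤ xᶜ` (`x ∈ S a`), but `proj (S a) p_{n+1} ≥ proj (S (γ n)) p_{n+1}`... more precisely `proj (S a) p_{n+1} ∈ G`: (claim `proj (S a) p_n ∈ G` for all `n`:
it is in `S a ∩ M`, `GenF (S a) M G` is an ultrafilter of `S a ∩ M` (`ev_genF`) so otherwise its complement `y` is in `G ⊆ G_n`, but `proj (S (γ n)) p_n ∈ G_n` and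
`y ⊓ proj (S (γ n)) p_n = proj (S (γ n)) (y ⊓ p_n) = ⊥`), so `x ⊓ proj (S a) p_{n+1} ∈ G` is not `⊥`.  Contradiction.  `q ∈ G'` as `p_0 ≤ q`.
`ρ ≤ p_m` for all `m`: for `n ≥ m`, `ρ ≤ r n ≤ sInf G_n ≤ proj (S (γ n)) p_n ≤ proj (S (γ n)) p_m`, and `p_m = ⨅ n, proj (S (γ n)) p_m` (`ev_Pd`; for `n < m` use `proj_anti`).
So `ρ ≤ sInf G'` and `t 0 = proj (S a) ρ ≤ proj (S a) (sInf G')`.
-/

set_option autoImplicit false

namespace Pool.Agent.CAN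

variable {B : Type 1} [CompleteBooleanAlgebra B] {S : Ordinal.{0} → Set B}

/-- all facts about `M` used -/
private structure NTB_M (S : Ordinal.{0} → Set B) (M : ZFSet.{1}) : Prop where
  cof : ∀ g : Ordinal.{0}, InM g M → Order.IsSuccLimit g → ∀ a, a < g → InM a M →
    ∃ γ : ℕ → Ordinal.{0}, StrictMono γ ∧ γ 0 = a ∧ (∀ n, InM (γ n) M ∧ γ n < g) ∧
      (∀ b, b < g → InM b M → ∃ n, b ≤ γ n) ∧ (CofW g → ∀ b < g, ∃ n, b ≤ γ n)
  pd : ∀ g : Ordinal.{0}, InM g M → Order.IsSuccLimit g → ∀ q ∈ Pd S g, InM q M →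
    ∀ γ : ℕ → Ordinal.{0}, (∀ n, γ n < g) → (∀ b, b < g → InM b M → ∃ n, b ≤ γ n) →
      (CofW g → ∀ b < g, ∃ n, b ≤ γ n) → q = ⨅ n, proj (S (γ n)) q
  sup : ∀ b g : Ordinal.{0}, b ≤ g → InM b M → InM g M →
    ∀ G : Set B, GenF (S b) M G → ∀ q ∈ S g, InM q M → proj (S b) q ∈ G →
    ∃ p ∈ Pd S g, InM p M ∧ p ≤ q ∧ proj (S b) p ∈ G
  den : ∀ b g : Ordinal.{0}, b ≤ g → InM b M → InM g M →
    ∀ E : Set B, InM E M → E ⊆ S g → sSup E = ⊤ → ∀ G : Set B, GenF (S b) M G → ∀ p ∈ Pd S g, InM p M → proj (S b) p ∈ G →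
    ∃ p' ∈ Pd S g, InM p' M ∧ p' ≤ p ∧ (∃ e ∈ E, p' ≤ e) ∧ proj (S b) p' ∈ G
  dec : ∀ A : Set B, CSub A → ∀ G, GenF A M G → ∀ x ∈ A, InM x M → (x ∈ G ∨ xᶜ ∈ G)
  pr : ∀ (b : Ordinal.{0}) (x : B), InM b M → InM x M → InM (proj (S b) x) M
  wit : ∀ (E : Set B) (p : B), InM E M → InM p M → (∃ e, e ∈ E ∧ p ≤ e) → ∃ e, InM e M ∧ e ∈ E ∧ p ≤ e
  pair : ∀ x : B, InM x M → InM ({x, xᶜ} : Set B) M
  top : InM ({⊤} : Set B) M
  inf : ∀ x y : B, InM x M → InM y M → InM (x ⊓ y) M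
  ct : {x | x ∈ M}.Countable

private theorem NTB_ev (hS : Chain S) : Ev (NTB_M S) := by
  have h1 := ev_cof.and ((ev_Pd hS).and ((ev_genF_sup hS).and ((ev_genF_dense hS).and ((ev_genF (B := B)).and
    ((Ev.fn2 (fun (b : Ordinal.{0}) (x : B) => proj (S b) x)).and
    ((Ev.wit2 (fun (E : Set B) (p : B) (e : B) => e ∈ E ∧ p ≤ e)).and
    ((Ev.fn1 (fun x : B => ({x, xᶜ} : Set B))).and
    ((Ev.const ({⊤} : Set B)).and ((Ev.fn2 (fun x y : B => x ⊓ y)).and (Ev.mdl (fun _ _ => ∅)))))))))))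
  refine h1.mono ?_
  rintro M ⟨a1, a2, a3, a4, a5, a6, a7, a8, a9, a10, a11⟩
  exact ⟨a1, a2, a3, a4, fun A hA G hG => (a5 A hA G hG).2.1, a6, a7, a8, a9, a10, a11.ctbl⟩

/-- the invariant of the construction -/
private structure NTB_I (S : Ordinal.{0} → Set B) (M : ZFSet.{1}) (W : Om → ZFSet.{1}) (i : Om) (g b : Ordinal.{0})
    (x : Om × Set B × B) : Prop where
  le : i ≤ x.1
  mem : InM x.2.1 (W x.1)
  gen : GenF (S b) M x.2.1
  pd : x.2.2 ∈ Pd S g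
  pM : InM x.2.2 M
  pG : proj (S b) x.2.2 ∈ x.2.1

/-- the step of the construction -/
private structure NTB_S (S : Ordinal.{0} → Set B) (W : Om → ZFSet.{1}) (b : Ordinal.{0})
    (E : Set B) (x y : Om × Set B × B) : Prop where
  ex : ∃ j, x.1 ≤ j ∧ y.1 = j.s ∧ sInf x.2.1 ⊓ ggen (S b) W x.1 j ≤ proj (S b) (sInf y.2.1)
  le : y.2.2 ≤ x.2.2
  ine : ∃ e ∈ E, y.2.2 ≤ e
  sub : x.2.1 ⊆ y.2.1

theorem nt_limit (hS : Chain S) : EvN (fun M W i => ∀ g : Ordinal.{0}, InM g M → Order.IsSuccLimit g →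
    (∀ k, i ≤ k → ∀ a b : Ordinal.{0}, a ≤ b → b < g → InM a M → InM b M → PPs (S a) (S b) W k ∧ NNs (S a) (S b) M W k) →
    ∀ a, a < g → InM a M → NNs (S a) (S g) M W i) := by
  have hN := (EvN.of_ev (NTB_ev hS)).and (EvN.sub.and ((nns_choice S hS.sub).shift.and
    (EvN.of_evT (EvT.of_ev (Ev.fn1 (fun x : Set B => sInf x))))))
  refine hN.mono ?_
  rintro M W i hW ⟨hM, ⟨-, -, hsub⟩, hch, hinf⟩ g hgM hg hyp a hag haM G hGW hG q hq hqM hqG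
  obtain ⟨γ, hγ, hγ0, hγM, hcof, hcof'⟩ := hM.cof g hgM hg a hag haM
  have hlt : ∀ n, γ n < g := fun n => (hγM n).2
  -- the dense sets
  have hEc : {E : Set B | InM E M ∧ E ⊆ S g ∧ sSup E = ⊤}.Countable := by
    have h1 : {E : Set B | InM E M}.Countable := tr_countable hM.ct
    exact h1.mono fun E hE => hE.1
  have hEn : {E : Set B | InM E M ∧ E ⊆ S g ∧ sSup E = ⊤}.Nonempty :=
    ⟨{⊤}, hM.top, Set.singleton_subset_iff.2 (hS.sub g).top, sSup_singleton⟩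
  obtain ⟨E, hE⟩ := hEc.exists_eq_range hEn
  have hEm : ∀ n, InM (E n) M ∧ E n ⊆ S g ∧ sSup (E n) = ⊤ := fun n => by
    have : E n ∈ {E : Set B | InM E M ∧ E ⊆ S g ∧ sSup E = ⊤} := by
      rw [hE]
      exact ⟨n, rfl⟩
    exact this
  -- start
  obtain ⟨p0, hp0, hp0M, hp0q, hp0G⟩ := hM.sup a g hag.le haM hgM G hG q hq hqM hqG
  have hx0 : NTB_I S M W i g (γ 0) (i, G, p0) := by
    rw [hγ0]
    exact ⟨le_rfl, hGW, hG, hp0, hp0M, hp0G⟩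
  -- step
  have hstep : ∀ (n : ℕ) (x : {x : Om × Set B × B // NTB_I S M W i g (γ n) x}),
      ∃ y : {y : Om × Set B × B // NTB_I S M W i g (γ (n + 1)) y}, NTB_S S W (γ n) (E n) x.1 y.1 := by
    rintro n ⟨⟨k, H, p⟩, hx⟩
    obtain ⟨hk, hHW, hH, hp, hpM, hpH⟩ := hx
    simp only at hk hHW hH hp hpM hpH
    obtain ⟨p', hp', hp'M, hp'p, hp'e, hp'H⟩ := hM.den (γ n) g (hlt n).le (hγM n).1 hgM (E n) (hEm n).1 (hEm n).2.1
      (hEm n).2.2 H hH p hp hpM hpH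
    have hle : γ n ≤ γ (n + 1) := (hγ (Nat.lt_succ_self n)).le
    have hsubS : S (γ n) ⊆ S (γ (n + 1)) := hS.mono _ _ hle
    have hq' : proj (S (γ n)) (proj (S (γ (n + 1))) p') ∈ H := by
      rw [proj_proj (hS.sub _) (hS.sub _) hsubS]
      exact hp'H
    obtain ⟨j, hkj, H', hH'W, hH', hqH', hHH', hle'⟩ := hch k hk (γ n) (γ (n + 1)) (hγM n).1 (hγM (n + 1)).1
      (hyp k hk (γ n) (γ (n + 1)) hle (hlt _) (hγM n).1 (hγM (n + 1)).1).2 H hHW hH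
      (proj (S (γ (n + 1))) p') (proj_mem (hS.sub _) _) (hM.pr _ _ (hγM (n + 1)).1 hp'M) hq'
    refine ⟨⟨(j.s, H', p'), ⟨hk.trans (hkj.trans (Om.lt_s j).le), hH'W, hH', hp', hp'M, hqH'⟩⟩, ?_⟩
    exact ⟨⟨j, hkj, rfl, hle'⟩, hp'p, hp'e, hHH'⟩
  choose f hf using hstep
  let s : (n : ℕ) → {x : Om × Set B × B // NTB_I S M W i g (γ n) x} := fun n => Nat.rec ⟨(i, G, p0), hx0⟩ (fun n x => f n x) n
  obtain ⟨k, hk⟩ : ∃ k : ℕ → Om, k = fun n => (s n).1.1 := ⟨_, rfl⟩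
  obtain ⟨H, hH⟩ : ∃ H : ℕ → Set B, H = fun n => (s n).1.2.1 := ⟨_, rfl⟩
  obtain ⟨p, hp⟩ : ∃ p : ℕ → B, p = fun n => (s n).1.2.2 := ⟨_, rfl⟩
  have hk0 : k 0 = i := by rw [hk]; rfl
  have hH0 : H 0 = G := by rw [hH]; rfl
  have hpz : p 0 = p0 := by rw [hp]; rfl
  have hI : ∀ n, NTB_I S M W i g (γ n) (k n, H n, p n) := fun n => by
    rw [hk, hH, hp]
    exact (s n).2
  have hSt : ∀ n, NTB_S S W (γ n) (E n) (k n, H n, p n) (k (n + 1), H (n + 1), p (n + 1)) := fun n => by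
    rw [hk, hH, hp]
    exact hf n (s n)
  clear_value s
  have hkm : StrictMono k := by
    refine strictMono_nat_of_lt_succ fun n => ?_
    obtain ⟨j, h1, h2, -⟩ := (hSt n).ex
    simp only at h1 h2
    rw [h2]
    exact lt_of_le_of_lt h1 (Om.lt_s j)
  obtain ⟨J, -, hkJ, -⟩ := Om.exists_sup k hkm
  have hHsub : ∀ n, H n ⊆ S (γ n) := fun n x hx => ((hI n).gen.sub x hx).1
  have hinfmem : ∀ n, sInf (H n) ∈ S (γ n) := fun n => (hS.sub _).inf' (hHsub n)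
  -- the elements t n
  obtain ⟨t, ht⟩ : ∃ t : ℕ → B, t = fun n => sInf (H n) ⊓ ggen (S (γ n)) W (k n) J := ⟨_, rfl⟩
  have htm : ∀ n, t n ∈ S (γ n) := fun n => by
    rw [ht]
    exact (hS.sub _).and (hinfmem n) (ggen_mem (hS.sub _) _ _ _)
  have htn : ∀ n, t n ≤ proj (S (γ n)) (t (n + 1)) := by
    intro n
    obtain ⟨j, h1, h2, h3⟩ := (hSt n).ex
    simp only at h1 h2 h3
    have hle : γ n ≤ γ (n + 1) := (hγ (Nat.lt_succ_self n)).le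
    have hjJ : j ≤ J := by
      have h4 := hkJ (n + 1)
      rw [h2] at h4
      exact ((Om.lt_s j).trans h4).le
    have hi1 : i ≤ k (n + 1) := (hI (n + 1)).le
    have hpp := (hyp (k (n + 1)) hi1 (γ n) (γ (n + 1)) hle (hlt _) (hγM n).1 (hγM (n + 1)).1).1 J (hkJ _).le
      (sInf (H (n + 1))) (hinfmem _) (hinf (k (n + 1)) hi1 _ (hI (n + 1)).mem)
    have e1 : t n ≤ proj (S (γ n)) (sInf (H (n + 1))) := by
      refine le_trans ?_ h3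
      rw [ht]
      exact inf_le_inf_left _ (ggen_anti W le_rfl hjJ)
    have e2 : t n ≤ ggen (S (γ n)) W (k (n + 1)) J := by
      rw [ht]
      exact inf_le_right.trans (ggen_anti W (hkm (Nat.lt_succ_self n)).le le_rfl)
    refine (le_inf e2 e1).trans (hpp.trans ?_)
    rw [ht]
  obtain ⟨r, hr, hr0, hrp, -⟩ := exists_thread (fun n => S (γ n)) (fun n => hS.sub _)
    (fun n => hS.mono _ _ (hγ (Nat.lt_succ_self n)).le) t htm htn
  obtain ⟨-, hρ⟩ := thread_inf hS hg γ hγ hlt hcof' r (fun n => (hr n).1) hrp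
  -- properties of p
  have hpa : Antitone p := antitone_nat_of_succ_le fun n => (hSt n).le
  have hpne : ∀ n, p n ≠ ⊥ := by
    intro n h
    have h1 := (hI n).pG
    simp only at h1
    rw [h, proj_bot (hS.sub _)] at h1
    exact (hI n).gen.bot h1
  have hHm : Monotone H := monotone_nat_of_le_succ fun n => (hSt n).sub
  have hclaim : ∀ n, proj (S a) (p n) ∈ G := by
    intro n
    rcases hM.dec (S a) (hS.sub a) G hG _ (proj_mem (hS.sub a) (p n)) (hM.pr a _ haM (hI n).pM) with h | h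
    · exact h
    · exfalso
      have h1 : (proj (S a) (p n))ᶜ ∈ H n := hHm (Nat.zero_le n) (by rw [hH0]; exact h)
      have h2 := (hI n).gen.inf _ h1 _ (hI n).pG
      simp only at h2
      have h3 : (proj (S a) (p n))ᶜ ∈ S (γ n) := hHsub n h1
      rw [← proj_inf (hS.sub _) h3] at h2
      have h4 : (proj (S a) (p n))ᶜ ⊓ p n = ⊥ := by
        rw [eq_bot_iff, ← compl_inf_eq_bot (a := proj (S a) (p n))]
        exact inf_le_inf_left _ (le_proj _)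
      rw [h4, proj_bot (hS.sub _)] at h2
      exact (hI n).gen.bot h2
  refine ⟨J, ?_, {x | x ∈ S g ∧ InM x M ∧ ∃ n, p n ≤ x}, ⟨?_, ?_, ?_, ?_, ?_⟩, ?_, ?_, ?_⟩
  · rw [← hk0]
    exact (hkJ 0).le
  · rintro x ⟨h1, h2, -⟩
    exact ⟨h1, h2⟩
  · rintro x ⟨-, -, n, h3⟩ y hy hyM hxy
    exact ⟨hy, hyM, n, h3.trans hxy⟩
  · rintro x ⟨h1, h2, n, h3⟩ y ⟨h4, h5, m, h6⟩
    refine ⟨(hS.sub g).and h1 h4, hM.inf _ _ h2 h5, max n m, le_inf ?_ ?_⟩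
    · exact (hpa (le_max_left n m)).trans h3
    · exact (hpa (le_max_right n m)).trans h6
  · rintro ⟨-, -, n, h3⟩
    exact hpne n (le_bot_iff.1 h3)
  · intro D hD hDg hD1
    have h1 : D ∈ {E : Set B | InM E M ∧ E ⊆ S g ∧ sSup E = ⊤} := ⟨hD, hDg, hD1⟩
    rw [hE] at h1
    obtain ⟨n, rfl⟩ := h1
    obtain ⟨e, he, hpe⟩ := (hSt n).ine
    obtain ⟨e', he'M, he', hpe'⟩ := hM.wit (E n) (p (n + 1)) hD (hI (n + 1)).pM ⟨e, he, hpe⟩
    exact ⟨e', he', hDg he', he'M, n + 1, hpe'⟩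
  · exact ⟨hq, hqM, 0, by rw [hpz]; exact hp0q⟩
  · intro x hx
    obtain ⟨hxa, hxM⟩ := hG.sub x hx
    have hxg : x ∈ S g := hS.mono a g hag.le hxa
    refine ⟨hxg, hxM, ?_⟩
    have h1 : ({x, xᶜ} : Set B) ∈ {E : Set B | InM E M ∧ E ⊆ S g ∧ sSup E = ⊤} := by
      refine ⟨hM.pair x hxM, ?_, ?_⟩
      · rintro y (rfl | rfl)
        · exact hxg
        · exact (hS.sub g).compl _ hxg
      · rw [sSup_pair, sup_compl_eq_top]
    rw [hE] at h1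
    obtain ⟨n, hn⟩ := h1
    obtain ⟨e, he, hpe⟩ := (hSt n).ine
    simp only at hpe
    rw [hn] at he
    rcases he with rfl | he
    · exact ⟨n + 1, hpe⟩
    · exfalso
      rw [Set.mem_singleton_iff.1 he] at hpe
      have h2 : proj (S a) (p (n + 1)) ≤ xᶜ := proj_le ((hS.sub a).compl _ hxa) hpe
      have h3 := hG.inf _ hx _ (hclaim (n + 1))
      have h4 : x ⊓ proj (S a) (p (n + 1)) = ⊥ := by
        rw [eq_bot_iff, ← inf_compl_eq_bot (a := x)]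
        exact inf_le_inf_left _ h2
      rw [h4] at h3
      exact hG.bot h3
  · have hρle : (⨅ m, r m) ≤ sInf {x | x ∈ S g ∧ InM x M ∧ ∃ n, p n ≤ x} := by
      refine le_sInf ?_
      rintro x ⟨-, -, m, hmx⟩
      refine le_trans ?_ hmx
      rw [hM.pd g hgM hg (p m) (hI m).pd (hI m).pM γ hlt hcof hcof']
      refine le_iInf fun n => ?_
      have e1 : ∀ l, (⨅ m, r m) ≤ proj (S (γ l)) (p l) := by
        intro l
        refine (iInf_le r l).trans ((hr l).2.trans ?_)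
        rw [ht]
        exact inf_le_left.trans (sInf_le (hI l).pG)
      rcases le_total m n with hmn | hmn
      · exact (e1 n).trans (proj_mono (hpa hmn))
      · exact (e1 m).trans (proj_anti (hS.mono _ _ (hγ.monotone hmn)) _)
    have h1 := hρ 0
    rw [hr0, ht] at h1
    simp only at h1
    rw [hγ0, hH0, hk0] at h1
    rw [← h1]
    exact proj_mono hρle

end Pool.Agent.CAN
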