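import Pool.Agent.CAN.LTH
import Pool.Agent.CAN.GNF

/-!
# CAN/PTA: dense sets

PROOF of `ev_gen_dense`.  Put `D = {proj (S b) p' | p' ∈ Pd S g, p' ≤ p, ∃ e ∈ E, p' ≤ e} ∪ {(proj (S b) p)ᶜ} ⊆ S b`.  It is `∈ₘ M` (a function of
`b, g, E, p`, `Ev.fn4`).  `sSup D = ⊤`: the sup of the `p'` is `p` (if `p ⊓ (sup)ᶜ ≠ ⊥`, it meets some `e ∈ E` as `sSup E = ⊤`, and there is a
nonzero element of `Pd S g` below the meet, `Pd_dense`), and `proj` commutes with sups (`proj_sSup`).  So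
`gen (S b) M ≤ sSup {d ∈ D | d ∈ₘ M}` and `gen (S b) M ⊓ proj (S b) p ≤ sSup {d ∈ D | d ∈ₘ M, d ≠ (proj (S b) p)ᶜ}`; each such `d ∈ₘ M` is
`proj (S b) p'` for some `p' ∈ₘ M` with the required properties (`Ev.wit5` for the relation between `b, g, E, p, d` and `p'`).
`ev_genF_dense`: the same set `D` and `GenF.meet`; `(proj (S b) p)ᶜ ∉ G`.
`ev_gen_sup`: for `q ∈ S g` the set `{proj (S b) p | p ∈ Pd S g, p ≤ q} ∪ {(proj (S b) q)ᶜ}`; sup by `Pd_sSup`.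
`ev_gen_of_Pd`: if `p ∈ Pd S g`, `p ∈ₘ M`, `p ≤ e ∈ E` then there is such an `e ∈ₘ M` (`Ev.wit`).
-/

set_option autoImplicit false

namespace Pool.Agent.CAN

variable {B : Type 1} [CompleteBooleanAlgebra B] {S : Ordinal.{0} → Set B}

private theorem PTA_top {A : Set B} (hA : CSub A) {X : Set B} {p : B} (h : p ≤ sSup X) :
    sSup ({d | ∃ x ∈ X, d = proj A x} ∪ {(proj A p)ᶜ}) = ⊤ := by
  rw [eq_top_iff, ← sup_compl_eq_top (x := proj A p)]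
  refine sup_le ?_ (le_sSup (Or.inr rfl))
  refine (proj_mono h).trans ?_
  rw [proj_sSup hA]
  refine sSup_le ?_
  rintro _ ⟨x, hx, rfl⟩
  exact le_sSup (Or.inl ⟨x, hx, rfl⟩)

private theorem PTA_main {A : Set B} (hA : CSub A) {M : ZFSet.{1}} {X : Set B} {p : B} (hp : p ≤ sSup X)
    (hD : InM (({d | ∃ x ∈ X, d = proj A x} ∪ {(proj A p)ᶜ} : Set B)) M)
    (hw : ∀ d, InM d M → (∃ x, x ∈ X ∧ d = proj A x) → ∃ x, InM x M ∧ x ∈ X ∧ d = proj A x) :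
    (gen A M ⊓ proj A p ≤ ⨆ (x : B) (_ : x ∈ X ∧ InM x M), proj A x) ∧
      ∀ G, GenF A M G → proj A p ∈ G → ∃ x ∈ X, InM x M ∧ proj A x ∈ G := by
  have hDA : ({d | ∃ x ∈ X, d = proj A x} ∪ {(proj A p)ᶜ} : Set B) ⊆ A := by
    rintro d (⟨x, _, rfl⟩ | rfl)
    · exact proj_mem hA x
    · exact hA.compl _ (proj_mem hA p)
  constructor
  · have h1 := gen_le hD hDA (PTA_top hA hp)
    refine (inf_le_inf_right _ h1).trans ?_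
    rw [sSup_inf_eq]
    refine iSup₂_le ?_
    rintro d ⟨hd | hd, hdM⟩
    · obtain ⟨x, hx⟩ := hd
      obtain ⟨y, hyM, hyX, rfl⟩ := hw d hdM ⟨x, hx⟩
      exact inf_le_left.trans (le_iSup₂_of_le y ⟨hyX, hyM⟩ le_rfl)
    · rw [Set.mem_singleton_iff.1 hd, compl_inf_eq_bot]
      exact bot_le
  · intro G hG hpG
    obtain ⟨d, hd, hdG⟩ := hG.meet _ hD hDA (PTA_top hA hp)
    rcases hd with hd | hd
    · obtain ⟨x, hx⟩ := hd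
      obtain ⟨y, hyM, hyX, rfl⟩ := hw d (hG.sub d hdG).2 ⟨x, hx⟩
      exact ⟨y, hyX, hyM, hdG⟩
    · rw [Set.mem_singleton_iff.1 hd] at hdG
      exfalso
      apply hG.bot
      have h2 := hG.inf _ hpG _ hdG
      rwa [inf_compl_eq_bot] at h2

/-- the elements of `Pd` below `p` and an element of `E` -/
private def PTA_X (S : Ordinal.{0} → Set B) (g : Ordinal.{0}) (E : Set B) (p : B) : Set B :=
  {p' | p' ∈ Pd S g ∧ p' ≤ p ∧ ∃ e ∈ E, p' ≤ e}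

private theorem PTA_sup (hS : Chain S) {g : Ordinal.{0}} {E : Set B} (hE : E ⊆ S g) (hE' : sSup E = ⊤) {p : B}
    (hp : p ∈ S g) : p ≤ sSup (PTA_X S g E p) := by
  by_contra hcon
  have hX : sSup (PTA_X S g E p) ∈ S g := (hS.sub g).sup _ fun x hx => Pd_sub g hx.1
  have h0 : p ⊓ (sSup (PTA_X S g E p))ᶜ ≠ ⊥ := by
    intro h
    apply hcon
    exact disjoint_compl_right_iff.1 (disjoint_iff.2 h)
  have h1 : ∃ e ∈ E, (p ⊓ (sSup (PTA_X S g E p))ᶜ) ⊓ e ≠ ⊥ := by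
    by_contra hc
    push Not at hc
    apply h0
    rw [← inf_top_eq (a := p ⊓ (sSup (PTA_X S g E p))ᶜ), ← hE', inf_sSup_eq]
    rw [eq_bot_iff]
    exact iSup₂_le fun e he => (hc e he).le
  obtain ⟨e, he, h2⟩ := h1
  obtain ⟨y, hy, hy0, hy1⟩ := Pd_dense hS g ((hS.sub g).and ((hS.sub g).and hp ((hS.sub g).compl _ hX)) (hE he)) h2
  have h3 : y ≤ sSup (PTA_X S g E p) :=
    le_sSup ⟨hy, hy1.trans (inf_le_left.trans inf_le_left), e, he, hy1.trans inf_le_right⟩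
  have h4 : y ≤ (sSup (PTA_X S g E p))ᶜ := hy1.trans (inf_le_left.trans inf_le_right)
  apply hy0
  rw [eq_bot_iff, ← inf_compl_eq_bot (a := sSup (PTA_X S g E p))]
  exact le_inf h3 h4

theorem ev_gen_dense (hS : Chain S) : Ev (fun M => ∀ b g : Ordinal.{0}, b ≤ g → InM b M → InM g M →
    ∀ E : Set B, InM E M → E ⊆ S g → sSup E = ⊤ → ∀ p ∈ Pd S g, InM p M →
    gen (S b) M ⊓ proj (S b) p ≤
      ⨆ (p' : B) (_ : p' ∈ Pd S g ∧ InM p' M ∧ p' ≤ p ∧ ∃ e ∈ E, p' ≤ e), proj (S b) p') := by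
  refine ((Ev.fn4 (fun (b g : Ordinal.{0}) (E : Set B) (p : B) =>
    ({d | ∃ x ∈ PTA_X S g E p, d = proj (S b) x} ∪ {(proj (S b) p)ᶜ} : Set B))).and
    (Ev.wit5 (fun (b g : Ordinal.{0}) (E : Set B) (p : B) (d : B) (x : B) =>
      x ∈ PTA_X S g E p ∧ d = proj (S b) x))).mono ?_
  rintro M ⟨h1, h2⟩ b g hbg hb hg E hE hES hE1 p hp hpM
  have h3 := (PTA_main (hS.sub b) (PTA_sup hS hES hE1 (Pd_sub g hp)) (h1 b g E p hb hg hE hpM)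
    (fun d hd hx => h2 b g E p d hb hg hE hpM hd hx)).1
  refine h3.trans (iSup₂_le ?_)
  rintro x ⟨hx, hxM⟩
  exact le_iSup₂_of_le x ⟨hx.1, hxM, hx.2⟩ le_rfl

theorem ev_genF_dense (hS : Chain S) : Ev (fun M => ∀ b g : Ordinal.{0}, b ≤ g → InM b M → InM g M →
    ∀ E : Set B, InM E M → E ⊆ S g → sSup E = ⊤ → ∀ G : Set B, GenF (S b) M G → ∀ p ∈ Pd S g, InM p M → proj (S b) p ∈ G →
    ∃ p' ∈ Pd S g, InM p' M ∧ p' ≤ p ∧ (∃ e ∈ E, p' ≤ e) ∧ proj (S b) p' ∈ G) := by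
  refine ((Ev.fn4 (fun (b g : Ordinal.{0}) (E : Set B) (p : B) =>
    ({d | ∃ x ∈ PTA_X S g E p, d = proj (S b) x} ∪ {(proj (S b) p)ᶜ} : Set B))).and
    (Ev.wit5 (fun (b g : Ordinal.{0}) (E : Set B) (p : B) (d : B) (x : B) =>
      x ∈ PTA_X S g E p ∧ d = proj (S b) x))).mono ?_
  rintro M ⟨h1, h2⟩ b g hbg hb hg E hE hES hE1 G hG p hp hpM hpG
  obtain ⟨x, hx, hxM, hxG⟩ := (PTA_main (hS.sub b) (PTA_sup hS hES hE1 (Pd_sub g hp)) (h1 b g E p hb hg hE hpM)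
    (fun d hd hx => h2 b g E p d hb hg hE hpM hd hx)).2 G hG hpG
  exact ⟨x, hx.1, hxM, hx.2.1, hx.2.2, hxG⟩

theorem ev_gen_sup (hS : Chain S) : Ev (fun M => ∀ b g : Ordinal.{0}, b ≤ g → InM b M → InM g M →
    ∀ q ∈ S g, InM q M → gen (S b) M ⊓ proj (S b) q ≤ ⨆ (p : B) (_ : p ∈ Pd S g ∧ InM p M ∧ p ≤ q), proj (S b) p) := by
  refine ((Ev.fn3 (fun (b g : Ordinal.{0}) (p : B) =>
    ({d | ∃ x ∈ {y | y ∈ Pd S g ∧ y ≤ p}, d = proj (S b) x} ∪ {(proj (S b) p)ᶜ} : Set B))).and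
    (Ev.wit4 (fun (b g : Ordinal.{0}) (p : B) (d : B) (x : B) =>
      x ∈ {y | y ∈ Pd S g ∧ y ≤ p} ∧ d = proj (S b) x))).mono ?_
  rintro M ⟨h1, h2⟩ b g hbg hb hg q hq hqM
  have h3 := (PTA_main (hS.sub b) (Pd_sSup hS g hq).ge (h1 b g q hb hg hqM)
    (fun d hd hx => h2 b g q d hb hg hqM hd hx)).1
  refine h3.trans (iSup₂_le ?_)
  rintro x ⟨hx, hxM⟩
  exact le_iSup₂_of_le x ⟨hx.1, hxM, hx.2⟩ le_rfl

theorem ev_genF_sup (hS : Chain S) : Ev (fun M => ∀ b g : Ordinal.{0}, b ≤ g → InM b M → InM g M →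
    ∀ G : Set B, GenF (S b) M G → ∀ q ∈ S g, InM q M → proj (S b) q ∈ G →
    ∃ p ∈ Pd S g, InM p M ∧ p ≤ q ∧ proj (S b) p ∈ G) := by
  refine ((Ev.fn3 (fun (b g : Ordinal.{0}) (p : B) =>
    ({d | ∃ x ∈ {y | y ∈ Pd S g ∧ y ≤ p}, d = proj (S b) x} ∪ {(proj (S b) p)ᶜ} : Set B))).and
    (Ev.wit4 (fun (b g : Ordinal.{0}) (p : B) (d : B) (x : B) =>
      x ∈ {y | y ∈ Pd S g ∧ y ≤ p} ∧ d = proj (S b) x))).mono ?_
  rintro M ⟨h1, h2⟩ b g hbg hb hg G hG q hq hqM hqG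
  obtain ⟨x, hx, hxM, hxG⟩ := (PTA_main (hS.sub b) (Pd_sSup hS g hq).ge (h1 b g q hb hg hqM)
    (fun d hd hx => h2 b g q d hb hg hqM hd hx)).2 G hG hqG
  exact ⟨x, hx.1, hxM, hx.2, hxG⟩

theorem ev_gen_of_Pd (hS : Chain S) : Ev (fun M => ∀ g : Ordinal.{0}, ∀ r : B,
    (∀ E : Set B, InM E M → E ⊆ S g → sSup E = ⊤ → r ≤ ⨆ (p : B) (_ : p ∈ Pd S g ∧ InM p M ∧ ∃ e ∈ E, p ≤ e), p) →
    r ≤ gen (S g) M) := by
  refine (Ev.wit2 (fun (D : Set B) (p : B) (e : B) => e ∈ D ∧ p ≤ e)).mono ?_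
  intro M h1 g r hr
  refine le_gen fun D hD hDS hD1 => ?_
  refine (hr D hD hDS hD1).trans (iSup₂_le ?_)
  rintro p ⟨_, hpM, e, he, hpe⟩
  obtain ⟨e', he'M, he', hpe'⟩ := h1 D p hD hpM ⟨e, he, hpe⟩
  exact hpe'.trans (le_sSup ⟨he', he'M⟩)

end Pool.Agent.CAN
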