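import Pool.Agent.CAN.NAM
import Pool.Agent.CAN.MCO
import Pool.Agent.CAN.PTA

/-!
# CAN/PTB: limit stage, one model

PROOF.  `γ` from `ev_cof` (`γ 0 = a`).  `A n = S (γ n)`, `m n = gen (S (γ n)) M`, `Q = {p ∈ Pd S g | p ∈ₘ M}` (countable).  The set of the
`E : Set B` with `E ∈ₘ M`, `E ⊆ S g`, `sSup E = ⊤` is countable and nonempty (`{⊤}`), let `E n` enumerate it and
`D n = {p ∈ Q | ∃ e ∈ E n, p ≤ e}`.  (H1) is `ev_gen_dense` with `b = γ n`, (H2) the hypothesis for `γ n ≤ γ (n+1)` and the element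
`proj (S (γ (n+1))) p ∈ₘ M` (closure under `(a, x) ↦ proj (S a) x`), using `proj_proj`.  `fusion_names` gives `r`; `thread_inf`:
`q' = ⨅ n, r n ∈ Pd S g` and `proj (S a) q' = r 0 = gen (S a) M ⊓ proj (S a) q`.  `q' ≤ ⨅ n, proj (S (γ n)) q = q` (`ev_Pd`).
`q' ≤ ⨆ p' ∈ D n, ⨅ k, proj (S (γ k)) p' = ⨆ p' ∈ D n, p'` (`ev_Pd`), so `q' ≤ gen (S g) M` by `ev_gen_of_Pd`.
-/

set_option autoImplicit false

namespace Pool.Agent.CAN

variable {B : Type 1} [CompleteBooleanAlgebra B] {S : Ordinal.{0} → Set B}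

theorem pt_one (hS : Chain S) : Ev (fun M => ∀ g : Ordinal.{0}, InM g M → Order.IsSuccLimit g →
    (∀ a b : Ordinal.{0}, a ≤ b → b < g → InM a M → InM b M → ∀ x ∈ S b, InM x M →
      gen (S a) M ⊓ proj (S a) x ≤ proj (S a) (x ⊓ gen (S b) M)) →
    ∀ a, a < g → InM a M → ∀ q ∈ Pd S g, InM q M →
      ∃ q' ∈ Pd S g, q' ≤ q ⊓ gen (S g) M ∧ gen (S a) M ⊓ proj (S a) q ≤ proj (S a) q') := by
  refine (((Ev.mdl (fun _ _ => ∅)).and (ev_cof.and (ev_gen_dense hS))).and ((ev_Pd hS).and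
    ((ev_gen_of_Pd hS).and ((Ev.const ({⊤} : Set B)).and
      (Ev.fn2 (fun (a : Ordinal.{0}) (x : B) => proj (S a) x)))))).mono ?_
  rintro M ⟨⟨hM, hcof, hden⟩, hPd, hof, htop, hproj⟩ g hgM hg hyp a hag haM q hq hqM
  obtain ⟨γ, hγ, hγ0, hγM, hγc, hγw⟩ := hcof g hgM hg a hag haM
  have hlt : ∀ n, γ n < g := fun n => (hγM n).2
  have hQ : {p : B | p ∈ Pd S g ∧ InM p M}.Countable :=
    (tr_countable (T := B) hM.ctbl).mono (fun p hp => hp.2)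
  have hE : {E : Set B | InM E M ∧ E ⊆ S g ∧ sSup E = ⊤}.Countable :=
    (tr_countable (T := Set B) hM.ctbl).mono (fun p hp => hp.1)
  obtain ⟨E, hEr⟩ := hE.exists_eq_range ⟨{⊤}, htop, by
    rintro x hx
    rw [Set.mem_singleton_iff.1 hx]
    exact (hS.sub g).top, sSup_singleton⟩
  have hEn : ∀ n, InM (E n) M ∧ E n ⊆ S g ∧ sSup (E n) = ⊤ := by
    intro n
    have h1 : E n ∈ {E : Set B | InM E M ∧ E ⊆ S g ∧ sSup E = ⊤} := by
      rw [hEr]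
      exact ⟨n, rfl⟩
    exact h1
  have hself : ∀ p ∈ {p : B | p ∈ Pd S g ∧ InM p M}, p = ⨅ n, proj (S (γ n)) p := fun p hp =>
    hPd g hgM hg p hp.1 hp.2 γ hlt hγc hγw
  obtain ⟨r, hr1, hr2, hr3, hr4, hr5⟩ := fusion_names (fun n => S (γ n)) (fun n => hS.sub (γ n))
    (fun n => hS.mono _ _ (hγ.monotone (Nat.le_succ n))) (fun n => gen (S (γ n)) M)
    (fun n => gen_mem (hS.sub (γ n)) M) {p : B | p ∈ Pd S g ∧ InM p M} hQ
    (fun n => {p : B | p ∈ {p : B | p ∈ Pd S g ∧ InM p M} ∧ ∃ e ∈ E n, p ≤ e}) (fun n p hp => hp.1)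
    (by
      intro n p hp
      refine (hden (γ n) g (hlt n).le (hγM n).1 hgM (E n) (hEn n).1 (hEn n).2.1 (hEn n).2.2 p hp.1 hp.2).trans ?_
      refine iSup₂_le ?_
      rintro p' ⟨h1, h2, h3, h4⟩
      exact le_iSup₂_of_le p' ⟨⟨h1, h2⟩, h4⟩ (le_iSup_of_le h3 le_rfl))
    (by
      intro n p hp
      have h1 := hyp (γ n) (γ (n + 1)) (hγ.monotone (Nat.le_succ n)) (hlt _) (hγM n).1 (hγM (n + 1)).1
        (proj (S (γ (n + 1))) p) (proj_mem (hS.sub _) _) (hproj _ _ (hγM (n + 1)).1 hp.2)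
      rw [proj_proj (hS.sub _) (hS.sub _) (hS.mono _ _ (hγ.monotone (Nat.le_succ n)))] at h1
      exact h1) q ⟨hq, hqM⟩
  obtain ⟨hq1, hq2⟩ := thread_inf hS hg γ hγ hlt hγw r (fun n => (hr1 n).1) hr2
  refine ⟨⨅ n, r n, hq1, le_inf ?_ ?_, ?_⟩
  · exact hr4.trans (hself q ⟨hq, hqM⟩).ge
  · refine hof g _ fun F hFM hFS hF1 => ?_
    have h1 : F ∈ {E : Set B | InM E M ∧ E ⊆ S g ∧ sSup E = ⊤} := ⟨hFM, hFS, hF1⟩
    rw [hEr] at h1
    obtain ⟨n, rfl⟩ := h1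
    refine (hr5 n).trans (iSup₂_le ?_)
    rintro p ⟨hp, hpe⟩
    rw [← hself p hp]
    exact le_iSup₂_of_le p ⟨hp.1, hp.2, hpe⟩ le_rfl
  · have h1 := hq2 0
    rw [hγ0] at h1
    rw [h1, hr3]
    simp only [hγ0]
    exact le_rfl

end Pool.Agent.CAN
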