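import Pool.Agent.CAN.TWR
import Pool.Agent.CAN.PTA

/-!
# CAN/PTC: from `PT` to `PPs`, the successor stage

`pps_of_pt`: for `q ∈ S g`, `q ∈ₘ W i`: `ggen (S a) W i j ≤ gen (S a) (W i)`, so by `ev_gen_sup`
`ggen (S a) W i j ⊓ proj (S a) q ≤ ⨆ p, proj (S a) p ⊓ ggen (S a) W i j` over `p ∈ Pd S g`, `p ∈ₘ W i`, `p ≤ q`; and for each `p` by `PT` there is `q' ≤ p ⊓ ggen (S g) W i j`
with `ggen (S a) W i j ⊓ proj (S a) p ≤ proj (S a) q' ≤ proj (S a) (q ⊓ ggen (S g) W i j)`.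
`pps_self`: `proj A q = q`.
`pps_comp` (composition, for a family `S : T → Set B`): `q ∈ S c`, `q ∈ₘ W i`; `x = proj (S b) q ∈ₘ W i` (closure under `(b, q) ↦ proj (S b) q`).
`ggen (S b) ⊓ x ≤ proj (S b) (q ⊓ ggen (S c))` and `ggen (S a) ⊓ proj (S a) x ≤ proj (S a) (x ⊓ ggen (S b)) ≤ proj (S a) (proj (S b) (q ⊓ ggen (S c)))`, `proj_proj`.
`pt_succ`: `Pd S (succ b) = S (succ b)`; `b ∈ₘ W i` since `b = pred (succ b)` (a function, `Ev.fn1`); `PPs (S a) (S b) W i` from `pps_of_pt`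
or `pps_self`, `PPs (S b) (S (succ b)) W i` by `hS.step b` (`EvT.diag` over `b`), composition; then `q' = q ⊓ ggen (S (succ b)) W i j`.
-/

set_option autoImplicit false

namespace Pool.Agent.CAN

variable {B : Type 1} [CompleteBooleanAlgebra B]

theorem pps_self {A : Set B} (hA : CSub A) (W : Om → ZFSet.{1}) (i : Om) : PPs A A W i := by
  intro j _ q hq _
  rw [proj_self hq, proj_self (hA.and hq (ggen_mem hA W i j)), inf_comm]

theorem pps_comp {T : Type 1} (S : T → Set B) (hS : ∀ a, CSub (S a)) :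
    EvT (fun W i => ∀ a b c : T, S a ⊆ S b → S b ⊆ S c → InM b (W i) → PPs (S a) (S b) W i → PPs (S b) (S c) W i →
      PPs (S a) (S c) W i) := by
  have h := EvT.of_ev (Ev.fn2 (fun (b : T) (q : B) => proj (S b) q))
  refine h.mono fun W i hW h1 a b c hab hbc hb p1 p2 j hij q hq hqW => ?_
  have hx : InM (proj (S b) q) (W i) := h1 i le_rfl b q hb hqW
  have e1 := p2 j hij q hq hqW
  have e2 := p1 j hij (proj (S b) q) (proj_mem (hS b) q) hx
  rw [proj_proj (hS a) (hS b) hab] at e2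
  refine e2.trans ?_
  rw [← proj_proj (hS a) (hS b) hab (q ⊓ ggen (S c) W i j)]
  refine proj_mono ?_
  rw [inf_comm]
  exact e1

variable {S : Ordinal.{0} → Set B}

theorem pps_of_pt (hS : Chain S) : EvT (fun W i => ∀ g : Ordinal.{0}, InM g (W i) → PT S g W i →
    ∀ a, a ≤ g → InM a (W i) → PPs (S a) (S g) W i) := by
  refine (EvT.of_ev (ev_gen_sup hS)).mono fun W i hW h1 g hg hPT a hag ha => ?_
  rcases hag.eq_or_lt with rfl | hlt
  · exact pps_self (hS.sub a) W i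
  intro j hij q hq hqW
  have e1 := h1 i le_rfl a g hag ha hg q hq hqW
  have e2 : ggen (S a) W i j ⊓ proj (S a) q ≤
      ggen (S a) W i j ⊓ ⨆ (p : B) (_ : p ∈ Pd S g ∧ InM p (W i) ∧ p ≤ q), proj (S a) p := by
    refine le_inf inf_le_left (le_trans ?_ e1)
    exact inf_le_inf_right _ (ggen_le le_rfl hij)
  refine e2.trans ?_
  rw [inf_iSup₂_eq]
  refine iSup₂_le fun p hp => ?_
  obtain ⟨q', _, hq', hle⟩ := hPT j hij a hlt ha p hp.1 hp.2.1
  refine hle.trans (proj_mono (hq'.trans ?_))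
  exact inf_le_inf_right _ hp.2.2

theorem pt_succ (hS : Chain S) : EvT (fun W i => ∀ b : Ordinal.{0}, InM (Order.succ b) (W i) →
    (∀ k, i ≤ k → InM b (W k) → PT S b W k) → PT S (Order.succ b) W i) := by
  have h1 : EvT (fun W i => ∀ b : Ordinal.{0}, InM b (W i) → PPs (S b) (S (Order.succ b)) W i) :=
    EvT.diag fun b => (hS.step b).pp
  have h2 := EvT.of_ev (Ev.wit1 (fun x y : Ordinal.{0} => Order.succ y = x))
  refine (h1.and (h2.and ((pps_of_pt hS).and (pps_comp S hS.sub)))).mono fun W i hW H b hb hPT => ?_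
  obtain ⟨H1, H2, H3, H4⟩ := H
  have hbW : InM b (W i) := by
    obtain ⟨y, hy, hy'⟩ := H2 i le_rfl (Order.succ b) hb ⟨b, rfl⟩
    rw [← Order.succ_injective hy']
    exact hy
  intro j hij a ha haW q hq hqW
  have hab : a ≤ b := Order.lt_succ_iff.1 ha
  have hP : PPs (S a) (S (Order.succ b)) W i :=
    H4 a b (Order.succ b) (hS.mono a b hab) (hS.mono b _ (Order.le_succ b)) hbW
      (H3 b hbW (hPT i le_rfl hbW) a hab haW) (H1 b hbW)
  have hqS : q ∈ S (Order.succ b) := Pd_sub _ hq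
  refine ⟨q ⊓ ggen (S (Order.succ b)) W i j, ?_, le_rfl, hP j hij q hqS hqW⟩
  rw [Pd_eq (Order.not_isSuccLimit_succ b)]
  exact (hS.sub _).and hqS (ggen_mem (hS.sub _) W i j)

end Pool.Agent.CAN
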