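import Pool.Agent.CAN.PRA

/-!
# CAN/THR: threads

PROOF.  `r 0 = t 0`, `r (n+1) = r n ⊓ t (n+1)`.  `r n ∈ A n` and `r n ≤ t n`.
`proj (A n) (r (n+1)) = r n ⊓ proj (A n) (t (n+1))` (`proj_inf`, `r n ∈ A n`) `= r n` since `r n ≤ t n ≤ proj (A n) (t (n+1))`.
-/

set_option autoImplicit false

namespace Pool.Agent.CAN

variable {B : Type 1} [CompleteBooleanAlgebra B]

theorem exists_thread (A : ℕ → Set B) (hA : ∀ n, CSub (A n)) (hmono : ∀ n, A n ⊆ A (n + 1)) (t : ℕ → B)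
    (ht : ∀ n, t n ∈ A n) (h : ∀ n, t n ≤ proj (A n) (t (n + 1))) :
    ∃ r : ℕ → B, (∀ n, r n ∈ A n ∧ r n ≤ t n) ∧ r 0 = t 0 ∧ (∀ n, proj (A n) (r (n + 1)) = r n) ∧
      ∀ n, r (n + 1) ≤ r n := by
  set r : ℕ → B := fun n => Nat.rec (t 0) (fun n x => x ⊓ t (n + 1)) n with hr
  have h0 : r 0 = t 0 := rfl
  have hs : ∀ n, r (n + 1) = r n ⊓ t (n + 1) := fun n => rfl
  have h1 : ∀ n, r n ∈ A n ∧ r n ≤ t n := by
    intro n
    induction n with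
    | zero => exact ⟨ht 0, le_rfl⟩
    | succ n ih =>
      rw [hs]
      exact ⟨(hA (n + 1)).and (hmono n ih.1) (ht (n + 1)), inf_le_right⟩
  refine ⟨r, h1, h0, ?_, ?_⟩
  · intro n
    rw [hs, proj_inf (hA n) (h1 n).1]
    exact inf_eq_left.2 ((h1 n).2.trans (h n))
  · intro n
    rw [hs]
    exact inf_le_left

end Pool.Agent.CAN
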