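import Pool.Agent.CAN.PTB
import Pool.Agent.CAN.PTC
import Pool.Agent.CAN.TWC
import Pool.Agent.CAN.THR

/-!
# CAN/PTD: limit stages of the chain, induction along the tower

`PTx S g W i j` is the statement `PT` for the interval `[i, j]`.
`ptx_succ`: given `q ∈ₘ W i`: the `q1` of `PTx S g W i k` for `a, q` can be chosen `∈ₘ W k.s` (`EvT.wit`: the required properties are a relation between
`W` restricted to `≤ k`, `i, a, g, q` and `q1`; `ggen_loc`; `q, a, g ∈ₘ W i ⊆ W k.s`; `i ∈ₘ W k.s` by `EvT.idx`).  Then apply the one model statement for `W k.s` to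
`q1`: `q' ≤ q1 ⊓ gen (S g) (W k.s)`, `gen (S a) (W k.s) ⊓ proj (S a) q1 ≤ proj (S a) q'`; use `ggen_succ`.
`ptx_lim` (`k` a limit): `ξ, γ` from `evT_cof` for `k`, `γ 0 = a`, `ξ 0 = i`.  Put `i_0 = i`, `i_{n+1} = (ξ (n+1)).s`.  Choose `q_0 = q`, and
`q_{n+1} ∈ Pd S g`, `q_{n+1} ∈ₘ W i_{n+1}` with `q_{n+1} ≤ q_n ⊓ ggen (S g) W i_n (ξ (n+1))` and
`ggen (S (γ n)) W i_n (ξ (n+1)) ⊓ proj (S (γ n)) q_n ≤ proj (S (γ n)) q_{n+1}` (by `PTx S g W i_n (ξ (n+1))` for the ordinal `γ n ∈ₘ W (ξ n) ⊆ W i_n`, chosen in `W i_{n+1}` as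
before; note `i_n ≤ ξ (n+1)`).  Put `t n = ggen (S (γ n)) W i_n k ⊓ proj (S (γ n)) q_n ∈ S (γ n)`.  Then `t n ≤ proj (S (γ n)) q_{n+1}` and
`t n ≤ ggen (S (γ n)) W i_{n+1} k`, so by `PPs (S (γ n)) (S (γ (n+1))) W i_{n+1}` for the element `proj (S (γ (n+1))) q_{n+1} ∈ₘ W i_{n+1}` (`proj_proj`):
`t n ≤ proj (S (γ n)) (proj (S (γ (n+1))) q_{n+1} ⊓ ggen (S (γ (n+1))) W i_{n+1} k) = proj (S (γ n)) (t (n+1))`.
`exists_thread` gives `r`, `thread_inf` gives `q' = ⨅ n, r n ∈ Pd S g`, `proj (S a) q' = r 0 = t 0`.  For all `n ≥ m`: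
`q' ≤ r n ≤ t n ≤ proj (S (γ n)) q_n ≤ proj (S (γ n)) q_m`, and for `n ≤ m` by `proj_anti`, so `q' ≤ ⨅ n, proj (S (γ n)) q_m = q_m` (`ev_Pd` for the model `W k`, `q_m ∈ₘ W k`).  Hence `q' ≤ q` and
`q' ≤ gen (S g) (W j)` for all `i ≤ j < k` (each such `j` is in some `[i_n, ξ (n+1)]`), and `q' ≤ ggen (S g) W i k` by `ggen_lim`.
-/

set_option autoImplicit false

namespace Pool.Agent.CAN

variable {B : Type 1} [CompleteBooleanAlgebra B]

/-- `PT` for the interval `[i, j]` of the tower. -/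
def PTx (S : Ordinal.{0} → Set B) (g : Ordinal.{0}) (W : Om → ZFSet.{1}) (i j : Om) : Prop :=
  ∀ a, a < g → InM a (W i) → ∀ q ∈ Pd S g, InM q (W i) →
    ∃ q' ∈ Pd S g, q' ≤ q ⊓ ggen (S g) W i j ∧ ggen (S a) W i j ⊓ proj (S a) q ≤ proj (S a) q'

variable {S : Ordinal.{0} → Set B}

private def PTD_rel (S : Ordinal.{0} → Set B) (W : Om → ZFSet.{1}) (k : Om) (g : Ordinal.{0}) (i' : Om)
    (a : Ordinal.{0}) (q q' : B) : Prop :=
  q' ∈ Pd S g ∧ q' ≤ q ⊓ ggen (S g) W i' k ∧ ggen (S a) W i' k ⊓ proj (S a) q ≤ proj (S a) q'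

private theorem PTD_loc (S : Ordinal.{0} → Set B) (g : Ordinal.{0}) (i' : Om) (a : Ordinal.{0}) (q q' : B) :
    Loc (fun W k => PTD_rel S W k g i' a q q') := by
  intro W W' k h h1
  have h2 : ggen (S g) W i' k = ggen (S g) W' i' k := ggen_loc h
  have h3 : ggen (S a) W i' k = ggen (S a) W' i' k := ggen_loc h
  obtain ⟨h4, h5, h6⟩ := h1
  rw [h2] at h5
  rw [h3] at h6
  exact ⟨h4, h5, h6⟩

omit [CompleteBooleanAlgebra B] in
private theorem PTD_seq {P : ℕ → B → Prop} {R : ℕ → B → B → Prop} {x0 : B} (h0 : P 0 x0)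
    (hs : ∀ n x, P n x → ∃ y, P (n + 1) y ∧ R n x y) :
    ∃ f : ℕ → B, f 0 = x0 ∧ ∀ n, P n (f n) ∧ R n (f n) (f (n + 1)) := by
  classical
  have hs' : ∀ n (x : {x // P n x}), ∃ y : {y // P (n + 1) y}, R n x.1 y.1 := fun n x => by
    obtain ⟨y, hy, hr⟩ := hs n x.1 x.2
    exact ⟨⟨y, hy⟩, hr⟩
  choose nx hnx using hs'
  let f : ∀ n, {x // P n x} := fun n => Nat.rec ⟨x0, h0⟩ (fun n x => nx n x) n
  have hf : ∀ n, f (n + 1) = nx n (f n) := fun n => rfl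
  refine ⟨fun n => (f n).1, rfl, fun n => ⟨(f n).2, ?_⟩⟩
  show R n (f n).1 (f (n + 1)).1
  rw [hf]
  exact hnx n (f n)

theorem ptx_choice (hS : Chain S) : EvT (fun W i => ∀ g : Ordinal.{0}, InM g (W i) → ∀ i' j, i ≤ i' → i' ≤ j → PTx S g W i' j →
    ∀ a, a < g → InM a (W i') → ∀ q ∈ Pd S g, InM q (W i') →
    ∃ q' ∈ Pd S g, InM q' (W j.s) ∧ q' ≤ q ⊓ ggen (S g) W i' j ∧ ggen (S a) W i' j ⊓ proj (S a) q ≤ proj (S a) q') := by
  refine ((EvT.wit4 (PTD_rel S) (PTD_loc S)).and EvT.idx).mono (fun W i htw hW => ?_)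
  obtain ⟨hwit, hidx⟩ := hW
  intro g hg i' j hi' hij hpt a hag haW q hq hqW
  have hjs : i' ≤ j.s := hij.trans (Om.lt_s j).le
  obtain ⟨q', hq'W, hq', h1, h2⟩ := hwit j (hi'.trans hij) g i' a q (htw.mono i j.s (hi'.trans hjs) hg)
    (hidx j (hi'.trans hij) i' hij).1 (htw.mono i' j.s hjs haW) (htw.mono i' j.s hjs hqW)
    (by
      obtain ⟨q', hq', h1, h2⟩ := hpt a hag haW q hq hqW
      exact ⟨q', hq', h1, h2⟩)
  exact ⟨q', hq', hq'W, h1, h2⟩

theorem ptx_succ (hS : Chain S) : EvT (fun W i => ∀ g : Ordinal.{0}, InM g (W i) → ∀ i' k, i ≤ i' → i' ≤ k →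
    PTx S g W i' k → PTx S g W k.s k.s → PTx S g W i' k.s) := by
  refine (ptx_choice hS).mono (fun W i htw hW => ?_)
  intro g hg i' k hi' hik h1 h2 a hag haW q hq hqW
  obtain ⟨q1, hq1, hq1W, h3, h4⟩ := hW g hg i' k hi' hik h1 a hag haW q hq hqW
  have hks : i' ≤ k.s := hik.trans (Om.lt_s k).le
  obtain ⟨q', hq', h5, h6⟩ := h2 a hag (htw.mono i' k.s hks haW) q1 hq1 hq1W
  rw [ggen_self] at h5 h6
  refine ⟨q', hq', ?_, ?_⟩
  · rw [ggen_succ W hik]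
    refine le_inf ((h5.trans inf_le_left).trans (h3.trans inf_le_left)) (le_inf ?_ (h5.trans inf_le_right))
    exact (h5.trans inf_le_left).trans (h3.trans inf_le_right)
  · rw [ggen_succ W hik]
    refine le_trans (le_inf ?_ ?_) h6
    · exact inf_le_left.trans inf_le_right
    · exact (le_inf (inf_le_left.trans inf_le_left) inf_le_right).trans h4

theorem ptx_lim (hS : Chain S) : EvT (fun W i => ∀ g : Ordinal.{0}, InM g (W i) → Order.IsSuccLimit g →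
    (∀ k, i ≤ k → ∀ a b, a ≤ b → b < g → InM a (W k) → InM b (W k) → PPs (S a) (S b) W k) →
    ∀ k, i < k → Lim k → (∀ i' j, i ≤ i' → i' ≤ j → j < k → PTx S g W i' j) → PTx S g W i k) := by
  refine ((ptx_choice hS).and (evT_cof.and ((EvT.of_ev (ev_Pd hS)).and
    (EvT.of_ev (Ev.fn2 (fun (a : Ordinal.{0}) (x : B) => proj (S a) x)))))).mono (fun W i htw hW => ?_)
  obtain ⟨hch, hcof, hPd, hfn⟩ := hW
  intro g hg hlim hpps k hik hk hpt a hag haW q hq hqW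
  obtain ⟨ξ, hξm, hξ0, hξk, hξc, γ, hγm, hγ0, hγW, hγc, hγw⟩ := hcof g hg hlim a hag haW k hik hk
  have hmo : ∀ {T : Type 1} (x : T) {j l : Om}, j ≤ l → InM x (W j) → InM x (W l) := by
    intro T x j l hjl hx
    exact htw.mono j l hjl hx
  let idx : ℕ → Om := fun n => Nat.casesOn n i (fun m => (ξ (m + 1)).s)
  have hidx0 : idx 0 = i := rfl
  have hidxs : ∀ n, idx (n + 1) = (ξ (n + 1)).s := fun n => rfl
  have hξidx : ∀ n, ξ n ≤ idx n := by
    intro n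
    cases n with
    | zero =>
      rw [hidx0, hξ0]
    | succ n =>
      rw [hidxs]
      exact (Om.lt_s _).le
  have hidxξ : ∀ n, idx n ≤ ξ (n + 1) := by
    intro n
    cases n with
    | zero =>
      rw [hidx0, ← hξ0]
      exact hξm.monotone (Nat.zero_le 1)
    | succ n =>
      rw [hidxs]
      exact Om.s_le.2 (hξm (Nat.lt_succ_self _))
  have hidxk : ∀ n, idx n < k := fun n => lt_of_le_of_lt (hidxξ n) (hξk (n + 1))
  have hiidx : ∀ n, i ≤ idx n := by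
    intro n
    refine le_trans ?_ (hξidx n)
    rw [← hξ0]
    exact hξm.monotone (Nat.zero_le n)
  have hidxm : ∀ n, idx n ≤ idx (n + 1) := fun n => (hidxξ n).trans (hξidx (n + 1))
  obtain ⟨f, hf0, hf⟩ := PTD_seq (P := fun n x => x ∈ Pd S g ∧ InM x (W (idx n)))
    (R := fun n x y => y ≤ x ⊓ ggen (S g) W (idx n) (ξ (n + 1)) ∧
      ggen (S (γ n)) W (idx n) (ξ (n + 1)) ⊓ proj (S (γ n)) x ≤ proj (S (γ n)) y) (x0 := q) ⟨hq, hqW⟩
    (fun n x hx => by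
      obtain ⟨y, hy, hyW, h1, h2⟩ := hch g hg (idx n) (ξ (n + 1)) (hiidx n) (hidxξ n)
        (hpt _ _ (hiidx n) (hidxξ n) (hξk (n + 1))) (γ n) (hγW n).2 (hmo _ (hξidx n) (hγW n).1) x hx.1 hx.2
      exact ⟨y, ⟨hy, hyW⟩, h1, h2⟩)
  have hfPd : ∀ n, f n ∈ Pd S g := fun n => (hf n).1.1
  have hfW : ∀ n, InM (f n) (W (idx n)) := fun n => (hf n).1.2
  have hfa : Antitone f := antitone_nat_of_succ_le (fun n => (hf n).2.1.trans inf_le_left)
  have hfg : ∀ n, f (n + 1) ≤ ggen (S g) W (idx n) (ξ (n + 1)) := fun n => (hf n).2.1.trans inf_le_right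
  let t : ℕ → B := fun n => ggen (S (γ n)) W (idx n) k ⊓ proj (S (γ n)) (f n)
  have ht : ∀ n, t n ∈ S (γ n) := fun n => (hS.sub _).and (ggen_mem (hS.sub _) W _ _) (proj_mem (hS.sub _) _)
  have hsub : ∀ n, S (γ n) ⊆ S (γ (n + 1)) := fun n => hS.mono _ _ (hγm.monotone (Nat.le_succ n))
  have hstep : ∀ n, t n ≤ proj (S (γ n)) (t (n + 1)) := by
    intro n
    have h1 : t n ≤ proj (S (γ n)) (f (n + 1)) :=
      (inf_le_inf_right _ (ggen_anti W le_rfl (hξk (n + 1)).le)).trans (hf n).2.2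
    have h2 : t n ≤ ggen (S (γ n)) W (idx (n + 1)) k := inf_le_left.trans (ggen_anti W (hidxm n) le_rfl)
    have h3 : InM (γ (n + 1)) (W (idx (n + 1))) := hmo _ (hξidx (n + 1)) (hγW (n + 1)).1
    have h4 : InM (γ n) (W (idx (n + 1))) := hmo _ ((hξidx n).trans (hidxm n)) (hγW n).1
    have h5 := hpps (idx (n + 1)) (hiidx (n + 1)) (γ n) (γ (n + 1)) (hγm.monotone (Nat.le_succ n)) (hγW (n + 1)).2 h4 h3
      k (hidxk (n + 1)).le (proj (S (γ (n + 1))) (f (n + 1))) (proj_mem (hS.sub _) _)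
      (hfn (idx (n + 1)) (hiidx (n + 1)) _ _ h3 (hfW (n + 1)))
    rw [proj_proj (hS.sub _) (hS.sub _) (hsub n)] at h5
    refine ((le_inf h2 h1).trans h5).trans ?_
    rw [inf_comm]
  obtain ⟨r, hr, hr0, hrp, _⟩ := exists_thread (fun n => S (γ n)) (fun n => hS.sub _) hsub t ht hstep
  obtain ⟨hq'Pd, hq'⟩ := thread_inf hS hlim γ hγm (fun n => (hγW n).2) hγw r (fun n => (hr n).1) hrp
  have hle : ∀ m, (⨅ n, r n) ≤ f m := by
    intro m
    rw [hPd k hik.le g (hmo _ hik.le hg) hlim (f m) (hfPd m) (hmo _ (hidxk m).le (hfW m)) γ (fun n => (hγW n).2) hγc hγw]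
    refine le_iInf (fun n => ?_)
    have h1 : (⨅ n, r n) ≤ proj (S (γ (max n m))) (f (max n m)) :=
      (iInf_le r (max n m)).trans ((hr (max n m)).2.trans inf_le_right)
    exact h1.trans ((proj_mono (hfa (le_max_right n m))).trans
      (proj_anti (hS.mono _ _ (hγm.monotone (le_max_left n m))) _))
  refine ⟨⨅ n, r n, hq'Pd, le_inf ?_ ?_, ?_⟩
  · have := hle 0
    rwa [hf0] at this
  · refine ggen_lim htw hk hik (fun j hij hjk => ?_)
    have hex : ∃ n, j ≤ ξ (n + 1) := by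
      obtain ⟨n, hn⟩ := hξc j hjk
      exact ⟨n, hn.le.trans (hξm.monotone (Nat.le_succ n))⟩
    classical
    have hn := Nat.find_spec hex
    have hidxj : idx (Nat.find hex) ≤ j := by
      rcases Nat.eq_zero_or_pos (Nat.find hex) with h0 | h0
      · rw [h0]
        exact hij
      · obtain ⟨m, hm⟩ := Nat.exists_eq_succ_of_ne_zero h0.ne'
        rw [hm]
        have h1 := Nat.find_min hex (m := m) (by omega)
        rw [Nat.succ_eq_add_one, hidxs]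
        exact Om.s_le.2 (not_le.1 h1)
    exact (hle _).trans ((hfg (Nat.find hex)).trans (ggen_le hidxj hn))
  · have h1 := hq' 0
    rw [hγ0] at h1
    rw [h1, hr0]
    show _ ≤ ggen (S (γ 0)) W (idx 0) k ⊓ proj (S (γ 0)) (f 0)
    rw [hγ0, hf0]
    exact le_refl _

end Pool.Agent.CAN
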