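import Pool.Agent.CAN.SDJ
import Pool.Agent.CAN.DIS

/-!
# CAN / SDI: dispersion

By `PTr.disj` (with `z = t`, `y = x`) for every `m` the value
`e m = ⨆ z' : {z' // t ≤ z'}, ⨆ w : {w : Fin m → Fin k → ℕ // pairwise disjoint}, ⨅ i, W z' (w i) ⊓ rs R t z' (w i) x` satisfies `q ≤ e m` (otherwise apply `PTr.disj` to
`q ⊓ (e m)ᶜ`).  `Distr.witness` gives a nonzero `q' ≤ q` and for every `m` a level `z m ≥ t` and a pairwise disjoint family `w m` with `q' ≤ W (z m) (w m i) ⊓ rs R t (z m) (w m i) x`.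
Let `β ≥ s` be `≥` all `z m` (`Om.bdd`).  Let `F` be a finite set, `m = F.card + 1`.  If `q' ≤ ⨆ ...` fails, let `q₁ ≠ ⊥` be the difference; extend all the `w m i` (`i : Fin m`) to tuples `y i` of
level `β` (`PTr.ext`, finitely many times) with `q₂ ≤ W β (y i) ⊓ rs R (z m) β (y i) (w m i)`, `⊥ ≠ q₂ ≤ q₁`.  They are pairwise disjoint (a common node `n` would give
`q₂ ≤ R (z m) β n (w m i l) ⊓ R (z m) β n (w m j l')`, contradiction to `Sys.uniq`), so by the pigeon hole principle (every element of `F` is in at most one of them)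
some `y i` avoids `F`; `rs R t β (y i) x` by `rs_comp`.  Contradiction.
-/

set_option autoImplicit false

namespace Pool.Agent.CAN.Sp

variable {A : Type 1} [CompleteBooleanAlgebra A] {R : Om → Om → ℕ → ℕ → A} {b : A}

private theorem SDI_fam {k : ℕ} {t : Om} {W : Om → (Fin k → ℕ) → A} (hW : PTr R b t W)
    {z z' : Om} (hz : t ≤ z) (hzz : z ≤ z') {m : ℕ} (w : Fin m → Fin k → ℕ) {q : A} (hq : q ≠ ⊥) (hb : q ≤ b)
    (hw : ∀ i, q ≤ W z (w i)) (s : Finset (Fin m)) :
    ∃ q' ≤ q, q' ≠ ⊥ ∧ ∃ v : Fin m → Fin k → ℕ, ∀ i ∈ s, q' ≤ W z' (v i) ⊓ rs R z z' (v i) (w i) := by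
  classical
  induction s using Finset.induction_on with
  | empty => exact ⟨q, le_rfl, hq, w, fun i hi => absurd hi (Finset.notMem_empty i)⟩
  | insert i s his ih =>
    obtain ⟨q', hq', hq'0, v, hv⟩ := ih
    obtain ⟨u, hu⟩ := ne_bot_of_le_iSup hq'0
      ((le_inf (hq'.trans hb) (hq'.trans (hw i))).trans (hW.ext z z' hz hzz (w i)))
    refine ⟨_, inf_le_left.trans hq', hu, Function.update v i u, fun j hj => ?_⟩
    by_cases hji : j = i
    · subst hji
      rw [Function.update_self]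
      exact inf_le_right
    · rw [Function.update_of_ne hji]
      exact inf_le_left.trans (hv j (Finset.mem_of_mem_insert_of_ne hj hji))

open Classical in
/-- the value of: `w` is a family of `m` pairwise disjoint extensions of `x` -/
private noncomputable def SDI_e {k : ℕ} (R : Om → Om → ℕ → ℕ → A) (W : Om → (Fin k → ℕ) → A) (t : Om)
    (x : Fin k → ℕ) (m : ℕ) (p : {z : Om // t ≤ z} × (ℕ → Fin k → ℕ)) : A :=
  if ∀ i j : Fin m, i ≠ j → ∀ l l', p.2 i.1 l ≠ p.2 j.1 l' then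
    ⨅ i : Fin m, W p.1.1 (p.2 i.1) ⊓ rs R t p.1.1 (p.2 i.1) x else ⊥

theorem PTr.disp (hD : Distr (Set.univ : Set A)) (hR : Sys R b) (hN : NoBr R b) {k : ℕ} {t : Om}
    {W : Om → (Fin k → ℕ) → A} (hW : PTr R b t W) {q : A} (hq : q ≠ ⊥) (hb : q ≤ b) {x : Fin k → ℕ} (hx : q ≤ W t x)
    (s : Om) :
    ∃ q' ≤ q, q' ≠ ⊥ ∧ ∃ β, t ≤ β ∧ s ≤ β ∧ ∀ F : Finset ℕ,
      q' ≤ ⨆ (y : Fin k → ℕ) (_ : ∀ l, y l ∉ F), W β y ⊓ rs R t β y x := by
  classical
  have h1 : ∀ m, q ≤ ⨆ p, SDI_e R W t x m p := by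
    intro m
    by_contra hcon
    have hne : q ⊓ (⨆ p, SDI_e R W t x m p)ᶜ ≠ ⊥ := by
      intro h
      exact hcon (by rwa [← sdiff_eq, sdiff_eq_bot_iff] at h)
    obtain ⟨q', hq', hq'0, z', hz', w, hw, hdis⟩ := PTr.disj hR hN hW le_rfl hne (inf_le_left.trans hb)
      (inf_le_left.trans hx) m
    apply hq'0
    have h2 : q' ≤ SDI_e R W t x m (⟨z', hz'⟩, fun n => if h : n < m then w ⟨n, h⟩ else x) := by
      unfold SDI_e
      have hval : ∀ i : Fin m, (if h : i.1 < m then w ⟨i.1, h⟩ else x) = w i := by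
        intro i
        rw [dif_pos i.2]
      rw [if_pos]
      · refine le_iInf fun i => ?_
        simp only [hval]
        exact hw i
      · intro i j hij l l'
        simp only [hval]
        exact hdis i j hij l l'
    have h3 : q' ≤ (⨆ p, SDI_e R W t x m p) ⊓ (⨆ p, SDI_e R W t x m p)ᶜ :=
      le_inf (h2.trans (le_iSup _ _)) (hq'.trans inf_le_right)
    rw [inf_compl_eq_bot] at h3
    exact le_bot_iff.1 h3
  obtain ⟨r, -, hr0, hrq, hr⟩ := Distr.witness csub_univ hD (SDI_e R W t x) (fun _ _ => Set.mem_univ _)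
    (Set.mem_univ q) hq h1
  choose p hp using hr
  have hdis : ∀ m, ∀ i j : Fin m, i ≠ j → ∀ l l', (p m).2 i.1 l ≠ (p m).2 j.1 l' := by
    intro m
    by_contra hcon
    have h2 := hp m
    unfold SDI_e at h2
    rw [if_neg hcon] at h2
    exact hr0 (le_bot_iff.1 h2)
  have hval : ∀ m, ∀ i : Fin m, r ≤ W (p m).1.1 ((p m).2 i.1) ⊓ rs R t (p m).1.1 ((p m).2 i.1) x := by
    intro m i
    have h2 := hp m
    unfold SDI_e at h2
    rw [if_pos (hdis m)] at h2
    exact h2.trans (iInf_le _ i)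
  obtain ⟨β, hβ⟩ := Om.bdd (s := Set.range (fun m => (p m).1.1) ∪ {t, s})
    ((Set.countable_range _).union (Set.to_countable _))
  have hβt : t ≤ β := (hβ t (Or.inr (Or.inl rfl))).le
  have hβs : s ≤ β := (hβ s (Or.inr (Or.inr rfl))).le
  have hβz : ∀ m, (p m).1.1 ≤ β := fun m => (hβ _ (Or.inl ⟨m, rfl⟩)).le
  refine ⟨r, hrq, hr0, β, hβt, hβs, fun F => ?_⟩
  by_contra hcon
  set E : A := ⨆ (y : Fin k → ℕ) (_ : ∀ l, y l ∉ F), W β y ⊓ rs R t β y x with hE
  have hne : r ⊓ Eᶜ ≠ ⊥ := by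
    intro h
    exact hcon (by rwa [← sdiff_eq, sdiff_eq_bot_iff] at h)
  obtain ⟨q₂, hq₂, hq₂0, v, hv⟩ := SDI_fam hW (p (F.card + 1)).1.2 (hβz (F.card + 1))
    (fun i : Fin (F.card + 1) => (p (F.card + 1)).2 i.1) hne
    ((inf_le_left.trans hrq).trans hb) (fun i => inf_le_left.trans ((hval _ i).trans inf_le_left)) Finset.univ
  have hb₂ : q₂ ≤ b := (hq₂.trans inf_le_left).trans (hrq.trans hb)
  have hvd : ∀ i j, i ≠ j → ∀ l l', v i l ≠ v j l' := by
    intro i j hij l l' heq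
    apply hq₂0
    have h2 : q₂ ≤ R (p (F.card + 1)).1.1 β (v i l) ((p (F.card + 1)).2 i.1 l) :=
      (hv i (Finset.mem_univ _)).trans (inf_le_right.trans (iInf_le _ l))
    have h3 : q₂ ≤ R (p (F.card + 1)).1.1 β (v j l') ((p (F.card + 1)).2 j.1 l') :=
      (hv j (Finset.mem_univ _)).trans (inf_le_right.trans (iInf_le _ l'))
    rw [← heq] at h3
    have h4 := (le_inf (le_inf hb₂ h2) h3).trans
      (hR.uniq (p (F.card + 1)).1.1 β (v i l) _ _ (hβz _) (hdis _ i j hij l l')).le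
    exact le_bot_iff.1 h4
  obtain ⟨i, hi⟩ : ∃ i : Fin (F.card + 1), ∀ l, v i l ∉ F := by
    by_contra hno
    push Not at hno
    choose g hg using hno
    have hinj : Function.Injective (fun i : Fin (F.card + 1) => (⟨v i (g i), hg i⟩ : F)) := by
      intro i j hij
      by_contra hne'
      exact hvd i j hne' (g i) (g j) (congrArg Subtype.val hij)
    have hc := Fintype.card_le_of_injective _ hinj
    rw [Fintype.card_fin, Fintype.card_coe] at hc
    omega
  apply hq₂0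
  have h5 : q₂ ≤ E := by
    refine le_trans ?_ (le_iSup₂_of_le (v i) hi le_rfl)
    refine le_inf ((hv i (Finset.mem_univ _)).trans inf_le_left) ?_
    refine le_trans ?_ (rs_comp hR (p (F.card + 1)).1.2 (hβz (F.card + 1)) (v i) ((p (F.card + 1)).2 i.1) x)
    exact le_inf (le_inf hb₂ ((hv i (Finset.mem_univ _)).trans inf_le_right))
      ((hq₂.trans inf_le_left).trans ((hval _ i).trans inf_le_right))
  have h6 : q₂ ≤ E ⊓ Eᶜ := le_inf h5 (hq₂.trans inf_le_right)
  rw [inf_compl_eq_bot] at h6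
  exact le_bot_iff.1 h6

end Pool.Agent.CAN.Sp
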