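import Pool.Agent.CAN.SEX
import Pool.Agent.CAN.SDI

/-!
# CAN / SAP: adding a promise

`t = c.top`.  `PTr.disp` with `s = t.s` gives a nonzero `q₁ ≤ q` and a level `β > t` (`Om.s_le`) such that for all finite `F`
`q₁ ≤ ⨆ (y avoids F), W β y ⊓ rs R t β y x`.
Let `H' n` be the minimum of the `H l` with `x l = n` if there is such an `l`, and `c.f t n + 1` otherwise; `c.f t n < H' n` and `H' (x l) ≤ H l`.
`exists_ext` (with `z = β`, `H'`) gives a nonzero `q' ≤ q₁` and `c₁ ≤ c` with top `β`, `C₁ = insert β c.C`, the same promises.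
`c'` is `c₁` with the promise `u = ⟨k, β, H, W⟩` added (`insert u c₁.G`).  `Cond.le_good` for `c'`: (g1) as for `c₁`; (g2) for `u`: `PTr.ext` (`t ≤ β ≤ z`); (g3) for `u`: the only level
`z ∈ C₁` with `β ≤ z` is `z = β`.  If `q' ≤ ⨆ (y avoids F, c'.f β (y l) < H l), W β y` fails then a nonzero part `q₂ ≤ q'` is disjoint from the right hand side; since
`q₂ ≤ ⨆ (y avoids F), W β y ⊓ rs R t β y x` some `y` avoiding `F` has `q₂ ⊓ (W β y ⊓ rs R t β y x) ≠ ⊥` (`ne_bot_of_le_iSup`), so for every `l` `q' ⊓ R t β (y l) (x l) ≠ ⊥` and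
`c₁.f β (y l) < H' (x l) ≤ H l`: contradiction.
-/

set_option autoImplicit false

namespace Pool.Agent.CAN.Sp

variable {A : Type 1} [CompleteBooleanAlgebra A] {R : Om → Om → ℕ → ℕ → A} {b : A}

private theorem SAP_caps (g : ℕ → ℚ) {k : ℕ} (x : Fin k → ℕ) (H : Fin k → ℚ) (hH : ∀ l, g (x l) < H l) :
    ∃ H' : ℕ → ℚ, (∀ n, g n < H' n) ∧ ∀ l, H' (x l) ≤ H l := by
  have h1 : ∀ n, ∃ v : ℚ, g n < v ∧ ∀ l, x l = n → v ≤ H l := by
    intro n
    have hne : (insert (g n + 1) ((Finset.univ.filter fun l => x l = n).image H)).Nonempty :=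
      ⟨_, Finset.mem_insert_self _ _⟩
    refine ⟨(insert (g n + 1) ((Finset.univ.filter fun l => x l = n).image H)).min' hne, ?_, ?_⟩
    · rw [Finset.lt_min'_iff]
      intro y hy
      rw [Finset.mem_insert] at hy
      rcases hy with rfl | hy
      · exact lt_add_one _
      · obtain ⟨l, hl, rfl⟩ := Finset.mem_image.1 hy
        rw [← (Finset.mem_filter.1 hl).2]
        exact hH l
    · intro l hl
      apply Finset.min'_le
      rw [Finset.mem_insert]
      exact Or.inr (Finset.mem_image.2 ⟨l, Finset.mem_filter.2 ⟨Finset.mem_univ _, hl⟩, rfl⟩)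
  choose H' h2 h3 using h1
  exact ⟨H', h2, fun l => h3 (x l) l rfl⟩

theorem add_promise (hD : Distr (Set.univ : Set A)) (hR : Sys R b) (hN : NoBr R b) (c : Cond A) {q : A} (hq : q ≠ ⊥)
    (hc : q ≤ c.good R b) {k : ℕ} {W : Om → (Fin k → ℕ) → A} (hW : PTr R b c.top W) {x : Fin k → ℕ}
    (hx : q ≤ W c.top x) {H : Fin k → ℚ} (hH : ∀ l, c.f c.top (x l) < H l) :
    ∃ q' ≤ q, q' ≠ ⊥ ∧ ∃ c' ≤ c, c.top < c'.top ∧ q' ≤ c'.good R b ∧ (⟨k, c'.top, H, W⟩ : Prom A) ∈ c'.G := by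
  obtain ⟨q₁, hq₁q, hq₁, β, htβ, hsβ, hdisp⟩ := hW.disp hD hR hN hq (hc.trans (c.good_le R b)) hx c.top.s
  have hlt : c.top < β := Om.s_le.1 hsβ
  obtain ⟨H', hH'1, hH'2⟩ := SAP_caps (c.f c.top) x H hH
  obtain ⟨q', hq'q₁, hq', c₁, hc₁, htop, hC, hG, hgood, hcap⟩ := exists_ext hD hR c hq₁ (hq₁q.trans hc) hlt H' hH'1
  subst htop
  obtain ⟨k1, k2, k3, k4⟩ := (Cond.le_good R c₁).1 hgood
  refine ⟨q', hq'q₁.trans hq₁q, hq', ⟨c₁.C, c₁.top, c₁.top_mem, c₁.le_top, c₁.closed, c₁.f,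
    insert (⟨k, c₁.top, H, W⟩ : Prom A) c₁.G, c₁.cnt.insert _, ?_⟩, ⟨hc₁.1, hc₁.2.1, ?_⟩, hlt, ?_, ?_⟩
  · rintro u (rfl | hu)
    · exact le_rfl
    · exact c₁.base_le u hu
  · exact hc₁.2.2.trans (Set.subset_insert _ _)
  · rw [Cond.le_good]
    refine ⟨k1, k2, ?_, ?_⟩
    · rintro u (rfl | hu) z z' y hz hzz
      · exact (inf_le_inf_right _ k1).trans (hW.ext z z' (hlt.le.trans hz) hzz y)
      · exact k3 u hu z z' y hz hzz
    · rintro u (rfl | hu) z hz hbz F
      · have hzt : z = c₁.top := le_antisymm (c₁.le_top z hz) hbz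
        subst hzt
        by_contra hcon
        change ¬ (q' ≤ ⨆ (y : Fin k → ℕ) (_ : ∀ l, y l ∉ F) (_ : ∀ l, c₁.f c₁.top (y l) < H l), W c₁.top y) at hcon
        set X : A := ⨆ (y : Fin k → ℕ) (_ : ∀ l, y l ∉ F) (_ : ∀ l, c₁.f c₁.top (y l) < H l), W c₁.top y with hX
        have hne : q' ⊓ Xᶜ ≠ ⊥ := by
          intro h
          exact hcon ((le_compl_iff_disjoint_right.2 (disjoint_iff.2 h)).trans (compl_compl _).le)
        obtain ⟨y, hy⟩ := ne_bot_of_le_iSup hne ((inf_le_left.trans hq'q₁).trans (hdisp F))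
        by_cases hyF : ∀ l, y l ∉ F
        · rw [iSup_pos hyF] at hy
          have hlow : ∀ l, c₁.f c₁.top (y l) < H l := by
            intro l
            refine (hcap (y l) (x l) ?_).trans_le (hH'2 l)
            intro h
            apply hy
            refine le_bot_iff.1 (le_trans ?_ h.le)
            refine le_inf (inf_le_left.trans inf_le_left) ?_
            exact (inf_le_right.trans inf_le_right).trans (iInf_le _ l)
          have hyX : W c₁.top y ≤ X := le_iSup_of_le y (le_iSup_of_le hyF (le_iSup_of_le hlow le_rfl))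
          apply hy
          exact le_bot_iff.1 ((le_inf ((inf_le_right.trans inf_le_left).trans hyX)
            (inf_le_left.trans inf_le_right)).trans (inf_compl_self X).le)
        · rw [iSup_neg hyF, inf_bot_eq] at hy
          exact hy rfl
      · exact k4 u hu z hz hbz F
  · exact Set.mem_insert _ _

end Pool.Agent.CAN.Sp
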