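import Pool.Agent.CAN.SRS
import Pool.Agent.CAN.SEV

/-!
# CAN / SBD: bad tuples

* `bad_down`: let `q = b ⊓ bad z' w ⊓ rs R z z' w y` and suppose `q ⊓ (bad z y)ᶜ ≠ ⊥` (otherwise `q ≤ bad z y`).  The complement is the `sSup`, so some
  `e = a' ⊓ rs R c'.top z y y'` of the set meets `q`; `rs R c'.top z' w y'` holds on `q ⊓ e` (`rs_comp`), so `q ⊓ e` is below an element of the set for
  `z'`, `w` (same `a'`, `c'`, `y'`; `c'.top ≤ z ≤ z'`) and below `bad z' w`, hence `⊥`.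
* `ev_bad`: for fixed `k`, `H`, `y` (countably many, `Ev.all_ctbl`) it is a function of `D, a, c, z` (`Ev.fn4`).
* `ev_pru`: for fixed `k, H, x, y` a function of `D, a, c, z` (the level `t = c.top`).
-/

set_option autoImplicit false

namespace Pool.Agent.CAN.Sp

variable {A : Type 1} [CompleteBooleanAlgebra A] {R : Om → Om → ℕ → ℕ → A} {b : A}

theorem bad_down (hR : Sys R b) (D : Set (A × WithTop (Cond A))) (a : A) (c : Cond A) {k : ℕ} (H : Fin k → ℚ) :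
    ∀ z z', c.top ≤ z → z ≤ z' → ∀ w y, b ⊓ bad R D a c H z' w ⊓ rs R z z' w y ≤ bad R D a c H z y := by
  intro z z' hcz hzz' w y
  unfold bad
  rw [le_compl_iff_disjoint_right, disjoint_sSup_iff]
  rintro e ⟨a', c', y', h1, h2, h3, h4, h5, h6, rfl⟩
  rw [disjoint_iff_inf_le]
  have h7 : b ⊓ (sSup {e | ∃ (a' : A) (c' : Cond A) (y' : Fin k → ℕ), (a', (c' : WithTop (Cond A))) ∈ D ∧ a' ≤ a ∧ c' ≤ c ∧
      c.top < c'.top ∧ c'.top ≤ z' ∧ (∀ l, c'.f c'.top (y' l) < H l) ∧ e = a' ⊓ rs R c'.top z' w y'})ᶜ ⊓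
      rs R z z' w y ⊓ (a' ⊓ rs R c'.top z y y') ≤ a' ⊓ rs R c'.top z' w y' := by
    refine le_inf (inf_le_right.trans inf_le_left) ?_
    refine le_trans ?_ (rs_comp hR h5 hzz' w y y')
    refine le_inf (le_inf ?_ ?_) ?_
    · exact (inf_le_left.trans inf_le_left).trans inf_le_left
    · exact inf_le_left.trans inf_le_right
    · exact inf_le_right.trans inf_le_right
  have h8 : a' ⊓ rs R c'.top z' w y' ≤ sSup {e | ∃ (a' : A) (c' : Cond A) (y' : Fin k → ℕ), (a', (c' : WithTop (Cond A))) ∈ D ∧ a' ≤ a ∧ c' ≤ c ∧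
      c.top < c'.top ∧ c'.top ≤ z' ∧ (∀ l, c'.f c'.top (y' l) < H l) ∧ e = a' ⊓ rs R c'.top z' w y'} :=
    le_sSup ⟨a', c', y', h1, h2, h3, h4, h5.trans hzz', h6, rfl⟩
  have h9 := le_inf (h7.trans h8) ((inf_le_left.trans inf_le_left).trans inf_le_right :
    b ⊓ (sSup {e | ∃ (a' : A) (c' : Cond A) (y' : Fin k → ℕ), (a', (c' : WithTop (Cond A))) ∈ D ∧ a' ≤ a ∧ c' ≤ c ∧
      c.top < c'.top ∧ c'.top ≤ z' ∧ (∀ l, c'.f c'.top (y' l) < H l) ∧ e = a' ⊓ rs R c'.top z' w y'})ᶜ ⊓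
      rs R z z' w y ⊓ (a' ⊓ rs R c'.top z y y') ≤ _)
  rwa [inf_compl_self] at h9

theorem ev_bad (R : Om → Om → ℕ → ℕ → A) : Ev (fun M => ∀ (k : ℕ) (H : Fin k → ℚ) (y : Fin k → ℕ)
    (D : Set (A × WithTop (Cond A))) (a : A) (c : Cond A) (z : Om), InM D M → InM a M → InM c M → InM z M →
      InM (bad R D a c H z y) M) := by
  exact Ev.all_ctbl fun k => Ev.all_ctbl fun H => Ev.all_ctbl fun y =>
    Ev.fn4 (fun (D : Set (A × WithTop (Cond A))) (a : A) (c : Cond A) (z : Om) => bad R D a c H z y)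

theorem ev_pru (R : Om → Om → ℕ → ℕ → A) : Ev (fun M => ∀ (k : ℕ) (H : Fin k → ℚ) (x y : Fin k → ℕ)
    (D : Set (A × WithTop (Cond A))) (a : A) (c : Cond A) (z : Om), InM D M → InM a M → InM c M → InM z M →
      InM (pru R (bad R D a c H) c.top x z y) M) := by
  exact Ev.all_ctbl fun k => Ev.all_ctbl fun H => Ev.all_ctbl fun x => Ev.all_ctbl fun y =>
    Ev.fn4 (fun (D : Set (A × WithTop (Cond A))) (a : A) (c : Cond A) (z : Om) => pru R (bad R D a c H) c.top x z y)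

end Pool.Agent.CAN.Sp
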