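import Pool.Agent.CAN.TDefs

/-!
# CAN: two-step iterations over a type `A`: the two criteria `PPc`, `NNc` (definitions)
-/

set_option autoImplicit false

namespace Pool.Agent.CAN

section
variable {A : Type 1} [CompleteBooleanAlgebra A] {K : Type 1} [Preorder K]

/-- The conditions of the two-step iteration. -/
def Pc (Good : K → A) : Set (A × K) := {p | p.1 ≠ ⊥ ∧ p.1 ≤ Good p.2}

/-- Dense open sets of conditions. -/
structure DenseOpen (Good : K → A) (D : Set (A × K)) : Prop where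
  sub : D ⊆ Pc Good
  dense : ∀ p ∈ Pc Good, ∃ d ∈ D, d ≤ p
  down : ∀ d ∈ D, ∀ p ∈ Pc Good, p ≤ d → p ∈ D

/-- Generic lower bounds along towers. -/
def PPc (Good : K → A) (W : Om → ZFSet.{1}) (i : Om) : Prop :=
  ∀ j, i ≤ j → ∀ r : A, r ≠ ⊥ → r ≤ ggen Set.univ W i j → (∀ x : A, InM x (W j) → r ≤ x ∨ r ≤ xᶜ) →
    ∀ p ∈ Pc Good, InM p (W i) → r ≤ p.1 →
      ∃ r', r' ≠ ⊥ ∧ r' ≤ r ∧ ∃ c', c' ≤ p.2 ∧ r' ≤ Good c' ∧
        ∀ k, i ≤ k → k ≤ j → ∀ D : Set (A × K), InM D (W k) → DenseOpen Good D →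
          ∃ d ∈ D, InM d (W k) ∧ r' ≤ d.1 ∧ c' ≤ d.2

/-- Generic sequences with lower bounds (no new countable sequences). -/
def NNc (Good : K → A) (M : ZFSet.{1}) (W : Om → ZFSet.{1}) (i : Om) : Prop :=
  ∀ G : Set A, InM G (W i) → GenF Set.univ M G → ∀ p ∈ Pc Good, InM p M → p.1 ∈ G →
    ∃ j, i ≤ j ∧ ∃ cs : ℕ → K, cs 0 = p.2 ∧ (∀ n, cs (n + 1) ≤ cs n) ∧ (∀ n, InM (cs n) M) ∧
      (∀ n, Good (cs n) ∈ G) ∧
      (∀ D : Set (A × K), InM D M → DenseOpen Good D → ∃ n, ∃ a ∈ G, (a, cs n) ∈ D) ∧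
      sInf G ⊓ ggen Set.univ W i j ≤ sSup {b | ∃ c', (∀ n, c' ≤ cs n) ∧ b ≤ Good c'}

end

end Pool.Agent.CAN
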