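import Pool.Agent.CAN.SFS

/-!
# CAN / SNN: completeness (no new countable sequences)

Let `M`, `W`, `i` be suitable (`EvN.and`, `EvN.of_ev` for the `Ev` facts at `M`, `ev_worlds`, and `b`, `triv A z hz ∈ M` by `Ev.const`), `G ∈ W i` generic over `M`, `p ∈ Pc`, `p ∈ M`, `p.1 ∈ G`.  Take `j = i`; `v (del M) = ⊤`.

Case 1: `b ∉ G`.  Then `p.2 = ⊤` (otherwise `p.1 ≤ good ≤ b`).  Take `c n = ⊤`.  `goodT ⊤ = ⊤ ∈ G`.  For `D`: by `ev_out` and `ev_gf` some element of `{a | (a, ⊤) ∈ D} ∪ {b}` is in `G`; it is not `b`.  The right hand side is `⊤` (`c' = ⊤`).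

Case 2: `b ∈ G`.  Let `c₀ = p.2` if it is not `⊤` (then `p.1 ≤ c₀.good R b ∈ G`, as it is in `M`), and `c₀ = triv A z hz` (`triv_good`, `z = Om.z`, `Om.z_le`) if `p.2 = ⊤`.  Apply `ev_fus` with
`𝒲 = {w | InM w (W i) ∧ World R b M G w}` (countable: `W i` is countable (`EvT.of_ev (Ev.mdl _)`), `tr_countable`) and `B = ∅`: we get `s`.  Put `c n = s n` if `p.2 = c₀`, and `c 0 = ⊤`, `c (n + 1) = s n` if `p.2 = ⊤`
(coerced to `WithTop`; `Ev.coe_iff`).  For every `w ∈ 𝒲` there is `c'` below all `s n` with `w ≤ c'.good R b`, so `w` is below the right hand side; `sInf G ⊓ ggen ≤ sSup 𝒲` by `ev_worlds` (`sInf G ≤ b`).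
-/

set_option autoImplicit false

namespace Pool.Agent.CAN.Sp

variable {A : Type 1} [CompleteBooleanAlgebra A] {R : Om → Om → ℕ → ℕ → A} {b : A}

private theorem SNN_fin {M : ZFSet.{1}} {W : Om → ZFSet.{1}} {i : Om} {G : Set A} (hbG : b ∈ G)
    (htopM : InM (⊤ : WithTop (Cond A)) M) (htopG : (⊤ : A) ∈ G) (hcoe : ∀ x : Cond A, InM (x : WithTop (Cond A)) M ↔ InM x M)
    (hworlds : b ⊓ sInf G ⊓ ggen Set.univ W i i ≤ sSup {w | InM w (W i) ∧ World R b M G w})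
    (s : ℕ → Cond A) (hs : ∀ n, InM (s n) M ∧ (s n).good R b ∈ G)
    (hDs : ∀ D : Set (A × WithTop (Cond A)), InM D M → DOp (goodT R b) D →
      ∃ n, ∃ a ∈ G, (a, ((s n : Cond A) : WithTop (Cond A))) ∈ D)
    (hw : ∀ w : A, InM w (W i) → World R b M G w → ∃ c' : Cond A, (∀ n, c' ≤ s n) ∧ w ≤ c'.good R b)
    (c : ℕ → WithTop (Cond A)) (h1 : ∀ n, c n = ⊤ ∨ ∃ m, c n = ((s m : Cond A) : WithTop (Cond A)))
    (h2 : ∀ m, ∃ n, c n = ((s m : Cond A) : WithTop (Cond A))) :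
    (∀ n, InM (c n) M ∧ goodT R b (c n) ∈ G) ∧
      (∀ D : Set (A × WithTop (Cond A)), InM D M → DOp (goodT R b) D → ∃ n, ∃ a ∈ G, (a, c n) ∈ D) ∧
      sInf G ⊓ ggen Set.univ W i i ⊓ ⊤ ≤ sSup {x | ∃ c', (∀ n, c' ≤ c n) ∧ x ≤ goodT R b c'} := by
  refine ⟨fun n => ?_, fun D hDM hDO => ?_, ?_⟩
  · rcases h1 n with h | ⟨m, h⟩
    · rw [h]
      exact ⟨htopM, htopG⟩
    · rw [h]
      exact ⟨(hcoe _).2 (hs m).1, (hs m).2⟩
  · obtain ⟨m, a, ha, had⟩ := hDs D hDM hDO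
    obtain ⟨n, hn⟩ := h2 m
    exact ⟨n, a, ha, by rw [hn]; exact had⟩
  · have h3 : sInf G ⊓ ggen Set.univ W i i ⊓ ⊤ ≤ b ⊓ sInf G ⊓ ggen Set.univ W i i := by
      rw [inf_top_eq]
      exact le_inf (le_inf (inf_le_left.trans (sInf_le hbG)) inf_le_left) inf_le_right
    refine (h3.trans hworlds).trans (sSup_le ?_)
    rintro w ⟨hwi, hww⟩
    obtain ⟨c', hc', hle⟩ := hw w hwi hww
    refine le_sSup ⟨(c' : WithTop (Cond A)), fun n => ?_, hle⟩
    rcases h1 n with h | ⟨m, h⟩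
    · rw [h]
      exact le_top
    · rw [h]
      exact WithTop.coe_le_coe.2 (hc' m)

theorem evN_nnc (hD : Distr (Set.univ : Set A)) (hR : Sys R b) (hN : NoBr R b) :
    EvN (NNc (goodT R b) (fun _ => ⊤)) := by
  have E1 := EvN.of_ev (ev_fus hD hR hN)
  have E2 := EvN.of_ev (ev_gf (A := A))
  have E3 := EvN.of_ev ((ev_out R b).and (ev_top R b))
  have E4 := ev_worlds hD hR
  have E5 := EvN.of_ev (((Ev.const b).and (Ev.const (triv A Om.z Om.z_le))).and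
    ((Ev.const (⊤ : WithTop (Cond A))).and (Ev.const (⊤ : A))))
  have E6 := EvN.of_evT (EvT.of_ev (Ev.mdl (fun _ _ => ∅)))
  have E7 := EvN.of_ev ((Ev.pair_iff A (WithTop (Cond A))).and (Ev.coe_iff (Cond A)))
  refine ((((E1.and E2).and (E3.and E4)).and (E5.and E6)).and E7).mono ?_
  rintro M W i - ⟨⟨⟨⟨f1, f2⟩, ⟨f3, ft⟩, f4⟩, ⟨⟨fb, ftr⟩, ftop, ftopA⟩, f6⟩, fp, fc⟩
  rintro G hGW hG ⟨a, k⟩ hp hpM haG
  have haM := (fp a k).1 hpM
  obtain ⟨g1, g2, g3, g4⟩ := f2 G hG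
  have htopG : (⊤ : A) ∈ G := g3 ⊤ ftopA a haG le_top
  by_cases hbG : b ∈ G
  · refine ⟨i, le_rfl, ?_⟩
    have key : ∃ c₀ : Cond A, InM c₀ M ∧ c₀.good R b ∈ G ∧ (k = ⊤ ∨ k = (c₀ : WithTop (Cond A))) := by
      induction k using WithTop.recTopCoe with
      | top => exact ⟨triv A Om.z Om.z_le, ftr, by rw [triv_good]; exact hbG, Or.inl rfl⟩
      | coe c =>
        have hcM : InM c M := (fc c).1 haM.2
        exact ⟨c, hcM, g3 _ (ft.1 c hcM).2.1 a haG hp.2, Or.inr rfl⟩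
    obtain ⟨c₀, hc₀M, hc₀G, hk⟩ := key
    obtain ⟨s, hanti, hs0, hs, hDs, hw⟩ := f1 G hG {w | InM w (W i) ∧ World R b M G w}
      ((tr_countable (f6 i le_rfl).ctbl).mono fun _ h => h.1) (fun w h => h.2) c₀ hc₀M hc₀G ∅
      (fun p hp => absurd hp (Finset.notMem_empty p))
    have hw' : ∀ w : A, InM w (W i) → World R b M G w → ∃ c' : Cond A, (∀ n, c' ≤ s n) ∧ w ≤ c'.good R b := by
      intro w hw1 hw2
      obtain ⟨c', h1, _, h2, _⟩ := hw ⟨w, hw1, hw2⟩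
      exact ⟨c', h1, h2⟩
    rcases hk with hk | hk
    · let c : ℕ → WithTop (Cond A) := fun n => Nat.casesOn n ⊤ (fun m => ((s m : Cond A) : WithTop (Cond A)))
      refine ⟨c, ?_, hk.symm, SNN_fin hbG ftop htopG fc (f4 G hGW) s hs hDs hw' c ?_ ?_⟩
      · refine antitone_nat_of_succ_le ?_
        intro n
        cases n with
        | zero => exact le_top
        | succ n => exact WithTop.coe_le_coe.2 (hanti (Nat.le_succ n))
      · intro n
        cases n with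
        | zero => exact Or.inl rfl
        | succ n => exact Or.inr ⟨n, rfl⟩
      · intro m
        exact ⟨m + 1, rfl⟩
    · refine ⟨fun n => ((s n : Cond A) : WithTop (Cond A)), ?_, ?_,
        SNN_fin hbG ftop htopG fc (f4 G hGW) s hs hDs hw' _ (fun n => Or.inr ⟨n, rfl⟩) (fun m => ⟨m, rfl⟩)⟩
      · intro n m h
        exact WithTop.coe_le_coe.2 (hanti h)
      · change ((s 0 : Cond A) : WithTop (Cond A)) = k
        rw [hs0, hk]
  · have hk : k = ⊤ := by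
      induction k using WithTop.recTopCoe with
      | top => rfl
      | coe c => exact absurd (g3 b fb a haG (hp.2.trans (Cond.good_le R b c))) hbG
    refine ⟨i, le_rfl, fun _ => ⊤, fun _ _ _ => le_rfl, hk.symm, fun _ => ⟨ftop, htopG⟩, fun D hDM hDO => ?_, ?_⟩
    · obtain ⟨_, h2, h3⟩ := f3 D hDM hDO
      obtain ⟨d, hd, hdG⟩ := g4 _ h2 a haG (by rw [h3]; exact le_top)
      rcases hd with hd | hd
      · exact ⟨0, d, hdG, hd⟩
      · have : d = b := hd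
        rw [this] at hdG
        exact absurd hdG hbG
    · refine le_top.trans (le_sSup ⟨⊤, fun _ => le_rfl, ?_⟩)
      exact le_rfl

end Pool.Agent.CAN.Sp
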