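import Pool.Agent.CAN.SPP
import Pool.Agent.CAN.SNN
import Pool.Agent.CAN.SDefs

/-!
# CAN / SBR: the results of part S in the form used by the bridge `np_of_c`

`Sp.Pc Good` and `CAN.Pc Good` are the same set (`rfl`), `Sp.DOp Good D ↔ DenseOpen Good D` (same fields).  `evT_pp`: `EvT.mono` applied to `evT_ppc` (`v = ⊤`: the hypothesis `r ≤ ⊤` is `le_top`).
`evN_nn`: `EvN.mono` applied to `evN_nnc` (`⊓ ⊤` disappears by `inf_top_eq`; `Antitone c` gives `c (n + 1) ≤ c n`).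
`goodT_anti'` is `goodT_anti`.
-/

set_option autoImplicit false

namespace Pool.Agent.CAN

variable {A : Type 1} [CompleteBooleanAlgebra A] {R : Om → Om → ℕ → ℕ → A} {b : A}

private theorem SBR_dop {K : Type 1} [Preorder K] {Good : K → A} {D : Set (A × K)} (h : DenseOpen Good D) :
    Sp.DOp Good D := ⟨h.sub, h.dense, h.down⟩

theorem evT_pp (hD : Distr (Set.univ : Set A)) (hR : Sys R b) (hN : NoBr R b) : EvT (PPc (Sp.goodT R b)) := by
  refine (Sp.evT_ppc hD hR hN).mono ?_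
  intro W i _ h j hij r hr hrg hdec p hp hpi hrp
  obtain ⟨r', h1, h2, c, h3, h4, h5⟩ := h j hij r hr hrg (fun _ _ _ => le_top) hdec p hp hpi hrp
  exact ⟨r', h2, h1, c, h3, h4, fun k hk1 hk2 D hD hDO => h5 k hk1 hk2 D hD (SBR_dop hDO)⟩

theorem evN_nn (hD : Distr (Set.univ : Set A)) (hR : Sys R b) (hN : NoBr R b) : EvN (NNc (Sp.goodT R b)) := by
  refine (Sp.evN_nnc hD hR hN).mono ?_
  intro M W i _ h G hG hGF p hp hpM hpG
  obtain ⟨j, hij, c, h1, h2, h3, h4, h5⟩ := h G hG hGF p hp hpM hpG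
  exact ⟨j, hij, c, h2, fun n => h1 (Nat.le_succ n), fun n => (h3 n).1, fun n => (h3 n).2,
    fun D hD hDO => h4 D hD (SBR_dop hDO), by rwa [inf_top_eq] at h5⟩

end Pool.Agent.CAN
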