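import Pool.Agent.CAN.SSP

/-!
# CAN / SDJ: many pairwise disjoint extensions

Say that a family `w : Fin m → Fin k → ℕ` of tuples of level `z'` is good (for `q'`) if `q' ≤ W z' (w i) ⊓ rs R z z' (w i) y` for all `i`.
Start with `z' = z` and `w i = y` (`rs_refl`).

STEP: given a good family and `i ≠ j`, `l`, `l'` there are a nonzero `q'' ≤ q'`, `z'' ≥ z'` and a family `w'` of level `z''` with
`q'' ≤ W z'' (w' i') ⊓ rs R z' z'' (w' i') (w i')` for all `i'`, and `w' i l ≠ w' j l'`: apply `PTr.split` to `w j` and the coordinate `l'`: two extensions `u`, `u'` of a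
level `z''` with `u l' ≠ u' l'`; extend every `w i'`, `i' ≠ j`, to the level `z''` (`PTr.ext` and `ne_bot_of_le_iSup`, finitely many times); one of `u`, `u'` differs from
`w' i l` in the coordinate `l'`; take it as `w' j`.
`rs R z z'' (w' i') y` follows by `rs_comp`.
Different coordinates stay different: if `w i₁ l₁ ≠ w j₁ l₁'` then `w' i₁ l₁ ≠ w' j₁ l₁'`, since otherwise `q'' ≤ R z' z'' n (w i₁ l₁) ⊓ R z' z'' n (w j₁ l₁')`, contradicting
`Sys.uniq`.
So we can treat all quadruples `(i, j, l, l')` with `i ≠ j` one after the other (induction over a finite set of quadruples: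
`Finset.induction_on` for the statement: there are `q'`, `z'` and a good family such that the coordinates differ for all quadruples of the finite set).
-/

set_option autoImplicit false

namespace Pool.Agent.CAN.Sp

variable {A : Type 1} [CompleteBooleanAlgebra A] {R : Om → Om → ℕ → ℕ → A} {b : A}

private theorem SDJ_fam {k : ℕ} {t : Om} {W : Om → (Fin k → ℕ) → A} (hW : PTr R b t W)
    {z z' : Om} (hz : t ≤ z) (hzz : z ≤ z') {m : ℕ} (w : Fin m → Fin k → ℕ) {q : A} (hq : q ≠ ⊥) (hb : q ≤ b)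
    (hw : ∀ i, q ≤ W z (w i)) (s : Finset (Fin m)) :
    ∃ q' ≤ q, q' ≠ ⊥ ∧ ∃ v : Fin m → Fin k → ℕ, ∀ i ∈ s, q' ≤ W z' (v i) ⊓ rs R z z' (v i) (w i) := by
  classical
  induction s using Finset.induction_on with
  | empty => exact ⟨q, le_rfl, hq, w, fun i hi => absurd hi (Finset.notMem_empty i)⟩
  | insert i s his ih =>
    obtain ⟨q', hq', hq'0, v, hv⟩ := ih
    obtain ⟨u, hu⟩ := ne_bot_of_le_iSup hq'0
      ((le_inf (hq'.trans hb) (hq'.trans (hw i))).trans (hW.ext z z' hz hzz (w i)))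
    refine ⟨_, inf_le_left.trans hq', hu, Function.update v i u, fun j hj => ?_⟩
    by_cases hji : j = i
    · subst hji
      rw [Function.update_self]
      exact inf_le_right
    · rw [Function.update_of_ne hji]
      exact inf_le_left.trans (hv j (Finset.mem_of_mem_insert_of_ne hj hji))

private theorem SDJ_step (hR : Sys R b) (hN : NoBr R b) {k : ℕ} {t : Om} {W : Om → (Fin k → ℕ) → A} (hW : PTr R b t W)
    {z : Om} (hz : t ≤ z) {m : ℕ} (w : Fin m → Fin k → ℕ) {q : A} (hq : q ≠ ⊥) (hb : q ≤ b)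
    (hw : ∀ i, q ≤ W z (w i)) {i j : Fin m} (hij : i ≠ j) (l l' : Fin k) :
    ∃ q' ≤ q, q' ≠ ⊥ ∧ ∃ z', z ≤ z' ∧ ∃ w' : Fin m → Fin k → ℕ,
      (∀ i', q' ≤ W z' (w' i') ⊓ rs R z z' (w' i') (w i')) ∧ w' i l ≠ w' j l' := by
  classical
  obtain ⟨q₁, hq₁, hq₁0, z', hzz, u, u', huu, hu, hu'⟩ := PTr.split hR hN hW hz hq hb (hw j) l'
  obtain ⟨q₂, hq₂, hq₂0, v, hv⟩ := SDJ_fam hW hz hzz w hq₁0 (hq₁.trans hb) (fun i => hq₁.trans (hw i)) Finset.univ
  refine ⟨q₂, hq₂.trans hq₁, hq₂0, z', hzz, Function.update v j (if v i l = u l' then u' else u), ?_, ?_⟩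
  · intro i'
    by_cases hji : i' = j
    · subst hji
      rw [Function.update_self]
      split_ifs with h
      · exact hq₂.trans hu'
      · exact hq₂.trans hu
    · rw [Function.update_of_ne hji]
      exact hv i' (Finset.mem_univ _)
  · rw [Function.update_self, Function.update_of_ne hij]
    split_ifs with h
    · rw [h]
      exact huu
    · exact h

theorem PTr.disj (hR : Sys R b) (hN : NoBr R b) {k : ℕ} {t : Om} {W : Om → (Fin k → ℕ) → A} (hW : PTr R b t W)
    {z : Om} (hz : t ≤ z) {q : A} (hq : q ≠ ⊥) (hb : q ≤ b) {y : Fin k → ℕ} (hy : q ≤ W z y) (m : ℕ) :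
    ∃ q' ≤ q, q' ≠ ⊥ ∧ ∃ z', z ≤ z' ∧ ∃ w : Fin m → Fin k → ℕ,
      (∀ i, q' ≤ W z' (w i) ⊓ rs R z z' (w i) y) ∧ ∀ i j, i ≠ j → ∀ l l', w i l ≠ w j l' := by
  classical
  have key : ∀ s : Finset (Fin m × Fin m × Fin k × Fin k), ∃ q' ≤ q, q' ≠ ⊥ ∧ ∃ z', z ≤ z' ∧
      ∃ w : Fin m → Fin k → ℕ, (∀ i, q' ≤ W z' (w i) ⊓ rs R z z' (w i) y) ∧
        ∀ p ∈ s, p.1 ≠ p.2.1 → w p.1 p.2.2.1 ≠ w p.2.1 p.2.2.2 := by
    intro s
    induction s using Finset.induction_on with
    | empty =>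
      exact ⟨q, le_rfl, hq, z, le_rfl, fun _ => y, fun _ => le_inf hy (hb.trans (rs_refl hR z y)),
        fun p hp => absurd hp (Finset.notMem_empty p)⟩
    | insert p s hps ih =>
      obtain ⟨q', hq', hq'0, z', hzz, w, hw, hs⟩ := ih
      by_cases hp : p.1 = p.2.1
      · refine ⟨q', hq', hq'0, z', hzz, w, hw, fun p' hp' hne => ?_⟩
        rcases Finset.mem_insert.1 hp' with rfl | h
        · exact absurd hp hne
        · exact hs p' h hne
      · obtain ⟨q₂, hq₂, hq₂0, z₂, hz₂, w', hw', hne⟩ := SDJ_step hR hN hW (hz.trans hzz) w hq'0 (hq'.trans hb)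
          (fun i => (hw i).trans inf_le_left) hp p.2.2.1 p.2.2.2
        have hb₂ : q₂ ≤ b := hq₂.trans (hq'.trans hb)
        refine ⟨q₂, hq₂.trans hq', hq₂0, z₂, hzz.trans hz₂, w', fun i => le_inf ((hw' i).trans inf_le_left) ?_,
          fun p' hp' hne' => ?_⟩
        · exact (le_inf (le_inf hb₂ ((hw' i).trans inf_le_right)) (hq₂.trans ((hw i).trans inf_le_right))).trans
            (rs_comp hR hzz hz₂ (w' i) (w i) y)
        · rcases Finset.mem_insert.1 hp' with rfl | h
          · exact hne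
          · intro heq
            apply hq₂0
            have h1 : q₂ ≤ R z' z₂ (w' p'.1 p'.2.2.1) (w p'.1 p'.2.2.1) :=
              (hw' p'.1).trans (inf_le_right.trans (iInf_le _ p'.2.2.1))
            have h2 : q₂ ≤ R z' z₂ (w' p'.2.1 p'.2.2.2) (w p'.2.1 p'.2.2.2) :=
              (hw' p'.2.1).trans (inf_le_right.trans (iInf_le _ p'.2.2.2))
            rw [← heq] at h2
            have h3 := (le_inf (le_inf hb₂ h1) h2).trans
              (hR.uniq z' z₂ (w' p'.1 p'.2.2.1) _ _ hz₂ (hs p' h hne')).le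
            exact le_bot_iff.1 h3
  obtain ⟨q', hq', hq'0, z', hzz, w, hw, hs⟩ := key Finset.univ
  exact ⟨q', hq', hq'0, z', hzz, w, hw, fun i j hij l l' => hs (i, j, l, l') (Finset.mem_univ _) hij⟩

end Pool.Agent.CAN.Sp
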