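import Pool.Agent.CAN.STW
import Pool.Agent.CAN.SAQ
import Pool.Agent.CAN.HDefs

/-!
# CAN / SFB: the club and the specialising function

`Sp.Pc Good` and `Pc Good` are the same set (`rfl` or `Iff.rfl`).  Write `[p] = ι (e p.1) p.2` for `p ∈ Pc Good`, `Good = Sp.goodT R b`.
`Cs α = ⨆ [p]` over the `p ∈ Pc Good` with `p.2 = (c : WithTop _)`, `α ∈ c.C`; `fs α n q = ⨆ [p]` over the `p ∈ Pc Good` with `p.2 = (c : WithTop _)`, `α ∈ c.C`, `c.f α n = q`.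

(1) `e b ≤ unbV Cs`: let `α` be given and suppose `x = e b ⊓ (⨆ β > α, Cs β)ᶜ ≠ ⊥`.  `two_below`: `p ∈ Pc`, `[p] ≤ x`; `p.1 ≤ b` (`two_le`).  `Sp.exists_top`: `p' ≤ p` in `Pc` with `p'.2 = c`, `α < c.top`.
`[p'] ≤ Cs c.top`, and `[p'] ≤ [p] ≤ x` (`two_mono`), so `[p'] = ⊥`, contradiction (`two_ne`).

(2) `e b ≤ closV Cs`: let `a` be given, `x = e b ⊓ (⨅ β < a, ⨆ γ ∈ (β, a), Cs γ) ⊓ (Cs a)ᶜ` and suppose `x ≠ ⊥`.  As in (1) there is `p ∈ Pc`, `[p] ≤ x`, `p.2 = c`, `a < c.top`.  For every `β < a`: `[p] ≤ ⨆ γ ∈ (β, a), Cs γ`, so some `γ`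
has `[p] ⊓ Cs γ ≠ ⊥` and some `p₁ ∈ Pc` with `p₁.2 = c₁`, `γ ∈ c₁.C` has `[p] ⊓ [p₁] ≠ ⊥`.  `two_compat` (for `p` and `x := [p₁]`): `p₂ ≤ p`, `[p₂] ≤ [p₁]`, and again `two_compat` (for `p₁` and `x := [p₂]`; `[p₁] ⊓ [p₂] = [p₂] ≠ ⊥`):
`p₃ ≤ p₁`, `[p₃] ≤ [p₂]`.  A common extension of `p₂` and `p₃`: use `Two.sep` directly: `Pos p`, `Pos p₁`: first find `q` with `[q] ≤ [p] ⊓ [p₁]`; `sep` for `q`, `p` gives `q' ≤ q, p`, and `[q'] ≤ [p₁]` gives by `sep` a `q'' ≤ q', p₁`.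
So `q'' ≤ p, p₁`, `q''.2 = c₂ ≤ c, c₁` (not `⊤`), `γ ∈ c₁.C ⊆ c₂.C`, `γ < a < c.top`, so `γ ∈ c.C` (`c.C = {γ ∈ c₂.C | γ ≤ c.top}`).  So `a ∈ c.C` by `c.closed`, `[p] ≤ Cs a`, contradiction.
(Write a lemma: if `p, p₁ ∈ Pc`, `[p] ⊓ [p₁] ≠ ⊥` then there is `q ∈ Pc` with `q ≤ p`, `q ≤ p₁`; even below a given `y` with `[p] ⊓ [p₁] ⊓ y ≠ ⊥`: `[q] ≤ y`.)

(3) `e b ⊓ Cs a ≤ ⨆ q, fs a n q`: `[p] ≤ fs a n (c.f a n)` for every `p` in the sup.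

(4) Let `a < a'` and `x = e b ⊓ Cs a ⊓ Cs a' ⊓ e (R a a' n m) ⊓ fs a m q ⊓ fs a' n r ≠ ⊥`.  Then there are `p₁` with `p₁.2 = c₁`, `a ∈ c₁.C`, `c₁.f a m = q`, and `p₂` with `p₂.2 = c₂`, `a' ∈ c₂.C`, `c₂.f a' n = r` with
`x ⊓ [p₁] ⊓ [p₂] ≠ ⊥`, so a common extension `p₃ ∈ Pc` with `[p₃] ≤ x ≤ e (R a a' n m)`, so `p₃.1 ≤ R a a' n m` (`two_le`), `p₃.2 = c₃ ≤ c₁, c₂`, `c₃.f a m = q`, `c₃.f a' n = r`, `a, a' ∈ c₃.C`, `⊥ ≠ p₃.1 ≤ c₃.good R b`.  (g1) (`Sp.Cond.le_good`)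
gives `q < r` (otherwise `p₃.1 = p₃.1 ⊓ R a a' n m = ⊥`).
-/

set_option autoImplicit false

namespace Pool.Agent.CAN

variable {A : Type 1} [CompleteBooleanAlgebra A] {R : Om → Om → ℕ → ℕ → A} {b : A}

private theorem SFB_sSup {C : Type 1} [CompleteBooleanAlgebra C] {q : C} (hq : q ≠ ⊥) {D : Set C}
    (h : q ≤ sSup D) : ∃ d ∈ D, q ⊓ d ≠ ⊥ := by
  by_contra hn
  push Not at hn
  apply hq
  have h1 : q ⊓ sSup D = ⊥ := by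
    rw [inf_sSup_eq]
    exact le_antisymm (iSup₂_le fun d hd => (hn d hd).le) bot_le
  rwa [inf_eq_left.mpr h] at h1

private theorem SFB_not {C : Type 1} [CompleteBooleanAlgebra C] {x y : C} (h : ¬ x ≤ y) : x ⊓ yᶜ ≠ ⊥ :=
  fun h0 => h (disjoint_compl_right_iff.mp (disjoint_iff.mpr h0))

private theorem SFB_bot {C : Type 1} [CompleteBooleanAlgebra C] {x y : C} (h1 : x ≤ y) (h2 : x ≤ yᶜ) :
    x = ⊥ :=
  le_bot_iff.mp ((le_inf h1 h2).trans_eq (inf_compl_eq_bot))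

section
variable {K : Type 1} [Preorder K] {Good : K → A} {C : Type 1} [CompleteBooleanAlgebra C] {e : A → C}
  {ι : C → K → C}

/-- the conditions -/
private def SFB_Pc (Good : K → A) : Set (A × K) := {p | p.1 ≠ ⊥ ∧ p.1 ≤ Good p.2}

private theorem SFB_eb (he : CEmb e) : e ⊥ = ⊥ := by
  have := he.sup ∅
  rwa [sSup_empty, Set.image_empty, sSup_empty] at this

private theorem SFB_sup (he : CEmb e) (x y : A) : e (x ⊔ y) = e x ⊔ e y := by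
  have := he.sup {x, y}
  rwa [sSup_pair, Set.image_pair, sSup_pair] at this

private theorem SFB_le (he : CEmb e) {x y : A} : e x ≤ e y ↔ x ≤ y := by
  rw [← sup_eq_right, ← SFB_sup he, he.inj.eq_iff, sup_eq_right]

private theorem SFB_com (he : CEmb e) (h2 : Two (Set.range e) Set.univ (fun c => e (Good c)) ι)
    {p p1 : A × K} (hp : p ∈ SFB_Pc Good) (hp1 : p1 ∈ SFB_Pc Good) {y : C}
    (h : ι (e p.1) p.2 ⊓ ι (e p1.1) p1.2 ⊓ y ≠ ⊥) :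
    ∃ q ∈ SFB_Pc Good, q ≤ p ∧ q ≤ p1 ∧ ι (e q.1) q.2 ≤ y := by
  rw [inf_assoc] at h
  obtain ⟨p', hp', hle, hy⟩ := two_compat he h2 hp h
  have hpos : ∀ p : A × K, p ∈ SFB_Pc Good → Pos (Set.range e) (fun c => e (Good c)) (e p.1) p.2 :=
    fun p hp => ⟨⟨_, rfl⟩, fun h0 => hp.1 (he.inj (h0.trans (SFB_eb he).symm)), (SFB_le he).mpr hp.2⟩
  obtain ⟨a'', c'', ⟨⟨x, rfl⟩, h3, h4⟩, h5, h6, h7, h8⟩ := h2.sep _ _ _ _ (hpos _ hp1) (hpos _ hp')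
    (hy.trans inf_le_left)
  have hq : ((x, c'') : A × K) ∈ SFB_Pc Good :=
    ⟨fun h0 => h3 ((congrArg e h0).trans (SFB_eb he)), (SFB_le he).mp h4⟩
  have hle1 : ((x, c'') : A × K) ≤ p' := ⟨(SFB_le he).mp h6, h8⟩
  exact ⟨(x, c''), hq, hle1.trans hle, ⟨(SFB_le he).mp h5, h7⟩,
    (two_mono he h2 hp' hq hle1).trans (hy.trans inf_le_right)⟩

end

private theorem SFB_top (hD : Distr (Set.univ : Set A)) (hR : Sys R b)
    {C : Type 1} [CompleteBooleanAlgebra C] {e : A → C} {ι : C → WithTop (Sp.Cond A) → C} (he : CEmb e)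
    (h2 : Two (Set.range e) Set.univ (fun c => e (Sp.goodT R b c)) ι) {x : C} (hx : x ≠ ⊥)
    (hb : x ≤ e b) (α : Om) :
    ∃ p ∈ SFB_Pc (Sp.goodT R b), ∃ c : Sp.Cond A, p.2 = (c : WithTop (Sp.Cond A)) ∧ α < c.top ∧
      ι (e p.1) p.2 ≤ x := by
  obtain ⟨p0, hp0, hle⟩ := two_below he h2 hx
  have hb0 : p0.1 ≤ b := (two_le he h2 hp0 b).mp (hle.trans hb)
  obtain ⟨p', hp', hle', c, hc, hct⟩ := Sp.exists_top hD hR p0 hp0 hb0 α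
  exact ⟨p', hp', c, hc, hct, (two_mono he h2 hp0 hp' hle').trans hle⟩

omit [CompleteBooleanAlgebra A] in
private theorem SFB_coe {y : WithTop (Sp.Cond A)} {c : Sp.Cond A} (h : y ≤ (c : WithTop (Sp.Cond A))) :
    ∃ c2 : Sp.Cond A, y = (c2 : WithTop (Sp.Cond A)) ∧ c2 ≤ c := by
  induction y using WithTop.recTopCoe with
  | top => simp at h
  | coe c2 => exact ⟨c2, rfl, WithTop.coe_le_coe.mp h⟩

theorem special_of_two (hD : Distr (Set.univ : Set A)) (hR : Sys R b)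
    {C : Type 1} [CompleteBooleanAlgebra C] {e : A → C} {ι : C → WithTop (Sp.Cond A) → C} (he : CEmb e)
    (h2 : Two (Set.range e) Set.univ (fun c => e (Sp.goodT R b c)) ι) :
    SpecialV (fun a b n m => e (R a b n m)) (e b) := by
  classical
  let Cs : Om → C := fun α => sSup {x | ∃ p ∈ SFB_Pc (Sp.goodT R b), ∃ c : Sp.Cond A,
    p.2 = (c : WithTop (Sp.Cond A)) ∧ α ∈ c.C ∧ x = ι (e p.1) p.2}
  let fs : Om → ℕ → ℚ → C := fun α n q => sSup {x | ∃ p ∈ SFB_Pc (Sp.goodT R b), ∃ c : Sp.Cond A,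
    p.2 = (c : WithTop (Sp.Cond A)) ∧ α ∈ c.C ∧ c.f α n = q ∧ x = ι (e p.1) p.2}
  have hCs : ∀ p ∈ SFB_Pc (Sp.goodT R b), ∀ c : Sp.Cond A, p.2 = (c : WithTop (Sp.Cond A)) → ∀ α ∈ c.C,
      ι (e p.1) p.2 ≤ Cs α := fun p hp c hc α hα => le_sSup ⟨p, hp, c, hc, hα, rfl⟩
  refine ⟨Cs, fs, le_inf ?_ ?_, ?_, ?_⟩
  · refine le_iInf fun α => ?_
    by_contra h
    obtain ⟨p, hp, c, hc, hct, hle⟩ := SFB_top hD hR he h2 (SFB_not h) inf_le_left α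
    refine two_ne he h2 hp (SFB_bot ((hCs p hp c hc c.top c.top_mem).trans ?_) (hle.trans inf_le_right))
    exact le_iSup (fun β : {β : Om // α < β} => Cs β.1) ⟨c.top, hct⟩
  · refine le_iInf fun a => le_himp_iff.mpr ?_
    by_contra h
    obtain ⟨p, hp, c, hc, hct, hle⟩ := SFB_top hD hR he h2 (SFB_not h)
      (inf_le_left.trans inf_le_left) a.1
    have ha : a.1 ∈ c.C := by
      refine c.closed a.1 hct.le fun β hβ => ?_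
      have h3 : ι (e p.1) p.2 ≤ ⨆ γ : {γ : Om // β < γ ∧ γ < a.1}, Cs γ.1 :=
        (hle.trans (inf_le_left.trans inf_le_right)).trans
          (iInf_le (fun β : {β : Om // β < a.1} => ⨆ γ : {γ : Om // β.1 < γ ∧ γ < a.1}, Cs γ.1) ⟨β, hβ⟩)
      obtain ⟨⟨γ, hγ1, hγ2⟩, hne⟩ := Sp.ne_bot_of_le_iSup (two_ne he h2 hp) h3
      obtain ⟨_, ⟨p1, hp1, c1, hc1, hγc, rfl⟩, hne1⟩ := SFB_sSup hne inf_le_right
      have hne2 : ι (e p.1) p.2 ⊓ ι (e p1.1) p1.2 ⊓ ⊤ ≠ ⊥ := by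
        rw [inf_top_eq]
        intro h0
        exact hne1 (le_bot_iff.mp ((inf_le_inf_right _ inf_le_left).trans_eq h0))
      obtain ⟨q, hq, hqp, hqp1, -⟩ := SFB_com he h2 hp hp1 hne2
      obtain ⟨c2, hc2, hle2⟩ := SFB_coe (c := c) (hqp.2.trans_eq hc)
      have hle3 : c2 ≤ c1 := WithTop.coe_le_coe.mp (hc2 ▸ (hqp1.2.trans_eq hc1))
      have h4 : γ ∈ c2.C := Sp.Cond.C_sub hle3 hγc
      refine ⟨γ, ?_, hγ1, hγ2.le⟩
      rw [hle2.1]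
      exact ⟨h4, (hγ2.trans hct).le⟩
    exact two_ne he h2 hp (SFB_bot (hCs p hp c hc a.1 ha) (hle.trans inf_le_right))
  · intro a n
    refine inf_le_right.trans (sSup_le ?_)
    rintro _ ⟨p, hp, c, hc, ha, rfl⟩
    exact le_iSup_of_le (c.f a n) (le_sSup ⟨p, hp, c, hc, ha, rfl, rfl⟩)
  · intro a a' n m q r hlt hne
    obtain ⟨_, ⟨p1, hp1, c1, hc1, ha1, hf1, rfl⟩, hne1⟩ := SFB_sSup hne (inf_le_left.trans inf_le_right)
    obtain ⟨_, ⟨p2, hp2, c2, hc2, ha2, hf2, rfl⟩, hne2⟩ :=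
      SFB_sSup hne1 (inf_le_left.trans inf_le_right)
    rw [inf_assoc, inf_comm] at hne2
    obtain ⟨p3, hp3, hle1, hle2, hle3⟩ := SFB_com he h2 hp1 hp2 hne2
    have h3 : p3.1 ≤ R a a' n m := (two_le he h2 hp3 _).mp
      (hle3.trans (inf_le_left.trans (inf_le_left.trans inf_le_right)))
    obtain ⟨c3, hc3, hc31⟩ := SFB_coe (c := c1) (hle1.2.trans_eq hc1)
    have hc32 : c3 ≤ c2 := WithTop.coe_le_coe.mp (hc3 ▸ (hle2.2.trans_eq hc2))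
    have hg : p3.1 ≤ c3.good R b := by
      have := hp3.2
      rwa [hc3] at this
    have hg1 := ((Sp.Cond.le_good R c3).mp hg).2.1 a a' n m (Sp.Cond.C_sub hc31 ha1)
      (Sp.Cond.C_sub hc32 ha2) hlt
    by_contra hqr
    rw [hc31.2.1 a ha1, hc32.2.1 a' ha2, hf1, hf2] at hg1
    have h5 := hg1 hqr
    rw [inf_eq_left.mpr h3] at h5
    exact hp3.1 h5

end Pool.Agent.CAN
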