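import Pool.Agent.CAN.SDef

/-!
# CAN / SSM: smallness

`Om` is small (`Ordinal.{0}` below `ω₁`: the type `{a : Ordinal.{0} // a < Ordinal.omega 1}` is small, e.g. by `Ordinal.small_Iio` or the instance for `Set.Iio`).
`Prom A` injects into `Σ k : ℕ, Om × (Fin k → ℚ) × (Om → (Fin k → ℕ) → A)`, which is small if `A` is (`small_sigma`, `small_Pi`).  `Cond A` injects into `Set Om × Om × (Om → ℕ → ℚ) × Set (Prom A)`
by `c ↦ (c.C, c.top, c.f, c.G)` (`small_set` or `Set α = α → Prop`); `WithTop (Cond A) = Option (Cond A)` (`small_of_surjective` / `Option` is a quotient or equivalent to a sum `Cond A ⊕ PUnit`).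
Use `small_of_injective`.
-/

set_option autoImplicit false

namespace Pool.Agent.CAN.Sp

theorem small_om : Small.{0} Om := by
  have h : Small.{0} (Set.Iio (Ordinal.omega.{0} 1)) := Ordinal.small_Iio _
  exact h

private theorem SSM_prom (A : Type 1) (hA : Small.{0} A) : Small.{0} (Prom A) := by
  have := small_om
  refine small_of_injective (f := fun u : Prom A =>
    (⟨u.k, u.base, u.h, u.U⟩ : Σ k : ℕ, Om × (Fin k → ℚ) × (Om → (Fin k → ℕ) → A))) ?_
  rintro ⟨k, b, h, U⟩ ⟨k', b', h', U'⟩ hg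
  simp only [Sigma.mk.injEq] at hg
  obtain ⟨rfl, hg⟩ := hg
  simp only [heq_eq_eq, Prod.mk.injEq] at hg
  obtain ⟨rfl, rfl, rfl⟩ := hg
  rfl

theorem small_cond (A : Type 1) (hA : Small.{0} A) : Small.{0} (WithTop (Cond A)) := by
  have := small_om
  have := SSM_prom A hA
  have : Small.{0} (Cond A) := by
    refine small_of_injective (f := fun c : Cond A => (c.C, c.top, c.f, c.G)) ?_
    rintro ⟨C, t, h1, h2, h3, f, G, h4, h5⟩ ⟨C', t', h1', h2', h3', f', G', h4', h5'⟩ h
    simp only [Prod.mk.injEq] at h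
    obtain ⟨rfl, rfl, rfl, rfl⟩ := h
    rfl
  refine small_of_surjective (f := (Sum.elim (fun c => (c : WithTop (Cond A))) (fun _ => ⊤) :
    Cond A ⊕ PUnit.{1} → WithTop (Cond A))) ?_
  intro x
  induction x using WithTop.recTopCoe with
  | top => exact ⟨Sum.inr PUnit.unit, rfl⟩
  | coe c => exact ⟨Sum.inl c, rfl⟩

end Pool.Agent.CAN.Sp
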