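import Pool.Agent.CAN.SDefs
import Pool.Agent.CAN.TPP
import Pool.Agent.CAN.TNN
import Pool.Agent.CAN.NPT

/-!
# CAN/TBR: from the criteria over the type `A` to the nice pair `range e ⊆ univ` in `C`

Apply `two_ppw` with `v = ⊤`, `w = ⊤` and `two_nnv` with `v = ⊤` (then `⊓ ⊤` and `⨅ ⊤` disappear; `NP` is made of `PPs` and `NNs`).
The hypotheses `H` are the hypotheses `PPc`, `NNc` transported along the complete embedding `e : A → C` as in NPT: for models `M` closed under `e`, its inverse on the range,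
`(x, c) ↦ (e x, c)` and its inverse, images and preimages of sets under these maps, `Prod.mk`, `Prod.fst`, `Prod.snd`, we have `InM (e x) M ↔ InM x M`,
`gen (range e) M = e (gen univ M)`, `ggen (range e) W i j = e (ggen univ W i j)`, `GenF (range e) M G ↔ GenF univ M (e ⁻¹' G)` for `G ⊆ range e`, and
`DO (range e) (fun c => e (Good c)) D ↔ DenseOpen Good (preimage of D)` where the preimage of `D` is `{p | (e p.1, p.2) ∈ D}`; `Pos (range e) (e ∘ Good) (e a) c ↔ (a, c) ∈ Pc Good`.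
An element `r` of `range e` is `e r0`.  `Distr (range e)`: `Distr.map` with `f '' univ = range f`.
-/

set_option autoImplicit false

namespace Pool.Agent.CAN

section
variable {A C : Type 1} [CompleteBooleanAlgebra A] [CompleteBooleanAlgebra C]

private theorem TBR_iInf {f : A → C} (hf : CEmb f) {ι : Sort*} (g : ι → A) :
    f (⨅ i, g i) = ⨅ i, f (g i) := by
  rw [iInf, hf.sInf, ← Set.range_comp]
  rfl

/-- closure properties of the models -/
private structure TBRCl {A C : Type 1} (K : Type 1) (f : A → C) (M : ZFSet.{1}) : Prop where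
  app : ∀ x, InM x M → InM (f x) M
  inv : ∀ x, InM (f x) M → InM x M
  img : ∀ D : Set A, InM D M → InM (f '' D) M
  pre : ∀ D : Set C, InM D M → InM (f ⁻¹' D) M
  pk : ∀ D : Set (C × K), InM D M → InM {p : A × K | (f p.1, p.2) ∈ D} M
  pair : ∀ (x : A) (c : K), InM x M → InM c M → InM (x, c) M
  fst : ∀ p : A × K, InM p M → InM p.1 M
  snd : ∀ p : A × K, InM p M → InM p.2 M

private theorem TBR_ev (K : Type 1) {f : A → C} (hf : CEmb f) : Ev (TBRCl K f) := by
  have h1 : Ev (fun M => ∀ x, InM x M → InM (f x) M) := Ev.fn1 f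
  have h2 : Ev (fun M => ∀ x, InM x M → InM (Function.invFun f x) M) := Ev.fn1 (Function.invFun f)
  have h3 : Ev (fun M => ∀ D : Set A, InM D M → InM (f '' D) M) := Ev.fn1 (fun D : Set A => f '' D)
  have h4 : Ev (fun M => ∀ D : Set C, InM D M → InM (f ⁻¹' D) M) := Ev.fn1 (fun D : Set C => f ⁻¹' D)
  have h5 : Ev (fun M => ∀ D : Set (C × K), InM D M → InM {p : A × K | (f p.1, p.2) ∈ D} M) :=
    Ev.fn1 (fun D : Set (C × K) => {p : A × K | (f p.1, p.2) ∈ D})
  have h6 : Ev (fun M => ∀ (x : A) (c : K), InM x M → InM c M → InM (x, c) M) :=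
    Ev.fn2 (fun (x : A) (c : K) => (x, c))
  have h7 : Ev (fun M => ∀ p : A × K, InM p M → InM p.1 M) := Ev.fn1 (fun p : A × K => p.1)
  have h8 : Ev (fun M => ∀ p : A × K, InM p M → InM p.2 M) := Ev.fn1 (fun p : A × K => p.2)
  refine (((h1.and h2).and (h3.and h4)).and ((h5.and h6).and (h7.and h8))).mono ?_
  rintro M ⟨⟨⟨k1, k2⟩, k3, k4⟩, ⟨k5, k6⟩, k7, k8⟩
  refine ⟨k1, fun x hx => ?_, k3, k4, k5, k6, k7, k8⟩
  have h := k2 _ hx
  rwa [Function.leftInverse_invFun hf.inj x] at h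

private theorem TBR_img_in {K : Type 1} {f : A → C} {M : ZFSet.{1}} (hM : TBRCl K f M) (D : Set A) :
    f '' {d | d ∈ D ∧ InM d M} = {d | d ∈ f '' D ∧ InM d M} := by
  ext y
  constructor
  · rintro ⟨d, ⟨h1, h2⟩, rfl⟩
    exact ⟨⟨d, h1, rfl⟩, hM.app d h2⟩
  · rintro ⟨⟨d, h1, rfl⟩, h2⟩
    exact ⟨d, ⟨h1, hM.inv d h2⟩, rfl⟩

private theorem TBR_im_pre {f : A → C} {D : Set C} (hD : D ⊆ Set.range f) : f '' (f ⁻¹' D) = D :=
  Set.image_preimage_eq_iff.2 hD

private theorem TBR_gen {K : Type 1} {f : A → C} (hf : CEmb f) {M : ZFSet.{1}} (hM : TBRCl K f M) :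
    gen (Set.range f) M = f (gen Set.univ M) := by
  apply le_antisymm
  · unfold gen
    rw [TBR_iInf hf]
    refine le_iInf fun D => ?_
    rw [TBR_iInf hf]
    refine le_iInf fun h1 => ?_
    rw [TBR_iInf hf]
    refine le_iInf fun h2 => ?_
    rw [TBR_iInf hf]
    refine le_iInf fun h3 => ?_
    rw [hf.sup, TBR_img_in hM]
    refine gen_le (hM.img D h1) (Set.image_subset_range f D) ?_
    rw [← hf.sup, h3, hf.top]
  · refine le_gen fun D h1 h2 h3 => ?_
    have k2 := TBR_im_pre h2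
    have k3 : sSup (f ⁻¹' D) = ⊤ := by
      apply hf.inj
      rw [hf.sup, k2, h3, hf.top]
    have h4 := gen_le (hM.pre D h1) (Set.subset_univ _) k3
    have h5 := hf.le_iff.2 h4
    rw [hf.sup, TBR_img_in hM, k2] at h5
    exact h5

private theorem TBR_ggen {K : Type 1} {f : A → C} (hf : CEmb f) {W : Om → ZFSet.{1}} {i : Om}
    (hW : ∀ k, i ≤ k → TBRCl K f (W k)) (j : Om) :
    ggen (Set.range f) W i j = f (ggen Set.univ W i j) := by
  unfold ggen
  rw [TBR_iInf hf]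
  refine iInf_congr fun k => ?_
  rw [TBR_iInf hf]
  refine iInf_congr fun hk => ?_
  rw [TBR_iInf hf]
  refine iInf_congr fun _ => ?_
  exact TBR_gen hf (hW k hk)

private theorem TBR_genF {K : Type 1} {f : A → C} (hf : CEmb f) {M : ZFSet.{1}} (hM : TBRCl K f M)
    {G : Set C} (hG : GenF (Set.range f) M G) : GenF Set.univ M (f ⁻¹' G) where
  sub x hx := ⟨Set.mem_univ _, hM.inv x (hG.sub _ hx).2⟩
  up x hx y _ hyM hxy := hG.up _ hx _ ⟨y, rfl⟩ (hM.app y hyM) (hf.le_iff.2 hxy)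
  inf x hx y hy := by
    rw [Set.mem_preimage, hf.and]
    exact hG.inf _ hx _ hy
  bot h := by
    rw [Set.mem_preimage, hf.bot] at h
    exact hG.bot h
  meet D hD _ hs := by
    obtain ⟨_, ⟨d, hd, rfl⟩, h⟩ := hG.meet (f '' D) (hM.img D hD) (Set.image_subset_range f D) (by
      rw [← hf.sup, hs, hf.top])
    exact ⟨d, hd, h⟩

private theorem TBR_do {K : Type 1} [Preorder K] {Good : K → A} {f : A → C} (hf : CEmb f)
    {D : Set (C × K)} (hD : DO (Set.range f) (fun c => f (Good c)) D) :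
    DenseOpen Good {p : A × K | (f p.1, p.2) ∈ D} := by
  constructor
  · rintro ⟨a, c⟩ hac
    obtain ⟨_, h2, h3⟩ := hD.sub _ _ hac
    refine ⟨fun h => h2 ?_, hf.le_iff.1 h3⟩
    have h4 : a = ⊥ := h
    rw [h4, hf.bot]
  · rintro ⟨a, c⟩ ⟨h1, h2⟩
    have h3 : Pos (Set.range f) (fun c => f (Good c)) (f a) c := by
      refine ⟨⟨a, rfl⟩, fun h => h1 ?_, hf.le_iff.2 h2⟩
      rw [← hf.bot] at h
      exact hf.inj h
    obtain ⟨a', c', h4, h5, h6⟩ := hD.dns _ _ h3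
    obtain ⟨⟨a0, rfl⟩, _⟩ := hD.sub _ _ h4
    exact ⟨(a0, c'), h4, hf.le_iff.1 h5, h6⟩
  · rintro ⟨a, c⟩ hac ⟨a', c'⟩ ⟨h1, h2⟩ ⟨h3, h4⟩
    refine hD.opn _ _ _ _ hac ⟨⟨a', rfl⟩, fun h => h1 ?_, hf.le_iff.2 h2⟩ (hf.le_iff.2 h3) h4
    rw [← hf.bot] at h
    exact hf.inj h

end

theorem np_of_c {A : Type 1} [CompleteBooleanAlgebra A] {K : Type 1} [Preorder K] {Good : K → A}
    (hd : Distr (Set.univ : Set A)) (hpp : EvT (PPc Good)) (hnn : EvN (NNc Good))
    {C : Type 1} [CompleteBooleanAlgebra C] {e : A → C} (he : CEmb e) {ι : C → K → C}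
    (h2 : Two (Set.range e) Set.univ (fun c => e (Good c)) ι) : NP (Set.range e) (Set.univ : Set C) := by
  have hd' : Distr (Set.range e) := by
    have h := Distr.map he hd
    rwa [Set.image_univ] at h
  have hev := TBR_ev K he
  constructor
  · have H := two_ppw h2 hd' (fun _ => ⊤) (fun _ => h2.subA.sup _ (Set.Subset.refl _) |> fun h => by
      have h3 : (⊤ : C) = e ⊤ := he.top.symm
      rw [h3]
      exact ⟨⊤, rfl⟩) (fun _ _ _ => ⊤) (by
      refine (hpp.and (EvT.of_ev hev)).mono ?_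
      rintro W i - ⟨hp, hW⟩
      rintro j hj _ ⟨r0, rfl⟩ hr hrg - hdec _ c ⟨⟨a0, rfl⟩, ha1, ha2⟩ haM hcM hra
      rw [TBR_ggen he hW, he.le_iff] at hrg
      have hr0 : r0 ≠ ⊥ := by
        rintro rfl
        exact hr he.bot
      have ha0 : a0 ≠ ⊥ := by
        rintro rfl
        exact ha1 he.bot
      obtain ⟨r', k1, k2, c', k3, k4, k5⟩ := hp j hj r0 hr0 hrg (fun x hx => by
        rcases hdec (e x) ⟨x, rfl⟩ ((hW j hj).app x hx) with h | h
        · exact Or.inl (he.le_iff.1 h)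
        · rw [← he.compl] at h
          exact Or.inr (he.le_iff.1 h)) (a0, c) ⟨ha0, he.le_iff.1 ha2⟩
        ((hW i le_rfl).pair a0 c ((hW i le_rfl).inv a0 haM) hcM) (he.le_iff.1 hra)
      refine ⟨e r', c', ⟨⟨r', rfl⟩, fun h => k1 ?_, he.le_iff.2 k4⟩, he.le_iff.2 k2, k3, le_top, ?_⟩
      · rw [← he.bot] at h
        exact he.inj h
      · intro k hik hkj D hD hDM
        obtain ⟨⟨a, c1⟩, m1, m2, m3, m4⟩ := k5 k hik hkj _ ((hW k hik).pk D hDM) (TBR_do he hD)
        exact ⟨e a, c1, m1, (hW k hik).app a ((hW k hik).fst _ m2), (hW k hik).snd _ m2,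
          he.le_iff.2 m3, m4⟩)
    refine H.mono ?_
    intro W i _ h j hj q hq hqM
    have h3 := h j hj q hq hqM
    simp only [iInf_top, inf_top_eq] at h3
    exact h3
  · have H := two_nnv h2 (fun _ => ⊤) (by
      refine ((hnn.and (EvN.of_ev hev)).and (EvN.of_evT (EvT.of_ev hev))).mono ?_
      rintro M W i - ⟨⟨hn, hM⟩, hW⟩
      rintro G hGW hG a haG c hcM hpos
      obtain ⟨⟨a0, rfl⟩, ha1, ha2⟩ := hpos
      have ha0 : a0 ≠ ⊥ := by
        rintro rfl
        exact ha1 he.bot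
      obtain ⟨j, hj, cs, k0, k1, k2, k3, k4, k5⟩ := hn (e ⁻¹' G) ((hW i le_rfl).pre G hGW)
        (TBR_genF he hM hG) (a0, c) ⟨ha0, he.le_iff.1 ha2⟩
        (hM.pair a0 c (hM.inv a0 (hG.sub _ haG).2) hcM) haG
      refine ⟨j, hj, cs, le_of_eq k0, ⟨k2, k1, k3, ?_⟩, ?_⟩
      · intro D hD hDM
        obtain ⟨n, a, m1, m2⟩ := k4 _ (hM.pk D hDM) (TBR_do he hD)
        exact ⟨n, e a, m1, m2⟩
      · have h4 : e '' (e ⁻¹' G) = G := TBR_im_pre fun y hy => (hG.sub y hy).1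
        have h5 : sInf G = e (sInf (e ⁻¹' G)) := by rw [he.sInf, h4]
        rw [inf_top_eq, h5, TBR_ggen he hW, ← he.and]
        refine (he.le_iff.2 k5).trans ?_
        rw [he.sup]
        refine sSup_le ?_
        rintro _ ⟨b, ⟨c', m1, m2⟩, rfl⟩
        exact le_iSup₂_of_le (e b) ⟨⟨b, rfl⟩, c', m1, he.le_iff.2 m2⟩ le_rfl)
    refine H.mono ?_
    intro M W i _ h G hGW hG q hq hqM hqG
    obtain ⟨j, hj, G', m1, m2, m3, m4⟩ := h G hGW hG q hq hqM hqG
    refine ⟨j, hj, G', m1, m2, m3, ?_⟩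
    rwa [inf_top_eq] at m4

end Pool.Agent.CAN
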