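import Pool.Agent.CAN.SBR
import Pool.Agent.CAN.SSM
import Pool.Agent.CAN.SFB
import Pool.Agent.CAN.TBR
import Pool.Agent.CAN.ROB

/-!
# CAN / SFI: the specialising step (final statement of part S)

`exists_two` for `Good = Sp.goodT R b₀`, `c0 = ⊤`; `np_of_c`, `evT_pp`, `evN_nn`, `special_of_two`, `Sp.small_cond`.
-/

set_option autoImplicit false

namespace Pool.Agent.CAN

theorem specStep : SpecStep := by
  intro A _ hne hD R b₀ hR hN
  haveI : Nontrivial A := ⟨⟨⊥, ⊤, hne⟩⟩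
  obtain ⟨C, iC, e, ι, he, h2, hs⟩ := exists_two (K := WithTop (Sp.Cond A)) (Sp.goodT R b₀)
    (fun c c' h => Sp.goodT_anti R b₀ h) ⊤ rfl (fun c => le_top)
  exact ⟨C, iC, e, he, np_of_c hD (evT_pp hD hR hN) (evN_nn hD hR hN) he h2,
    fun hA => hs hA (Sp.small_cond A hA), special_of_two hD hR he h2⟩

end Pool.Agent.CAN
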