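import Pool.Agent.CAN.SRS

/-!
# CAN / SLC: the limit condition

The sets `(c n).C` increase with `n` and for `a ∈ (c n).C`, `a ∈ (c m).C` `(c n).f a = (c m).f a` (`Antitone`; one of `c n ≤ c m`, `c m ≤ c n`).
`c'`: `C' = {a | a = δ ∨ ∃ n, a ∈ (c n).C}`, `top = δ`, `G = ⋃ n, (c n).G`, `f a m = F m` for `a = δ`, `= (c n).f a m` for `a ∈ (c n).C` (choose some `n`), `0` otherwise.
* `closed`: let `a ≤ δ` and for all `x < a` there is `y ∈ C'` with `x < y ≤ a`.  If `a < δ` take `n` with `a < (c n).top` (`h2`); every `y ∈ C'` with `y ≤ a` is in `(c n).C`: `y ∈ (c m).C`; if `m ≤ n` clear; if `n ≤ m` then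
  `(c n).C = {y ∈ (c m).C | y ≤ (c n).top}`.  So `a ∈ (c n).C` by `(c n).closed`.
* `base_le`: `u.base ≤ (c n).top < δ`.
* `c' ≤ c n`: the same argument (`(c n).top < δ`, so `δ ∉ (c n).C`).
* the value, by `Cond.le_good`: `w ≤ b`.  (g1) for `a < a'` in `C'`, `¬ c'.f a m < c'.f a' n`: if `a' < δ` both are in one `(c N).C` and (g1) for `c N`.  If `a' = δ` suppose `w ⊓ R a δ n m ≠ ⊥`; then
  `m = x n a` (`Sys.uniq`).  Take `N` so large that `a ∈ (c N).C`, `a < (c N).top =: t` and `(c N).f t (x n t) < F n`.  `w ≤ R a δ n m ⊓ R t δ n (x n t) ≤ R a t (x n t) m` (`Sys.back`), so (g1) for `c N` gives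
  `(c N).f a m < (c N).f t (x n t)` (otherwise `w ⊓ R a t (x n t) m = ⊥`, but it is `w ≠ ⊥`), contradiction.
  (g2) from some `c n`.  (g3): at levels `z < δ`: `z` and `u` are both in one `c N` (monotonicity); at `δ`: last hypothesis.
-/

set_option autoImplicit false

namespace Pool.Agent.CAN.Sp

variable {A : Type 1} [CompleteBooleanAlgebra A] {R : Om → Om → ℕ → ℕ → A} {b : A}

theorem exists_lim (hR : Sys R b) {c : ℕ → Cond A} (hc : Antitone c) {δ : Om} (h1 : ∀ n, (c n).top < δ)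
    (h2 : ∀ α, α < δ → ∃ n, α < (c n).top) (F : ℕ → ℚ) :
    ∃ c' : Cond A, c'.top = δ ∧ (∀ n, c' ≤ c n) ∧ (∀ n, c'.f δ n = F n) ∧
      ∀ w : A, w ≠ ⊥ → (∀ n, w ≤ (c n).good R b) → ∀ x : ℕ → Om → ℕ, (∀ n a, a < δ → w ≤ R a δ n (x n a)) →
        (∀ n, ∃ N, ∀ m, N ≤ m → (c m).f (c m).top (x n (c m).top) < F n) →
        (∀ n, ∀ u ∈ (c n).G, ∀ E : Finset ℕ, ∃ y : Fin u.k → ℕ, (∀ l, y l ∉ E) ∧ w ≤ u.U δ y ∧ ∀ l, F (y l) < u.h l) →
        w ≤ c'.good R b := by
  classical
  have hCm : ∀ {n m : ℕ}, n ≤ m → (c n).C ⊆ (c m).C := fun h => Cond.C_sub (hc h)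
  have hGm : ∀ {n m : ℕ}, n ≤ m → (c n).G ⊆ (c m).G := fun h => (hc h).2.2
  have hf1 : ∀ {n m : ℕ} {a : Om}, a ∈ (c n).C → a ∈ (c m).C → (c n).f a = (c m).f a := by
    intro n m a h3 h4
    rcases le_total n m with h | h
    · exact ((hc h).2.1 a h3).symm
    · exact (hc h).2.1 a h4
  have hCd : ∀ {n m : ℕ} {a : Om}, a ∈ (c m).C → a ≤ (c n).top → a ∈ (c n).C := by
    intro n m a h3 h4
    rcases le_total n m with h | h
    · rw [(hc h).1]
      exact ⟨h3, h4⟩
    · exact hCm h h3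
  have hlt : ∀ {n : ℕ} {a : Om}, a ∈ (c n).C → a < δ := fun h => lt_of_le_of_lt ((c _).le_top _ h) (h1 _)
  -- the limit condition
  let c' : Cond A :=
    { C := {a | a = δ ∨ ∃ n, a ∈ (c n).C}
      top := δ
      top_mem := Or.inl rfl
      le_top := by
        rintro a (h | ⟨n, h⟩)
        · exact h.le
        · exact (hlt h).le
      closed := by
        intro a ha hcl
        rcases eq_or_lt_of_le ha with h | h
        · exact Or.inl h
        · obtain ⟨n, hn⟩ := h2 a h
          refine Or.inr ⟨n, (c n).closed a hn.le fun x hx => ?_⟩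
          obtain ⟨y, hy1, hy2, hy3⟩ := hcl x hx
          refine ⟨y, ?_, hy2, hy3⟩
          rcases hy1 with hy1 | ⟨m, hy1⟩
          · rw [hy1] at hy3
            exact absurd hy3 (not_le.2 h)
          · exact hCd hy1 (hy3.trans hn.le)
      f := fun a m => if a = δ then F m else if h : ∃ n, a ∈ (c n).C then (c h.choose).f a m else 0
      G := ⋃ n, (c n).G
      cnt := Set.countable_iUnion fun n => (c n).cnt
      base_le := by
        intro u hu
        obtain ⟨n, hn⟩ := Set.mem_iUnion.1 hu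
        exact ((c n).base_le u hn).trans (h1 n).le }
  have hfδ : ∀ m, c'.f δ m = F m := fun m => if_pos rfl
  have hfC : ∀ {n : ℕ} {a : Om}, a ∈ (c n).C → c'.f a = (c n).f a := by
    intro n a h
    funext m
    show (if a = δ then F m else if h : ∃ n, a ∈ (c n).C then (c h.choose).f a m else 0) = _
    rw [if_neg (hlt h).ne]
    have h3 : ∃ n, a ∈ (c n).C := ⟨n, h⟩
    rw [dif_pos h3]
    rw [hf1 h3.choose_spec h]
  have hle : ∀ n, c' ≤ c n := by
    intro n
    refine ⟨?_, fun a ha => hfC ha, Set.subset_iUnion (fun n => (c n).G) n⟩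
    ext a
    constructor
    · intro h
      exact ⟨Or.inr ⟨n, h⟩, (c n).le_top a h⟩
    · rintro ⟨h | ⟨m, h⟩, h3⟩
      · rw [h] at h3
        exact absurd h3 (not_le.2 (h1 n))
      · exact hCd h h3
  refine ⟨c', rfl, hle, hfδ, ?_⟩
  intro w hw hwg x hx hF hU
  have hW := fun n => (Cond.le_good R (c n)).1 (hwg n)
  have hwb : w ≤ b := (hW 0).1
  -- a level below δ has a stage above it
  have hst : ∀ (k : ℕ) (a : Om), a < δ → ∃ N, k ≤ N ∧ a < (c N).top := by
    intro k a ha
    obtain ⟨n, hn⟩ := h2 a ha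
    exact ⟨max k n, le_max_left _ _, lt_of_lt_of_le hn (Cond.top_le (hc (le_max_right _ _)))⟩
  rw [Cond.le_good]
  refine ⟨hwb, ?_, ?_, ?_⟩
  · intro a a' n m ha ha' hl hnf
    have ha1 : ∃ k, a ∈ (c k).C := by
      rcases ha with ha | ha
      · exfalso
        rw [ha] at hl
        exact absurd (c'.le_top a' ha') (not_le.2 hl)
      · exact ha
    obtain ⟨k, hk⟩ := ha1
    rcases ha' with ha' | ⟨k', hk'⟩
    · -- a' = δ
      subst ha'
      by_contra hne
      have hm : m = x n a := by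
        by_contra hm
        apply hne
        rw [← le_bot_iff, ← hR.uniq a a' n m (x n a) hl.le hm]
        exact le_inf (le_inf (inf_le_left.trans hwb) inf_le_right) (inf_le_left.trans (hx n a hl))
      obtain ⟨N0, hN0⟩ := hF n
      obtain ⟨N, hN1, hN2⟩ := hst (max k N0) a hl
      have hkN : k ≤ N := (le_max_left _ _).trans hN1
      have hN0N : N0 ≤ N := (le_max_right _ _).trans hN1
      have haN : a ∈ (c N).C := hCm hkN hk
      have h3 := hN0 N hN0N
      have h4 : w ≤ R a (c N).top (x n (c N).top) m := by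
        refine le_trans ?_ (Sys.back hR hN2.le (h1 N).le n (x n (c N).top) m)
        refine le_inf (le_inf hwb (hx n _ (h1 N))) ?_
        rw [hm]
        exact hx n a hl
      have h5 : (c N).f a m < (c N).f (c N).top (x n (c N).top) := by
        by_contra h6
        have h7 := (hW N).2.1 a (c N).top (x n (c N).top) m haN (c N).top_mem hN2 h6
        rw [inf_eq_left.2 h4] at h7
        exact hw h7
      apply hnf
      rw [hfC haN, hfδ]
      exact h5.trans h3
    · -- both levels below δ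
      have h3 : a ∈ (c k').C := hCd hk (hl.le.trans ((c k').le_top a' hk'))
      refine (hW k').2.1 a a' n m h3 hk' hl ?_
      rwa [hfC h3, hfC hk'] at hnf
  · intro u hu z z' y hz hz'
    obtain ⟨n, hn⟩ := Set.mem_iUnion.1 hu
    exact (hW n).2.2.1 u hn z z' y hz hz'
  · intro u hu z hz hb E
    obtain ⟨n, hn⟩ := Set.mem_iUnion.1 hu
    rcases hz with hz | ⟨m, hm⟩
    · subst hz
      obtain ⟨y, hy1, hy2, hy3⟩ := hU n u hn E
      have hy4 : ∀ l, c'.f z (y l) < u.h l := by
        intro l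
        rw [hfδ]
        exact hy3 l
      exact hy2.trans (le_iSup_of_le y (le_iSup_of_le hy1 (le_iSup_of_le hy4 le_rfl)))
    · have h3 : z ∈ (c (max n m)).C := hCm (le_max_right _ _) hm
      have h4 : u ∈ (c (max n m)).G := hGm (le_max_left _ _) hn
      have h5 := (hW (max n m)).2.2.2 u h4 z h3 hb E
      rwa [← hfC h3] at h5

end Pool.Agent.CAN.Sp
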