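import Pool.Agent.CAN.SRS
import Pool.Agent.CAN.DIS

/-!
# CAN / SWP: the pruned set of bad tuples

Let `Bad` be closed downwards (below `b`), `W z y = pru R Bad t x z y` (`z ≥ t`).

`down`: let `q = b ⊓ W z' w ⊓ rs R z z' w y`.  `q ≤ Bad z y` by hypothesis; `q ≤ rs R t z y x` by `rs_back` (from `rs R z z' w y` and
`rs R t z' w x`).  For `z'' ≥ z` we need `q ≤ ⨆ v, Bad z'' v ⊓ rs R z z'' v y`.  If `z' ≤ z''`: `W z' w ≤ ⨆ v, Bad z'' v ⊓ rs R z' z'' v w`, and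
`rs_comp`.  If `z ≤ z'' ≤ z'`: `b ≤ ⨆ v, rs R z'' z' w v` (`rs_tot`), `Bad z'' v` by downward closure, `rs R z z'' v y` by `rs_back`.

`ext`: let `z ≤ z'` and suppose `q₀ = b ⊓ W z y ⊓ (⨆ w, W z' w ⊓ rs R z z' w y)ᶜ ≠ ⊥`.  For every `w` (countably many),
`q₀ ⊓ Bad z' w ⊓ rs R z z' w y ≤ ⨆ z'' : {z'' // z' ≤ z''}, (⨆ v, Bad z'' v ⊓ rs R z' z'' v w)ᶜ`, because `rs R t z' w x` holds there (`rs_comp` with
`rs R t z y x`) and `(W z' w)ᶜ` holds.  Hence `q₀ ≤ ⨆ o : Option {z'' // z' ≤ z''}, f w o` with `f w none = (Bad z' w ⊓ rs R z z' w y)ᶜ`,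
`f w (some z'') = (⨆ v, Bad z'' v ⊓ rs R z' z'' v w)ᶜ`.  `Distr.witness` (with `A := Set.univ`) gives `r ≤ q₀`, `r ≠ ⊥` and choices `o w`.  Let `z*` be `≥ z'` and
`≥` all the countably many chosen `z''` (`Om.bdd`).  `r ≤ W z y ≤ ⨆ v, Bad z* v ⊓ rs R z z* v y`: some `v` with `r₁ = r ⊓ Bad z* v ⊓ rs R z z* v y ≠ ⊥`
(`ne_bot_of_le_iSup`); restrict `v` to `z'` (`exists_rs`): `w` with `r₂ ≤ r₁`, `r₂ ≤ rs R z' z* v w`.  Then `r₂ ≤ Bad z' w ⊓ rs R z z' w y`, so `o w = some z''`; restrict `v` to `z''`: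
`v'`, `r₃ ≤ rs R z'' z* v v'`, `r₃ ≤ Bad z'' v' ⊓ rs R z' z'' v' w`, contradiction with `r₃ ≤ f w (some z'')`.
-/

set_option autoImplicit false

namespace Pool.Agent.CAN.Sp

variable {A : Type 1} [CompleteBooleanAlgebra A] {R : Om → Om → ℕ → ℕ → A} {b : A}

private theorem SWP_le {ι : Sort*} {q u : A} {f : ι → A} (h : q ≤ ⨆ i, f i) (h' : ∀ i, q ⊓ f i ≤ u) : q ≤ u := by
  calc q = q ⊓ ⨆ i, f i := (inf_eq_left.2 h).symm
    _ = ⨆ i, q ⊓ f i := inf_iSup_eq _ _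
    _ ≤ u := iSup_le h'

private theorem SWP_bot {q u : A} (h : q ≤ u) (h' : q ≤ uᶜ) : q = ⊥ := by
  have h3 : q ≤ u ⊓ uᶜ := le_inf h h'
  rw [inf_compl_self] at h3
  exact le_bot_iff.1 h3

private theorem SWP_down (hR : Sys R b) {k : ℕ} {Bad : Om → (Fin k → ℕ) → A} {t : Om}
    (hB : ∀ z z', t ≤ z → z ≤ z' → ∀ w y, b ⊓ Bad z' w ⊓ rs R z z' w y ≤ Bad z y) (x : Fin k → ℕ)
    {z z' : Om} (hz : t ≤ z) (hzz : z ≤ z') (w y : Fin k → ℕ) :
    b ⊓ pru R Bad t x z' w ⊓ rs R z z' w y ≤ pru R Bad t x z y := by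
  obtain ⟨q, hq⟩ : ∃ q, q = b ⊓ pru R Bad t x z' w ⊓ rs R z z' w y := ⟨_, rfl⟩
  rw [← hq]
  have e0 : q ≤ b := by
    rw [hq]
    exact inf_le_left.trans inf_le_left
  have e1 : q ≤ pru R Bad t x z' w := by
    rw [hq]
    exact inf_le_left.trans inf_le_right
  have e2 : q ≤ Bad z' w := e1.trans (inf_le_left.trans inf_le_left)
  have e3 : q ≤ rs R t z' w x := e1.trans (inf_le_left.trans inf_le_right)
  have e4 : ∀ z'', z' ≤ z'' → q ≤ ⨆ v, Bad z'' v ⊓ rs R z' z'' v w := fun z'' h =>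
    e1.trans (inf_le_right.trans (iInf_le_of_le z'' (iInf_le _ h)))
  have e5 : q ≤ rs R z z' w y := by
    rw [hq]
    exact inf_le_right
  refine le_inf (le_inf ?_ ?_) (le_iInf fun z'' => le_iInf fun hz'' => ?_)
  · exact (le_inf (le_inf e0 e2) e5).trans (hB z z' hz hzz w y)
  · exact (le_inf (le_inf e0 e5) e3).trans (rs_back hR hz hzz w y x)
  · rcases le_total z' z'' with h | h
    · refine SWP_le (e4 z'' h) fun v => le_iSup_of_le v (le_inf (inf_le_right.trans inf_le_left) ?_)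
      exact (le_inf (le_inf (inf_le_left.trans e0) (inf_le_right.trans inf_le_right)) (inf_le_left.trans e5)).trans
        (rs_comp hR hzz h v w y)
    · refine SWP_le (e0.trans (rs_tot hR h w)) fun v => le_iSup_of_le v (le_inf ?_ ?_)
      · exact (le_inf (le_inf (inf_le_left.trans e0) (inf_le_left.trans e2)) inf_le_right).trans
          (hB z'' z' (hz.trans hz'') h w v)
      · exact (le_inf (le_inf (inf_le_left.trans e0) inf_le_right) (inf_le_left.trans e5)).trans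
          (rs_back hR hz'' h w v y)

private theorem SWP_ext (hD : Distr (Set.univ : Set A)) (hR : Sys R b) {k : ℕ} {Bad : Om → (Fin k → ℕ) → A} {t : Om}
    (hB : ∀ z z', t ≤ z → z ≤ z' → ∀ w y, b ⊓ Bad z' w ⊓ rs R z z' w y ≤ Bad z y) (x : Fin k → ℕ)
    {z z' : Om} (hz : t ≤ z) (hzz : z ≤ z') (y : Fin k → ℕ) :
    b ⊓ pru R Bad t x z y ≤ ⨆ w, pru R Bad t x z' w ⊓ rs R z z' w y := by
  by_contra hne
  obtain ⟨q, hq⟩ : ∃ q, q = b ⊓ pru R Bad t x z y ⊓ (⨆ w, pru R Bad t x z' w ⊓ rs R z z' w y)ᶜ := ⟨_, rfl⟩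
  have hq0 : q ≠ ⊥ := by
    intro h1
    rw [hq] at h1
    exact hne (disjoint_compl_right_iff.1 (disjoint_iff.2 h1))
  have e0 : q ≤ b := by
    rw [hq]
    exact inf_le_left.trans inf_le_left
  have e1 : q ≤ pru R Bad t x z y := by
    rw [hq]
    exact inf_le_left.trans inf_le_right
  have e3 : q ≤ rs R t z y x := e1.trans (inf_le_left.trans inf_le_right)
  have e4 : ∀ z'', z ≤ z'' → q ≤ ⨆ v, Bad z'' v ⊓ rs R z z'' v y := fun z'' h =>
    e1.trans (inf_le_right.trans (iInf_le_of_le z'' (iInf_le _ h)))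
  have e5 : q ≤ (⨆ w, pru R Bad t x z' w ⊓ rs R z z' w y)ᶜ := by
    rw [hq]
    exact inf_le_right
  obtain ⟨f, hf1, hf2⟩ : ∃ f : (Fin k → ℕ) → Option {z'' : Om // z' ≤ z''} → A,
      (∀ w, f w none = (Bad z' w ⊓ rs R z z' w y)ᶜ) ∧
      ∀ w z'', f w (some z'') = (⨆ v, Bad z''.1 v ⊓ rs R z' z''.1 v w)ᶜ :=
    ⟨fun w o => match o with
      | none => (Bad z' w ⊓ rs R z z' w y)ᶜ
      | some z'' => (⨆ v, Bad z''.1 v ⊓ rs R z' z''.1 v w)ᶜ, fun _ => rfl, fun _ _ => rfl⟩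
  have hle : ∀ w, q ≤ ⨆ o, f w o := by
    intro w
    have h1 : q ⊓ (⨆ o, f w o)ᶜ = ⊥ := by
      have g1 : q ⊓ (⨆ o, f w o)ᶜ ≤ Bad z' w ⊓ rs R z z' w y := by
        have h2 : (⨆ o, f w o)ᶜ ≤ (f w none)ᶜ := compl_le_compl (le_iSup _ _)
        rw [hf1, compl_compl] at h2
        exact inf_le_right.trans h2
      have g2 : ∀ z'', z' ≤ z'' → q ⊓ (⨆ o, f w o)ᶜ ≤ ⨆ v, Bad z'' v ⊓ rs R z' z'' v w := by
        intro z'' hz''
        have h2 : (⨆ o, f w o)ᶜ ≤ (f w (some ⟨z'', hz''⟩))ᶜ := compl_le_compl (le_iSup _ _)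
        rw [hf2, compl_compl] at h2
        exact inf_le_right.trans h2
      refine SWP_bot (u := ⨆ w, pru R Bad t x z' w ⊓ rs R z z' w y) ?_ (inf_le_left.trans e5)
      refine le_iSup_of_le w (le_inf (le_inf (le_inf (g1.trans inf_le_left) ?_)
        (le_iInf fun z'' => le_iInf fun hz'' => g2 z'' hz'')) (g1.trans inf_le_right))
      exact (le_inf (le_inf (inf_le_left.trans e0) (g1.trans inf_le_right)) (inf_le_left.trans e3)).trans
        (rs_comp hR hz hzz w y x)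
    exact disjoint_compl_right_iff.1 (disjoint_iff.2 h1)
  have hU : CSub (Set.univ : Set A) := ⟨fun _ _ => Set.mem_univ _, fun _ _ => Set.mem_univ _⟩
  obtain ⟨r, -, hr0, hrq, hr⟩ := Distr.witness hU hD f (fun _ _ => Set.mem_univ _) (Set.mem_univ q) hq0 hle
  choose o ho using hr
  obtain ⟨zs, hzs⟩ := Om.bdd (s := Set.range (fun w => (o w).elim z' (fun z'' => z''.1)) ∪ {z'})
    ((Set.countable_range _).union (Set.countable_singleton _))
  have hz's : z' ≤ zs := (hzs z' (Or.inr rfl)).le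
  obtain ⟨v, hv⟩ := ne_bot_of_le_iSup hr0 (hrq.trans (e4 zs (hzz.trans hz's)))
  obtain ⟨r₂, hr₂, hr₂0, w, hw⟩ := exists_rs hR hv (inf_le_left.trans (hrq.trans e0)) hz's v
  have k0 : r₂ ≤ b := hr₂.trans (inf_le_left.trans (hrq.trans e0))
  have k1 : r₂ ≤ Bad zs v := hr₂.trans (inf_le_right.trans inf_le_left)
  have k2 : r₂ ≤ rs R z zs v y := hr₂.trans (inf_le_right.trans inf_le_right)
  have k3 : r₂ ≤ Bad z' w := (le_inf (le_inf k0 k1) hw).trans (hB z' zs (hz.trans hzz) hz's v w)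
  have k4 : r₂ ≤ rs R z z' w y := (le_inf (le_inf k0 hw) k2).trans (rs_back hR hzz hz's v w y)
  have k5 : r₂ ≤ f w (o w) := hr₂.trans (inf_le_left.trans (ho w))
  cases how : o w with
  | none =>
    rw [how, hf1] at k5
    exact hr₂0 (SWP_bot (le_inf k3 k4) k5)
  | some z'' =>
    rw [how, hf2] at k5
    have h6 : z''.1 < zs := by
      apply hzs
      refine Or.inl ⟨w, ?_⟩
      change (o w).elim z' (fun z'' => z''.1) = z''.1
      rw [how]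
      rfl
    obtain ⟨r₃, hr₃, hr₃0, v', hv'⟩ := exists_rs hR hr₂0 k0 h6.le v
    apply hr₃0
    refine SWP_bot (u := ⨆ v, Bad z''.1 v ⊓ rs R z' z''.1 v w) (le_iSup_of_le v' (le_inf ?_ ?_)) (hr₃.trans k5)
    · exact (le_inf (le_inf (hr₃.trans k0) (hr₃.trans k1)) hv').trans
        (hB z''.1 zs (hz.trans (hzz.trans z''.2)) h6.le v v')
    · exact (le_inf (le_inf (hr₃.trans k0) hv') (hr₃.trans hw)).trans (rs_back hR z''.2 h6.le v v' w)

theorem pru_ptr (hD : Distr (Set.univ : Set A)) (hR : Sys R b) {k : ℕ} {Bad : Om → (Fin k → ℕ) → A} {t : Om}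
    (hB : ∀ z z', t ≤ z → z ≤ z' → ∀ w y, b ⊓ Bad z' w ⊓ rs R z z' w y ≤ Bad z y) (x : Fin k → ℕ) :
    PTr R b t (pru R Bad t x) :=
  ⟨fun _ _ hz hzz w y => SWP_down hR hB x hz hzz w y, fun _ _ hz hzz y => SWP_ext hD hR hB x hz hzz y⟩

end Pool.Agent.CAN.Sp
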