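import Pool.Agent.CAN.SSA
import Pool.Agent.CAN.SWP
import Pool.Agent.CAN.SAP

/-!
# CAN / SST: meeting a dense set and keeping finitely many bounds (THE MAIN LEMMA)

`a ≤ c.good R b ≤ b`, so `b ∈ G` (`b ∈ M` by `Ev.const`).  Suppose the conclusion fails.  Let `t = c.top`, `x₀ = fun l => x l t`,
`W = pru R (bad R D a c H) t x₀`.  By `ev_bad_or` `W t x₀ ∈ G`.  By `pru_ptr` and `bad_down` `PTr R b t W`.

(1) Let `E = {q₂ | q₂ ≤ a ∧ ∃ c₂ : Cond A, (q₂, c₂) ∈ D ∧ c₂ ≤ c ∧ t < c₂.top ∧ ∃ β ≤ c₂.top, ⟨k, β, H, W⟩ ∈ c₂.G}`.  For fixed `k, H, x₀` it is a function of `D, a, c`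
(`Ev.fn3`, `Ev.all_ctbl`), so it is in `M`.  `a ⊓ W t x₀ ≤ sSup E`: otherwise `q = a ⊓ W t x₀ ⊓ (sSup E)ᶜ ≠ ⊥`; `add_promise` gives `q' ≤ q`, `c' ≤ c` with `t < c'.top`, `q' ≤ c'.good R b`,
`⟨k, c'.top, H, W⟩ ∈ c'.G`; `(q', c') ∈ Pc (goodT R b)`, so there is `d ∈ D` below it; `d.2 ≤ c'` is not `⊤`, `d.2 = c₂ ≤ c'`, and `⊥ ≠ d.1 ≤ q'` (`DOp.sub`), so `d.1 ∈ E`, `d.1 ≤ sSup E`, contradiction.

(2) `a ⊓ W t x₀ ∈ G` (`GenF.inf`), so by genericity (`ev_gf`) there is `q₂ ∈ E ∩ G`, and by `Ev.wit4` (relation between `D, a, c, q₂` and `c₂`, for fixed `k, H, x₀`) such a `c₂ ∈ M`, with `β`.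
`q₂ ≤ c₂.good R b` (`DOp.sub`).  Let `z = c₂.top`.  (g3) for the promise `⟨k, β, H, W⟩`, the level `z`, `F = ∅`:
`q₂ ≤ ⨆ (y) (_ : ∀ l, c₂.f z (y l) < H l), W z y`.  The set of these `W z y` is in `M` (function of `D, a, c, c₂` for fixed `k, H, x₀`: `Ev.fn4`), so some `W z y ∈ G` with `c₂.f z (y l) < H l` for all `l`.

(3) `q₂ ⊓ W z y ∈ G`, so it is not `⊥`.  But `W z y ≤ bad R D a c H z y` and `q₂ ≤ b ≤ rs R z z y y` (`rs_refl`), so `q₂ = q₂ ⊓ rs R c₂.top z y y` is below an element of the set in the definition of `bad`, i.e.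
`q₂ ≤ (bad R D a c H z y)ᶜ`.  Contradiction.
-/

set_option autoImplicit false

namespace Pool.Agent.CAN.Sp

variable {A : Type 1} [CompleteBooleanAlgebra A] {R : Om → Om → ℕ → ℕ → A} {b : A}

private def SST_P (R : Om → Om → ℕ → ℕ → A) {k : ℕ} (H : Fin k → ℚ) (x₀ : Fin k → ℕ)
    (D : Set (A × WithTop (Cond A))) (a : A) (c : Cond A) (q₂ : A) (c₂ : Cond A) : Prop :=
  q₂ ≤ a ∧ (q₂, (c₂ : WithTop (Cond A))) ∈ D ∧ c₂ ≤ c ∧ c.top < c₂.top ∧
    ∃ β ≤ c₂.top, (⟨k, β, H, pru R (bad R D a c H) c.top x₀⟩ : Prom A) ∈ c₂.G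

private def SST_E (R : Om → Om → ℕ → ℕ → A) {k : ℕ} (H : Fin k → ℚ) (x₀ : Fin k → ℕ)
    (D : Set (A × WithTop (Cond A))) (a : A) (c : Cond A) : Set A :=
  {q₂ | ∃ c₂ : Cond A, SST_P R H x₀ D a c q₂ c₂}

private def SST_F (R : Om → Om → ℕ → ℕ → A) {k : ℕ} (H : Fin k → ℚ) (x₀ : Fin k → ℕ)
    (D : Set (A × WithTop (Cond A))) (a : A) (c c₂ : Cond A) : Set A :=
  {e | ∃ y : Fin k → ℕ, (∀ l, c₂.f c₂.top (y l) < H l) ∧ e = pru R (bad R D a c H) c.top x₀ c₂.top y}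

theorem ev_step (hD : Distr (Set.univ : Set A)) (hR : Sys R b) (hN : NoBr R b) :
    Ev (fun M => ∀ G : Set A, GenF Set.univ M G →
      ∀ D : Set (A × WithTop (Cond A)), InM D M → DOp (goodT R b) D → ∀ a ∈ G, ∀ c : Cond A, InM c M →
        a ≤ c.good R b → ∀ (k : ℕ) (x : Fin k → Om → ℕ), (∀ l, GBr R M G (x l)) → ∀ H : Fin k → ℚ,
          (∀ l, c.f c.top (x l c.top) < H l) →
            ∃ (a' : A) (c' : Cond A), (a', (c' : WithTop (Cond A))) ∈ D ∧ InM a' M ∧ InM c' M ∧ a' ∈ G ∧ a' ≤ a ∧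
              c' ≤ c ∧ c.top < c'.top ∧ ∀ l, c'.f c'.top (x l c'.top) < H l) := by
  have hk : Ev (fun M => ∀ (k : ℕ) (H : Fin k → ℚ) (x₀ : Fin k → ℕ),
      (∀ (D : Set (A × WithTop (Cond A))) (a : A) (c : Cond A), InM D M → InM a M → InM c M →
        InM (SST_E R H x₀ D a c) M) ∧
      (∀ (D : Set (A × WithTop (Cond A))) (a : A) (c : Cond A) (q : A), InM D M → InM a M → InM c M →
        InM q M → (∃ c₂ : Cond A, SST_P R H x₀ D a c q c₂) →
        ∃ c₂ : Cond A, InM c₂ M ∧ SST_P R H x₀ D a c q c₂) ∧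
      (∀ (D : Set (A × WithTop (Cond A))) (a : A) (c c₂ : Cond A), InM D M → InM a M → InM c M →
        InM c₂ M → InM (SST_F R H x₀ D a c c₂) M)) := by
    refine Ev.all_nat fun k => Ev.all_ctbl fun H => Ev.all_ctbl fun x₀ => ?_
    have h1 := Ev.fn3 (S := Set (A × WithTop (Cond A))) (T := A) (U := Cond A) (Z := Set A)
      (SST_E R H x₀)
    have h2 := Ev.wit4 (S := Set (A × WithTop (Cond A))) (T := A) (U := Cond A) (X := A) (Z := Cond A)
      (SST_P R H x₀)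
    have h3 := Ev.fn4 (S := Set (A × WithTop (Cond A))) (T := A) (U := Cond A) (X := Cond A) (Z := Set A)
      (SST_F R H x₀)
    exact ((h1.and h2).and h3).mono fun M h => ⟨h.1.1, h.1.2, h.2⟩
  refine ((((ev_bad_or (A := A) hR).and (ev_gf (A := A))).and (Ev.const b)).and hk).mono ?_
  rintro M ⟨⟨⟨hbo, hgf⟩, hbM⟩, hk⟩ G hG D hDM hDop a ha c hc hac k x hx H hH
  obtain ⟨-, -, hup, hgen⟩ := hgf G hG
  have hbG : b ∈ G := hup b hbM a ha (hac.trans (c.good_le R b))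
  rcases hbo G hG hbG D hDM a ha c hc k x hx H with h | hW
  · exact h
  exfalso
  obtain ⟨hE, hwit, hF⟩ := hk k H (fun l => x l c.top)
  have hPT : PTr R b c.top (pru R (bad R D a c H) c.top (fun l => x l c.top)) :=
    pru_ptr hD hR (bad_down hR D a c H) _
  have haM := (hG.sub a ha).2
  -- (1)
  have h1 : a ⊓ pru R (bad R D a c H) c.top (fun l => x l c.top) c.top (fun l => x l c.top) ≤
      sSup (SST_E R H (fun l => x l c.top) D a c) := by
    by_contra hcon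
    set X : A := sSup (SST_E R H (fun l => x l c.top) D a c) with hX
    set Y : A := a ⊓ pru R (bad R D a c H) c.top (fun l => x l c.top) c.top (fun l => x l c.top) with hY
    have hne : Y ⊓ Xᶜ ≠ ⊥ := by
      intro h
      exact hcon ((le_compl_iff_disjoint_right.2 (disjoint_iff.2 h)).trans (compl_compl _).le)
    have hYa : Y ≤ a := inf_le_left
    obtain ⟨q', hq', hq'0, c', hc'c, htop, hgood, hprom⟩ := add_promise hD hR hN c hne
      ((inf_le_left.trans hYa).trans hac) hPT (x := fun l => x l c.top)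
      (inf_le_left.trans inf_le_right) (H := H) hH
    obtain ⟨d, hd, hdle⟩ := hDop.dense (q', (c' : WithTop (Cond A))) ⟨hq'0, hgood⟩
    obtain ⟨d1, d2⟩ := d
    have hd1 : d1 ≤ q' := hdle.1
    have hd2 : d2 ≤ (c' : WithTop (Cond A)) := hdle.2
    obtain ⟨c₂, rfl, hc₂⟩ : ∃ c₂ : Cond A, d2 = (c₂ : WithTop (Cond A)) ∧ c₂ ≤ c' := by
      induction d2 using WithTop.recTopCoe with
      | top => exact absurd (WithTop.coe_ne_top (a := c')) (by simpa using hd2)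
      | coe c₂ => exact ⟨c₂, rfl, WithTop.coe_le_coe.mp hd2⟩
    have hdE : d1 ∈ SST_E R H (fun l => x l c.top) D a c := by
      refine ⟨c₂, (hd1.trans hq').trans (inf_le_left.trans hYa), hd, hc₂.trans hc'c,
        htop.trans_le (Cond.top_le hc₂), c'.top, Cond.top_le hc₂, hc₂.2.2 hprom⟩
    have hdX : d1 ≤ X := le_sSup hdE
    have hdX' : d1 ≤ Xᶜ := (hd1.trans hq').trans inf_le_right
    have := le_inf hdX hdX'
    rw [inf_compl_self, le_bot_iff] at this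
    exact (hDop.sub hd).1 this
  -- (2)
  have h2 : a ⊓ pru R (bad R D a c H) c.top (fun l => x l c.top) c.top (fun l => x l c.top) ∈ G :=
    hG.inf a ha _ hW
  obtain ⟨q₂, hq₂E, hq₂G⟩ := hgen _ (hE D a c hDM haM hc) _ h2 h1
  have hq₂M := (hG.sub q₂ hq₂G).2
  obtain ⟨c₂, hc₂M, hqa, hqD, hc₂c, htc, β, hβ, hprom⟩ := hwit D a c q₂ hDM haM hc hq₂M hq₂E
  have hgood : q₂ ≤ c₂.good R b := (hDop.sub hqD).2
  obtain ⟨k1, -, -, k4⟩ := (Cond.le_good R c₂).1 hgood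
  have h3 : q₂ ≤ sSup (SST_F R H (fun l => x l c.top) D a c c₂) := by
    refine (k4 _ hprom c₂.top c₂.top_mem hβ ∅).trans ?_
    refine iSup_le fun y => iSup_le fun _ => iSup_le fun hy => le_sSup ⟨y, hy, rfl⟩
  obtain ⟨e, ⟨y, hy, rfl⟩, heG⟩ := hgen _ (hF D a c c₂ hDM haM hc hc₂M) _ hq₂G h3
  have h4 := hG.inf q₂ hq₂G _ heG
  have h5 : q₂ ⊓ pru R (bad R D a c H) c.top (fun l => x l c.top) c₂.top y ≤ ⊥ := by
    have h6 : pru R (bad R D a c H) c.top (fun l => x l c.top) c₂.top y ≤ bad R D a c H c₂.top y :=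
      inf_le_left.trans inf_le_left
    have h7 : q₂ ≤ (bad R D a c H c₂.top y)ᶜ := by
      unfold bad
      rw [compl_compl]
      refine le_trans (le_inf le_rfl (k1.trans (rs_refl hR c₂.top y))) (le_sSup ?_)
      exact ⟨q₂, c₂, y, hqD, hqa, hc₂c, htc, le_rfl, hy, rfl⟩
    calc q₂ ⊓ pru R (bad R D a c H) c.top (fun l => x l c.top) c₂.top y
        ≤ (bad R D a c H c₂.top y)ᶜ ⊓ bad R D a c H c₂.top y := inf_le_inf h7 h6
      _ = ⊥ := compl_inf_self _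
  rw [le_bot_iff.1 h5] at h4
  exact hG.bot h4

end Pool.Agent.CAN.Sp
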