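import Pool.Agent.CAN.SWO
import Pool.Agent.CAN.SAQ

/-!
# CAN / STK: solving the tasks in a world

`δ = del M`, `t = c.top < δ` (`ev_top`), `u ∈ M` (`ev_top`), `w ≤ c.good R b` (`World.le`).  Let `F = T.image (fun n => brw R δ w n t)`.
(g3) (`Cond.le_good`) at the level `t` (`t ∈ c.C`, `u.base ≤ t`): `w ≤ ⨆ (y₀ avoids F, c.f t (y₀ l) < u.h l), u.U t y₀`; some of these `y₀` has `w ⊓ u.U t y₀ ≠ ⊥` (`ne_bot_of_le_iSup`).
`u.U t y₀ ∈ M` (`Ev.fn2` for `u, t`, for fixed `k`, `y₀`: the type of `y₀` depends on `u`, so use the function `fun u t => if h : u.k = k then u.U t (fun l => y₀ (Fin.cast h l)) else ⊥` for fixed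
`k`, `y₀ : Fin k → ℕ`, `Ev.all_ctbl`), so `w ≤ u.U t y₀` (`ev_world_dec`).
(g2) for `t ≤ δ`: `w ≤ ⨆ y, u.U δ y ⊓ rs R t δ y y₀`; some `y` has `w ⊓ (u.U δ y ⊓ rs R t δ y y₀) ≠ ⊥`; `w ≤ u.U δ y` by `World.pr`.
For every `l`: `w ≤ R t δ (y l) (brw R δ w (y l) t)` (`World.spec`) and `w ⊓ R t δ (y l) (y₀ l) ≠ ⊥`, so `brw R δ w (y l) t = y₀ l` (`Sys.uniq`).  So `y l ∉ T` (otherwise `y₀ l ∈ F`) and
`c.f t (brw R δ w (y l) t) < u.h l`.
-/

set_option autoImplicit false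

namespace Pool.Agent.CAN.Sp

variable {A : Type 1} [CompleteBooleanAlgebra A] {R : Om → Om → ℕ → ℕ → A} {b : A}

theorem ev_task (hD : Distr (Set.univ : Set A)) (hR : Sys R b) : Ev (fun M => ∀ G : Set A, GenF Set.univ M G →
    ∀ c : Cond A, InM c M → c.good R b ∈ G → ∀ u ∈ c.G, ∀ w, World R b M G w → ∀ T : Finset ℕ,
      ∃ y : Fin u.k → ℕ, (∀ l, y l ∉ T) ∧ w ≤ u.U (del M) y ∧ ∀ l, c.f c.top (brw R (del M) w (y l) c.top) < u.h l) := by
  have hU : Ev (fun M => ∀ x : (k : ℕ) × (Fin k → ℕ), ∀ (u : Prom A) (t : Om), InM u M → InM t M →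
      InM (if h : u.k = x.1 then u.U t (fun l => x.2 (Fin.cast h l)) else (⊥ : A)) M) :=
    Ev.all_ctbl fun x => Ev.fn2 (fun (u : Prom A) (t : Om) =>
      (if h : u.k = x.1 then u.U t (fun l => x.2 (Fin.cast h l)) else (⊥ : A)))
  refine (((hU.and (ev_top R b)).and (ev_world_dec (R := R) (b := b))).and ev_del).mono ?_
  rintro M ⟨⟨⟨h1, h2, -⟩, h3⟩, h4⟩ G hG c hc hcG u hu w hw T
  obtain ⟨htop, -, hGM⟩ := h2 c hc
  have huM := hGM u hu
  have htM : InM c.top M := (h4 _).2 htop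
  have hwc : w ≤ c.good R b := hw.le _ hcG
  obtain ⟨-, -, g2, g3⟩ := (Cond.le_good R c).1 hwc
  obtain ⟨y₀, hy₀⟩ := ne_bot_of_le_iSup hw.ne
    (g3 u hu c.top c.top_mem (c.base_le u hu) (T.image (fun n => brw R (del M) w n c.top)))
  have hA : ∀ l, y₀ l ∉ T.image (fun n => brw R (del M) w n c.top) := by
    by_contra hcon
    apply hy₀
    rw [iSup_neg hcon, inf_bot_eq]
  rw [iSup_pos hA] at hy₀
  have hB : ∀ l, c.f c.top (y₀ l) < u.h l := by
    by_contra hcon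
    apply hy₀
    rw [iSup_neg hcon, inf_bot_eq]
  rw [iSup_pos hB] at hy₀
  have hUM : InM (u.U c.top y₀) M := by
    have h5 := h1 ⟨u.k, y₀⟩ u c.top huM htM
    simpa using h5
  have hwU : w ≤ u.U c.top y₀ := by
    rcases h3 G hG w hw _ hUM with h | h
    · exact h
    · exfalso
      apply hy₀
      rw [← le_bot_iff]
      calc w ⊓ u.U c.top y₀ ≤ (u.U c.top y₀)ᶜ ⊓ u.U c.top y₀ := inf_le_inf_right _ h
        _ = ⊥ := compl_inf_self _
  have h5 : w ≤ ⨆ y, u.U (del M) y ⊓ rs R c.top (del M) y y₀ :=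
    (le_inf le_rfl hwU).trans (g2 u hu c.top (del M) y₀ (c.base_le u hu) htop.le)
  obtain ⟨y, hy⟩ := ne_bot_of_le_iSup hw.ne h5
  have hyU : w ≤ u.U (del M) y := by
    rcases hw.pr u huM y with h | h
    · exact h
    · exfalso
      apply hy
      rw [← le_bot_iff]
      calc w ⊓ (u.U (del M) y ⊓ rs R c.top (del M) y y₀) ≤ (u.U (del M) y)ᶜ ⊓ u.U (del M) y :=
            inf_le_inf h inf_le_left
        _ = ⊥ := compl_inf_self _
  have hbr : ∀ l, brw R (del M) w (y l) c.top = y₀ l := by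
    intro l
    by_contra hne
    apply hy
    rw [← le_bot_iff, ← hR.uniq c.top (del M) (y l) _ _ htop.le hne]
    refine le_inf (le_inf (inf_le_left.trans hw.leb) (inf_le_left.trans (hw.spec (y l) htop))) ?_
    exact (inf_le_right.trans inf_le_right).trans (iInf_le _ l)
  refine ⟨y, fun l hl => ?_, hyU, fun l => ?_⟩
  · apply hA l
    rw [← hbr l]
    exact Finset.mem_image_of_mem _ hl
  · rw [hbr l]
    exact hB l

end Pool.Agent.CAN.Sp
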