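import Pool.Agent.CAN.SFU
import Pool.Agent.CAN.SLC
import Pool.Agent.CAN.STK
import Pool.Agent.CAN.SST

/-!
# CAN / SFS: the fusion over one model

`δ = del M`.  Apply `fusion` with
* `St = {c : Cond A // InM c M ∧ c.good R b ∈ G}`, `Pt = 𝒲 × ℕ` (countable), `val s (w, n) = s.1.f s.1.top (brw R δ w n s.1.top)`;
* `Req n`: for an injection `e` of the countable set of all `D ∈ M` with `DOp (goodT R b) D` into `ℕ`: the `s` such that for the `D` with `e D = n` (if any) there is `a ∈ G` with `(a, s) ∈ D`;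
* `T = 𝒲 × {u : Prom A // InM u M} × Finset ℕ` (countable), `act s (w, u, E)`: `u ∈ s.G`; `k = u.k`, `h = u.h`,
  `sol (w, u, E) = {y | (∀ l, (y l).1 = w) ∧ w ≤ u.U δ (fun l => (y l).2) ∧ ∀ l, (y l).2 ∉ E}`.
`hact`: `Cond` order.  `hstep`: if some `D` has `e D = n`, apply `ev_step` to `D`, `a := s.good R b ∈ G`, `k := B.card`, the `GBr`s `brw R δ w n` (`ev_gbr`) for the elements `((w, n), q)` of `B` (`B.equivFin`) and `H = q`:
`(a', c') ∈ D`, `a' ∈ G`; `c'.good R b ∈ M` (`ev_top`) is `≥ a'` (`DOp.sub`), so it is in `G` (`ev_gf`).  Otherwise `s' = s`.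
`htask`: `ev_task` with `T := E ∪ {n | (w, n) ∈ X}`.
We get `s : ℕ → Cond A` and `F : 𝒲 × ℕ → ℚ`.  Every `D` is met.  `(s n).top < δ` (`ev_top`) and for `α < δ` the set `topD R b α ∈ M` (`ev_top`, `topD_dop`) is met: `(a, s n) ∈ topD R b α`, and `s n` is not `⊤`, so `α < (s n).top`.
For `w ∈ 𝒲` apply `exists_lim` with `F w n := F (w, n)`, `x n a := brw R δ w n a` (`World.spec`); `w ≤ (s n).good R b` by `World.le`; for `u ∈ (s n).G` (`u ∈ M` by `ev_top`) and `E` the task `(w, u, E)` is active.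
-/

set_option autoImplicit false

namespace Pool.Agent.CAN.Sp

variable {A : Type 1} [CompleteBooleanAlgebra A] {R : Om → Om → ℕ → ℕ → A} {b : A}

theorem ev_fus (hD : Distr (Set.univ : Set A)) (hR : Sys R b) (hN : NoBr R b) : Ev (fun M => ∀ G : Set A,
    GenF Set.univ M G → ∀ 𝒲 : Set A, 𝒲.Countable → (∀ w ∈ 𝒲, World R b M G w) → ∀ c : Cond A, InM c M →
      c.good R b ∈ G → ∀ B : Finset ((𝒲 × ℕ) × ℚ),
        (∀ p ∈ B, c.f c.top (brw R (del M) p.1.1 p.1.2 c.top) < p.2) →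
        ∃ s : ℕ → Cond A, Antitone s ∧ s 0 = c ∧ (∀ n, InM (s n) M ∧ (s n).good R b ∈ G) ∧
          (∀ D : Set (A × WithTop (Cond A)), InM D M → DOp (goodT R b) D →
            ∃ n, ∃ a ∈ G, (a, ((s n : Cond A) : WithTop (Cond A))) ∈ D) ∧
          ∀ w : 𝒲, ∃ c' : Cond A, (∀ n, c' ≤ s n) ∧ c'.top = del M ∧ (w : A) ≤ c'.good R b ∧
            ∀ p ∈ B, p.1.1 = w → c'.f c'.top p.1.2 < p.2) := by
  classical
  refine (((((ev_step hD hR hN).and (ev_task hD hR)).and (ev_top R b)).and (ev_gbr hR)).and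
    ((ev_gf (A := A)).and (Ev.mdl fun x _ => x))).mono ?_
  rintro M ⟨⟨⟨⟨hstepM, htaskM⟩, htopM⟩, hgbrM⟩, hgfM, hMdl⟩ G hG 𝒲 h𝒲 hW c hcM hcG B hB
  have hgf := hgfM G hG
  have : Countable 𝒲 := h𝒲.to_subtype
  have : Countable {u : Prom A // InM u M} := (tr_countable (T := Prom A) hMdl.ctbl).to_subtype
  have : Countable {D : Set (A × WithTop (Cond A)) // InM D M ∧ DOp (goodT R b) D} :=
    ((tr_countable (T := Set (A × WithTop (Cond A))) hMdl.ctbl).mono
      (fun D hD => hD.1 : {D : Set (A × WithTop (Cond A)) | InM D M ∧ DOp (goodT R b) D} ⊆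
        {D | InM D M})).to_subtype
  obtain ⟨e, he⟩ := exists_injective_nat
    {D : Set (A × WithTop (Cond A)) // InM D M ∧ DOp (goodT R b) D}
  obtain ⟨s, F, hanti, hs0, hReq, hB0F, hF, hsol⟩ := fusion
    (St := {c : Cond A // InM c M ∧ c.good R b ∈ G}) (Pt := 𝒲 × ℕ)
    (T := (𝒲 × {u : Prom A // InM u M}) × Finset ℕ)
    (fun s x => s.1.f s.1.top (brw R (del M) x.1.1 x.2 s.1.top))
    (fun n => {s | ∀ D : {D : Set (A × WithTop (Cond A)) // InM D M ∧ DOp (goodT R b) D}, e D = n →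
      ∃ a ∈ G, (a, ((s.1 : Cond A) : WithTop (Cond A))) ∈ D.1})
    (fun s t => t.1.2.1 ∈ s.1.G) (fun t => t.1.2.1.k) (fun t => t.1.2.1.h)
    (fun t => {y | (∀ l, (y l).1 = t.1.1) ∧ (t.1.1 : A) ≤ t.1.2.1.U (del M) (fun l => (y l).2) ∧
      ∀ l, (y l).2 ∉ t.2})
    (fun s s' t hle hu => (show s'.1 ≤ s.1 from hle).2.2 hu)
    (by
      intro s B hB n
      by_cases h : ∃ D : {D : Set (A × WithTop (Cond A)) // InM D M ∧ DOp (goodT R b) D}, e D = n
      · obtain ⟨D, hDn⟩ := h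
        obtain ⟨a', c', hD', ha'M, hc'M, ha'G, -, hle, -, hb'⟩ := hstepM G hG D.1 D.2.1 D.2.2
          (s.1.good R b) s.2.2 s.1 s.2.1 le_rfl B.card
          (fun l => brw R (del M) (B.equivFin.symm l).1.1.1.1 (B.equivFin.symm l).1.1.2)
          (fun l => hgbrM G hG _ (hW _ (B.equivFin.symm l).1.1.1.2) _)
          (fun l => (B.equivFin.symm l).1.2)
          (fun l => hB _ (B.equivFin.symm l).2)
        have hgood : c'.good R b ∈ G :=
          hgf.2.2.1 _ (htopM.1 c' hc'M).2.1 a' ha'G (D.2.2.sub hD').2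
        refine ⟨⟨c', hc'M, hgood⟩, hle, ?_, ?_⟩
        · intro D2 hD2
          have : D2 = D := he (hD2.trans hDn.symm)
          subst this
          exact ⟨a', ha'G, hD'⟩
        · intro p hp
          have := hb' (B.equivFin ⟨p, hp⟩)
          simpa only [Equiv.symm_apply_apply] using this
      · exact ⟨s, le_rfl, fun D hDn => absurd ⟨D, hDn⟩ h, hB⟩)
    (by
      rintro s t hact X
      obtain ⟨y, hy1, hy2, hy3⟩ := htaskM G hG s.1 s.2.1 s.2.2 t.1.2.1 hact t.1.1.1 (hW _ t.1.1.2)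
        (t.2 ∪ (X.filter fun p => p.1 = t.1.1).image fun p => p.2)
      refine ⟨fun l => (t.1.1, y l), ⟨fun _ => rfl, hy2, fun l hl => hy1 l ?_⟩, fun l hl => hy1 l ?_, hy3⟩
      · exact Finset.mem_union_left _ hl
      · exact Finset.mem_union_right _ (Finset.mem_image.mpr
          ⟨(t.1.1, y l), Finset.mem_filter.mpr ⟨hl, rfl⟩, rfl⟩))
    ⟨c, hcM, hcG⟩ B hB
  have hanti' : Antitone (fun n => (s n).1) := fun m n h => hanti h
  have hmeet : ∀ D : Set (A × WithTop (Cond A)), InM D M → DOp (goodT R b) D →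
      ∃ n, ∃ a ∈ G, (a, (((s n).1 : Cond A) : WithTop (Cond A))) ∈ D := fun D hDM hDd =>
    ⟨_, hReq (e ⟨D, hDM, hDd⟩) ⟨D, hDM, hDd⟩ rfl⟩
  have h1 : ∀ n, (s n).1.top < del M := fun n => (htopM.1 _ (s n).2.1).1
  have h2 : ∀ α, α < del M → ∃ n, α < (s n).1.top := by
    intro α hα
    obtain ⟨n, a, -, -, h | ⟨c1, hc1, hc1'⟩⟩ := hmeet _ (htopM.2 α hα).2 (topD_dop hD hR α)
    · exact absurd h.1 (WithTop.coe_ne_top)
    · refine ⟨n, ?_⟩
      have : (s n).1 = c1 := WithTop.coe_injective hc1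
      rw [this]
      exact hc1'
  refine ⟨fun n => (s n).1, hanti', congrArg Subtype.val hs0, fun n => (s n).2, hmeet, fun w => ?_⟩
  obtain ⟨c', htop, hle, hf, hgood⟩ := exists_lim hR hanti' h1 h2 (fun n => F (w, n))
  have hw := hW _ w.2
  refine ⟨c', hle, htop, ?_, ?_⟩
  · refine hgood w.1 hw.ne (fun n => hw.le _ (s n).2.2) (fun n a => brw R (del M) w.1 n a)
      (fun n a ha => hw.spec n ha) (fun n => hF (w, n)) ?_
    intro n u hu E
    have huM : InM u M := (htopM.1 _ (s n).2.1).2.2 u hu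
    obtain ⟨y, ⟨hy1, hy2, hy3⟩, hy4⟩ := hsol n ((w, ⟨u, huM⟩), E) hu
    refine ⟨fun l => (y l).2, hy3, hy2, fun l => ?_⟩
    have h3 : (w, (y l).2) = y l := Prod.ext (hy1 l).symm rfl
    show F (w, (y l).2) < _
    rw [h3]
    exact hy4 l
  · intro p hp hpw
    have h3 : (w, p.1.2) = p.1 := Prod.ext hpw.symm rfl
    rw [htop, hf]
    show F (w, p.1.2) < _
    rw [h3]
    exact hB0F p hp

end Pool.Agent.CAN.Sp
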