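import Mathlib

/-!
# CAN / SFU: abstract fusion (Mathlib only)

`St` states (`s' ≤ s`: `s'` extends `s`), `Pt` points (countably many), `val s x` the current value at the point `x`, `Req n` requirements, `T` tasks (countably many), `act s t`: the task `t` is
active, `sol t` its solutions.

Construct triples `(s, X, g)` with `X : Finset Pt`, `g : Pt → ℚ`, `val s x < g x` for `x ∈ X`.  In each step `X` grows, and `g` is not changed on `X`; at the end `F x = g x` for any stage with `x ∈ X`.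
* Start: `s₀`, `X =` the points of `B₀`, `g x` strictly between `val s₀ x` and all `q` with `(x, q) ∈ B₀`.
* Step `n` (fix enumerations `pt : ℕ → Option Pt` in which every point occurs and `tk : ℕ → Option T` in which every task occurs infinitely often, e.g. from injections into `ℕ` and `Nat.unpair`):
  a) if `pt n = some x`, `x ∉ X`: add `x` to `X` with `g x = val s x + 1`;
  b) if `tk n = some t` and `act s t`: `htask` gives `y ∈ sol t` with `y l ∉ X` and `val s (y l) < h t l`: add all `y l` to `X`, `g (y l)` strictly between `val s (y l)` and all `h t l'` with `y l' = y l`;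
  c) `hstep` for the finite set `B = X.image fun x => (x, g x)` and `n`: `s' ≤ s`, `s' ∈ Req n`, `val s' x < g x` for `x ∈ X`.
* Result: a point `x` is in `X` from some stage on, and then `val (s n) x < g x = F x`.  A task active at stage `n` is active at all later stages (`hact`), so it is treated at some stage `m ≥ n`, with a
  tuple `y ∈ sol t`, `F (y l) < h t l`.
-/

set_option autoImplicit false

namespace Pool.Agent.CAN.Sp

private theorem SFU_btw (v : ℚ) (S : Finset ℚ) (hS : ∀ q ∈ S, v < q) : ∃ r, v < r ∧ ∀ q ∈ S, r < q := by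
  classical
  induction S using Finset.induction_on with
  | empty => exact ⟨v + 1, by linarith, by simp⟩
  | insert a S ha ih =>
    obtain ⟨r, hr, hrS⟩ := ih (fun q hq => hS q (Finset.mem_insert_of_mem hq))
    have ha' : v < a := hS a (Finset.mem_insert_self _ _)
    obtain ⟨r', h1, h2⟩ := exists_between (lt_min hr ha')
    refine ⟨r', h1, ?_⟩
    intro q hq
    rcases Finset.mem_insert.1 hq with rfl | hq
    · exact lt_of_lt_of_le h2 (min_le_right _ _)
    · exact lt_trans (lt_of_lt_of_le h2 (min_le_left _ _)) (hrS q hq)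

private structure SFU_Tr {St Pt : Type*} (val : St → Pt → ℚ) where
  s : St
  X : Finset Pt
  g : Pt → ℚ
  inv : ∀ x ∈ X, val s x < g x

/-- Extend `g` to finitely many new points, below finitely many bounds. -/
private theorem SFU_ext {St Pt : Type*} (val : St → Pt → ℚ) (σ : SFU_Tr val) (Y : Finset Pt) (C : Finset (Pt × ℚ))
    (hC : ∀ p ∈ C, val σ.s p.1 < p.2) (hCX : ∀ p ∈ C, p.1 ∉ σ.X) :
    ∃ τ : SFU_Tr val, τ.s = σ.s ∧ σ.X ⊆ τ.X ∧ Y ⊆ τ.X ∧ (∀ x ∈ σ.X, τ.g x = σ.g x) ∧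
      (∀ p ∈ C, p.1 ∈ τ.X ∧ τ.g p.1 < p.2) := by
  classical
  have hch : ∀ x : Pt, ∃ r : ℚ, val σ.s x < r ∧ ∀ q ∈ (C.filter (fun p => p.1 = x)).image Prod.snd, r < q := by
    intro x
    apply SFU_btw
    intro q hq
    rw [Finset.mem_image] at hq
    obtain ⟨p, hp, rfl⟩ := hq
    rw [Finset.mem_filter] at hp
    rw [← hp.2]
    exact hC p hp.1
  choose r hr1 hr2 using hch
  refine ⟨⟨σ.s, σ.X ∪ Y ∪ C.image Prod.fst, fun x => if x ∈ σ.X then σ.g x else r x, ?_⟩, rfl, ?_, ?_, ?_, ?_⟩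
  · intro x _
    by_cases hx : x ∈ σ.X
    · simp only [hx, if_true]
      exact σ.inv x hx
    · simp only [hx, if_false]
      exact hr1 x
  · intro x hx
    simp [hx]
  · intro x hx
    simp [hx]
  · intro x hx
    simp only [hx, if_true]
  · intro p hp
    refine ⟨?_, ?_⟩
    · exact Finset.mem_union_right _ (Finset.mem_image_of_mem _ hp)
    · have := hCX p hp
      simp only [this, if_false]
      exact hr2 p.1 p.2 (Finset.mem_image.2 ⟨p, Finset.mem_filter.2 ⟨hp, rfl⟩, rfl⟩)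

theorem fusion {St Pt T : Type*} [Preorder St] [Countable Pt] [Countable T] (val : St → Pt → ℚ) (Req : ℕ → Set St)
    (act : St → T → Prop) (k : T → ℕ) (h : ∀ t, Fin (k t) → ℚ) (sol : ∀ t, Set (Fin (k t) → Pt))
    (hact : ∀ s s' t, s' ≤ s → act s t → act s' t)
    (hstep : ∀ (s : St) (B : Finset (Pt × ℚ)), (∀ p ∈ B, val s p.1 < p.2) → ∀ n, ∃ s' ≤ s, s' ∈ Req n ∧
      ∀ p ∈ B, val s' p.1 < p.2)
    (htask : ∀ s t, act s t → ∀ X : Finset Pt, ∃ y ∈ sol t, (∀ l, y l ∉ X) ∧ ∀ l, val s (y l) < h t l)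
    (s0 : St) (B0 : Finset (Pt × ℚ)) (hB0 : ∀ p ∈ B0, val s0 p.1 < p.2) :
    ∃ (s : ℕ → St) (F : Pt → ℚ), Antitone s ∧ s 0 = s0 ∧ (∀ n, s (n + 1) ∈ Req n) ∧ (∀ p ∈ B0, F p.1 < p.2) ∧
      (∀ x, ∃ N, ∀ n, N ≤ n → val (s n) x < F x) ∧ ∀ n t, act (s n) t → ∃ y ∈ sol t, ∀ l, F (y l) < h t l := by
  classical
  obtain ⟨pt, hpt⟩ := exists_surjective_nat (Option Pt)
  obtain ⟨tk, htk⟩ := exists_surjective_nat (Option T)
  -- one step
  have hone : ∀ (n : ℕ) (σ : SFU_Tr val), ∃ τ : SFU_Tr val, τ.s ≤ σ.s ∧ τ.s ∈ Req n ∧ σ.X ⊆ τ.X ∧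
      (∀ x ∈ σ.X, τ.g x = σ.g x) ∧ (∀ x, pt n = some x → x ∈ τ.X) ∧
      (∀ t, tk n.unpair.1 = some t → act σ.s t → ∃ y ∈ sol t, ∀ l, y l ∈ τ.X ∧ τ.g (y l) < h t l) := by
    intro n σ
    obtain ⟨σ1, h1s, h1X, h1Y, h1g, -⟩ := SFU_ext val σ (pt n).toFinset ∅ (by simp) (by simp)
    have hpt1 : ∀ x, pt n = some x → x ∈ σ1.X := by
      intro x hx
      exact h1Y (by simp [hx])
    have h2 : ∃ σ2 : SFU_Tr val, σ2.s = σ1.s ∧ σ1.X ⊆ σ2.X ∧ (∀ x ∈ σ1.X, σ2.g x = σ1.g x) ∧
        (∀ t, tk n.unpair.1 = some t → act σ.s t → ∃ y ∈ sol t, ∀ l, y l ∈ σ2.X ∧ σ2.g (y l) < h t l) := by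
      by_cases hex : ∃ t, tk n.unpair.1 = some t ∧ act σ.s t
      · obtain ⟨t, ht, hat⟩ := hex
        obtain ⟨y, hy, hyX, hyv⟩ := htask σ.s t hat σ1.X
        obtain ⟨σ2, h2s, h2X, -, h2g, h2C⟩ := SFU_ext val σ1 ∅ (Finset.univ.image (fun l => (y l, h t l))) (by
          intro p hp
          rw [Finset.mem_image] at hp
          obtain ⟨l, -, rfl⟩ := hp
          rw [h1s]
          exact hyv l) (by
          intro p hp
          rw [Finset.mem_image] at hp
          obtain ⟨l, -, rfl⟩ := hp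
          exact hyX l)
        refine ⟨σ2, h2s, h2X, h2g, ?_⟩
        intro t' ht' _
        have : t' = t := by
          rw [ht] at ht'
          exact (Option.some.inj ht').symm
        subst this
        refine ⟨y, hy, fun l => ?_⟩
        exact h2C (y l, h t' l) (Finset.mem_image.2 ⟨l, Finset.mem_univ _, rfl⟩)
      · refine ⟨σ1, rfl, subset_rfl, fun _ _ => rfl, ?_⟩
        intro t ht hat
        exact absurd ⟨t, ht, hat⟩ hex
    obtain ⟨σ2, h2s, h2X, h2g, h2t⟩ := h2
    obtain ⟨s', hs'le, hs'R, hs'v⟩ := hstep σ2.s (σ2.X.image (fun x => (x, σ2.g x))) (by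
      intro p hp
      rw [Finset.mem_image] at hp
      obtain ⟨x, hx, rfl⟩ := hp
      exact σ2.inv x hx) n
    refine ⟨⟨s', σ2.X, σ2.g, ?_⟩, ?_, hs'R, h1X.trans h2X, ?_, ?_, ?_⟩
    · intro x hx
      exact hs'v (x, σ2.g x) (Finset.mem_image.2 ⟨x, hx, rfl⟩)
    · show s' ≤ σ.s
      rw [← h1s, ← h2s]
      exact hs'le
    · intro x hx
      show σ2.g x = σ.g x
      rw [h2g x (h1X hx), h1g x hx]
    · intro x hx
      exact h2X (hpt1 x hx)
    · exact h2t
  choose f hf1 hf2 hf3 hf4 hf5 hf6 using hone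
  -- start
  obtain ⟨σ0, h0s, -, -, -, h0C⟩ := SFU_ext val (⟨s0, ∅, fun _ => 0, by simp⟩ : SFU_Tr val) ∅ B0 hB0 (by simp)
  let σ : ℕ → SFU_Tr val := fun n => Nat.rec σ0 (fun n τ => f n τ) n
  have hσ : ∀ n, σ (n + 1) = f n (σ n) := fun n => rfl
  have hXm : Monotone (fun n => (σ n).X) := by
    apply monotone_nat_of_le_succ
    intro n
    show (σ n).X ⊆ (σ (n + 1)).X
    rw [hσ]
    exact hf3 n (σ n)
  have hgs : ∀ n m, n ≤ m → ∀ x ∈ (σ n).X, (σ m).g x = (σ n).g x := by
    intro n m hnm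
    induction m, hnm using Nat.le_induction with
    | base => intro x _; rfl
    | succ m hm ih =>
      intro x hx
      rw [hσ, hf4 m (σ m) x (hXm hm hx)]
      exact ih x hx
  have hsm : Antitone (fun n => (σ n).s) := by
    apply antitone_nat_of_succ_le
    intro n
    show (σ (n + 1)).s ≤ (σ n).s
    rw [hσ]
    exact hf1 n (σ n)
  have hin : ∀ x, ∃ N, x ∈ (σ N).X := by
    intro x
    obtain ⟨n, hn⟩ := hpt (some x)
    exact ⟨n + 1, by rw [hσ]; exact hf5 n (σ n) x hn⟩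
  choose N hN using hin
  have hF : ∀ n x, x ∈ (σ n).X → (σ n).g x = (σ (N x)).g x := by
    intro n x hx
    rcases le_total n (N x) with h | h
    · exact (hgs n (N x) h x hx).symm
    · exact hgs (N x) n h x (hN x)
  refine ⟨fun n => (σ n).s, fun x => (σ (N x)).g x, hsm, h0s, ?_, ?_, ?_, ?_⟩
  · intro n
    show (σ (n + 1)).s ∈ Req n
    rw [hσ]
    exact hf2 n (σ n)
  · intro p hp
    obtain ⟨h1, h2⟩ := h0C p hp
    show (σ (N p.1)).g p.1 < p.2
    rw [← hF 0 p.1 h1]
    exact h2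
  · intro x
    refine ⟨N x, fun n hn => ?_⟩
    have hx : x ∈ (σ n).X := hXm hn (hN x)
    show val (σ n).s x < (σ (N x)).g x
    rw [← hF n x hx]
    exact (σ n).inv x hx
  · intro n t hat
    obtain ⟨a, ha⟩ := htk (some t)
    let m := Nat.pair a n
    have hnm : n ≤ m := Nat.right_le_pair a n
    have hat' : act (σ m).s t := hact _ _ t (hsm hnm) hat
    have hm : tk m.unpair.1 = some t := by
      simp only [m, Nat.unpair_pair]
      exact ha
    obtain ⟨y, hy, hyl⟩ := hf6 m (σ m) t hm hat'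
    refine ⟨y, hy, fun l => ?_⟩
    obtain ⟨h1, h2⟩ := hyl l
    show (σ (N (y l))).g (y l) < h t l
    rw [← hF (m + 1) (y l) (by rw [hσ]; exact h1), hσ]
    exact h2

end Pool.Agent.CAN.Sp
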