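import Pool.Agent.CAN.SWO
import Pool.Agent.CAN.SAQ
import Pool.Agent.CAN.TWC

/-!
# CAN / SIN: applying `(S_j)` inside a later model

`δ = del (W j)`, `δ' = del (W j')`, `δ < δ'` (`evT_del`).  `Tw W`, so `W j ⊆ W j.s ⊆ W j'` (`Om.s_le`).

(1) THE CONDITION `E`.  Let `𝓔 = {E | Wd R b (W j) E ∧ E ≤ ggen Set.univ W i j ∧ E ≤ c.good R b} ∪ {(ggen Set.univ W i j ⊓ c.good R b)ᶜ}`.  `𝓔 ∈ W j.s`: apply `EvT.wit2` to the relation
`v = 𝓔(W, j, i, c)` (it only depends on `W` below `j`: `ggen_loc`) and `i, c ∈ W j.s` (`EvT.idx`; `c ∈ W i ⊆ W j.s`).  `sSup 𝓔 = ⊤`: otherwise `q = (sSup 𝓔)ᶜ ≠ ⊥` is `≤ ggen ⊓ c.good R b ≤ b` and `exists_world` (for `M = W j`,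
`G = fil (W j) r'`) gives a world `E ≤ q` (`Wd.gen` by `ggen_le`).  `r ≤ gen Set.univ (W j.s)` (`ggen_le`), so `r ≤ sSup {E ∈ 𝓔 | InM E (W j.s)}` (`gen_le`); some of them meets `r`, and `r` decides it (`Wd.dec`, `W j.s ⊆ W j'`), so
`r ≤ E`, `E ∈ 𝓔`, `E ∈ W j.s`; `E` is not the complement since `r ≤ ggen Set.univ W i j' ≤ ggen Set.univ W i j` and `r ≤ c.good R b`, `r ≠ ⊥`.

(2) THE BOUNDS.  `m n := brw R δ' r n δ`, so `r ≤ R δ δ' n (m n)` (`World.spec`).  For `t = c.top < δ` (`ev_top`, `InM c (W i)`, `W i ⊆ W j`): `brw R δ' r n t = brw R δ E (m n) t`: with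
`x' = brw R δ E (m n) t`: `r ≤ E ≤ R t δ (m n) x'`, so `r ≤ R t δ' n x'` (`Sys.comp`), and `brw_uniq`.  Let `B₁ = B.image fun p => (m p.1, p.2)`.  Then `Bds R δ E c B₁`.

(3) `SSj` gives `c' ≤ c` with `c'.top = δ`, `E ≤ c'.good R b`, `c'.f c'.top p.1 < p.2` for `p ∈ B₁`, `Gnr R b (W k) E c'` for `i ≤ k ≤ j`.  We may take `c' ∈ W j.s`: `EvT.wit4` for the relation
`ρ W j i c E B₁ c'` (all these properties; it depends only on `W` below `j`); `i, c, E ∈ W j.s` and `B₁ ∈ W j.s` (`Ev.mem_ctbl (Finset (ℕ × ℚ))`).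
`Gnr R b (W k) r c'` follows from `r ≤ E`.  `c'.f c'.top (brw R δ' r p.1 c'.top) = c'.f c'.top (m p.1) < p.2` for `p ∈ B`.
-/

set_option autoImplicit false

namespace Pool.Agent.CAN.Sp

variable {A : Type 1} [CompleteBooleanAlgebra A] {R : Om → Om → ℕ → ℕ → A} {b : A}

/-- the set of possible worlds over `W j`, and the complement of the generic condition -/
private def SIN_E (R : Om → Om → ℕ → ℕ → A) (b : A) (W : Om → ZFSet.{1}) (j i : Om) (c : Cond A) : Set A :=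
  {E | Wd R b (W j) E ∧ E ≤ ggen Set.univ W i j ∧ E ≤ c.good R b} ∪ {(ggen Set.univ W i j ⊓ c.good R b)ᶜ}

private theorem SIN_E_loc {W W' : Om → ZFSet.{1}} {j : Om} (h : ∀ k, k ≤ j → W k = W' k) (i : Om) (c : Cond A) :
    SIN_E R b W j i c = SIN_E R b W' j i c := by
  unfold SIN_E
  rw [h j le_rfl, ggen_loc h]

private theorem SIN_top (hD : Distr (Set.univ : Set A)) (hR : Sys R b) {W : Om → ZFSet.{1}} {i j : Om} (hij : i ≤ j)
    (hM : {x | x ∈ W j}.Countable) (c : Cond A) : sSup (SIN_E R b W j i c) = ⊤ := by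
  by_contra hne
  have hq : (sSup (SIN_E R b W j i c))ᶜ ≠ ⊥ := fun h => hne (compl_eq_bot.1 h)
  have h1 : (ggen Set.univ W i j ⊓ c.good R b)ᶜ ≤ sSup (SIN_E R b W j i c) := le_sSup (Or.inr rfl)
  have h2 : (sSup (SIN_E R b W j i c))ᶜ ≤ ggen Set.univ W i j ⊓ c.good R b := by
    have := compl_le_compl h1
    rwa [compl_compl] at this
  obtain ⟨r', hr', hr0, hdec, hw⟩ := exists_world (M := W j) hD hR hM hq
    (h2.trans (inf_le_right.trans (Cond.good_le R b c)))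
  have h3 : r' ≤ ggen Set.univ W i j := hr'.trans (h2.trans inf_le_left)
  have h4 : r' ∈ SIN_E R b W j i c := by
    refine Or.inl ⟨⟨h3.trans (ggen_le hij le_rfl), hdec, hw _ fun x hx => hx.2⟩, h3,
      hr'.trans (h2.trans inf_le_right)⟩
  apply hr0
  have h5 : r' ≤ sSup (SIN_E R b W j i c) := le_sSup h4
  have h6 : r' ≤ sSup (SIN_E R b W j i c) ⊓ (sSup (SIN_E R b W j i c))ᶜ := le_inf h5 hr'
  rw [inf_compl_eq_bot] at h6
  exact le_bot_iff.1 h6

private theorem SIN_meet {r : A} (hr : r ≠ ⊥) {X : Set A} (h : r ≤ sSup X) : ∃ d ∈ X, r ⊓ d ≠ ⊥ := by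
  by_contra hcon
  push Not at hcon
  apply hr
  have h1 : r = r ⊓ sSup X := (inf_eq_left.2 h).symm
  rw [h1, inf_sSup_eq]
  exact le_bot_iff.1 (iSup₂_le fun d hd => (hcon d hd).le)

private theorem SIN_brw (hR : Sys R b) {M M' : ZFSet.{1}} {G G' : Set A} {r E : A} (hr : World R b M' G' r)
    (hE : World R b M G E) (hrE : r ≤ E) (hd : del M < del M') (n : ℕ) {t : Om} (ht : t < del M) :
    brw R (del M') r n t = brw R (del M) E (brw R (del M') r n (del M)) t := by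
  have h1 := hr.spec n hd
  have h2 := hrE.trans (hE.spec (brw R (del M') r n (del M)) ht)
  refine brw_uniq hR hr.ne hr.leb (ht.le.trans hd.le) ?_
  refine le_trans ?_ (hR.comp t (del M) (del M') n (brw R (del M') r n (del M)) _ ht.le hd.le)
  exact le_inf (le_inf hr.leb h1) h2

private theorem SIN_Gnr_mono {M : ZFSet.{1}} {r E : A} (h : r ≤ E) {c : WithTop (Cond A)} (hE : Gnr R b M E c) :
    Gnr R b M r c := by
  intro D hD hDD
  obtain ⟨d, hd, hM, h1, h2⟩ := hE D hD hDD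
  exact ⟨d, hd, hM, h.trans h1, h2⟩

/-- what is wanted of `c'` -/
private def SIN_rho (R : Om → Om → ℕ → ℕ → A) (b : A) (W : Om → ZFSet.{1}) (j : Om) (i : Om) (c : Cond A) (E : A)
    (B : Finset (ℕ × ℚ)) (c' : Cond A) : Prop :=
  c' ≤ c ∧ c'.top = del (W j) ∧ E ≤ c'.good R b ∧ (∀ p ∈ B, c'.f c'.top p.1 < p.2) ∧
    ∀ k, i ≤ k → k ≤ j → Gnr R b (W k) E c'

private theorem SIN_rho_loc (i : Om) (c : Cond A) (E : A) (B : Finset (ℕ × ℚ)) (c' : Cond A) :
    Loc (fun W k => SIN_rho R b W k i c E B c') := by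
  rintro W W' j h ⟨h1, h2, h3, h4, h5⟩
  refine ⟨h1, ?_, h3, h4, ?_⟩
  · rw [← h j le_rfl]
    exact h2
  · intro k hk1 hk2
    rw [← h k hk2]
    exact h5 k hk1 hk2

theorem ev_inner (hD : Distr (Set.univ : Set A)) (hR : Sys R b) : EvT (fun W i => ∀ j, i ≤ j → SSj R b W i j →
    ∀ j', j < j' → ∀ r : A, r ≤ ggen Set.univ W i j' → Wd R b (W j') r → ∀ c : Cond A, InM c (W i) → r ≤ c.good R b →
      ∀ B : Finset (ℕ × ℚ), Bds R (del (W j')) r c B →
        ∃ c' ≤ c, InM c' (W j.s) ∧ c'.top = del (W j) ∧ r ≤ c'.good R b ∧ Bds R (del (W j')) r c' B ∧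
          ∀ k, i ≤ k → k ≤ j → Gnr R b (W k) r c') := by
  classical
  have w2 := EvT.wit2 (S := Om) (T := Cond A) (Z := Set A) (fun W k x y v => v = SIN_E R b W k x y)
    (fun x y v W W' k h hv => by
      rw [hv]
      exact SIN_E_loc h x y)
  have w4 := EvT.wit4 (S := Om) (T := Cond A) (U := A) (X := Finset (ℕ × ℚ)) (Z := Cond A)
    (fun W k x y z w v => SIN_rho R b W k x y z w v) (fun x y z w v => SIN_rho_loc x y z w v)
  refine ((((((w2.and w4).and evT_del).and EvT.idx).and (EvT.of_ev (ev_top R b))).and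
    (EvT.of_ev (Ev.mdl (fun _ _ => ∅)))).and (EvT.of_ev (Ev.mem_ctbl (Finset (ℕ × ℚ))))).mono ?_
  rintro W i hW ⟨⟨⟨⟨⟨⟨hw2, hw4⟩, hdel⟩, hidx⟩, htop⟩, hmdl⟩, hfin⟩
  intro j hij hS j' hjj' r hrg hr c hc hrc B hB
  have hjs : i ≤ j.s := hij.trans (Om.lt_s j).le
  have hss : j.s ≤ j' := Om.s_le.2 hjj'
  have hd : del (W j) < del (W j') := (hdel.2.2.1 j j' hij hjj').1
  have hcj : InM c (W j) := hW.mono i j hij hc
  have hcs : InM c (W j.s) := hW.mono i j.s hjs hc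
  have his : InM i (W j.s) := (hidx j hij i hij).1
  have hct : c.top < del (W j) := ((htop j hij).1 c hcj).1
  have hr0 : r ≠ ⊥ := hr.w.ne
  have hrij : r ≤ ggen Set.univ W i j := hrg.trans (ggen_anti W le_rfl hjj'.le)
  -- the condition `E`
  have hEE : InM (SIN_E R b W j i c) (W j.s) := by
    obtain ⟨v, hv, he⟩ := hw2 j hij i c his hcs ⟨_, rfl⟩
    rwa [he] at hv
  have h1 : r ≤ sSup {d | d ∈ SIN_E R b W j i c ∧ InM d (W j.s)} :=
    (hrg.trans (ggen_le hjs hss)).trans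
      (gen_le hEE (Set.subset_univ _) (SIN_top hD hR hij (hmdl j hij).ctbl c))
  obtain ⟨E, ⟨hE1, hE2⟩, hE3⟩ := SIN_meet hr0 h1
  have hrE : r ≤ E := by
    rcases hr.dec E (hW.mono j.s j' hss hE2) with h | h
    · exact h
    · exfalso
      apply hE3
      have : r ⊓ E ≤ Eᶜ ⊓ E := inf_le_inf_right _ h
      rw [compl_inf_eq_bot] at this
      exact le_bot_iff.1 this
  rcases hE1 with ⟨hEW, hEg, hEc⟩ | hEc
  swap
  · exfalso
    apply hr0
    have hEc' : E = (ggen Set.univ W i j ⊓ c.good R b)ᶜ := hEc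
    rw [hEc'] at hrE
    have : r ≤ (ggen Set.univ W i j ⊓ c.good R b) ⊓ (ggen Set.univ W i j ⊓ c.good R b)ᶜ :=
      le_inf (le_inf hrij hrc) hrE
    rw [inf_compl_eq_bot] at this
    exact le_bot_iff.1 this
  -- the bounds
  have hm : ∀ (n : ℕ) {t : Om}, t < del (W j) → brw R (del (W j')) r n t
      = brw R (del (W j)) E (brw R (del (W j')) r n (del (W j))) t :=
    fun n t ht => SIN_brw hR hr.w hEW.w hrE hd n ht
  have hB1 : Bds R (del (W j)) E c
      (B.image fun p => (brw R (del (W j')) r p.1 (del (W j)), p.2)) := by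
    intro p hp
    obtain ⟨p', hp', rfl⟩ := Finset.mem_image.1 hp
    have := hB p' hp'
    rw [hm p'.1 hct] at this
    exact this
  obtain ⟨c', hc's, hc'1, hc'2, hc'3, hc'4, hc'5⟩ := hw4 j hij i c E
    (B.image fun p => (brw R (del (W j')) r p.1 (del (W j)), p.2)) his hcs hE2 (hfin j.s hjs _)
    (hS E hEg hEW c hc hEc _ hB1)
  refine ⟨c', hc'1, hc's, hc'2, hrE.trans hc'3, ?_, fun k hk1 hk2 => SIN_Gnr_mono hrE (hc'5 k hk1 hk2)⟩
  intro p hp
  have := hc'4 (brw R (del (W j')) r p.1 (del (W j)), p.2) (Finset.mem_image.2 ⟨p, hp, rfl⟩)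
  rw [hc'2] at this ⊢
  exact this

end Pool.Agent.CAN.Sp
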