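import Pool.Agent.CAN.SFS

/-!
# CAN / SPJ: properness for one model

`M = W i`, `G = fil M r` (generic by `ev_fil`), `𝒲 = {r}`.  `c.good R b ∈ M` (`ev_top`), so `∈ fil M r`.  `ev_fus` with the bounds `((r, n), q)` for `(n, q) ∈ B`.
`Gnr R b M r c'`: for `D` there are `n` and `a ∈ fil M r` with `(a, s n) ∈ D`; it is in `M` (`Ev.pair_iff`, `Ev.coe_iff`), `r ≤ a`, `c' ≤ s n`.  `k = i` is the only index in `[i, i]`.
-/

set_option autoImplicit false

namespace Pool.Agent.CAN.Sp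

variable {A : Type 1} [CompleteBooleanAlgebra A] {R : Om → Om → ℕ → ℕ → A} {b : A}

theorem ev_ssj_self (hD : Distr (Set.univ : Set A)) (hR : Sys R b) (hN : NoBr R b) :
    EvT (fun W i => ∀ j, i ≤ j → SSj R b W j j) := by
  classical
  refine (EvT.of_ev (((((ev_fus hD hR hN).and (ev_fil (R := R) (b := b))).and (ev_top R b)).and
    (Ev.pair_iff A (WithTop (Cond A)))).and (Ev.coe_iff (Cond A)))).mono ?_
  intro W i _ h j hj
  obtain ⟨⟨⟨⟨hfus, hfil⟩, htop⟩, hpair⟩, hcoe⟩ := h j hj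
  intro r _ hr c hc hrc B hB
  have hG : GenF Set.univ (W j) (fil (W j) r) := hfil r hr
  have hcG : c.good R b ∈ fil (W j) r := ⟨(htop.1 c hc).2.1, hrc⟩
  obtain ⟨s, _, hs0, hsM, hsD, hsw⟩ := hfus (fil (W j) r) hG ({r} : Set A) (Set.countable_singleton r)
    (fun w hw => by
      have e : w = r := hw
      rw [e]
      exact hr.w) c hc hcG
    (B.image (fun p : ℕ × ℚ => (((⟨r, rfl⟩ : ({r} : Set A)), p.1), p.2)))
    (by
      intro p hp
      obtain ⟨p', hp', rfl⟩ := Finset.mem_image.1 hp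
      exact hB p' hp')
  obtain ⟨c', hc', ht, hg, hf⟩ := hsw ⟨r, rfl⟩
  refine ⟨c', ?_, ht, hg, ?_, ?_⟩
  · have := hc' 0
    rwa [hs0] at this
  · intro p hp
    exact hf (((⟨r, rfl⟩ : ({r} : Set A)), p.1), p.2) (Finset.mem_image.2 ⟨p, hp, rfl⟩) rfl
  · intro k hk1 hk2
    have e : k = j := le_antisymm hk2 hk1
    subst e
    intro D hDM hDD
    obtain ⟨n, a, ha, had⟩ := hsD D hDM hDD
    refine ⟨(a, ((s n : Cond A) : WithTop (Cond A))), had, ?_, ha.2, WithTop.coe_le_coe.2 (hc' n)⟩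
    exact (hpair _ _).2 ⟨ha.1, (hcoe _).2 (hsM n).1⟩

end Pool.Agent.CAN.Sp
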