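import Pool.Agent.CAN.SIN
import Pool.Agent.CAN.SFU
import Pool.Agent.CAN.SLC
import Pool.Agent.CAN.STK

/-!
# CAN / SPL: limit steps along the tower

`j` is a limit, `i < j`, `r`, `c`, `B` given; `δ = del (W j)`, `ξ : ℕ → Om` increasing and cofinal in `j`, `ξ 0 = i` (`Om.exists_cof`).  Use `ev_inner` for all `i' ≥ i` (`EvT.shift`).

Apply `fusion` with
* `St = {s : Om × Cond A // i ≤ s.1 ∧ s.1 < j ∧ InM s.2 (W s.1.s) ∧ s.2.top = del (W s.1) ∧ s.2 ≤ c ∧ r ≤ s.2.good R b ∧ ∀ m, i ≤ m → m ≤ s.1 → Gnr R b (W m) r s.2}` with the order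
  `s' ≤ s ↔ s.1 ≤ s'.1 ∧ s'.2 ≤ s.2` (a preorder; e.g. put it on the subtype of `Omᵒᵈ × Cond A`), `Pt = ℕ`, `val s n = s.2.f s.2.top (brw R δ r n s.2.top)`;
* `Req n = {s | ξ n ≤ s.1}`; `hstep`: let `k' = max (ξ n) s.1.s < j` (`Om.lim_s`); `ev_inner` at `i := s.1.s`, `j := k'`, `j' := j` (by hypothesis `SSj R b W s.1.s k'`; `r ≤ ggen Set.univ W s.1.s j` by `ggen_anti`; `s.2 ∈ W s.1.s`):
  `c'' ≤ s.2`, `InM c'' (W k'.s)`, top `del (W k')`, bounds kept, `Gnr` for `m ∈ [s.1.s, k']`; for `m ≤ s.1` it follows from `Gnr R b (W m) r s.2`;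
* `T = {u : Prom A // InM u (W j)} × Finset ℕ`, `act s (u, E)`: `u ∈ s.2.G`; `sol (u, E) = {y : Fin u.k → ℕ | r ≤ u.U δ y ∧ ∀ l, y l ∉ E}`; `htask`: `ev_task` for `M = W j`, `G = fil (W j) r` (`ev_fil`), `w = r` (`Wd.w`), `T := E ∪ X`
  (`s.2 ∈ W s.1.s ⊆ W j`, `s.2.good R b ∈ fil (W j) r`).
* `s₀`: `ev_inner` at `i`, `j := i`, `j' := j` with `SSj R b W i i`, `c`, `B`: a state with first component `i`, and the bounds `B` hold for it.
The result is `s n = (k n, c n)` and `F : ℕ → ℚ`.  `c` is antitone, `(c n).top = del (W (k n)) < δ` (`evT_del`); for `α < δ` there is `m < j` with `α < del (W m)` (`evT_del`), `m ≤ ξ n ≤ k (n + 1)` for some `n`, so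
`α < (c (n + 1)).top`.  `exists_lim` with `x n a = brw R δ r n a`, `w = r` gives `c' `, `c' ≤ c n` for all `n`, `r ≤ c'.good R b`, `c'.f δ n = F n`.
`Gnr R b (W m) r c'` for `i ≤ m < j`: `m ≤ ξ n ≤ k (n + 1)`.  For `m = j`: a `D ∈ W j` is in `W m'` for some `m' < j` (`Tw.cont`), wlog `i ≤ m'` (`Tw.mono`), and the element found is in `W m' ⊆ W j`.
-/

set_option autoImplicit false

namespace Pool.Agent.CAN.Sp

variable {A : Type 1} [CompleteBooleanAlgebra A] {R : Om → Om → ℕ → ℕ → A} {b : A}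

private structure SplSt (R : Om → Om → ℕ → ℕ → A) (b : A) (W : Om → ZFSet.{1}) (i j : Om) (r : A) (c : Cond A)
    (s : Omᵒᵈ × Cond A) : Prop where
  le : i ≤ OrderDual.ofDual s.1
  lt : OrderDual.ofDual s.1 < j
  inm : InM s.2 (W (OrderDual.ofDual s.1).s)
  top : s.2.top = del (W (OrderDual.ofDual s.1))
  sub : s.2 ≤ c
  good : r ≤ s.2.good R b
  gnr : ∀ m, i ≤ m → m ≤ OrderDual.ofDual s.1 → Gnr R b (W m) r s.2

private theorem spl_gnr {M : ZFSet.{1}} {r : A} {c d : Cond A} (h : Gnr R b M r d) (hcd : c ≤ d) : Gnr R b M r c := by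
  intro D hD hDo
  obtain ⟨e, he, heM, h1, h2⟩ := h D hD hDo
  exact ⟨e, he, heM, h1, (WithTop.coe_le_coe.2 hcd).trans h2⟩

theorem ev_ssj_lim (hD : Distr (Set.univ : Set A)) (hR : Sys R b) : EvT (fun W i => ∀ j, Lim j → i < j →
    (∀ i' j', i ≤ i' → i' ≤ j' → j' < j → SSj R b W i' j') → SSj R b W i j) := by
  refine ((((((ev_inner hD hR).shift).and (EvT.of_ev (ev_task hD hR))).and
    (EvT.of_ev (ev_fil (R := R) (b := b)))).and evT_del).and
    ((EvT.of_ev (ev_top R b)).and (EvT.of_ev (Ev.mdl (fun _ _ => ∅))))).mono ?_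
  rintro W i hW ⟨⟨⟨⟨hin, htk⟩, hfil⟩, ⟨_, hd2, hd3, hd4⟩⟩, hto, hct⟩ j hj hij hS r hr hwd c hc hrc B hB
  obtain ⟨ξ, hξm, hξ0, hξ1, hξ2⟩ := Om.exists_cof hj hij
  have hmem : ∀ (s : Omᵒᵈ × Cond A), SplSt R b W i j r c s → InM s.2 (W j) := fun s hs =>
    hW.mono _ _ (Om.lim_s hj hs.lt).le hs.inm
  let St : Type 1 := {s : Omᵒᵈ × Cond A // SplSt R b W i j r c s}
  let T : Type 1 := {u : Prom A // InM u (W j)} × Finset ℕ
  have hTc : Countable {u : Prom A // InM u (W j)} := (tr_countable (T := Prom A) (hct j hij.le).ctbl).to_subtype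
  have hTc' : Countable T := by
    show Countable ({u : Prom A // InM u (W j)} × Finset ℕ)
    infer_instance
  let val : St → ℕ → ℚ := fun s n => s.1.2.f s.1.2.top (brw R (del (W j)) r n s.1.2.top)
  let Req : ℕ → Set St := fun n => {s | ξ n ≤ OrderDual.ofDual s.1.1}
  let act : St → T → Prop := fun s t => t.1.1 ∈ s.1.2.G
  let kk : T → ℕ := fun t => t.1.1.k
  let hh : ∀ t : T, Fin (kk t) → ℚ := fun t => t.1.1.h
  let sol : ∀ t : T, Set (Fin (kk t) → ℕ) := fun t => {y | r ≤ t.1.1.U (del (W j)) y ∧ ∀ l, y l ∉ t.2}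
  -- the start
  obtain ⟨c0, hc0, hc0m, hc0t, hc0g, hc0b, hc0n⟩ := hin i le_rfl i le_rfl (hS i i le_rfl le_rfl hij) j hij r hr hwd c hc hrc B hB
  have hs0 : SplSt R b W i j r c (OrderDual.toDual i, c0) :=
    ⟨le_rfl, hij, hc0m, hc0t, hc0, hc0g, fun m h1 h2 => hc0n m h1 h2⟩
  have hact : ∀ (s s' : St) (t : T), s' ≤ s → act s t → act s' t := fun s s' t h1 h2 => h1.2.2.2 h2
  have hstep : ∀ (s : St) (B : Finset (ℕ × ℚ)), (∀ p ∈ B, val s p.1 < p.2) → ∀ n, ∃ s' ≤ s, s' ∈ Req n ∧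
      ∀ p ∈ B, val s' p.1 < p.2 := by
    rintro ⟨⟨a, d⟩, hs⟩ B' hB' n
    have ha : i ≤ (OrderDual.ofDual a).s := hs.le.trans (Om.lt_s _).le
    have hk : max (ξ n) (OrderDual.ofDual a).s < j := max_lt (hξ1 n) (Om.lim_s hj hs.lt)
    obtain ⟨c1, h1, h2, h3, h4, h5, h6⟩ := hin (OrderDual.ofDual a).s ha (max (ξ n) (OrderDual.ofDual a).s)
      (le_max_right _ _) (hS _ _ ha (le_max_right _ _) hk) j hk r (hr.trans (ggen_anti W ha le_rfl)) hwd d hs.inm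
      hs.good B' hB'
    refine ⟨⟨(OrderDual.toDual (max (ξ n) (OrderDual.ofDual a).s), c1), ?_⟩, ⟨?_, h1⟩, ?_, h5⟩
    · refine ⟨ha.trans (le_max_right _ _), hk, h2, h3, h1.trans hs.sub, h4, ?_⟩
      intro m hm hm'
      by_cases hma : m ≤ OrderDual.ofDual a
      · exact spl_gnr (hs.gnr m hm hma) h1
      · exact h6 m (Om.s_le.2 (not_le.1 hma)) hm'
    · show OrderDual.ofDual a ≤ max (ξ n) (OrderDual.ofDual a).s
      exact (Om.lt_s _).le.trans (le_max_right _ _)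
    · show ξ n ≤ max (ξ n) (OrderDual.ofDual a).s
      exact le_max_left _ _
  have htask : ∀ (s : St) (t : T), act s t → ∀ X : Finset ℕ, ∃ y ∈ sol t, (∀ l, y l ∉ X) ∧ ∀ l, val s (y l) < hh t l := by
    rintro ⟨⟨a, d⟩, hs⟩ ⟨⟨u, hu⟩, E⟩ hac X
    have hdm : InM d (W j) := hmem _ hs
    obtain ⟨y, h1, h2, h3⟩ := htk j hij.le (fil (W j) r) (hfil j hij.le r hwd) d hdm
      ⟨((hto j hij.le).1 d hdm).2.1, hs.good⟩ u hac r hwd.w (E ∪ X)
    refine ⟨y, ⟨h2, fun l hl => h1 l (Finset.mem_union_left _ hl)⟩, fun l hl => h1 l (Finset.mem_union_right _ hl), h3⟩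
  obtain ⟨s, F, hanti, hs00, hreq, hF0, hFv, hFt⟩ := fusion val Req act kk hh sol hact hstep htask
    ⟨(OrderDual.toDual i, c0), hs0⟩ B hc0b
  have ht1 : ∀ n, (s n).1.2.top < del (W j) := by
    intro n
    rw [(s n).2.top]
    exact (hd3 _ _ (s n).2.le (s n).2.lt).1
  have ht2 : ∀ m, m < j → ∃ n, m < OrderDual.ofDual (s n).1.1 := by
    intro m hm
    obtain ⟨n, hn⟩ := hξ2 m hm
    exact ⟨n + 1, lt_of_lt_of_le hn (hreq n)⟩
  obtain ⟨c', hct', hcle, hcf, hcg⟩ := exists_lim hR (c := fun n => (s n).1.2) (fun m n hmn => (hanti hmn).2)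
    (δ := del (W j)) ht1 (by
      intro α hα
      obtain ⟨m, him, hmj, hαm⟩ := hd4 j hij hj α hα
      obtain ⟨n, hn⟩ := ht2 m hmj
      refine ⟨n, ?_⟩
      show α < (s n).1.2.top
      rw [(s n).2.top]
      exact lt_of_lt_of_le hαm (hd2 _ _ him hn.le)) F
  refine ⟨c', (hcle 0).trans (s 0).2.sub, hct', ?_, ?_, ?_⟩
  · refine hcg r hwd.w.ne (fun n => (s n).2.good) (brw R (del (W j)) r) (fun n a ha => hwd.w.spec n ha) hFv ?_
    intro n u hu E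
    have hum : InM u (W j) := ((hto j hij.le).1 (s n).1.2 (hmem _ (s n).2)).2.2 u hu
    obtain ⟨y, hy, hyF⟩ := hFt n (⟨⟨u, hum⟩, E⟩ : T) hu
    exact ⟨y, hy.2, hy.1, hyF⟩
  · intro p hp
    rw [hct', hcf]
    exact hF0 p hp
  · have hlt : ∀ k, i ≤ k → k < j → Gnr R b (W k) r c' := by
      intro k hik hkj
      obtain ⟨n, hn⟩ := ht2 k hkj
      exact spl_gnr ((s n).2.gnr k hik hn.le) (hcle n)
    intro k hik hkj
    rcases eq_or_lt_of_le hkj with rfl | hkj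
    · intro D hDm hDo
      obtain ⟨m, hm, hDm'⟩ := hW.cont k hj _ hDm
      obtain ⟨e, he, heM, h1, h2⟩ := hlt (max i m) (le_max_left _ _) (max_lt hij hm) D
        (hW.mono m _ (le_max_right _ _) hDm') hDo
      exact ⟨e, he, hW.mono _ _ (max_lt hij hm).le heM, h1, h2⟩
    · exact hlt k hik hkj

end Pool.Agent.CAN.Sp
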