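import Pool.Agent.CAN.SPJ
import Pool.Agent.CAN.SPL

/-!
# CAN / SPP: properness for towers

(1) `ev_ssj`: by `EvT.and`, `EvT.shift`: fix a suitable tower `W`, `i₀`; we have for all `i' ≥ i₀`: `SSj R b W i' i'` (`ev_ssj_self`), `ev_inner`, `ev_ssj_lim` at `i'`.
Prove `∀ j ≥ i₀, ∀ i', i₀ ≤ i' → i' ≤ j → SSj R b W i' j` by `Om.induction`.
* `j = i₀`: `ev_ssj_self`.
* `j.s`: if `i' = j.s`: `ev_ssj_self`.  If `i' ≤ j`: given `r, c, B`; `ev_inner` for `i', j, j' = j.s` gives `c₁ ∈ W j.s` with top `del (W j)`, `r ≤ c₁.good R b`, `Bds R (del (W j.s)) r c₁ B` and `Gnr` for `k ∈ [i', j]`;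
  `SSj R b W j.s j.s` for `r`, `c₁`, `B` (`r ≤ ggen Set.univ W j.s j.s` by `ggen_anti`) gives `c' ≤ c₁`, generic for `W j.s`; for `k ≤ j` `Gnr R b (W k) r c'` since `c' ≤ c₁`.
* limit: `ev_ssj_lim` (if `i' < j`), `ev_ssj_self` (if `i' = j`).

(2) `evT_ppc`: let `r, p` be given, `M = W j`; `b ∈ W j` (`Ev.const`), so `r ≤ b` or `r ≤ bᶜ`.
If `r ≤ bᶜ`: `p.2 = ⊤` (otherwise `r ≤ p.1 ≤ b`).  Take `r' = r`, `c = ⊤`.  For `D ∈ W k`: `r ≤ gen Set.univ (W k)`, so by `ev_out` `r ≤ sSup {d ∈ {a | (a, ⊤) ∈ D} ∪ {b} | InM d (W k)}`; one of them meets `r`, `r` decides it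
(`W k ⊆ W j`), so `r ≤ d`, `d ≠ b`, `(d, ⊤) ∈ D`, it is in `W k` (`Ev.pair_iff`, `Ev.const ⊤`).
If `r ≤ b`: let `c₀ = p.2` or `triv A z hz` (if `p.2 = ⊤`; in `W i` by `Ev.const`; `triv_good`).  `exists_world` for `M = W j` gives `r' ≤ r`, a world: `Wd R b (W j) r'` (`fil (W j) r'`).  `SSj R b W i j` with `B = ∅` gives `c' ≤ c₀`,
`r' ≤ c'.good R b`, and `Gnr` is exactly the claim.
-/

set_option autoImplicit false

namespace Pool.Agent.CAN.Sp

variable {A : Type 1} [CompleteBooleanAlgebra A] {R : Om → Om → ℕ → ℕ → A} {b : A}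

theorem ev_ssj (hD : Distr (Set.univ : Set A)) (hR : Sys R b) (hN : NoBr R b) :
    EvT (fun W i => ∀ j, i ≤ j → SSj R b W i j) := by
  refine ((EvT.shift (ev_ssj_self hD hR hN)).and
    ((EvT.shift (ev_ssj_lim hD hR)).and (EvT.shift (ev_inner hD hR)))).mono ?_
  rintro W i₀ hW ⟨h1, h2, h3⟩
  have hself : ∀ i', i₀ ≤ i' → SSj R b W i' i' := fun i' h => h1 i' h i' le_rfl
  have key : ∀ j, i₀ ≤ j → ∀ i', i₀ ≤ i' → i' ≤ j → SSj R b W i' j := by
    refine Om.induction ?_ ?_ ?_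
    · intro i' h4 h5
      obtain rfl := le_antisymm h4 h5
      exact hself _ le_rfl
    · intro j hj ih i' hi hi'
      rcases eq_or_lt_of_le hi' with h | h
      · subst h
        exact hself _ hi
      · have hij := Om.lt_s_iff.1 h
        intro r hr hwd c hc hrc B hB
        obtain ⟨c₁, hc₁, hin, htop, hgood, hbds, hgnr⟩ :=
          h3 i' hi j hij (ih i' hi hij) j.s (Om.lt_s j) r hr hwd c hc hrc B hB
        obtain ⟨c', hc', htop', hgood', hB', hgnr'⟩ := hself j.s (hj.trans (Om.lt_s j).le) r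
          (hr.trans (ggen_anti W hi' le_rfl)) hwd c₁ hin hgood B hbds
        refine ⟨c', hc'.trans hc₁, htop', hgood', hB', ?_⟩
        intro k hk1 hk2
        rcases eq_or_lt_of_le hk2 with h' | h'
        · exact hgnr' k (ge_of_eq h') hk2
        · intro D hD1 hD2
          obtain ⟨d, hd, hd1, hd2, hd3⟩ := hgnr k hk1 (Om.lt_s_iff.1 h') D hD1 hD2
          exact ⟨d, hd, hd1, hd2, (WithTop.coe_le_coe.2 hc').trans hd3⟩
    · intro j hij hlim ih i' hi hi'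
      rcases eq_or_lt_of_le hi' with h | h
      · subst h
        exact hself _ hi
      · exact h2 i' hi j hlim h (fun i'' j'' h4 h5 h6 =>
          ih j'' ((hi.trans h4).trans h5) h6 i'' (hi.trans h4) h5)
  exact fun j hj => key j hj i₀ le_rfl hj

private theorem SPP_pick {r : A} (hr : r ≠ ⊥) {S : Set A} (h : r ≤ sSup S)
    (hdec : ∀ d ∈ S, r ≤ d ∨ r ≤ dᶜ) : ∃ d ∈ S, r ≤ d := by
  by_contra hcon
  push Not at hcon
  apply hr
  rw [← inf_eq_left.2 h, ← disjoint_iff, disjoint_sSup_iff]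
  intro d hd
  rcases hdec d hd with h1 | h1
  · exact absurd h1 (hcon d hd)
  · exact disjoint_compl_left.mono_left h1

theorem evT_ppc (hD : Distr (Set.univ : Set A)) (hR : Sys R b) (hN : NoBr R b) :
    EvT (PPc (goodT R b) (fun _ => ⊤)) := by
  have hctb : Ev (fun M => {x | x ∈ M}.Countable) := ⟨fun _ _ => ∅, fun M hM => hM.ctbl⟩
  refine ((ev_ssj hD hR hN).and ((EvT.of_ev (ev_out R b)).and ((EvT.of_ev (Ev.const b)).and
    ((EvT.of_ev (Ev.const (⊤ : WithTop (Cond A)))).and ((EvT.of_ev (Ev.pair_iff A (WithTop (Cond A)))).and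
    ((EvT.of_ev (Ev.coe_iff (Cond A))).and ((EvT.of_ev (Ev.const (triv A Om.z Om.z_le))).and
    (EvT.of_ev hctb)))))))).mono ?_
  rintro W i hW ⟨hssj, hout, hb, htop, hpair, hcoe, htriv, hcount⟩
  intro j hij r hr hrg _ hdec p hp hpi hrp
  rcases hdec b (hb j hij) with hrb | hrb
  · have hc₀ : ∃ c₀ : Cond A, (c₀ : WithTop (Cond A)) ≤ p.2 ∧ InM c₀ (W i) ∧ r ≤ c₀.good R b := by
      have hp2 : InM p.2 (W i) := ((hpair i le_rfl p.1 p.2).1 hpi).2
      have hpg : p.1 ≤ goodT R b p.2 := hp.2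
      rcases hpc : p.2 with _ | c
      · exact ⟨triv A Om.z Om.z_le, le_top, htriv i le_rfl, by rw [triv_good]; exact hrb⟩
      · rw [hpc] at hp2 hpg
        exact ⟨c, le_rfl, (hcoe i le_rfl c).1 hp2, hrp.trans hpg⟩
    obtain ⟨c₀, hc₀, hc₀i, hc₀g⟩ := hc₀
    obtain ⟨r', hr', hr'0, hr'dec, hr'w⟩ := exists_world hD hR (hcount j hij) hr hrb
    have hwd : Wd R b (W j) r' := by
      refine ⟨hr'.trans (hrg.trans (ggen_le hij le_rfl)), hr'dec, hr'w _ ?_⟩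
      rintro x ⟨_, hx⟩
      exact hx
    obtain ⟨c', hc', _, hgood', _, hgnr⟩ := hssj j hij r' (hr'.trans hrg) hwd c₀ hc₀i (hr'.trans hc₀g) ∅
      (fun q hq => absurd hq (Finset.notMem_empty _))
    exact ⟨r', hr', hr'0, c', (WithTop.coe_le_coe.2 hc').trans hc₀, hgood', fun k hk1 hk2 D hD1 hD2 =>
      hgnr k hk1 hk2 D hD1 hD2⟩
  · have hp2 : p.2 = ⊤ := by
      rcases hpc : p.2 with _ | c
      · rfl
      · exfalso
        have hpg : p.1 ≤ goodT R b p.2 := hp.2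
        rw [hpc] at hpg
        have h1 : r ≤ b := (hrp.trans hpg).trans (Cond.good_le R b c)
        exact hr (le_bot_iff.1 ((le_inf h1 hrb).trans_eq (inf_compl_self _)))
    refine ⟨r, le_rfl, hr, ⊤, by rw [hp2], le_top, ?_⟩
    intro k hk1 hk2 D hD1 hD2
    obtain ⟨h1, _, _⟩ := hout k hk1 D hD1 hD2
    have h2 : r ≤ sSup {d | d ∈ ({a | (a, ⊤) ∈ D} ∪ {b} : Set A) ∧ InM d (W k)} :=
      (hrg.trans (ggen_le hk1 hk2)).trans h1
    obtain ⟨d, ⟨hd1, hd2⟩, hd3⟩ := SPP_pick hr h2 (fun d hd => hdec d (hW.mono k j hk2 hd.2))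
    rcases hd1 with hd1 | hd1
    · exact ⟨(d, ⊤), hd1, (hpair k hk1 d ⊤).2 ⟨hd2, htop k hk1⟩, hd3, le_rfl⟩
    · exfalso
      rw [Set.mem_singleton_iff.1 hd1] at hd3
      exact hr (le_bot_iff.1 ((le_inf hd3 hrb).trans_eq (inf_compl_self _)))

end Pool.Agent.CAN.Sp
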