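import Pool.Agent.CAN.SDef

/-!
# CAN / SRS: restrictions of tuples

* `ne_bot_of_le_iSup`: if `q ⊓ f i = ⊥` for all `i` then `q = q ⊓ ⨆ f = ⊥` (`inf_iSup_eq`).
* `Sys.back`: below `b ⊓ R c d n m ⊓ R a d n k`: `⨆ k', R a c m k'` is everything (`tot`), for `k' ≠ k` we get
  `R a d n k'` (`comp`), which contradicts `uniq`.
* `rs_*`: `rs R a c y y' = ⨅ l, R a c (y l) (y' l)`, a finite infimum.  `exists_rs`: by induction on the finite set of coordinates decide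
  `y' l` for all `l` (`tot`, `ne_bot_of_le_iSup`).  `rs_tot` follows: if not, apply `exists_rs` to `q = b ⊓ (⨆ y', rs R a c y y')ᶜ`.
-/

set_option autoImplicit false

namespace Pool.Agent.CAN.Sp

variable {A : Type 1} [CompleteBooleanAlgebra A]

theorem ne_bot_of_le_iSup {q : A} (hq : q ≠ ⊥) {ι : Sort*} {f : ι → A} (h : q ≤ ⨆ i, f i) :
    ∃ i, q ⊓ f i ≠ ⊥ := by
  by_contra h'
  apply hq
  have h2 : ∀ i, q ⊓ f i = ⊥ := by
    intro i
    by_contra h3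
    exact h' ⟨i, h3⟩
  rw [← inf_eq_left.2 h, inf_iSup_eq]
  simp [h2]

variable {R : Om → Om → ℕ → ℕ → A} {b : A}

theorem Sys.back (hR : Sys R b) {a c d : Om} (h1 : a ≤ c) (h2 : c ≤ d) (n m k : ℕ) :
    b ⊓ R c d n m ⊓ R a d n k ≤ R a c m k := by
  have h3 : b ⊓ R c d n m ⊓ R a d n k ≤ ⨆ k', R a c m k' :=
    (inf_le_left.trans inf_le_left).trans (hR.tot a c h1 m)
  rw [← inf_eq_left.2 h3, inf_iSup_eq]
  refine iSup_le fun k' => ?_
  by_cases hk : k' = k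
  · rw [hk]
    exact inf_le_right
  · have h4 : b ⊓ R c d n m ⊓ R a d n k ⊓ R a c m k' ≤ b ⊓ R a d n k' ⊓ R a d n k := by
      refine le_inf (le_inf ?_ ?_) ?_
      · exact ((inf_le_left.trans inf_le_left).trans inf_le_left)
      · refine le_trans ?_ (hR.comp a c d n m k' h1 h2)
        exact le_inf (inf_le_left.trans inf_le_left) inf_le_right
      · exact inf_le_left.trans inf_le_right
    rw [hR.uniq a d n k' k (h1.trans h2) hk] at h4
    exact h4.trans bot_le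

/-- Decide the restriction of one node. -/
theorem exists_R (hR : Sys R b) {q : A} (hq : q ≠ ⊥) (hb : q ≤ b) {a c : Om} (h : a ≤ c) (n : ℕ) :
    ∃ q' ≤ q, q' ≠ ⊥ ∧ ∃ m, q' ≤ R a c n m := by
  obtain ⟨m, hm⟩ := ne_bot_of_le_iSup hq (hb.trans (hR.tot a c h n))
  exact ⟨q ⊓ R a c n m, inf_le_left, hm, m, inf_le_right⟩

/-- Decide the restriction of a tuple. -/
theorem exists_rs (hR : Sys R b) {q : A} (hq : q ≠ ⊥) (hb : q ≤ b) {a c : Om} (h : a ≤ c) {k : ℕ} (y : Fin k → ℕ) :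
    ∃ q' ≤ q, q' ≠ ⊥ ∧ ∃ y', q' ≤ rs R a c y y' := by
  have key : ∀ s : Finset (Fin k), ∃ q' ≤ q, q' ≠ ⊥ ∧ ∃ y' : Fin k → ℕ, ∀ l ∈ s, q' ≤ R a c (y l) (y' l) := by
    intro s
    induction s using Finset.induction_on with
    | empty => exact ⟨q, le_rfl, hq, fun _ => 0, fun l hl => absurd hl (Finset.notMem_empty l)⟩
    | insert l s hl ih =>
      obtain ⟨q1, h1, h2, y1, h3⟩ := ih
      obtain ⟨q2, h4, h5, m, h6⟩ := exists_R hR h2 (h1.trans hb) h (y l)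
      refine ⟨q2, h4.trans h1, h5, Function.update y1 l m, ?_⟩
      intro l' hl'
      rcases Finset.mem_insert.1 hl' with rfl | h7
      · rw [Function.update_self]
        exact h6
      · have h8 : l' ≠ l := fun h9 => hl (h9 ▸ h7)
        rw [Function.update_of_ne h8]
        exact h4.trans (h3 l' h7)
  obtain ⟨q', h1, h2, y', h3⟩ := key Finset.univ
  exact ⟨q', h1, h2, y', le_iInf fun l => h3 l (Finset.mem_univ l)⟩

theorem rs_tot (hR : Sys R b) {a c : Om} (h : a ≤ c) {k : ℕ} (y : Fin k → ℕ) : b ≤ ⨆ y', rs R a c y y' := by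
  by_contra hcon
  have hq : b ⊓ (⨆ y', rs R a c y y')ᶜ ≠ ⊥ := by
    intro h1
    exact hcon (by rwa [← disjoint_iff, disjoint_compl_right_iff] at h1)
  obtain ⟨q', h1, h2, y', h3⟩ := exists_rs hR hq inf_le_left h y
  apply h2
  have h4 : q' ≤ ⨆ y', rs R a c y y' := h3.trans (le_iSup (fun y' => rs R a c y y') y')
  have h5 : q' ≤ (⨆ y', rs R a c y y')ᶜ := h1.trans inf_le_right
  have h6 := le_inf h4 h5
  rwa [inf_compl_self, le_bot_iff] at h6

theorem rs_uniq (hR : Sys R b) {a c : Om} (h : a ≤ c) {k : ℕ} {y y' y'' : Fin k → ℕ} (hne : y' ≠ y'') :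
    b ⊓ rs R a c y y' ⊓ rs R a c y y'' = ⊥ := by
  obtain ⟨l, hl⟩ := Function.ne_iff.1 hne
  rw [← le_bot_iff, ← hR.uniq a c (y l) (y' l) (y'' l) h hl]
  exact inf_le_inf (inf_le_inf le_rfl (iInf_le _ l)) (iInf_le _ l)

theorem rs_refl (hR : Sys R b) (a : Om) {k : ℕ} (y : Fin k → ℕ) : b ≤ rs R a a y y := by
  exact le_iInf fun l => hR.refl a (y l)

theorem rs_comp (hR : Sys R b) {a c d : Om} (h1 : a ≤ c) (h2 : c ≤ d) {k : ℕ} (y y' y'' : Fin k → ℕ) :
    b ⊓ rs R c d y y' ⊓ rs R a c y' y'' ≤ rs R a d y y'' := by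
  refine le_iInf fun l => le_trans ?_ (hR.comp a c d (y l) (y' l) (y'' l) h1 h2)
  exact inf_le_inf (inf_le_inf le_rfl (iInf_le _ l)) (iInf_le _ l)

theorem rs_back (hR : Sys R b) {a c d : Om} (h1 : a ≤ c) (h2 : c ≤ d) {k : ℕ} (y y' y'' : Fin k → ℕ) :
    b ⊓ rs R c d y y' ⊓ rs R a d y y'' ≤ rs R a c y' y'' := by
  refine le_iInf fun l => le_trans ?_ (Sys.back hR h1 h2 (y l) (y' l) (y'' l))
  exact inf_le_inf (inf_le_inf le_rfl (iInf_le _ l)) (iInf_le _ l)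

end Pool.Agent.CAN.Sp
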