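import Pool.Agent.CAN.SBD
import Pool.Agent.CAN.SAQ

/-!
# CAN / SSA: bad tuples along branches

Suppose the first alternative fails.  `t = c.top < del M` (`ev_top`).  Write `x↾z` for `fun l => x l z`.

(1) `bad z (x↾z) ∈ G` for `t ≤ z < del M`.  It is in `M` (`ev_bad`; `z ∈ M` by `ev_top`/`ev_del`).  If not, then its complement is in `G` (`ev_gf`), that is `sSup E ∈ G` (`compl_compl`) for the set
`E` of the definition of `bad`.  `E ∈ M` (for fixed `k, H` and the fixed tuple `y` it is a function of `D, a, c, z`: `Ev.fn4`; then `Ev.all_ctbl` over `k, H, y`; take `y = x↾z`).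
By genericity (`ev_gf`) some `e ∈ E` is in `G`, hence in `M`; by `Ev.wit5` (for the relation between `D, a, c, z, e` and the triple
`(a', c', y')`, and `Ev.pair_iff`, or use `Ev.wit5` for a witness `(a', c')` with `∃ y'` inside) there are such `a', c' ∈ M`.
`e ≤ a'`, so `a' ∈ G` (`ev_gf`); `a' ≤ a`.  For every `l`: `R c'.top z (x l z) (x l c'.top) ∈ G` (`GBr`, `c'.top ≤ z < del M`) and `e ≤ R c'.top z (x l z) (y' l)`, `b ∈ G`.  If
`y' l ≠ x l c'.top` the meet of these elements of `G` is `⊥` (`Sys.uniq`), contradiction with `GenF.inf`, `GenF.bot`.  So `c'.f c'.top (x l c'.top) < H l` for all `l`, and the first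
alternative holds.

(2) `pru R bad t (x↾t) t (x↾t) ∈ G`.  It is in `M` (`ev_pru`).  Otherwise its complement is in `G`; it is
`(bad t (x↾t))ᶜ ⊔ (rs R t t (x↾t) (x↾t))ᶜ ⊔ ⨆ z' ≥ t, (⨆ w, bad z' w ⊓ rs R t z' w (x↾t))ᶜ`, i.e. the `sSup` of a set of elements; the set
`{e | e = (bad t y)ᶜ ∨ e = (rs R t t y y)ᶜ ∨ ∃ z' ≥ t, e = (⨆ w, bad z' w ⊓ rs R t z' w y)ᶜ}` is in `M` (function of `D, a, c` for fixed `k, H, y`), so some element `e` of it is in `G`, and in the
third case there is such a `z' ∈ M` (`Ev.wit4`), so `z' < del M`.  First case: contradicts (1).  Second: `b ≤ rs R t t y y` (`rs_refl`), `b ∈ G`.  Third: `bad z' (x↾z') ∈ G` by (1) and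
`rs R t z' (x↾z') (x↾t) ∈ G` (a finite meet of elements `R t z' (x l z') (x l t) ∈ G`: show `∀ s : Finset (Fin k), ⨅ l ∈ s, _ ∈ G` by induction, `⊤ ∈ G`; or: the finite meet is in `M`, and if it is not in `G` then the complement
`⨆ l, (R ..)ᶜ` is in `G`, and by genericity one `(R ..)ᶜ ∈ G`, contradiction), their meet is `≤ ⨆ w, ...`, and it is in `G`: contradiction with `e ∈ G`.
-/

set_option autoImplicit false

namespace Pool.Agent.CAN.Sp

variable {A : Type 1} [CompleteBooleanAlgebra A] {R : Om → Om → ℕ → ℕ → A} {b : A}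

/-- the set in the definition of `bad` -/
private def SSA_E (R : Om → Om → ℕ → ℕ → A) (D : Set (A × WithTop (Cond A))) (a : A) (c : Cond A) {k : ℕ} (H : Fin k → ℚ)
    (z : Om) (y : Fin k → ℕ) : Set A :=
  {e | ∃ (a' : A) (c' : Cond A) (y' : Fin k → ℕ), (a', (c' : WithTop (Cond A))) ∈ D ∧ a' ≤ a ∧ c' ≤ c ∧
    c.top < c'.top ∧ c'.top ≤ z ∧ (∀ l, c'.f c'.top (y' l) < H l) ∧ e = a' ⊓ rs R c'.top z y y'}

/-- the relation for the witnesses -/
private def SSA_r (R : Om → Om → ℕ → ℕ → A) {k : ℕ} (H : Fin k → ℚ) (y : Fin k → ℕ)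
    (D : Set (A × WithTop (Cond A))) (a : A) (c : Cond A) (z : Om) (e : A) (v : A × Cond A) : Prop :=
  (v.1, (v.2 : WithTop (Cond A))) ∈ D ∧ v.1 ≤ a ∧ v.2 ≤ c ∧
    c.top < v.2.top ∧ v.2.top ≤ z ∧ ∃ y' : Fin k → ℕ, (∀ l, v.2.f v.2.top (y' l) < H l) ∧ e = v.1 ⊓ rs R v.2.top z y y'

/-- the set for the second part -/
private def SSA_F (R : Om → Om → ℕ → ℕ → A) {k : ℕ} (H : Fin k → ℚ) (y : Fin k → ℕ)
    (D : Set (A × WithTop (Cond A))) (a : A) (c : Cond A) : Set A :=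
  {e | e = (bad R D a c H c.top y)ᶜ ∨ e = (rs R c.top c.top y y)ᶜ ∨
    ∃ z', c.top ≤ z' ∧ e = (⨆ w, bad R D a c H z' w ⊓ rs R c.top z' w y)ᶜ}

private theorem SSA_pru_compl (R : Om → Om → ℕ → ℕ → A) {k : ℕ} (H : Fin k → ℚ) (y : Fin k → ℕ)
    (D : Set (A × WithTop (Cond A))) (a : A) (c : Cond A) :
    (pru R (bad R D a c H) c.top y c.top y)ᶜ ≤ sSup (SSA_F R H y D a c) := by
  unfold pru
  rw [compl_inf, compl_inf, compl_iInf]
  refine sup_le (sup_le ?_ ?_) ?_
  · exact le_sSup (Or.inl rfl)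
  · exact le_sSup (Or.inr (Or.inl rfl))
  · refine iSup_le fun z' => ?_
    rw [compl_iInf]
    exact iSup_le fun hz' => le_sSup (Or.inr (Or.inr ⟨z', hz', rfl⟩))

theorem ev_bad_or (hR : Sys R b) : Ev (fun M => ∀ G : Set A, GenF Set.univ M G → b ∈ G →
    ∀ D : Set (A × WithTop (Cond A)), InM D M → ∀ a ∈ G, ∀ c : Cond A, InM c M →
      ∀ (k : ℕ) (x : Fin k → Om → ℕ), (∀ l, GBr R M G (x l)) → ∀ H : Fin k → ℚ,
        (∃ (a' : A) (c' : Cond A), (a', (c' : WithTop (Cond A))) ∈ D ∧ InM a' M ∧ InM c' M ∧ a' ∈ G ∧ a' ≤ a ∧ c' ≤ c ∧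
          c.top < c'.top ∧ ∀ l, c'.f c'.top (x l c'.top) < H l) ∨
        pru R (bad R D a c H) c.top (fun l => x l c.top) c.top (fun l => x l c.top) ∈ G) := by
  have e1 : Ev (fun M => ∀ k, ∀ (H : Fin k → ℚ) (y : Fin k → ℕ) (D : Set (A × WithTop (Cond A))) (a : A)
      (c : Cond A) (z : Om), InM D M → InM a M → InM c M → InM z M → InM (SSA_E R D a c H z y) M) :=
    Ev.all_nat fun k => Ev.all_ctbl fun H => Ev.all_ctbl fun y => Ev.fn4 fun D a c z => SSA_E R D a c H z y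
  have e2 : Ev (fun M => ∀ k, ∀ (H : Fin k → ℚ) (y : Fin k → ℕ) (D : Set (A × WithTop (Cond A))) (a : A)
      (c : Cond A) (z : Om) (e : A), InM D M → InM a M → InM c M → InM z M → InM e M →
      (∃ v, SSA_r R H y D a c z e v) → ∃ v, InM v M ∧ SSA_r R H y D a c z e v) :=
    Ev.all_nat fun k => Ev.all_ctbl fun H => Ev.all_ctbl fun y => Ev.wit5 fun D a c z e v => SSA_r R H y D a c z e v
  have e3 : Ev (fun M => ∀ k, ∀ (H : Fin k → ℚ) (y : Fin k → ℕ) (D : Set (A × WithTop (Cond A))) (a : A)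
      (c : Cond A), InM D M → InM a M → InM c M → InM (SSA_F R H y D a c) M) :=
    Ev.all_nat fun k => Ev.all_ctbl fun H => Ev.all_ctbl fun y => Ev.fn3 fun D a c => SSA_F R H y D a c
  have e4 : Ev (fun M => ∀ k, ∀ (H : Fin k → ℚ) (y : Fin k → ℕ) (D : Set (A × WithTop (Cond A))) (a : A)
      (c : Cond A) (e : A), InM D M → InM a M → InM c M → InM e M →
      (∃ z' : Om, c.top ≤ z' ∧ e = (⨆ w, bad R D a c H z' w ⊓ rs R c.top z' w y)ᶜ) →
      ∃ z' : Om, InM z' M ∧ c.top ≤ z' ∧ e = (⨆ w, bad R D a c H z' w ⊓ rs R c.top z' w y)ᶜ) :=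
    Ev.all_nat fun k => Ev.all_ctbl fun H => Ev.all_ctbl fun y =>
      Ev.wit4 fun D a c e (z' : Om) => c.top ≤ z' ∧ e = (⨆ w, bad R D a c H z' w ⊓ rs R c.top z' w y)ᶜ
  refine ((((e1.and e2).and (e3.and e4)).and ((ev_gf (A := A)).and (ev_bad R))).and
    (((ev_pru R).and (ev_top R b)).and (ev_del.and (Ev.pair_iff A (Cond A))))).mono ?_
  rintro M ⟨⟨⟨⟨h1, h2⟩, h3, h4⟩, hgf, hbad⟩, ⟨hpru, htop, -⟩, hdel, hpair⟩
  intro G hG hbG D hD a haG c hc k x hx H
  obtain ⟨g1, g2, g3, g4⟩ := hgf G hG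
  have haM : InM a M := (hG.sub a haG).2
  have hctop : c.top < del M := (htop c hc).1
  by_cases halt : ∃ (a' : A) (c' : Cond A), (a', (c' : WithTop (Cond A))) ∈ D ∧ InM a' M ∧ InM c' M ∧ a' ∈ G ∧
      a' ≤ a ∧ c' ≤ c ∧ c.top < c'.top ∧ ∀ l, c'.f c'.top (x l c'.top) < H l
  · exact Or.inl halt
  right
  have hz : ∀ p ∈ G, ∀ q ∈ G, p ⊓ q ≤ ⊥ → False := by
    intro p hp q hq h
    exact hG.bot (le_bot_iff.1 h ▸ hG.inf p hp q hq)
  have claim : ∀ z, c.top ≤ z → z < del M → bad R D a c H z (fun l => x l z) ∈ G := by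
    intro z _ hzd
    have hzM : InM z M := (hdel z).2 hzd
    by_contra hnot
    have k1 := g1 _ (hbad k H (fun l => x l z) D a c z hD haM hc hzM) hnot
    have k2 : sSup (SSA_E R D a c H z (fun l => x l z)) ∈ G := by
      have k3 : (bad R D a c H z (fun l => x l z))ᶜ = sSup (SSA_E R D a c H z (fun l => x l z)) :=
        compl_compl _
      rw [← k3]
      exact k1
    obtain ⟨e, heE, heG⟩ := g4 _ (h1 k H (fun l => x l z) D a c z hD haM hc hzM) _ k2 le_rfl
    have heM : InM e M := (hG.sub e heG).2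
    obtain ⟨v, hvM, hv1, hv2, hv3, hv4, hv5, y', hv6, hv7⟩ :=
      h2 k H (fun l => x l z) D a c z e hD haM hc hzM heM (by
        obtain ⟨a', c', y', i1, i2, i3, i4, i5, i6, i7⟩ := heE
        exact ⟨(a', c'), i1, i2, i3, i4, i5, y', i6, i7⟩)
    obtain ⟨v1M, v2M⟩ := (hpair v.1 v.2).1 hvM
    have hv1G : v.1 ∈ G := g3 _ v1M e heG (by rw [hv7]; exact inf_le_left)
    refine halt ⟨v.1, v.2, hv1, v1M, v2M, hv1G, hv2, hv3, hv4, fun l => ?_⟩
    have hyl : x l v.2.top = y' l := by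
      by_contra hne
      have k4 : R v.2.top z (x l z) (x l v.2.top) ∈ G := hx l v.2.top z hv5 hzd
      refine hz _ (hG.inf _ hbG _ heG) _ k4 ?_
      rw [← hR.uniq v.2.top z (x l z) (y' l) (x l v.2.top) hv5 (Ne.symm hne), hv7]
      exact inf_le_inf (inf_le_inf le_rfl (inf_le_right.trans (iInf_le _ l))) le_rfl
    rw [hyl]
    exact hv6 l
  by_contra hnot
  have hzt : InM c.top M := (hdel c.top).2 hctop
  have m1 := g1 _ (hpru k H (fun l => x l c.top) (fun l => x l c.top) D a c c.top hD haM hc hzt) hnot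
  obtain ⟨e, heF, heG⟩ := g4 _ (h3 k H (fun l => x l c.top) D a c hD haM hc) _ m1
    (SSA_pru_compl R H (fun l => x l c.top) D a c)
  have heM : InM e M := (hG.sub e heG).2
  rcases heF with heq | heq | heq
  · refine hz _ heG _ (claim c.top le_rfl hctop) ?_
    rw [heq, compl_inf_self]
  · refine hz _ heG _ hbG ?_
    rw [heq]
    refine (inf_le_inf_left _ (rs_refl hR c.top (fun l => x l c.top))).trans ?_
    rw [compl_inf_self]
  · obtain ⟨z', hz'M, hz'1, hz'2⟩ := h4 k H (fun l => x l c.top) D a c e hD haM hc heM heq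
    have hz'd : z' < del M := (hdel z').1 hz'M
    have key : ∀ s : Finset (Fin k), ∃ g ∈ G, ∀ l ∈ s, g ≤ R c.top z' (x l z') (x l c.top) := by
      intro s
      induction s using Finset.induction_on with
      | empty => exact ⟨b, hbG, fun l hl => absurd hl (Finset.notMem_empty l)⟩
      | insert l s hl ih =>
        obtain ⟨g, hg, hgs⟩ := ih
        refine ⟨_, hG.inf _ hg _ (hx l c.top z' hz'1 hz'd), fun l' hl' => ?_⟩
        rcases Finset.mem_insert.1 hl' with rfl | h7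
        · exact inf_le_right
        · exact inf_le_left.trans (hgs l' h7)
    obtain ⟨g, hg, hgs⟩ := key Finset.univ
    refine hz _ heG _ (hG.inf _ (claim z' hz'1 hz'd) _ hg) ?_
    have k5 : bad R D a c H z' (fun l => x l z') ⊓ g ≤
        ⨆ w, bad R D a c H z' w ⊓ rs R c.top z' w (fun l => x l c.top) :=
      (inf_le_inf_left _ (le_iInf fun l => hgs l (Finset.mem_univ l))).trans
        (le_iSup (fun w => bad R D a c H z' w ⊓ rs R c.top z' w (fun l => x l c.top)) (fun l => x l z'))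
    refine (inf_le_inf_left e k5).trans ?_
    rw [hz'2, compl_inf_self]

end Pool.Agent.CAN.Sp
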