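import Pool.Agent.CAN.SRS

/-!
# CAN / SSP: splitting

Suppose the conclusion fails for `q`, i.e. no nonzero `q' ≤ q` has two extensions of the same level in `W` above `y` which differ in the
coordinate `l`.  For `z ≤ a` put `x a n = ⨆ w : {w // w l = n}, W a w ⊓ rs R z a w y`, for `a < z` put `x a n = R a z (y l) n`.
We check the hypotheses of `NoBr` for `b' = q`:
* `q ≤ ⨆ n, x a n`: `PTr.ext` for `a ≥ z`; `Sys.tot` for `a < z`.
* `q ⊓ x c n ⊓ x a m ≤ R a c n m` for `a ≤ c`.  If `z ≤ a`: if not, some nonzero `q' ≤ q ⊓ W c w ⊓ rs R z c w y ⊓ W a w₀ ⊓ rs R z a w₀ y ⊓ (R a c n m)ᶜ` with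
  `w l = n`, `w₀ l = m`; restrict `w` to `a`: `w'` (`exists_rs`), `q' ≤ rs R a c w w'`, so `q' ≤ R a c n (w' l)`, `W a w'` (`PTr.down`), `rs R z a w' y` (`rs_back`).
  If `w' l ≠ m` we have a splitting (`w'`, `w₀` of level `a`); so `w' l = m`, contradiction.
  If `a < z ≤ c`: `rs R z c w y ≤ R z c n (y l)`, and `R z c n (y l) ⊓ R a z (y l) m ≤ R a c n m`.  If `a ≤ c < z`: `Sys.back`.
So `q = ⊥`, contradiction.
-/

set_option autoImplicit false

namespace Pool.Agent.CAN.Sp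

variable {A : Type 1} [CompleteBooleanAlgebra A] {R : Om → Om → ℕ → ℕ → A} {b : A}

theorem PTr.split (hR : Sys R b) (hN : NoBr R b) {k : ℕ} {t : Om} {W : Om → (Fin k → ℕ) → A} (hW : PTr R b t W)
    {z : Om} (hz : t ≤ z) {q : A} (hq : q ≠ ⊥) (hb : q ≤ b) {y : Fin k → ℕ} (hy : q ≤ W z y) (l : Fin k) :
    ∃ q' ≤ q, q' ≠ ⊥ ∧ ∃ z', z ≤ z' ∧ ∃ w w' : Fin k → ℕ, w l ≠ w' l ∧
      q' ≤ W z' w ⊓ rs R z z' w y ∧ q' ≤ W z' w' ⊓ rs R z z' w' y := by
  classical
  by_contra H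
  push Not at H
  obtain ⟨x, hx1, hx2⟩ : ∃ x : Om → ℕ → A,
      (∀ a n, z ≤ a → x a n = ⨆ w : {w : Fin k → ℕ // w l = n}, W a w.1 ⊓ rs R z a w.1 y) ∧
      ∀ a n, a < z → x a n = R a z (y l) n :=
    ⟨fun a n => if z ≤ a then ⨆ w : {w : Fin k → ℕ // w l = n}, W a w.1 ⊓ rs R z a w.1 y else R a z (y l) n,
      fun a n h => if_pos h, fun a n h => if_neg (not_le.2 h)⟩
  apply hq
  apply hN x q hb
  · intro a
    rcases le_or_gt z a with h | h
    · refine (le_inf hb hy).trans ((hW.ext z a hz h y).trans (iSup_le fun w => ?_))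
      refine le_iSup_of_le (w l) ?_
      rw [hx1 a _ h]
      exact le_iSup_of_le ⟨w, rfl⟩ le_rfl
    · refine hb.trans ((hR.tot a z h.le (y l)).trans (iSup_mono fun n => ?_))
      rw [hx2 a n h]
  · intro a c n m hac
    rcases le_or_gt z a with h | h
    · rw [hx1 c n (h.trans hac), hx1 a m h]
      by_contra hne
      have h0 : q ⊓ (⨆ w : {w : Fin k → ℕ // w l = n}, W c w.1 ⊓ rs R z c w.1 y) ⊓
          (⨆ w : {w : Fin k → ℕ // w l = m}, W a w.1 ⊓ rs R z a w.1 y) ⊓ (R a c n m)ᶜ ≠ ⊥ := by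
        intro h1
        exact hne (disjoint_compl_right_iff.1 (disjoint_iff.2 h1))
      obtain ⟨w, hw⟩ := ne_bot_of_le_iSup h0 (inf_le_left.trans (inf_le_left.trans inf_le_right))
      obtain ⟨w₀, hw₀⟩ := ne_bot_of_le_iSup hw (inf_le_left.trans (inf_le_left.trans inf_le_right))
      obtain ⟨q₂, hq₂⟩ : ∃ q₂, q₂ = q ⊓ (⨆ w : {w : Fin k → ℕ // w l = n}, W c w.1 ⊓ rs R z c w.1 y) ⊓
          (⨆ w : {w : Fin k → ℕ // w l = m}, W a w.1 ⊓ rs R z a w.1 y) ⊓ (R a c n m)ᶜ ⊓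
          (W c w.1 ⊓ rs R z c w.1 y) ⊓ (W a w₀.1 ⊓ rs R z a w₀.1 y) := ⟨_, rfl⟩
      rw [← hq₂] at hw₀
      have e1 : q₂ ≤ q := by
        rw [hq₂]
        exact inf_le_left.trans (inf_le_left.trans (inf_le_left.trans (inf_le_left.trans inf_le_left)))
      have e2 : q₂ ≤ (R a c n m)ᶜ := by
        rw [hq₂]
        exact inf_le_left.trans (inf_le_left.trans inf_le_right)
      have e3 : q₂ ≤ W c w.1 ⊓ rs R z c w.1 y := by
        rw [hq₂]
        exact inf_le_left.trans inf_le_right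
      have e4 : q₂ ≤ W a w₀.1 ⊓ rs R z a w₀.1 y := by
        rw [hq₂]
        exact inf_le_right
      obtain ⟨q', hq', hne', w', hw'⟩ := exists_rs hR hw₀ (e1.trans hb) hac w.1
      have f1 : q' ≤ R a c n (w' l) := by
        have h2 : rs R a c w.1 w' ≤ R a c (w.1 l) (w' l) := iInf_le _ l
        rw [w.2] at h2
        exact hw'.trans h2
      have f2 : w₀.1 l ≠ w' l := by
        intro h2
        rw [w₀.2] at h2
        rw [← h2] at f1
        apply hne'
        have h3 : q' ≤ R a c n m ⊓ (R a c n m)ᶜ := le_inf f1 (hq'.trans e2)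
        rw [inf_compl_self] at h3
        exact le_bot_iff.1 h3
      refine H q' (hq'.trans e1) hne' a h w₀.1 w' f2 (hq'.trans e4) (le_inf ?_ ?_)
      · exact (le_inf (le_inf (hq'.trans (e1.trans hb)) (hq'.trans (e3.trans inf_le_left))) hw').trans
          (hW.down a c (hz.trans h) hac w.1 w')
      · exact (le_inf (le_inf (hq'.trans (e1.trans hb)) hw') (hq'.trans (e3.trans inf_le_right))).trans
          (rs_back hR h hac w.1 w' y)
    · rw [hx2 a m h]
      rcases le_or_gt z c with h' | h'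
      · rw [hx1 c n h']
        have h1 : (⨆ w : {w : Fin k → ℕ // w l = n}, W c w.1 ⊓ rs R z c w.1 y) ≤ R z c n (y l) := by
          refine iSup_le fun w => inf_le_right.trans ?_
          have h2 : rs R z c w.1 y ≤ R z c (w.1 l) (y l) := iInf_le _ l
          rwa [w.2] at h2
        exact (inf_le_inf_right _ (inf_le_inf hb h1)).trans (hR.comp a z c n (y l) m h.le h')
      · rw [hx2 c n h']
        exact (inf_le_inf_right _ (inf_le_inf_right _ hb)).trans (Sys.back hR hac h'.le (y l) n m)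

end Pool.Agent.CAN.Sp
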