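import Pool.Agent.CAN.SDefs
import Pool.Agent.CAN.PRA

/-!
# CAN / STW: working with the two step extension

`h2 : Two (Set.range e) Set.univ (fun c => e (Good c)) ι`; `Pos (range e) (e ∘ Good) (e a) c ↔ (a, c) ∈ Pc Good` (`e` is injective, `e ⊥ = ⊥` (`CEmb.sup` for `∅`), `e x ≤ e y ↔ x ≤ y`
(`x ≤ y ↔ sSup {x, y} = y`, `CEmb.sup`, `CEmb.inj`)); `e (x ⊓ y) = e x ⊓ e y` (complements and sups).
* `two_le`: if `ι (e a) c ≤ e x` then `e a = proj (range e) (ι (e a) c) ≤ e x` (`Two.proj`, `proj_le`), so `a ≤ x`.  Conversely `ι (e a) c ≤ proj = e a ≤ e x` (`le_proj`).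
* `two_ne`: `proj A ⊥ = ⊥` (`proj_bot`, `h2.subA`) but `proj A (ι (e a) c) = e a ≠ ⊥`.
* `two_mono`: `ι (e a') c' ≤ ι (e a') c` (`Two.mono`) `= ι (e a' ⊓ e a) c = e a' ⊓ ι (e a) c ≤ ι (e a) c` (`Two.res`).
* `two_below`: `Two.dense` gives `(y, c)` with `Pos (range e) _ y c`, `y = e a`.
* `two_compat`: `two_below` for `ι p ⊓ x` gives a condition `p''` with `ι p'' ≤ ι p ⊓ x`; `Two.sep` gives a common extension `p'` of `p` and `p''`, `ι p' ≤ ι p'' ≤ x` by `two_mono`.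
-/

set_option autoImplicit false

namespace Pool.Agent.CAN

variable {A : Type 1} [CompleteBooleanAlgebra A] {K : Type 1} [Preorder K] {Good : K → A}
  {C : Type 1} [CompleteBooleanAlgebra C] {e : A → C} {ι : C → K → C}

private theorem STW_bot (he : CEmb e) : e ⊥ = ⊥ := by
  have := he.sup ∅
  rwa [sSup_empty, Set.image_empty, sSup_empty] at this

private theorem STW_le (he : CEmb e) {x y : A} : e x ≤ e y ↔ x ≤ y := by
  have h1 : e (x ⊔ y) = e x ⊔ e y := by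
    have := he.sup {x, y}
    rwa [sSup_pair, Set.image_pair, sSup_pair] at this
  rw [← sup_eq_right, ← h1, he.inj.eq_iff, sup_eq_right]

private theorem STW_pos (he : CEmb e) {a : A} {c : K} (h : (a, c) ∈ Pc Good) :
    Pos (Set.range e) (fun c => e (Good c)) (e a) c := by
  refine ⟨Set.mem_range_self a, ?_, (STW_le he).2 h.2⟩
  intro h0
  rw [← STW_bot he] at h0
  exact h.1 (he.inj h0)

private theorem STW_pos' (he : CEmb e) {a : A} {c : K}
    (h : Pos (Set.range e) (fun c => e (Good c)) (e a) c) : (a, c) ∈ Pc Good := by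
  refine ⟨?_, (STW_le he).1 h.2.2⟩
  intro h0
  change a = ⊥ at h0
  apply h.2.1
  rw [h0]
  exact STW_bot he

theorem two_le (he : CEmb e) (h2 : Two (Set.range e) Set.univ (fun c => e (Good c)) ι) {p : A × K} (hp : p ∈ Pc Good)
    (x : A) : ι (e p.1) p.2 ≤ e x ↔ p.1 ≤ x := by
  have h1 := h2.proj (e p.1) p.2 (STW_pos he hp)
  constructor
  · intro h
    have h3 := proj_le (A := Set.range e) (Set.mem_range_self x) h
    rw [h1] at h3
    exact (STW_le he).1 h3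
  · intro h
    have h3 := le_proj (A := Set.range e) (ι (e p.1) p.2)
    rw [h1] at h3
    exact h3.trans ((STW_le he).2 h)

theorem two_ne (he : CEmb e) (h2 : Two (Set.range e) Set.univ (fun c => e (Good c)) ι) {p : A × K} (hp : p ∈ Pc Good) :
    ι (e p.1) p.2 ≠ ⊥ := by
  intro h0
  have h1 := h2.proj (e p.1) p.2 (STW_pos he hp)
  rw [h0, proj_bot h2.subA, ← STW_bot he] at h1
  exact hp.1 (he.inj h1).symm

theorem two_mono (he : CEmb e) (h2 : Two (Set.range e) Set.univ (fun c => e (Good c)) ι) {p p' : A × K}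
    (hp : p ∈ Pc Good) (hp' : p' ∈ Pc Good) (h : p' ≤ p) : ι (e p'.1) p'.2 ≤ ι (e p.1) p.2 := by
  have h1 := h2.mono (e p'.1) p.2 p'.2 h.2 (STW_pos he hp')
  have h3 : e p'.1 ⊓ e p.1 = e p'.1 := inf_eq_left.2 ((STW_le he).2 h.1)
  have h4 : Pos (Set.range e) (fun c => e (Good c)) (e p'.1 ⊓ e p.1) p.2 := by
    rw [h3]
    exact STW_pos he ⟨hp'.1, h.1.trans hp.2⟩
  have h5 := h2.res (e p.1) (e p'.1) p.2 (STW_pos he hp) h4 (Set.mem_range_self _)
  rw [h3] at h5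
  rw [h5] at h1
  exact h1.trans inf_le_right

theorem two_below (he : CEmb e) (h2 : Two (Set.range e) Set.univ (fun c => e (Good c)) ι) {x : C} (hx : x ≠ ⊥) :
    ∃ p ∈ Pc Good, ι (e p.1) p.2 ≤ x := by
  obtain ⟨a, c, hp, hle⟩ := h2.dense x (Set.mem_univ x) hx
  obtain ⟨a', rfl⟩ := hp.1
  exact ⟨(a', c), STW_pos' he hp, hle⟩

theorem two_compat (he : CEmb e) (h2 : Two (Set.range e) Set.univ (fun c => e (Good c)) ι) {p : A × K}
    (hp : p ∈ Pc Good) {x : C} (hx : ι (e p.1) p.2 ⊓ x ≠ ⊥) :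
    ∃ p' ∈ Pc Good, p' ≤ p ∧ ι (e p'.1) p'.2 ≤ x := by
  obtain ⟨p'', hp'', h1⟩ := two_below he h2 hx
  obtain ⟨a, c, h3, h4, h5, h6, h7⟩ := h2.sep (e p.1) p.2 (e p''.1) p''.2 (STW_pos he hp)
    (STW_pos he hp'') (h1.trans inf_le_left)
  obtain ⟨a', rfl⟩ := h3.1
  have h8 : (a', c) ∈ Pc Good := STW_pos' he h3
  exact ⟨(a', c), h8, ⟨(STW_le he).1 h4, h6⟩,
    (two_mono he h2 hp'' h8 ⟨(STW_le he).1 h5, h7⟩).trans (h1.trans inf_le_right)⟩

end Pool.Agent.CAN
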