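import Pool.Agent.CAN.SRS
import Pool.Agent.CAN.SEV
import Pool.Agent.CAN.DIS
import Pool.Agent.CAN.DEL

/-!
# CAN / SWO: worlds

* `brw_spec`, `brw_uniq` (by `Sys.uniq`), `World.spec` (`World.br` and `brw_spec`).
* `exists_world`: the set of the elements of `M` and of the `u.U (del M) y` (`u ∈ M`, `y`) is countable (`tr_countable hM`; `Fin u.k → ℕ` is countable): `Distr.decide`.  Then `Distr.witness` for
  the countable index set of the pairs `(n, a)`, `a < del M` (`Om.Iio_countable`), with `f (n, a) m = R a (del M) n m` (`Sys.tot`).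
* `ev_gbr`: `w ≤ R a δ n (x a) ⊓ R a' δ n (x a')` for `x = brw R δ w n`, `δ = del M`, so `w ≤ R a a' (x a') (x a)` (`Sys.back`, `w ≤ b`).  This element is in `M`
  (`Ev.fn4` for `fun a a' n m => R a a' n m`, `Ev.nat`, `ev_del`).  If it is not in `G` then its complement is in `G` (`ev_gf`), so `w ≤` both, contradiction with `w ≠ ⊥`.
* `ev_world_dec`: `ev_gf`.
* `ev_worlds`: `𝒟 = {w | World R b M G w} ∪ {(b ⊓ sInf G)ᶜ}` is in `W i` (`Ev.fn2` for the function `fun (M : ZFSet.{1}) (G : Set A) => 𝒟` at the model `W i`; `InM M (W i)` is `M ∈ W i` by definition); `sSup 𝒟 = ⊤`: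
  otherwise `(sSup 𝒟)ᶜ ≠ ⊥` is `≤ b ⊓ sInf G` and `exists_world` gives a world below it.  So `gen Set.univ (W i) ≤ sSup {w ∈ 𝒟 | w ∈ W i}` (`gen_le`; `ggen_self`); distribute `b ⊓ sInf G` over the sup.
-/

set_option autoImplicit false

namespace Pool.Agent.CAN.Sp

variable {A : Type 1} [CompleteBooleanAlgebra A] {R : Om → Om → ℕ → ℕ → A} {b : A}

theorem brw_spec {d : Om} {w : A} {n : ℕ} {a : Om} (h : ∃ m, w ≤ R a d n m) : w ≤ R a d n (brw R d w n a) := by
  unfold brw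
  rw [dif_pos h]
  exact h.choose_spec

theorem brw_uniq (hR : Sys R b) {d : Om} {w : A} (hw : w ≠ ⊥) (hb : w ≤ b) {n : ℕ} {a : Om} (had : a ≤ d) {m : ℕ}
    (h : w ≤ R a d n m) : brw R d w n a = m := by
  by_contra hne
  have h1 := brw_spec ⟨m, h⟩
  have h2 := hR.uniq a d n _ _ had hne
  exact hw (le_bot_iff.1 ((le_inf (le_inf hb h1) h).trans h2.le))

theorem World.spec {M : ZFSet.{1}} {G : Set A} {w : A} (hw : World R b M G w) (n : ℕ) {a : Om} (ha : a < del M) :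
    w ≤ R a (del M) n (brw R (del M) w n a) :=
  brw_spec (hw.br n a ha)

theorem exists_world (hD : Distr (Set.univ : Set A)) (hR : Sys R b) {M : ZFSet.{1}} (hM : {x | x ∈ M}.Countable) {r : A}
    (hr : r ≠ ⊥) (hb : r ≤ b) :
    ∃ r' ≤ r, r' ≠ ⊥ ∧ (∀ x : A, InM x M → r' ≤ x ∨ r' ≤ xᶜ) ∧ ∀ G : Set A, (∀ x ∈ G, r' ≤ x) → World R b M G r' := by
  have hX : ({x : A | InM x M} ∪ ⋃ u ∈ {u : Prom A | InM u M}, Set.range (fun y => u.U (del M) y)).Countable :=
    (tr_countable hM).union ((tr_countable hM).biUnion fun u _ => Set.countable_range _)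
  obtain ⟨r1, -, hr1, hr1r, hdec⟩ := hD.decide csub_univ hX (Set.subset_univ _) (Set.mem_univ r) hr
  haveI : Countable (Set.Iio (del M)) := (Om.Iio_countable _).to_subtype
  obtain ⟨r2, -, hr2, hr21, hw⟩ := Distr.witness csub_univ hD
    (fun (i : ℕ × Set.Iio (del M)) (m : ℕ) => R i.2.1 (del M) i.1 m) (fun _ _ => Set.mem_univ _)
    (Set.mem_univ r1) hr1 (fun i => (hr1r.trans hb).trans (hR.tot _ _ (le_of_lt i.2.2) _))
  refine ⟨r2, hr21.trans hr1r, hr2, fun x hx => ?_, fun G hG => ⟨hr2, hG, (hr21.trans hr1r).trans hb,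
    fun n a ha => hw (n, ⟨a, ha⟩), fun u hu y => ?_⟩⟩
  · exact (hdec x (Or.inl hx)).imp (fun h => hr21.trans h) (fun h => hr21.trans h)
  · exact (hdec _ (Or.inr (Set.mem_biUnion hu ⟨y, rfl⟩))).imp (fun h => hr21.trans h)
      (fun h => hr21.trans h)

theorem ev_gbr (hR : Sys R b) : Ev (fun M => ∀ G : Set A, GenF Set.univ M G → ∀ w, World R b M G w → ∀ n,
    GBr R M G (brw R (del M) w n)) := by
  refine (((ev_gf (A := A)).and ev_del).and
    ((Ev.fn4 (fun (a a' : Om) (n m : ℕ) => R a a' n m)).and Ev.nat)).mono ?_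
  rintro M ⟨⟨hgf, hdel⟩, hfn, hnat⟩ G hG w hw n a a' haa ha'
  by_contra he
  have hin := hfn a a' (brw R (del M) w n a') (brw R (del M) w n a)
    ((hdel a).2 (lt_of_le_of_lt haa ha')) ((hdel a').2 ha') (hnat _) (hnat _)
  have h1 := hw.le _ ((hgf G hG).1 _ hin he)
  have h2 : w ≤ R a a' (brw R (del M) w n a') (brw R (del M) w n a) :=
    (le_inf (le_inf hw.leb (hw.spec n ha')) (hw.spec n (lt_of_le_of_lt haa ha'))).trans
      (Sys.back hR haa ha'.le _ _ _)
  exact hw.ne (le_bot_iff.1 ((le_inf h2 h1).trans (inf_compl_self _).le))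

theorem ev_world_dec : Ev (fun M => ∀ G : Set A, GenF Set.univ M G → ∀ w, World R b M G w → ∀ x, InM x M →
    w ≤ x ∨ w ≤ xᶜ) := by
  refine (ev_gf (A := A)).mono ?_
  intro M hgf G hG w hw x hx
  by_cases h : x ∈ G
  · exact Or.inl (hw.le x h)
  · exact Or.inr (hw.le _ ((hgf G hG).1 x hx h))

theorem ev_worlds (hD : Distr (Set.univ : Set A)) (hR : Sys R b) : EvN (fun M W i => ∀ G : Set A, InM G (W i) →
    b ⊓ sInf G ⊓ ggen Set.univ W i i ≤ sSup {w | InM w (W i) ∧ World R b M G w}) := by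
  have hfn := Ev.fn2 (fun (M : ZFSet.{1}) (G : Set A) =>
    ({w | World R b M G w} ∪ {(b ⊓ sInf G)ᶜ} : Set A))
  have hct : Ev (fun M => {x | x ∈ M}.Countable) := (Ev.mdl (fun x _ => x)).mono fun M h => h.ctbl
  refine (((EvN.of_evT (EvT.of_ev hfn)).and EvN.sub).and (EvN.of_ev hct)).mono ?_
  rintro M W i - ⟨⟨hfn, -, hMW, -⟩, hct⟩ G hG
  have hin := hfn i le_rfl M G hMW hG
  have hs : sSup ({w | World R b M G w} ∪ {(b ⊓ sInf G)ᶜ} : Set A) = ⊤ := by
    by_contra hne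
    have hr : (sSup ({w | World R b M G w} ∪ {(b ⊓ sInf G)ᶜ} : Set A))ᶜ ≠ ⊥ := by
      intro h
      exact hne (compl_eq_bot.1 h)
    have hle : (sSup ({w | World R b M G w} ∪ {(b ⊓ sInf G)ᶜ} : Set A))ᶜ ≤ b ⊓ sInf G := by
      rw [compl_le_iff_compl_le]
      exact le_sSup (Or.inr rfl)
    obtain ⟨r', hr', hr0, -, hw⟩ := exists_world hD hR hct hr (hle.trans inf_le_left)
    have hww := hw G fun x hx => (hr'.trans (hle.trans inf_le_right)).trans (sInf_le hx)
    have h1 : r' ≤ sSup ({w | World R b M G w} ∪ {(b ⊓ sInf G)ᶜ} : Set A) := le_sSup (Or.inl hww)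
    exact hr0 (le_bot_iff.1 ((le_inf h1 hr').trans (inf_compl_self _).le))
  have hg := gen_le hin (Set.subset_univ _) hs
  rw [ggen_self]
  refine (inf_le_inf_left _ hg).trans ?_
  rw [inf_sSup_eq]
  refine iSup₂_le fun d hd => ?_
  rcases hd.1 with h | h
  · exact inf_le_right.trans (le_sSup ⟨hd.2, h⟩)
  · rw [Set.mem_singleton_iff] at h
    rw [h, inf_compl_self]
    exact bot_le

end Pool.Agent.CAN.Sp
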