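import Pool.Agent.CAN.TBR
import Pool.Agent.CAN.TDef

/-!
# CAN/TBS: the bridge for the criteria of TDef (trivial side condition)
-/

set_option autoImplicit false

namespace Pool.Agent.CAN

private theorem TBS_do {A : Type 1} [CompleteBooleanAlgebra A] {K : Type 1} [Preorder K] {Good : K → A}
    {D : Set (A × K)} (h : DenseOpen Good D) : Sp.DOp Good D := ⟨h.sub, h.dense, h.down⟩

theorem np_of_t {A : Type 1} [CompleteBooleanAlgebra A] {K : Type 1} [Preorder K] {Good : K → A}
    (hd : Distr (Set.univ : Set A)) (hpp : EvT (Sp.PPc Good fun _ => ⊤)) (hnn : EvN (Sp.NNc Good fun _ => ⊤))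
    {C : Type 1} [CompleteBooleanAlgebra C] {e : A → C} (he : CEmb e) {ι : C → K → C}
    (h2 : Two (Set.range e) Set.univ (fun c => e (Good c)) ι) : NP (Set.range e) (Set.univ : Set C) := by
  refine np_of_c hd (hpp.mono ?_) (hnn.mono ?_) he h2
  · intro W i _ h j hj r hr hrg hdec p hp hpM hrp
    obtain ⟨r', k1, k2, c, k3, k4, k5⟩ := h j hj r hr hrg (fun _ _ _ => le_top) hdec p hp hpM hrp
    exact ⟨r', k2, k1, c, k3, k4, fun k hk hkj D hD hDo => k5 k hk hkj D hD (TBS_do hDo)⟩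
  · intro M W i _ h G hG hGF p hp hpM hpG
    obtain ⟨j, hj, c, k1, k2, k3, k4, k5⟩ := h G hG hGF p hp hpM hpG
    refine ⟨j, hj, c, k2, fun n => k1 (Nat.le_succ n), fun n => (k3 n).1, fun n => (k3 n).2,
      fun D hD hDo => k4 D hD (TBS_do hDo), ?_⟩
    rw [inf_top_eq] at k5
    exact k5

end Pool.Agent.CAN
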